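import Pool.Agent.H743.X17.Stm

/-!
# X17 AP: Frobenius traces of WM m at all primes
-/

set_option autoImplicit false

open scoped Classical

namespace Pool.Agent.H743.X17

namespace APaux

open Pool.Agent.W97.MT (ap affCount)
open Pool.Agent.N974.Gen
open Pool.Agent.Y687 (cnt cnt_eq)

/-- the sum for the curve `17a2` -/
lemma base {p : ℕ} [Fact p.Prime] (hp : p ≠ 2) :
    ∑ z : ZMod p, quadraticChar (ZMod p) (z * (z + 1) * (z - 16)) = - ap E17 p := by
  have hpp : p.Prime := Fact.out
  have h1 := cnt17 hpp hp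
  rw [cnt_eq _ _ p hp] at h1
  have h3 := char_aff hp (g := fun x : ZMod p => x * (x + 1) * (x - 16))
    (k := fun x : ZMod p => x ^ 3 + ((-91 : ℤ) : ZMod p) * x + ((-330 : ℤ) : ZMod p))
    (m := 1) (t := -5) (u := 1) one_ne_zero one_ne_zero (by intro x; push_cast; ring)
  rw [h3]
  linarith

/-- scaling -/
lemma scale {p : ℕ} [Fact p.Prime] (hp : p ≠ 2) (g : ZMod p → ZMod p) (a m u : ZMod p)
    (ha : a ≠ 0) (hm : m ≠ 0) (hu : u ≠ 0)
    (h : ∀ x, u ^ 2 * g (a * x) = m ^ 3 * (x * (x + 1) * (x - 16))) :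
    ∑ x : ZMod p, quadraticChar (ZMod p) (g x) = quadraticChar (ZMod p) m * (- ap E17 p) := by
  rw [← base hp, Finset.mul_sum]
  symm
  refine Fintype.sum_bijective (fun x => a * x) (mulLeft_bijective₀ a ha) _ _ fun x => ?_
  have hχu : quadraticChar (ZMod p) (u ^ 2) = 1 := quadraticChar_sq_one' hu
  have hχm : quadraticChar (ZMod p) (m ^ 2) = 1 := quadraticChar_sq_one' hm
  have h1 := congrArg (quadraticChar (ZMod p)) (h x)
  rw [map_mul, hχu, one_mul, map_mul, pow_succ, map_mul, hχm, one_mul] at h1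
  exact h1.symm

lemma zero_sum {p : ℕ} [Fact p.Prime] (hp : p ≠ 2) :
    ∑ x : ZMod p, quadraticChar (ZMod p) (4 * x ^ 3) = 0 := by
  have n2 := two_ne hp
  rw [← quadraticChar_sum_zero (rc hp)]
  refine Finset.sum_congr rfl fun x _ => ?_
  have e : (4 : ZMod p) * x ^ 3 = (2 * x) ^ 2 * x := by ring
  rw [e, map_mul]
  by_cases hx : x = 0
  · subst hx; simp
  · rw [quadraticChar_sq_one' (mul_ne_zero n2 hx), one_mul]

lemma odd_case {p : ℕ} [Fact p.Prime] (hp : p ≠ 2) (m : ℤ) :
    ap (WM m) p = ap E17 p * jacobiSym m p := by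
  have n2 := two_ne hp
  have n4 : (4 : ZMod p) ≠ 0 := by
    rw [show (4 : ZMod p) = 2 * 2 by norm_num]
    exact mul_ne_zero n2 n2
  have hj : jacobiSym m p = quadraticChar (ZMod p) ((m : ℤ) : ZMod p) := by
    rw [← jacobiSym.legendreSym.to_jacobiSym]; rfl
  rw [hj, ap_char hp]
  by_cases hm : ((m : ℤ) : ZMod p) = 0
  · rw [hm, MulChar.map_zero, mul_zero, neg_eq_zero]
    rw [← zero_sum hp]
    refine Finset.sum_congr rfl fun x _ => ?_
    congr 1
    unfold WM
    split_ifs with h4
    · have hd : 4 * ((15 * m + 1) / 4) = 15 * m + 1 := by omega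
      have hd' : (4 : ZMod p) * (((15 * m + 1) / 4 : ℤ) : ZMod p) = 15 * ((m : ℤ) : ZMod p) + 1 := by
        have := congrArg (fun z : ℤ => (z : ZMod p)) hd
        push_cast at this
        exact this
      simp only [W1, WeierstrassCurve.b₂, WeierstrassCurve.b₄, WeierstrassCurve.b₆]
      push_cast
      rw [hm] at hd' ⊢
      linear_combination (-x ^ 2) * hd'
    · simp only [W2, WeierstrassCurve.b₂, WeierstrassCurve.b₄, WeierstrassCurve.b₆]
      push_cast
      rw [hm]
      ring
  · have hgoal : ∑ x : ZMod p, quadraticChar (ZMod p) (4 * x ^ 3 + ((WM m).b₂ : ZMod p) * x ^ 2 +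
        2 * ((WM m).b₄ : ZMod p) * x + ((WM m).b₆ : ZMod p)) =
        quadraticChar (ZMod p) ((m : ℤ) : ZMod p) * (- ap E17 p) := by
      unfold WM
      split_ifs with h4
      · have hd : 4 * ((15 * m + 1) / 4) = 15 * m + 1 := by omega
        have hd' : (4 : ZMod p) * (((15 * m + 1) / 4 : ℤ) : ZMod p) =
            15 * ((m : ℤ) : ZMod p) + 1 := by
          have := congrArg (fun z : ℤ => (z : ZMod p)) hd
          push_cast at this
          exact this
        refine scale hp (fun x : ZMod p => 4 * x ^ 3 + ((W1 m).b₂ : ZMod p) * x ^ 2 +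
          2 * ((W1 m).b₄ : ZMod p) * x + ((W1 m).b₆ : ZMod p)) (((m : ℤ) : ZMod p) / 4)
          ((m : ℤ) : ZMod p) 4 (div_ne_zero hm n4) hm n4 fun x => ?_
        simp only [W1, WeierstrassCurve.b₂, WeierstrassCurve.b₄, WeierstrassCurve.b₆]
        push_cast
        field_simp
        linear_combination (- x ^ 2 * ((m : ℤ) : ZMod p) ^ 2) * hd'
      · refine scale hp (fun x : ZMod p => 4 * x ^ 3 + ((W2 m).b₂ : ZMod p) * x ^ 2 +
          2 * ((W2 m).b₄ : ZMod p) * x + ((W2 m).b₆ : ZMod p)) ((m : ℤ) : ZMod p)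
          ((m : ℤ) : ZMod p) (1 / 2) hm hm (div_ne_zero one_ne_zero n2) fun x => ?_
        simp only [W2, WeierstrassCurve.b₂, WeierstrassCurve.b₄, WeierstrassCurve.b₆]
        push_cast
        field_simp
        ring
    rw [hgoal]
    ring

lemma two_case (m : ℤ) : ap (WM m) 2 = ap E17 2 *
    (if m % 8 = 1 then 1 else if m % 8 = 5 then -1 else 0) := by
  rw [ap17_2]
  unfold WM
  split_ifs with h4 h1 h5 h1 h5
  · have ha2 : (((W1 m).a₂ : ℤ) : ZMod 2) = 0 := by
      rw [ZMod.intCast_zmod_eq_zero_iff_dvd]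
      simp only [W1]
      omega
    have ha4 : (((W1 m).a₄ : ℤ) : ZMod 2) = 1 := by
      have hm : ((m : ℤ) : ZMod 2) = 1 := by
        have : ((m - 1 : ℤ) : ZMod 2) = 0 := by
          rw [ZMod.intCast_zmod_eq_zero_iff_dvd]; omega
        push_cast at this
        exact sub_eq_zero.1 this
      simp only [W1]
      push_cast
      rw [hm]
      decide
    have h : affCount (W1 m) 2 = 3 := by
      rw [aff_eq, ha2, ha4]
      simp only [W1]
      decide
    unfold ap
    rw [h]
    norm_num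
  · have ha2 : (((W1 m).a₂ : ℤ) : ZMod 2) = 1 := by
      have : (((W1 m).a₂ - 1 : ℤ) : ZMod 2) = 0 := by
        rw [ZMod.intCast_zmod_eq_zero_iff_dvd]
        simp only [W1]
        omega
      push_cast at this
      exact sub_eq_zero.1 this
    have ha4 : (((W1 m).a₄ : ℤ) : ZMod 2) = 1 := by
      have hm : ((m : ℤ) : ZMod 2) = 1 := by
        have : ((m - 1 : ℤ) : ZMod 2) = 0 := by
          rw [ZMod.intCast_zmod_eq_zero_iff_dvd]; omega
        push_cast at this
        exact sub_eq_zero.1 this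
      simp only [W1]
      push_cast
      rw [hm]
      decide
    have h : affCount (W1 m) 2 = 1 := by
      rw [aff_eq, ha2, ha4]
      simp only [W1]
      decide
    unfold ap
    rw [h]
    norm_num
  · omega
  · omega
  · omega
  · have ha4 : (((W2 m).a₄ : ℤ) : ZMod 2) = 0 := by
      rw [ZMod.intCast_zmod_eq_zero_iff_dvd]
      simp only [W2]
      exact ⟨-8 * m ^ 2, by push_cast; ring⟩
    have h : affCount (W2 m) 2 = 2 := by
      rw [aff_eq, ha4]
      simp only [W2]
      generalize ((-15 * m : ℤ) : ZMod 2) = a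
      revert a
      decide
    unfold ap
    rw [h]
    norm_num

end APaux

theorem t_AP : S_AP := by
  intro m _ p hp
  have : Fact p.Prime := ⟨hp⟩
  by_cases h2 : p = 2
  · subst h2
    rw [if_pos rfl]
    exact APaux.two_case m
  · rw [if_neg h2]
    exact APaux.odd_case h2 m

end Pool.Agent.H743.X17
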