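import Pool.Agent.H743.X17.Defs
import Pool.Agent.H468.X15S.Pad

/-!
# Tools for the local conditions
-/

set_option autoImplicit false
set_option linter.all false

open scoped Classical

namespace Pool.Agent.H743.X17

open Pool.Agent.H468.X15 (ps dec pI val_of ps_of ps_unit val_unit val_p ps_p nd_mul nd_pow ps_mul
  val_mul jac_sq jac_pm jac_mul_self jac_mul_sq jac_congr ps_sq val_sq ps_pm nd_of_coprime hens
  exists_close sq_val sq_ps sq_of_jac sq_dec norm_four norm_four_le norm_four_pos sq_of_mod8)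

section ls

variable {A B u v : ℤ} {K : Type} [Field K]

theorem LS.ne {x y : K} (hy : y ≠ 0) (h : y ^ 2 = x * (x + A) * (x + B)) :
    x ≠ 0 ∧ x + A ≠ 0 ∧ x + B ≠ 0 := by
  have hprod : x * (x + A) * (x + B) ≠ 0 := by rw [← h]; exact pow_ne_zero 2 hy
  exact ⟨left_ne_zero_of_mul (left_ne_zero_of_mul hprod),
    right_ne_zero_of_mul (left_ne_zero_of_mul hprod), right_ne_zero_of_mul hprod⟩

/-- translation by `(0, 0)` -/
theorem LS.shiftA (hA : (A : K) ≠ 0) (hB : (B : K) ≠ 0) (h : LS A B u v K) :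
    LS A B (A * B * u) (A * v) K := by
  obtain ⟨x, y, hy, hxy, ⟨s, hs⟩, ⟨t, ht⟩⟩ := h
  obtain ⟨n0, nA, nB⟩ := LS.ne hy hxy
  refine ⟨A * B / x, A * B * y / x ^ 2, ?_, ?_, ⟨A * B * s / x, ?_⟩, ⟨A * y * t / (x * (x + A)), ?_⟩⟩
  · exact div_ne_zero (mul_ne_zero (mul_ne_zero hA hB) hy) (pow_ne_zero 2 n0)
  · rw [div_pow, mul_pow, hxy]; field_simp; ring
  · have e : A * B * s / x * (A * B * s / x) = (A * B) ^ 2 * (s * s) / x ^ 2   := by
      rw [div_mul_div_comm]; congr 1 <;> ring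
    rw [e, ← hs]; push_cast; field_simp
  · have e : A * y * t / (x * (x + A)) * (A * y * t / (x * (x + A))) =
      A ^ 2 * y ^ 2 * (t * t) / (x * (x + A)) ^ 2   := by
      rw [div_mul_div_comm]; congr 1 <;> ring
    rw [e, ← ht, hxy]; push_cast; field_simp; ring

/-- translation by `(-A, 0)` -/
theorem LS.shiftB (hA : (A : K) ≠ 0) (hAB : (A : K) - B ≠ 0) (h : LS A B u v K) :
    LS A B (-A * u) (A * (A - B) * v) K := by
  obtain ⟨x, y, hy, hxy, ⟨s, hs⟩, ⟨t, ht⟩⟩ := h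
  obtain ⟨n0, nA, nB⟩ := LS.ne hy hxy
  refine ⟨-A * (x + B) / (x + A), A * (A - B) * y / (x + A) ^ 2, ?_, ?_,
    ⟨A * y * s / (x * (x + A)), ?_⟩, ⟨A * (A - B) * t / (x + A), ?_⟩⟩
  · exact div_ne_zero (mul_ne_zero (mul_ne_zero hA hAB) hy) (pow_ne_zero 2 nA)
  · rw [div_pow, mul_pow, hxy]; field_simp; ring
  · have e : A * y * s / (x * (x + A)) * (A * y * s / (x * (x + A))) =
      A ^ 2 * y ^ 2 * (s * s) / (x * (x + A)) ^ 2   := by
      rw [div_mul_div_comm]; congr 1 <;> ring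
    rw [e, ← hs, hxy]; push_cast; field_simp
  · have e : A * (A - B) * t / (x + A) * (A * (A - B) * t / (x + A)) =
      (A * (A - B)) ^ 2 * (t * t) / (x + A) ^ 2   := by
      rw [div_mul_div_comm]; congr 1 <;> ring
    rw [e, ← ht]; push_cast; field_simp; ring

/-- translation by `(-B, 0)` -/
theorem LS.shiftC (hB : (B : K) ≠ 0) (hAB : (A : K) - B ≠ 0) (h : LS A B u v K) :
    LS A B (-B * u) ((A - B) * v) K := by
  obtain ⟨x, y, hy, hxy, ⟨s, hs⟩, ⟨t, ht⟩⟩ := h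
  obtain ⟨n0, nA, nB⟩ := LS.ne hy hxy
  refine ⟨-B * (x + A) / (x + B), B * (A - B) * y / (x + B) ^ 2, ?_, ?_,
    ⟨B * y * s / (x * (x + B)), ?_⟩, ⟨(A - B) * y * t / ((x + A) * (x + B)), ?_⟩⟩
  · exact div_ne_zero (mul_ne_zero (mul_ne_zero hB hAB) hy) (pow_ne_zero 2 nB)
  · rw [div_pow, mul_pow, hxy]; field_simp; ring
  · have e : B * y * s / (x * (x + B)) * (B * y * s / (x * (x + B))) =
      B ^ 2 * y ^ 2 * (s * s) / (x * (x + B)) ^ 2   := by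
      rw [div_mul_div_comm]; congr 1 <;> ring
    rw [e, ← hs, hxy]; push_cast; field_simp
  · have e : (A - B) * y * t / ((x + A) * (x + B)) * ((A - B) * y * t / ((x + A) * (x + B))) =
      (A - B) ^ 2 * y ^ 2 * (t * t) / ((x + A) * (x + B)) ^ 2   := by
      rw [div_mul_div_comm]; congr 1 <;> ring
    rw [e, ← ht, hxy]; push_cast; field_simp; ring

/-- only the classes modulo squares matter -/
theorem LS.congr {u' v' : ℤ} (hu : (u : K) ≠ 0) (hv : (v : K) ≠ 0)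
    (h1 : IsSquare ((u * u' : ℤ) : K)) (h2 : IsSquare ((v * v' : ℤ) : K)) (h : LS A B u v K) :
    LS A B u' v' K := by
  obtain ⟨x, y, hy, hxy, ⟨s, hs⟩, ⟨t, ht⟩⟩ := h
  obtain ⟨a, ha⟩ := h1
  obtain ⟨b, hb⟩ := h2
  push_cast at ha hb
  refine ⟨x, y, hy, hxy, ⟨s * a / u, ?_⟩, ⟨t * b / v, ?_⟩⟩
  · have e : s * a / u * (s * a / u) = (s * s) * (a * a) / u ^ 2   := by
      rw [div_mul_div_comm]; congr 1 <;> ring
    rw [e, ← hs, ← ha]; field_simp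
  · have e : t * b / v * (t * b / v) = (t * t) * (b * b) / v ^ 2   := by
      rw [div_mul_div_comm]; congr 1 <;> ring
    rw [e, ← ht, ← hb]; field_simp

end ls

section padic

variable {p : ℕ} [hp : Fact p.Prime]

/-- **approximation by rational numbers** -/
theorem appr (A B : ℤ) {x y : ℚ_[p]} (hy : y ≠ 0) (h : y ^ 2 = x * (x + A) * (x + B)) :
    ∃ r t : ℤ, IsCoprime r t ∧ r ≠ 0 ∧ r + A * t ^ 2 ≠ 0 ∧ r + B * t ^ 2 ≠ 0 ∧
      (∀ n : ℤ, IsSquare (x * n) → IsSquare ((r * n : ℤ) : ℚ_[p])) ∧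
      (∀ n : ℤ, IsSquare ((x + A) * n) → IsSquare (((r + A * t ^ 2) * n : ℤ) : ℚ_[p])) ∧
      IsSquare ((r * (r + A * t ^ 2) * (r + B * t ^ 2) : ℤ) : ℚ_[p]) := by
  obtain ⟨nA, nB, nC⟩ := LS.ne hy h
  have hp1 : (1 : ℝ) < p := by exact_mod_cast hp.out.one_lt
  have hp0 : (0 : ℝ) < p := by linarith
  set δ : ℝ := min (min ‖x‖ ‖x + A‖) ‖x + B‖ * ‖(4 : ℚ_[p])‖ with hδ
  have hδ0 : 0 < δ := mul_pos (lt_min (lt_min (norm_pos_iff.2 nA) (norm_pos_iff.2 nB))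
    (norm_pos_iff.2 nC)) norm_four_pos
  have hδA : δ ≤ ‖x‖ * ‖(4 : ℚ_[p])‖ := mul_le_mul_of_nonneg_right
    ((min_le_left _ _).trans (min_le_left _ _)) (norm_nonneg _)
  have hδB : δ ≤ ‖x + A‖ * ‖(4 : ℚ_[p])‖ := mul_le_mul_of_nonneg_right
    ((min_le_left _ _).trans (min_le_right _ _)) (norm_nonneg _)
  have hδC : δ ≤ ‖x + B‖ * ‖(4 : ℚ_[p])‖ := mul_le_mul_of_nonneg_right
    (min_le_right _ _) (norm_nonneg _)
  obtain ⟨r, t, hrt, ht0, hclose⟩ : ∃ r t : ℤ, IsCoprime r t ∧ (t : ℚ_[p]) ≠ 0 ∧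
      ‖(r : ℚ_[p]) / t ^ 2 - x‖ < δ := by
    by_cases hx : ‖x‖ ≤ 1
    · obtain ⟨r, hr⟩ := exists_close hx hδ0
      refine ⟨r, 1, isCoprime_one_right, by simp, ?_⟩
      rw [← norm_neg]
      have : -((r : ℚ_[p]) / ((1 : ℤ) : ℚ_[p]) ^ 2 - x) = x - r := by push_cast; ring
      rw [this]
      exact hr
    · push Not at hx
      have hnz : ∀ c : ℤ, ‖x + (c : ℚ_[p])‖ = ‖x‖ := by
        intro c
        have hc : ‖(c : ℚ_[p])‖ < ‖x‖ := (Padic.norm_int_le_one c).trans_lt hx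
        rw [Padic.add_eq_max_of_ne hc.ne']
        exact max_eq_left hc.le
      have hy2 : ‖y‖ ^ 2 = ‖x‖ ^ 3 := by
        rw [← norm_pow, h, norm_mul, norm_mul, hnz A, hnz B]
        ring
      have hxv := Padic.norm_eq_zpow_neg_valuation nA
      have hyv := Padic.norm_eq_zpow_neg_valuation hy
      have hval : -y.valuation * 2 = -x.valuation * 3 := by
        rw [hxv, hyv, ← zpow_natCast, ← zpow_natCast, ← zpow_mul, ← zpow_mul] at hy2
        exact zpow_right_injective₀ hp0 hp1.ne' hy2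
      have hxpos : 0 < -x.valuation := by
        by_contra hcon
        push Not at hcon
        rw [hxv] at hx
        have := zpow_le_one_of_nonpos₀ hp1.le hcon
        linarith
      obtain ⟨j, hj⟩ : ∃ j : ℕ, -x.valuation = 2 * j := ⟨(-x.valuation / 2).toNat, by omega⟩
      have hpz : (p : ℚ_[p]) ≠ 0 := by exact_mod_cast hp.out.ne_zero
      have hpn : ‖(p : ℚ_[p])‖ = (p : ℝ)⁻¹ := Padic.norm_p
      set z : ℚ_[p] := x * ((p : ℚ_[p]) ^ j) ^ 2 with hz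
      have hzn : ‖z‖ = 1 := by
        rw [hz, norm_mul, norm_pow, norm_pow, hpn, hxv, hj, ← pow_mul, inv_pow, zpow_mul,
          zpow_ofNat, zpow_natCast, ← pow_mul, mul_comm j 2]
        exact mul_inv_cancel₀ (pow_ne_zero _ hp0.ne')
      have hpj : 0 < ‖((p : ℚ_[p]) ^ j) ^ 2‖ := norm_pos_iff.2 (pow_ne_zero _ (pow_ne_zero _ hpz))
      obtain ⟨r, hr⟩ := exists_close hzn.le (δ := min 1 (δ * ‖((p : ℚ_[p]) ^ j) ^ 2‖))
        (lt_min one_pos (mul_pos hδ0 hpj))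
      have hr1 : ‖z - r‖ < 1 := hr.trans_le (min_le_left _ _)
      have hr2 : ‖z - r‖ < δ * ‖((p : ℚ_[p]) ^ j) ^ 2‖ := hr.trans_le (min_le_right _ _)
      have hrn : ¬ (p : ℤ) ∣ r := by
        intro h'
        have h1 := Padic.norm_intCast_lt_one_iff.2 h'
        have h2 : ‖z‖ < 1 := by
          have e : z = (z - r) + r := by ring
          rw [e]
          exact (Padic.nonarchimedean _ _).trans_lt (max_lt hr1 h1)
        rw [hzn] at h2
        exact lt_irrefl _ h2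
      refine ⟨r, (p : ℤ) ^ j, ?_, by push_cast; exact pow_ne_zero _ hpz, ?_⟩
      · exact IsCoprime.pow_right ((Prime.coprime_iff_not_dvd pI).2 hrn).symm
      · have e : (r : ℚ_[p]) / (((p : ℤ) ^ j : ℤ) : ℚ_[p]) ^ 2 - x =
            -((z - r) / ((p : ℚ_[p]) ^ j) ^ 2) := by
          rw [hz]
          push_cast
          field_simp
          ring
        rw [e, norm_neg, norm_div, div_lt_iff₀ hpj]
        exact hr2
  have key : ∀ c : ℤ, x + c ≠ 0 → δ ≤ ‖x + c‖ * ‖(4 : ℚ_[p])‖ →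
      r + c * t ^ 2 ≠ 0 ∧ ∃ q : ℚ_[p], ((r + c * t ^ 2 : ℤ) : ℚ_[p]) = (x + c) * q ^ 2 := by
    intro c hc hδc
    have hn : ‖((r : ℚ_[p]) / t ^ 2 - x) / (x + c)‖ < ‖(4 : ℚ_[p])‖ := by
      rw [norm_div, div_lt_iff₀ (norm_pos_iff.2 hc), mul_comm]
      exact hclose.trans_le hδc
    obtain ⟨q, hq⟩ := hens hn
    have e : ((r + c * t ^ 2 : ℤ) : ℚ_[p]) = (x + c) * (q * t) ^ 2 := by
      have h1 : (q * t) ^ 2 = (q * q) * (t : ℚ_[p]) ^ 2 := by ring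
      rw [h1, ← hq]
      push_cast
      field_simp
      ring
    refine ⟨?_, q * t, e⟩
    intro h0
    rw [h0, Int.cast_zero] at e
    have hq0 : q ≠ 0 := by
      rintro rfl
      rw [mul_zero] at hq
      have : ((r : ℚ_[p]) / t ^ 2 - x) / (x + c) = -1 := by linear_combination hq
      rw [this, norm_neg, norm_one] at hn
      exact absurd norm_four_le (not_le.2 hn)
    exact (mul_ne_zero hc (pow_ne_zero 2 (mul_ne_zero hq0 ht0))) e.symm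
  obtain ⟨k1, q1, e1⟩ := key 0 (by push_cast; rw [add_zero]; exact nA) (by
    push_cast; rw [add_zero]; exact hδA)
  obtain ⟨k2, q2, e2⟩ := key A nB hδB
  obtain ⟨k3, q3, e3⟩ := key B nC hδC
  rw [zero_mul, add_zero] at k1 e1
  rw [Int.cast_zero, add_zero] at e1
  push_cast at e2 e3
  refine ⟨r, t, hrt, k1, k2, k3, ?_, ?_, ?_⟩
  · rintro n ⟨w, hw⟩
    refine ⟨w * q1, ?_⟩
    rw [Int.cast_mul, e1]
    linear_combination q1 ^ 2 * hw
  · rintro n ⟨w, hw⟩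
    refine ⟨w * q2, ?_⟩
    push_cast
    rw [e2]
    linear_combination q2 ^ 2 * hw
  · refine ⟨y * (q1 * q2 * q3), ?_⟩
    push_cast
    rw [e2, e3, e1]
    linear_combination -(q1 * q2 * q3) ^ 2 * h

/-- the trivial class -/
theorem LS.one (A B : ℤ) : LS A B 1 1 ℚ_[p] := by
  have hpz : (p : ℚ_[p]) ≠ 0 := by exact_mod_cast hp.out.ne_zero
  have hp1 : (1 : ℝ) < p := by exact_mod_cast hp.out.one_lt
  have hpn : ‖(p : ℚ_[p])‖ = (p : ℝ)⁻¹ := Padic.norm_p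
  have h4 : ‖(p : ℚ_[p]) ^ 4‖ < ‖(4 : ℚ_[p])‖ := by
    by_cases h2 : p = 2
    · subst h2
      have e : ((2 : ℕ) : ℚ_[2]) ^ 4 = 4 * 4 := by norm_num
      rw [e, norm_mul]
      have h5 : ‖(4 : ℚ_[2])‖ < 1 := by
        have h6 : ‖((4 : ℤ) : ℚ_[2])‖ < 1 := Padic.norm_intCast_lt_one_iff.2 (by norm_num)
        exact_mod_cast h6
      exact mul_lt_of_lt_one_left norm_four_pos h5
    · have h5 : ‖(4 : ℚ_[p])‖ = 1 := by
        have h6 : ¬ (p : ℤ) ∣ 4 := by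
          intro h'
          have h7 : (p : ℤ) ∣ 2 ^ 2 := by norm_num; exact h'
          have h8 := pI.dvd_of_dvd_pow h7
          exact h2 ((Nat.prime_dvd_prime_iff_eq hp.out Nat.prime_two).1 (by exact_mod_cast h8))
        have h8 : ‖((4 : ℤ) : ℚ_[p])‖ = 1 := by
          rcases (Padic.norm_int_le_one (p := p) 4).lt_or_eq with h2 | h2
          · exact absurd (Padic.norm_intCast_lt_one_iff.1 h2) h6
          · exact h2
        exact_mod_cast h8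
      rw [h5, norm_pow, hpn]
      exact pow_lt_one₀ (by positivity) (inv_lt_one_of_one_lt₀ hp1) (by norm_num)
  have key : ∀ c : ℤ, ∃ r : ℚ_[p], r ≠ 0 ∧ ((p : ℚ_[p]) ^ 2)⁻¹ ^ 2 + c = r ^ 2 := by
    intro c
    have h5 : ‖(c : ℚ_[p]) * (p : ℚ_[p]) ^ 4‖ < ‖(4 : ℚ_[p])‖ := by
      rw [norm_mul]
      exact (mul_le_of_le_one_left (norm_nonneg _) (Padic.norm_int_le_one c)).trans_lt h4
    obtain ⟨r, hr⟩ := hens h5
    refine ⟨r / (p : ℚ_[p]) ^ 2, div_ne_zero ?_ (pow_ne_zero 2 hpz), ?_⟩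
    · rintro rfl
      rw [mul_zero] at hr
      have : (c : ℚ_[p]) * (p : ℚ_[p]) ^ 4 = -1 := by linear_combination hr
      rw [this, norm_neg, norm_one] at h5
      exact absurd norm_four_le (not_le.2 h5)
    · rw [div_pow, sq r, ← hr]
      field_simp
  obtain ⟨r2, n2, e2⟩ := key A
  obtain ⟨r3, n3, e3⟩ := key B
  have n1 : ((p : ℚ_[p]) ^ 2)⁻¹ ≠ 0 := inv_ne_zero (pow_ne_zero 2 hpz)
  refine ⟨((p : ℚ_[p]) ^ 2)⁻¹ ^ 2, ((p : ℚ_[p]) ^ 2)⁻¹ * r2 * r3,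
    mul_ne_zero (mul_ne_zero n1 n2) n3, ?_, ⟨((p : ℚ_[p]) ^ 2)⁻¹, ?_⟩, ⟨r2, ?_⟩⟩
  · rw [e2, e3]; ring
  · push_cast; ring
  · rw [e2]; push_cast; ring

/-- squares in `ℚ_p`, `p` odd -/
theorem sq_iff (hp2 : p ≠ 2) {n : ℤ} (hn : n ≠ 0) :
    IsSquare (n : ℚ_[p]) ↔ Even (padicValInt p n) ∧ ps p n = 1 := by
  constructor
  · exact fun h => ⟨sq_val hn h, sq_ps hn h⟩
  · rintro ⟨⟨k, hk⟩, h2⟩
    obtain ⟨u, hu, hu'⟩ := dec (p := p) hn
    have e : ps p n = jacobiSym u p := by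
      have := ps_of (k := padicValInt p n) hu'
      rwa [← hu] at this
    rw [e] at h2
    have h3 := sq_of_jac hp2 hu' h2
    rw [hu]
    push_cast
    rw [hk]
    exact IsSquare.mul ⟨(p : ℚ_[p]) ^ k, by rw [← pow_add]⟩ h3

end padic

/-- a square in `ℚ_2`: the odd part is `1` modulo `8` -/
theorem sq2_dec {n : ℤ} (hn : n ≠ 0) (h : IsSquare (n : ℚ_[2])) : ∃ (k : ℕ) (w : ℤ),
    n = (2 : ℤ) ^ (2 * k) * w ∧ w % 8 = 1 := by
  haveI : Fact (Nat.Prime 2) := ⟨Nat.prime_two⟩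
  obtain ⟨k, w, m, hnw, hw, -⟩ := sq_dec (p := 2) hn h
  refine ⟨k, w, by exact_mod_cast hnw, ?_⟩
  have hp : ((2 : ℕ) : ℚ_[2]) ≠ 0 := by norm_num
  have h1 : IsSquare (w : ℚ_[2]) := by
    obtain ⟨z, hz⟩ := h
    refine ⟨z / (2 : ℚ_[2]) ^ k, ?_⟩
    rw [hnw] at hz
    push_cast at hz
    rw [div_mul_div_comm, ← hz]
    field_simp
    ring
  obtain ⟨z, hz⟩ := h1
  have hwn : ‖(w : ℚ_[2])‖ = 1 := by
    rcases (Padic.norm_int_le_one (p := 2) w).lt_or_eq with h2 | h2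
    · exact absurd (Padic.norm_intCast_lt_one_iff.1 h2) hw
    · exact h2
  have hzn : ‖z‖ = 1 := by
    have h3 : ‖z‖ ^ 2 = 1 := by rw [← norm_pow, sq, ← hz, hwn]
    nlinarith [norm_nonneg z]
  obtain ⟨r, hr⟩ := exists_close (p := 2) hzn.le (δ := 1 / 4) (by norm_num)
  have hn2 : ‖(2 : ℚ_[2])‖ = 1 / 2 := by
    have := Padic.norm_p (p := 2)
    simpa using this
  have hn8 : ‖(8 : ℚ_[2])‖ = 1 / 8 := by
    have : (8 : ℚ_[2]) = 2 ^ 3 := by norm_num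
    rw [this, norm_pow, hn2]; norm_num
  -- `w - r²` is small
  have h3 : ‖((w - r ^ 2 : ℤ) : ℚ_[2])‖ ≤ (2 : ℝ) ^ (-(3 : ℕ) : ℤ) := by
    have hr8 : ‖z - r‖ ≤ 1 / 8 := by
      have h5 := (Padic.norm_le_pow_iff_norm_lt_pow_add_one (p := 2) (z - (r : ℚ_[2])) (-3 : ℤ)).2
        (by norm_num; exact hr)
      norm_num at h5 ⊢
      exact h5
    have e : ((w - r ^ 2 : ℤ) : ℚ_[2]) = (z - r) * (z + r) := by push_cast; rw [hz]; ring
    rw [e, norm_mul]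
    have h7 : ‖z + r‖ ≤ 1 := (Padic.nonarchimedean _ _).trans (max_le hzn.le (Padic.norm_int_le_one r))
    calc ‖z - r‖ * ‖z + r‖ ≤ 1 / 8 * 1 := mul_le_mul hr8 h7 (norm_nonneg _) (by norm_num)
      _ = _ := by norm_num
  have h4 : (8 : ℤ) ∣ w - r ^ 2 := by
    have := (Padic.norm_int_le_pow_iff_dvd (p := 2) (w - r ^ 2) 3).1 h3
    exact_mod_cast this
  have hw2 : w % 2 = 1 := by
    have : ¬ (2 : ℤ) ∣ w := by exact_mod_cast hw
    omega
  have h5 : r ^ 2 % 8 = 0 ∨ r ^ 2 % 8 = 1 ∨ r ^ 2 % 8 = 4 := by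
    have h6 : r % 8 = 0 ∨ r % 8 = 1 ∨ r % 8 = 2 ∨ r % 8 = 3 ∨ r % 8 = 4 ∨ r % 8 = 5 ∨ r % 8 = 6 ∨
      r % 8 = 7 := by omega
    rw [sq, Int.mul_emod]
    rcases h6 with h | h | h | h | h | h | h | h <;> rw [h] <;> norm_num
  omega

theorem sq2_of {k : ℕ} {w : ℤ} (hw : w % 8 = 1) : IsSquare (((2 : ℤ) ^ (2 * k) * w : ℤ) : ℚ_[2]) := by
  push_cast
  rw [two_mul, pow_add]
  exact IsSquare.mul ⟨(2 : ℚ_[2]) ^ k, rfl⟩ (sq_of_mod8 hw)

end Pool.Agent.H743.X17
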