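import Pool.Agent.H743.X17.Defs

/-!
# `E_m : y² = x (x + m) (x - 16 m)`: the local conditions are sufficient, statements of the parts
-/

set_option autoImplicit false

namespace Pool.Agent.H743.X17

/-- SUFINF -/
def S_SUFINF : Prop := ∀ m u v : ℤ, m ≠ 0 → u ≠ 0 → v ≠ 0 → (0 < m → 0 < v) →
  (m < 0 → 0 < u * v) → LS m (-16 * m) u v ℝ

/-- SUFGOOD -/
def S_SUFGOOD : Prop := ∀ (p : ℕ) [Fact p.Prime] (m u v : ℤ), p ≠ 2 → p ≠ 17 → ¬ (p : ℤ) ∣ m →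
  ¬ (p : ℤ) ∣ u → ¬ (p : ℤ) ∣ v → LS m (-16 * m) u v ℚ_[p]

/-- SUFODD -/
def S_SUFODD : Prop := ∀ (p : ℕ) [Fact p.Prime] (m u v : ℤ), p ≠ 2 → p ≠ 17 → (p : ℤ) ∣ m →
  Squarefree m → Squarefree u → Squarefree v →
  lam p u = ind p u * lam p (-m) + ind p v * lam p (-1) →
  lam p v = ind p v * lam p m + ind p u * lam p 17 → LS m (-16 * m) u v ℚ_[p]

/-- SUF17 -/
def S_SUF17 : Prop := ∀ [Fact (Nat.Prime 17)] (m u v : ℤ), Squarefree m → Squarefree u →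
  Squarefree v → (¬ (17 : ℤ) ∣ m → ¬ (17 : ℤ) ∣ u ∧ lam 17 u = ind 17 v * lam 17 m) →
  ((17 : ℤ) ∣ m → lam 17 u = ind 17 u * lam 17 m ∧ lam 17 v = (ind 17 u + ind 17 v) * lam 17 m) →
  LS m (-16 * m) u v ℚ_[17]

/-- SUF2 -/
def S_SUF2 : Prop := ∀ [Fact (Nat.Prime 2)] (m u v : ℤ), Squarefree m → Squarefree u →
  Squarefree v → (m % 4 = 1 → ¬ (2 : ℤ) ∣ u ∧ v % 4 = 1) →
  (m % 4 ≠ 1 → ((up 2 v % 8 = 1 ∧ ¬ (2 : ℤ) ∣ v) ∨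
    (((2 : ℤ) ∣ v ↔ (2 : ℤ) ∣ m) ∧ (up 2 v * up 2 m) % 8 = 1)) ∧ h2 u m = e4 v) →
  LS m (-16 * m) u v ℚ_[2]

end Pool.Agent.H743.X17
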