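import Pool.Agent.H743.X17.Kit
import Pool.Agent.H743.X17.Stm2
import Pool.Agent.H468.X15S.FF

/-!
# X17-SUFGOOD: the local conditions are sufficient at the good primes
-/

set_option autoImplicit false

namespace Pool.Agent.H743.X17.QSUFGOOD

open Pool.Agent.H743.X17
open Pool.Agent.H468.X15 (sq_of_jac jac_pm nd_mul ff_point)

variable {p : ℕ} [hp : Fact p.Prime]

theorem ne_zero_of_nd {u : ℤ} (hu : ¬ (p : ℤ) ∣ u) : (u : ℚ_[p]) ≠ 0 := by
  intro h
  apply hu
  have : u = 0 := by exact_mod_cast h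
  rw [this]
  exact dvd_zero _

theorem jac_sq_one {u : ℤ} (hu : ¬ (p : ℤ) ∣ u) : jacobiSym u p * jacobiSym u p = 1 := by
  rcases jac_pm hu with h | h <;> rw [h] <;> norm_num

theorem nd_mul_left {a b : ℤ} (h : ¬ (p : ℤ) ∣ a) (h' : ¬ (p : ℤ) ∣ b) : ¬ (p : ℤ) ∣ a * b :=
  nd_mul h h'

/-- a point over the field with `p` elements, possibly of order two -/
theorem of_point (hp2 : p ≠ 2) {A B u v r : ℤ} (hA : ¬ (p : ℤ) ∣ A) (hB : ¬ (p : ℤ) ∣ B)
    (hAB : ¬ (p : ℤ) ∣ A - B) (hu : ¬ (p : ℤ) ∣ u) (hv : ¬ (p : ℤ) ∣ v)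
    (h0 : ¬ (p : ℤ) ∣ r → jacobiSym r p = jacobiSym u p)
    (h1 : ¬ (p : ℤ) ∣ r + A → jacobiSym (r + A) p = jacobiSym v p)
    (h2 : ¬ (p : ℤ) ∣ r + B → jacobiSym (r + B) p = jacobiSym u p * jacobiSym v p) :
    LS A B u v ℚ_[p] := by
  have ju := jac_sq_one hu
  have jv := jac_sq_one hv
  have hA0 : (A : ℚ_[p]) ≠ 0 := ne_zero_of_nd hA
  have hB0 : (B : ℚ_[p]) ≠ 0 := ne_zero_of_nd hB
  have hAB0 : (A : ℚ_[p]) - B ≠ 0 := by
    have := ne_zero_of_nd hAB
    push_cast at this
    exact this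
  have one : LS A B 1 1 ℚ_[p] := LS.one A B
  have hcong : ∀ {x y : ℤ}, (x - y) % p = 0 → jacobiSym x p = jacobiSym y p := by
    intro x y hxy
    rw [jacobiSym.mod_left x p, jacobiSym.mod_left y p,
      Int.emod_eq_emod_iff_emod_sub_eq_zero.2 hxy]
  by_cases d0 : (p : ℤ) ∣ r
  · -- the point `(0, 0)`
    have k1 : ¬ (p : ℤ) ∣ r + A := fun h => hA ((Int.dvd_add_right d0).1 h)
    have k2 : ¬ (p : ℤ) ∣ r + B := fun h => hB ((Int.dvd_add_right d0).1 h)
    have j1 : jacobiSym A p = jacobiSym v p := by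
      rw [← h1 k1]
      exact hcong (by rw [show A - (r + A) = -r by ring]; exact Int.emod_eq_zero_of_dvd (by rwa [dvd_neg]))
    have j2 : jacobiSym B p = jacobiSym u p * jacobiSym v p := by
      rw [← h2 k2]
      exact hcong (by rw [show B - (r + B) = -r by ring]; exact Int.emod_eq_zero_of_dvd (by rwa [dvd_neg]))
    have key := LS.shiftA hA0 hB0 one
    refine LS.congr ?_ ?_ ?_ ?_ key
    · exact ne_zero_of_nd (nd_mul (nd_mul hA hB) (by rw [Int.natCast_dvd]; simpa using hp.out.one_lt.ne'))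
    · exact ne_zero_of_nd (nd_mul hA (by rw [Int.natCast_dvd]; simpa using hp.out.one_lt.ne'))
    · rw [mul_one]
      refine sq_of_jac hp2 (nd_mul (nd_mul hA hB) hu) ?_
      rw [jacobiSym.mul_left, jacobiSym.mul_left, j1, j2]
      linear_combination jacobiSym v p * jacobiSym v p * ju + jv
    · rw [mul_one]
      refine sq_of_jac hp2 (nd_mul hA hv) ?_
      rw [jacobiSym.mul_left, j1]
      exact jv
  by_cases d1 : (p : ℤ) ∣ r + A
  · -- the point `(-A, 0)`
    have k2 : ¬ (p : ℤ) ∣ r + B := fun h => hAB (by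
      have := dvd_sub d1 h
      rwa [show r + A - (r + B) = A - B by ring] at this)
    have j0 : jacobiSym (-A) p = jacobiSym u p := by
      rw [← h0 d0]
      exact hcong (by rw [show -A - r = -(r + A) by ring]; exact Int.emod_eq_zero_of_dvd (by rwa [dvd_neg]))
    have j2 : jacobiSym (B - A) p = jacobiSym u p * jacobiSym v p := by
      rw [← h2 k2]
      exact hcong (by rw [show B - A - (r + B) = -(r + A) by ring]; exact Int.emod_eq_zero_of_dvd (by rwa [dvd_neg]))
    have key := LS.shiftB hA0 hAB0 one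
    refine LS.congr ?_ ?_ ?_ ?_ key
    · exact ne_zero_of_nd (nd_mul (by rwa [dvd_neg]) (by rw [Int.natCast_dvd]; simpa using hp.out.one_lt.ne'))
    · exact ne_zero_of_nd (nd_mul (nd_mul hA hAB) (by rw [Int.natCast_dvd]; simpa using hp.out.one_lt.ne'))
    · rw [mul_one]
      refine sq_of_jac hp2 (nd_mul (by rwa [dvd_neg]) hu) ?_
      rw [jacobiSym.mul_left, j0]
      exact ju
    · rw [mul_one]
      refine sq_of_jac hp2 (nd_mul (nd_mul hA hAB) hv) ?_
      rw [show A * (A - B) * v = (-A) * (B - A) * v by ring, jacobiSym.mul_left,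
        jacobiSym.mul_left, j0, j2]
      linear_combination jacobiSym v p * jacobiSym v p * ju + jv
  by_cases d2 : (p : ℤ) ∣ r + B
  · -- the point `(-B, 0)`
    have j0 : jacobiSym (-B) p = jacobiSym u p := by
      rw [← h0 d0]
      exact hcong (by rw [show -B - r = -(r + B) by ring]; exact Int.emod_eq_zero_of_dvd (by rwa [dvd_neg]))
    have j1 : jacobiSym (A - B) p = jacobiSym v p := by
      rw [← h1 d1]
      exact hcong (by rw [show A - B - (r + A) = -(r + B) by ring]; exact Int.emod_eq_zero_of_dvd (by rwa [dvd_neg]))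
    have key := LS.shiftC hB0 hAB0 one
    refine LS.congr ?_ ?_ ?_ ?_ key
    · exact ne_zero_of_nd (nd_mul (by rwa [dvd_neg]) (by rw [Int.natCast_dvd]; simpa using hp.out.one_lt.ne'))
    · exact ne_zero_of_nd (nd_mul hAB (by rw [Int.natCast_dvd]; simpa using hp.out.one_lt.ne'))
    · rw [mul_one]
      refine sq_of_jac hp2 (nd_mul (by rwa [dvd_neg]) hu) ?_
      rw [jacobiSym.mul_left, j0]
      exact ju
    · rw [mul_one]
      refine sq_of_jac hp2 (nd_mul hAB hv) ?_
      rw [jacobiSym.mul_left, j1]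
      exact jv
  -- a point which is not of order two
  have j0 := h0 d0
  have j1 := h1 d1
  have j2 := h2 d2
  have hprod := nd_mul (nd_mul d0 d1) d2
  obtain ⟨y, hy⟩ := sq_of_jac hp2 hprod (by
    rw [jacobiSym.mul_left, jacobiSym.mul_left, j0, j1, j2]
    linear_combination jacobiSym v p * jacobiSym v p * ju + jv)
  refine ⟨(r : ℚ_[p]), y, ?_, ?_, ?_, ?_⟩
  · rintro rfl
    rw [mul_zero] at hy
    exact ne_zero_of_nd hprod hy
  · rw [sq, ← hy]
    push_cast
    ring
  · have := sq_of_jac hp2 (nd_mul d0 hu) (by rw [jacobiSym.mul_left, j0]; exact ju)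
    push_cast at this
    exact this
  · have := sq_of_jac hp2 (nd_mul d1 hv) (by rw [jacobiSym.mul_left, j1]; exact jv)
    push_cast at this
    exact this

theorem jac_of_sq {u : ℤ} (h0 : ¬ (p : ℤ) ∣ u) (h : IsSquare (u : ZMod p)) :
    jacobiSym u p = 1 := by
  have hz : (u : ZMod p) ≠ 0 := by rwa [Ne, ZMod.intCast_zmod_eq_zero_iff_dvd]
  rw [← jacobiSym.legendreSym.to_jacobiSym, legendreSym.eq_one_iff p hz]
  exact h

theorem jac_of_nsq {u : ℤ} (h0 : ¬ (p : ℤ) ∣ u) (h : ¬ IsSquare (u : ZMod p)) :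
    jacobiSym u p = -1 := by
  have hz : (u : ZMod p) ≠ 0 := by rwa [Ne, ZMod.intCast_zmod_eq_zero_iff_dvd]
  rcases jac_pm h0 with h7 | h7
  · exfalso
    rw [← jacobiSym.legendreSym.to_jacobiSym] at h7
    exact h ((legendreSym.eq_one_iff p hz).1 h7)
  · exact h7

/-- the curve `y² = x (x + A) (x + B)` with good reduction at `p` -/
theorem good (hp2 : p ≠ 2) {A B u v : ℤ} (hA : ¬ (p : ℤ) ∣ A) (hB : ¬ (p : ℤ) ∣ B)
    (hAB : ¬ (p : ℤ) ∣ A - B) (hu : ¬ (p : ℤ) ∣ u) (hv : ¬ (p : ℤ) ∣ v) :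
    LS A B u v ℚ_[p] := by
  have nz : ∀ {w : ℤ}, ¬ (p : ℤ) ∣ w → (w : ZMod p) ≠ 0 := fun {w} hw => by
    rwa [Ne, ZMod.intCast_zmod_eq_zero_iff_dvd]
  have zA := nz hA
  have zB := nz hB
  have zAB := nz hAB
  push_cast at zAB
  have sq : ∀ {r c : ℤ}, IsSquare ((r : ZMod p) - (c : ZMod p)) → ¬ (p : ℤ) ∣ r - c →
      jacobiSym (r - c) p = 1 := fun {r c} h h' => jac_of_sq h' (by push_cast; exact h)
  have nsq : ∀ {r c : ℤ}, ((r : ZMod p) ≠ (c : ZMod p) → ¬ IsSquare ((r : ZMod p) - (c : ZMod p))) →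
      ¬ (p : ℤ) ∣ r - c → jacobiSym (r - c) p = -1 := fun {r c} h h' =>
    jac_of_nsq h' (by
      push_cast
      refine h fun h2 => h' ?_
      rw [← ZMod.intCast_zmod_eq_zero_iff_dvd]
      push_cast
      rw [h2, sub_self])
  rcases jac_pm hu with ju | ju <;> rcases jac_pm hv with jv | jv
  · refine LS.congr (u := 1) (v := 1) ?_ ?_ ?_ ?_ (LS.one A B)
    · simp
    · simp
    · rw [one_mul]; exact sq_of_jac hp2 hu ju
    · rw [one_mul]; exact sq_of_jac hp2 hv jv
  · obtain ⟨x, hc, ha, hb⟩ := ff_point (p := p) hp2 (a := ((-A : ℤ) : ZMod p))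
      (b := ((-B : ℤ) : ZMod p)) (c := ((0 : ℤ) : ZMod p))
      (by push_cast; intro h; exact zAB (by linear_combination -h))
      (by push_cast; intro h; exact zA (by linear_combination -h))
      (by push_cast; intro h; exact zB (by linear_combination -h))
    obtain ⟨r, rfl⟩ := ZMod.intCast_surjective x
    refine of_point hp2 hA hB hAB hu hv (r := r) (fun h => ?_) (fun h => ?_) (fun h => ?_)
    · rw [ju]; have := sq hc (by rwa [sub_zero]); rwa [sub_zero] at this
    · rw [jv]; have := nsq ha (by rwa [sub_neg_eq_add]); rwa [sub_neg_eq_add] at this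
    · rw [ju, jv]; have := nsq hb (by rwa [sub_neg_eq_add]); rwa [sub_neg_eq_add] at this
  · obtain ⟨x, hc, ha, hb⟩ := ff_point (p := p) hp2 (a := ((0 : ℤ) : ZMod p))
      (b := ((-B : ℤ) : ZMod p)) (c := ((-A : ℤ) : ZMod p))
      (by push_cast; intro h; exact zB (by linear_combination h))
      (by push_cast; intro h; exact zA (by linear_combination h))
      (by push_cast; intro h; exact zAB (by linear_combination h))
    obtain ⟨r, rfl⟩ := ZMod.intCast_surjective x
    refine of_point hp2 hA hB hAB hu hv (r := r) (fun h => ?_) (fun h => ?_) (fun h => ?_)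
    · rw [ju]; have := nsq ha (by rwa [sub_zero]); rwa [sub_zero] at this
    · rw [jv]; have := sq hc (by rwa [sub_neg_eq_add]); rwa [sub_neg_eq_add] at this
    · rw [ju, jv]; have := nsq hb (by rwa [sub_neg_eq_add]); rwa [sub_neg_eq_add] at this
  · obtain ⟨x, hc, ha, hb⟩ := ff_point (p := p) hp2 (a := ((0 : ℤ) : ZMod p))
      (b := ((-A : ℤ) : ZMod p)) (c := ((-B : ℤ) : ZMod p))
      (by push_cast; intro h; exact zA (by linear_combination h))
      (by push_cast; intro h; exact zB (by linear_combination h))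
      (by push_cast; intro h; exact zAB (by linear_combination -h))
    obtain ⟨r, rfl⟩ := ZMod.intCast_surjective x
    refine of_point hp2 hA hB hAB hu hv (r := r) (fun h => ?_) (fun h => ?_) (fun h => ?_)
    · rw [ju]; have := nsq ha (by rwa [sub_zero]); rwa [sub_zero] at this
    · rw [jv]; have := nsq hb (by rwa [sub_neg_eq_add]); rwa [sub_neg_eq_add] at this
    · rw [ju, jv]; have := sq hc (by rwa [sub_neg_eq_add]); rwa [sub_neg_eq_add] at this

theorem t_SUFGOOD : S_SUFGOOD := by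
  intro p hp m u v hp2 hp17 hm hu hv
  have n2 : ¬ (p : ℤ) ∣ 2 := by
    intro h'
    exact hp2 ((Nat.prime_dvd_prime_iff_eq hp.out Nat.prime_two).1 (by exact_mod_cast h'))
  have n17 : ¬ (p : ℤ) ∣ 17 := by
    intro h'
    exact hp17 ((Nat.prime_dvd_prime_iff_eq hp.out (by norm_num)).1 (by exact_mod_cast h'))
  have n16 : ¬ (p : ℤ) ∣ 16 := by
    have := nd_mul (nd_mul n2 n2) (nd_mul n2 n2)
    norm_num at this
    exact this
  refine good hp2 hm ?_ ?_ hu hv
  · rw [neg_mul, dvd_neg]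
    exact nd_mul n16 hm
  · rw [show m - -16 * m = 17 * m by ring]
    exact nd_mul n17 hm

end Pool.Agent.H743.X17.QSUFGOOD
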