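import Pool.Agent.H743.X17.Stm
import Pool.Agent.H468.X15.Loc

/-!
# Additive characters of `ℚ^* / squares` (project X17 of helper743, jobs SYSF and SYSB)
-/

set_option autoImplicit false
set_option linter.all false

namespace Pool.Agent.H743.X17.QSYSF

open Pool.Agent.H743.X17
open Pool.Agent.H468.X15 (ps dec pI val_of ps_of ps_unit val_unit val_p ps_p nd_mul ps_mul val_mul
  jac_pm ps_pm)

/-- additive characters -/
def AddH (F : ℤ → ZMod 2) : Prop := ∀ a b : ℤ, a ≠ 0 → b ≠ 0 → F (a * b) = F a + F b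

theorem z2 (a : ZMod 2) : a + a = 0 := by revert a; decide

theorem z2sq (a : ZMod 2) : a * a = a := by revert a; decide

section addh

variable {F : ℤ → ZMod 2}

theorem AddH.one (h : AddH F) : F 1 = 0 := by
  have h1 := h 1 1 one_ne_zero one_ne_zero
  rw [mul_one, z2] at h1
  exact h1

theorem AddH.sq (h : AddH F) {n : ℤ} (hn : n ≠ 0) : F (n * n) = 0 := by
  rw [h n n hn hn, z2]

theorem AddH.isSq (h : AddH F) {n : ℤ} (hn : n ≠ 0) (hs : IsSquare n) : F n = 0 := by
  obtain ⟨k, rfl⟩ := hs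
  exact h.sq (left_ne_zero_of_mul hn)

theorem AddH.prod (h : AddH F) (S : Finset ℕ) (g : ℕ → ℤ) (hg : ∀ q ∈ S, g q ≠ 0) :
    F (∏ q ∈ S, g q) = ∑ q ∈ S, F (g q) := by
  classical
  induction S using Finset.induction_on with
  | empty => simp [h.one]
  | insert a S ha ih =>
    rw [Finset.prod_insert ha, Finset.sum_insert ha, h _ _ (hg a (Finset.mem_insert_self a S))
      (Finset.prod_ne_zero_iff.2 fun q hq => hg q (Finset.mem_insert_of_mem hq)),
      ih fun q hq => hg q (Finset.mem_insert_of_mem hq)]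

theorem AddH.pow (h : AddH F) {n : ℤ} (hn : n ≠ 0) (c : ZMod 2) : F (n ^ c.val) = c * F n := by
  have h01 : c = 0 ∨ c = 1 := by revert c; decide
  rcases h01 with rfl | rfl
  · simp [h.one]
  · have : (1 : ZMod 2).val = 1 := rfl
    rw [this, pow_one, one_mul]

end addh

/-- the valuation modulo two -/
def V (p : ℕ) (n : ℤ) : ZMod 2 := ((padicValInt p n : ℕ) : ZMod 2)

theorem V_addH (p : ℕ) [Fact p.Prime] : AddH (V p) := by
  intro a b ha hb
  unfold V
  rw [val_mul ha hb]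
  push_cast
  rfl

theorem V_prime {p q : ℕ} (hp : p.Prime) (hq : q.Prime) : V p q = if p = q then 1 else 0 := by
  haveI : Fact p.Prime := ⟨hp⟩
  haveI : Fact q.Prime := ⟨hq⟩
  unfold V
  rw [padicValInt.of_nat]
  split_ifs with h
  · subst h
    rw [padicValNat_self]
    rfl
  · rw [padicValNat_primes h]
    rfl

theorem V_unit {p : ℕ} [Fact p.Prime] {n : ℤ} (h : ¬ (p : ℤ) ∣ n) : V p n = 0 := by
  unfold V
  rw [val_unit h]
  rfl

theorem V_neg_one {p : ℕ} (hp : p.Prime) : V p (-1) = 0 := by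
  haveI : Fact p.Prime := ⟨hp⟩
  apply V_unit
  intro h
  have h1 : (p : ℤ) ∣ 1 := by simpa using h
  have := Int.le_of_dvd one_pos h1
  have := hp.two_le
  omega

/-- a positive integer with even valuations is a square -/
theorem sq_of_V {n : ℤ} (hn : 0 < n) (h : ∀ q : ℕ, q.Prime → V q n = 0) : IsSquare n := by
  obtain ⟨N, rfl⟩ := Int.eq_ofNat_of_zero_le hn.le
  have hN : 0 < N := by exact_mod_cast hn
  obtain ⟨a, b, ha, hb, hab, hsf⟩ := Nat.sq_mul_squarefree_of_pos hN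
  have h1 : a = 1 := by
    by_contra hne
    obtain ⟨q, hq, hqa⟩ := Nat.exists_prime_and_dvd hne
    haveI : Fact q.Prime := ⟨hq⟩
    have h2 := h q hq
    have hb0 : (b : ℤ) ≠ 0 := by exact_mod_cast hb.ne'
    have ha0 : (a : ℤ) ≠ 0 := by exact_mod_cast ha.ne'
    rw [← hab] at h2
    push_cast at h2
    rw [V_addH q _ _ (pow_ne_zero 2 hb0) ha0, sq, (V_addH q).sq hb0, zero_add] at h2
    obtain ⟨c, rfl⟩ := hqa
    have hc : ¬ q ∣ c := by
      intro hc
      obtain ⟨d, rfl⟩ := hc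
      exact hq.one_lt.ne' (Nat.isUnit_iff.1 (hsf q ⟨d, by ring⟩))
    have hc0 : (c : ℤ) ≠ 0 := by
      rintro h0
      apply hc
      have : c = 0 := by exact_mod_cast h0
      rw [this]; exact dvd_zero q
    push_cast at h2
    rw [V_addH q _ _ (by exact_mod_cast hq.ne_zero) hc0, V_prime hq hq, if_pos rfl,
      V_unit (by exact_mod_cast hc)] at h2
    revert h2; decide
  rw [h1, mul_one] at hab
  rw [← hab]
  exact ⟨b, by push_cast; ring⟩

/-- the expansion of a character -/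
theorem expand {F : ℤ → ZMod 2} (h : AddH F) {n : ℤ} (hn : 0 < n) (S : Finset ℕ)
    (hS : ∀ q ∈ S, q.Prime) (hsupp : ∀ q : ℕ, q.Prime → q ∉ S → V q n = 0) :
    F n = ∑ q ∈ S, V q n * F q := by
  classical
  have hg : ∀ q ∈ S, ((q : ℤ) ^ (V q n).val) ≠ 0 := fun q hq =>
    pow_ne_zero _ (by exact_mod_cast (hS q hq).ne_zero)
  have hw : 0 < ∏ q ∈ S, (q : ℤ) ^ (V q n).val := Finset.prod_pos fun q hq =>
    pow_pos (by exact_mod_cast (hS q hq).pos) _
  have hFw : ∀ F' : ℤ → ZMod 2, AddH F' → F' (∏ q ∈ S, (q : ℤ) ^ (V q n).val) =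
      ∑ q ∈ S, V q n * F' q := by
    intro F' h'
    rw [h'.prod S _ hg]
    refine Finset.sum_congr rfl fun q hq => ?_
    rw [h'.pow (by exact_mod_cast (hS q hq).ne_zero)]
  have hsq : IsSquare (n * ∏ q ∈ S, (q : ℤ) ^ (V q n).val) := by
    apply sq_of_V (mul_pos hn hw)
    intro r hr
    haveI : Fact r.Prime := ⟨hr⟩
    rw [V_addH r _ _ hn.ne' hw.ne', hFw _ (V_addH r)]
    have h1 : ∑ q ∈ S, V q n * V r q = if r ∈ S then V r n else 0 := by
      rw [Finset.sum_congr rfl (g := fun q => if r = q then V r n else 0)]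
      · rw [Finset.sum_ite_eq]
      · intro q hq
        rw [V_prime hr (hS q hq)]
        split_ifs with h2
        · rw [h2, mul_one]
        · rw [mul_zero]
    rw [h1]
    split_ifs with h2
    · exact z2 _
    · rw [add_zero]; exact hsupp r hr h2
  have h3 := h.isSq (mul_pos hn hw).ne' hsq
  rw [h _ _ hn.ne' hw.ne', hFw F h] at h3
  have h4 : ∀ a b : ZMod 2, a + b = 0 → a = b := by decide
  exact h4 _ _ h3

/-- the symbol of the unit part -/
noncomputable def Lm (p : ℕ) (n : ℤ) : ZMod 2 := if ps p n = 1 then 0 else 1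

theorem Lm_addH (p : ℕ) [Fact p.Prime] : AddH (Lm p) := by
  intro a b ha hb
  unfold Lm
  rw [ps_mul ha hb]
  rcases ps_pm (p := p) ha with h1 | h1 <;> rcases ps_pm (p := p) hb with h2 | h2 <;>
    rw [h1, h2] <;> decide

theorem Lm_unit {p : ℕ} [Fact p.Prime] {n : ℤ} (h : ¬ (p : ℤ) ∣ n) :
    Lm p n = if jacobiSym n p = 1 then 0 else 1 := by
  unfold Lm
  rw [ps_unit h]

theorem Lm_self (p : ℕ) [hp : Fact p.Prime] : Lm p p = 0 := by
  unfold Lm
  have h1 : ¬ (p : ℤ) ∣ 1 := by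
    intro h
    have := Int.le_of_dvd one_pos h
    have := hp.out.two_le
    omega
  have h2 := ps_p (p := p) h1
  rw [mul_one] at h2
  rw [h2, jacobiSym.one_left, if_pos rfl]

/-- the odd part -/
def od (n : ℤ) : ℤ := n / 2 ^ padicValInt 2 n

theorem od_spec {n : ℤ} (hn : n ≠ 0) : n = 2 ^ padicValInt 2 n * od n ∧ od n % 2 = 1 := by
  haveI : Fact (Nat.Prime 2) := ⟨Nat.prime_two⟩
  obtain ⟨u, hu, hu'⟩ := dec (p := 2) hn
  have h1 : od n = u := by
    unfold od
    conv_lhs => rw [hu]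
    have : ((2 : ℕ) : ℤ) = 2 := rfl
    rw [this] at hu ⊢
    rw [← hu]
    conv_lhs => arg 1; rw [hu]
    exact Int.mul_ediv_cancel_left _ (pow_ne_zero _ two_ne_zero)
  rw [h1]
  refine ⟨by exact_mod_cast hu, ?_⟩
  have : ¬ (2 : ℤ) ∣ u := by exact_mod_cast hu'
  omega

theorem od_of {k : ℕ} {u : ℤ} (hu : u % 2 = 1) : od (2 ^ k * u) = u := by
  haveI : Fact (Nat.Prime 2) := ⟨Nat.prime_two⟩
  unfold od
  have h2 : ¬ ((2 : ℕ) : ℤ) ∣ u := by
    have : ¬ (2 : ℤ) ∣ u := by omega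
    exact_mod_cast this
  have h1 := val_of (p := 2) (k := k) h2
  have h3 : padicValInt 2 (2 ^ k * u) = k := by exact_mod_cast h1
  rw [h3, Int.mul_ediv_cancel_left _ (pow_ne_zero _ two_ne_zero)]

theorem od_mul {a b : ℤ} (ha : a ≠ 0) (hb : b ≠ 0) : od (a * b) = od a * od b := by
  obtain ⟨h1, h2⟩ := od_spec ha
  obtain ⟨h3, h4⟩ := od_spec hb
  have e : a * b = 2 ^ (padicValInt 2 a + padicValInt 2 b) * (od a * od b) := by
    calc a * b = (2 ^ padicValInt 2 a * od a) * (2 ^ padicValInt 2 b * od b) := by rw [← h1, ← h3]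
      _ = _ := by rw [pow_add]; ring
  rw [e, od_of]
  rw [Int.mul_emod, h2, h4]
  norm_num

theorem od_odd {u : ℤ} (hu : u % 2 = 1) : od u = u := by
  have := od_of (k := 0) hu
  rwa [pow_zero, one_mul] at this

/-- the character modulo four at two -/
def A4 (n : ℤ) : ZMod 2 := if od n % 4 = 3 then 1 else 0

/-- the even character modulo eight at two -/
def A8 (n : ℤ) : ZMod 2 := if od n % 8 = 1 ∨ od n % 8 = 7 then 0 else 1

theorem A4_addH : AddH A4 := by
  intro a b ha hb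
  unfold A4
  rw [od_mul ha hb]
  have h1 := (od_spec ha).2
  have h2 := (od_spec hb).2
  rw [Int.mul_emod]
  have h3 : od a % 4 = 1 ∨ od a % 4 = 3 := by omega
  have h4 : od b % 4 = 1 ∨ od b % 4 = 3 := by omega
  rcases h3 with h3 | h3 <;> rcases h4 with h4 | h4 <;> rw [h3, h4] <;> decide

theorem A8_addH : AddH A8 := by
  intro a b ha hb
  unfold A8
  rw [od_mul ha hb]
  have h1 := (od_spec ha).2
  have h2 := (od_spec hb).2
  rw [Int.mul_emod]
  have h3 : od a % 8 = 1 ∨ od a % 8 = 3 ∨ od a % 8 = 5 ∨ od a % 8 = 7 := by omega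
  have h4 : od b % 8 = 1 ∨ od b % 8 = 3 ∨ od b % 8 = 5 ∨ od b % 8 = 7 := by omega
  rcases h3 with h3 | h3 | h3 | h3 <;> rcases h4 with h4 | h4 | h4 | h4 <;> rw [h3, h4] <;> decide

theorem A4_odd {u : ℤ} (hu : u % 2 = 1) : A4 u = if u % 4 = 3 then 1 else 0 := by
  unfold A4; rw [od_odd hu]

theorem A8_odd {u : ℤ} (hu : u % 2 = 1) : A8 u = if u % 8 = 1 ∨ u % 8 = 7 then 0 else 1 := by
  unfold A8; rw [od_odd hu]

theorem A4_neg_one : A4 (-1) = 1 := by rw [A4_odd (by norm_num)]; decide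

theorem A8_neg_one : A8 (-1) = 0 := by rw [A8_odd (by norm_num)]; decide

theorem od_two : od 2 = 1 := by
  have := od_of (k := 1) (u := 1) (by norm_num)
  simpa using this

theorem A4_two : A4 2 = 0 := by unfold A4; rw [od_two]; decide

theorem A8_two : A8 2 = 0 := by unfold A8; rw [od_two]; decide

/-! ### squarefree numbers -/

theorem sf_val {p : ℕ} [hp : Fact p.Prime] {n : ℤ} (hn : Squarefree n) :
    padicValInt p n = if (p : ℤ) ∣ n then 1 else 0 := by
  split_ifs with h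
  · obtain ⟨c, rfl⟩ := h
    have hc : ¬ (p : ℤ) ∣ c := by
      rintro ⟨d, rfl⟩
      exact pI.not_unit (hn p ⟨d, by ring⟩)
    exact val_p hc
  · exact val_unit h

theorem sf_up {p : ℕ} [hp : Fact p.Prime] {n : ℤ} (hn : Squarefree n) :
    up p n = n / (p : ℤ) ^ padicValInt p n := by
  unfold up
  rw [sf_val hn]
  split_ifs with h
  · rw [pow_one]
  · rw [pow_zero, Int.ediv_one]

theorem sf_lam {p : ℕ} [hp : Fact p.Prime] {n : ℤ} (hn : Squarefree n) : lam p n = Lm p n := by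
  unfold lam Lm ps
  rw [sf_up hn]

theorem sf_ind {p : ℕ} [hp : Fact p.Prime] {n : ℤ} (hn : Squarefree n) : ind p n = V p n := by
  unfold ind V
  rw [sf_val hn]
  split_ifs <;> rfl

theorem sf_od {n : ℤ} (hn : Squarefree n) : up 2 n = od n := by
  haveI : Fact (Nat.Prime 2) := ⟨Nat.prime_two⟩
  have := sf_up (p := 2) hn
  rw [this]
  rfl

theorem sf_e4 {n : ℤ} (hn : Squarefree n) : e4 n = A4 n := by
  unfold e4 A4
  rw [sf_od hn]

theorem sf_e8 {n : ℤ} (hn : Squarefree n) : e8 n = A8 n := by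
  unfold e8 A8
  rw [sf_od hn]

end Pool.Agent.H743.X17.QSYSF

namespace Pool.Agent.H743.X17.QSYSF

open Pool.Agent.H743.X17
open Pool.Agent.H468.X15 (ps dec pI val_of ps_of ps_unit val_unit val_p ps_p nd_mul ps_mul val_mul
  jac_pm ps_pm)

theorem m4 {m : ℤ} (hm : Squarefree m) : m % 4 = 1 ∨ m % 4 = 2 ∨ m % 4 = 3 := by
  have h : m % 4 ≠ 0 := by
    intro h
    have h1 : (2 : ℤ) * 2 ∣ m := by norm_num; exact Int.dvd_of_emod_eq_zero h
    have := hm 2 h1
    rw [Int.isUnit_iff] at this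
    omega
  omega

theorem mem_RS {m : ℤ} (hm : m ≠ 0) (q : ℕ) :
    q ∈ RS m ↔ q.Prime ∧ ((q : ℤ) ∣ m ∨ (q = 2 ∧ m % 4 ≠ 1)) := by
  have h0 : m.natAbs ≠ 0 := Int.natAbs_ne_zero.2 hm
  unfold RS Kn
  split_ifs with h
  · rw [Nat.mem_primeFactors_of_ne_zero h0, ← Int.natCast_dvd]
    simp [h]
  · rw [Nat.mem_primeFactors_of_ne_zero (by omega)]
    constructor
    · rintro ⟨h1, h2⟩
      refine ⟨h1, ?_⟩
      rcases (Nat.Prime.dvd_mul h1).1 h2 with h3 | h3
      · right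
        have h4 : q ∣ 2 ^ 2 := by norm_num; exact h3
        have h5 := h1.dvd_of_dvd_pow h4
        exact ⟨(Nat.prime_dvd_prime_iff_eq h1 Nat.prime_two).1 h5, h⟩
      · left
        exact Int.natCast_dvd.2 h3
    · rintro ⟨h1, h2⟩
      refine ⟨h1, ?_⟩
      rcases h2 with h2 | ⟨h2, -⟩
      · exact Dvd.dvd.mul_left (Int.natCast_dvd.1 h2) 4
      · subst h2
        exact Dvd.dvd.mul_right (by norm_num) _

theorem RS_prime {m : ℤ} {q : ℕ} (h : q ∈ RS m) : q.Prime := Nat.prime_of_mem_primeFactors h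

theorem odd_of {q : ℕ} (hq : q.Prime) (h2 : q ≠ 2) : q % 4 = 1 ∨ q % 4 = 3 := by
  have := hq.eq_two_or_odd
  omega

theorem V_one {m : ℤ} (hm : Squarefree m) {q : ℕ} (hq : q.Prime) (h : (q : ℤ) ∣ m) : V q m = 1 := by
  haveI : Fact q.Prime := ⟨hq⟩
  rw [← sf_ind hm]
  unfold ind
  rw [if_pos h]

theorem V_zero {m : ℤ} {q : ℕ} (hq : q.Prime) (h : ¬ (q : ℤ) ∣ m) : V q m = 0 := by
  haveI : Fact q.Prime := ⟨hq⟩
  exact V_unit h

theorem V_RS {m : ℤ} (hm : Squarefree m) {q : ℕ} (hq : q ∈ RS m) (h2 : q ≠ 2) : V q m = 1 := by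
  obtain ⟨h1, h3⟩ := (mem_RS hm.ne_zero q).1 hq
  rcases h3 with h3 | h3
  · exact V_one hm h1 h3
  · exact absurd h3.1 h2

theorem A4_m {m : ℤ} (h : m % 4 = 2) : A4 m = if m % 8 = 2 then 0 else 1 := by
  obtain ⟨k, hk⟩ : ∃ k, m = 2 ^ 1 * k := ⟨m / 2, by omega⟩
  unfold A4
  rw [hk, od_of (by omega)]
  split_ifs <;> first | rfl | omega

/-- the sign of the prime discriminant -/
theorem al_eq {m : ℤ} (hm : Squarefree m) {q : ℕ} (hq : q ∈ RS m) :
    al m q = V q m * A4 q + (if q = 2 then A4 m else 0) := by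
  obtain ⟨hp, h3⟩ := (mem_RS hm.ne_zero q).1 hq
  by_cases h2 : q = 2
  · subst h2
    have hm1 : m % 4 ≠ 1 := by
      rcases h3 with h3 | h3
      · have : (2 : ℤ) ∣ m := by exact_mod_cast h3
        omega
      · exact h3.2
    have e2 : A4 ((2 : ℕ) : ℤ) = 0 := A4_two
    rw [e2, mul_zero, zero_add, if_pos rfl]
    unfold al pd
    rw [if_pos rfl]
    rcases m4 hm with h | h | h
    · exact absurd h hm1
    · rw [A4_m h]
      split_ifs <;> first | rfl | omega
    · rw [A4_odd (by omega)]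
      split_ifs <;> first | rfl | omega
  · rw [if_neg h2, add_zero, V_RS hm hq h2, one_mul]
    have hodd := odd_of hp h2
    have hpos := hp.pos
    unfold al pd
    rw [if_neg h2, A4_odd (by omega)]
    split_ifs <;> first | rfl | omega

theorem pd_ne {m : ℤ} {q : ℕ} (hq : q.Prime) : pd m q ≠ 0 := by
  have := hq.pos
  unfold pd
  split_ifs <;> omega

/-- the characters of the prime discriminants -/
theorem F_pd {F : ℤ → ZMod 2} (hF : AddH F) {m : ℤ} (hm : Squarefree m) {q : ℕ} (hq : q ∈ RS m) :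
    F (pd m q) = al m q * F (-1) + V q m * F q := by
  obtain ⟨hp, h3⟩ := (mem_RS hm.ne_zero q).1 hq
  have hq0 : (q : ℤ) ≠ 0 := by exact_mod_cast hp.ne_zero
  by_cases h2 : q = 2
  · subst h2
    have hm1 : m % 4 ≠ 1 := by
      rcases h3 with h3 | h3
      · have : (2 : ℤ) ∣ m := by exact_mod_cast h3
        omega
      · exact h3.2
    have e8 : F 8 = F 2 := by
      have : (8 : ℤ) = 2 * (2 * 2) := by norm_num
      rw [this, hF _ _ (by norm_num) (by norm_num), hF.sq (by norm_num), add_zero]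
    unfold al pd
    rw [if_pos rfl]
    rcases m4 hm with h | h | h
    · exact absurd h hm1
    · rw [if_neg (by omega), V_one hm hp (by
        have : (2 : ℤ) ∣ m := by omega
        exact_mod_cast this), one_mul]
      split_ifs with h5 h6 h6
      · norm_num at h6
      · rw [e8, zero_mul, zero_add]; rfl
      · have : (-8 : ℤ) = -1 * 8 := by norm_num
        rw [this, hF _ _ (by norm_num) (by norm_num), e8, one_mul]; rfl
      · norm_num at h6
    · rw [if_pos h, V_zero hp (by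
        have : ¬ (2 : ℤ) ∣ m := by omega
        exact_mod_cast this), zero_mul, add_zero, if_pos (by norm_num), one_mul]
      have : (-4 : ℤ) = -1 * (2 * 2) := by norm_num
      rw [this, hF _ _ (by norm_num) (by norm_num), hF.sq (by norm_num), add_zero]
  · rw [V_RS hm hq h2, one_mul]
    have hodd := odd_of hp h2
    have hpos := hp.pos
    unfold al pd
    rw [if_neg h2]
    rcases hodd with h | h
    · rw [if_pos h, if_neg (by omega), zero_mul, zero_add]
    · rw [if_neg (by omega), if_pos (by omega), one_mul]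
      have : (-(q : ℤ)) = -1 * q := by ring
      rw [this, hF _ _ (by norm_num) hq0]

/-- the sign -/
def sg (n : ℤ) : ZMod 2 := if n < 0 then 1 else 0

theorem F_abs {F : ℤ → ZMod 2} (hF : AddH F) {n : ℤ} (hn : n ≠ 0) :
    F n = sg n * F (-1) + F |n| := by
  unfold sg
  split_ifs with h
  · rw [abs_of_neg h, one_mul, ← hF _ _ (by norm_num) (by omega)]
    congr 1; ring
  · rw [abs_of_nonneg (not_lt.1 h), zero_mul, zero_add]

theorem V_abs {q : ℕ} (hq : q.Prime) {n : ℤ} (hn : n ≠ 0) : V q |n| = V q n := by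
  haveI : Fact q.Prime := ⟨hq⟩
  rw [F_abs (V_addH q) hn, V_neg_one hq, mul_zero, zero_add]

/-- the expansion of the characters of `m` -/
theorem F_m {F : ℤ → ZMod 2} (hF : AddH F) {m : ℤ} (hm : Squarefree m) :
    F m = sg m * F (-1) + ∑ q ∈ RS m, V q m * F q := by
  rw [F_abs hF hm.ne_zero, expand hF (abs_pos.2 hm.ne_zero) (RS m) (fun q hq => RS_prime hq)]
  · congr 1
    refine Finset.sum_congr rfl fun q hq => ?_
    rw [V_abs (RS_prime hq) hm.ne_zero]
  · intro q hq hqS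
    rw [V_abs hq hm.ne_zero]
    apply V_zero hq
    intro h
    exact hqS ((mem_RS hm.ne_zero q).2 ⟨hq, Or.inl h⟩)

theorem A4_zero {m : ℤ} (h : m % 4 = 1) : A4 m = 0 := by
  rw [A4_odd (by omega), if_neg (by omega)]

theorem sum_al {m : ℤ} (hm : Squarefree m) : ∑ q ∈ RS m, al m q = sg m := by
  rw [Finset.sum_congr rfl (fun q hq => al_eq hm hq), Finset.sum_add_distrib]
  have h1 := F_m A4_addH hm
  rw [A4_neg_one, mul_one] at h1
  have h2 : (∑ q ∈ RS m, if q = 2 then A4 m else 0) = A4 m := by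
    rw [Finset.sum_ite_eq' (RS m) 2]
    split_ifs with h3
    · rfl
    · rw [mem_RS hm.ne_zero] at h3
      symm
      apply A4_zero
      by_contra h4
      exact h3 ⟨Nat.prime_two, Or.inr ⟨rfl, h4⟩⟩
  rw [h2, h1]
  have h3 : ∀ a b : ZMod 2, a + (b + a) = b := by decide
  exact h3 _ _

/-- the discriminant is the product of the prime discriminants -/
theorem sum_pd {F : ℤ → ZMod 2} (hF : AddH F) {m : ℤ} (hm : Squarefree m) :
    ∑ q ∈ RS m, F (pd m q) = F m := by
  rw [Finset.sum_congr rfl (fun q hq => F_pd hF hm hq), Finset.sum_add_distrib, ← Finset.sum_mul,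
    sum_al hm, ← F_m hF hm]

/-- weighted sums -/
theorem sum_w {F : ℤ → ZMod 2} (hF : AddH F) {m : ℤ} (hm : Squarefree m) (y : ℕ → ZMod 2) :
    ∑ q ∈ RS m, y q * F (pd m q) =
      (∑ q ∈ RS m, y q * al m q) * F (-1) + ∑ q ∈ RS m, y q * V q m * F q := by
  rw [Finset.sum_congr rfl (fun q hq => by rw [F_pd hF hm hq]), Finset.sum_mul,
    ← Finset.sum_add_distrib]
  refine Finset.sum_congr rfl fun q _ => ?_
  ring

theorem sum_y_al {m : ℤ} (hm : Squarefree m) (y : ℕ → ZMod 2) :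
    ∑ q ∈ RS m, y q * al m q = ∑ q ∈ RS m, y q * V q m * A4 q + y 2 * A4 m := by
  rw [Finset.sum_congr rfl (fun q hq => by rw [al_eq hm hq, mul_add]), Finset.sum_add_distrib]
  congr 1
  · refine Finset.sum_congr rfl fun q _ => ?_
    ring
  · have h2 : (∑ q ∈ RS m, y q * (if q = 2 then A4 m else 0)) =
        ∑ q ∈ RS m, if q = 2 then y 2 * A4 m else 0 := by
      refine Finset.sum_congr rfl fun q _ => ?_
      split_ifs with h
      · rw [h]
      · rw [mul_zero]
    rw [h2, Finset.sum_ite_eq' (RS m) 2]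
    split_ifs with h3
    · rfl
    · rw [mem_RS hm.ne_zero] at h3
      have h4 : A4 m = 0 := by
        apply A4_zero
        by_contra h4
        exact h3 ⟨Nat.prime_two, Or.inr ⟨rfl, h4⟩⟩
      rw [h4, mul_zero]

/-- the character at `p` -/
noncomputable def G (p : ℕ) : ℤ → ZMod 2 := if p = 2 then A8 else Lm p

theorem G_two : G 2 = A8 := if_pos rfl

theorem G_odd {p : ℕ} (h : p ≠ 2) : G p = Lm p := if_neg h

theorem G_addH {p : ℕ} (hp : p.Prime) : AddH (G p) := by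
  haveI : Fact p.Prime := ⟨hp⟩
  unfold G
  split_ifs
  · exact A8_addH
  · exact Lm_addH p

theorem G_self {p : ℕ} (hp : p.Prime) : G p p = 0 := by
  haveI : Fact p.Prime := ⟨hp⟩
  by_cases h : p = 2
  · subst h
    rw [G_two]; exact A8_two
  · rw [G_odd h]; exact Lm_self p

theorem ndvd {p q : ℕ} (hp : p.Prime) (hq : q.Prime) (h : p ≠ q) : ¬ (p : ℤ) ∣ q := by
  intro h'
  exact h ((Nat.prime_dvd_prime_iff_eq hp hq).1 (by exact_mod_cast h'))

theorem ndvd_pd {m : ℤ} {p q : ℕ} (hp : p.Prime) (hq : q.Prime) (h : p ≠ q) : ¬ (p : ℤ) ∣ pd m q := by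
  unfold pd
  have h2 : q = 2 → ∀ k : ℕ, ¬ (p : ℤ) ∣ 2 ^ k := by
    rintro rfl k h'
    have h3 : p ∣ 2 ^ k := by exact_mod_cast h'
    exact h ((Nat.prime_dvd_prime_iff_eq hp Nat.prime_two).1 (hp.dvd_of_dvd_pow h3))
  split_ifs with a b c d
  · rw [dvd_neg]; exact h2 a 2
  · exact h2 a 3
  · rw [dvd_neg]; exact h2 a 3
  · exact ndvd hp hq h
  · rw [dvd_neg]; exact ndvd hp hq h

/-- the Kronecker symbols -/
theorem lS_eq {m : ℤ} {p q : ℕ} (hp : p.Prime) (hq : q.Prime) (h : p ≠ q) :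
    lS m q p = G p (pd m q) := by
  haveI : Fact p.Prime := ⟨hp⟩
  unfold lS
  by_cases h2 : p = 2
  · subst h2
    rw [if_pos rfl, G_two, A8_odd]
    have hodd := odd_of hq (Ne.symm h)
    unfold pd
    rw [if_neg (Ne.symm h)]
    split_ifs <;> omega
  · rw [if_neg h2, G_odd h2, Lm_unit (ndvd_pd hp hq h)]

theorem LL_self {m : ℤ} (hm : Squarefree m) {p : ℕ} (hp : p ∈ RS m) :
    LL m p p = G p m + al m p * G p (-1) := by
  have hpp := RS_prime hp
  unfold LL
  rw [if_pos rfl]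
  have h1 : ∑ r ∈ (RS m).erase p, lS m r p = ∑ r ∈ (RS m).erase p, G p (pd m r) := by
    refine Finset.sum_congr rfl fun r hr => ?_
    rw [Finset.mem_erase] at hr
    exact lS_eq hpp (RS_prime hr.2) (Ne.symm hr.1)
  have h2 := sum_pd (G_addH hpp) hm
  rw [← Finset.add_sum_erase _ _ hp, F_pd (G_addH hpp) hm hp, G_self hpp, mul_zero, add_zero] at h2
  rw [h1, ← h2]
  have h3 : ∀ a b : ZMod 2, b = a + b + a := by decide
  exact h3 _ _

/-- the rows of the Rédei matrix -/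
theorem row {m : ℤ} (hm : Squarefree m) (y : ℕ → ZMod 2) {p : ℕ} (hp : p ∈ RS m) :
    ∑ q ∈ RS m, LL m p q * y q = ∑ q ∈ RS m, y q * G p (pd m q) + y p * G p m := by
  have hpp := RS_prime hp
  rw [← Finset.add_sum_erase _ _ hp, ← Finset.add_sum_erase _ (fun q => y q * G p (pd m q)) hp,
    LL_self hm hp, F_pd (G_addH hpp) hm hp, G_self hpp, mul_zero, add_zero]
  have h1 : ∑ q ∈ (RS m).erase p, LL m p q * y q = ∑ q ∈ (RS m).erase p, y q * G p (pd m q) := by
    refine Finset.sum_congr rfl fun r hr => ?_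
    rw [Finset.mem_erase] at hr
    have : LL m p r = lS m r p := by unfold LL; rw [if_neg (Ne.symm hr.1)]
    rw [this, lS_eq hpp (RS_prime hr.2) (Ne.symm hr.1), mul_comm]
  rw [h1]
  ring

theorem Lm_neg_one {p : ℕ} (hp : p.Prime) (h2 : p ≠ 2) : Lm p (-1) = A4 p := by
  haveI : Fact p.Prime := ⟨hp⟩
  have hodd := odd_of hp h2
  have h1 : ¬ (p : ℤ) ∣ -1 := by
    intro h
    have h1 : (p : ℤ) ∣ 1 := by simpa using h
    have := Int.le_of_dvd one_pos h1
    have := hp.two_le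
    omega
  rw [Lm_unit h1, A4_odd (by omega), jacobiSym.at_neg_one (Nat.odd_iff.2 (by omega))]
  rcases hodd with h | h
  · rw [if_pos (ZMod.χ₄_nat_one_mod_four h), if_neg (by omega)]
  · rw [if_neg (by rw [ZMod.χ₄_nat_three_mod_four h]; norm_num), if_pos (by omega)]

theorem Lm_two {p : ℕ} (hp : p.Prime) (h2 : p ≠ 2) : Lm p 2 = A8 p := by
  haveI : Fact p.Prime := ⟨hp⟩
  have hodd := odd_of hp h2
  have h1 : ¬ (p : ℤ) ∣ 2 := by
    have := ndvd hp Nat.prime_two h2
    exact_mod_cast this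
  rw [Lm_unit h1, A8_odd (by omega), jacobiSym.at_two (Nat.odd_iff.2 (by omega)),
    ZMod.χ₈_nat_eq_if_mod_eight]
  have h3 : p % 8 = 1 ∨ p % 8 = 3 ∨ p % 8 = 5 ∨ p % 8 = 7 := by omega
  have h4 : p % 2 ≠ 0 := by omega
  rw [if_neg h4]
  rcases h3 with h3 | h3 | h3 | h3
  · rw [if_pos (Or.inl h3), if_pos rfl, if_pos (by omega)]
  · have a1 : ¬ (p % 8 = 1 ∨ p % 8 = 7) := by omega
    have a2 : ¬ ((p : ℤ) % 8 = 1 ∨ (p : ℤ) % 8 = 7) := by omega
    rw [if_neg a1, if_neg a2, if_neg (by decide)]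
  · have a1 : ¬ (p % 8 = 1 ∨ p % 8 = 7) := by omega
    have a2 : ¬ ((p : ℤ) % 8 = 1 ∨ (p : ℤ) % 8 = 7) := by omega
    rw [if_neg a1, if_neg a2, if_neg (by decide)]
  · rw [if_pos (Or.inr h3), if_pos rfl, if_pos (by omega)]

/-- quadratic reciprocity -/
theorem recip {m : ℤ} {p q : ℕ} (hp : p.Prime) (hq : q.Prime) (h : p ≠ q) (hq2 : q ≠ 2) :
    G p (pd m q) = G q p := by
  haveI : Fact p.Prime := ⟨hp⟩
  haveI : Fact q.Prime := ⟨hq⟩
  have hodd := odd_of hq hq2
  have hqo : Odd q := Nat.odd_iff.2 (by omega)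
  rw [G_odd hq2]
  by_cases h2 : p = 2
  · subst h2
    have e : Lm q ((2 : ℕ) : ℤ) = A8 q := Lm_two hq hq2
    rw [e, G_two]
    unfold pd
    rw [if_neg hq2]
    rcases hodd with h3 | h3
    · rw [if_pos h3]
    · rw [if_neg (by omega)]
      have : (-(q : ℤ)) = -1 * q := by ring
      rw [this, A8_addH _ _ (by norm_num) (by exact_mod_cast hq.ne_zero), A8_neg_one, zero_add]
  · have hpodd := odd_of hp h2
    have hpo : Odd p := Nat.odd_iff.2 (by omega)
    rw [G_odd h2, Lm_unit (ndvd_pd hp hq h), Lm_unit (ndvd hq hp (Ne.symm h))]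
    have e : jacobiSym (pd m q) p = jacobiSym p q := by
      unfold pd
      rw [if_neg hq2]
      rcases hodd with h3 | h3
      · rw [if_pos h3]
        exact jacobiSym.quadratic_reciprocity_one_mod_four h3 hpo
      · rw [if_neg (by omega), jacobiSym.neg _ hpo]
        rcases hpodd with h4 | h4
        · rw [ZMod.χ₄_nat_one_mod_four h4, one_mul]
          exact (jacobiSym.quadratic_reciprocity_one_mod_four h4 hqo).symm
        · rw [ZMod.χ₄_nat_three_mod_four h4, jacobiSym.quadratic_reciprocity_three_mod_four h3 h4]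
          ring
    rw [e]

/-- the columns of the Rédei matrix, odd primes -/
theorem col {m : ℤ} (hm : Squarefree m) (x : ℕ → ZMod 2) {q : ℕ} (hq : q ∈ RS m) (h2 : q ≠ 2) :
    ∑ p ∈ RS m, LL m p q * x p = ∑ p ∈ RS m, x p * G q p + x q * (G q m + al m q * G q (-1)) := by
  have hqq := RS_prime hq
  rw [← Finset.add_sum_erase _ _ hq, ← Finset.add_sum_erase _ (fun p : ℕ => x p * G q p) hq,
    LL_self hm hq, G_self hqq]
  have h1 : ∑ p ∈ (RS m).erase q, LL m p q * x p = ∑ p ∈ (RS m).erase q, x p * G q p := by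
    refine Finset.sum_congr rfl fun p hp => ?_
    rw [Finset.mem_erase] at hp
    have : LL m p q = lS m q p := by unfold LL; rw [if_neg hp.1]
    rw [this, lS_eq (RS_prime hp.2) hqq hp.1, recip (RS_prime hp.2) hqq hp.1 h2, mul_comm]
  rw [h1]
  ring

/-- the column of the prime two -/
theorem col2 {m : ℤ} (hm : Squarefree m) (x : ℕ → ZMod 2) (hq : 2 ∈ RS m) :
    ∑ p ∈ RS m, LL m p 2 * x p =
      A4 m * (∑ p ∈ RS m, x p * A4 p) + V 2 m * (∑ p ∈ RS m, x p * A8 p) + x 2 * A8 m := by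
  have e4 : A4 ((2 : ℕ) : ℤ) = 0 := A4_two
  have e8 : A8 ((2 : ℕ) : ℤ) = 0 := A8_two
  rw [← Finset.add_sum_erase _ _ hq, ← Finset.add_sum_erase _ (fun p : ℕ => x p * A4 p) hq,
    ← Finset.add_sum_erase _ (fun p : ℕ => x p * A8 p) hq, LL_self hm hq, G_two, A8_neg_one, e4, e8]
  have hal : al m 2 = A4 m := by
    rw [al_eq hm hq, e4, mul_zero, zero_add, if_pos rfl]
  have h1 : ∑ p ∈ (RS m).erase 2, LL m p 2 * x p =
      A4 m * (∑ p ∈ (RS m).erase 2, x p * A4 p) + V 2 m * (∑ p ∈ (RS m).erase 2, x p * A8 p) := by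
    rw [Finset.mul_sum, Finset.mul_sum, ← Finset.sum_add_distrib]
    refine Finset.sum_congr rfl fun p hp => ?_
    rw [Finset.mem_erase] at hp
    have hpp := RS_prime hp.2
    have e : LL m p 2 = lS m 2 p := by unfold LL; rw [if_neg hp.1]
    have e2 : G p ((2 : ℕ) : ℤ) = A8 p := by rw [G_odd hp.1]; exact Lm_two hpp hp.1
    have e3 : G p (-1) = A4 p := by rw [G_odd hp.1, Lm_neg_one hpp hp.1]
    rw [e, lS_eq hpp Nat.prime_two hp.1, F_pd (G_addH hpp) hm hq, e2, e3, hal]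
    ring
  rw [h1]
  ring

end Pool.Agent.H743.X17.QSYSF

namespace Pool.Agent.H743.X17.QSYSF

open Pool.Agent.H743.X17

theorem two_RS {m : ℤ} (hm : Squarefree m) : 2 ∈ RS m ↔ m % 4 ≠ 1 := by
  rw [mem_RS hm.ne_zero]
  constructor
  · rintro ⟨-, h | h⟩
    · have : (2 : ℤ) ∣ m := by exact_mod_cast h
      omega
    · exact h.2
  · intro h
    exact ⟨Nat.prime_two, Or.inr ⟨rfl, h⟩⟩

theorem dvd_of_RS {m : ℤ} (hm : Squarefree m) {q : ℕ} (hq : q ∈ RS m) (h2 : q ≠ 2) :
    (q : ℤ) ∣ m := by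
  rcases ((mem_RS hm.ne_zero q).1 hq).2 with h | h
  · exact h
  · exact absurd h.1 h2

theorem al_odd {m : ℤ} (hm : Squarefree m) {q : ℕ} (hq : q ∈ RS m) (h2 : q ≠ 2) :
    al m q = A4 q := by
  rw [al_eq hm hq, V_RS hm hq h2, one_mul, if_neg h2, add_zero]

theorem al_two {m : ℤ} (hm : Squarefree m) (hq : 2 ∈ RS m) : al m 2 = A4 m := by
  have e4 : A4 ((2 : ℕ) : ℤ) = 0 := A4_two
  rw [al_eq hm hq, e4, mul_zero, zero_add, if_pos rfl]

theorem A4_17 : A4 ((17 : ℕ) : ℤ) = 0 := by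
  rw [A4_odd (by norm_num)]
  decide

/-- the local conditions for positive representatives -/
structure PC (m u v : ℤ) : Prop where
  hu : 0 < u
  hv : 0 < v
  good : ∀ p : ℕ, p.Prime → p ≠ 2 → p ≠ 17 → ¬ (p : ℤ) ∣ m → V p u = 0 ∧ V p v = 0
  odd : ∀ p : ℕ, p.Prime → p ≠ 2 → p ≠ 17 → (p : ℤ) ∣ m →
    Lm p u = V p u * Lm p (-m) + V p v * Lm p (-1) ∧ Lm p v = V p v * Lm p m + V p u * Lm p 17
  x17 : V 17 u = 0
  y17 : ¬ (17 : ℤ) ∣ m → V 17 v = 0
  l17 : (17 : ℤ) ∣ m → Lm 17 u = 0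
  o2 : m % 4 = 1 → V 2 u = 0 ∧ V 2 v = 0 ∧ A4 v = 0
  e2 : m % 4 ≠ 1 → ∃ c : ZMod 2, A4 v = c * A4 m ∧ A8 v = c * A8 m ∧ V 2 v = c * V 2 m ∧
    A4 u * A4 m + V 2 u * A8 m + V 2 m * A8 u = A4 v

theorem core {m : ℤ} (hm : Squarefree m) (hS : Sys m) {u v : ℤ} (h : PC m u v) :
    IsSquare u ∧ IsSquare v := by
  have hm0 := hm.ne_zero
  obtain ⟨c, hc⟩ : ∃ c : ZMod 2, m % 4 ≠ 1 → A4 v = c * A4 m ∧ A8 v = c * A8 m ∧
      V 2 v = c * V 2 m ∧ A4 u * A4 m + V 2 u * A8 m + V 2 m * A8 u = A4 v := by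
    by_cases h1 : m % 4 = 1
    · exact ⟨0, fun h2 => absurd h1 h2⟩
    · obtain ⟨c, hc⟩ := h.e2 h1
      exact ⟨c, fun _ => hc⟩
  have supp : ∀ q : ℕ, q.Prime → q ∉ RS m → V q u = 0 ∧ V q v = 0 := by
    intro q hq hqS
    rw [mem_RS hm0] at hqS
    have hqm : ¬ (q : ℤ) ∣ m := fun h' => hqS ⟨hq, Or.inl h'⟩
    by_cases h2 : q = 2
    · subst h2
      have h1 : m % 4 = 1 := by
        by_contra h1
        exact hqS ⟨hq, Or.inr ⟨rfl, h1⟩⟩
      exact ⟨(h.o2 h1).1, (h.o2 h1).2.1⟩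
    · by_cases h17 : q = 17
      · subst h17
        exact ⟨h.x17, h.y17 (by exact_mod_cast hqm)⟩
      · exact h.good q hq h2 h17 hqm
  set y : ℕ → ZMod 2 := fun q => if q = 2 then c else V q v with hy
  have y2 : y 2 = c := by rw [hy]; simp
  have yo : ∀ q : ℕ, q ≠ 2 → y q = V q v := by
    intro q hq
    rw [hy]; simp [hq]
  have hyV : ∀ q ∈ RS m, y q * V q m = V q v := by
    intro q hq
    by_cases h2 : q = 2
    · subst h2
      rw [y2]
      exact (hc ((two_RS hm).1 hq)).2.2.1.symm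
    · rw [yo q h2, V_RS hm hq h2, mul_one]
  have Fu : ∀ F : ℤ → ZMod 2, AddH F → F u = ∑ q ∈ RS m, V q u * F q := fun F hF =>
    expand hF h.hu (RS m) (fun q hq => RS_prime hq) fun q hq hqS => (supp q hq hqS).1
  have Fv : ∀ F : ℤ → ZMod 2, AddH F → F v = ∑ q ∈ RS m, V q v * F q := fun F hF =>
    expand hF h.hv (RS m) (fun q hq => RS_prime hq) fun q hq hqS => (supp q hq hqS).2
  have hyw : ∀ F : ℤ → ZMod 2, ∑ q ∈ RS m, y q * V q m * F q = ∑ q ∈ RS m, V q v * F q := by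
    intro F
    refine Finset.sum_congr rfl fun q hq => ?_
    rw [hyV q hq]
  have hsgn : ∑ q ∈ RS m, y q * al m q = 0 := by
    rw [sum_y_al hm y, hyw A4, ← Fv A4 A4_addH, y2]
    by_cases h1 : m % 4 = 1
    · rw [(h.o2 h1).2.2, A4_zero h1, mul_zero, add_zero]
    · rw [(hc h1).1, z2]
  have Fw : ∀ F : ℤ → ZMod 2, AddH F → ∑ q ∈ RS m, y q * F (pd m q) = F v := by
    intro F hF
    rw [sum_w hF hm y, hsgn, zero_mul, zero_add, hyw F, ← Fv F hF]
  have key := hS (fun q => V q u) y h.x17 ?_ ?_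
  · constructor
    · apply sq_of_V h.hu
      intro q hq
      by_cases hqS : q ∈ RS m
      · exact (key q hqS).1
      · exact (supp q hq hqS).1
    · apply sq_of_V h.hv
      intro q hq
      by_cases hqS : q ∈ RS m
      · rw [← hyV q hqS, (key q hqS).2, zero_mul]
      · exact (supp q hq hqS).2
  · intro p hp
    rw [Finset.mem_erase] at hp
    have hpp := RS_prime hp.2
    rw [row hm y hp.2, Fw _ (G_addH hpp)]
    by_cases h2 : p = 2
    · subst h2
      have e : nu 2 = 0 := by unfold nu; rw [if_pos rfl]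
      rw [e, G_two, y2, (hc ((two_RS hm).1 hp.2)).2.1, zero_mul, zero_add, z2]
    · haveI : Fact p.Prime := ⟨hpp⟩
      have hd := dvd_of_RS hm hp.2 h2
      have e : nu p = Lm p 17 := by
        have h3 : ¬ (p : ℤ) ∣ 17 := by
          have := ndvd hpp (by norm_num : Nat.Prime 17) hp.1
          exact_mod_cast this
        unfold nu
        rw [if_neg h2, Lm_unit h3]
      rw [e, G_odd h2, yo p h2, (h.odd p hpp h2 hp.1 hd).2]
      have h4 : ∀ a b c : ZMod 2, a * b + (c + b * a + c) = 0 := by decide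
      exact h4 _ _ _
  · intro q hq
    have hqq := RS_prime hq
    by_cases h2 : q = 2
    · subst h2
      obtain ⟨c1, c2, c3, c4⟩ := hc ((two_RS hm).1 hq)
      rw [col2 hm _ hq, ← Fu A4 A4_addH, ← Fu A8 A8_addH, al_two hm hq, y2]
      rw [c1] at c4
      have h4 : ∀ a b c d e f k : ZMod 2, a * b + e * f + c * d = k * b →
          b * a + c * d + e * f + b * k = 0 := by decide
      exact h4 _ _ _ _ _ _ _ c4
    · rw [col hm _ hq h2, ← Fu _ (G_addH hqq), al_odd hm hq h2, yo q h2, G_odd h2,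
        Lm_neg_one hqq h2]
      by_cases h17 : q = 17
      · subst h17
        rw [h.l17 (by exact_mod_cast dvd_of_RS hm hq h2), h.x17, A4_17]
        simp
      · haveI : Fact q.Prime := ⟨hqq⟩
        rw [(h.odd q hqq h2 h17 (dvd_of_RS hm hq h2)).1, Lm_neg_one hqq h2]
        have e : Lm q (-m) = A4 q + Lm q m := by
          have e1 : -m = -1 * m := by ring
          rw [e1, Lm_addH q _ _ (by norm_num) hm0, Lm_neg_one hqq h2]
        rw [e]
        have h4 : ∀ a b c d : ZMod 2, a * (b + c) + d * b + a * (c + b * b) + b * d = 0 := by decide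
        exact h4 _ _ _ _

/-! ### normalisation by the torsion classes -/

theorem sg_addH : AddH sg := by
  intro a b ha hb
  unfold sg
  rcases lt_or_gt_of_ne ha with h1 | h1 <;> rcases lt_or_gt_of_ne hb with h2 | h2
  · rw [if_neg (not_lt.2 (mul_pos_of_neg_of_neg h1 h2).le), if_pos h1, if_pos h2]; rfl
  · rw [if_pos (mul_neg_of_neg_of_pos h1 h2), if_pos h1, if_neg (not_lt.2 h2.le)]; rfl
  · rw [if_pos (mul_neg_of_pos_of_neg h1 h2), if_neg (not_lt.2 h1.le), if_pos h2]; rfl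
  · rw [if_neg (not_lt.2 (mul_pos h1 h2).le), if_neg (not_lt.2 h1.le), if_neg (not_lt.2 h2.le)]; rfl

theorem pos_of_sg {n : ℤ} (hn : n ≠ 0) (h : sg n = 0) : 0 < n := by
  unfold sg at h
  by_contra h'
  rw [if_pos (lt_of_le_of_ne (not_lt.1 h') hn)] at h
  exact one_ne_zero h

theorem sg_pos {n : ℤ} (h : 0 < n) : sg n = 0 := if_neg (not_lt.2 h.le)

theorem sg_neg {n : ℤ} (h : n < 0) : sg n = 1 := if_pos h

/-- the representatives twisted by a torsion class -/
def tw (n s t : ℤ) (a b : ZMod 2) : ℤ := n * (s ^ a.val * t ^ b.val)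

theorem tw_ne {n s t : ℤ} (a b : ZMod 2) (hn : n ≠ 0) (hs : s ≠ 0) (ht : t ≠ 0) :
    tw n s t a b ≠ 0 := mul_ne_zero hn (mul_ne_zero (pow_ne_zero _ hs) (pow_ne_zero _ ht))

theorem F_tw {F : ℤ → ZMod 2} (hF : AddH F) {n s t : ℤ} (a b : ZMod 2) (hn : n ≠ 0) (hs : s ≠ 0)
    (ht : t ≠ 0) : F (tw n s t a b) = F n + (a * F s + b * F t) := by
  unfold tw
  rw [hF _ _ hn (mul_ne_zero (pow_ne_zero _ hs) (pow_ne_zero _ ht)),
    hF _ _ (pow_ne_zero _ hs) (pow_ne_zero _ ht), hF.pow hs, hF.pow ht]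

theorem F_neg {F : ℤ → ZMod 2} (hF : AddH F) {n : ℤ} (hn : n ≠ 0) : F (-n) = F (-1) + F n := by
  have : -n = -1 * n := by ring
  rw [this, hF _ _ (by norm_num) hn]

theorem sf_prime {q : ℕ} (hq : q.Prime) : Squarefree (q : ℤ) :=
  Int.squarefree_natCast.2 hq.squarefree

theorem sf_neg {n : ℤ} (h : Squarefree n) : Squarefree (-n) := fun x hx => h x (by
  rwa [dvd_neg] at hx)

theorem dd1 : ∀ x y : ZMod 2, x + ((x + y) * 1 + y) = 0 := by decide

theorem dd2 : ∀ a b : ZMod 2, a + b = 0 → a = b := by decide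

theorem dd3 : ∀ p q r s t w a b : ZMod 2,
    (p + (a * 1 + b * (1 + q))) * q + (r + (a * 0 + b * (0 + t))) * s +
      t * (w + (a * 0 + b * (0 + s))) = p * q + r * s + t * w + (a * q + b * 0) := by decide

theorem A8_17 : A8 17 = 0 := by
  rw [A8_odd (by norm_num)]
  decide

theorem V_17 {p : ℕ} (hp : p.Prime) (h : p ≠ 17) : V p 17 = 0 := by
  have := V_prime hp (by norm_num : Nat.Prime 17)
  rw [if_neg h] at this
  exact_mod_cast this

theorem toPC {m : ℤ} (hm : Squarefree m) {u v : ℤ} (hu : Squarefree u) (hv : Squarefree v)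
    (h : LC m u v) : ∃ a b : ZMod 2, PC m (tw u (-1) (-m) a b) (tw v m 17 a b) := by
  have hm0 := hm.ne_zero
  have hu0 := hu.ne_zero
  have hv0 := hv.ne_zero
  have h10 : (-1 : ℤ) ≠ 0 := by norm_num
  have hmm0 : -m ≠ 0 := neg_ne_zero.2 hm0
  have h170 : (17 : ℤ) ≠ 0 := by norm_num
  have p17 : Nat.Prime 17 := by norm_num
  haveI f17 : Fact (Nat.Prime 17) := ⟨p17⟩
  haveI f2 : Fact (Nat.Prime 2) := ⟨Nat.prime_two⟩
  set b : ZMod 2 := if (17 : ℤ) ∣ m then V 17 u else V 17 v with hb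
  set a : ZMod 2 := sg u + b * sg (-m) with ha
  have Fu : ∀ F : ℤ → ZMod 2, AddH F → F (tw u (-1) (-m) a b) = F u + (a * F (-1) + b * F (-m)) :=
    fun F hF => F_tw hF a b hu0 h10 hmm0
  have Fv : ∀ F : ℤ → ZMod 2, AddH F → F (tw v m 17 a b) = F v + (a * F m + b * F 17) :=
    fun F hF => F_tw hF a b hv0 hm0 h170
  have hun := tw_ne a b hu0 h10 hmm0
  have hvn := tw_ne a b hv0 hm0 h170
  have s1 : Squarefree (-1 : ℤ) := sf_neg squarefree_one
  have s17 : Squarefree (17 : ℤ) := by exact_mod_cast sf_prime p17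
  have V17m : ∀ p : ℕ, p.Prime → ¬ (p : ℤ) ∣ m → V p (-m) = 0 := by
    intro p hp hpm
    haveI : Fact p.Prime := ⟨hp⟩
    rw [F_neg (V_addH p) hm0, V_neg_one hp, V_zero hp hpm, add_zero]
  have V1m : ∀ p : ℕ, p.Prime → (p : ℤ) ∣ m → V p (-m) = 1 := by
    intro p hp hpm
    haveI : Fact p.Prime := ⟨hp⟩
    rw [F_neg (V_addH p) hm0, V_neg_one hp, V_one hm hp hpm, zero_add]
  refine ⟨a, b, ?_, ?_, ?_, ?_, ?_, ?_, ?_, ?_, ?_⟩
  · -- sign of the first component
    apply pos_of_sg hun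
    rw [Fu _ sg_addH, ha, sg_neg (by norm_num : (-1 : ℤ) < 0)]
    exact dd1 _ _
  · -- sign of the second component
    apply pos_of_sg hvn
    rw [Fv _ sg_addH, sg_pos (by norm_num : (0 : ℤ) < 17), mul_zero, add_zero]
    rcases lt_or_gt_of_ne hm0 with h1 | h1
    · have h2 := h.neg h1
      rw [ha, sg_neg h1, sg_pos (by omega : 0 < -m), mul_zero, add_zero, mul_one]
      have h3 := sg_addH u v hu0 hv0
      rw [sg_pos h2] at h3
      rw [add_comm]; exact h3.symm
    · rw [sg_pos (h.pos h1), sg_pos h1, mul_zero, add_zero]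
  · -- good primes
    intro p hp hp2 hp17 hpm
    haveI : Fact p.Prime := ⟨hp⟩
    obtain ⟨g1, g2⟩ := h.good p hp hp2 hp17 hpm
    rw [Fu _ (V_addH p), Fv _ (V_addH p), V_neg_one hp, V17m p hp hpm, V_zero hp g1, V_zero hp g2,
      V_zero hp hpm, V_17 hp hp17]
    simp
  · -- odd primes dividing `m`
    intro p hp hp2 hp17 hpm
    haveI : Fact p.Prime := ⟨hp⟩
    obtain ⟨g1, g2⟩ := h.odd p hp hp2 hp17 hpm
    rw [sf_lam hu, sf_ind hu, sf_ind hv, sf_lam (sf_neg hm), sf_lam s1] at g1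
    rw [sf_lam hv, sf_ind hu, sf_ind hv, sf_lam hm, sf_lam s17] at g2
    rw [Fu _ (V_addH p), Fv _ (V_addH p), Fu _ (Lm_addH p), Fv _ (Lm_addH p), V_neg_one hp,
      V1m p hp hpm, V_one hm hp hpm, V_17 hp hp17, g1, g2]
    constructor <;> ring
  · -- the prime 17, first component
    rw [Fu _ (V_addH 17), V_neg_one p17, mul_zero, zero_add]
    by_cases h1 : (17 : ℤ) ∣ m
    · rw [hb, if_pos h1, V1m 17 p17 (by exact_mod_cast h1), mul_one, z2]
    · have h2 := (h.s17 h1).1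
      rw [V_zero p17 (by exact_mod_cast h2), V17m 17 p17 (by exact_mod_cast h1), mul_zero, add_zero]
  · intro h1
    have e : V 17 17 = 1 := by
      have := V_prime p17 p17
      rw [if_pos rfl] at this
      exact_mod_cast this
    rw [Fv _ (V_addH 17), V_zero p17 (by exact_mod_cast h1 : ¬ ((17 : ℕ) : ℤ) ∣ m), e, hb, if_neg h1,
      mul_zero, zero_add, mul_one, z2]
  · intro h1
    have g1 := (h.r17 h1).1
    rw [sf_lam hu, sf_ind hu, sf_lam hm] at g1
    have e : Lm 17 (-1) = 0 := by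
      rw [Lm_neg_one p17 (by norm_num)]; exact A4_17
    rw [Fu _ (Lm_addH 17), F_neg (Lm_addH 17) hm0, e, g1, hb, if_pos h1, mul_zero, zero_add,
      zero_add, z2]
  · intro h1
    obtain ⟨g1, g2⟩ := h.o2 h1
    have n1 : ¬ ((2 : ℕ) : ℤ) ∣ m := by
      have : ¬ (2 : ℤ) ∣ m := by omega
      exact_mod_cast this
    have n2 : ¬ ((2 : ℕ) : ℤ) ∣ v := by
      have : ¬ (2 : ℤ) ∣ v := by omega
      exact_mod_cast this
    have e : A4 17 = 0 := A4_17
    rw [Fu _ (V_addH 2), Fv _ (V_addH 2), Fv _ A4_addH, V_neg_one Nat.prime_two,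
      V17m 2 Nat.prime_two n1, V_zero Nat.prime_two (by exact_mod_cast g1 : ¬ ((2 : ℕ) : ℤ) ∣ u),
      V_zero Nat.prime_two n2, V_zero Nat.prime_two n1, V_17 Nat.prime_two (by norm_num),
      A4_zero g2, A4_zero h1, e]
    simp
  · intro h1
    obtain ⟨g1, g2⟩ := h.e2 h1
    unfold h2 at g2
    rw [sf_e4 hu, sf_e4 hm, sf_ind hu, sf_e8 hm, sf_ind hm, sf_e8 hu, sf_e4 hv] at g2
    have e : A4 17 = 0 := A4_17
    have e8 : A8 17 = 0 := A8_17
    have eV : V 2 17 = 0 := V_17 Nat.prime_two (by norm_num)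
    have hc0 : ∃ c : ZMod 2, A4 v = c * A4 m ∧ A8 v = c * A8 m ∧ V 2 v = c * V 2 m := by
      rcases g1 with ⟨k1, k2⟩ | ⟨k1, k2⟩
      · rw [sf_od hv] at k1
        refine ⟨0, ?_, ?_, ?_⟩
        · unfold A4; rw [if_neg (by omega), zero_mul]
        · unfold A8; rw [if_pos (Or.inl k1), zero_mul]
        · rw [V_zero Nat.prime_two (by exact_mod_cast k2), zero_mul]
      · rw [sf_od hv, sf_od hm] at k2
        refine ⟨1, ?_, ?_, ?_⟩
        · rw [one_mul]
          have k3 : A4 (od v * od m) = 0 := by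
            rw [A4_odd (by omega), if_neg (by omega)]
          have o1 := (od_spec hv0).2
          have o2 := (od_spec hm0).2
          rw [A4_addH _ _ (by omega) (by omega)] at k3
          have e1 : A4 (od v) = A4 v := by unfold A4; rw [od_odd o1]
          have e2 : A4 (od m) = A4 m := by unfold A4; rw [od_odd o2]
          rw [e1, e2] at k3
          exact dd2 _ _ k3
        · rw [one_mul]
          have k3 : A8 (od v * od m) = 0 := by
            rw [A8_odd (by omega), if_pos (Or.inl k2)]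
          have o1 := (od_spec hv0).2
          have o2 := (od_spec hm0).2
          rw [A8_addH _ _ (by omega) (by omega)] at k3
          have e1 : A8 (od v) = A8 v := by unfold A8; rw [od_odd o1]
          have e2 : A8 (od m) = A8 m := by unfold A8; rw [od_odd o2]
          rw [e1, e2] at k3
          exact dd2 _ _ k3
        · rw [one_mul]
          by_cases hm2 : (2 : ℤ) ∣ m
          · rw [V_one hm Nat.prime_two (by exact_mod_cast hm2),
              V_one hv Nat.prime_two (by exact_mod_cast k1.2 hm2)]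
          · have hv2 : ¬ (2 : ℤ) ∣ v := fun h' => hm2 (k1.1 h')
            have q1 : V 2 v = 0 := V_zero Nat.prime_two (by exact_mod_cast hv2)
            have q2 : V 2 m = 0 := V_zero Nat.prime_two (by exact_mod_cast hm2)
            rw [q1, q2]
    obtain ⟨c, c1, c2, c3⟩ := hc0
    refine ⟨c + a, ?_, ?_, ?_, ?_⟩
    · rw [Fv _ A4_addH, e, c1]; ring
    · rw [Fv _ A8_addH, e8, c2]; ring
    · rw [Fv _ (V_addH 2), eV, c3]; ring
    · rw [Fu _ A4_addH, Fu _ (V_addH 2), Fu _ A8_addH, Fv _ A4_addH, e, ← g2, F_neg A4_addH hm0,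
        F_neg A8_addH hm0, F_neg (V_addH 2) hm0, A4_neg_one, A8_neg_one, V_neg_one Nat.prime_two]
      exact dd3 _ _ _ _ _ _ _ _

/-- **SYSF** -/
theorem t_SYSF : S_SYSF := by
  intro m hm hS u v hu hv h
  obtain ⟨a, b, hP⟩ := toPC hm hu hv h
  obtain ⟨h1, h2⟩ := core hm hS hP
  unfold tw at h1 h2
  have h01 : ∀ c : ZMod 2, c = 0 ∨ c = 1 := by decide
  have v0 : (0 : ZMod 2).val = 0 := rfl
  have v1 : (1 : ZMod 2).val = 1 := rfl
  unfold TC
  rcases h01 a with rfl | rfl <;> rcases h01 b with rfl | rfl <;>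
    simp only [v0, v1, pow_zero, pow_one, mul_one, one_mul] at h1 h2
  · exact Or.inl ⟨h1, h2⟩
  · right; right; left
    obtain ⟨k, hk⟩ := h1
    obtain ⟨l, hl⟩ := h2
    exact ⟨⟨k, by linear_combination hk⟩, ⟨m * l, by linear_combination m ^ 2 * hl⟩⟩
  · right; left
    obtain ⟨k, hk⟩ := h1
    obtain ⟨l, hl⟩ := h2
    exact ⟨⟨4 * m * k, by linear_combination 16 * m ^ 2 * hk⟩, ⟨l, by linear_combination hl⟩⟩
  · right; right; right
    obtain ⟨k, hk⟩ := h1
    obtain ⟨l, hl⟩ := h2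
    exact ⟨⟨4 * k, by linear_combination 16 * hk⟩, ⟨l, by linear_combination hl⟩⟩

end Pool.Agent.H743.X17.QSYSF
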