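import Pool.Agent.H743.X17.Stm
import Pool.Graph.R_seed8.TH841.SH.Grp

/-!
# X17, part ABSB: the converse of the abstract 2-descent

If `y² = x (x + A) (x + B)` has finitely many rational points, none of order four, and its
Tate-Shafarevich group has no element of order two, then every everywhere locally soluble
2-covering comes from a point of order dividing two.
-/

set_option autoImplicit false
set_option linter.all false

open scoped Classical

namespace Pool.Agent.H743.X17.QABSB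

open WeierstrassCurve
open Pool.Agent.TH841.SH
open Pool.Agent.W262.SH (QB Pt act LocTriv Sha)
open Pool.Agent.H743.X17 (EAB LS ELS TC No4 S_ABSB)

/-! ### quadratic characters with values in the points of order two -/

/-- the homomorphism with value `T` at the automorphisms which move `s` -/
noncomputable def fd {W : WeierstrassCurve ℚ} (s : QB) (T : Pt W QB) :
    (QB ≃ₐ[ℚ] QB) → Pt W QB := fun σ => if σ s = s then 0 else T

theorem fd_pos {W : WeierstrassCurve ℚ} {s : QB} {T : Pt W QB} {σ : QB ≃ₐ[ℚ] QB} (h : σ s = s) :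
    fd s T σ = 0 := if_pos h

theorem fd_neg {W : WeierstrassCurve ℚ} {s : QB} {T : Pt W QB} {σ : QB ≃ₐ[ℚ] QB} (h : σ s ≠ s) :
    fd s T σ = T := if_neg h

theorem moved {d : ℤ} {s : QB} (hs : s ^ 2 = d) {σ : QB ≃ₐ[ℚ] QB} (h : σ s ≠ s) : σ s = -s := by
  have h6 : (σ s) ^ 2 = s ^ 2 := by
    rw [← map_pow, hs, map_intCast]
  rcases sq_eq_sq_iff_eq_or_eq_neg.1 h6 with h7 | h7
  · exact absurd h7 h
  · exact h7

theorem ne0 {d : ℤ} (hd : d ≠ 0) {s : QB} (hs : s ^ 2 = d) : s ≠ 0 := by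
  rintro rfl
  rw [zero_pow two_ne_zero] at hs
  exact hd (by exact_mod_cast hs.symm)

theorem neg_ne {d : ℤ} (hd : d ≠ 0) {s : QB} (hs : s ^ 2 = d) : -s ≠ s := by
  intro h
  have h1 : (2 : QB) * s = 0 := by linear_combination -h
  exact ne0 hd hs ((mul_eq_zero.1 h1).resolve_left two_ne_zero)

theorem fd_add_self {W : WeierstrassCurve ℚ} {s : QB} {T : Pt W QB} (hT : T + T = 0)
    (σ : QB ≃ₐ[ℚ] QB) : fd s T σ + fd s T σ = 0 := by
  by_cases h : σ s = s
  · rw [fd_pos h, add_zero]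
  · rw [fd_neg h, hT]

theorem fd_lc {W : WeierstrassCurve ℚ} (s : QB) (T : Pt W QB) : IsLocallyConstant (fd s T) :=
  (lc_apply s).comp fun x => if x = s then (0 : Pt W QB) else T

theorem fd_mul {W : WeierstrassCurve ℚ} {d : ℤ} (hd : d ≠ 0) {s : QB} (hs : s ^ 2 = d)
    {T : Pt W QB} (hT : T + T = 0) (σ τ : QB ≃ₐ[ℚ] QB) :
    fd s T (σ * τ) = fd s T σ + fd s T τ := by
  by_cases h1 : τ s = s
  · rw [fd_pos h1, add_zero]
    have h2 : (σ * τ) s = σ s := by rw [AlgEquiv.mul_apply, h1]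
    by_cases h3 : σ s = s
    · rw [fd_pos h3, fd_pos (h2.trans h3)]
    · rw [fd_neg h3, fd_neg (fun h => h3 (h2.symm.trans h))]
  · rw [fd_neg h1]
    have h2 : (σ * τ) s = -σ s := by rw [AlgEquiv.mul_apply, moved hs h1, map_neg]
    by_cases h3 : σ s = s
    · rw [fd_pos h3, zero_add, fd_neg]
      rw [h2, h3]; exact neg_ne hd hs
    · rw [fd_neg h3, hT, fd_pos]
      rw [h2, moved hs h3, neg_neg]

/-! ### local triviality -/

/-- the class is locally trivial where the 2-covering has a point -/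
theorem pt_triv {W : WeierstrassCurve ℚ} {a b c : ℚ} (h : IsR W a b c) (hab : a ≠ b) (hac : a ≠ c)
    (hbc : b ≠ c) {f : (QB ≃ₐ[ℚ] QB) → Pt W QB} (hf : ∀ σ, f σ + f σ = 0)
    {u v : ℤ} (hu : u ≠ 0) (hv : v ≠ 0) {s s' : QB} (hs : s ^ 2 = u) (hs' : s' ^ 2 = v)
    (hse : ∀ σ : QB ≃ₐ[ℚ] QB, σ s = s ↔ IsX (W.baseChange QB) (algebraMap ℚ QB a) (f σ))
    (hse' : ∀ σ : QB ≃ₐ[ℚ] QB, σ s' = s' ↔ IsX (W.baseChange QB) (algebraMap ℚ QB b) (f σ))
    {K : Type} [Field K] [Algebra ℚ K] (h2K : (2 : K) ≠ 0)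
    {x y : K} (hy : y ≠ 0) (hxy : y ^ 2 = (x - algebraMap ℚ K a) * (x - algebraMap ℚ K b) *
      (x - algebraMap ℚ K c)) (h1 : IsSquare ((x - algebraMap ℚ K a) * u))
    (h2 : IsSquare ((x - algebraMap ℚ K b) * v)) :
    LocTriv W K f := by
  intro ι
  obtain ⟨α, h1⟩ := h1
  obtain ⟨β, h2⟩ := h2
  have h2Ω : (2 : AlgebraicClosure K) ≠ 0 := by
    have h3 := (map_ne_zero (algebraMap K (AlgebraicClosure K))).2 h2K
    rwa [map_ofNat] at h3
  have hinj : Function.Injective (algebraMap ℚ (AlgebraicClosure K)) :=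
    (algebraMap ℚ (AlgebraicClosure K)).injective
  have hinjK : Function.Injective (algebraMap ℚ K) := (algebraMap ℚ K).injective
  have cK : ∀ {d : ℤ}, d ≠ 0 → (d : K) ≠ 0 := by
    intro d hd
    have h4 : algebraMap ℚ K (d : ℚ) ≠ 0 := by
      rw [Ne, map_eq_zero]; exact_mod_cast hd
    rwa [map_intCast] at h4
  have hbΩ := h.base (AlgebraicClosure K)
  have hprod : (x - algebraMap ℚ K a) * (x - algebraMap ℚ K b) * (x - algebraMap ℚ K c) ≠ 0 := by
    rw [← hxy]; exact pow_ne_zero 2 hy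
  have xa : x - algebraMap ℚ K a ≠ 0 := left_ne_zero_of_mul (left_ne_zero_of_mul hprod)
  have xb : x - algebraMap ℚ K b ≠ 0 := right_ne_zero_of_mul (left_ne_zero_of_mul hprod)
  have hα : α ≠ 0 := by
    rintro rfl
    rw [mul_zero] at h1
    exact mul_ne_zero xa (cK hu) h1
  have hβ : β ≠ 0 := by
    rintro rfl
    rw [mul_zero] at h2
    exact mul_ne_zero xb (cK hv) h2
  have hn1 : (W.baseChange K).toAffine.Nonsingular x y :=
    (h.base K).nons h2K (hinjK.ne hab) (hinjK.ne hac) (hinjK.ne hbc) hxy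
  let j : K →ₐ[ℚ] AlgebraicClosure K := IsScalarTower.toAlgHom ℚ K (AlgebraicClosure K)
  set P : Pt W (AlgebraicClosure K) := act W j (.some x _ hn1) with hP
  have hPfix : ∀ τ : AlgebraicClosure K ≃ₐ[K] AlgebraicClosure K,
      act W (τ.toAlgHom.restrictScalars ℚ) P = P := by
    intro τ
    rw [hP, act_act]
    congr 1
    congr 1
    ext w
    exact τ.commutes w
  have hP0 : P ≠ 0 := by
    rw [hP, act_some]
    exact Affine.Point.some_ne_zero _
  obtain ⟨Q, hQ⟩ := hbΩ.div h2Ω (hinj.ne hab) (hinj.ne hac) (hinj.ne hbc) P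
  refine ⟨Q, fun τ σ hτ => ?_⟩
  set T := act W (τ.toAlgHom.restrictScalars ℚ) Q - Q with hT
  have hTT : T + T = 0 := by
    have e : T + T = (act W (τ.toAlgHom.restrictScalars ℚ) Q +
        act W (τ.toAlgHom.restrictScalars ℚ) Q) - (Q + Q) := by rw [hT]; abel
    rw [e, ← map_add, ← hQ, hPfix, sub_self]
  have hQT : act W (τ.toAlgHom.restrictScalars ℚ) Q = Q + T := by rw [hT]; abel
  have hPy : P + P ≠ 0 := by
    rw [hP, ← map_add]
    intro h0
    rw [← map_zero (act W j)] at h0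
    have h5 := act_inj W j h0
    rw [(h.base K).add_self h2K] at h5
    exact hy h5
  rcases Q with _ | ⟨p, q, hn⟩
  · exact absurd (hQ.trans (add_zero 0)) hP0
  have hq : q ≠ 0 := fun hv => hP0 (hQ.trans ((hbΩ.add_self h2Ω hn).2 hv))
  obtain ⟨X, Y, hn', e1, hXa⟩ := hbΩ.dup h2Ω hn hq
  obtain ⟨X', Y', hn'', e1', hXb⟩ := hbΩ.swap.dup h2Ω hn hq
  rw [← hQ, hP, act_some, Affine.Point.some.injEq] at e1 e1'
  rw [← e1.1] at hXa
  rw [← e1'.1] at hXb
  have hcomm : ∀ w : QB, τ (ι w) = ι (σ w) := fun w => DFunLike.congr_fun hτ w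
  have key : ∀ (g : AlgebraicClosure K) (α' : K) (t : QB), α' ≠ 0 → t ≠ 0 →
      (g * ι t) ^ 2 = (algebraMap K (AlgebraicClosure K) α') ^ 2 → g ≠ 0 ∧ (τ g = g ↔ σ t = t) := by
    intro g α' t hα' ht hg
    have hιs0 : ι t ≠ 0 := by rw [Ne, map_eq_zero]; exact ht
    have h4 : τ (g * ι t) = g * ι t := by
      rcases sq_eq_sq_iff_eq_or_eq_neg.1 hg with h | h
      · rw [h]; exact τ.commutes α'
      · rw [h, map_neg]; congr 1; exact τ.commutes α'
    have hg0 : g ≠ 0 := by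
      rintro rfl
      rw [zero_mul, zero_pow two_ne_zero] at hg
      exact (pow_ne_zero 2 ((map_ne_zero (algebraMap K (AlgebraicClosure K))).2 hα')) hg.symm
    refine ⟨hg0, ?_⟩
    rw [map_mul, hcomm] at h4
    constructor
    · intro h5
      rw [h5] at h4
      exact ι.injective (mul_left_cancel₀ hg0 h4)
    · intro h5
      rw [h5] at h4
      exact mul_right_cancel₀ hιs0 h4
  have eQu : (ι s) ^ 2 = algebraMap K (AlgebraicClosure K) (u : K) := by
    rw [← map_pow, hs, map_intCast, map_intCast]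
  have eQv : (ι s') ^ 2 = algebraMap K (AlgebraicClosure K) (v : K) := by
    rw [← map_pow, hs', map_intCast, map_intCast]
  have ga := act_gf (a := a) (b := b) (c := c) (τ.toAlgHom.restrictScalars ℚ) (.some p q hn)
  have gb := act_gf (a := b) (b := a) (c := c) (τ.toAlgHom.restrictScalars ℚ) (.some p q hn)
  rw [hQT] at ga gb
  obtain ⟨u1, v1, m1, q1, -, sa, sa'⟩ := hbΩ.sign h2Ω (hinj.ne hab) (hinj.ne hac) (hinj.ne hbc)
    hn hq hTT
  obtain ⟨u2, v2, m2, q2, -, sb, sb'⟩ := hbΩ.swap.sign h2Ω (hinj.ne hab.symm) (hinj.ne hbc)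
    (hinj.ne hac) hn hq hTT
  rw [← q1] at sa sa'
  rw [← q2] at sb sb'
  have ka := key (gf (W.baseChange (AlgebraicClosure K)) (algebraMap ℚ _ a) (algebraMap ℚ _ b)
    (algebraMap ℚ _ c) (.some p q hn)) α s hα (ne0 hu hs) (by
      rw [mul_pow, eQu, ← map_pow, sq α, ← h1, map_mul, map_sub, ← IsScalarTower.algebraMap_apply]
      congr 1
      exact hXa.symm)
  have kb := key (gf (W.baseChange (AlgebraicClosure K)) (algebraMap ℚ _ b) (algebraMap ℚ _ a)
    (algebraMap ℚ _ c) (.some p q hn)) β s' hβ (ne0 hv hs') (by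
      rw [mul_pow, eQv, ← map_pow, sq β, ← h2, map_mul, map_sub, ← IsScalarTower.algebraMap_apply]
      congr 1
      exact hXb.symm)
  have fin : ∀ (g g' : AlgebraicClosure K) (I : Prop), g ≠ 0 → τ g = g' → (I → g' = g) →
      (¬ I → g' = -g) → (I ↔ τ g = g) := by
    intro g g' I hg h4 h5 h6
    constructor
    · intro hI; rw [h4, h5 hI]
    · intro h7
      by_contra hI
      have h8 := h6 hI
      rw [← h4, h7] at h8
      have h9 : 2 * g = 0 := by linear_combination h8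
      exact hg ((mul_eq_zero.1 h9).resolve_left h2Ω)
  have ia := (fin _ _ _ ka.1 ga sa sa').trans ka.2
  have ib := (fin _ _ _ kb.1 gb sb sb').trans kb.2
  have hι2 : act W ι (f σ) + act W ι (f σ) = 0 := by
    rw [← map_add, hf, map_zero]
  refine hbΩ.ext h2Ω (hinj.ne hab) (hinj.ne hac) (hinj.ne hbc) hι2 hTT ?_ ?_
  · rw [act_isX, ia, hse]
  · rw [act_isX, ib, hse']

/-! ### finite groups without elements of order four -/

/-- a finite group without elements of order four -/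
theorem half_tor {G : Type} [AddCommGroup G] [Finite G]
    (h4 : ∀ R : G, (R + R) + (R + R) = 0 → R + R = 0) (P : G) :
    ∃ T R : G, T + T = 0 ∧ P = T + (R + R) := by
  let S : Type := {x : G // ∃ y, x = y + y}
  let f : S → S := fun x => ⟨x.1 + x.1, x.1, rfl⟩
  have hf : Function.Injective f := by
    rintro ⟨x, y, hx⟩ ⟨x', y', hx'⟩ h
    apply Subtype.ext
    show x = x'
    have h1 : x + x = x' + x' := congrArg Subtype.val h
    have h2 := h4 (y - y') (by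
      have e : (y - y' + (y - y')) + (y - y' + (y - y')) = (y + y + (y + y)) - (y' + y' + (y' + y')) := by
        abel
      rw [e, ← hx, ← hx', h1, sub_self])
    have e : y - y' + (y - y') = x - x' := by rw [hx, hx']; abel
    rw [e] at h2
    exact sub_eq_zero.1 h2
  haveI : Finite S := Subtype.finite
  obtain ⟨⟨x, y, hx⟩, hxP⟩ := Finite.surjective_of_injective hf ⟨P + P, P, rfl⟩
  have h1 : x + x = P + P := congrArg Subtype.val hxP
  refine ⟨P - x, y, ?_, by rw [← hx]; abel⟩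
  have e : P - x + (P - x) = (P + P) - (x + x) := by abel
  rw [e, h1, sub_self]

/-- the value of `gf` at a fixed point is rational -/
theorem gf_rat {W : WeierstrassCurve ℚ} {a b c : ℚ} {R : Pt W QB}
    (hR : ∀ σ : QB ≃ₐ[ℚ] QB, act W σ.toAlgHom R = R) : ∃ q : ℚ, algebraMap ℚ QB q =
      gf (W.baseChange QB) (algebraMap ℚ QB a) (algebraMap ℚ QB b) (algebraMap ℚ QB c) R := by
  refine fix_mem _ fun σ => ?_
  have h1 := act_gf (W := W) (a := a) (b := b) (c := c) σ.toAlgHom R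
  rw [hR σ] at h1
  exact h1

/-- the double of a rational point is not a point of order two, unless two differences of the
roots are squares -/
theorem no_four {W : WeierstrassCurve ℚ} {a b c : ℚ} (h : IsR W a b c) (hab : a ≠ b)
    (hac : a ≠ c) (hbc : b ≠ c) (n1 : ¬ (IsSquare (a - b) ∧ IsSquare (a - c)))
    (n2 : ¬ (IsSquare (b - a) ∧ IsSquare (b - c))) (n3 : ¬ (IsSquare (c - a) ∧ IsSquare (c - b)))
    {R : Pt W QB} (hR : ∀ σ : QB ≃ₐ[ℚ] QB, act W σ.toAlgHom R = R)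
    (h4 : (R + R) + (R + R) = 0) : R + R = 0 := by
  have hinj : Function.Injective (algebraMap ℚ QB) := (algebraMap ℚ QB).injective
  by_contra hcon
  have hb := h.base QB
  have gfa := gf_rat (a := a) (b := b) (c := c) hR
  have gfb := gf_rat (a := b) (b := c) (c := a) hR
  have gfc := gf_rat (a := c) (b := a) (c := b) hR
  rcases R with _ | ⟨u, v, hn⟩
  · exact hcon (add_zero 0)
  have hv : v ≠ 0 := fun hv => hcon ((hb.add_self two_ne_zero hn).2 hv)
  obtain ⟨X, Y, hn', e1, hXa⟩ := hb.dup two_ne_zero hn hv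
  obtain ⟨X', Y', hn'', e1', hXb⟩ := hb.rot.dup two_ne_zero hn hv
  obtain ⟨X'', Y'', hn3', e1'', hXc⟩ := hb.rot.rot.dup two_ne_zero hn hv
  rw [e1, Affine.Point.some.injEq] at e1' e1''
  obtain ⟨rfl, rfl⟩ := e1'
  obtain ⟨rfl, rfl⟩ := e1''
  obtain ⟨qa, hqa⟩ := gfa
  obtain ⟨qb, hqb⟩ := gfb
  obtain ⟨qc, hqc⟩ := gfc
  have ha : X - algebraMap ℚ QB a = algebraMap ℚ QB (qa ^ 2) := by
    rw [map_pow, hqa]; exact hXa
  have hb' : X - algebraMap ℚ QB b = algebraMap ℚ QB (qb ^ 2) := by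
    rw [map_pow, hqb]; exact hXb
  have hc : X - algebraMap ℚ QB c = algebraMap ℚ QB (qc ^ 2) := by
    rw [map_pow, hqc]; exact hXc
  rw [e1] at h4
  have sq : ∀ {x y q : ℚ}, algebraMap ℚ QB x - algebraMap ℚ QB y = algebraMap ℚ QB (q ^ 2) →
      IsSquare (x - y) := by
    intro x y q hq
    rw [← map_sub] at hq
    exact ⟨q, by rw [hinj hq]; ring⟩
  rcases hb.tors two_ne_zero h4 with h | ⟨hn3, h⟩ | ⟨hn3, h⟩ | ⟨hn3, h⟩
  · exact Affine.Point.some_ne_zero _ h
  · rw [Affine.Point.some.injEq] at h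
    rw [h.1] at hb' hc
    exact n1 ⟨sq hb', sq hc⟩
  · rw [Affine.Point.some.injEq] at h
    rw [h.1] at ha hc
    exact n2 ⟨sq ha, sq hc⟩
  · rw [Affine.Point.some.injEq] at h
    rw [h.1] at ha hb'
    exact n3 ⟨sq ha, sq hb'⟩

/-- the value of the coordinate times the character is a square -/
theorem sq_char {W : WeierstrassCurve ℚ} {a b c : ℚ} (h : IsR W a b c) (hab : a ≠ b)
    (hac : a ≠ c) (hbc : b ≠ c) {f : (QB ≃ₐ[ℚ] QB) → Pt W QB} (hf : ∀ σ, f σ + f σ = 0)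
    {d : ℤ} {s : QB} (hs : s ^ 2 = d)
    (hse : ∀ σ : QB ≃ₐ[ℚ] QB, σ s = s ↔ IsX (W.baseChange QB) (algebraMap ℚ QB a) (f σ))
    {u v : QB} {hn : (W.baseChange QB).toAffine.Nonsingular u v} (hv : v ≠ 0)
    (hQ : ∀ σ : QB ≃ₐ[ℚ] QB, act W σ.toAlgHom (.some u v hn) = .some u v hn + f σ)
    {x : ℚ} {Y : QB} {hn' : (W.baseChange QB).toAffine.Nonsingular (algebraMap ℚ QB x) Y}
    (e1 : (Affine.Point.some u v hn : Pt W QB) + .some u v hn = .some _ Y hn') :
    IsSquare ((x - a) * d) := by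
  have hinj : Function.Injective (algebraMap ℚ QB) := (algebraMap ℚ QB).injective
  have hb := h.base QB
  obtain ⟨X, Y', hn'', e2, hXa⟩ := hb.dup two_ne_zero hn hv
  rw [e1, Affine.Point.some.injEq] at e2
  obtain ⟨e2, -⟩ := e2
  obtain ⟨q, hq⟩ : ∃ q : ℚ, algebraMap ℚ QB q = gf (W.baseChange QB) (algebraMap ℚ QB a)
      (algebraMap ℚ QB b) (algebraMap ℚ QB c) (.some u v hn) * s := by
    refine fix_mem _ fun σ => ?_
    have ga := act_gf (a := a) (b := b) (c := c) σ.toAlgHom (.some u v hn)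
    rw [hQ σ] at ga
    obtain ⟨u1, v1, m1, q1, -, sa, sa'⟩ := hb.sign two_ne_zero (hinj.ne hab) (hinj.ne hac)
      (hinj.ne hbc) hn hv (hf σ)
    rw [← q1] at sa sa'
    have ga' : σ (gf (W.baseChange QB) (algebraMap ℚ QB a)
      (algebraMap ℚ QB b) (algebraMap ℚ QB c) (.some u v hn)) = _ := ga
    rw [map_mul, ga']
    by_cases h3 : σ s = s
    · rw [sa ((hse σ).1 h3), h3]
    · rw [sa' (fun h' => h3 ((hse σ).2 h')), moved hs h3, neg_mul_neg]
  refine ⟨q, hinj ?_⟩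
  rw [map_mul, map_mul, map_sub, e2, hq, map_intCast, ← hs]
  have hXa' : X - algebraMap ℚ QB a = (gf (W.baseChange QB) (algebraMap ℚ QB a)
    (algebraMap ℚ QB b) (algebraMap ℚ QB c) (.some u v hn)) ^ 2 := hXa
  rw [hXa']
  ring

/-! ### the curve -/

theorem isR (A B : ℤ) : IsR (EAB A B) 0 (-(A : ℚ)) (-(B : ℚ)) where
  h1 := rfl
  h2 := by show (A : ℚ) + B = _; ring
  h3 := rfl
  h4 := by show (A : ℚ) * B = _; ring
  h6 := by show (0 : ℚ) = _; ring

theorem sq_int {n : ℤ} (h : IsSquare (n : ℚ)) : IsSquare n := Rat.isSquare_intCast_iff.1 h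

theorem sq_cancel {x y : ℤ} (hy : y ≠ 0) (h : IsSquare (x * y ^ 2)) : IsSquare x := by
  have h1 : IsSquare ((x * y ^ 2 : ℤ) : ℚ) := Rat.isSquare_intCast_iff.2 h
  obtain ⟨q, hq⟩ := h1
  have hy' : (y : ℚ) ≠ 0 := by exact_mod_cast hy
  refine sq_int ⟨q / y, ?_⟩
  rw [div_mul_div_comm, ← hq]
  push_cast
  field_simp

theorem t_ABSB : S_ABSB := by
  intro A B hA hB hAB hN4 hfin hsha u v hu hv hE
  have hinj : Function.Injective (algebraMap ℚ QB) := (algebraMap ℚ QB).injective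
  have r := isR A B
  have hb := r.base QB
  have hA' : (A : ℚ) ≠ 0 := by exact_mod_cast hA
  have hB' : (B : ℚ) ≠ 0 := by exact_mod_cast hB
  have hAB' : (A : ℚ) ≠ B := by exact_mod_cast hAB
  have ab : (0 : ℚ) ≠ -(A : ℚ) := by
    intro h; exact hA' (by linarith)
  have ac : (0 : ℚ) ≠ -(B : ℚ) := by
    intro h; exact hB' (by linarith)
  have bc : -(A : ℚ) ≠ -(B : ℚ) := by
    intro h; exact hAB' (by linarith)
  have hu0 := hu.ne_zero
  have hv0 := hv.ne_zero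
  have huv0 : u * v ≠ 0 := mul_ne_zero hu0 hv0
  obtain ⟨s, hs⟩ := IsAlgClosed.exists_pow_nat_eq (u : QB) (n := 2) (by norm_num)
  obtain ⟨s', hs'⟩ := IsAlgClosed.exists_pow_nat_eq (v : QB) (n := 2) (by norm_num)
  have hss : (s * s') ^ 2 = ((u * v : ℤ) : QB) := by
    rw [mul_pow, hs, hs']; push_cast; ring
  have kab := hinj.ne ab
  have kac := hinj.ne ac
  have kbc := hinj.ne bc
  have na := hb.nons two_ne_zero kab kac kbc (x := algebraMap ℚ QB 0) (y := 0) (by ring)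
  have nb := hb.nons two_ne_zero kab kac kbc (x := algebraMap ℚ QB (-(A : ℚ))) (y := 0) (by ring)
  set Ta : Pt (EAB A B) QB := .some _ _ na with hTa
  set Tb : Pt (EAB A B) QB := .some _ _ nb with hTb
  have hTa2 : Ta + Ta = 0 := (hb.add_self two_ne_zero na).2 rfl
  have hTb2 : Tb + Tb = 0 := (hb.add_self two_ne_zero nb).2 rfl
  obtain ⟨nc, hTc⟩ := hb.add_two kab na nb
  set f : (QB ≃ₐ[ℚ] QB) → Pt (EAB A B) QB := fd s' Ta + fd s Tb with hf
  have f2 : ∀ σ, f σ + f σ = 0 := by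
    intro σ
    have e : f σ + f σ = (fd s' Ta σ + fd s' Ta σ) + (fd s Tb σ + fd s Tb σ) := by
      rw [hf]; simp only [Pi.add_apply]; abel
    rw [e, fd_add_self hTa2, fd_add_self hTb2, add_zero]
  -- the values of `f`
  have f00 : ∀ σ : QB ≃ₐ[ℚ] QB, σ s = s → σ s' = s' → f σ = 0 := by
    intro σ h1 h2
    show fd s' Ta σ + fd s Tb σ = 0
    rw [fd_pos h1, fd_pos h2, add_zero]
  have f01 : ∀ σ : QB ≃ₐ[ℚ] QB, σ s = s → σ s' ≠ s' → f σ = Ta := by
    intro σ h1 h2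
    show fd s' Ta σ + fd s Tb σ = Ta
    rw [fd_pos h1, fd_neg h2, add_zero]
  have f10 : ∀ σ : QB ≃ₐ[ℚ] QB, σ s ≠ s → σ s' = s' → f σ = Tb := by
    intro σ h1 h2
    show fd s' Ta σ + fd s Tb σ = Tb
    rw [fd_neg h1, fd_pos h2, zero_add]
  have f11 : ∀ σ : QB ≃ₐ[ℚ] QB, σ s ≠ s → σ s' ≠ s' → f σ = .some _ _ nc := by
    intro σ h1 h2
    show fd s' Ta σ + fd s Tb σ = _
    rw [fd_neg h1, fd_neg h2]
    exact hTc
  have hse : ∀ σ : QB ≃ₐ[ℚ] QB, σ s = s ↔
      IsX ((EAB A B).baseChange QB) (algebraMap ℚ QB 0) (f σ) := by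
    intro σ
    by_cases h1 : σ s = s <;> by_cases h2 : σ s' = s'
    · rw [f00 σ h1 h2]; exact ⟨fun _ => isX_zero _, fun _ => h1⟩
    · rw [f01 σ h1 h2]; exact ⟨fun _ => isX_some na, fun _ => h1⟩
    · rw [f10 σ h1 h2]; exact ⟨fun h => absurd h h1, fun h => absurd h (not_isX nb kab.symm)⟩
    · rw [f11 σ h1 h2]; exact ⟨fun h => absurd h h1, fun h => absurd h (not_isX nc kac.symm)⟩
  have hse' : ∀ σ : QB ≃ₐ[ℚ] QB, σ s' = s' ↔
      IsX ((EAB A B).baseChange QB) (algebraMap ℚ QB (-(A : ℚ))) (f σ) := by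
    intro σ
    by_cases h1 : σ s = s <;> by_cases h2 : σ s' = s'
    · rw [f00 σ h1 h2]; exact ⟨fun _ => isX_zero _, fun _ => h2⟩
    · rw [f01 σ h1 h2]; exact ⟨fun h => absurd h h2, fun h => absurd h (not_isX na kab)⟩
    · rw [f10 σ h1 h2]; exact ⟨fun _ => isX_some nb, fun _ => h2⟩
    · rw [f11 σ h1 h2]; exact ⟨fun h => absurd h h2, fun h => absurd h (not_isX nc kbc.symm)⟩
  have hse'' : ∀ σ : QB ≃ₐ[ℚ] QB, σ (s * s') = s * s' ↔
      IsX ((EAB A B).baseChange QB) (algebraMap ℚ QB (-(B : ℚ))) (f σ) := by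
    intro σ
    rw [map_mul]
    by_cases h1 : σ s = s <;> by_cases h2 : σ s' = s'
    · rw [f00 σ h1 h2, h1, h2]; exact ⟨fun _ => isX_zero _, fun _ => rfl⟩
    · rw [f01 σ h1 h2, h1]
      refine ⟨fun h => absurd (mul_left_cancel₀ (ne0 hu0 hs) h) h2,
        fun h => absurd h (not_isX na kac)⟩
    · rw [f10 σ h1 h2, h2]
      refine ⟨fun h => absurd (mul_right_cancel₀ (ne0 hv0 hs') h) h1,
        fun h => absurd h (not_isX nb kbc)⟩
    · rw [f11 σ h1 h2, moved hs h1, moved hs' h2, neg_mul_neg]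
      exact ⟨fun _ => isX_some nc, fun _ => rfl⟩
  -- local triviality
  have loc : ∀ (K : Type) [Field K] [Algebra ℚ K], (2 : K) ≠ 0 → LS A B u v K →
      LocTriv (EAB A B) K f := by
    intro K _ _ h2K hLS
    obtain ⟨x, y, hy, hxy, h1, h2⟩ := hLS
    have eA : algebraMap ℚ K (-(A : ℚ)) = -(A : K) := by rw [map_neg, map_intCast]
    have eB : algebraMap ℚ K (-(B : ℚ)) = -(B : K) := by rw [map_neg, map_intCast]
    refine pt_triv r ab ac bc f2 hu0 hv0 hs hs' hse hse' h2K (x := x) (y := y) hy ?_ ?_ ?_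
    · rw [hxy, eA, eB, map_zero]; ring
    · rw [map_zero, sub_zero]; exact h1
    · rw [eA, sub_neg_eq_add]; exact h2
  have hsel : f ∈ selHom (EAB A B) := by
    refine ⟨(fd_lc s' Ta).add (fd_lc s Tb), f2, ?_, ?_, ?_⟩
    · intro σ τ
      show fd s' Ta (σ * τ) + fd s Tb (σ * τ) = (fd s' Ta σ + fd s Tb σ) + (fd s' Ta τ + fd s Tb τ)
      rw [fd_mul hv0 hs' hTa2, fd_mul hu0 hs hTb2]
      abel
    · intro p _
      exact loc ℚ_[p] two_ne_zero (hE.1 p)
    · exact loc ℝ two_ne_zero hE.2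
  have h2 : (⟨f, hsel⟩ : selHom (EAB A B)) + ⟨f, hsel⟩ = 0 := by
    apply Subtype.ext
    funext σ
    exact f2 σ
  have h3 := hsha (toSha r ⟨f, hsel⟩) (by rw [← map_add, h2, map_zero])
  obtain ⟨Q, hQ⟩ := (toSha_ker r ⟨f, hsel⟩).1 (AddMonoidHom.mem_ker.2 h3)
  have hQ : ∀ σ : QB ≃ₐ[ℚ] QB, f σ = act (EAB A B) σ.toAlgHom Q - Q := hQ
  obtain ⟨j, hj, hjσ, hjf⟩ := exists_rat (EAB A B)
  -- the point `Q + Q` is rational
  have hPfix : ∀ σ : QB ≃ₐ[ℚ] QB, act (EAB A B) σ.toAlgHom (Q + Q) = Q + Q := by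
    intro σ
    have e : act (EAB A B) σ.toAlgHom (Q + Q) - (Q + Q) =
        (act (EAB A B) σ.toAlgHom Q - Q) + (act (EAB A B) σ.toAlgHom Q - Q) := by
      rw [map_add]; abel
    rw [← hQ σ, f2] at e
    exact sub_eq_zero.1 e
  obtain ⟨P, hP⟩ := hjf _ hPfix
  have n1 : ¬ (IsSquare ((0 : ℚ) - -(A : ℚ)) ∧ IsSquare ((0 : ℚ) - -(B : ℚ))) := by
    rintro ⟨k1, k2⟩
    have e1 : (0 : ℚ) - -(A : ℚ) = (A : ℚ) := by ring
    have e2 : (0 : ℚ) - -(B : ℚ) = (B : ℚ) := by ring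
    rw [e1] at k1
    rw [e2] at k2
    exact hN4.1 ⟨(sq_int k1).mul (sq_int k2), sq_int k1⟩
  have n2 : ¬ (IsSquare (-(A : ℚ) - 0) ∧ IsSquare (-(A : ℚ) - -(B : ℚ))) := by
    rintro ⟨k1, k2⟩
    have e1 : -(A : ℚ) - 0 = ((-A : ℤ) : ℚ) := by push_cast; ring
    have e2 : -(A : ℚ) - -(B : ℚ) = ((B - A : ℤ) : ℚ) := by push_cast; ring
    rw [e1] at k1
    rw [e2] at k2
    refine hN4.2.1 ⟨sq_int k1, ?_⟩
    have e : A * (A - B) = -A * (B - A) := by ring
    rw [e]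
    exact (sq_int k1).mul (sq_int k2)
  have n3 : ¬ (IsSquare (-(B : ℚ) - 0) ∧ IsSquare (-(B : ℚ) - -(A : ℚ))) := by
    rintro ⟨k1, k2⟩
    have e1 : -(B : ℚ) - 0 = ((-B : ℤ) : ℚ) := by push_cast; ring
    have e2 : -(B : ℚ) - -(A : ℚ) = ((A - B : ℤ) : ℚ) := by push_cast; ring
    rw [e1] at k1
    rw [e2] at k2
    exact hN4.2.2 ⟨sq_int k1, sq_int k2⟩
  obtain ⟨T, R, hT, hPT⟩ := half_tor (G := (EAB A B).toAffine.Point) (fun R hR => by
    apply hj
    rw [map_add, map_zero]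
    refine no_four r ab ac bc n1 n2 n3 (hjσ · R) ?_
    rw [← map_add, ← map_add, hR, map_zero]) P
  -- the point `Q' = Q - R`
  set Q' : Pt (EAB A B) QB := Q - j R with hQ'
  have hQ'2 : Q' + Q' = j T := by
    have e : Q' + Q' = (Q + Q) - (j R + j R) := by rw [hQ']; abel
    rw [e, ← hP, hPT, map_add, map_add, add_sub_cancel_right]
  have hQ'σ : ∀ σ : QB ≃ₐ[ℚ] QB, act (EAB A B) σ.toAlgHom Q' = Q' + f σ := by
    intro σ
    rw [hQ σ, hQ', map_sub, hjσ]
    abel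
  have hjT : j T + j T = 0 := by rw [← map_add, hT, map_zero]
  -- the trivial class
  have triv : Q' + Q' = 0 → TC A B u v := by
    intro h0
    left
    have hf0 : ∀ σ, f σ = 0 := by
      intro σ
      have h5 := hQ'σ σ
      rw [tors_fix r h0] at h5
      exact (left_eq_add.1 h5)
    have sqr : ∀ {d : ℤ} {t : QB}, t ^ 2 = d → (∀ σ : QB ≃ₐ[ℚ] QB, σ t = t) → IsSquare d := by
      intro d t ht hfix
      obtain ⟨q, hq⟩ := fix_mem (K := ℚ) t hfix
      refine sq_int ⟨q, hinj ?_⟩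
      rw [map_mul, hq, map_intCast, ← ht]; ring
    refine ⟨sqr hs fun σ => ?_, sqr hs' fun σ => ?_⟩
    · rw [hse, hf0]; exact isX_zero _
    · rw [hse', hf0]; exact isX_zero _
  rcases hQ'e : Q' with _ | ⟨p, q, hn⟩
  · exact triv (by rw [hQ'e]; exact add_zero 0)
  by_cases hq : q = 0
  · exact triv (by rw [hQ'e]; exact (hb.add_self two_ne_zero hn).2 hq)
  rw [hQ'e] at hQ'σ hQ'2
  rcases hb.tors two_ne_zero hjT with h | ⟨hn3, h⟩ | ⟨hn3, h⟩ | ⟨hn3, h⟩
  · rw [h] at hQ'2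
    exact absurd ((hb.add_self two_ne_zero hn).1 hQ'2) hq
  · rw [h] at hQ'2
    right; left
    have k1 := sq_char r.rot bc ab.symm ac.symm f2 hs' hse' hq hQ'σ hQ'2
    have k2 := sq_char r.rot.rot ac.symm bc.symm ab f2 hss hse'' hq hQ'σ hQ'2
    have e1 : ((0 : ℚ) - -(A : ℚ)) * v = ((A * v : ℤ) : ℚ) := by push_cast; ring
    have e2 : ((0 : ℚ) - -(B : ℚ)) * ((u * v : ℤ) : ℚ) = ((B * (u * v) : ℤ) : ℚ) := by
      push_cast; ring
    rw [e1] at k1
    rw [e2] at k2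
    refine ⟨sq_cancel hv0 ?_, sq_int k1⟩
    have e : A * B * u * v ^ 2 = (A * v) * (B * (u * v)) := by ring
    rw [e]
    exact (sq_int k1).mul (sq_int k2)
  · rw [h] at hQ'2
    right; right; left
    have k1 := sq_char r ab ac bc f2 hs hse hq hQ'σ hQ'2
    have k2 := sq_char r.rot.rot ac.symm bc.symm ab f2 hss hse'' hq hQ'σ hQ'2
    have e1 : (-(A : ℚ) - 0) * u = ((-A * u : ℤ) : ℚ) := by push_cast; ring
    have e2 : (-(A : ℚ) - -(B : ℚ)) * ((u * v : ℤ) : ℚ) = (((B - A) * (u * v) : ℤ) : ℚ) := by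
      push_cast; ring
    rw [e1] at k1
    rw [e2] at k2
    refine ⟨sq_int k1, sq_cancel hu0 ?_⟩
    have e : A * (A - B) * v * u ^ 2 = (-A * u) * ((B - A) * (u * v)) := by ring
    rw [e]
    exact (sq_int k1).mul (sq_int k2)
  · rw [h] at hQ'2
    right; right; right
    have k1 := sq_char r ab ac bc f2 hs hse hq hQ'σ hQ'2
    have k2 := sq_char r.rot bc ab.symm ac.symm f2 hs' hse' hq hQ'σ hQ'2
    have e1 : (-(B : ℚ) - 0) * u = ((-B * u : ℤ) : ℚ) := by push_cast; ring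
    have e2 : (-(B : ℚ) - -(A : ℚ)) * v = (((A - B) * v : ℤ) : ℚ) := by
      push_cast; ring
    rw [e1] at k1
    rw [e2] at k2
    exact ⟨sq_int k1, sq_int k2⟩

end Pool.Agent.H743.X17.QABSB
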