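import Pool.Agent.H743.X17.Stm
import Pool.Agent.H743.X17.Kit
import Pool.Agent.H468.X15S.ShaZ
import Pool.Agent.H468.X15.Fin

/-!
# X17 ABSF: 2-descent: Selmer = torsion implies finite and Sha[2]=0
-/

set_option autoImplicit false
set_option linter.all false

open scoped Classical

namespace Pool.Agent.H743.X17.QABSF

open WeierstrassCurve
open Pool.Agent.TH841.SH
open Pool.Agent.W262.SH (QB Pt act LocTriv Sha)
open Pool.Agent.H468.X15 (exists_char gf_rat finite_of_halving2)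
open Pool.Agent.H743.X17 (EAB LS ELS TC No4)
open Pool.Agent.H437R2.Man.MW (crv pt_fg)

/-! ### squares -/

theorem sq_of_mul {k n : ℤ} (hk : k ≠ 0) (h : IsSquare (k ^ 2 * n)) : IsSquare n := by
  have h1 : IsSquare ((k ^ 2 * n : ℤ) : ℚ) := Rat.isSquare_intCast_iff.2 h
  obtain ⟨s, hs⟩ := h1
  have hkq : (k : ℚ) ≠ 0 := by exact_mod_cast hk
  apply Rat.isSquare_intCast_iff.1
  refine ⟨s / k, ?_⟩
  rw [div_mul_div_comm, ← hs]
  push_cast
  field_simp

theorem sqf_unique {u u' k : ℤ} (hu : Squarefree u) (hu' : Squarefree u') (hk : k ≠ 0)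
    (h : IsSquare (k * u)) (h' : IsSquare (k * u')) : u = u' := by
  have h1 : IsSquare (u * u') := by
    apply sq_of_mul hk
    have : k ^ 2 * (u * u') = (k * u) * (k * u') := by ring
    rw [this]
    exact h.mul h'
  obtain ⟨w, hw⟩ := h1
  have h2 : u ∣ w := by
    have : u ∣ w ^ 2 := ⟨u', by rw [sq, ← hw]⟩
    exact (hu.dvd_pow_iff_dvd two_ne_zero).1 this
  obtain ⟨t, rfl⟩ := h2
  have h3 : u' = u * (t * t) := by
    have h4 : u * u' = u * (u * (t * t)) := by rw [hw]; ring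
    exact mul_left_cancel₀ hu.ne_zero h4
  have h5 : IsUnit t := hu' t ⟨u, by rw [h3]; ring⟩
  rcases Int.isUnit_iff.1 h5 with rfl | rfl
  · rw [h3]; ring
  · rw [h3]; ring

/-- the four classes -/
def Cl (A B : ℤ) (i : Fin 4) (w : ℤ × ℤ) : Prop :=
  IsSquare ((![1, A * B, -A, -B] : Fin 4 → ℤ) i * w.1) ∧
    IsSquare ((![1, A, A * (A - B), A - B] : Fin 4 → ℤ) i * w.2)

theorem tc_cl {A B u v : ℤ} (h : TC A B u v) : ∃ i, Cl A B i (u, v) := by
  rcases h with h | h | h | h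
  · exact ⟨0, by simpa [Cl] using h⟩
  · exact ⟨1, by simpa [Cl] using h⟩
  · exact ⟨2, by simpa [Cl] using h⟩
  · exact ⟨3, by simpa [Cl] using h⟩

theorem cl_inj {A B : ℤ} (hA : A ≠ 0) (hB : B ≠ 0) (hAB : A ≠ B) {i : Fin 4} {w w' : ℤ × ℤ}
    (h1 : Squarefree w.1) (h2 : Squarefree w.2) (h1' : Squarefree w'.1) (h2' : Squarefree w'.2)
    (h : Cl A B i w) (h' : Cl A B i w') : w = w' := by
  have hs : A - B ≠ 0 := sub_ne_zero.2 hAB
  apply Prod.ext
  · refine sqf_unique h1 h1' ?_ h.1 h'.1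
    fin_cases i <;> simp [hA, hB]
  · refine sqf_unique h2 h2' ?_ h.2 h'.2
    fin_cases i <;> simp [hA, hB, hs]

/-! ### the curve -/

theorem isR (A B : ℤ) : IsR (EAB A B) (0 : ℚ) (-(A : ℚ)) (-(B : ℚ)) where
  h1 := rfl
  h2 := by show (A : ℚ) + B = _; ring
  h3 := rfl
  h4 := by show (A : ℚ) * B = _; ring
  h6 := by show (0 : ℚ) = _; ring

section loc

variable {A B : ℤ}

theorem loc_AB (hA : A ≠ 0) (hB : B ≠ 0) (hAB : A ≠ B)
    {f : (QB ≃ₐ[ℚ] QB) → Pt (EAB A B) QB} (hf : ∀ σ, f σ + f σ = 0)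
    {K : Type} [Field K] [Algebra ℚ K] (h2K : (2 : K) ≠ 0) (hg : IsGalois K (AlgebraicClosure K))
    (hloc : LocTriv (EAB A B) K f) (hpt : LS A B 1 1 K) {e e' : ℤ}
    (he : ∀ s : QB, s ^ 2 = e → ∀ σ : QB ≃ₐ[ℚ] QB,
      σ s = s ↔ IsX ((EAB A B).baseChange QB) (algebraMap ℚ QB 0) (f σ))
    (he' : ∀ s : QB, s ^ 2 = e' → ∀ σ : QB ≃ₐ[ℚ] QB,
      σ s = s ↔ IsX ((EAB A B).baseChange QB) (algebraMap ℚ QB (-(A : ℚ))) (f σ)) :
    LS A B e e' K := by
  obtain ⟨s, hs⟩ := IsAlgClosed.exists_pow_nat_eq (e : QB) (n := 2) (by norm_num)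
  obtain ⟨s', hs'⟩ := IsAlgClosed.exists_pow_nat_eq (e' : QB) (n := 2) (by norm_num)
  have h2Ω : (2 : AlgebraicClosure K) ≠ 0 := by
    have h3 := (map_ne_zero (algebraMap K (AlgebraicClosure K))).2 h2K
    rwa [map_ofNat] at h3
  have hAq : (A : ℚ) ≠ 0 := by exact_mod_cast hA
  have hBq : (B : ℚ) ≠ 0 := by exact_mod_cast hB
  have hABq : (A : ℚ) ≠ B := by exact_mod_cast hAB
  have e0 : algebraMap ℚ K 0 = 0 := map_zero _
  have eA : algebraMap ℚ K (-(A : ℚ)) = -(A : K) := by rw [map_neg, map_intCast]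
  have eB : algebraMap ℚ K (-(B : ℚ)) = -(B : K) := by rw [map_neg, map_intCast]
  obtain ⟨x, y, hy, hxy, hu, hw⟩ := loc_step (K := K) (Ω := AlgebraicClosure K)
    h2Ω h2K (isR A B) (neg_ne_zero.2 hAq).symm (neg_ne_zero.2 hBq).symm
    (fun h => hABq (neg_injective h)) f hf hloc (by
      obtain ⟨x, y, hy, hxy, ⟨r, hr⟩, ⟨t, ht⟩⟩ := hpt
      obtain ⟨n0, nA, nB⟩ := LS.ne hy hxy
      rw [Int.cast_one, mul_one] at hr ht
      refine ⟨x, y, hy, ?_, ⟨r, ?_⟩, ⟨t, ?_⟩, ⟨y / (r * t), ?_⟩⟩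
      · rw [e0, eA, eB, hxy]; ring
      · rw [e0, sub_zero, hr]
      · rw [eA, sub_neg_eq_add, ht]
      · rw [eB, sub_neg_eq_add]
        have hr0 : r ≠ 0 := by rintro rfl; rw [mul_zero] at hr; exact n0 hr
        have ht0 : t ≠ 0 := by rintro rfl; rw [mul_zero] at ht; exact nA ht
        have e1 : y / (r * t) * (y / (r * t)) = y ^ 2 / ((r * r) * (t * t)) := by
          rw [div_mul_div_comm]; congr 1 <;> ring
        rw [e1, ← hr, ← ht, hxy]
        field_simp) e e' s s' hs hs' (he s hs) (he' s' hs')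
  rw [e0, eA, eB] at hxy
  rw [e0] at hu
  rw [eA] at hw
  refine ⟨x, y, hy, ?_, ?_, ?_⟩
  · rw [hxy]; ring
  · rwa [sub_zero] at hu
  · rwa [sub_neg_eq_add] at hw

theorem real_one (A B : ℤ) : LS A B 1 1 ℝ := by
  set x : ℝ := |(A : ℝ)| + |(B : ℝ)| + 1 with hx
  have h1 := neg_abs_le (A : ℝ)
  have h2 := neg_abs_le (B : ℝ)
  have h3 := abs_nonneg (A : ℝ)
  have h4 := abs_nonneg (B : ℝ)
  have hx0 : 0 < x := by rw [hx]; linarith
  have hxA : 0 < x + A := by rw [hx]; linarith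
  have hxB : 0 < x + B := by rw [hx]; linarith
  refine ⟨x, Real.sqrt (x * (x + A) * (x + B)), (Real.sqrt_pos.2 (by positivity)).ne',
    Real.sq_sqrt (by positivity), ?_, ?_⟩
  · rw [Int.cast_one, mul_one]
    exact ⟨Real.sqrt x, (Real.mul_self_sqrt hx0.le).symm⟩
  · rw [Int.cast_one, mul_one]
    exact ⟨Real.sqrt (x + A), (Real.mul_self_sqrt hxA.le).symm⟩

theorem els_of_sel (hA : A ≠ 0) (hB : B ≠ 0) (hAB : A ≠ B)
    {f : (QB ≃ₐ[ℚ] QB) → Pt (EAB A B) QB} (hf : f ∈ selHom (EAB A B)) {e e' : ℤ}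
    (he : ∀ s : QB, s ^ 2 = e → ∀ σ : QB ≃ₐ[ℚ] QB,
      σ s = s ↔ IsX ((EAB A B).baseChange QB) (algebraMap ℚ QB 0) (f σ))
    (he' : ∀ s : QB, s ^ 2 = e' → ∀ σ : QB ≃ₐ[ℚ] QB,
      σ s = s ↔ IsX ((EAB A B).baseChange QB) (algebraMap ℚ QB (-(A : ℚ))) (f σ)) :
    ELS A B e e' := by
  refine ⟨fun p _ => ?_, ?_⟩
  · exact loc_AB hA hB hAB hf.2.1 two_ne_zero inferInstance (hf.2.2.2.1 p) (LS.one A B) he he'
  · exact loc_AB hA hB hAB hf.2.1 two_ne_zero inferInstance hf.2.2.2.2 (real_one A B) he he'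

end loc

/-! ### no point of order four -/

section nofour

variable {A B : ℤ}

theorem ratsq {n : ℤ} {q : ℚ} (h : (n : ℚ) = q ^ 2) : IsSquare n := by
  apply Rat.isSquare_intCast_iff.1
  exact ⟨q, by rw [h]; ring⟩

theorem no_four' (hA : A ≠ 0) (hB : B ≠ 0) (hAB : A ≠ B) (h4 : No4 A B) {R : Pt (EAB A B) QB}
    (hR : ∀ σ : QB ≃ₐ[ℚ] QB, act (EAB A B) σ.toAlgHom R = R) (h4R : (R + R) + (R + R) = 0) :
    R + R = 0 := by
  have hinj : Function.Injective (algebraMap ℚ QB) := (algebraMap ℚ QB).injective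
  by_contra hcon
  have hr := isR A B
  have hb := hr.base QB
  obtain ⟨qa, hqa⟩ := gf_rat (a := 0) (b := -(A : ℚ)) (c := -(B : ℚ)) hR
  obtain ⟨qb, hqb⟩ := gf_rat (a := -(A : ℚ)) (b := -(B : ℚ)) (c := 0) hR
  obtain ⟨qc, hqc⟩ := gf_rat (a := -(B : ℚ)) (b := 0) (c := -(A : ℚ)) hR
  rcases R with _ | ⟨u, v, hn⟩
  · exact hcon (add_zero 0)
  have hv : v ≠ 0 := fun hv => hcon ((hb.add_self two_ne_zero hn).2 hv)
  obtain ⟨X, Y, hn', e1, hXa⟩ := hb.dup two_ne_zero hn hv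
  obtain ⟨X', Y', hn'', e1', hXb⟩ := hb.rot.dup two_ne_zero hn hv
  obtain ⟨X'', Y'', hn''', e1'', hXc⟩ := hb.rot.rot.dup two_ne_zero hn hv
  rw [e1, Affine.Point.some.injEq] at e1'
  rw [e1, Affine.Point.some.injEq] at e1''
  obtain ⟨rfl, rfl⟩ := e1'
  obtain ⟨rfl, rfl⟩ := e1''
  have ha : X - algebraMap ℚ QB 0 = algebraMap ℚ QB (qa ^ 2) := by
    rw [map_pow, hqa]; exact hXa
  have hb' : X - algebraMap ℚ QB (-(A : ℚ)) = algebraMap ℚ QB (qb ^ 2) := by
    rw [map_pow, hqb]; exact hXb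
  have hc : X - algebraMap ℚ QB (-(B : ℚ)) = algebraMap ℚ QB (qc ^ 2) := by
    rw [map_pow, hqc]; exact hXc
  obtain ⟨k1, k2, k3⟩ := h4
  rw [e1] at h4R
  rcases hb.tors two_ne_zero h4R with h | ⟨hn3, h⟩ | ⟨hn3, h⟩ | ⟨hn3, h⟩
  · exact Affine.Point.some_ne_zero _ h
  · rw [Affine.Point.some.injEq] at h
    rw [h.1, ← map_sub] at hb' hc
    have h5 := hinj hb'
    have h6 := hinj hc
    have h7 : IsSquare A := ratsq (q := qb) (by rw [← h5]; ring)
    have h8 : IsSquare B := ratsq (q := qc) (by rw [← h6]; ring)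
    exact k1 ⟨h7.mul h8, h7⟩
  · rw [Affine.Point.some.injEq] at h
    rw [h.1, ← map_sub] at ha hc
    have h5 := hinj ha
    have h6 := hinj hc
    have h7 : IsSquare (-A) := ratsq (q := qa) (by rw [← h5]; push_cast; ring)
    have h8 : IsSquare (B - A) := ratsq (q := qc) (by rw [← h6]; push_cast; ring)
    refine k2 ⟨h7, ?_⟩
    have : A * (A - B) = -A * (B - A) := by ring
    rw [this]
    exact h7.mul h8
  · rw [Affine.Point.some.injEq] at h
    rw [h.1, ← map_sub] at ha hb'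
    have h5 := hinj ha
    have h6 := hinj hb'
    have h7 : IsSquare (-B) := ratsq (q := qa) (by rw [← h5]; push_cast; ring)
    have h8 : IsSquare (A - B) := ratsq (q := qb) (by rw [← h6]; push_cast; ring)
    exact k3 ⟨h7, h8⟩

end nofour

/-- four points of order two -/
theorem four_tor' {W : WeierstrassCurve ℚ} {a b c : ℚ} (hr : IsR W a b c) (hab : a ≠ b)
    (hac : a ≠ c) (hbc : b ≠ c) :
    ∃ g : Fin 4 → Pt W QB, Function.Injective g ∧ ∀ i, g i + g i = 0 := by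
  have hinj : Function.Injective (algebraMap ℚ QB) := (algebraMap ℚ QB).injective
  have hb := hr.base QB
  have na := hb.nons two_ne_zero (hinj.ne hab) (hinj.ne hac) (hinj.ne hbc)
    (x := algebraMap ℚ QB a) (y := 0) (by ring)
  have nb := hb.nons two_ne_zero (hinj.ne hab) (hinj.ne hac) (hinj.ne hbc)
    (x := algebraMap ℚ QB b) (y := 0) (by ring)
  have nc := hb.nons two_ne_zero (hinj.ne hab) (hinj.ne hac) (hinj.ne hbc)
    (x := algebraMap ℚ QB c) (y := 0) (by ring)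
  have kab := hinj.ne hab
  have kac := hinj.ne hac
  have kbc := hinj.ne hbc
  refine ⟨![0, .some _ _ na, .some _ _ nb, .some _ _ nc], ?_, ?_⟩
  · have key : ∀ i j : Fin 4, i < j →
        (![0, .some _ _ na, .some _ _ nb, .some _ _ nc] : Fin 4 → Pt W QB) i ≠
        (![0, .some _ _ na, .some _ _ nb, .some _ _ nc] : Fin 4 → Pt W QB) j := by
      intro i j hij
      fin_cases i <;> fin_cases j <;>
        first
        | exact absurd hij (by decide)
        | exact (Affine.Point.some_ne_zero _).symm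
        | (intro h; exact kab (Affine.Point.some.inj h).1)
        | (intro h; exact kac (Affine.Point.some.inj h).1)
        | (intro h; exact kbc (Affine.Point.some.inj h).1)
    intro i j h
    rcases lt_trichotomy i j with h' | h' | h'
    · exact absurd h (key i j h')
    · exact h'
    · exact absurd h.symm (key j i h')
  · intro i
    fin_cases i
    · exact add_zero 0
    · exact (hb.add_self two_ne_zero na).2 rfl
    · exact (hb.add_self two_ne_zero nb).2 rfl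
    · exact (hb.add_self two_ne_zero nc).2 rfl

/-! ### the descent -/

section main

variable {A B : ℤ}

/-- every Selmer homomorphism is the cocycle of a half of a point of order two -/
theorem sel_all (hA : A ≠ 0) (hB : B ≠ 0) (hAB : A ≠ B) (h4 : No4 A B)
    (h : ∀ u v : ℤ, Squarefree u → Squarefree v → ELS A B u v → TC A B u v) :
    ∀ f : selHom (EAB A B), ∃ T Q : Pt (EAB A B) QB, T + T = 0 ∧ T = Q + Q ∧
      ∀ σ, f.1 σ = act (EAB A B) σ.toAlgHom Q - Q := by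
  have hinj : Function.Injective (algebraMap ℚ QB) := (algebraMap ℚ QB).injective
  have hAq : (A : ℚ) ≠ 0 := by exact_mod_cast hA
  have hBq : (B : ℚ) ≠ 0 := by exact_mod_cast hB
  have hABq : (A : ℚ) ≠ B := by exact_mod_cast hAB
  have hr := isR A B
  have hab : (0 : ℚ) ≠ -(A : ℚ) := (neg_ne_zero.2 hAq).symm
  have hac : (0 : ℚ) ≠ -(B : ℚ) := (neg_ne_zero.2 hBq).symm
  have hbc : -(A : ℚ) ≠ -(B : ℚ) := fun h => hABq (neg_injective h)
  have hb := hr.base QB
  have kab := hinj.ne hab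
  have kac := hinj.ne hac
  have kbc := hinj.ne hbc
  -- the upper bound
  have hch : ∀ f : selHom (EAB A B), ∃ v : ℤ × ℤ, Squarefree v.1 ∧ Squarefree v.2 ∧
      (∀ s : QB, s ^ 2 = v.1 → ∀ σ : QB ≃ₐ[ℚ] QB,
        σ s = s ↔ IsX ((EAB A B).baseChange QB) (algebraMap ℚ QB 0) (f.1 σ)) ∧
      (∀ s : QB, s ^ 2 = v.2 → ∀ σ : QB ≃ₐ[ℚ] QB,
        σ s = s ↔ IsX ((EAB A B).baseChange QB) (algebraMap ℚ QB (-(A : ℚ))) (f.1 σ)) := by
    intro f
    obtain ⟨e, h2, h3⟩ := exists_char hr hab hac hbc f.2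
    obtain ⟨e', h2', h3'⟩ := exists_char hr.swap hab.symm hbc hac f.2
    exact ⟨(e, e'), h2, h2', h3, h3'⟩
  choose φ hφ using hch
  have hφinj : Function.Injective φ := by
    intro f g hfg
    apply Subtype.ext
    funext σ
    obtain ⟨-, -, k1, k2⟩ := hφ f
    obtain ⟨-, -, k3, k4⟩ := hφ g
    rw [← hfg] at k3 k4
    obtain ⟨s, hs⟩ := IsAlgClosed.exists_pow_nat_eq ((φ f).1 : QB) (n := 2) (by norm_num)
    obtain ⟨s', hs'⟩ := IsAlgClosed.exists_pow_nat_eq ((φ f).2 : QB) (n := 2) (by norm_num)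
    exact hb.ext two_ne_zero kab kac kbc (f.2.2.1 σ) (g.2.2.1 σ)
      ((k1 s hs σ).symm.trans (k3 s hs σ)) ((k2 s' hs' σ).symm.trans (k4 s' hs' σ))
  have hcl : ∀ f : selHom (EAB A B), ∃ i, Cl A B i (φ f) := by
    intro f
    obtain ⟨k0, k0', k1, k2⟩ := hφ f
    exact tc_cl (h _ _ k0 k0' (els_of_sel hA hB hAB f.2 k1 k2))
  choose ψ hψ using hcl
  have hψinj : Function.Injective ψ := by
    intro f g hfg
    apply hφinj
    obtain ⟨k0, k0', -, -⟩ := hφ f
    obtain ⟨l0, l0', -, -⟩ := hφ g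
    have h5 := hψ f
    rw [hfg] at h5
    exact cl_inj hA hB hAB k0 k0' l0 l0' h5 (hψ g)
  haveI hfin : Finite (selHom (EAB A B)) := Finite.of_injective ψ hψinj
  have hcard : Nat.card (selHom (EAB A B)) ≤ 4 := by
    have h5 := Nat.card_le_card_of_injective ψ hψinj
    simpa using h5
  -- the lower bound
  obtain ⟨g, hg, hg2⟩ := four_tor' hr hab hac hbc
  have hdiv : ∀ i, ∃ Q : Pt (EAB A B) QB, g i = Q + Q :=
    fun i => hb.div two_ne_zero kab kac kbc (g i)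
  choose Q hQ using hdiv
  have hsel : ∀ i, (fun σ : QB ≃ₐ[ℚ] QB => act (EAB A B) σ.toAlgHom (Q i) - Q i) ∈
      selHom (EAB A B) := by
    intro i
    apply cob_sel hr
    intro σ
    have e3 : act (EAB A B) σ.toAlgHom (Q i) - Q i + (act (EAB A B) σ.toAlgHom (Q i) - Q i) =
      (act (EAB A B) σ.toAlgHom (Q i) + act (EAB A B) σ.toAlgHom (Q i)) - (Q i + Q i) := by abel
    rw [e3, ← map_add, ← hQ i, tors_fix hr (hg2 i), sub_self]
  let θ : Fin 4 → selHom (EAB A B) := fun i => ⟨_, hsel i⟩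
  have hθ : Function.Injective θ := by
    intro i j hij
    have h5 : ∀ σ : QB ≃ₐ[ℚ] QB, act (EAB A B) σ.toAlgHom (Q i) - Q i =
        act (EAB A B) σ.toAlgHom (Q j) - Q j :=
      fun σ => congrFun (congrArg (fun z : selHom (EAB A B) => z.1) hij) σ
    have h6 : ∀ σ : QB ≃ₐ[ℚ] QB, act (EAB A B) σ.toAlgHom (Q i - Q j) = Q i - Q j := by
      intro σ
      rw [map_sub]
      have h7 : act (EAB A B) σ.toAlgHom (Q i) = act (EAB A B) σ.toAlgHom (Q j) - Q j + Q i := by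
        rw [← h5 σ]; abel
      rw [h7]; abel
    have h8 : (Q i - Q j) + (Q i - Q j) = g i - g j := by
      rw [hQ i, hQ j]; abel
    have h9 := no_four' hA hB hAB h4 h6 (by
      rw [h8]
      have : g i - g j + (g i - g j) = (g i + g i) - (g j + g j) := by abel
      rw [this, hg2, hg2, sub_zero])
    rw [h8] at h9
    exact hg (sub_eq_zero.1 h9)
  have hbij : Function.Bijective θ := by
    rw [Nat.bijective_iff_injective_and_card]
    refine ⟨hθ, le_antisymm (Nat.card_le_card_of_injective θ hθ) ?_⟩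
    simpa using hcard
  intro f
  obtain ⟨i, rfl⟩ := hbij.2 f
  exact ⟨g i, Q i, hg2 i, hQ i, fun σ => rfl⟩

theorem fg_AB (hA : A ≠ 0) (hB : B ≠ 0) (hAB : A ≠ B) :
    AddGroup.FG (EAB A B).toAffine.Point := by
  have hAq : (A : ℚ) ≠ 0 := by exact_mod_cast hA
  have hBq : (B : ℚ) ≠ 0 := by exact_mod_cast hB
  have hABq : (A : ℚ) ≠ B := by exact_mod_cast hAB
  have e : EAB A B = crv (0 : ℚ) A B := by
    apply WeierstrassCurve.ext <;> simp [EAB, crv]
  have key : ∀ W : WeierstrassCurve ℚ, W = crv (0 : ℚ) A B → AddGroup.FG W.toAffine.Point := by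
    rintro W rfl
    exact pt_fg hAq.symm hBq.symm hABq
  exact key _ e

end main

theorem t_ABSF : Pool.Agent.H743.X17.S_ABSF := by
  intro A B hA hB hAB h4 h
  have hinj : Function.Injective (algebraMap ℚ QB) := (algebraMap ℚ QB).injective
  have hAq : (A : ℚ) ≠ 0 := by exact_mod_cast hA
  have hBq : (B : ℚ) ≠ 0 := by exact_mod_cast hB
  have hABq : (A : ℚ) ≠ B := by exact_mod_cast hAB
  have hr := isR A B
  have hab : (0 : ℚ) ≠ -(A : ℚ) := (neg_ne_zero.2 hAq).symm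
  have hac : (0 : ℚ) ≠ -(B : ℚ) := (neg_ne_zero.2 hBq).symm
  have hbc : -(A : ℚ) ≠ -(B : ℚ) := fun h => hABq (neg_injective h)
  have hb := hr.base QB
  have kab := hinj.ne hab
  have kac := hinj.ne hac
  have kbc := hinj.ne hbc
  have hall := sel_all hA hB hAB h4 h
  constructor
  · apply finite_of_halving2 (fg_AB hA hB hAB)
    intro P
    obtain ⟨j, hj, hjf, hjr⟩ := exists_rat (EAB A B)
    obtain ⟨Q, hQ⟩ := hb.div two_ne_zero kab kac kbc (j P)
    have hcs := cob_sel hr Q (by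
      intro σ
      have e3 : act (EAB A B) σ.toAlgHom Q - Q + (act (EAB A B) σ.toAlgHom Q - Q) =
        (act (EAB A B) σ.toAlgHom Q + act (EAB A B) σ.toAlgHom Q) - (Q + Q) := by abel
      rw [e3, ← map_add, ← hQ, hjf, sub_self])
    obtain ⟨T, Q', hT, hTQ, hc⟩ := hall ⟨_, hcs⟩
    obtain ⟨R, hR⟩ := hjr (Q - Q') (by
      intro σ
      have h1 : act (EAB A B) σ.toAlgHom Q - Q = act (EAB A B) σ.toAlgHom Q' - Q' := hc σ
      rw [map_sub]
      have h7 : act (EAB A B) σ.toAlgHom Q = act (EAB A B) σ.toAlgHom Q' - Q' + Q := by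
        rw [← h1]; abel
      rw [h7]; abel)
    obtain ⟨T', hT'⟩ := hjr T (fun σ => tors_fix hr hT σ)
    refine ⟨T', R, ?_, ?_⟩
    · apply hj
      rw [two_nsmul, map_add, hT', hT, map_zero]
    · apply hj
      rw [two_nsmul, map_add, map_add, hT', hR, hQ, hTQ]
      have : Q + Q + (Q' + Q') = (Q - Q') + (Q - Q') + ((Q' + Q') + (Q' + Q')) := by abel
      rw [this, ← hTQ, hT, add_zero]
  · intro x hx
    obtain ⟨f, rfl⟩ := (toSha_range hr hab hac hbc x).2 hx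
    have : f ∈ (toSha hr).ker := by
      rw [toSha_ker]
      obtain ⟨T, Q, -, -, hc⟩ := hall f
      exact ⟨Q, hc⟩
    exact (AddMonoidHom.mem_ker).1 this

end Pool.Agent.H743.X17.QABSF
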