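import Pool.Agent.H743.X17.Val
import Pool.Agent.H743.X17.Stm2
import Pool.Graph.R_seed8.Y700.ShaVC

/-!
# The 2-part of the formula of Birch and Swinnerton-Dyer for the twists `E_m`: the assembly
-/

set_option autoImplicit false
set_option linter.all false

open scoped Classical

namespace Pool.Agent.H743.X17

open WeierstrassCurve
open Pool.Agent.Y700 (tam VR IsL Omega)
open Pool.Agent.W262.SH (Sha)

/-- the parts proved separately -/
structure Parts : Prop where
  absf : S_ABSF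
  absb : S_ABSB
  necinf : S_NECINF
  necgood : S_NECGOOD
  necodd : S_NECODD
  nec17 : S_NEC17
  nec2 : S_NEC2
  sufinf : S_SUFINF
  sufgood : S_SUFGOOD
  sufodd : S_SUFODD
  suf17 : S_SUF17
  suf2 : S_SUF2
  sysf : S_SYSF
  sysb : S_SYSB
  crit : S_CRIT
  parity : S_PARITY
  tamp : S_TAMP
  tam17 : S_TAM17
  tam2 : S_TAM2
  tors : S_TORS
  min : S_MIN
  ap : S_AP

/-- the local conditions -/
theorem els_iff (h : Parts) {m u v : ℤ} (hm : Squarefree m) (hu : Squarefree u)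
    (hv : Squarefree v) : ELS m (-16 * m) u v ↔ LC m u v := by
  have f2 : Fact (Nat.Prime 2) := ⟨Nat.prime_two⟩
  have f17 : Fact (Nat.Prime 17) := ⟨by norm_num⟩
  constructor
  · rintro ⟨hp, hr⟩
    have i := h.necinf m u v hm.ne_zero hu hv hr
    have j17 := h.nec17 m u v hm hu hv (hp 17)
    have j2 := h.nec2 m u v hm hu hv (hp 2)
    refine ⟨i.1, i.2, ?_, ?_, j17.1, j17.2, j2.1, j2.2⟩
    · intro p hpp h2 h17 hd
      haveI : Fact p.Prime := ⟨hpp⟩
      exact h.necgood p m u v h2 h17 hd hu hv (hp p)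
    · intro p hpp h2 h17 hd
      haveI : Fact p.Prime := ⟨hpp⟩
      exact h.necodd p m u v h2 h17 hd hm hu hv (hp p)
  · intro L
    refine ⟨fun p hp => ?_, h.sufinf m u v hm.ne_zero hu.ne_zero hv.ne_zero L.pos L.neg⟩
    by_cases h2 : p = 2
    · subst h2
      exact h.suf2 m u v hm hu hv L.o2 L.e2
    by_cases h17 : p = 17
    · subst h17
      exact h.suf17 m u v hm hu hv L.s17 L.r17
    by_cases hd : (p : ℤ) ∣ m
    · have := L.odd p hp.out h2 h17 hd
      exact h.sufodd p m u v h2 h17 hd hm hu hv this.1 this.2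
    · have := L.good p hp.out h2 h17 hd
      exact h.sufgood p m u v h2 h17 hd this.1 this.2

theorem not_sq17 {k : ℤ} (hk : k ≠ 0) : ¬ IsSquare (17 * k ^ 2) := by
  rintro ⟨r, hr⟩
  have hp : Prime (17 : ℤ) := Int.prime_iff_natAbs_prime.2 (by norm_num)
  have hr0 : r ≠ 0 := by
    rintro rfl
    rw [mul_zero] at hr
    have := pow_ne_zero 2 hk
    omega
  have h1 : emultiplicity 17 (17 * k ^ 2) = 1 + 2 * emultiplicity 17 k := by
    rw [emultiplicity_mul hp, emultiplicity_pow hp]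
    congr 1
    exact (FiniteMultiplicity.of_prime_left hp (by norm_num)).emultiplicity_self
  have h2 : emultiplicity 17 (r * r) = 2 * emultiplicity 17 r := by
    rw [← sq, emultiplicity_pow hp]
    rfl
  rw [hr, h2] at h1
  obtain ⟨a, ha⟩ := (ENat.ne_top_iff_exists.1 (by
    rw [Ne, emultiplicity_eq_top, not_not]
    exact FiniteMultiplicity.of_prime_left hp hr0 : emultiplicity 17 r ≠ ⊤))
  obtain ⟨b, hb⟩ := (ENat.ne_top_iff_exists.1 (by
    rw [Ne, emultiplicity_eq_top, not_not]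
    exact FiniteMultiplicity.of_prime_left hp hk : emultiplicity 17 k ≠ ⊤))
  rw [← ha, ← hb] at h1
  have h3 : 2 * a = 1 + 2 * b := by exact_mod_cast h1
  omega

theorem no4 {m : ℤ} (hm : m ≠ 0) : No4 m (-16 * m) := by
  have hm2 : 0 < m ^ 2 := by positivity
  refine ⟨?_, ?_, ?_⟩
  · rintro ⟨⟨r, hr⟩, -⟩
    nlinarith [mul_self_nonneg r]
  · rintro ⟨-, h⟩
    have e : m * (m - -16 * m) = 17 * m ^ 2 := by ring
    rw [e] at h
    exact not_sq17 hm h
  · rintro ⟨h1, h2⟩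
    have h3 := h1.mul h2
    have e : -(-16 * m) * (m - -16 * m) = 17 * (4 * m) ^ 2 := by ring
    rw [e] at h3
    exact not_sq17 (by omega) h3

/-- **the 2-descent** -/
theorem sha_iff (h : Parts) {m : ℤ} (hm : Squarefree m) :
    (Finite (EAB m (-16 * m)).toAffine.Point ∧
      ∀ x : Sha (EAB m (-16 * m)), x + x = 0 → x = 0) ↔ Sys m := by
  have hm0 := hm.ne_zero
  have n4 := no4 hm0
  have hB : -16 * m ≠ 0 := by omega
  have hAB : m ≠ -16 * m := by omega
  constructor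
  · rintro ⟨h1, h2⟩
    refine h.sysb m hm fun u v hu hv L => ?_
    exact h.absb m (-16 * m) hm0 hB hAB n4 h1 h2 u v hu hv ((els_iff h hm hu hv).2 L)
  · intro hS
    refine h.absf m (-16 * m) hm0 hB hAB n4 fun u v hu hv L => ?_
    exact h.sysf m hm hS u v hu hv ((els_iff h hm hu hv).1 L)

/-! ### the minimal equation over `ℚ` -/

/-- `E_m` -/
abbrev EM (m : ℤ) : WeierstrassCurve ℚ := (WM m).map (Int.castRingHom ℚ)

theorem EM2 {m : ℤ} (h : m % 4 ≠ 1) : EM m = EAB m (-16 * m) := by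
  unfold EM WM EAB
  rw [if_neg h]
  ext
  · simp [W2]
  · simp [W2]; ring
  · simp [W2]
  · simp [W2]; ring
  · simp [W2]

theorem vr1 {m : ℤ} (h : m % 4 = 1) : VR (EAB m (-16 * m)) (EM m) 2 0 1 0 := by
  have e : (((-((15 * m + 1) / 4) : ℤ)) : ℚ) = -(15 * m + 1) / 4 := by
    obtain ⟨k, hk⟩ : ∃ k, 15 * m + 1 = 4 * k := ⟨(15 * m + 1) / 4, by omega⟩
    have e1 : (15 * m + 1) / 4 = k := by omega
    have e2 : (15 * m + 1 : ℚ) = 4 * k := by exact_mod_cast hk
    rw [e1]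
    push_cast
    linear_combination (1 / 4) * e2
  have a1 : (EM m).a₁ = 1 := by simp [EM, WM, h, W1]
  have a2 : (EM m).a₂ = -(15 * m + 1) / 4 := by
    rw [← e]
    simp [EM, WM, h, W1]
  have a3 : (EM m).a₃ = 0 := by simp [EM, WM, h, W1]
  have a4 : (EM m).a₄ = -(m : ℚ) ^ 2 := by simp [EM, WM, h, W1]
  have a6 : (EM m).a₆ = 0 := by simp [EM, WM, h, W1]
  have b1 : (EAB m (-16 * m)).a₁ = 0 := rfl
  have b2 : (EAB m (-16 * m)).a₂ = -15 * m := by simp [EAB]; ring
  have b3 : (EAB m (-16 * m)).a₃ = 0 := rfl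
  have b4 : (EAB m (-16 * m)).a₄ = -16 * (m : ℚ) ^ 2 := by simp [EAB]; ring
  have b6 : (EAB m (-16 * m)).a₆ = 0 := rfl
  refine ⟨two_ne_zero, ?_, ?_, ?_, ?_, ?_⟩
  · rw [a1, b1]; ring
  · rw [a2, b1, b2]; ring
  · rw [a3, b1, b3]; ring
  · rw [a4, b1, b2, b3, b4]; ring
  · rw [a6, b1, b2, b3, b4, b6]; ring

theorem vr2 {m : ℤ} (h : m % 4 = 1) : VR (EM m) (EAB m (-16 * m)) (1 / 2) 0 (-1 / 2) 0 := by
  have v := vr1 h
  have a1 : (EM m).a₁ = 1 := by simp [EM, WM, h, W1]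
  have b1 : (EAB m (-16 * m)).a₁ = 0 := rfl
  have b3 : (EAB m (-16 * m)).a₃ = 0 := rfl
  have b6 : (EAB m (-16 * m)).a₆ = 0 := rfl
  have e2 := v.e2
  have e3 := v.e3
  have e4 := v.e4
  have e6 := v.e6
  rw [b1] at e2 e3
  rw [b3] at e3
  rw [b1, b3] at e4
  rw [b1, b3, b6] at e6
  refine ⟨by norm_num, ?_, ?_, ?_, ?_, ?_⟩
  · rw [b1, a1]; ring
  · rw [a1]; linear_combination (-1 / 4) * e2
  · rw [b3, a1]; linear_combination (-1 / 8) * e3
  · rw [a1]; linear_combination (-1 / 16) * e4 - (1 / 16) * e3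
  · rw [b6, a1]; linear_combination (-1 / 64) * e6

theorem delta_EM {m : ℤ} (hm : m ≠ 0) : (EM m).Δ ≠ 0 := by
  rw [WeierstrassCurve.map_Δ, isN.Delta]
  have hD : DD m ≠ 0 := by unfold DD; split_ifs <;> omega
  have : (17 : ℤ) ^ 2 * DD m ^ 6 ≠ 0 := mul_ne_zero (by norm_num) (pow_ne_zero 6 hD)
  rw [Ne, eq_intCast]
  exact_mod_cast this

theorem delta_EAB {m : ℤ} (hm : m ≠ 0) : (EAB m (-16 * m)).Δ ≠ 0 := by
  by_cases h : m % 4 = 1
  · exact (vr1 h).delta_ne (delta_EM hm)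
  · rw [← EM2 h]; exact delta_EM hm

/-- `E(ℚ)` is finite and the `2`-primary part of `Ш(E/ℚ)` is zero -/
def FinSha (W : WeierstrassCurve ℚ) : Prop :=
  Finite W.toAffine.Point ∧ ∀ (n : ℕ) (x : Pool.Agent.TH841.SH.D.Sha W), 2 ^ n • x = 0 → x = 0

theorem vr_id (W : WeierstrassCurve ℚ) : VR W W 1 0 0 0 := by
  refine ⟨one_ne_zero, ?_, ?_, ?_, ?_, ?_⟩ <;> ring

theorem finSha_iff' {W W' : WeierstrassCurve ℚ} {u r s t u' r' s' t' : ℚ} (v : VR W W' u r s t)
    (v' : VR W' W u' r' s' t') (hD : W.Δ ≠ 0) (hD' : W'.Δ ≠ 0) :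
    FinSha W' ↔ (Finite W.toAffine.Point ∧ ∀ x : Sha W, x + x = 0 → x = 0) := by
  constructor
  · rintro ⟨hf, hs⟩
    refine ⟨Finite.of_equiv _ (v'.equiv hD).toEquiv.symm, fun x hx => ?_⟩
    refine Pool.Agent.Y700.sha_two v' hD ?_ x hx
    intro z hz
    have h2 := hs 1 ((Pool.Agent.TH841.SH.D.eSha W').symm z) (by
      rw [pow_one, two_nsmul, ← map_add, hz, map_zero])
    have h3 := congrArg (Pool.Agent.TH841.SH.D.eSha W') h2
    rwa [AddEquiv.apply_symm_apply, map_zero] at h3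
  · rintro ⟨hf, hs⟩
    exact ⟨Finite.of_equiv _ (v.equiv hD').toEquiv.symm,
      fun n x hx => Pool.Agent.Y700.sha_two_pow v hD' hs n x hx⟩

theorem finSha_iff (h : Parts) {m : ℤ} (hm : Squarefree m) : FinSha (EM m) ↔ Sys m := by
  rw [← sha_iff h hm]
  by_cases h4 : m % 4 = 1
  · exact finSha_iff' (vr1 h4) (vr2 h4) (delta_EAB hm.ne_zero) (delta_EM hm.ne_zero)
  · rw [EM2 h4]
    exact finSha_iff' (vr_id _) (vr_id _) (delta_EAB hm.ne_zero) (delta_EAB hm.ne_zero)

theorem card_tors {G H : Type} [AddCommGroup G] [AddCommGroup H] (e : G ≃+ H) :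
    Nat.card (AddCommGroup.torsion G) = Nat.card (AddCommGroup.torsion H) := by
  refine Nat.card_congr (e.toEquiv.subtypeEquiv fun x => ?_)
  show IsOfFinAddOrder x ↔ IsOfFinAddOrder (e x)
  rw [isOfFinAddOrder_iff_nsmul_eq_zero, isOfFinAddOrder_iff_nsmul_eq_zero]
  constructor
  · rintro ⟨n, hn, hx⟩
    exact ⟨n, hn, by rw [← map_nsmul, hx, map_zero]⟩
  · rintro ⟨n, hn, hx⟩
    refine ⟨n, hn, e.injective ?_⟩
    rw [map_nsmul, hx, map_zero]

theorem tors_EM (h : Parts) {m : ℤ} (hm : Squarefree m) :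
    Nat.card (AddCommGroup.torsion (EM m).toAffine.Point) = 4 := by
  by_cases h4 : m % 4 = 1
  · rw [card_tors ((vr1 h4).equiv (delta_EM hm.ne_zero))]
    exact h.tors m hm
  · rw [EM2 h4]
    exact h.tors m hm

/-! ### the Tamagawa numbers -/

/-- the product of the Tamagawa numbers -/
noncomputable def TamProd (W : WeierstrassCurve ℤ) : ℕ :=
  ∏ p ∈ W.Δ.natAbs.primeFactors, if h : p.Prime then (haveI := Fact.mk h; tam W p) else 1

theorem Kn_ne {m : ℤ} (hm : m ≠ 0) : Kn m ≠ 0 := by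
  unfold Kn
  split_ifs <;> omega

theorem pf_Delta {m : ℤ} (hm : m ≠ 0) :
    (WM m).Δ.natAbs.primeFactors = insert 17 (Kn m).primeFactors := by
  have hD : (WM m).Δ ≠ 0 := by
    rw [isN.Delta]
    have hD : DD m ≠ 0 := by unfold DD; split_ifs <;> omega
    exact mul_ne_zero (by norm_num) (pow_ne_zero 6 hD)
  ext p
  rw [Nat.mem_primeFactors, Finset.mem_insert, Nat.mem_primeFactors]
  constructor
  · rintro ⟨h1, h2, -⟩
    rcases (dvd_Delta hm h1).1 (Int.natCast_dvd.2 h2) with h3 | h3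
    · left
      exact (Nat.prime_dvd_prime_iff_eq h1 (by norm_num)).1 h3
    · exact Or.inr ⟨h1, h3, Kn_ne hm⟩
  · rintro (rfl | ⟨h1, h2, -⟩)
    · exact ⟨by norm_num, Int.natCast_dvd.1 ((dvd_Delta hm (by norm_num)).2 (Or.inl (dvd_refl _))),
        Int.natAbs_ne_zero.2 hD⟩
    · exact ⟨h1, Int.natCast_dvd.1 ((dvd_Delta hm h1).2 (Or.inr h2)), Int.natAbs_ne_zero.2 hD⟩

theorem sqf_mod4 {m : ℤ} (hm : Squarefree m) : m % 4 ≠ 0 := by
  intro h0
  have h6 : (2 : ℤ) * 2 ∣ m := by omega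
  have := hm 2 h6
  rw [Int.isUnit_iff] at this
  omega

theorem tam_Kn (h : Parts) {m : ℤ} (hm : Squarefree m) {p : ℕ} (hp : p.Prime) (hd : p ∣ Kn m) :
    (haveI := Fact.mk hp; tam (WM m) p) = 4 := by
  haveI := Fact.mk hp
  have h40 := sqf_mod4 hm
  by_cases hp2 : p = 2
  · subst hp2
    have h4 : m % 4 ≠ 1 := by
      intro h4
      have : Kn m = m.natAbs := if_pos h4
      rw [this] at hd
      omega
    have e : WM m = W2 m := if_neg h4
    rw [e]
    exact h.tam2 m (by omega)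
  · have hpm : (p : ℤ) ∣ m := by
      unfold Kn at hd
      split_ifs at hd
      · exact Int.natCast_dvd.2 hd
      · rcases (Nat.Prime.dvd_mul hp).1 hd with h1 | h1
        · have h2 : p ∣ 2 ^ 2 := by norm_num; exact h1
          exact absurd ((Nat.prime_dvd_prime_iff_eq hp Nat.prime_two).1 (hp.dvd_of_dvd_pow h2)) hp2
        · exact Int.natCast_dvd.2 h1
    refine h.tamp (WM m) (DD m) p isN hp2 ?_ ?_
    · unfold DD
      split_ifs
      · exact hpm
      · exact dvd_mul_of_dvd_right hpm 4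
    · intro h2
      have h3 : (p : ℤ) ^ 2 ∣ m := by
        unfold DD at h2
        split_ifs at h2
        · exact h2
        · have hc : IsCoprime ((p : ℤ) ^ 2) 4 := by
            have h4 : IsCoprime (p : ℤ) 2 := by
              rw [Int.isCoprime_iff_gcd_eq_one]
              exact (Nat.coprime_primes hp Nat.prime_two).2 hp2
            have h5 := (h4.pow_left (m := 2)).pow_right (n := 2)
            norm_num at h5
            exact h5
          exact hc.dvd_of_dvd_mul_left h2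
      rw [sq] at h3
      have := hm _ h3
      rw [Int.isUnit_iff] at this
      have := hp.two_le
      omega

theorem tamProd_eq (h : Parts) {m : ℤ} (hm : Squarefree m) :
    TamProd (WM m) = 4 ^ (Kn m).primeFactors.card * (if (17 : ℤ) ∣ m then 1 else 2) := by
  have hm0 := hm.ne_zero
  unfold TamProd
  rw [pf_Delta hm0]
  have key : ∏ p ∈ (Kn m).primeFactors, (if h : p.Prime then (haveI := Fact.mk h; tam (WM m) p)
      else 1) = 4 ^ (Kn m).primeFactors.card := by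
    rw [Finset.prod_congr rfl (g := fun _ => 4), Finset.prod_const]
    intro p hp
    have hpp := Nat.prime_of_mem_primeFactors hp
    rw [dif_pos hpp]
    exact tam_Kn h hm hpp (Nat.dvd_of_mem_primeFactors hp)
  by_cases h17 : (17 : ℤ) ∣ m
  · have hmem : 17 ∈ (Kn m).primeFactors := Nat.mem_primeFactors.2
      ⟨by norm_num, dvd17_Kn.2 h17, Kn_ne hm0⟩
    rw [Finset.insert_eq_of_mem hmem, key, if_pos h17, mul_one]
  · have hmem : 17 ∉ (Kn m).primeFactors := fun h' =>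
      h17 (dvd17_Kn.1 (Nat.dvd_of_mem_primeFactors h'))
    rw [Finset.prod_insert hmem, key, if_neg h17, mul_comm]
    congr 1
    have hp : Nat.Prime 17 := by norm_num
    rw [dif_pos hp]
    haveI := Fact.mk hp
    refine h.tam17 (WM m) (DD m) isN ?_
    unfold DD
    split_ifs
    · exact h17
    · omega

/-! ### the predicted order of `Ш` -/

theorem sys_iff (h : Parts) {m : ℤ} (hm : Squarefree m) :
    Sys m ↔ (Rt m ∧ Pool.Agent.N916.MO.G17 m) := by
  constructor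
  · intro hS
    have hR : Rt m := by
      by_contra hR
      exact h.parity m hm hR hS
    exact ⟨hR, (h.crit m hm hR).1 hS⟩
  · rintro ⟨hR, hG⟩
    exact (h.crit m hm hR).2 hG

/-- `#E_m(ℚ)_tors² L(E_m, 1) / (Ω Tam)` is a perfect square `y²`, `y` odd iff `FinSha` -/
theorem main (h : Parts) {m : ℤ} (hm : Squarefree m) (h1 : m ≠ 1) :
    0 < Omega (WM m) ∧ ∃ (f : ℂ → ℂ) (y : ℕ), IsL (WM m) f ∧ (Odd y ↔ FinSha (EM m)) ∧
      (¬ Rt m → y = 0) ∧
      f 1 = (((y : ℝ) ^ 2 * (TamProd (WM m) : ℝ) / 16 * Omega (WM m) : ℝ) : ℂ) := by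
  obtain ⟨hO, f, y, hf, hy, h0, hv⟩ := lval h.ap hm h1
  refine ⟨hO, f, y.natAbs, hf, ?_, fun h => by rw [h0 h]; rfl, ?_⟩
  · rw [Int.natAbs_odd, hy, finSha_iff h hm, sys_iff h hm]
  · rw [hv, tamProd_eq h hm]
    have hya : ((y.natAbs : ℕ) : ℝ) ^ 2 = (y : ℝ) ^ 2 := by
      have h5 : ((y.natAbs : ℕ) : ℝ) = |(y : ℝ)| := by
        rw [Nat.cast_natAbs, Int.cast_abs]
      rw [h5, sq_abs]
    rw [hya]
    unfold cst
    congr 1
    by_cases h17 : (17 : ℤ) ∣ m
    · rw [if_pos h17, if_pos h17]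
      push_cast
      ring
    · rw [if_neg h17, if_neg h17]
      push_cast
      ring

end Pool.Agent.H743.X17
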