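import Pool.Agent.H743.X17.Defs
import Pool.Graph.R_seed8.TH841.SH.Tr
import Pool.Graph.R_seed8.Y700.Defs
import Pool.Graph.R_pool_sql_team_seeded_63374d34.N974.Gen.Models
import Pool.Graph.R_pool_sql_team_seeded_63374d34.N916.MO.Hg

/-!
# The quadratic twists `E_m : y² = x (x + m) (x - 16 m)` of the curve 17a2: statements of the parts

The final theorem (2-part of the formula of Birch and Swinnerton-Dyer for every quadratic twist,
with the exact natural density) is assembled from these parts.  Each `S_X` is to be proved as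
`theorem t_X : S_X`.
-/

set_option autoImplicit false

open scoped Classical

namespace Pool.Agent.H743.X17

open Pool.Agent.W262.SH (Sha)

/-! ### the 2-descent for `y² = x (x + A) (x + B)`, abstractly -/

/-- no rational point of order four -/
def No4 (A B : ℤ) : Prop :=
  ¬ (IsSquare (A * B) ∧ IsSquare A) ∧ ¬ (IsSquare (-A) ∧ IsSquare (A * (A - B))) ∧
    ¬ (IsSquare (-B) ∧ IsSquare (A - B))

/-- ABSF -/
def S_ABSF : Prop := ∀ A B : ℤ, A ≠ 0 → B ≠ 0 → A ≠ B → No4 A B →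
  (∀ u v : ℤ, Squarefree u → Squarefree v → ELS A B u v → TC A B u v) →
  Finite (EAB A B).toAffine.Point ∧ ∀ x : Sha (EAB A B), x + x = 0 → x = 0

/-- ABSB -/
def S_ABSB : Prop := ∀ A B : ℤ, A ≠ 0 → B ≠ 0 → A ≠ B → No4 A B →
  Finite (EAB A B).toAffine.Point → (∀ x : Sha (EAB A B), x + x = 0 → x = 0) →
  ∀ u v : ℤ, Squarefree u → Squarefree v → ELS A B u v → TC A B u v

/-! ### the local conditions (`A = m`, `B = -16 m`) -/

/-- NECINF -/
def S_NECINF : Prop := ∀ m u v : ℤ, m ≠ 0 → Squarefree u → Squarefree v →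
  LS m (-16 * m) u v ℝ → (0 < m → 0 < v) ∧ (m < 0 → 0 < u * v)

/-- NECGOOD -/
def S_NECGOOD : Prop := ∀ (p : ℕ) [Fact p.Prime] (m u v : ℤ), p ≠ 2 → p ≠ 17 → ¬ (p : ℤ) ∣ m →
  Squarefree u → Squarefree v → LS m (-16 * m) u v ℚ_[p] → ¬ (p : ℤ) ∣ u ∧ ¬ (p : ℤ) ∣ v

/-- NECODD -/
def S_NECODD : Prop := ∀ (p : ℕ) [Fact p.Prime] (m u v : ℤ), p ≠ 2 → p ≠ 17 → (p : ℤ) ∣ m →
  Squarefree m → Squarefree u → Squarefree v → LS m (-16 * m) u v ℚ_[p] →
  lam p u = ind p u * lam p (-m) + ind p v * lam p (-1) ∧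
    lam p v = ind p v * lam p m + ind p u * lam p 17

/-- NEC17 -/
def S_NEC17 : Prop := ∀ [Fact (Nat.Prime 17)] (m u v : ℤ),
  Squarefree m → Squarefree u → Squarefree v → LS m (-16 * m) u v ℚ_[17] →
  (¬ (17 : ℤ) ∣ m → ¬ (17 : ℤ) ∣ u ∧ lam 17 u = ind 17 v * lam 17 m) ∧
  ((17 : ℤ) ∣ m → lam 17 u = ind 17 u * lam 17 m ∧ lam 17 v = (ind 17 u + ind 17 v) * lam 17 m)

/-- NEC2 -/
def S_NEC2 : Prop := ∀ [Fact (Nat.Prime 2)] (m u v : ℤ),
  Squarefree m → Squarefree u → Squarefree v → LS m (-16 * m) u v ℚ_[2] →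
  (m % 4 = 1 → ¬ (2 : ℤ) ∣ u ∧ v % 4 = 1) ∧
  (m % 4 ≠ 1 → ((up 2 v % 8 = 1 ∧ ¬ (2 : ℤ) ∣ v) ∨
    (((2 : ℤ) ∣ v ↔ (2 : ℤ) ∣ m) ∧ (up 2 v * up 2 m) % 8 = 1)) ∧ h2 u m = e4 v)

/-- SUF: the local conditions are sufficient -/
def S_SUF : Prop := ∀ m u v : ℤ, Squarefree m → Squarefree u → Squarefree v → LC m u v →
  ELS m (-16 * m) u v

/-! ### the global system -/

/-- SYSF -/
def S_SYSF : Prop := ∀ m : ℤ, Squarefree m → Sys m → ∀ u v : ℤ, Squarefree u → Squarefree v →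
  LC m u v → TC m (-16 * m) u v

/-- SYSB -/
def S_SYSB : Prop := ∀ m : ℤ, Squarefree m → (∀ u v : ℤ, Squarefree u → Squarefree v →
  LC m u v → TC m (-16 * m) u v) → Sys m

/-- CRIT: the criterion of the library -/
def S_CRIT : Prop := ∀ m : ℤ, Squarefree m → Rt m → (Sys m ↔ Pool.Agent.N916.MO.G17 m)

/-- PARITY: no solution if the root number is `-1` -/
def S_PARITY : Prop := ∀ m : ℤ, Squarefree m → ¬ Rt m → ¬ Sys m

/-! ### Tamagawa numbers -/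

/-- `W` has the form `(2 y + a₁ x)² = x (4 x + N) (x - 4 N)` -/
structure IsN (W : WeierstrassCurve ℤ) (N : ℤ) : Prop where
  a3 : W.a₃ = 0
  a6 : W.a₆ = 0
  b2 : W.b₂ = -15 * N
  b4 : W.b₄ = -2 * N ^ 2

/-- TAMP: `p` odd, `p ∥ N` (`p = 17` included): type `I₀*` or `I₂*` -/
def S_TAMP : Prop := ∀ (W : WeierstrassCurve ℤ) (N : ℤ) (p : ℕ) [Fact p.Prime], IsN W N → p ≠ 2 →
  (p : ℤ) ∣ N → ¬ (p : ℤ) ^ 2 ∣ N → Pool.Agent.Y700.tam W p = 4

/-- TAM17: `17 ∤ N`: type `I₂` -/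
def S_TAM17 : Prop := ∀ (W : WeierstrassCurve ℤ) (N : ℤ) [Fact (Nat.Prime 17)], IsN W N →
  ¬ (17 : ℤ) ∣ N → Pool.Agent.Y700.tam W 17 = 2

/-- TAM2: types `I₄*`, `I₈*` -/
def S_TAM2 : Prop := ∀ (m : ℤ) [Fact (Nat.Prime 2)], m % 4 = 2 ∨ m % 4 = 3 →
  Pool.Agent.Y700.tam (W2 m) 2 = 4

/-! ### torsion -/

/-- TORS -/
def S_TORS : Prop := ∀ m : ℤ, Squarefree m →
  Nat.card (AddCommGroup.torsion (EAB m (-16 * m)).toAffine.Point) = 4

/-! ### the minimal equation and the numbers of points -/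

/-- MIN -/
def S_MIN : Prop := ∀ m : ℤ, Squarefree m → Pool.Agent.W97.MT.IsGloballyMinimal (WM m)

/-- AP: the Frobenius traces (also at the bad primes) -/
def S_AP : Prop := ∀ m : ℤ, Squarefree m → ∀ p : ℕ, p.Prime →
  Pool.Agent.W97.MT.ap (WM m) p = Pool.Agent.W97.MT.ap Pool.Agent.N974.Gen.E17 p *
    (if p = 2 then (if m % 8 = 1 then 1 else if m % 8 = 5 then -1 else 0) else jacobiSym m p)

end Pool.Agent.H743.X17
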