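import Pool.Agent.H743.X17.Stm
import Pool.Agent.H743.X17.Kit
import Pool.Graph.R_seed8.TH841.SH.Alg
import Pool.Graph.R_seed8.Y809.BSD14.Tam3

/-!
# X17 TAM2: Tamagawa number 4 at 2 for m ≡ 2, 3 mod 4 (types I₈*, I₄*)
-/

set_option autoImplicit false

open scoped Classical

namespace Pool.Agent.H743.X17.QTAM2

open Pool.Agent.H743.X17
open Pool.Agent.TH841.SH
open Pool.Agent.Y700 (PtP SingRed E0 tam)
open WeierstrassCurve

/-! ### 2-adic norms -/

theorem n2 : ‖(2 : ℚ_[2])‖ = 1 / 2 := by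
  have := Padic.norm_p (p := 2)
  simpa using this

theorem n4 : ‖(4 : ℚ_[2])‖ = 1 / 4 := by
  have : (4 : ℚ_[2]) = 2 ^ 2 := by norm_num
  rw [this, norm_pow, n2]
  norm_num

theorem n16 : ‖(16 : ℚ_[2])‖ = 1 / 16 := by
  have : (16 : ℚ_[2]) = 2 ^ 4 := by norm_num
  rw [this, norm_pow, n2]
  norm_num

/-- the values of the norm are powers of two -/
theorem disc0 {x : ℚ_[2]} (h : ‖x‖ < 1) : ‖x‖ ≤ 1 / 2 := by
  have h1 := (Padic.norm_le_pow_iff_norm_lt_pow_add_one x (-1)).2 (by simpa using h)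
  simpa using h1

theorem disc (k : ℕ) {x : ℚ_[2]} (h : ‖x‖ < (1 / 2) ^ k) : ‖x‖ ≤ (1 / 2) ^ (k + 1) := by
  have h2 : ‖x / 2 ^ k‖ = ‖x‖ / (1 / 2) ^ k := by rw [norm_div, norm_pow, n2]
  have h3 : ‖x / 2 ^ k‖ < 1 := by
    rw [h2, div_lt_one (by positivity)]
    exact h
  have h4 := disc0 h3
  rw [h2, div_le_iff₀ (by positivity)] at h4
  rw [pow_succ]
  linarith

theorem nadd {a b : ℚ_[2]} (h : ‖b‖ < ‖a‖) : ‖a + b‖ = ‖a‖ := by
  have h1 := IsUltrametricDist.norm_add_eq_max_of_norm_ne_norm (x := a) (y := b) h.ne'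
  rw [h1, max_eq_left h.le]

theorem nsub {a b : ℚ_[2]} (h : ‖b‖ < ‖a‖) : ‖a - b‖ = ‖a‖ := by
  rw [sub_eq_add_neg]
  exact nadd (by rwa [norm_neg])

theorem nle {a b : ℚ_[2]} {c : ℝ} (h1 : ‖a‖ ≤ c) (h2 : ‖b‖ ≤ c) : ‖a + b‖ ≤ c :=
  (IsUltrametricDist.norm_add_le_max a b).trans (max_le h1 h2)

theorem nle' {a b : ℚ_[2]} {c : ℝ} (h1 : ‖a‖ ≤ c) (h2 : ‖b‖ ≤ c) : ‖a - b‖ ≤ c := by
  rw [sub_eq_add_neg]
  exact nle h1 (by rwa [norm_neg])

theorem unit_sub_one {a : ℚ_[2]} (h : ‖a‖ = 1) : ‖a - 1‖ ≤ 1 / 2 := by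
  obtain ⟨x, rfl⟩ : ∃ x : ℤ_[2], (x : ℚ_[2]) = a := ⟨⟨a, h.le⟩, rfl⟩
  apply disc0
  have hx : ¬ ‖x‖ < 1 := by
    rw [PadicInt.norm_def, h]
    exact lt_irrefl 1
  have h1 : PadicInt.toZMod x = 1 := by
    have h2 : PadicInt.toZMod x ≠ 0 := by
      intro h3
      apply hx
      have h4 : x ∈ RingHom.ker (PadicInt.toZMod (p := 2)) := h3
      rw [PadicInt.ker_toZMod, IsLocalRing.mem_maximalIdeal, PadicInt.mem_nonunits] at h4
      exact h4
    revert h2
    generalize PadicInt.toZMod x = t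
    revert t
    decide
  have h2 : x - 1 ∈ RingHom.ker (PadicInt.toZMod (p := 2)) := by
    rw [RingHom.mem_ker, map_sub, h1, map_one, sub_self]
  rw [PadicInt.ker_toZMod, IsLocalRing.mem_maximalIdeal, PadicInt.mem_nonunits,
    PadicInt.norm_def] at h2
  simpa using h2

/-- the square of a unit is `1` modulo `8` -/
theorem sq_unit {a : ℚ_[2]} (h : ‖a‖ = 1) : ‖a ^ 2 - 1‖ ≤ 1 / 8 := by
  have h1 := unit_sub_one h
  have h2 : ‖a + 1‖ ≤ 1 / 2 := by
    have : a + 1 = (a - 1) + 2 := by ring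
    rw [this]
    exact nle h1 n2.le
  have e : a ^ 2 - 1 = (a - 1) * (a + 1) := by ring
  rw [e, norm_mul]
  have p1 := norm_nonneg (a - 1)
  have p2 := norm_nonneg (a + 1)
  rcases lt_or_eq_of_le h1 with h3 | h3
  · have h4 := disc 1 (x := a - 1) (by simpa using h3)
    norm_num at h4
    nlinarith
  · have h5 : ‖(a - 1) / 2‖ = 1 := by rw [norm_div, h3, n2]; norm_num
    have h6 := unit_sub_one h5
    have h7 : ‖a + 1‖ ≤ 1 / 4 := by
      have e2 : a + 1 = 2 * (((a - 1) / 2 - 1) + 2) := by ring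
      rw [e2, norm_mul, n2]
      have h8 : ‖((a - 1) / 2 - 1) + 2‖ ≤ 1 / 2 := nle h6 n2.le
      linarith
    nlinarith


/-! ### the index -/

theorem index_of' {G : Type} [AddCommGroup G] (H : AddSubgroup G) {n : ℕ} (T : Fin n → G)
    (h2 : ∀ i, T i + T i ∈ H) (hs : ∀ P, ∃ i, P + T i ∈ H)
    (hi : ∀ i j, T i + T j ∈ H → i = j) : H.index = n := by
  rw [AddSubgroup.index, ← Nat.card_eq_of_bijective (α := Fin n)
    (fun i => (QuotientAddGroup.mk (T i) : G ⧸ H)), Nat.card_eq_fintype_card, Fintype.card_fin]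
  constructor
  · intro i j hij
    simp only at hij
    rw [QuotientAddGroup.eq] at hij
    apply hi i j
    have e : T i + T j = (-T i + T j) + (T i + T i) := by abel
    rw [e]
    exact H.add_mem hij (h2 i)
  · intro q
    induction q using QuotientAddGroup.induction_on with
    | H P =>
      obtain ⟨i, h⟩ := hs P
      refine ⟨i, ?_⟩
      simp only
      rw [QuotientAddGroup.eq]
      have e : -T i + P = (P + T i) - (T i + T i) := by abel
      rw [e]
      exact H.sub_mem h (h2 i)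

theorem index_four {G : Type} [AddCommGroup G] (H : AddSubgroup G) (A B : G)
    (hA : A + A ∈ H) (hB : B + B ∈ H) (nA : A ∉ H) (nB : B ∉ H) (nAB : A + B ∉ H)
    (hs : ∀ P, P ∈ H ∨ P + A ∈ H ∨ P + B ∈ H ∨ P + (A + B) ∈ H) : H.index = 4 := by
  have hAB : (A + B) + (A + B) ∈ H := by
    have e : (A + B) + (A + B) = (A + A) + (B + B) := by abel
    rw [e]
    exact H.add_mem hA hB
  have k1 : A + (A + B) ∉ H := by
    intro h
    apply nB
    have e : B = (A + (A + B)) - (A + A) := by abel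
    rw [e]
    exact H.sub_mem h hA
  have k2 : B + (A + B) ∉ H := by
    intro h
    apply nA
    have e : A = (B + (A + B)) - (B + B) := by abel
    rw [e]
    exact H.sub_mem h hB
  refine index_of' H ![0, A, B, A + B] ?_ ?_ ?_
  · intro i
    fin_cases i
    · simp
    · simpa using hA
    · simpa using hB
    · simpa using hAB
  · intro P
    rcases hs P with h | h | h | h
    · exact ⟨0, by simpa using h⟩
    · exact ⟨1, by simpa using h⟩
    · exact ⟨2, by simpa using h⟩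
    · exact ⟨3, by simpa using h⟩
  · intro i j
    fin_cases i <;> fin_cases j <;> intro h
    · rfl
    · exact absurd (by simpa using h) nA
    · exact absurd (by simpa using h) nB
    · exact absurd (by simpa using h) nAB
    · exact absurd (by simpa using h) nA
    · rfl
    · exact absurd (by simpa using h) nAB
    · exact absurd (by simpa using h) k1
    · exact absurd (by simpa using h) nB
    · exact absurd (by simpa [add_comm] using h) nAB
    · rfl
    · exact absurd (by simpa using h) k2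
    · exact absurd (by simpa using h) nAB
    · refine absurd ?_ k1
      have h' : (A + B) + A ∈ H := by simpa using h
      rwa [add_comm] at h'
    · refine absurd ?_ k2
      have h' : (A + B) + B ∈ H := by simpa using h
      rwa [add_comm] at h'
    · rfl

/-! ### the curve -/

/-- the curve over `ℚ₂` -/
noncomputable abbrev E (m : ℤ) : WeierstrassCurve ℚ_[2] := (W2 m).map (Int.castRingHom ℚ_[2])

theorem isR (m : ℤ) : IsR (E m) 0 (-m) (16 * m) := by
  constructor
  · show ((0 : ℤ) : ℚ_[2]) = 0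
    simp
  · show ((-15 * m : ℤ) : ℚ_[2]) = _
    push_cast
    ring
  · show ((0 : ℤ) : ℚ_[2]) = 0
    simp
  · show ((-16 * m ^ 2 : ℤ) : ℚ_[2]) = _
    push_cast
    ring
  · show ((0 : ℤ) : ℚ_[2]) = _
    simp

section

variable {m : ℤ}

theorem nm_le (m : ℤ) : ‖(m : ℚ_[2])‖ ≤ 1 := Padic.norm_int_le_one m

theorem n16m (m : ℤ) : ‖(16 : ℚ_[2]) * m‖ ≤ 1 / 16 := by
  rw [norm_mul, n16]
  have := nm_le m
  nlinarith

theorem eqn {x y : ℚ_[2]} (hn : (E m).toAffine.Nonsingular x y) :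
    y ^ 2 = x * (x + m) * (x - 16 * m) := by
  have h := ((isR m).eqn x y).1 hn.1
  rw [h]; ring

/-- `P ∈ E⁰` if and only if `|x| ≥ 1` -/
theorem mem_iff {x y : ℚ_[2]} (hn : (E m).toAffine.Nonsingular x y) :
    (Affine.Point.some x y hn : PtP (W2 m) 2) ∈ E0 (W2 m) 2 ↔ 1 ≤ ‖x‖ := by
  rw [Pool.Agent.Y809.BSD14.t_E0]
  have e1 : ∀ x y : ℚ_[2], SingRed (W2 m) 2 x y ↔ (‖x‖ ≤ 1 ∧ ‖y‖ ≤ 1 ∧
      ‖3 * x ^ 2 - 30 * m * x - 16 * m ^ 2‖ < 1 ∧ ‖2 * y‖ < 1) := by
    intro x y
    unfold SingRed W2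
    simp only
    push_cast
    have e2 : (0 : ℚ_[2]) * y - (3 * x ^ 2 + 2 * (-15 * m) * x + -16 * m ^ 2) =
        -(3 * x ^ 2 - 30 * m * x - 16 * m ^ 2) := by ring
    have e3 : (2 : ℚ_[2]) * y + 0 * x + 0 = 2 * y := by ring
    rw [e2, e3, norm_neg]
  have h30 : ‖(30 : ℚ_[2])‖ ≤ 1 / 2 := by
    have : (30 : ℚ_[2]) = 2 * ((15 : ℤ) : ℚ_[2]) := by push_cast; norm_num
    rw [this, norm_mul, n2]
    exact (mul_le_mul_of_nonneg_left (nm_le 15) (by norm_num)).trans (by norm_num)
  have h3 : ‖(3 : ℚ_[2])‖ = 1 := by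
    have e : (3 : ℚ_[2]) = 1 + 2 := by norm_num
    rw [e, nadd, norm_one]
    rw [n2, norm_one]
    norm_num
  have hm1 := nm_le m
  have hm0 := norm_nonneg (m : ℚ_[2])
  have h16 : ‖(16 : ℚ_[2]) * m ^ 2‖ ≤ 1 / 16 := by
    rw [norm_mul, norm_pow, n16]
    nlinarith
  constructor
  · intro h
    by_contra hc
    have hx := not_le.1 hc
    have hx0 := norm_nonneg x
    apply h x y hn rfl
    rw [e1]
    have he := eqn hn
    have hy : ‖y‖ ≤ 1 := by
      have h5 : ‖y‖ ^ 2 ≤ 1 := by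
        rw [← norm_pow, he, norm_mul, norm_mul]
        have h6 : ‖x + m‖ ≤ 1 := nle hx.le hm1
        have h7 : ‖x - 16 * m‖ ≤ 1 := nle' hx.le (by have := n16m m; linarith)
        calc ‖x‖ * ‖x + m‖ * ‖x - 16 * m‖ ≤ 1 * 1 * 1 := by gcongr
          _ = 1 := by norm_num
      nlinarith [norm_nonneg y]
    refine ⟨hx.le, hy, ?_, ?_⟩
    · have g1 : ‖3 * x ^ 2‖ < 1 := by
        rw [norm_mul, norm_pow, h3]
        nlinarith
      have g2 : ‖30 * m * x‖ < 1 := by
        rw [norm_mul, norm_mul]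
        calc ‖(30 : ℚ_[2])‖ * ‖(m : ℚ_[2])‖ * ‖x‖ ≤ 1 / 2 * 1 * 1 := by gcongr
          _ < 1 := by norm_num
      have g3 : ‖(16 : ℚ_[2]) * m ^ 2‖ < 1 := by linarith
      rw [sub_eq_add_neg, sub_eq_add_neg]
      refine (IsUltrametricDist.norm_add_le_max _ _).trans_lt (max_lt ?_ (by rwa [norm_neg]))
      exact (IsUltrametricDist.norm_add_le_max _ _).trans_lt (max_lt g1 (by rwa [norm_neg]))
    · rw [norm_mul, n2]
      linarith
  · intro h x' y' hn' he
    obtain ⟨rfl, rfl⟩ : x = x' ∧ y = y' := by simpa using he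
    rw [e1]
    rintro ⟨h1, h2, h4, h5⟩
    have hx : ‖x‖ = 1 := le_antisymm h1 h
    have h6 : ‖3 * x ^ 2 - 30 * m * x - 16 * m ^ 2‖ = 1 := by
      have g1 : ‖3 * x ^ 2‖ = 1 := by
        rw [norm_mul, norm_pow, h3, hx]
        norm_num
      have g2 : ‖30 * m * x‖ < 1 := by
        rw [norm_mul, norm_mul, hx]
        calc ‖(30 : ℚ_[2])‖ * ‖(m : ℚ_[2])‖ * 1 ≤ 1 / 2 * 1 * 1 := by gcongr
          _ < 1 := by norm_num
      have g3 : ‖(16 : ℚ_[2]) * m ^ 2‖ < 1 := by linarith
      have g4 : ‖3 * x ^ 2 - 30 * m * x‖ = 1 := by rw [nsub, g1]; rwa [g1]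
      rw [nsub, g4]
      rwa [g4]
    rw [h6] at h4
    exact lt_irrefl _ h4

theorem hns (hm : m ≠ 0) {x y : ℚ_[2]} (hx : y ^ 2 = x * (x + m) * (x - 16 * m)) :
    (E m).toAffine.Nonsingular x y := by
  have hmQ : (m : ℚ_[2]) ≠ 0 := by exact_mod_cast hm
  refine (isR m).nons two_ne_zero ?_ ?_ ?_ ?_
  · intro h
    apply hmQ
    linear_combination h
  · intro h
    apply hmQ
    have : (16 : ℚ_[2]) * m = 0 := by linear_combination -h
    exact (mul_eq_zero.1 this).resolve_left (by norm_num)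
  · intro h
    apply hmQ
    have : (17 : ℚ_[2]) * m = 0 := by linear_combination -h
    exact (mul_eq_zero.1 this).resolve_left (by norm_num)
  · rw [hx]; ring

/-- translation by the points of order two -/
theorem tr1 {x y : ℚ_[2]} (hn : (E m).toAffine.Nonsingular x y) (hy : y ≠ 0)
    (h0 : (E m).toAffine.Nonsingular 0 0) :
    ∃ (X Y : ℚ_[2]) (hn' : (E m).toAffine.Nonsingular X Y),
      (Affine.Point.some x y hn : (E m).toAffine.Point) + .some 0 0 h0 = .some X Y hn' ∧
      x ≠ 0 ∧ X * x = -16 * m ^ 2 := by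
  obtain ⟨X, Y, hn', h1, h2, -, -, h3, -⟩ := (isR m).trans hn hy h0
  rw [sub_zero] at h2 h3
  refine ⟨X, Y, hn', h1, h2, ?_⟩
  rw [h3]
  field_simp
  ring

theorem tr2 {x y : ℚ_[2]} (hn : (E m).toAffine.Nonsingular x y) (hy : y ≠ 0)
    (h0 : (E m).toAffine.Nonsingular (-m) 0) :
    ∃ (X Y : ℚ_[2]) (hn' : (E m).toAffine.Nonsingular X Y),
      (Affine.Point.some x y hn : (E m).toAffine.Point) + .some (-m) 0 h0 = .some X Y hn' ∧
      x + m ≠ 0 ∧ X * (x + m) = -m * (x - 16 * m) := by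
  obtain ⟨X, Y, hn', h1, h2, -, -, h3, -⟩ := (isR m).rot.trans hn hy h0
  rw [sub_neg_eq_add] at h2 h3
  refine ⟨X, Y, hn', h1, h2, ?_⟩
  rw [h3]
  field_simp
  ring

theorem tr3 {x y : ℚ_[2]} (hn : (E m).toAffine.Nonsingular x y) (hy : y ≠ 0)
    (h0 : (E m).toAffine.Nonsingular (16 * m) 0) :
    ∃ (X Y : ℚ_[2]) (hn' : (E m).toAffine.Nonsingular X Y),
      (Affine.Point.some x y hn : (E m).toAffine.Point) + .some (16 * m) 0 h0 = .some X Y hn' ∧
      x - 16 * m ≠ 0 ∧ X * (x - 16 * m) = 16 * m * (x + m) := by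
  obtain ⟨X, Y, hn', h1, h2, -, -, h3, -⟩ := (isR m).rot.rot.trans hn hy h0
  refine ⟨X, Y, hn', h1, h2, ?_⟩
  rw [h3]
  field_simp
  ring

/-- `v(x)` of a non-zero element with `|x| < 1` which is at least `2^{-4}`, and so on -/
theorem cases5 {x : ℚ_[2]} (hx : ‖x‖ < 1) : ‖x‖ = 1 / 2 ∨ ‖x‖ = 1 / 4 ∨ ‖x‖ = 1 / 8 ∨
    ‖x‖ = 1 / 16 ∨ ‖x‖ = 1 / 32 ∨ ‖x‖ ≤ 1 / 64 := by
  have h1 := disc0 hx
  rcases h1.lt_or_eq with h | h
  swap
  · exact Or.inl h
  have h2 := disc 1 (x := x) (by norm_num; exact h)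
  norm_num at h2
  rcases h2.lt_or_eq with h | h
  swap
  · exact Or.inr (Or.inl h)
  have h3 := disc 2 (x := x) (by norm_num; exact h)
  norm_num at h3
  rcases h3.lt_or_eq with h | h
  swap
  · exact Or.inr (Or.inr (Or.inl h))
  have h4 := disc 3 (x := x) (by norm_num; exact h)
  norm_num at h4
  rcases h4.lt_or_eq with h | h
  swap
  · exact Or.inr (Or.inr (Or.inr (Or.inl h)))
  have h5 := disc 4 (x := x) (by norm_num; exact h)
  norm_num at h5
  rcases h5.lt_or_eq with h | h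
  swap
  · exact Or.inr (Or.inr (Or.inr (Or.inr (Or.inl h))))
  have h6 := disc 5 (x := x) (by norm_num; exact h)
  norm_num at h6
  exact Or.inr (Or.inr (Or.inr (Or.inr (Or.inr h6))))

/-- the norm is not `sqrt 2` times a power of two -/
theorem odd_val {y : ℚ_[2]} (k : ℕ) : ‖y‖ ^ 2 ≠ (1 / 2) ^ (2 * k + 1) := by
  intro h
  have h1 : ‖y / 2 ^ k‖ ^ 2 = 1 / 2 := by
    rw [norm_div, norm_pow, n2, div_pow, h, ← pow_mul, pow_succ, mul_comm k 2]
    field_simp
  have h2 : ‖y / 2 ^ k‖ < 1 := by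
    by_contra hc
    nlinarith [not_lt.1 hc]
  have h3 := disc0 h2
  nlinarith [norm_nonneg (y / 2 ^ k)]

/-! ### `m` even -/

theorem tam_even (hm : m % 4 = 2) : (E0 (W2 m) 2).index = 4 := by
  have hm0 : m ≠ 0 := by rintro rfl; norm_num at hm
  have hmn : ‖(m : ℚ_[2])‖ = 1 / 2 := by
    obtain ⟨k, rfl⟩ : ∃ k : ℤ, m = 2 * k := ⟨m / 2, by omega⟩
    have hk : ‖(k : ℚ_[2])‖ = 1 := by
      by_contra h5
      have h6 : ‖(k : ℚ_[2])‖ < 1 := lt_of_le_of_ne (nm_le k) h5
      have h7 := (Padic.norm_intCast_lt_one_iff (p := 2) (k := k)).1 h6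
      push_cast at h7
      omega
    push_cast
    rw [norm_mul, hk, n2, mul_one]
  have h16 : ‖(16 : ℚ_[2]) * m‖ = 1 / 32 := by rw [norm_mul, n16, hmn]; norm_num
  have g1 := hns (x := 0) (y := 0) hm0 (by ring)
  have g2 := hns (x := -m) (y := 0) hm0 (by ring)
  have g3 := hns (x := 16 * m) (y := 0) hm0 (by ring)
  have s1 : (Affine.Point.some 0 0 g1 : (E m).toAffine.Point) + .some 0 0 g1 = 0 :=
    ((isR m).add_self two_ne_zero g1).2 rfl
  have s2 : (Affine.Point.some (-m) 0 g2 : (E m).toAffine.Point) + .some (-m) 0 g2 = 0 :=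
    ((isR m).add_self two_ne_zero g2).2 rfl
  have hmQ : (m : ℚ_[2]) ≠ 0 := by exact_mod_cast hm0
  -- the sum of the two points is the third one
  have s3 : (Affine.Point.some 0 0 g1 : (E m).toAffine.Point) + .some (-m) 0 g2 =
      .some (16 * m) 0 g3 := by
    have h5 : ((Affine.Point.some 0 0 g1 : (E m).toAffine.Point) + .some (-m) 0 g2) +
        (.some 0 0 g1 + .some (-m) 0 g2) = 0 := by
      have e : ∀ a b : (E m).toAffine.Point, (a + b) + (a + b) = (a + a) + (b + b) := by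
        intro a b; abel
      rw [e, s1, s2, add_zero]
    rcases (isR m).tors two_ne_zero h5 with h | ⟨h6, h⟩ | ⟨h6, h⟩ | ⟨h6, h⟩
    · exfalso
      have h7 : (Affine.Point.some 0 0 g1 : (E m).toAffine.Point) = .some (-m) 0 g2 := by
        have h8 := eq_neg_of_add_eq_zero_left h
        rw [h8]
        exact neg_eq_of_add_eq_zero_left s2
      have h9 : (0 : ℚ_[2]) = -m := by simpa using h7
      apply hmQ
      linear_combination h9
    · exfalso
      have h7 : (Affine.Point.some (-m) 0 g2 : (E m).toAffine.Point) = 0 := by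
        have : (Affine.Point.some 0 0 g1 : (E m).toAffine.Point) + .some (-m) 0 g2 =
            .some 0 0 g1 + 0 := by rw [h, add_zero]
        exact add_left_cancel this
      exact Affine.Point.some_ne_zero _ h7
    · exfalso
      have h7 : (Affine.Point.some 0 0 g1 : (E m).toAffine.Point) = 0 := by
        have : (Affine.Point.some 0 0 g1 : (E m).toAffine.Point) + .some (-m) 0 g2 =
            0 + .some (-m) 0 g2 := by rw [h, zero_add]
        exact add_right_cancel this
      exact Affine.Point.some_ne_zero _ h7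
    · exact h
  refine index_four (E0 (W2 m) 2) (.some 0 0 g1 : (E m).toAffine.Point)
    (.some (-m) 0 g2 : (E m).toAffine.Point) ?_ ?_ ?_ ?_ ?_ ?_
  · rw [s1]; exact AddSubgroup.zero_mem _
  · rw [s2]; exact AddSubgroup.zero_mem _
  · rw [mem_iff, norm_zero]; norm_num
  · rw [mem_iff, norm_neg, hmn]; norm_num
  · rw [s3, mem_iff, h16]; norm_num
  · intro P
    rw [s3]
    rcases P with _ | ⟨x, y, hn⟩
    · left
      exact AddSubgroup.zero_mem _
    rcases le_or_gt 1 ‖x‖ with hx | hx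
    · left
      exact (mem_iff hn).2 hx
    right
    by_cases hy : y = 0
    · have he := eqn hn
      rw [hy] at he
      have h0 : x * (x + m) * (x - 16 * m) = 0 := by rw [← he]; ring
      subst hy
      rcases mul_eq_zero.1 h0 with h1 | h1
      · rcases mul_eq_zero.1 h1 with h2 | h2
        · subst h2
          left
          rw [s1]; exact AddSubgroup.zero_mem _
        · have h3 : x = -m := by linear_combination h2
          subst h3
          right; left
          rw [s2]; exact AddSubgroup.zero_mem _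
      · have h3 : x = 16 * m := by linear_combination h1
        subst h3
        right; right
        rw [((isR m).add_self two_ne_zero hn).2 rfl]
        exact AddSubgroup.zero_mem _
    · obtain ⟨X1, Y1, k1, p1, q1, r1⟩ := tr1 hn hy g1
      obtain ⟨X2, Y2, k2, p2, q2, r2⟩ := tr2 hn hy g2
      obtain ⟨X3, Y3, k3, p3, q3, r3⟩ := tr3 hn hy g3
      rw [p1, p2, p3, mem_iff, mem_iff, mem_iff]
      have r1' : ‖X1‖ * ‖x‖ = 1 / 64 := by
        rw [← norm_mul, r1, norm_mul, norm_neg, n16, norm_pow, hmn]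
        norm_num
      have r2' : ‖X2‖ * ‖x + m‖ = 1 / 2 * ‖x - 16 * m‖ := by
        rw [← norm_mul, r2, norm_mul, norm_neg, hmn]
      have r3' : ‖X3‖ * ‖x - 16 * m‖ = 1 / 32 * ‖x + m‖ := by
        rw [← norm_mul, r3, norm_mul, h16]
      have hy2 : ‖y‖ ^ 2 = ‖x‖ * ‖x + m‖ * ‖x - 16 * m‖ := by
        rw [← norm_pow, eqn hn, norm_mul, norm_mul]
      have x1 : 0 < ‖x‖ := norm_pos_iff.2 q1
      have x2 : 0 < ‖x + m‖ := norm_pos_iff.2 q2
      have x3 : 0 < ‖x - 16 * m‖ := norm_pos_iff.2 q3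
      rcases cases5 hx with h | h | h | h | h | h
      · -- `v(x) = 1`
        right; left
        have h1 : ‖x + m‖ ≤ 1 / 4 := by
          have e : ‖(x + m) / 2‖ ≤ 1 / 2 := by
            have h3 : ‖x / 2‖ = 1 := by rw [norm_div, h, n2]; norm_num
            have h4 : ‖(m : ℚ_[2]) / 2‖ = 1 := by rw [norm_div, hmn, n2]; norm_num
            have e2 : (x + m) / 2 = (x / 2 - 1) + ((m / 2 - 1) + 2) := by ring
            rw [e2]
            exact nle (unit_sub_one h3) (nle (unit_sub_one h4) n2.le)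
          rw [norm_div, n2] at e
          linarith
        have h2 : ‖x - 16 * m‖ = 1 / 2 := by
          rw [nsub, h]
          rw [h, h16]
          norm_num
        rw [h2] at r2'
        by_contra hc
        have hc' := not_le.1 hc
        nlinarith
      · exfalso
        have h1 : ‖x + m‖ = 1 / 2 := by rw [add_comm, nadd, hmn]; rw [h, hmn]; norm_num
        have h2 : ‖x - 16 * m‖ = 1 / 4 := by rw [nsub, h]; rw [h, h16]; norm_num
        rw [h, h1, h2] at hy2
        apply odd_val (y := y) 2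
        rw [hy2]; norm_num
      · exfalso
        have h1 : ‖x + m‖ = 1 / 2 := by rw [add_comm, nadd, hmn]; rw [h, hmn]; norm_num
        have h2 : ‖x - 16 * m‖ = 1 / 8 := by rw [nsub, h]; rw [h, h16]; norm_num
        rw [h, h1, h2] at hy2
        apply odd_val (y := y) 3
        rw [hy2]; norm_num
      · exfalso
        have h1 : ‖x + m‖ = 1 / 2 := by rw [add_comm, nadd, hmn]; rw [h, hmn]; norm_num
        have h2 : ‖x - 16 * m‖ = 1 / 16 := by rw [nsub, h]; rw [h, h16]; norm_num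
        rw [h, h1, h2] at hy2
        apply odd_val (y := y) 4
        rw [hy2]; norm_num
      · right; right
        have h1 : ‖x + m‖ = 1 / 2 := by rw [add_comm, nadd, hmn]; rw [h, hmn]; norm_num
        have h2 : ‖x - 16 * m‖ ≤ 1 / 64 := by
          have e : ‖(x - 16 * m) / 2 ^ 5‖ ≤ 1 / 2 := by
            have h3 : ‖x / 2 ^ 5‖ = 1 := by rw [norm_div, h, norm_pow, n2]; norm_num
            have h4 : ‖(16 * m : ℚ_[2]) / 2 ^ 5‖ = 1 := by
              rw [norm_div, h16, norm_pow, n2]; norm_num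
            have e2 : (x - 16 * m) / 2 ^ 5 = (x / 2 ^ 5 - 1) - (16 * m / 2 ^ 5 - 1) := by ring
            rw [e2]
            exact nle' (unit_sub_one h3) (unit_sub_one h4)
          rw [norm_div, norm_pow, n2] at e
          rw [div_le_iff₀ (by positivity)] at e
          norm_num at e ⊢
          exact e
        rw [h1] at r3'
        by_contra hc
        have hc' := not_le.1 hc
        nlinarith
      · left
        by_contra hc
        have hc' := not_le.1 hc
        nlinarith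

/-! ### `m = 3 mod 4` -/

/-- a point with `v(x) = 1` -/
structure K1 (m : ℤ) (x y : ℚ_[2]) : Prop where
  hx : ‖x‖ = 1 / 2
  he : y ^ 2 = x * (x + m) * (x - 16 * m)

theorem K1.y_norm (hm : ‖(m : ℚ_[2])‖ = 1) {x y : ℚ_[2]} (h : K1 m x y) : ‖y‖ = 1 / 2 := by
  have h1 : ‖x + m‖ = 1 := by rw [add_comm, nadd, hm]; rw [h.hx, hm]; norm_num
  have h2 : ‖x - 16 * m‖ = 1 / 2 := by
    rw [nsub, h.hx]
    rw [h.hx]
    have := n16m m
    linarith
  have h3 : ‖y‖ ^ 2 = (1 / 2) ^ 2 := by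
    rw [← norm_pow, h.he, norm_mul, norm_mul, h1, h2, h.hx]
    norm_num
  exact (pow_left_inj₀ (norm_nonneg _) (by norm_num) two_ne_zero).1 h3

/-- `x + m = 1` modulo `8` -/
theorem K1.cong (hm : ‖(m : ℚ_[2])‖ = 1) {x y : ℚ_[2]} (h : K1 m x y) : ‖x + m - 1‖ ≤ 1 / 8 := by
  have hy := h.y_norm hm
  have h1 : ‖y / 2‖ = 1 := by rw [norm_div, hy, n2]; norm_num
  have h2 : ‖x / 2‖ = 1 := by rw [norm_div, h.hx, n2]; norm_num
  have h3 : ‖x + m‖ = 1 := by rw [add_comm, nadd, hm]; rw [h.hx, hm]; norm_num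
  have c1 := sq_unit h1
  have c2 := sq_unit h2
  have c3 : ‖x / 2 * (8 * m)‖ ≤ 1 / 8 := by
    have n8 : ‖(8 : ℚ_[2])‖ = 1 / 8 := by
      have : (8 : ℚ_[2]) = 2 ^ 3 := by norm_num
      rw [this, norm_pow, n2]; norm_num
    rw [norm_mul, norm_mul, h2, n8, hm]
    norm_num
  have e : x + m - 1 = ((y / 2) ^ 2 - 1) -
      (x + m) * (((x / 2) ^ 2 - 1) - x / 2 * (8 * m)) := by
    rw [div_pow, h.he]
    ring
  rw [e]
  refine nle' c1 ?_
  rw [norm_mul, h3, one_mul]
  exact nle' c2 c3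

theorem dbl {x y : ℚ_[2]} (hn : (E m).toAffine.Nonsingular x y) (hy : y ≠ 0) :
    ∃ (X Y : ℚ_[2]) (hn' : (E m).toAffine.Nonsingular X Y),
      (Affine.Point.some x y hn : (E m).toAffine.Point) + .some x y hn = .some X Y hn' ∧
      X = ((x ^ 2 + 16 * m ^ 2) / (2 * y)) ^ 2 := by
  obtain ⟨X, Y, hn', h1, h2⟩ := (isR m).dup two_ne_zero hn hy
  refine ⟨X, Y, hn', h1, ?_⟩
  rw [← sub_zero X, h2]
  congr 2
  ring

theorem K1.dbl_mem (hm : ‖(m : ℚ_[2])‖ = 1) {x y : ℚ_[2]} (h : K1 m x y)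
    (hn : (E m).toAffine.Nonsingular x y) :
    (Affine.Point.some x y hn : (E m).toAffine.Point) + .some x y hn ∈ E0 (W2 m) 2 := by
  have hy := h.y_norm hm
  have hy0 : y ≠ 0 := by rw [← norm_pos_iff, hy]; norm_num
  obtain ⟨X, Y, hn', h1, h2⟩ := dbl hn hy0
  rw [h1, mem_iff, h2]
  have h3 : ‖x ^ 2 + 16 * (m : ℚ_[2]) ^ 2‖ = 1 / 4 := by
    rw [nadd, norm_pow, h.hx]
    · norm_num
    · rw [norm_pow, h.hx, norm_mul, norm_pow, hm, n16]
      norm_num
  rw [norm_pow, norm_div, h3, norm_mul, n2, hy]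
  norm_num

/-- the sum of two points with `v(x) = 1` lies in `E⁰` -/
theorem K1.add_mem (hm : ‖(m : ℚ_[2])‖ = 1) {x y x' y' : ℚ_[2]} (h : K1 m x y) (h' : K1 m x' y')
    (hn : (E m).toAffine.Nonsingular x y) (hn' : (E m).toAffine.Nonsingular x' y') :
    (Affine.Point.some x y hn : (E m).toAffine.Point) + .some x' y' hn' ∈ E0 (W2 m) 2 := by
  have hy := h.y_norm hm
  have hy' := h'.y_norm hm
  by_cases hxx : x = x'
  · subst hxx
    have h1 : (y - y') * (y + y') = 0 := by
      have := h.he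
      have := h'.he
      linear_combination h.he - h'.he
    rcases mul_eq_zero.1 h1 with h2 | h2
    · have h3 : y = y' := sub_eq_zero.1 h2
      subst h3
      exact h.dbl_mem hm hn
    · have h3 : (Affine.Point.some x y hn : (E m).toAffine.Point) + .some x y' hn' = 0 := by
        apply Affine.Point.add_of_Y_eq rfl
        rw [(isR m).negY]
        linear_combination h2
      rw [h3]
      exact AddSubgroup.zero_mem _
  · rw [Affine.Point.add_of_X_ne hxx]
    set l : ℚ_[2] := (E m).toAffine.slope x x' y y' with hl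
    have hl' : l = (y - y') / (x - x') := Affine.slope_of_X_ne hxx
    rw [mem_iff]
    have e1 : (E m).toAffine.addX x x' l = l ^ 2 + (15 * m - (x + x')) := by
      show l ^ 2 + (E m).a₁ * l - (E m).a₂ - x - x' = _
      rw [(isR m).h1, (isR m).h2]
      ring
    rw [e1]
    have hd0 : x - x' ≠ 0 := sub_ne_zero.2 hxx
    have hdp : 0 < ‖x - x'‖ := norm_pos_iff.2 hd0
    have hd : ‖x - x'‖ ≤ 1 / 8 := by
      have e : x - x' = (x + m - 1) - (x' + m - 1) := by ring
      rw [e]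
      exact nle' (h.cong hm) (h'.cong hm)
    have hln : ‖l‖ * ‖x - x'‖ = ‖y - y'‖ := by
      rw [← norm_mul, hl', div_mul_cancel₀ _ hd0]
    -- the product
    have hprod : ‖y - y'‖ * ‖y + y'‖ ≤ ‖x - x'‖ * (1 / 8) := by
      have e : (y - y') * (y + y') = (x - x') * (4 * (((x / 2) * (x / 2) + (x / 2) * (x' / 2) +
          (x' / 2) * (x' / 2)) - 15 * m * ((x / 2) + (x' / 2)) / 2 - 4 * m ^ 2)) := by
        linear_combination h.he - h'.he
      rw [← norm_mul, e, norm_mul, norm_mul, n4]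
      have u1 : ‖x / 2‖ = 1 := by rw [norm_div, h.hx, n2]; norm_num
      have u2 : ‖x' / 2‖ = 1 := by rw [norm_div, h'.hx, n2]; norm_num
      have v1 := unit_sub_one u1
      have v2 := unit_sub_one u2
      have v3 := unit_sub_one hm
      have w1 : ‖x / 2 * (x / 2) + x / 2 * (x' / 2) + x' / 2 * (x' / 2) - 1‖ ≤ 1 / 2 := by
        have e2 : x / 2 * (x / 2) + x / 2 * (x' / 2) + x' / 2 * (x' / 2) - 1 =
            (x / 2 - 1) * (x / 2 + 1) + (x' / 2) * (x / 2 - 1) + x' / 2 * ((x' / 2 - 1) + 2) := by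
          ring
        have w2 : ‖x / 2 + 1‖ ≤ 1 := nle u1.le (by rw [norm_one])
        rw [e2]
        refine nle (nle ?_ ?_) ?_
        · rw [norm_mul]
          have := norm_nonneg (x / 2 - 1)
          nlinarith
        · rw [norm_mul, u2, one_mul]; exact v1
        · rw [norm_mul, u2, one_mul]; exact nle v2 n2.le
      have w3 : ‖15 * m * ((x / 2) + (x' / 2)) / 2 - 1‖ ≤ 1 / 2 := by
        -- `(x/2 + x'/2)/2 = x/2 - (x - x')/4`
        have e3 : 15 * m * ((x / 2) + (x' / 2)) / 2 - 1 =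
            (15 * m * (x / 2) - 1) - 15 * m * ((x - x') / 4) := by ring
        rw [e3]
        have w15 : ‖(15 : ℚ_[2])‖ ≤ 1 := by
          have := nm_le 15
          push_cast at this
          exact this
        have w16 : ‖(15 : ℚ_[2]) - 1‖ ≤ 1 / 2 := by
          have e4 : (15 : ℚ_[2]) - 1 = 2 * ((7 : ℤ) : ℚ_[2]) := by push_cast; norm_num
          rw [e4, norm_mul, n2]
          exact (mul_le_mul_of_nonneg_left (nm_le 7) (by norm_num)).trans (by norm_num)
        refine nle' ?_ ?_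
        · have e5 : 15 * m * (x / 2) - 1 = 15 * m * (x / 2 - 1) + 15 * (m - 1) + (15 - 1) := by
            ring
          rw [e5]
          refine nle (nle ?_ ?_) w16
          · rw [norm_mul, norm_mul, hm]
            have := norm_nonneg (x / 2 - 1)
            have := norm_nonneg (15 : ℚ_[2])
            nlinarith
          · rw [norm_mul]
            have := norm_nonneg ((m : ℚ_[2]) - 1)
            have := norm_nonneg (15 : ℚ_[2])
            nlinarith
        · rw [norm_mul, norm_mul, hm, norm_div, n4]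
          have := norm_nonneg (15 : ℚ_[2])
          nlinarith
      have w4 : ‖(4 : ℚ_[2]) * m ^ 2‖ ≤ 1 / 2 := by
        rw [norm_mul, norm_pow, hm, n4]
        norm_num
      have w5 : ‖((x / 2) * (x / 2) + (x / 2) * (x' / 2) +
          (x' / 2) * (x' / 2)) - 15 * m * ((x / 2) + (x' / 2)) / 2 - 4 * (m : ℚ_[2]) ^ 2‖ ≤
          1 / 2 := by
        have e6 : ((x / 2) * (x / 2) + (x / 2) * (x' / 2) +
          (x' / 2) * (x' / 2)) - 15 * m * ((x / 2) + (x' / 2)) / 2 - 4 * (m : ℚ_[2]) ^ 2 =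
          (x / 2 * (x / 2) + x / 2 * (x' / 2) + x' / 2 * (x' / 2) - 1) -
          (15 * m * ((x / 2) + (x' / 2)) / 2 - 1) - 4 * (m : ℚ_[2]) ^ 2 := by ring
        rw [e6]
        exact nle' (nle' w1 w3) w4
      have := norm_nonneg (x - x')
      nlinarith
    have hl1 : ‖l‖ ≠ 1 := by
      intro hc
      rw [hc, one_mul] at hln
      rw [← hln] at hprod
      have h1 : ‖y + y'‖ ≤ 1 / 8 := by
        by_contra hc2
        have := not_le.1 hc2
        nlinarith
      have h2 : ‖y - y'‖ = 1 / 4 := by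
        have e : y - y' = -(2 * y') + (y + y') := by ring
        rw [e, nadd, norm_neg, norm_mul, n2, hy']
        · norm_num
        · rw [norm_neg, norm_mul, n2, hy']
          linarith
      rw [← hln] at h2
      linarith
    have h15 : ‖(15 * m - (x + x') : ℚ_[2])‖ = 1 := by
      have w15 : ‖(15 : ℚ_[2]) * m‖ = 1 := by
        rw [norm_mul, hm, mul_one]
        have e4 : (15 : ℚ_[2]) = 1 + 2 * ((7 : ℤ) : ℚ_[2]) := by push_cast; norm_num
        rw [e4, nadd, norm_one]
        rw [norm_one, norm_mul, n2]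
        exact (mul_le_mul_of_nonneg_left (nm_le 7) (by norm_num)).trans_lt (by norm_num)
      rw [nsub, w15]
      rw [w15]
      have := nle h.hx.le h'.hx.le
      linarith
    rcases lt_or_gt_of_ne hl1 with h1 | h1
    · have h2 : ‖l ^ 2‖ < 1 := by
        rw [norm_pow]
        have := norm_nonneg l
        nlinarith
      rw [add_comm, nadd, h15]
      rw [h15]
      exact h2
    · have h2 : 1 < ‖l ^ 2‖ := by
        rw [norm_pow]
        nlinarith
      rw [nadd]
      · exact h2.le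
      · rw [h15]
        exact h2

theorem tam_odd (hm : m % 4 = 3) : (E0 (W2 m) 2).index = 4 := by
  have hm0 : m ≠ 0 := by rintro rfl; norm_num at hm
  have hmn : ‖(m : ℚ_[2])‖ = 1 := by
    by_contra h5
    have h6 : ‖(m : ℚ_[2])‖ < 1 := lt_of_le_of_ne (nm_le m) h5
    have h7 := (Padic.norm_intCast_lt_one_iff (p := 2) (k := m)).1 h6
    push_cast at h7
    omega
  have hm1 : ‖(m : ℚ_[2]) - 1‖ = 1 / 2 := by
    obtain ⟨k, rfl⟩ : ∃ k : ℤ, m = 4 * k + 3 := ⟨m / 4, by omega⟩
    have e : (((4 * k + 3 : ℤ)) : ℚ_[2]) - 1 = 2 + 4 * k := by push_cast; ring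
    rw [e, nadd, n2]
    rw [n2, norm_mul, n4]
    have := nm_le k
    linarith
  have g1 := hns (x := 0) (y := 0) hm0 (by ring)
  have s1 : (Affine.Point.some 0 0 g1 : (E m).toAffine.Point) + .some 0 0 g1 = 0 :=
    ((isR m).add_self two_ne_zero g1).2 rfl
  -- the point `Q`
  have hQ : ∃ xQ yQ : ℚ_[2], K1 m xQ yQ := by
    rcases (by omega : m % 8 = 3 ∨ m % 8 = 7) with h | h
    · obtain ⟨s, hs⟩ := Pool.Agent.H468.X15.sq_of_mod8 (u := (m - 2) * (1 + 8 * m)) (by
        obtain ⟨k, rfl⟩ : ∃ k : ℤ, m = 8 * k + 3 := ⟨m / 8, by omega⟩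
        have e : (8 * k + 3 - 2) * (1 + 8 * (8 * k + 3)) = 8 * ((8 * k + 1) * (8 * k + 3) + k) + 1 := by
          ring
        rw [e]
        omega)
      refine ⟨-2, 2 * s, ⟨by rw [norm_neg, n2], ?_⟩⟩
      push_cast at hs
      linear_combination -4 * hs
    · obtain ⟨s, hs⟩ := Pool.Agent.H468.X15.sq_of_mod8 (u := (m + 2) * (1 - 8 * m)) (by
        obtain ⟨k, rfl⟩ : ∃ k : ℤ, m = 8 * k + 7 := ⟨m / 8, by omega⟩
        have e : (8 * k + 7 + 2) * (1 - 8 * (8 * k + 7)) =
            8 * (-(8 * k + 9) * (8 * k + 7) + (k + 1)) + 1 := by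
          ring
        rw [e]
        omega)
      refine ⟨2, 2 * s, ⟨n2, ?_⟩⟩
      push_cast at hs
      linear_combination -4 * hs
  obtain ⟨xQ, yQ, hQ⟩ := hQ
  have gQ := hns hm0 hQ.he
  have hyQ := hQ.y_norm hmn
  have hyQ0 : yQ ≠ 0 := by rw [← norm_pos_iff, hyQ]; norm_num
  have n16m2 : ‖-16 * (m : ℚ_[2]) ^ 2‖ = 1 / 16 := by
    rw [norm_mul, norm_neg, n16, norm_pow, hmn]
    norm_num
  -- points with `v(x) = 1`
  have kQ : ∀ (x y : ℚ_[2]) (hn : (E m).toAffine.Nonsingular x y), ‖x‖ = 1 / 2 →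
      (Affine.Point.some x y hn : (E m).toAffine.Point) + .some xQ yQ gQ ∈ E0 (W2 m) 2 := by
    intro x y hn hx
    exact K1.add_mem hmn ⟨hx, eqn hn⟩ hQ hn gQ
  refine index_four (E0 (W2 m) 2) (.some 0 0 g1 : (E m).toAffine.Point)
    (.some xQ yQ gQ : (E m).toAffine.Point) ?_ ?_ ?_ ?_ ?_ ?_
  · rw [s1]; exact AddSubgroup.zero_mem _
  · exact hQ.dbl_mem hmn gQ
  · rw [mem_iff, norm_zero]; norm_num
  · rw [mem_iff, hQ.hx]; norm_num
  · rw [add_comm]
    obtain ⟨X1, Y1, k1, p1, q1, r1⟩ := tr1 gQ hyQ0 g1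
    rw [p1, mem_iff]
    have r1' : ‖X1‖ * ‖xQ‖ = 1 / 16 := by rw [← norm_mul, r1, n16m2]
    rw [hQ.hx] at r1'
    intro h
    linarith
  · intro P
    rcases P with _ | ⟨x, y, hn⟩
    · left
      exact AddSubgroup.zero_mem _
    rcases le_or_gt 1 ‖x‖ with hx | hx
    · left
      exact (mem_iff hn).2 hx
    right
    have he := eqn hn
    have hxm : ‖x + m‖ = 1 := by rw [add_comm, nadd, hmn]; rw [hmn]; exact hx
    have h16 : ‖(16 : ℚ_[2]) * m‖ = 1 / 16 := by rw [norm_mul, n16, hmn, mul_one]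
    by_cases hy : y = 0
    · rw [hy] at he
      have h0 : x * (x + m) * (x - 16 * m) = 0 := by rw [← he]; ring
      subst hy
      left
      rcases mul_eq_zero.1 h0 with h1 | h1
      · rcases mul_eq_zero.1 h1 with h2 | h2
        · subst h2
          rw [s1]; exact AddSubgroup.zero_mem _
        · exfalso
          rw [h2, norm_zero] at hxm
          norm_num at hxm
      · -- `x = 16 m`: the sum with `T₁` is `T₂`
        have h3 : x = 16 * m := by linear_combination h1
        subst h3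
        have hne : (16 * m : ℚ_[2]) ≠ 0 := by
          rw [← norm_pos_iff, h16]; norm_num
        rw [Affine.Point.add_of_X_ne hne, mem_iff]
        set l : ℚ_[2] := (E m).toAffine.slope (16 * m) 0 0 0 with hl
        have hl' : l = (0 - 0) / (16 * m - 0) := Affine.slope_of_X_ne hne
        have hl0 : l = 0 := by rw [hl']; simp
        have e1 : (E m).toAffine.addX (16 * m) 0 l = -m := by
          show l ^ 2 + (E m).a₁ * l - (E m).a₂ - (16 * m) - 0 = _
          rw [(isR m).h1, (isR m).h2, hl0]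
          ring
        rw [e1, norm_neg, hmn]
    · obtain ⟨X1, Y1, k1, p1, q1, r1⟩ := tr1 hn hy g1
      have r1' : ‖X1‖ * ‖x‖ = 1 / 16 := by rw [← norm_mul, r1, n16m2]
      have x1 : 0 < ‖x‖ := norm_pos_iff.2 q1
      have hbig : ‖x‖ ≤ 1 / 16 → (Affine.Point.some x y hn : (E m).toAffine.Point) +
          .some 0 0 g1 ∈ E0 (W2 m) 2 := by
        intro h
        rw [p1, mem_iff]
        by_contra hc
        have hc' := not_le.1 hc
        nlinarith
      rcases cases5 hx with h | h | h | h | h | h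
      · -- `v(x) = 1`
        right; left
        exact kQ x y hn h
      · -- `v(x) = 2` is impossible
        exfalso
        have h2 : ‖x - 16 * m‖ = 1 / 4 := by rw [nsub, h]; rw [h, h16]; norm_num
        have hy2 : ‖y‖ ^ 2 = (1 / 4) ^ 2 := by
          rw [← norm_pow, he, norm_mul, norm_mul, h, hxm, h2]
          norm_num
        have hy1 : ‖y‖ = 1 / 4 := (pow_left_inj₀ (norm_nonneg _) (by norm_num) two_ne_zero).1 hy2
        have u1 : ‖y / 4‖ = 1 := by rw [norm_div, hy1, n4]; norm_num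
        have u2 : ‖x / 4‖ = 1 := by rw [norm_div, h, n4]; norm_num
        have c1 := sq_unit u1
        have c2 := sq_unit u2
        have e : (m : ℚ_[2]) - 1 = ((y / 4) ^ 2 - 1) - (x + m) * (((x / 4) ^ 2 - 1) -
            4 * ((x / 4) * m)) - x := by
          rw [div_pow, he]
          ring
        have h5 : ‖(m : ℚ_[2]) - 1‖ ≤ 1 / 4 := by
          rw [e]
          refine nle' (nle' (by linarith) ?_) h.le
          rw [norm_mul, hxm, one_mul]
          refine nle' (by linarith) ?_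
          rw [norm_mul, norm_mul, n4, u2, hmn]
          norm_num
        rw [hm1] at h5
        norm_num at h5
      · -- `v(x) = 3`: the translate has `v(x) = 1`
        right; right
        rw [← add_assoc, p1]
        apply kQ
        rw [h] at r1'
        linarith
      · left; exact hbig h.le
      · left; exact hbig (by rw [h]; norm_num)
      · left; exact hbig (by linarith)

theorem t_TAM2 : S_TAM2 := by
  intro m _ hm
  rcases hm with h | h
  · exact tam_even h
  · exact tam_odd h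

end

end Pool.Agent.H743.X17.QTAM2
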