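import Pool.Agent.H743.X17.Stm
import Pool.Agent.H743.X17.Kit

/-!
# X17 NEC2: local conditions at 2 (necessary)
-/

set_option autoImplicit false
set_option linter.all false

set_option maxHeartbeats 4000000

open scoped Classical

namespace Pool.Agent.H743.X17.QNEC2

open Pool.Agent.H743.X17

theorem odd8 {a : ℤ} (h : a % 2 = 1) : a % 8 = 1 ∨ a % 8 = 3 ∨ a % 8 = 5 ∨ a % 8 = 7 := by omega

/-- the possible residues of three odd numbers with product `1` modulo `8` -/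
theorem tri {a b c : ℤ} (ha : a % 2 = 1) (hb : b % 2 = 1) (hc : c % 2 = 1)
    (h : (a * b * c) % 8 = 1) :
    (a % 8 = 1 ∧ b % 8 = 1 ∧ c % 8 = 1) ∨ (a % 8 = 1 ∧ b % 8 = 3 ∧ c % 8 = 3) ∨
    (a % 8 = 1 ∧ b % 8 = 5 ∧ c % 8 = 5) ∨ (a % 8 = 1 ∧ b % 8 = 7 ∧ c % 8 = 7) ∨
    (a % 8 = 3 ∧ b % 8 = 1 ∧ c % 8 = 3) ∨ (a % 8 = 3 ∧ b % 8 = 3 ∧ c % 8 = 1) ∨
    (a % 8 = 3 ∧ b % 8 = 5 ∧ c % 8 = 7) ∨ (a % 8 = 3 ∧ b % 8 = 7 ∧ c % 8 = 5) ∨
    (a % 8 = 5 ∧ b % 8 = 1 ∧ c % 8 = 5) ∨ (a % 8 = 5 ∧ b % 8 = 3 ∧ c % 8 = 7) ∨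
    (a % 8 = 5 ∧ b % 8 = 5 ∧ c % 8 = 1) ∨ (a % 8 = 5 ∧ b % 8 = 7 ∧ c % 8 = 3) ∨
    (a % 8 = 7 ∧ b % 8 = 1 ∧ c % 8 = 7) ∨ (a % 8 = 7 ∧ b % 8 = 3 ∧ c % 8 = 5) ∨
    (a % 8 = 7 ∧ b % 8 = 5 ∧ c % 8 = 3) ∨ (a % 8 = 7 ∧ b % 8 = 7 ∧ c % 8 = 1) := by
  rcases odd8 ha with h1 | h1 | h1 | h1 <;> rcases odd8 hb with h2 | h2 | h2 | h2 <;>
    rcases odd8 hc with h3 | h3 | h3 | h3 <;> simp [Int.mul_emod, h1, h2, h3] at h ⊢

theorem uniq {k l : ℕ} {x y : ℤ} (hx : x % 2 = 1) (hy : y % 2 = 1)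
    (h : (2 : ℤ) ^ k * x = 2 ^ l * y) : k = l ∧ x = y := by
  have aux : ∀ (k l : ℕ) (x y : ℤ), x % 2 = 1 → k ≤ l → (2 : ℤ) ^ k * x = 2 ^ l * y →
      k = l ∧ x = y := by
    intro k l x y hx hkl h
    obtain ⟨d, rfl⟩ := Nat.exists_eq_add_of_le hkl
    rw [pow_add, mul_assoc] at h
    have h2 := mul_left_cancel₀ (pow_ne_zero k (by norm_num : (2 : ℤ) ≠ 0)) h
    rcases d with _ | d
    · exact ⟨by simp, by simpa using h2⟩
    · exfalso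
      rw [pow_succ, mul_comm ((2 : ℤ) ^ d) 2, mul_assoc] at h2
      omega
  rcases le_total k l with hkl | hkl
  · exact aux k l x y hx hkl h
  · obtain ⟨h1, h2⟩ := aux l k y x hy hkl h.symm
    exact ⟨h1.symm, h2.symm⟩

theorem dec2 {n : ℤ} (hn : n ≠ 0) : ∃ (k : ℕ) (x : ℤ), n = 2 ^ k * x ∧ x % 2 = 1 := by
  haveI : Fact (Nat.Prime 2) := ⟨Nat.prime_two⟩
  obtain ⟨u, hu, hu'⟩ := Pool.Agent.H468.X15.dec (p := 2) hn
  exact ⟨_, u, by exact_mod_cast hu, by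
    have : ¬ (2 : ℤ) ∣ u := by exact_mod_cast hu'
    omega⟩

/-- the class of `u` from `n u` a square -/
theorem cls {n u x : ℤ} {k : ℕ} (hn : n = 2 ^ k * x) (hx : x % 2 = 1) (hu : Squarefree u)
    (h : IsSquare ((n * u : ℤ) : ℚ_[2])) :
    ((2 : ℤ) ∣ u ↔ k % 2 = 1) ∧ up 2 u % 8 = x % 8 := by
  have hn0 : n ≠ 0 := by
    rw [hn]; exact mul_ne_zero (pow_ne_zero _ (by norm_num)) (by rintro rfl; norm_num at hx)
  obtain ⟨a, w, e, hw⟩ := sq2_dec (mul_ne_zero hn0 hu.ne_zero) h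
  by_cases h2 : (2 : ℤ) ∣ u
  · obtain ⟨c, hc⟩ := h2
    have hc2 : c % 2 = 1 := by
      by_contra hcc
      have : (2 : ℤ) * 2 ∣ u := by
        rw [hc]; exact mul_dvd_mul_left 2 (by omega)
      have := hu 2 this
      rw [Int.isUnit_iff] at this
      omega
    have hup : up 2 u = c := by
      unfold up
      rw [if_pos (by exact_mod_cast (⟨c, hc⟩ : (2 : ℤ) ∣ u)), hc]
      push_cast
      omega
    have hxc : (x * c) % 2 = 1 := by rw [Int.mul_emod, hx, hc2]; norm_num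
    have e2 : (2 : ℤ) ^ (k + 1) * (x * c) = 2 ^ (2 * a) * w := by
      rw [← e, hn, hc]; ring
    obtain ⟨h3, h4⟩ := uniq hxc (by omega) e2
    refine ⟨⟨fun _ => by omega, fun _ => ⟨c, hc⟩⟩, ?_⟩
    rw [hup]
    rw [← h4] at hw
    rcases odd8 hx with h1 | h1 | h1 | h1 <;> rcases odd8 hc2 with h2 | h2 | h2 | h2 <;>
      simp [Int.mul_emod, h1, h2] at hw ⊢
  · have hup : up 2 u = u := by
      unfold up
      rw [if_neg (by exact_mod_cast h2)]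
    have hxc : (x * u) % 2 = 1 := by rw [Int.mul_emod, hx]; omega
    have e2 : (2 : ℤ) ^ k * (x * u) = 2 ^ (2 * a) * w := by
      rw [← e, hn]; ring
    obtain ⟨h3, h4⟩ := uniq hxc (by omega) e2
    refine ⟨⟨fun h => absurd h h2, fun _ => by omega⟩, ?_⟩
    rw [hup]
    rw [← h4] at hw
    have hc2 : u % 2 = 1 := by omega
    rcases odd8 hx with h1 | h1 | h1 | h1 <;> rcases odd8 hc2 with h2 | h2 | h2 | h2 <;>
      simp [Int.mul_emod, h1, h2] at hw ⊢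

/-- the square of an odd number -/
theorem osq {t : ℤ} (h : t % 2 = 1) : ∃ s : ℤ, t ^ 2 = 8 * s + 1 := by
  obtain ⟨q, rfl⟩ : ∃ q, t = 2 * q + 1 := ⟨t / 2, by omega⟩
  rcases Int.even_or_odd' q with ⟨c, rfl | rfl⟩
  · exact ⟨2 * c * c + c, by ring⟩
  · exact ⟨2 * c * c + 3 * c + 1, by ring⟩


theorem esq {t : ℤ} (h : t % 2 = 0) : ∃ s : ℤ, t ^ 2 = 4 * s := by
  obtain ⟨q, rfl⟩ : ∃ q, t = 2 * q := ⟨t / 2, by omega⟩
  exact ⟨q ^ 2, by ring⟩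

theorem pw1 (l : ℕ) (b : ℤ) : (2 : ℤ) ^ (l + 1) * b = 2 * (2 ^ l * b) := by ring
theorem pw2 (l : ℕ) (b : ℤ) : (2 : ℤ) ^ (l + 2) * b = 4 * (2 ^ l * b) := by ring
theorem pw3 (l : ℕ) (b : ℤ) : (2 : ℤ) ^ (l + 3) * b = 8 * (2 ^ l * b) := by ring
theorem pw4 (l : ℕ) (b : ℤ) : (2 : ℤ) ^ (l + 4) * b = 16 * (2 ^ l * b) := by ring
theorem pw5 (l : ℕ) (b : ℤ) : (2 : ℤ) ^ (l + 5) * b = 32 * (2 ^ l * b) := by ring
theorem pw6 (l : ℕ) (b : ℤ) : (2 : ℤ) ^ (l + 6) * b = 64 * (2 ^ l * b) := by ring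
theorem pw7 (l : ℕ) (b : ℤ) : (2 : ℤ) ^ (l + 7) * b = 128 * (2 ^ l * b) := by ring
theorem pw8 (l : ℕ) (b : ℤ) : (2 : ℤ) ^ (l + 8) * b = 256 * (2 ^ l * b) := by ring


theorem trA {a b c : ℤ} (h : (a * b * c) % 8 = 1) (ha : a % 2 = 1) (hb : b % 2 = 1)
    (hc : c % 2 = 1) (h1 : (c - a) % 8 = 0) : b % 8 = 1 := by
  rcases tri ha hb hc h with ⟨x1, x2, x3⟩ | ⟨x1, x2, x3⟩ | ⟨x1, x2, x3⟩ | ⟨x1, x2, x3⟩ | ⟨x1, x2, x3⟩ | ⟨x1, x2, x3⟩ | ⟨x1, x2, x3⟩ | ⟨x1, x2, x3⟩ | ⟨x1, x2, x3⟩ | ⟨x1, x2, x3⟩ | ⟨x1, x2, x3⟩ | ⟨x1, x2, x3⟩ | ⟨x1, x2, x3⟩ | ⟨x1, x2, x3⟩ | ⟨x1, x2, x3⟩ | ⟨x1, x2, x3⟩ <;> omega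

theorem trB {a b c : ℤ} (h : (a * b * c) % 8 = 1) (ha : a % 2 = 1) (hb : b % 2 = 1)
    (hc : c % 2 = 1) (h1 : (c - a) % 8 = 4) : b % 8 = 5 := by
  rcases tri ha hb hc h with ⟨x1, x2, x3⟩ | ⟨x1, x2, x3⟩ | ⟨x1, x2, x3⟩ | ⟨x1, x2, x3⟩ | ⟨x1, x2, x3⟩ | ⟨x1, x2, x3⟩ | ⟨x1, x2, x3⟩ | ⟨x1, x2, x3⟩ | ⟨x1, x2, x3⟩ | ⟨x1, x2, x3⟩ | ⟨x1, x2, x3⟩ | ⟨x1, x2, x3⟩ | ⟨x1, x2, x3⟩ | ⟨x1, x2, x3⟩ | ⟨x1, x2, x3⟩ | ⟨x1, x2, x3⟩ <;> omega

/-- the conclusion for an odd twist -/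
def CO (m a b : ℤ) (k l : ℕ) : Prop :=
  (m % 4 = 1 ∧ k % 2 = 0 ∧ l % 2 = 0 ∧ b % 4 = 1) ∨
    (m % 4 = 3 ∧ l % 2 = 0 ∧ b % 8 = 1 ∧ k % 2 = 0 ∧ a % 4 = 1) ∨
    (m % 4 = 3 ∧ l % 2 = 0 ∧ b % 8 = 1 ∧ k % 2 = 1 ∧
      ((m % 8 = 3 ∧ a % 4 = 3) ∨ (m % 8 = 7 ∧ a % 4 = 1))) ∨
    (m % 4 = 3 ∧ l % 2 = 0 ∧ b % 8 = m % 8 ∧ k % 2 = 0 ∧ a % 4 = 3) ∨
    (m % 4 = 3 ∧ l % 2 = 0 ∧ b % 8 = m % 8 ∧ k % 2 = 1 ∧
      ((m % 8 = 3 ∧ a % 4 = 1) ∨ (m % 8 = 7 ∧ a % 4 = 3)))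

theorem CO.i {m a b : ℤ} {k l : ℕ} (h1 : m % 4 = 1) (h2 : k % 2 = 0) (h3 : l % 2 = 0)
    (h4 : b % 4 = 1) : CO m a b k l := Or.inl ⟨h1, h2, h3, h4⟩

theorem CO.ii {m a b : ℤ} {k l : ℕ} (h1 : m % 4 = 3) (h3 : l % 2 = 0) (h4 : b % 8 = 1)
    (h2 : k % 2 = 0) (h5 : a % 4 = 1) : CO m a b k l := Or.inr (Or.inl ⟨h1, h3, h4, h2, h5⟩)

theorem CO.iii {m a b : ℤ} {k l : ℕ} (h1 : m % 4 = 3) (h3 : l % 2 = 0) (h4 : b % 8 = 1)
    (h2 : k % 2 = 1) (h5 : (m % 8 = 3 ∧ a % 4 = 3) ∨ (m % 8 = 7 ∧ a % 4 = 1)) : CO m a b k l :=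
  Or.inr (Or.inr (Or.inl ⟨h1, h3, h4, h2, h5⟩))

theorem CO.iv {m a b : ℤ} {k l : ℕ} (h1 : m % 4 = 3) (h3 : l % 2 = 0) (h4 : b % 8 = m % 8)
    (h2 : k % 2 = 0) (h5 : a % 4 = 3) : CO m a b k l :=
  Or.inr (Or.inr (Or.inr (Or.inl ⟨h1, h3, h4, h2, h5⟩)))

theorem CO.v {m a b : ℤ} {k l : ℕ} (h1 : m % 4 = 3) (h3 : l % 2 = 0) (h4 : b % 8 = m % 8)
    (h2 : k % 2 = 1) (h5 : (m % 8 = 3 ∧ a % 4 = 1) ∨ (m % 8 = 7 ∧ a % 4 = 3)) : CO m a b k l :=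
  Or.inr (Or.inr (Or.inr (Or.inr ⟨h1, h3, h4, h2, h5⟩)))

/-- the case of an odd twist -/
theorem core_odd {m t a b c : ℤ} {k l j : ℕ} (hm : m % 2 = 1) (ha : a % 2 = 1) (hb : b % 2 = 1)
    (hc : c % 2 = 1) (ht : k ≠ 0 → t % 2 = 1)
    (hP : 2 ^ k * a + m * t ^ 2 = 2 ^ l * b) (hQ : 2 ^ k * a - 16 * (m * t ^ 2) = 2 ^ j * c)
    (hkl : (k + l + j) % 2 = 0) (h : (a * b * c) % 8 = 1) : CO m a b k l := by
  have hm4 : m % 4 = 1 ∨ m % 4 = 3 := by omega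
  by_cases ht2 : t % 2 = 1
  · obtain ⟨s, hs⟩ := osq ht2
    have hz : m * t ^ 2 = m + 8 * (m * s) := by rw [hs]; ring
    rw [hz] at hP hQ
    generalize m * s = z at hP hQ
    clear hz hs ht ht2
    rcases k with _ | _ | _ | _ | _ | k
    · -- k = 0
      obtain ⟨h1, h2⟩ := uniq (k := 0) (x := a - 16 * (m + 8 * z)) (by omega) hc (by rw [← hQ]; ring)
      subst h1
      clear hQ
      have hb8 : b % 8 = 1 := trA h ha hb hc (by omega)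
      rcases l with _ | _ | _ | l
      · norm_num at hP; omega
      · omega
      · norm_num at hP
        rcases hm4 with h4 | h4
        · exact CO.i h4 (by omega) (by omega) (by omega)
        · exact CO.ii h4 (by omega) (by omega) (by omega) (by omega)
      · rw [pw3] at hP
        generalize (2 : ℤ) ^ l * b = y at hP
        norm_num at hP
        rcases hm4 with h4 | h4
        · exact CO.i h4 (by omega) (by omega) (by omega)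
        · exact CO.ii h4 (by omega) (by omega) (by omega) (by omega)
    · -- k = 1
      obtain ⟨h1, h2⟩ := uniq (k := 1) (x := a - 8 * (m + 8 * z)) (by omega) hc (by rw [← hQ]; ring)
      subst h1
      clear hQ
      have hb8 : b % 8 = 1 := trA h ha hb hc (by omega)
      obtain ⟨h3, h4⟩ := uniq (k := 0) (x := 2 * a + (m + 8 * z)) (by omega) hb (by rw [← hP]; ring)
      subst h3
      clear hP
      have h5 : m % 8 = 3 ∨ m % 8 = 7 := by omega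
      refine CO.iii (by omega) (by omega) (by omega) (by omega) ?_
      rcases h5 with h5 | h5
      · left; exact ⟨h5, by omega⟩
      · right; exact ⟨h5, by omega⟩
    · -- k = 2
      obtain ⟨h1, h2⟩ := uniq (k := 2) (x := a - 4 * (m + 8 * z)) (by omega) hc (by rw [← hQ]; ring)
      subst h1
      clear hQ
      have hb8 : b % 8 = 5 := trB h ha hb hc (by omega)
      obtain ⟨h3, h4⟩ := uniq (k := 0) (x := 4 * a + (m + 8 * z)) (by omega) hb (by rw [← hP]; ring)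
      subst h3
      clear hP
      exact CO.i (by omega) (by omega) (by omega) (by omega)
    · -- k = 3
      obtain ⟨h1, h2⟩ := uniq (k := 3) (x := a - 2 * (m + 8 * z)) (by omega) hc (by rw [← hQ]; ring)
      subst h1
      clear hQ
      obtain ⟨h3, h4⟩ := uniq (k := 0) (x := 8 * a + (m + 8 * z)) (by omega) hb (by rw [← hP]; ring)
      subst h3
      clear hP
      have h5 : (m % 8 = 3 ∧ a % 4 = 1) ∨ (m % 8 = 7 ∧ a % 4 = 3) := by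
        have hT := tri ha hb hc h
        clear h ha hb hc hkl hm4
        rcases hT with ⟨x1, x2, x3⟩ | ⟨x1, x2, x3⟩ | ⟨x1, x2, x3⟩ | ⟨x1, x2, x3⟩ | ⟨x1, x2, x3⟩ | ⟨x1, x2, x3⟩ | ⟨x1, x2, x3⟩ | ⟨x1, x2, x3⟩ | ⟨x1, x2, x3⟩ | ⟨x1, x2, x3⟩ | ⟨x1, x2, x3⟩ | ⟨x1, x2, x3⟩ | ⟨x1, x2, x3⟩ | ⟨x1, x2, x3⟩ | ⟨x1, x2, x3⟩ | ⟨x1, x2, x3⟩ <;>
          first | (exfalso; omega) | (left; constructor <;> omega) | (right; constructor <;> omega)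
      have h6 : m % 4 = 3 := by clear h; rcases h5 with h5 | h5 <;> omega
      exact CO.v h6 (by omega) (by omega) (by omega) h5
    · -- k = 4
      obtain ⟨h3, h4⟩ := uniq (k := 0) (x := 16 * a + (m + 8 * z)) (by omega) hb
        (by rw [← hP]; ring)
      subst h3
      clear hP h
      have h5 : (a - m) % 4 = 0 := by
        rcases j with _ | _ | _ | _ | _ | _ | _ | j
        · norm_num at hQ; omega
        · norm_num at hQ; omega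
        · norm_num at hQ; omega
        · norm_num at hQ; omega
        · norm_num at hQ; omega
        · norm_num at hQ; omega
        · norm_num at hQ; omega
        · rw [pw7] at hQ
          generalize (2 : ℤ) ^ j * c = y at hQ
          norm_num at hQ
          omega
      clear hQ
      rcases hm4 with h6 | h6
      · exact CO.i h6 (by omega) (by omega) (by omega)
      · exact CO.iv h6 (by omega) (by omega) (by omega) (by omega)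
    · -- k ≥ 5
      rw [pw5] at hP hQ
      obtain ⟨h3, h4⟩ := uniq (k := 0) (x := 32 * (2 ^ k * a) + (m + 8 * z)) (by omega) hb
        (by rw [← hP]; ring)
      subst h3
      obtain ⟨h1, h2⟩ := uniq (k := 4) (x := 2 * (2 ^ k * a) - (m + 8 * z)) (by omega) hc
        (by rw [← hQ]; ring)
      subst h1
      clear hP hQ
      have hk : (k + 5) % 2 = 0 := by omega
      rcases hm4 with h6 | h6
      · refine CO.i h6 (by omega) (by omega) ?_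
        generalize (2 : ℤ) ^ k * a = y at h2 h4
        omega
      · have h7 : b % 8 = m % 8 := by
          generalize (2 : ℤ) ^ k * a = y at h2 h4
          omega
        refine CO.iv h6 (by omega) h7 (by omega) ?_
        rcases k with _ | _ | _ | k
        · omega
        · norm_num at h2
          have hT := tri ha hb hc h
          clear h ha hb hc hkl h4 hk
          rcases hT with ⟨x1, x2, x3⟩ | ⟨x1, x2, x3⟩ | ⟨x1, x2, x3⟩ | ⟨x1, x2, x3⟩ | ⟨x1, x2, x3⟩ | ⟨x1, x2, x3⟩ | ⟨x1, x2, x3⟩ | ⟨x1, x2, x3⟩ | ⟨x1, x2, x3⟩ | ⟨x1, x2, x3⟩ | ⟨x1, x2, x3⟩ | ⟨x1, x2, x3⟩ | ⟨x1, x2, x3⟩ | ⟨x1, x2, x3⟩ | ⟨x1, x2, x3⟩ | ⟨x1, x2, x3⟩ <;> omega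
        · omega
        · rw [pw3] at h2
          generalize (2 : ℤ) ^ k * a = y at h2
          have hT := tri ha hb hc h
          clear h ha hb hc hkl h4 hk
          rcases hT with ⟨x1, x2, x3⟩ | ⟨x1, x2, x3⟩ | ⟨x1, x2, x3⟩ | ⟨x1, x2, x3⟩ | ⟨x1, x2, x3⟩ | ⟨x1, x2, x3⟩ | ⟨x1, x2, x3⟩ | ⟨x1, x2, x3⟩ | ⟨x1, x2, x3⟩ | ⟨x1, x2, x3⟩ | ⟨x1, x2, x3⟩ | ⟨x1, x2, x3⟩ | ⟨x1, x2, x3⟩ | ⟨x1, x2, x3⟩ | ⟨x1, x2, x3⟩ | ⟨x1, x2, x3⟩ <;> omega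
  · have hk : k = 0 := by
      by_contra hk
      exact ht2 (ht hk)
    subst hk
    obtain ⟨q, hq⟩ : ∃ q, t = 2 * q := ⟨t / 2, by omega⟩
    subst hq
    have hz : m * (2 * q) ^ 2 = 4 * (m * q ^ 2) := by ring
    rw [hz] at hP hQ
    obtain ⟨h1, h2⟩ := uniq (k := 0) (x := a - 64 * (m * q ^ 2)) (by omega) hc
      (by rw [← hQ]; ring)
    subst h1
    obtain ⟨h3, h4⟩ := uniq (k := 0) (x := a + 4 * (m * q ^ 2)) (by omega) hb
      (by rw [← hP]; ring)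
    subst h3
    clear hP hQ hz ht ht2
    generalize m * q ^ 2 = z at h2 h4
    have hb8 : b % 8 = 1 := trA h ha hb hc (by omega)
    rcases hm4 with h6 | h6
    · exact CO.i h6 (by omega) (by omega) (by omega)
    · exact CO.ii h6 (by omega) (by omega) (by omega) (by omega)

/-- the conclusion for an even twist -/
def CE (m a b : ℤ) (k l : ℕ) : Prop :=
  (l % 2 = 0 ∧ b % 8 = 1 ∧ k % 2 = 0 ∧
      (a % 8 = 1 ∨ (m % 4 = 1 ∧ a % 8 = 7) ∨ (m % 4 = 3 ∧ a % 8 = 3))) ∨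
    (l % 2 = 0 ∧ b % 8 = 1 ∧ k % 2 = 1 ∧ ((m % 8 = 1 ∧ (a % 8 = 1 ∨ a % 8 = 7)) ∨
      (m % 8 = 3 ∧ (a % 8 = 7 ∨ a % 8 = 5)) ∨ (m % 8 = 5 ∧ (a % 8 = 5 ∨ a % 8 = 3)) ∨
      (m % 8 = 7 ∧ (a % 8 = 3 ∨ a % 8 = 1)))) ∨
    (l % 2 = 1 ∧ b % 8 = m % 8 ∧ k % 2 = 1 ∧ (a % 8 = m % 8 ∨ (m % 8 = 1 ∧ a % 8 = 7) ∨
      (m % 8 = 3 ∧ a % 8 = 1) ∨ (m % 8 = 5 ∧ a % 8 = 3) ∨ (m % 8 = 7 ∧ a % 8 = 5))) ∨
    (l % 2 = 1 ∧ b % 8 = m % 8 ∧ k % 2 = 0 ∧ (a % 8 = 7 ∨ (m % 8 = 1 ∧ a % 8 = 1) ∨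
      (m % 8 = 3 ∧ a % 8 = 5) ∨ (m % 8 = 5 ∧ a % 8 = 1) ∨ (m % 8 = 7 ∧ a % 8 = 5)))

/-- the case of an even twist -/
theorem core_even {m t a b c : ℤ} {k l j : ℕ} (hm : m % 2 = 1) (ha : a % 2 = 1) (hb : b % 2 = 1)
    (hc : c % 2 = 1) (ht : k ≠ 0 → t % 2 = 1)
    (hP : 2 ^ k * a + 2 * (m * t ^ 2) = 2 ^ l * b) (hQ : 2 ^ k * a - 32 * (m * t ^ 2) = 2 ^ j * c)
    (hkl : (k + l + j) % 2 = 0) (h : (a * b * c) % 8 = 1) : CE m a b k l := by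
  by_cases ht2 : t % 2 = 1
  · obtain ⟨s, hs⟩ := osq ht2
    have hz : m * t ^ 2 = m + 8 * (m * s) := by rw [hs]; ring
    rw [hz] at hP hQ
    generalize m * s = z at hP hQ
    clear hz hs ht ht2
    rcases k with _ | _ | _ | _ | _ | k
    · -- k = 0
      obtain ⟨h1, h2⟩ := uniq (k := 0) (x := a - 32 * (m + 8 * z)) (by omega) hc (by rw [← hQ]; ring)
      subst h1
      obtain ⟨h3, h4⟩ := uniq (k := 0) (x := a + 2 * (m + 8 * z)) (by omega) hb (by rw [← hP]; ring)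
      subst h3
      clear hP hQ
      have hb8 : b % 8 = 1 := trA h ha hb hc (by omega)
      refine Or.inl ⟨by omega, hb8, by omega, ?_⟩
      clear h
      rcases (by omega : m % 4 = 1 ∨ m % 4 = 3) with h6 | h6
      · right; left; exact ⟨h6, by omega⟩
      · right; right; exact ⟨h6, by omega⟩
    · -- k = 1
      obtain ⟨h1, h2⟩ := uniq (k := 1) (x := a - 16 * (m + 8 * z)) (by omega) hc (by rw [← hQ]; ring)
      subst h1
      clear hQ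
      have hb8 : b % 8 = 1 := trA h ha hb hc (by omega)
      have h5 : l % 2 = 0 ∧ ((a + m) % 8 = 2 ∨ (a + m) % 8 = 0) := by
        clear h
        rcases l with _ | _ | _ | _ | l
        · norm_num at hP; omega
        · norm_num at hP; omega
        · norm_num at hP; omega
        · norm_num at hP; omega
        · rw [pw4] at hP
          generalize (2 : ℤ) ^ l * b = y at hP
          norm_num at hP
          omega
      refine Or.inr (Or.inl ⟨by omega, hb8, by omega, ?_⟩)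
      clear hP h hkl h2
      rcases odd8 hm with h6 | h6 | h6 | h6
      · left; exact ⟨h6, by omega⟩
      · right; left; exact ⟨h6, by omega⟩
      · right; right; left; exact ⟨h6, by omega⟩
      · right; right; right; exact ⟨h6, by omega⟩
    · -- k = 2
      obtain ⟨h1, h2⟩ := uniq (k := 2) (x := a - 8 * (m + 8 * z)) (by omega) hc (by rw [← hQ]; ring)
      subst h1
      obtain ⟨h3, h4⟩ := uniq (k := 1) (x := 2 * a + (m + 8 * z)) (by omega) hb (by rw [← hP]; ring)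
      subst h3
      exfalso; clear hP hQ h h2 h4; omega
    · -- k = 3
      obtain ⟨h1, h2⟩ := uniq (k := 3) (x := a - 4 * (m + 8 * z)) (by omega) hc (by rw [← hQ]; ring)
      subst h1
      obtain ⟨h3, h4⟩ := uniq (k := 1) (x := 4 * a + (m + 8 * z)) (by omega) hb (by rw [← hP]; ring)
      subst h3
      exfalso; clear hP hQ h h2 h4; omega
    · -- k = 4
      obtain ⟨h1, h2⟩ := uniq (k := 4) (x := a - 2 * (m + 8 * z)) (by omega) hc (by rw [← hQ]; ring)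
      subst h1
      obtain ⟨h3, h4⟩ := uniq (k := 1) (x := 8 * a + (m + 8 * z)) (by omega) hb (by rw [← hP]; ring)
      subst h3
      exfalso; clear hP hQ h h2 h4; omega
    · -- k ≥ 5
      rw [pw5] at hP hQ
      obtain ⟨h3, h4⟩ := uniq (k := 1) (x := 16 * (2 ^ k * a) + (m + 8 * z)) (by omega) hb
        (by rw [← hP]; ring)
      subst h3
      have h7 : b % 8 = m % 8 := by
        clear hP hQ h
        generalize (2 : ℤ) ^ k * a = y at h4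
        omega
      clear hP
      rcases k with _ | k
      · refine Or.inr (Or.inr (Or.inl ⟨by omega, h7, by omega, ?_⟩))
        norm_num at hQ h4
        have h8 : (a - m) % 8 = 0 ∨ (a - m - 2 * c) % 8 = 0 := by
          clear h
          rcases j with _ | _ | _ | _ | _ | _ | _ | _ | j
          · norm_num at hQ; omega
          · norm_num at hQ; omega
          · norm_num at hQ; omega
          · norm_num at hQ; omega
          · norm_num at hQ; omega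
          · norm_num at hQ; omega
          · norm_num at hQ; omega
          · norm_num at hQ; omega
          · rw [pw8] at hQ
            generalize (2 : ℤ) ^ j * c = y at hQ
            norm_num at hQ
            omega
        clear hQ h4 hkl
        rcases h8 with h8 | h8
        · left; clear h; omega
        · right
          have hT := tri ha hb hc h
          clear h ha hb hc
          rcases odd8 hm with h6 | h6 | h6 | h6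
          · left; refine ⟨h6, ?_⟩; rcases hT with ⟨x1, x2, x3⟩ | ⟨x1, x2, x3⟩ | ⟨x1, x2, x3⟩ | ⟨x1, x2, x3⟩ | ⟨x1, x2, x3⟩ | ⟨x1, x2, x3⟩ | ⟨x1, x2, x3⟩ | ⟨x1, x2, x3⟩ | ⟨x1, x2, x3⟩ | ⟨x1, x2, x3⟩ | ⟨x1, x2, x3⟩ | ⟨x1, x2, x3⟩ | ⟨x1, x2, x3⟩ | ⟨x1, x2, x3⟩ | ⟨x1, x2, x3⟩ | ⟨x1, x2, x3⟩ <;> omega
          · right; left; refine ⟨h6, ?_⟩; rcases hT with ⟨x1, x2, x3⟩ | ⟨x1, x2, x3⟩ | ⟨x1, x2, x3⟩ | ⟨x1, x2, x3⟩ | ⟨x1, x2, x3⟩ | ⟨x1, x2, x3⟩ | ⟨x1, x2, x3⟩ | ⟨x1, x2, x3⟩ | ⟨x1, x2, x3⟩ | ⟨x1, x2, x3⟩ | ⟨x1, x2, x3⟩ | ⟨x1, x2, x3⟩ | ⟨x1, x2, x3⟩ | ⟨x1, x2, x3⟩ | ⟨x1, x2, x3⟩ | ⟨x1, x2, x3⟩ <;> omega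
          · right; right; left; refine ⟨h6, ?_⟩; rcases hT with ⟨x1, x2, x3⟩ | ⟨x1, x2, x3⟩ | ⟨x1, x2, x3⟩ | ⟨x1, x2, x3⟩ | ⟨x1, x2, x3⟩ | ⟨x1, x2, x3⟩ | ⟨x1, x2, x3⟩ | ⟨x1, x2, x3⟩ | ⟨x1, x2, x3⟩ | ⟨x1, x2, x3⟩ | ⟨x1, x2, x3⟩ | ⟨x1, x2, x3⟩ | ⟨x1, x2, x3⟩ | ⟨x1, x2, x3⟩ | ⟨x1, x2, x3⟩ | ⟨x1, x2, x3⟩ <;> omega
          · right; right; right; refine ⟨h6, ?_⟩; rcases hT with ⟨x1, x2, x3⟩ | ⟨x1, x2, x3⟩ | ⟨x1, x2, x3⟩ | ⟨x1, x2, x3⟩ | ⟨x1, x2, x3⟩ | ⟨x1, x2, x3⟩ | ⟨x1, x2, x3⟩ | ⟨x1, x2, x3⟩ | ⟨x1, x2, x3⟩ | ⟨x1, x2, x3⟩ | ⟨x1, x2, x3⟩ | ⟨x1, x2, x3⟩ | ⟨x1, x2, x3⟩ | ⟨x1, x2, x3⟩ | ⟨x1, x2, x3⟩ | ⟨x1, x2, x3⟩ <;> omega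
      · rw [pw1] at hQ h4
        obtain ⟨h1, h2⟩ := uniq (k := 5) (x := 2 * (2 ^ k * a) - (m + 8 * z)) (by omega) hc
          (by rw [← hQ]; ring)
        subst h1
        clear hQ h4
        refine Or.inr (Or.inr (Or.inr ⟨by omega, h7, by omega, ?_⟩))
        rcases k with _ | _ | k
        · norm_num at h2
          right
          have hT := tri ha hb hc h
          clear h ha hb hc
          rcases odd8 hm with h6 | h6 | h6 | h6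
          · left; refine ⟨h6, ?_⟩; rcases hT with ⟨x1, x2, x3⟩ | ⟨x1, x2, x3⟩ | ⟨x1, x2, x3⟩ | ⟨x1, x2, x3⟩ | ⟨x1, x2, x3⟩ | ⟨x1, x2, x3⟩ | ⟨x1, x2, x3⟩ | ⟨x1, x2, x3⟩ | ⟨x1, x2, x3⟩ | ⟨x1, x2, x3⟩ | ⟨x1, x2, x3⟩ | ⟨x1, x2, x3⟩ | ⟨x1, x2, x3⟩ | ⟨x1, x2, x3⟩ | ⟨x1, x2, x3⟩ | ⟨x1, x2, x3⟩ <;> omega
          · right; left; refine ⟨h6, ?_⟩; rcases hT with ⟨x1, x2, x3⟩ | ⟨x1, x2, x3⟩ | ⟨x1, x2, x3⟩ | ⟨x1, x2, x3⟩ | ⟨x1, x2, x3⟩ | ⟨x1, x2, x3⟩ | ⟨x1, x2, x3⟩ | ⟨x1, x2, x3⟩ | ⟨x1, x2, x3⟩ | ⟨x1, x2, x3⟩ | ⟨x1, x2, x3⟩ | ⟨x1, x2, x3⟩ | ⟨x1, x2, x3⟩ | ⟨x1, x2, x3⟩ | ⟨x1, x2, x3⟩ | ⟨x1, x2, x3⟩ <;> omega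
          · right; right; left; refine ⟨h6, ?_⟩; rcases hT with ⟨x1, x2, x3⟩ | ⟨x1, x2, x3⟩ | ⟨x1, x2, x3⟩ | ⟨x1, x2, x3⟩ | ⟨x1, x2, x3⟩ | ⟨x1, x2, x3⟩ | ⟨x1, x2, x3⟩ | ⟨x1, x2, x3⟩ | ⟨x1, x2, x3⟩ | ⟨x1, x2, x3⟩ | ⟨x1, x2, x3⟩ | ⟨x1, x2, x3⟩ | ⟨x1, x2, x3⟩ | ⟨x1, x2, x3⟩ | ⟨x1, x2, x3⟩ | ⟨x1, x2, x3⟩ <;> omega
          · right; right; right; refine ⟨h6, ?_⟩; rcases hT with ⟨x1, x2, x3⟩ | ⟨x1, x2, x3⟩ | ⟨x1, x2, x3⟩ | ⟨x1, x2, x3⟩ | ⟨x1, x2, x3⟩ | ⟨x1, x2, x3⟩ | ⟨x1, x2, x3⟩ | ⟨x1, x2, x3⟩ | ⟨x1, x2, x3⟩ | ⟨x1, x2, x3⟩ | ⟨x1, x2, x3⟩ | ⟨x1, x2, x3⟩ | ⟨x1, x2, x3⟩ | ⟨x1, x2, x3⟩ | ⟨x1, x2, x3⟩ | ⟨x1, x2, x3⟩ <;> omega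
        · exfalso; clear h h2; omega
        · rw [pw2] at h2
          generalize (2 : ℤ) ^ k * a = y at h2
          left
          have hT := tri ha hb hc h
          clear h ha hb hc
          rcases hT with ⟨x1, x2, x3⟩ | ⟨x1, x2, x3⟩ | ⟨x1, x2, x3⟩ | ⟨x1, x2, x3⟩ | ⟨x1, x2, x3⟩ | ⟨x1, x2, x3⟩ | ⟨x1, x2, x3⟩ | ⟨x1, x2, x3⟩ | ⟨x1, x2, x3⟩ | ⟨x1, x2, x3⟩ | ⟨x1, x2, x3⟩ | ⟨x1, x2, x3⟩ | ⟨x1, x2, x3⟩ | ⟨x1, x2, x3⟩ | ⟨x1, x2, x3⟩ | ⟨x1, x2, x3⟩ <;> omega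
  · have hk : k = 0 := by
      by_contra hk
      exact ht2 (ht hk)
    subst hk
    obtain ⟨q, hq⟩ : ∃ q, t = 2 * q := ⟨t / 2, by omega⟩
    subst hq
    have hz : m * (2 * q) ^ 2 = 4 * (m * q ^ 2) := by ring
    rw [hz] at hP hQ
    obtain ⟨h1, h2⟩ := uniq (k := 0) (x := a - 128 * (m * q ^ 2)) (by omega) hc
      (by rw [← hQ]; ring)
    subst h1
    obtain ⟨h3, h4⟩ := uniq (k := 0) (x := a + 8 * (m * q ^ 2)) (by omega) hb
      (by rw [← hP]; ring)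
    subst h3
    clear hP hQ hz ht ht2
    generalize m * q ^ 2 = z at h2 h4
    have hb8 : b % 8 = 1 := trA h ha hb hc (by omega)
    exact Or.inl ⟨by omega, hb8, by omega, Or.inl (by clear h; omega)⟩

theorem sqodd {x y : ℤ} (h : x % 8 = y % 8) (hy : y % 2 = 1) : (x * y) % 8 = 1 := by
  rcases odd8 hy with h1 | h1 | h1 | h1 <;> rw [h1] at h <;> simp [Int.mul_emod, h, h1]

def f4 (x : ℤ) : ZMod 2 := if x % 4 = 3 then 1 else 0
def f8 (x : ℤ) : ZMod 2 := if x % 8 = 1 ∨ x % 8 = 7 then 0 else 1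

theorem f4_congr {x y : ℤ} (h : x % 8 = y % 8) : f4 x = f4 y := by
  unfold f4
  have : x % 4 = y % 4 := by omega
  rw [this]

theorem f8_congr {x y : ℤ} (h : x % 8 = y % 8) : f8 x = f8 y := by
  unfold f8
  rw [h]

theorem h2_val {u m a n : ℤ} {k : ℕ} (hu1 : (2 : ℤ) ∣ u ↔ k % 2 = 1) (hu2 : up 2 u % 8 = a % 8)
    (hm : up 2 m = n) : h2 u m = f4 a * f4 n + (if k % 2 = 1 then 1 else 0) * f8 n +
      (if (2 : ℤ) ∣ m then 1 else 0) * f8 a := by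
  have e1 : e4 u = f4 a := f4_congr hu2
  have e2 : e8 u = f8 a := f8_congr hu2
  have e3 : e4 m = f4 n := by rw [← hm]; rfl
  have e4' : e8 m = f8 n := by rw [← hm]; rfl
  have e5 : ind 2 u = if k % 2 = 1 then 1 else 0 := by
    unfold ind
    push_cast
    by_cases h : (2 : ℤ) ∣ u
    · rw [if_pos h, if_pos (hu1.1 h)]
    · rw [if_neg h, if_neg (fun h' => h (hu1.2 h'))]
  have e6 : ind 2 m = if (2 : ℤ) ∣ m then 1 else 0 := by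
    unfold ind; push_cast; rfl
  unfold h2
  rw [e1, e2, e3, e4', e5, e6]

theorem f4_1 {x : ℤ} (h : x % 4 = 1) : f4 x = 0 := by unfold f4; rw [if_neg (by omega)]
theorem f4_3 {x : ℤ} (h : x % 4 = 3) : f4 x = 1 := by unfold f4; rw [if_pos h]
theorem f8_1 {x : ℤ} (h : x % 8 = 1 ∨ x % 8 = 7) : f8 x = 0 := by unfold f8; rw [if_pos h]
theorem f8_3 {x : ℤ} (h : x % 8 = 3 ∨ x % 8 = 5) : f8 x = 1 := by unfold f8; rw [if_neg (by omega)]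

theorem fin_odd {m a b : ℤ} {k l : ℕ} (C : CO m a b k l) (h4 : m % 4 = 3) :
    f4 a * f4 m + (if k % 2 = 1 then 1 else 0) * f8 m + 0 * f8 a = f4 b := by
  rcases C with C | C | C | C | C
  · omega
  · obtain ⟨-, -, h1, h2, h3⟩ := C
    rw [if_neg (by omega), f4_1 h3, f4_1 (x := b) (by omega)]
    ring
  · obtain ⟨-, -, h1, h2, h3⟩ := C
    rw [if_pos h2, f4_3 h4, f4_1 (x := b) (by omega)]
    rcases h3 with ⟨h5, h6⟩ | ⟨h5, h6⟩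
    · rw [f4_3 h6, f8_3 (Or.inl h5)]; ring_nf; decide
    · rw [f4_1 h6, f8_1 (Or.inr h5)]; ring
  · obtain ⟨-, -, h1, h2, h3⟩ := C
    rw [if_neg (by omega), f4_3 h3, f4_3 h4, f4_3 (x := b) (by omega)]
    ring
  · obtain ⟨-, -, h1, h2, h3⟩ := C
    rw [if_pos h2, f4_3 h4, f4_3 (x := b) (by omega)]
    rcases h3 with ⟨h5, h6⟩ | ⟨h5, h6⟩
    · rw [f4_1 h6, f8_3 (Or.inl h5)]; ring
    · rw [f4_3 h6, f8_1 (Or.inr h5)]; ring

theorem fin_even {m a b : ℤ} {k l : ℕ} (hm : m % 2 = 1) (C : CE m a b k l) :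
    f4 a * f4 m + (if k % 2 = 1 then 1 else 0) * f8 m + 1 * f8 a = f4 b := by
  rcases C with C | C | C | C
  · obtain ⟨-, h1, h2, h3⟩ := C
    rw [if_neg (by omega), f4_1 (x := b) (by omega)]
    rcases h3 with h3 | ⟨h4, h3⟩ | ⟨h4, h3⟩
    · rw [f4_1 (x := a) (by omega), f8_1 (x := a) (Or.inl h3)]; ring
    · rw [f4_1 (x := m) h4, f8_1 (x := a) (Or.inr h3)]; ring
    · rw [f4_3 (x := m) h4, f4_3 (x := a) (by omega), f8_3 (x := a) (Or.inl h3)]; ring_nf; decide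
  · obtain ⟨-, h1, h2, h3⟩ := C
    rw [if_pos h2, f4_1 (x := b) (by omega)]
    rcases h3 with ⟨h4, h3 | h3⟩ | ⟨h4, h3 | h3⟩ | ⟨h4, h3 | h3⟩ | ⟨h4, h3 | h3⟩
    · rw [f4_1 (x := m) (by omega), f8_1 (x := m) (by omega), f8_1 (x := a) (by omega)]; ring
    · rw [f4_1 (x := m) (by omega), f8_1 (x := m) (by omega), f8_1 (x := a) (by omega)]; ring
    · rw [f4_3 (x := m) (by omega), f8_3 (x := m) (by omega), f8_1 (x := a) (by omega),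
        f4_3 (x := a) (by omega)]; ring_nf; decide
    · rw [f4_3 (x := m) (by omega), f8_3 (x := m) (by omega), f8_3 (x := a) (by omega),
        f4_1 (x := a) (by omega)]; ring_nf; decide
    · rw [f4_1 (x := m) (by omega), f8_3 (x := m) (by omega), f8_3 (x := a) (by omega)]
      ring_nf; decide
    · rw [f4_1 (x := m) (by omega), f8_3 (x := m) (by omega), f8_3 (x := a) (by omega)]
      ring_nf; decide
    · rw [f4_3 (x := m) (by omega), f8_1 (x := m) (by omega), f8_3 (x := a) (by omega),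
        f4_3 (x := a) (by omega)]; ring_nf; decide
    · rw [f4_3 (x := m) (by omega), f8_1 (x := m) (by omega), f8_1 (x := a) (by omega),
        f4_1 (x := a) (by omega)]; ring
  · obtain ⟨-, h1, h2, h3⟩ := C
    rw [if_pos h2, f4_congr h1]
    rcases h3 with h3 | ⟨h4, h3⟩ | ⟨h4, h3⟩ | ⟨h4, h3⟩ | ⟨h4, h3⟩
    · rw [f4_congr h3, f8_congr h3]
      generalize f8 m = x
      generalize f4 m = y
      revert x y
      decide
    · rw [f4_1 (x := m) (by omega), f8_1 (x := m) (by omega), f8_1 (x := a) (by omega)]; ring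
    · rw [f4_3 (x := m) (by omega), f8_3 (x := m) (by omega), f8_1 (x := a) (by omega),
        f4_1 (x := a) (by omega)]; ring
    · rw [f4_1 (x := m) (by omega), f8_3 (x := m) (by omega), f8_3 (x := a) (by omega)]
      ring_nf; decide
    · rw [f4_3 (x := m) (by omega), f8_1 (x := m) (by omega), f8_3 (x := a) (by omega),
        f4_1 (x := a) (by omega)]; ring
  · obtain ⟨-, h1, h2, h3⟩ := C
    rw [if_neg (by omega), f4_congr h1]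
    rcases h3 with h3 | ⟨h4, h3⟩ | ⟨h4, h3⟩ | ⟨h4, h3⟩ | ⟨h4, h3⟩
    · rw [f4_3 (x := a) (by omega), f8_1 (x := a) (by omega)]; ring
    · rw [f4_1 (x := m) (by omega), f8_1 (x := a) (by omega)]; ring
    · rw [f4_3 (x := m) (by omega), f8_3 (x := a) (by omega), f4_1 (x := a) (by omega)]; ring
    · rw [f4_1 (x := m) (by omega), f8_1 (x := a) (by omega)]; ring
    · rw [f4_3 (x := m) (by omega), f8_3 (x := a) (by omega), f4_1 (x := a) (by omega)]; ring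

theorem t_NEC2 : S_NEC2 := by
  intro _ m u v hm hu hv hLS
  obtain ⟨x, y, hy, hxy, hxu, hxv⟩ := hLS
  obtain ⟨r, t, hrt, hr0, hP0, hQ0, h1, h2, h3⟩ := appr m (-16 * m) hy hxy
  have g1 := h1 u hxu
  have g2 := h2 v hxv
  clear h1 h2 hxu hxv
  obtain ⟨k, a, ek, ha⟩ := dec2 hr0
  obtain ⟨l, b, el, hb⟩ := dec2 hP0
  obtain ⟨j, c, ej, hc⟩ := dec2 hQ0
  obtain ⟨hu1, hu2⟩ := cls ek ha hu g1
  obtain ⟨hv1, hv2⟩ := cls el hb hv g2
  -- the product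
  have hprod : (k + l + j) % 2 = 0 ∧ (a * b * c) % 8 = 1 := by
    obtain ⟨n, w, e, hw⟩ := sq2_dec (mul_ne_zero (mul_ne_zero hr0 hP0) hQ0) h3
    have habc : (a * b * c) % 2 = 1 := by
      rw [Int.mul_emod, Int.mul_emod a b, ha, hb, hc]; norm_num
    have e2 : (2 : ℤ) ^ (k + l + j) * (a * b * c) = 2 ^ (2 * n) * w := by
      rw [← e, el, ej, ek]; ring
    obtain ⟨h4, h5⟩ := uniq habc (by omega) e2
    exact ⟨by omega, by rw [h5]; exact hw⟩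
  obtain ⟨hkl, habc⟩ := hprod
  have ht : k ≠ 0 → t % 2 = 1 := by
    intro hk
    by_contra ht2
    have h2t : (2 : ℤ) ∣ t := by omega
    have h2r : (2 : ℤ) ∣ r := by
      rw [ek]
      exact Dvd.dvd.mul_right (dvd_pow_self 2 hk) a
    have := hrt.isUnit_of_dvd' h2r h2t
    rw [Int.isUnit_iff] at this
    omega
  by_cases hm2 : m % 2 = 1
  · have hupm : up 2 m = m := by
      unfold up
      rw [if_neg (by push_cast; omega)]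
    have C := core_odd (m := m) (t := t) hm2 ha hb hc ht (by rw [← el, ek])
      (by rw [← ej, ek]; ring) hkl habc
    clear hrt hr0 hP0 hQ0 ek el ej g1 g2 h3 ht hxy hkl habc
    have hum : up 2 v % 8 = m % 8 → (up 2 v * up 2 m) % 8 = 1 := by
      intro h; rw [hupm]; exact sqodd h hm2
    refine ⟨fun h4 => ?_, fun h4 => ⟨?_, ?_⟩⟩
    · rcases C with C | C | C | C | C
      · obtain ⟨-, h5, h6, h7⟩ := C
        have h8 : ¬ (2 : ℤ) ∣ v := by rw [hv1]; omega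
        have h9 : up 2 v = v := by unfold up; rw [if_neg (by exact_mod_cast h8)]
        rw [h9] at hv2
        exact ⟨by rw [hu1]; omega, by omega⟩
      all_goals (exfalso; have := C.1; omega)
    · rcases C with C | C | C | C | C
      · exfalso; exact h4 C.1
      · left; exact ⟨by rw [hv2]; exact C.2.2.1, by rw [hv1]; have := C.2.1; omega⟩
      · left; exact ⟨by rw [hv2]; exact C.2.2.1, by rw [hv1]; have := C.2.1; omega⟩
      · right; refine ⟨by rw [hv1]; have := C.2.1; omega, hum (by rw [hv2]; exact C.2.2.1)⟩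
      · right; refine ⟨by rw [hv1]; have := C.2.1; omega, hum (by rw [hv2]; exact C.2.2.1)⟩
    · rw [h2_val hu1 hu2 hupm, if_neg (show ¬ (2 : ℤ) ∣ m by omega)]
      rw [fin_odd C (by omega)]
      exact (f4_congr hv2).symm
  · obtain ⟨μ, hμ⟩ : ∃ μ, m = 2 * μ := ⟨m / 2, by omega⟩
    have hμ2 : μ % 2 = 1 := by
      by_contra hcc
      have : (2 : ℤ) * 2 ∣ m := by
        rw [hμ]; exact mul_dvd_mul_left 2 (by omega)
      have := hm 2 this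
      rw [Int.isUnit_iff] at this
      omega
    have hupm : up 2 m = μ := by
      unfold up
      rw [if_pos (by push_cast; omega)]
      push_cast
      omega
    have C := core_even (m := μ) (t := t) hμ2 ha hb hc ht (by rw [← el, ek, hμ]; ring)
      (by rw [← ej, ek, hμ]; ring) hkl habc
    clear hrt hr0 hP0 hQ0 ek el ej g1 g2 h3 ht hxy hkl habc
    have hum : up 2 v % 8 = μ % 8 → (up 2 v * up 2 m) % 8 = 1 := by
      intro h; rw [hupm]; exact sqodd h hμ2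
    refine ⟨fun h4 => by omega, fun _ => ⟨?_, ?_⟩⟩
    · rcases C with C | C | C | C
      · left; exact ⟨by rw [hv2]; exact C.2.1, by rw [hv1]; have := C.1; omega⟩
      · left; exact ⟨by rw [hv2]; exact C.2.1, by rw [hv1]; have := C.1; omega⟩
      · right
        refine ⟨⟨fun _ => by omega, fun _ => hv1.2 C.1⟩, hum (by rw [hv2]; exact C.2.1)⟩
      · right
        refine ⟨⟨fun _ => by omega, fun _ => hv1.2 C.1⟩, hum (by rw [hv2]; exact C.2.1)⟩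
    · rw [h2_val hu1 hu2 hupm, if_pos (show (2 : ℤ) ∣ m by omega)]
      rw [fin_even hμ2 C]
      exact (f4_congr hv2).symm

end Pool.Agent.H743.X17.QNEC2
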