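import Pool.Agent.H743.X17.Den
import Pool.Agent.H743.X17.NEC2

/-!
# The final statements
-/

set_option autoImplicit false

open scoped Classical

namespace Pool.Agent.H743.X17

theorem parts : Parts := parts' QNEC2.t_NEC2

/-- the order of a finite commutative group without elements of order two is odd -/
theorem odd_card {G : Type} [AddCommGroup G] [Finite G] (h : ∀ x : G, x + x = 0 → x = 0) :
    Odd (Nat.card G) := by
  rw [← Nat.not_even_iff_odd]
  intro he
  haveI := Fintype.ofFinite G
  haveI : Fact (Nat.Prime 2) := ⟨Nat.prime_two⟩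
  rw [Nat.card_eq_fintype_card] at he
  obtain ⟨x, hx⟩ := exists_prime_addOrderOf_dvd_card 2 he.two_dvd
  have h1 : x + x = 0 := by
    rw [← two_nsmul, ← hx]
    exact addOrderOf_nsmul_eq_zero x
  rw [h x h1, addOrderOf_zero] at hx
  norm_num at hx

end Pool.Agent.H743.X17
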