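import Pool.Agent.H743.X17.TwL
import Pool.Graph.R_pool_sql_team_seeded_63374d34.N855.GF.Ord

/-!
# The twists `y² = x³ - 7371 (g² m)² x - 240570 (g² m)³`, and the counts for `|d| < X`, `X` real
-/

set_option autoImplicit false
set_option linter.all false

open scoped Classical

namespace Pool.Agent.H743.X17

open WeierstrassCurve Finset Filter Topology
open Pool.Agent.Y700 (VR IsL Omega)
open Pool.Agent.N919.BS (NS)
open Pool.Agent.N855.GF.Tw (tw split tw_eq tw_sqf)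

/-- the short equation -/
def SH (a b : ℤ) : WeierstrassCurve ℚ := ⟨0, 0, 0, (a : ℚ), (b : ℚ)⟩

theorem vr_sh {m : ℤ} {g : ℕ} (hg : g ≠ 0) {a b : ℤ} (ha : a = -7371 * ((g : ℤ) ^ 2 * m) ^ 2)
    (hb : b = -240570 * ((g : ℤ) ^ 2 * m) ^ 3) :
    VR (SH a b) (EAB m (-16 * m)) (3 * g) (-45 * g ^ 2 * m) 0 0 := by
  have hg0 : (g : ℚ) ≠ 0 := by exact_mod_cast hg
  refine ⟨by positivity, ?_, ?_, ?_, ?_, ?_⟩
  · simp [SH, EAB]
  · simp [SH, EAB]; ring
  · simp [SH, EAB]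
  · simp [SH, EAB, ha]; ring
  · simp [SH, EAB, ha, hb]; ring

theorem vr_sh' {m : ℤ} {g : ℕ} (hg : g ≠ 0) {a b : ℤ} (ha : a = -7371 * ((g : ℤ) ^ 2 * m) ^ 2)
    (hb : b = -240570 * ((g : ℤ) ^ 2 * m) ^ 3) :
    VR (EAB m (-16 * m)) (SH a b) (1 / (3 * g)) (5 * m) 0 0 := by
  have hg0 : (g : ℚ) ≠ 0 := by exact_mod_cast hg
  refine ⟨by positivity, ?_, ?_, ?_, ?_, ?_⟩
  · simp [SH, EAB]
  · simp [SH, EAB]; ring
  · simp [SH, EAB]
  · simp [SH, EAB, ha]; field_simp; ring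
  · simp [SH, EAB, ha, hb]; field_simp; ring

theorem finSha_sh (h : Parts) {m : ℤ} (hm : Squarefree m) {g : ℕ} (hg : g ≠ 0) {a b : ℤ}
    (ha : a = -7371 * ((g : ℤ) ^ 2 * m) ^ 2) (hb : b = -240570 * ((g : ℤ) ^ 2 * m) ^ 3) :
    FinSha (SH a b) ↔ Sys m := by
  have v := vr_sh' hg ha hb
  have v' := vr_sh hg ha hb
  have hD := delta_EAB hm.ne_zero
  have hD' : (SH a b).Δ ≠ 0 := v'.delta_ne hD
  rw [finSha_iff' v v' hD hD']
  exact sha_iff h hm

/-- the change of variables to the minimal equation -/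
theorem change {m : ℤ} {g : ℕ} (hg : g ≠ 0) {a b : ℤ} (ha : a = -7371 * ((g : ℤ) ^ 2 * m) ^ 2)
    (hb : b = -240570 * ((g : ℤ) ^ 2 * m) ^ 3) :
    ∃ C : WeierstrassCurve.VariableChange ℚ, C • SH a b = EM m := by
  have hg0 : (g : ℚ) ≠ 0 := by exact_mod_cast hg
  have e1 : (a : ℚ) = -7371 * ((g : ℚ) ^ 2 * m) ^ 2 := by rw [ha]; push_cast; ring
  have e2 : (b : ℚ) = -240570 * ((g : ℚ) ^ 2 * m) ^ 3 := by rw [hb]; push_cast; ring
  by_cases h4 : m % 4 = 1
  · have hg' : (6 * (g : ℚ)) ≠ 0 := by positivity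
    refine ⟨⟨Units.mk0 (6 * (g : ℚ)) hg', -45 * g ^ 2 * m, 3 * g, 0⟩, ?_⟩
    have hu : (((Units.mk0 (6 * (g : ℚ)) hg')⁻¹ : ℚˣ) : ℚ) = (6 * (g : ℚ))⁻¹ := by
      rw [Units.val_inv_eq_inv_val, Units.val_mk0]
    have e : (((-((15 * m + 1) / 4) : ℤ)) : ℚ) = -(15 * m + 1) / 4 := by
      obtain ⟨k, hk⟩ : ∃ k, 15 * m + 1 = 4 * k := ⟨(15 * m + 1) / 4, by omega⟩
      have e1 : (15 * m + 1) / 4 = k := by omega
      have e2 : (15 * m + 1 : ℚ) = 4 * k := by exact_mod_cast hk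
      rw [e1]
      push_cast
      linear_combination (1 / 4) * e2
    have a1 : (EM m).a₁ = 1 := by simp [EM, WM, h4, W1]
    have a2 : (EM m).a₂ = -(15 * m + 1) / 4 := by
      rw [← e]
      simp [EM, WM, h4, W1]
    have a3 : (EM m).a₃ = 0 := by simp [EM, WM, h4, W1]
    have a4 : (EM m).a₄ = -(m : ℚ) ^ 2 := by simp [EM, WM, h4, W1]
    have a6 : (EM m).a₆ = 0 := by simp [EM, WM, h4, W1]
    ext
    · rw [WeierstrassCurve.variableChange_a₁, a1, hu]
      simp only [SH]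
      field_simp
      ring
    · rw [WeierstrassCurve.variableChange_a₂, a2, hu]
      simp only [SH]
      field_simp
      ring
    · rw [WeierstrassCurve.variableChange_a₃, a3, hu]
      simp only [SH]
      field_simp
      ring
    · rw [WeierstrassCurve.variableChange_a₄, a4, hu]
      simp only [SH, e1]
      field_simp
      ring
    · rw [WeierstrassCurve.variableChange_a₆, a6, hu]
      simp only [SH, e1, e2]
      field_simp
      ring
  · rw [EM2 h4]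
    have hg' : (3 * (g : ℚ)) ≠ 0 := by positivity
    refine ⟨⟨Units.mk0 (3 * (g : ℚ)) hg', -45 * g ^ 2 * m, 0, 0⟩, ?_⟩
    have hu : (((Units.mk0 (3 * (g : ℚ)) hg')⁻¹ : ℚˣ) : ℚ) = (3 * (g : ℚ))⁻¹ := by
      rw [Units.val_inv_eq_inv_val, Units.val_mk0]
    ext
    · rw [WeierstrassCurve.variableChange_a₁, hu]
      simp only [SH, EAB]
      field_simp
      try ring
    · rw [WeierstrassCurve.variableChange_a₂, hu]
      simp only [SH, EAB]
      push_cast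
      field_simp
      ring
    · rw [WeierstrassCurve.variableChange_a₃, hu]
      simp only [SH, EAB]
      field_simp
      try ring
    · rw [WeierstrassCurve.variableChange_a₄, hu]
      simp only [SH, EAB, e1]
      push_cast
      field_simp
      ring
    · rw [WeierstrassCurve.variableChange_a₆, hu]
      simp only [SH, EAB, e1, e2]
      field_simp
      ring

/-- `e d = g² m` -/
theorem tw_spec {e d : ℤ} (he : Squarefree e) (hd : Squarefree d) :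
    ∃ g : ℕ, g ≠ 0 ∧ e * d = (g : ℤ) ^ 2 * tw e d := by
  obtain ⟨g, e', d', hg, h3, h4, h5, -⟩ := split he hd
  refine ⟨g, hg.ne', ?_⟩
  rw [tw_eq hg h3 h4 h5, h4, h5]
  ring

/-! ### real bounds -/

/-- the number of the squarefree integers with `|d| < X` and the property `P` -/
noncomputable def Nr (P : ℤ → Prop) (X : ℝ) : ℕ := {d : ℤ | Squarefree d ∧ |(d : ℝ)| < X ∧ P d}.ncard

theorem Nr_eq (P : ℤ → Prop) {X : ℝ} (hX : 0 < X) : Nr P X = num P (⌈X⌉₊ - 1) := by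
  have hY0 : 0 < ⌈X⌉₊ := Nat.ceil_pos.2 hX
  unfold Nr num
  rw [← Set.ncard_coe_finset]
  congr 1
  ext d
  rw [Set.mem_setOf_eq, Pool.Agent.N855.GF.Ord.abs_lt_iff, Finset.mem_coe, mem_filter, mem_Icc]
  constructor
  · rintro ⟨h1, h2, h3⟩
    exact ⟨by omega, h1, h3⟩
  · rintro ⟨h1, h2, h3⟩
    exact ⟨h2, by omega, h3⟩

theorem lim_Nr {P R : ℤ → Prop} {c : ℝ}
    (h : Tendsto (fun X : ℕ => (num P X : ℝ) / (num R X : ℝ)) atTop (𝓝 c)) :
    Tendsto (fun X : ℝ => (Nr P X : ℝ) / (Nr R X : ℝ)) atTop (𝓝 c) := by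
  refine (h.comp Pool.Agent.N855.GF.Ord.ceil_lim).congr' ?_
  filter_upwards [eventually_gt_atTop 0] with X hX
  simp only [Function.comp_apply]
  rw [Nr_eq P hX, Nr_eq R hX]

theorem Nr_mono {P Q : ℤ → Prop} (h : ∀ d, Squarefree d → P d → Q d) (X : ℝ) : Nr P X ≤ Nr Q X :=
  Pool.Agent.N855.GF.Ord.Ng_mono h X

theorem liminf_Nr {P Q R : ℤ → Prop} {c : ℝ} (hPQ : ∀ d, Squarefree d → P d → Q d)
    (hQR : ∀ d, Squarefree d → Q d → R d)
    (h : Tendsto (fun X : ℝ => (Nr P X : ℝ) / (Nr R X : ℝ)) atTop (𝓝 c)) :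
    c ≤ liminf (fun X : ℝ => (Nr Q X : ℝ) / (Nr R X : ℝ)) atTop := by
  rw [← h.liminf_eq]
  refine liminf_le_liminf (Eventually.of_forall fun X => ?_) ?_ ?_
  · exact div_le_div_of_nonneg_right (Nat.cast_le.2 (Nr_mono hPQ X)) (Nat.cast_nonneg _)
  · exact h.isBoundedUnder_ge
  · refine IsBoundedUnder.isCoboundedUnder_ge ?_
    refine ⟨1, ?_⟩
    rw [eventually_map]
    refine Eventually.of_forall fun X => ?_
    apply div_le_one_of_le₀
    · exact_mod_cast Nr_mono hQR X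
    · positivity

end Pool.Agent.H743.X17
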