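import Pool.Agent.H743.X17.IsoAsm

/-! # The discriminants of the curves isogenous to `E_m` -/

set_option autoImplicit false

namespace Pool.Agent.H743.X17.QADEL

open Pool.Agent.H743.X17

theorem isJ_WJ (j : Fin 3) (m : ℤ) : IsJ j (WJ j m) (DD m) := by
  unfold WJ DD
  split_ifs with h
  · obtain ⟨k, hk⟩ : ∃ k, be j * m - 1 = 4 * k := by
      fin_cases j
      · refine ⟨(33 * m - 1) / 4, ?_⟩
        show (33 : ℤ) * m - 1 = _
        omega
      · refine ⟨(9 * m - 1) / 4, ?_⟩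
        show (9 : ℤ) * m - 1 = _
        omega
      · refine ⟨(-63 * m - 1) / 4, ?_⟩
        show (-63 : ℤ) * m - 1 = _
        omega
    have e : (be j * m - 1) / 4 = k := by
      rw [hk]
      exact Int.mul_ediv_cancel_left _ (by norm_num)
    refine ⟨rfl, ?_, rfl, rfl⟩
    simp only [WeierstrassCurve.b₂, e]
    linarith
  · refine ⟨rfl, ?_, ?_, ?_⟩
    · simp only [WeierstrassCurve.b₂]
      ring
    · show 16 * ga j * m ^ 2 = ga j * (4 * m) ^ 2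
      ring
    · show 64 * de j * m ^ 3 = de j * (4 * m) ^ 3
      ring

/-- the factor of the discriminant -/
def dJ (j : Fin 3) : ℤ := match j with | 0 => -17 ^ 4 | 1 => 17 | 2 => 17

theorem isJ_Delta {j : Fin 3} {W : WeierstrassCurve ℤ} {N : ℤ} (h : IsJ j W N) :
    W.Δ = dJ j * N ^ 6 := by
  have h4 : W.b₄ = 2 * (ga j * N ^ 2) := by
    rw [WeierstrassCurve.b₄, h.a4, h.a3]
    ring
  have h6 : W.b₆ = 4 * (de j * N ^ 3) := by
    rw [WeierstrassCurve.b₆, h.a6, h.a3]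
    ring
  have h1 := W.c_relation
  rw [WeierstrassCurve.c₄, WeierstrassCurve.c₆, h.b2, h4, h6] at h1
  have h2 : (1728 : ℤ) * W.Δ = 1728 * (dJ j * N ^ 6) := by
    rw [h1]
    fin_cases j
    · show ((33 * N) ^ 2 - 24 * (2 * (22 * N ^ 2))) ^ 3 - (-(33 * N) ^ 3 +
        36 * (33 * N) * (2 * (22 * N ^ 2)) - 216 * (4 * (5 * N ^ 3))) ^ 2 =
        1728 * (-17 ^ 4 * N ^ 6)
      ring
    · show ((9 * N) ^ 2 - 24 * (2 * (1 * N ^ 2))) ^ 3 - (-(9 * N) ^ 3 +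
        36 * (9 * N) * (2 * (1 * N ^ 2)) - 216 * (4 * (0 * N ^ 3))) ^ 2 =
        1728 * (17 * N ^ 6)
      ring
    · show ((-63 * N) ^ 2 - 24 * (2 * (-8 * N ^ 2))) ^ 3 - (-(-63 * N) ^ 3 +
        36 * (-63 * N) * (2 * (-8 * N ^ 2)) - 216 * (4 * (-1 * N ^ 3))) ^ 2 =
        1728 * (17 * N ^ 6)
      ring
  exact mul_left_cancel₀ (by norm_num) h2

theorem dJ_dvd (j : Fin 3) {p : ℕ} (hp : p.Prime) :
    (p : ℤ) ∣ dJ j ↔ (p : ℤ) ∣ 17 := by
  have hpp : Prime (p : ℤ) := Nat.prime_iff_prime_int.1 hp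
  fin_cases j
  · show (p : ℤ) ∣ -17 ^ 4 ↔ (p : ℤ) ∣ 17
    rw [dvd_neg]
    exact ⟨fun h => hpp.dvd_of_dvd_pow h, fun h => dvd_pow h (by norm_num)⟩
  · exact Iff.rfl
  · exact Iff.rfl

theorem t_ADEL : S_ADEL := by
  intro j m
  have hJ := isJ_WJ j m
  refine ⟨hJ, fun hm => ⟨?_, ?_⟩⟩
  · rw [show (EJ j m).Δ = ((WJ j m).Δ : ℚ) by
      rw [show (EJ j m).Δ = Int.castRingHom ℚ (WJ j m).Δ from WeierstrassCurve.map_Δ _ _]
      rfl]
    rw [isJ_Delta hJ]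
    have hD : DD m ≠ 0 := by
      unfold DD
      split_ifs
      · exact hm
      · exact mul_ne_zero (by norm_num) hm
    have hd : dJ j ≠ 0 := by
      fin_cases j <;> (unfold dJ; norm_num)
    exact_mod_cast mul_ne_zero hd (pow_ne_zero 6 hD)
  · intro p hp
    have hpp : Prime (p : ℤ) := Nat.prime_iff_prime_int.1 hp
    rw [isJ_Delta hJ, isN.Delta, hpp.dvd_mul, hpp.dvd_mul, dJ_dvd j hp]
    have h17 : (p : ℤ) ∣ 17 ^ 2 ↔ (p : ℤ) ∣ 17 :=
      ⟨fun h => hpp.dvd_of_dvd_pow h, fun h => dvd_pow h (by norm_num)⟩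
    rw [h17]

end Pool.Agent.H743.X17.QADEL
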