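import Pool.Agent.H743.X17.IsoAsm

/-!
# I17-AISL: the L-functions of isogenous curves are equal
-/

set_option autoImplicit false
set_option linter.all false

open scoped Classical

namespace Pool.Agent.H743.X17.QAISL

open Pool.Agent.H743.X17
open Pool.Agent.Y700 (tam VR IsL Omega)

theorem t_AISL : S_AISL := by
  intro hap hdel j m f hm hf
  refine ⟨hf.1, fun s hs => ?_⟩
  have h := hf.2 s hs
  have e : (fun p : Nat.Primes => (1 - (Pool.Agent.W97.MT.ap (WJ j m) p : ℂ) * ((p : ℕ) : ℂ) ^ (-s) +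
      (if ((p : ℕ) : ℤ) ∣ (WJ j m).Δ then 0 else ((p : ℕ) : ℂ) ^ (1 - 2 * s)))⁻¹) =
      (fun p : Nat.Primes => (1 - (Pool.Agent.W97.MT.ap (WM m) p : ℂ) * ((p : ℕ) : ℂ) ^ (-s) +
      (if ((p : ℕ) : ℤ) ∣ (WM m).Δ then 0 else ((p : ℕ) : ℂ) ^ (1 - 2 * s)))⁻¹) := by
    funext p
    rw [hap j m hm p p.2]
    have h2 := ((hdel j m).2 hm.ne_zero).2 p p.2
    by_cases h3 : ((p : ℕ) : ℤ) ∣ (WM m).Δ
    · rw [if_pos h3, if_pos (h2.2 h3)]
    · rw [if_neg h3, if_neg (fun h4 => h3 (h2.1 h4))]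
  rw [e]
  exact h

end Pool.Agent.H743.X17.QAISL
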