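import Pool.Agent.H743.X17.IsoAsm
import Pool.Graph.R_pool_sql_team_seeded_620a6dc7.H487.K.S9

/-!
# I17-ASHA: the 2-primary part of Sha of the isogenous curves
-/

set_option autoImplicit false
set_option linter.all false

open scoped Classical

namespace Pool.Agent.H743.X17.QASHA

open Pool.Agent.H743.X17
open Pool.Agent.Y700 (tam VR IsL Omega)
open Pool.Agent.TH841.SH.D (Sha)

theorem pA_ne {j : Fin 3} {m : ℤ} (hm : m ≠ 0) : pA j m ≠ 0 := by
  unfold pA; fin_cases j <;> simp <;> omega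

theorem pB_ne {j : Fin 3} {m : ℤ} (hm : m ≠ 0) : pB j m ≠ 0 := by
  unfold pB; fin_cases j <;> simp <;> omega

theorem pAB_ne {j : Fin 3} {m : ℤ} (hm : m ≠ 0) : pA j m ≠ pB j m := by
  unfold pA pB; fin_cases j <;> simp <;> omega

theorem vr_ne {W W' : WeierstrassCurve ℚ} {u r s t : ℚ} (h : VR W W' u r s t) (hD : W.Δ ≠ 0) :
    W'.Δ ≠ 0 := by
  intro h0
  apply hD
  rw [h.delta, h0, mul_zero]

theorem uset (P : Parts) (h : IParts) (j : Fin 3) {m : ℤ} (hm : Squarefree m) (h1 : m ≠ 1)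
    (hS : Sys m) :
    {u : ℤ | Squarefree u ∧ ELU (pA j m) (pB j m) u}.Finite ∧
    {u : ℤ | Squarefree u ∧ ELU (pA j m) (pB j m) u}.ncard = 2 ^ eJ j m := by
  have hR : Rt m := ((sys_iff P hm).1 hS).1
  fin_cases j
  · have e : {u : ℤ | Squarefree u ∧ ELU (pA 0 m) (pB 0 m) u} = {u : ℤ | Squarefree u ∧ UC0 m u} := by
      ext u
      simp only [Set.mem_setOf_eq]
      exact and_congr_right fun hu => h.ul0 m u hm hu
    show {u : ℤ | Squarefree u ∧ ELU (pA 0 m) (pB 0 m) u}.Finite ∧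
      {u : ℤ | Squarefree u ∧ ELU (pA 0 m) (pB 0 m) u}.ncard = 2 ^ eJ 0 m
    rw [e]
    obtain ⟨a, b⟩ := h.ucnt0 m hm h1 hS hR
    refine ⟨a, b.trans ?_⟩
    unfold eJ
    simp only
    split_ifs <;> rfl
  · have e : {u : ℤ | Squarefree u ∧ ELU (pA 1 m) (pB 1 m) u} = {u : ℤ | Squarefree u ∧ UC1 m u} := by
      ext u
      simp only [Set.mem_setOf_eq]
      exact and_congr_right fun hu => h.ul1 m u hm hu
    show {u : ℤ | Squarefree u ∧ ELU (pA 1 m) (pB 1 m) u}.Finite ∧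
      {u : ℤ | Squarefree u ∧ ELU (pA 1 m) (pB 1 m) u}.ncard = 2 ^ eJ 1 m
    rw [e]
    obtain ⟨a, b⟩ := h.ucnt1 m hm h1 hS hR
    refine ⟨a, b.trans ?_⟩
    unfold eJ
    simp only
    split_ifs <;> rfl
  · have e : {u : ℤ | Squarefree u ∧ ELU (pA 2 m) (pB 2 m) u} = {u : ℤ | Squarefree u ∧ UC2 m u} := by
      ext u
      simp only [Set.mem_setOf_eq]
      exact and_congr_right fun hu => h.ul2 m u hm hu
    show {u : ℤ | Squarefree u ∧ ELU (pA 2 m) (pB 2 m) u}.Finite ∧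
      {u : ℤ | Squarefree u ∧ ELU (pA 2 m) (pB 2 m) u}.ncard = 2 ^ eJ 2 m
    rw [e]
    obtain ⟨a, b⟩ := h.ucnt2 m hm h1 hS hR
    refine ⟨a, b.trans ?_⟩
    unfold eJ
    simp only
    split_ifs <;> rfl

theorem t_ASHA : S_ASHA := by
  intro P h hV hA j m hm hE hS
  have hm0 := hm.ne_zero
  have h1 : m ≠ 1 := fun h' => hE (Or.inl h')
  obtain ⟨hf, hs⟩ := (sha_iff P hm).2 hS
  obtain ⟨⟨u1, r1, s1, t1, v1⟩, ⟨u2, r2, s2, t2, v2⟩⟩ := hV j m
  have hD2 : (EAB (pA j m) (pB j m)).Δ ≠ 0 := vr_ne v2 (delta_EAB hm0)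
  have hD1 : (EJ j m).Δ ≠ 0 := ((hA j m).2 hm0).1
  have hfin : Finite (EAB (pA j m) (pB j m)).toAffine.Point :=
    Finite.of_equiv _ (v2.equiv hD2).toEquiv.symm
  have hs2 : ∀ x : Sha (EAB (pA j m) (pB j m)), 2 • x = 0 → x = 0 := fun x hx =>
    Pool.Agent.Y700.sha_two_pow v2 hD2 hs 1 x (by rw [pow_one]; exact hx)
  obtain ⟨hfI, hsI⟩ := h.iabs1 (pA j m) (pB j m) (pA_ne hm0) (pB_ne hm0) (pAB_ne hm0) hfin hs2
  obtain ⟨hu1, hu2⟩ := uset P h j hm h1 hS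
  obtain ⟨hcf, hc⟩ := h.iabs2 (pA j m) (pB j m) (pA_ne hm0) (pB_ne hm0) (pAB_ne hm0) hs2 hu1
  rw [h.vcnt j m hm hE hf, hu2] at hc
  obtain ⟨e⟩ := Pool.Agent.H487.K.S9.sha_vr v1 hD1
  have he2 : 2 ≤ eJ j m := by
    rcases Nat.lt_or_ge (eJ j m) 2 with h2 | h2
    · exfalso
      interval_cases hh : eJ j m <;> omega
    · exact h2
  refine ⟨Finite.of_equiv _ (v1.equiv hD1).toEquiv.symm, ?_, he2, ?_⟩
  · intro n x hx
    have h3 := hsI n (e x) (by rw [← map_nsmul, hx, map_zero])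
    rw [← map_nsmul] at h3
    exact (map_eq_zero_iff _ e.injective).1 h3
  · have h4 : Nat.card {x : Sha (EJ j m) // 2 • x = 0} =
        Nat.card {x : Sha (IAB (pA j m) (pB j m)) // 2 • x = 0} := by
      refine Nat.card_congr (e.toEquiv.subtypeEquiv fun x => ?_)
      show 2 • x = 0 ↔ 2 • (e x) = 0
      rw [← map_nsmul, map_eq_zero_iff _ e.injective]
    rw [h4]
    have h5 : 2 ^ eJ j m = 2 ^ (eJ j m - 2) * 4 := by
      conv_lhs => rw [show eJ j m = (eJ j m - 2) + 2 by omega, pow_add]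
      norm_num
    rw [h5] at hc
    exact Nat.eq_of_mul_eq_mul_right (by norm_num) hc

end Pool.Agent.H743.X17.QASHA
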