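import Pool.Agent.H743.X17.IsoAsm

/-!
# Project I17 (helper743): the torsion subgroup (helper120)
-/

set_option autoImplicit false

open scoped Classical

namespace Pool.Agent.H743.X17.QATOR

open Pool.Agent.H743.X17
open Pool.Agent.Y700 (tam VR IsL Omega)

theorem t_ATOR : S_ATOR := by
  intro hI hV hD j m hm hE
  obtain ⟨⟨u, r, s, t, v⟩, -⟩ := hV j m
  have hd := ((hD j m).2 hm.ne_zero).1
  rw [← hI j m hm hE]
  first
    | exact (card_tors (v.equiv hd)).symm
    | exact card_tors (v.equiv hd)

end Pool.Agent.H743.X17.QATOR
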