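import Pool.Agent.H743.X17.IsoAsm

/-!
# I17-ATP: products of the Tamagawa numbers
-/

set_option autoImplicit false
set_option linter.all false

open scoped Classical

namespace Pool.Agent.H743.X17.QATP

open Pool.Agent.H743.X17
open Pool.Agent.Y700 (tam VR IsL Omega)

/-- local factor -/
noncomputable def TT (W : WeierstrassCurve ℤ) (p : ℕ) : ℕ :=
  if h : p.Prime then (haveI := Fact.mk h; tam W p) else 1

theorem TT_eq {W : WeierstrassCurve ℤ} {p : ℕ} (hp : p.Prime) :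
    TT W p = (haveI := Fact.mk hp; tam W p) := dif_pos hp

theorem DD_ne {m : ℤ} (hm : m ≠ 0) : DD m ≠ 0 := by unfold DD; split_ifs <;> omega

theorem pfJ (hA : S_ADEL) (j : Fin 3) {m : ℤ} (hm : m ≠ 0) :
    (WJ j m).Δ.natAbs.primeFactors = insert 17 (RS m) := by
  have h := (hA j m).2 hm
  have hD : (WM m).Δ ≠ 0 := by
    rw [isN.Delta]
    exact mul_ne_zero (by norm_num) (pow_ne_zero 6 (DD_ne hm))
  have hD' : (WJ j m).Δ ≠ 0 := by
    intro h0
    apply h.1
    rw [WeierstrassCurve.map_Δ, h0, map_zero]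
  have e := pf_Delta hm
  unfold RS
  rw [← e]
  ext p
  rw [Nat.mem_primeFactors, Nat.mem_primeFactors]
  constructor
  · rintro ⟨h1, h2, -⟩
    exact ⟨h1, Int.natCast_dvd.1 ((h.2 p h1).1 (Int.natCast_dvd.2 h2)), Int.natAbs_ne_zero.2 hD⟩
  · rintro ⟨h1, h2, -⟩
    exact ⟨h1, Int.natCast_dvd.1 ((h.2 p h1).2 (Int.natCast_dvd.2 h2)), Int.natAbs_ne_zero.2 hD'⟩

theorem RS_prime {m : ℤ} {p : ℕ} (hp : p ∈ RS m) : p.Prime := Nat.prime_of_mem_primeFactors hp

theorem RS_dvd {m : ℤ} {p : ℕ} (hp : p ∈ RS m) (hp2 : p ≠ 2) : (p : ℤ) ∣ m := by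
  have hpp := RS_prime hp
  have hd : p ∣ Kn m := Nat.dvd_of_mem_primeFactors hp
  unfold Kn at hd
  split_ifs at hd
  · exact Int.natCast_dvd.2 hd
  · rcases (Nat.Prime.dvd_mul hpp).1 hd with h1 | h1
    · have h2 : p ∣ 2 ^ 2 := by norm_num; exact h1
      exact absurd ((Nat.prime_dvd_prime_iff_eq hpp Nat.prime_two).1 (hpp.dvd_of_dvd_pow h2)) hp2
    · exact Int.natCast_dvd.2 h1

theorem RS_two {m : ℤ} (hm : Squarefree m) (hp : 2 ∈ RS m) : m % 4 = 2 ∨ m % 4 = 3 := by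
  have h40 := sqf_mod4 hm
  have h4 : m % 4 ≠ 1 := by
    intro h4
    have : Kn m = m.natAbs := if_pos h4
    have hd : 2 ∣ Kn m := Nat.dvd_of_mem_primeFactors hp
    rw [this] at hd
    omega
  omega

theorem mem17 {m : ℤ} (hm : m ≠ 0) : 17 ∈ RS m ↔ (17 : ℤ) ∣ m := by
  constructor
  · intro h
    exact dvd17_Kn.1 (Nat.dvd_of_mem_primeFactors h)
  · intro h
    exact Nat.mem_primeFactors.2 ⟨by norm_num, dvd17_Kn.2 h, Kn_ne hm⟩

theorem dvd_DD {m : ℤ} {p : ℕ} (hpm : (p : ℤ) ∣ m) : (p : ℤ) ∣ DD m := by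
  unfold DD
  split_ifs
  · exact hpm
  · exact dvd_mul_of_dvd_right hpm 4

theorem sq_DD {m : ℤ} (hm : Squarefree m) {p : ℕ} (hp : p.Prime) (hp2 : p ≠ 2) :
    ¬ (p : ℤ) ^ 2 ∣ DD m := by
  intro h2
  have h3 : (p : ℤ) ^ 2 ∣ m := by
    unfold DD at h2
    split_ifs at h2
    · exact h2
    · have hc : IsCoprime ((p : ℤ) ^ 2) 4 := by
        have h4 : IsCoprime (p : ℤ) 2 := by
          rw [Int.isCoprime_iff_gcd_eq_one]
          exact (Nat.coprime_primes hp Nat.prime_two).2 hp2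
        have h5 := (h4.pow_left (m := 2)).pow_right (n := 2)
        norm_num at h5
        exact h5
      exact hc.dvd_of_dvd_mul_left h2
  rw [sq] at h3
  have := hm _ h3
  rw [Int.isUnit_iff] at this
  have := hp.two_le
  omega

theorem jac4 (n : ℤ) : jacobiSym (4 * n) 17 = jacobiSym n 17 := by
  rw [jacobiSym.mul_left]
  have e : jacobiSym 4 17 = 1 := by
    have : (4 : ℤ) = 2 ^ 2 := by norm_num
    rw [this]
    exact jacobiSym.sq_one' (by decide)
  rw [e, one_mul]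

theorem jacDD (m : ℤ) : jacobiSym (DD m) 17 = jacobiSym m 17 := by
  unfold DD
  split_ifs
  · rfl
  · exact jac4 m

theorem jacDD17 {m : ℤ} (h17 : (17 : ℤ) ∣ m) : jacobiSym (DD m / 17) 17 = jacobiSym (up 17 m) 17 := by
  have e : up 17 m = m / 17 := by
    unfold up
    rw [if_pos (by exact_mod_cast h17)]
    norm_num
  rw [e]
  unfold DD
  split_ifs
  · rfl
  · rw [Int.mul_ediv_assoc 4 h17]
    exact jac4 _

theorem prod_pow (s : Finset ℕ) (T : ℕ → ℕ) (c : ℕ → ZMod 2)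
    (h : ∀ p ∈ s, T p * (if c p = 1 then 2 else 1) = 4) :
    (∏ p ∈ s, T p) * 2 ^ (s.filter fun q => c q = 1).card = 4 ^ s.card := by
  have h1 : ∏ p ∈ s, (if c p = 1 then 2 else 1) = 2 ^ (s.filter fun q => c q = 1).card := by
    rw [Finset.prod_ite, Finset.prod_const, Finset.prod_const, one_pow, mul_one]
  rw [← h1, ← Finset.prod_mul_distrib, Finset.prod_congr rfl h, Finset.prod_const]

theorem fin12 {j : Fin 3} (hj : j ≠ 0) : j = 1 ∨ j = 2 := by
  revert hj; revert j; decide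

/-- the factors for `j = 0` -/
theorem loc0 (h : IParts) (hA : S_ADEL) {m : ℤ} (hm : Squarefree m) {p : ℕ} (hp : p ∈ RS m) :
    TT (WJ 0 m) p * (if al m p = 1 then 2 else 1) = 4 := by
  have hpp := RS_prime hp
  haveI : Fact p.Prime := ⟨hpp⟩
  rw [TT_eq hpp]
  by_cases hp2 : p = 2
  · subst hp2
    have h4 := RS_two hm hp
    rw [h.itd0 m h4]
    have hal : al m 2 = if m % 8 = 2 then 0 else 1 := by
      unfold al pd
      rw [if_pos rfl]
      rcases h4 with h4 | h4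
      · by_cases h8 : m % 8 = 2
        · rw [if_neg (by omega : ¬ m % 4 = 3), if_pos h8, if_pos h8, if_neg (by norm_num)]
        · rw [if_neg (by omega : ¬ m % 4 = 3), if_neg h8, if_neg h8, if_pos (by norm_num)]
      · rw [if_pos h4, if_neg (by omega : ¬ m % 8 = 2), if_pos (by norm_num)]
    rw [hal]
    split_ifs <;> simp_all
  · have hpm := RS_dvd hp hp2
    have hodd : p % 2 = 1 := by
      rcases hpp.eq_two_or_odd with h1 | h1
      · exact absurd h1 hp2
      · exact h1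
    have hal : al m p = if p % 4 = 1 then 0 else 1 := by
      unfold al pd
      rw [if_neg hp2]
      have hp0 : (0 : ℤ) < p := by exact_mod_cast hpp.pos
      by_cases h4 : p % 4 = 1
      · rw [if_pos h4, if_pos h4, if_neg (by omega)]
      · rw [if_neg h4, if_neg h4, if_pos (by omega)]
    by_cases h17 : p = 17
    · subst h17
      rw [h.itr0 (WJ 0 m) (DD m) (hA 0 m).1 (dvd_DD hpm) (sq_DD hm hpp hp2), hal]
      norm_num
    · rw [h.itp0 (WJ 0 m) (DD m) p (hA 0 m).1 hp2 h17 (dvd_DD hpm) (sq_DD hm hpp hp2), hal]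
      split_ifs <;> simp_all

/-- the factors for `j ≠ 0` -/
theorem loc12 (h : IParts) (hA : S_ADEL) {j : Fin 3} (hj : j ≠ 0) {m : ℤ} (hm : Squarefree m)
    {p : ℕ} (hp : p ∈ (RS m).erase 17) :
    TT (WJ j m) p * (if nu p = 1 then 2 else 1) = 4 := by
  obtain ⟨h17, hp⟩ := Finset.mem_erase.1 hp
  have hpp := RS_prime hp
  haveI : Fact p.Prime := ⟨hpp⟩
  rw [TT_eq hpp]
  have hj' := fin12 hj
  by_cases hp2 : p = 2
  · subst hp2
    have h4 := RS_two hm hp
    have hnu : nu 2 = 0 := if_pos rfl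
    rw [hnu]
    rcases hj' with rfl | rfl
    · rw [h.itd1 m h4]; norm_num
    · rw [h.itd2 m h4]; norm_num
  · have hpm := RS_dvd hp hp2
    have hnu : nu p = if jacobiSym 17 p = 1 then 0 else 1 := if_neg hp2
    rw [hnu]
    rcases hj' with rfl | rfl
    · rw [h.itp1 (WJ 1 m) (DD m) p (hA 1 m).1 hp2 h17 (dvd_DD hpm) (sq_DD hm hpp hp2)]
      split_ifs <;> simp_all
    · rw [h.itp2 (WJ 2 m) (DD m) p (hA 2 m).1 hp2 h17 (dvd_DD hpm) (sq_DD hm hpp hp2)]
      split_ifs <;> simp_all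

theorem loc17 (h : IParts) (hA : S_ADEL) {j : Fin 3} (hj : j ≠ 0) {m : ℤ} (hm : Squarefree m)
    (h17 : (17 : ℤ) ∣ m) : TT (WJ j m) 17 * 2 ^ (lam 17 m).val = 4 := by
  have hpp : Nat.Prime 17 := by norm_num
  haveI : Fact (Nat.Prime 17) := ⟨hpp⟩
  rw [TT_eq hpp]
  have hj' := fin12 hj
  have h17' : ((17 : ℕ) : ℤ) ∣ m := by exact_mod_cast h17
  have e2 : ¬ (17 : ℤ) ^ 2 ∣ DD m := by
    have := sq_DD hm hpp (by norm_num)
    push_cast at this
    exact this
  have e1 : (17 : ℤ) ∣ DD m := by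
    have := dvd_DD h17'
    push_cast at this
    exact this
  unfold lam
  rcases hj' with rfl | rfl
  · rw [h.itr1 (WJ 1 m) (DD m) (hA 1 m).1 e1 e2, jacDD17 h17]
    split_ifs <;> simp [ZMod.val_one]
  · rw [h.itr2 (WJ 2 m) (DD m) (hA 2 m).1 e1 e2, jacDD17 h17]
    split_ifs <;> simp [ZMod.val_one]

theorem t_ATP : S_ATP := by
  intro h hA j m hm
  have hm0 := hm.ne_zero
  have hpp : Nat.Prime 17 := by norm_num
  haveI : Fact (Nat.Prime 17) := ⟨hpp⟩
  have eT : TamProd (WJ j m) = ∏ p ∈ insert 17 (RS m), TT (WJ j m) p := by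
    unfold TamProd
    rw [pfJ hA j hm0]
    rfl
  have hN17 : ¬ (17 : ℤ) ∣ m → ¬ (17 : ℤ) ∣ DD m := by
    intro h17
    unfold DD
    split_ifs
    · exact h17
    · omega
  constructor
  · rintro rfl
    have key := prod_pow (RS m) (TT (WJ 0 m)) (al m) (fun p hp => loc0 h hA hm hp)
    have key' : (∏ p ∈ RS m, TT (WJ 0 m) p) * 2 ^ na m = 4 ^ (Kn m).primeFactors.card := key
    rw [eT]
    by_cases h17 : (17 : ℤ) ∣ m
    · rw [Finset.insert_eq_of_mem ((mem17 hm0).2 h17), key', if_pos h17, mul_one]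
    · have hmem : 17 ∉ RS m := fun h' => h17 ((mem17 hm0).1 h')
      rw [Finset.prod_insert hmem, if_neg h17, mul_assoc, key', TT_eq hpp,
        h.its0 (WJ 0 m) (DD m) (hA 0 m).1 (hN17 h17), jacDD, mul_comm]
  · intro hj
    have key := prod_pow ((RS m).erase 17) (TT (WJ j m)) nu (fun p hp => loc12 h hA hj hm hp)
    have key' : (∏ p ∈ (RS m).erase 17, TT (WJ j m) p) * 2 ^ nn m = 4 ^ ((RS m).erase 17).card := key
    rw [eT]
    by_cases h17 : (17 : ℤ) ∣ m
    · have hmem := (mem17 hm0).2 h17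
      rw [Finset.insert_eq_of_mem hmem, if_pos h17, ← Finset.mul_prod_erase _ _ hmem]
      have e3 := loc17 h hA hj hm h17
      have e4 : (Kn m).primeFactors.card = ((RS m).erase 17).card + 1 := by
        rw [Finset.card_erase_of_mem hmem]
        have : 0 < (RS m).card := Finset.card_pos.2 ⟨17, hmem⟩
        show (RS m).card = _
        omega
      rw [e4, pow_succ, ← key', pow_add]
      calc _ = (∏ p ∈ (RS m).erase 17, TT (WJ j m) p) * 2 ^ nn m *
            (TT (WJ j m) 17 * 2 ^ (lam 17 m).val) := by ring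
        _ = _ := by rw [e3]
    · have hmem : 17 ∉ RS m := fun h' => h17 ((mem17 hm0).1 h')
      rw [Finset.erase_eq_of_notMem hmem] at key'
      rw [Finset.prod_insert hmem, if_neg h17, add_zero]
      have e5 : TT (WJ j m) 17 = 1 := by
        rw [TT_eq hpp]
        have hj' := fin12 hj
        rcases hj' with rfl | rfl
        · exact h.its1 (WJ 1 m) (DD m) (hA 1 m).1 (hN17 h17)
        · exact h.its2 (WJ 2 m) (DD m) (hA 2 m).1 (hN17 h17)
      rw [e5, one_mul]
      exact key'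

end Pool.Agent.H743.X17.QATP
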