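import Pool.Agent.H743.X17.IsoAsm

/-!
# The central value in terms of the invariants of the curves `I^j_m`
-/

set_option autoImplicit false
set_option linter.all false

open scoped Classical

namespace Pool.Agent.H743.X17.QAVAL

open Pool.Agent.H743.X17
open Pool.Agent.Y700 (tam VR IsL Omega)

/-- the sign of the root number `1` -/
theorem rt_pos {m : ℤ} (hR : Rt m) (hm : 0 < m) : jacobiSym m 17 = 1 ∧ ¬ (17 : ℤ) ∣ m := by
  rcases hR with ⟨_, h⟩ | ⟨h, _⟩
  · refine ⟨h, fun hd => ?_⟩
    have h0 : jacobiSym m 17 = 0 := by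
      have : ¬ m.gcd 17 = 1 := by
        intro hg
        have h17 : (17 : ℕ) ∣ m.gcd 17 := Nat.dvd_gcd (Int.natCast_dvd.1 hd) (dvd_refl _)
        rw [hg] at h17
        omega
      exact (jacobiSym.eq_zero_iff_not_coprime).2 this
    rw [h0] at h
    exact absurd h (by norm_num)
  · omega

/-- the comparison of the periods and the Tamagawa numbers -/
theorem cmp (h : Parts) (hI : IParts) (hD : S_ADEL) (hT : S_ATP) (j : Fin 3) {m : ℤ}
    (hm : Squarefree m) (hR : Rt m) :
    (TamProd (WM m) : ℝ) * Omega (WM m) =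
      2 ^ eJ j m * (TamProd (WJ j m) : ℝ) * Omega (WJ j m) := by
  have hm0 : m ≠ 0 := hm.ne_zero
  obtain ⟨a0, a1⟩ := hT hI hD j m hm
  have tp := tamProd_eq h hm
  have o0 := hI.iom0 m hm0
  have o1 := hI.iom1 m
  have o2 := hI.iom2 m
  rcases lt_or_gt_of_ne hm0 with hneg | hpos
  · have hj : jacobiSym m 17 ≠ 1 := by
      rcases hR with ⟨h1, _⟩ | ⟨_, h1⟩
      · omega
      · exact h1
    have hnp : ¬ 0 < m := by omega
    have o1' := o1.2 hneg
    have o2' := o2.2 hneg
    by_cases h17 : (17 : ℤ) ∣ m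
    · rw [if_pos h17, mul_one] at tp
      fin_cases j
      · have e := a0 rfl
        rw [if_pos h17, mul_one] at e
        have e' : (TamProd (WJ 0 m) : ℝ) * 2 ^ na m = 4 ^ (Kn m).primeFactors.card := by
          exact_mod_cast e
        have ee : eJ 0 m = na m + 1 := by simp [eJ, hnp]
        show (TamProd (WM m) : ℝ) * Omega (WM m) =
          2 ^ eJ 0 m * (TamProd (WJ 0 m) : ℝ) * Omega (WJ 0 m)
        rw [ee, tp, o0, pow_succ]
        push_cast
        rw [← e']
        ring
      · have e := a1 (by decide)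
        rw [if_pos h17] at e
        have e' : (TamProd (WJ 1 m) : ℝ) * 2 ^ (nn m + (lam 17 m).val) =
            4 ^ (Kn m).primeFactors.card := by
          exact_mod_cast e
        have ee : eJ 1 m = nn m + (lam 17 m).val := by simp [eJ, hnp, h17]
        show (TamProd (WM m) : ℝ) * Omega (WM m) =
          2 ^ eJ 1 m * (TamProd (WJ 1 m) : ℝ) * Omega (WJ 1 m)
        rw [ee, tp, o1']
        push_cast
        rw [← e']
        ring
      · have e := a1 (by decide)
        rw [if_pos h17] at e
        have e' : (TamProd (WJ 2 m) : ℝ) * 2 ^ (nn m + (lam 17 m).val) =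
            4 ^ (Kn m).primeFactors.card := by
          exact_mod_cast e
        have ee : eJ 2 m = nn m + (lam 17 m).val := by simp [eJ, hnp, h17]
        show (TamProd (WM m) : ℝ) * Omega (WM m) =
          2 ^ eJ 2 m * (TamProd (WJ 2 m) : ℝ) * Omega (WJ 2 m)
        rw [ee, tp, o2']
        push_cast
        rw [← e']
        ring
    · rw [if_neg h17] at tp
      fin_cases j
      · have e := a0 rfl
        rw [if_neg h17, if_neg hj] at e
        have e' : (TamProd (WJ 0 m) : ℝ) * 2 ^ na m = 4 ^ (Kn m).primeFactors.card * 2 := by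
          exact_mod_cast e
        have ee : eJ 0 m = na m + 1 := by simp [eJ, hnp]
        show (TamProd (WM m) : ℝ) * Omega (WM m) =
          2 ^ eJ 0 m * (TamProd (WJ 0 m) : ℝ) * Omega (WJ 0 m)
        rw [ee, tp, o0, pow_succ]
        push_cast
        rw [← e']
        ring
      · have e := a1 (by decide)
        rw [if_neg h17, add_zero] at e
        have e' : (TamProd (WJ 1 m) : ℝ) * 2 ^ nn m = 4 ^ (Kn m).primeFactors.card := by
          exact_mod_cast e
        have ee : eJ 1 m = nn m + 1 := by simp [eJ, hnp, h17]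
        show (TamProd (WM m) : ℝ) * Omega (WM m) =
          2 ^ eJ 1 m * (TamProd (WJ 1 m) : ℝ) * Omega (WJ 1 m)
        rw [ee, tp, o1', pow_succ]
        push_cast
        rw [← e']
        ring
      · have e := a1 (by decide)
        rw [if_neg h17, add_zero] at e
        have e' : (TamProd (WJ 2 m) : ℝ) * 2 ^ nn m = 4 ^ (Kn m).primeFactors.card := by
          exact_mod_cast e
        have ee : eJ 2 m = nn m + 1 := by simp [eJ, hnp, h17]
        show (TamProd (WM m) : ℝ) * Omega (WM m) =
          2 ^ eJ 2 m * (TamProd (WJ 2 m) : ℝ) * Omega (WJ 2 m)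
        rw [ee, tp, o2', pow_succ]
        push_cast
        rw [← e']
        ring
  · obtain ⟨hj, h17⟩ := rt_pos hR hpos
    have o1' := o1.1 hpos
    have o2' := o2.1 hpos
    rw [if_neg h17] at tp
    fin_cases j
    · have e := a0 rfl
      rw [if_neg h17, if_pos hj] at e
      have e' : (TamProd (WJ 0 m) : ℝ) * 2 ^ na m = 4 ^ (Kn m).primeFactors.card * 4 := by
        exact_mod_cast e
      have ee : eJ 0 m = na m := by simp [eJ, hpos]
      show (TamProd (WM m) : ℝ) * Omega (WM m) =
        2 ^ eJ 0 m * (TamProd (WJ 0 m) : ℝ) * Omega (WJ 0 m)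
      rw [ee, tp, o0]
      push_cast
      linear_combination (-Omega (WJ 0 m)) * e'
    · have e := a1 (by decide)
      rw [if_neg h17, add_zero] at e
      have e' : (TamProd (WJ 1 m) : ℝ) * 2 ^ nn m = 4 ^ (Kn m).primeFactors.card := by
        exact_mod_cast e
      have ee : eJ 1 m = nn m := by simp [eJ, hpos]
      show (TamProd (WM m) : ℝ) * Omega (WM m) =
        2 ^ eJ 1 m * (TamProd (WJ 1 m) : ℝ) * Omega (WJ 1 m)
      rw [ee, tp, o1']
      push_cast
      rw [← e']
      ring
    · have e := a1 (by decide)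
      rw [if_neg h17, add_zero] at e
      have e' : (TamProd (WJ 2 m) : ℝ) * 2 ^ nn m = 4 ^ (Kn m).primeFactors.card := by
        exact_mod_cast e
      have ee : eJ 2 m = nn m + 2 := by simp [eJ, hpos]
      show (TamProd (WM m) : ℝ) * Omega (WM m) =
        2 ^ eJ 2 m * (TamProd (WJ 2 m) : ℝ) * Omega (WJ 2 m)
      rw [ee, tp, o2', pow_add]
      push_cast
      rw [← e']
      ring

theorem om_pos (hI : IParts) (j : Fin 3) {m : ℤ} (hm0 : m ≠ 0) (hO : 0 < Omega (WM m)) :
    0 < Omega (WJ j m) := by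
  have o0 := hI.iom0 m hm0
  have o1 := hI.iom1 m
  have o2 := hI.iom2 m
  fin_cases j
  · show 0 < Omega (WJ 0 m)
    linarith
  · show 0 < Omega (WJ 1 m)
    rcases lt_or_gt_of_ne hm0 with hneg | hpos
    · rw [o1.2 hneg]
      exact hO
    · rw [o1.1 hpos]
      linarith
  · show 0 < Omega (WJ 2 m)
    rcases lt_or_gt_of_ne hm0 with hneg | hpos
    · rw [o2.2 hneg]
      exact hO
    · have := o2.1 hpos
      linarith

/-- AVAL -/
theorem t_AVAL : S_AVAL := by
  intro h hI hD hA hT j m hm h1
  obtain ⟨hO, f, y, hf, hy, h0, hv⟩ := main h hm h1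
  refine ⟨om_pos hI j hm.ne_zero hO, f, y, hf, hA hI.iap hD j m f hm hf,
    hy.trans (finSha_iff h hm), h0, ?_⟩
  rw [hv]
  by_cases hR : Rt m
  · have e := cmp h hI hD hT j hm hR
    refine congrArg (fun z : ℝ => (z : ℂ)) ?_
    linear_combination ((y : ℝ) ^ 2 / 16) * e
  · rw [h0 hR]
    norm_num

end Pool.Agent.H743.X17.QAVAL
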