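import Pool.Agent.H743.X17.IsoAsm

/-!
# I17 AVR: changes of variables
-/

set_option autoImplicit false

namespace Pool.Agent.H743.X17.QAVR

open Pool.Agent.H743.X17

open Pool.Agent.Y700 (VR)

theorem cast_div {b m : ℤ} (h : (b * m - 1) % 4 = 0) :
    (((b * m - 1) / 4 : ℤ) : ℚ) = (b * m - 1) / 4 := by
  obtain ⟨k, hk⟩ : ∃ k, b * m - 1 = 4 * k := ⟨(b * m - 1) / 4, by omega⟩
  have e1 : (b * m - 1) / 4 = k := by omega
  have e2 : (b * m - 1 : ℚ) = 4 * k := by exact_mod_cast hk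
  rw [e1]
  linear_combination (-1 / 4) * e2

theorem co1 (j : Fin 3) (m : ℤ) (h : m % 4 = 1) :
    (EJ j m).a₁ = 1 ∧ (EJ j m).a₂ = (be j * m - 1) / 4 ∧ (EJ j m).a₃ = 0 ∧
      (EJ j m).a₄ = ga j * (m : ℚ) ^ 2 ∧ (EJ j m).a₆ = de j * (m : ℚ) ^ 3 := by
  have hb : (be j * m - 1) % 4 = 0 := by
    fin_cases j
    · show (33 * m - 1) % 4 = 0
      omega
    · show (9 * m - 1) % 4 = 0
      omega
    · show (-63 * m - 1) % 4 = 0
      omega
  have e := cast_div hb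
  refine ⟨?_, ?_, ?_, ?_, ?_⟩
  · simp [EJ, WJ, h]
  · rw [← e]
    simp [EJ, WJ, h]
  · simp [EJ, WJ, h]
  · simp [EJ, WJ, h]
  · simp [EJ, WJ, h]

theorem co2 (j : Fin 3) (m : ℤ) (h : ¬ m % 4 = 1) :
    (EJ j m).a₁ = 0 ∧ (EJ j m).a₂ = be j * m ∧ (EJ j m).a₃ = 0 ∧
      (EJ j m).a₄ = 16 * ga j * (m : ℚ) ^ 2 ∧ (EJ j m).a₆ = 64 * de j * (m : ℚ) ^ 3 := by
  refine ⟨?_, ?_, ?_, ?_, ?_⟩ <;> simp [EJ, WJ, h]

theorem t_AVR : S_AVR := by
  intro j m
  constructor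
  · by_cases h : m % 4 = 1
    · obtain ⟨c1, c2, c3, c4, c6⟩ := co1 j m h
      fin_cases j
      · refine ⟨2, m, 1, 0, two_ne_zero, ?_, ?_, ?_, ?_, ?_⟩
        · rw [c1]; simp [IAB]
        · rw [c2]; simp [IAB, be, pA, pB]; ring
        · rw [c3]; simp [IAB]
        · rw [c4]; simp [IAB, ga, pA, pB]; ring
        · rw [c6]; simp [IAB, de, pA, pB]; ring
      · refine ⟨4, 0, 2, 0, by norm_num, ?_, ?_, ?_, ?_, ?_⟩
        · rw [c1]; simp [IAB]; norm_num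
        · rw [c2]; simp [IAB, be, pA, pB]; ring
        · rw [c3]; simp [IAB]
        · rw [c4]; simp [IAB, ga, pA, pB]; ring
        · rw [c6]; simp [IAB, de, pA, pB]
      · refine ⟨2, m, 1, 0, two_ne_zero, ?_, ?_, ?_, ?_, ?_⟩
        · rw [c1]; simp [IAB]
        · rw [c2]; simp [IAB, be, pA, pB]; ring
        · rw [c3]; simp [IAB]
        · rw [c4]; simp [IAB, ga, pA, pB]; ring
        · rw [c6]; simp [IAB, de, pA, pB]; ring
    · obtain ⟨c1, c2, c3, c4, c6⟩ := co2 j m h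
      fin_cases j
      · refine ⟨1, m, 0, 0, one_ne_zero, ?_, ?_, ?_, ?_, ?_⟩
        · rw [c1]; simp [IAB]
        · rw [c2]; simp [IAB, be, pA, pB]; ring
        · rw [c3]; simp [IAB]
        · rw [c4]; simp [IAB, ga, pA, pB]; ring
        · rw [c6]; simp [IAB, de, pA, pB]; ring
      · refine ⟨2, 0, 0, 0, two_ne_zero, ?_, ?_, ?_, ?_, ?_⟩
        · rw [c1]; simp [IAB]
        · rw [c2]; simp [IAB, be, pA, pB]; ring
        · rw [c3]; simp [IAB]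
        · rw [c4]; simp [IAB, ga, pA, pB]; ring
        · rw [c6]; simp [IAB, de, pA, pB]
      · refine ⟨1, m, 0, 0, one_ne_zero, ?_, ?_, ?_, ?_, ?_⟩
        · rw [c1]; simp [IAB]
        · rw [c2]; simp [IAB, be, pA, pB]; ring
        · rw [c3]; simp [IAB]
        · rw [c4]; simp [IAB, ga, pA, pB]; ring
        · rw [c6]; simp [IAB, de, pA, pB]; ring
  · fin_cases j
    · refine ⟨1, 0, 0, 0, one_ne_zero, ?_, ?_, ?_, ?_, ?_⟩ <;> simp [EAB, pA, pB]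
    · refine ⟨1, -m, 0, 0, one_ne_zero, ?_, ?_, ?_, ?_, ?_⟩
      · simp [EAB]
      · simp [EAB, pA, pB]; ring
      · simp [EAB]
      · simp [EAB, pA, pB]; ring
      · simp [EAB]; ring
    · refine ⟨1, 16 * m, 0, 0, one_ne_zero, ?_, ?_, ?_, ?_, ?_⟩
      · simp [EAB]
      · simp [EAB, pA, pB]; ring
      · simp [EAB]
      · simp [EAB, pA, pB]; ring
      · simp [EAB]; ring

end Pool.Agent.H743.X17.QAVR
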