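import Pool.Agent.H743.X17.IsoStm
import Pool.Agent.H468.ISG.Sha

/-! IABS1: isogeny descent, finiteness and exponent of the 2-part of Sha. -/

set_option autoImplicit false
set_option linter.all false

open scoped Classical

namespace Pool.Agent.H743.X17.QIABS1

open WeierstrassCurve
open Pool.Agent.H743.X17 (EAB IAB S_IABS1)
open Pool.Agent.TH841.SH.D (Pt act Gal Coch IsCoc IsCob LocTriv cob shaCoc Sha IsShaCoc)
open Pool.Agent.R432 (KDat NH isoH isoH_dbl isoH_act isoH_ker)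
open Pool.Agent.H487.K.S9 (iSQ_exists)
open Pool.Agent.H468.ISG (ker_iff)

/-- the isogeny `I → E` -/
lemma kIE {A B : ℤ} (hA : A ≠ 0) (hB : B ≠ 0) (hAB : A ≠ B) :
    KDat (IAB A B) (EAB A B) (-2 * ((A : ℚ) + B)) (((A : ℚ) - B) ^ 2) ((A : ℚ) + B)
      ((A : ℚ) * B) 2 where
  hW := rfl
  hW' := rfl
  dat :=
    { hb := by
        have h1 : (A : ℚ) - B ≠ 0 := sub_ne_zero.2 (by exact_mod_cast hAB)
        exact pow_ne_zero 2 h1
      hb' := mul_ne_zero (by exact_mod_cast hA) (by exact_mod_cast hB)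
      hu := two_ne_zero
      e1 := by ring
      e2 := by ring }

/-- the isogeny `E → I` -/
lemma kEI {A B : ℤ} (hA : A ≠ 0) (hB : B ≠ 0) (hAB : A ≠ B) :
    KDat (EAB A B) (IAB A B) ((A : ℚ) + B) ((A : ℚ) * B) (-2 * ((A : ℚ) + B))
      (((A : ℚ) - B) ^ 2) 1 where
  hW := rfl
  hW' := rfl
  dat :=
    { hb := mul_ne_zero (by exact_mod_cast hA) (by exact_mod_cast hB)
      hb' := by
        have h1 : (A : ℚ) - B ≠ 0 := sub_ne_zero.2 (by exact_mod_cast hAB)
        exact pow_ne_zero 2 h1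
      hu := one_ne_zero
      e1 := by ring
      e2 := by ring }

lemma bc_self (W : WeierstrassCurve ℚ) : W = W.baseChange ℚ := by
  apply WeierstrassCurve.ext <;> simp [WeierstrassCurve.baseChange]

/-- the isogeny on the rational points -/
lemma hom_aux [inst : DecidableEq ℚ] {W W' : WeierstrassCurve ℚ} {a b a' b' u : ℚ}
    (k : KDat W W' a b a' b' u) {V V' : WeierstrassCurve ℚ}
    (e : V = W.baseChange ℚ) (e' : V' = W'.baseChange ℚ) :
    ∃ φ : V.toAffine.Point →+ V'.toAffine.Point,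
      (∀ P, φ P = 0 → P = 0 ∨ ∃ h, P = .some 0 0 h) := by
  obtain rfl : inst = Classical.decEq ℚ := Subsingleton.elim _ _
  subst e e'
  refine ⟨isoH ℚ k, fun P hP => ?_⟩
  rcases (ker_iff k ℚ P).1 hP with h1 | h1
  · exact Or.inl h1
  · exact Or.inr ⟨_, h1⟩

/-- finiteness along an isogeny -/
lemma finite_of {W W' : WeierstrassCurve ℚ} {a b a' b' u : ℚ} (k : KDat W W' a b a' b' u)
    (hf : Finite W'.toAffine.Point) : Finite W.toAffine.Point := by
  obtain ⟨φ, h1⟩ := hom_aux k (bc_self W) (bc_self W')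
  rw [← Set.finite_univ_iff]
  apply Set.Finite.of_finite_fibers φ (Set.toFinite _)
  intro y hy
  obtain ⟨P0, -, rfl⟩ := hy
  by_cases hT : ∃ h : W.toAffine.Nonsingular 0 0, True
  · obtain ⟨hns, -⟩ := hT
    refine Set.Finite.subset (Set.toFinite {P0, P0 + .some 0 0 hns}) ?_
    rintro P ⟨-, hP⟩
    have h2 : φ (P - P0) = 0 := by
      rw [map_sub, sub_eq_zero]
      exact hP
    rcases h1 _ h2 with h3 | ⟨h, h3⟩
    · left
      exact sub_eq_zero.1 h3
    · right
      rw [Set.mem_singleton_iff, ← h3]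
      abel
  · refine Set.Finite.subset (Set.toFinite {P0}) ?_
    rintro P ⟨-, hP⟩
    have h2 : φ (P - P0) = 0 := by
      rw [map_sub, sub_eq_zero]
      exact hP
    rcases h1 _ h2 with h3 | ⟨h, h3⟩
    · exact sub_eq_zero.1 h3
    · exact absurd ⟨h, trivial⟩ hT

theorem t_IABS1 : S_IABS1 := by
  intro A B hA hB hAB hfin hsha
  refine ⟨finite_of (kIE hA hB hAB) hfin, fun n x hx => ?_⟩
  rw [two_nsmul]
  refine iSQ_exists (NH.iso (kIE hA hB hAB)) (NH.iso (kEI hA hB hAB)) (fun P => ?_) (fun y hy => ?_)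
    n x hx
  · exact isoH_dbl (AlgebraicClosure ℚ) (kIE hA hB hAB) (kEI hA hB hAB) (by norm_num) P
  · exact hsha y (by rw [two_nsmul]; exact hy)

end Pool.Agent.H743.X17.QIABS1
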