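import Pool.Agent.H743.X17.IsoStm
import Pool.Agent.H468.ISG.Sha

/-!
# I17 IABS2 (helper127): isogeny descent: the order of `Ш(I)[2]` by counting classes
-/

set_option autoImplicit false
set_option linter.all false

open scoped Classical

namespace Pool.Agent.H743.I17.QIABS2

open WeierstrassCurve
open Pool.Agent.TH841.SH.D (Pt act Gal Coch IsCoc IsCob LocTriv cob shaCoc Sha IsShaCoc sha_add
  sha_zero cob_zero cob_add)
open Pool.Agent.R432 (KDat NH isoH isoH_act isoH_ker isoH_zero isoH_some bc cz act_zero'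
  act_inj pt_congr iC)
open Pool.Agent.H487.K.S9 (iCCQ iSQ mkQ mkQ_surj mkQ_add iSQ_mk iSQ_comp)
open Pool.Agent.H468.ISG (LC chi chi_coc chi_add chi_loc chi_nec cob_iff kc1 kc2 dlc dl_coc dl_loc
  toA T0 pm_of s_ne kum')
open Pool.Agent.H743.X17 (EAB IAB LU ELU S_IABS2)

/-- the kernel of the isogeny -/
abbrev HK (A B : ℤ) : Prop :=
  KDat (IAB A B) (EAB A B) (-2 * ((A : ℚ) + B)) (((A : ℚ) - B) ^ 2) ((A : ℚ) + B) ((A : ℚ) * B) 2

lemma hk {A B : ℤ} (hA : A ≠ 0) (hB : B ≠ 0) (hAB : A ≠ B) : HK A B where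
  hW := rfl
  hW' := rfl
  dat :=
    { hb := pow_ne_zero 2 (sub_ne_zero.2 (by exact_mod_cast hAB))
      hb' := mul_ne_zero (by exact_mod_cast hA) (by exact_mod_cast hB)
      hu := by norm_num
      e1 := by ring
      e2 := by ring }

lemma lu_def {A B : ℤ} (K : Type) [Field K] [Algebra ℚ K] (u : ℤ) : LU A B u K ↔
    LC K (algebraMap ℚ K ((A : ℚ) + B)) (algebraMap ℚ K ((A : ℚ) * B))
      (algebraMap ℚ K (u : ℚ)) := by
  unfold LU LC
  rw [map_add, map_mul, map_intCast, map_intCast, map_intCast]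
  refine or_congr Iff.rfl (or_congr ?_ ?_)
  · push_cast
    rfl
  · refine exists_congr fun x => exists_congr fun y => and_congr Iff.rfl (and_congr ?_ Iff.rfl)
    constructor
    · intro h
      rw [h]
      ring
    · intro h
      rw [h]
      ring

/-- a square root -/
noncomputable def rt (u : ℤ) : AlgebraicClosure ℚ :=
  (IsAlgClosed.exists_pow_nat_eq ((u : ℤ) : AlgebraicClosure ℚ) (n := 2) (by norm_num)).choose

lemma rt_sq (u : ℤ) : rt u ^ 2 = (u : AlgebraicClosure ℚ) :=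
  (IsAlgClosed.exists_pow_nat_eq ((u : ℤ) : AlgebraicClosure ℚ) (n := 2)
    (by norm_num)).choose_spec

section

variable {A B : ℤ} (h : HK A B)

/-- the cocycle depends only on the class of the square modulo squares -/
lemma chi_scale {s s' : AlgebraicClosure ℚ} {t : ℤ} (ht : t ≠ 0)
    (hh : s' ^ 2 = s ^ 2 * (t : AlgebraicClosure ℚ) ^ 2) : chi h s' = chi h s := by
  have ht' : (t : AlgebraicClosure ℚ) ≠ 0 := Int.cast_ne_zero.2 ht
  have key : ∀ σ : Gal ℚ, σ s' = s' ↔ σ s = s := by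
    intro σ
    have h1 : s' ^ 2 = (s * t) ^ 2 := by rw [hh]; ring
    have h2 : σ (s * t) = s * t ↔ σ s = s := by
      rw [map_mul, map_intCast]
      exact ⟨fun h => mul_right_cancel₀ ht' h, fun h => by rw [h]⟩
    rcases sq_eq_sq_iff_eq_or_eq_neg.1 h1 with h3 | h3
    · rw [h3]
      exact h2
    · rw [h3, map_neg, neg_inj]
      exact h2
  funext σ
  show (if σ s' = s' then (0 : Pt (IAB A B) (AlgebraicClosure ℚ)) else T0 h _) =
    (if σ s = s then (0 : Pt (IAB A B) (AlgebraicClosure ℚ)) else T0 h _)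
  by_cases h1 : σ s = s
  · rw [if_pos h1, if_pos ((key σ).2 h1)]
  · rw [if_neg h1, if_neg (fun h2 => h1 ((key σ).1 h2))]

/-- the cocycle of an integer -/
noncomputable def cc (u : ℤ) : Coch (IAB A B) := chi h (rt u)

lemma cc_mul {u v w t : ℤ} (hu : u ≠ 0) (hv : v ≠ 0) (ht : t ≠ 0) (hw : u * v = w * t ^ 2) :
    cc h u + cc h v = cc h w := by
  unfold cc
  rw [chi_add h (Int.cast_ne_zero.2 hu) (Int.cast_ne_zero.2 hv) (toA (rt_sq u)) (toA (rt_sq v))]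
  apply chi_scale h ht
  rw [mul_pow, rt_sq, rt_sq, rt_sq]
  exact_mod_cast hw

lemma cc_two {u : ℤ} (hu : u ≠ 0) : cc h u + cc h u = 0 := by
  rw [cc_mul h (w := 1) hu hu hu (by ring)]
  unfold cc
  funext σ
  show (if σ (rt 1) = rt 1 then (0 : Pt (IAB A B) (AlgebraicClosure ℚ)) else _) = 0
  rw [if_pos]
  have h1 : rt 1 ^ 2 = (1 : AlgebraicClosure ℚ) ^ 2 := by
    rw [rt_sq]
    norm_num
  rcases sq_eq_sq_iff_eq_or_eq_neg.1 h1 with h3 | h3
  · rw [h3, map_one]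
  · rw [h3, map_neg, map_one]

lemma cc_sha {u : ℤ} (hu : u ≠ 0) : IsShaCoc (IAB A B) (cc h u) ↔ ELU A B u := by
  have hu' : (u : ℚ) ≠ 0 := Int.cast_ne_zero.2 hu
  constructor
  · intro H
    exact ⟨fun p _ => (lu_def _ u).2 (chi_nec h hu' (toA (rt_sq u)) _ (H.2.1 p)),
      (lu_def _ u).2 (chi_nec h hu' (toA (rt_sq u)) _ H.2.2)⟩
  · intro H
    exact ⟨chi_coc h hu' (toA (rt_sq u)),
      fun p _ => chi_loc h hu' (toA (rt_sq u)) _ ((lu_def _ u).1 (H.1 p)),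
      chi_loc h hu' (toA (rt_sq u)) _ ((lu_def _ u).1 H.2)⟩

lemma cc_cob {u : ℤ} (hu : u ≠ 0) : IsCob (IAB A B) (cc h u) ↔ LU A B u ℚ := by
  have hu' : (u : ℚ) ≠ 0 := Int.cast_ne_zero.2 hu
  unfold cc
  rw [cob_iff h hu' (toA (rt_sq u)), lu_def]
  exact Iff.rfl

/-- the class of a coboundary -/
lemma mk_zero {W : WeierstrassCurve ℚ} {f : shaCoc W} : mkQ f = 0 ↔ IsCob W (f : Coch W) := by
  show (QuotientAddGroup.mk' ((cob W).addSubgroupOf (shaCoc W))) f = 0 ↔ _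
  rw [QuotientAddGroup.mk'_apply, QuotientAddGroup.eq_zero_iff, AddSubgroup.mem_addSubgroupOf]
  exact Iff.rfl

/-- a coboundary is locally trivial -/
lemma cob_sha {W : WeierstrassCurve ℚ} {f : Coch W} (hf : IsCob W f) : IsShaCoc W f := by
  obtain ⟨P, hP⟩ := hf
  have e : f = dlc P := funext hP
  rw [e]
  exact ⟨dl_coc P, fun p _ => dl_loc P _, dl_loc P _⟩

/-- a cocycle with values in the kernel of the isogeny -/
lemma ker_coc {f : Coch (IAB A B)} (hf : IsCoc (IAB A B) f)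
    (hk : ∀ σ, isoH (AlgebraicClosure ℚ) h (f σ) = 0) :
    ∃ e : ℤ, Squarefree e ∧ f = cc h e := by
  obtain ⟨k1, k2, k3⟩ := kc1 h hf hk
  obtain ⟨e, he, hes⟩ := kum' _ k1 k2
  exact ⟨e, he, k3 (rt e) (hes (rt e) (rt_sq e))⟩

lemma class_of (x : Sha (IAB A B)) (hx : iSQ (NH.iso h) x = 0) :
    ∃ (e : ℤ) (he : Squarefree e) (hV : IsShaCoc (IAB A B) (cc h e)), x = mkQ ⟨cc h e, hV⟩ := by
  obtain ⟨f, rfl⟩ := mkQ_surj x
  rw [iSQ_mk] at hx
  obtain ⟨P, hk⟩ := kc2 h f.2.1 (mk_zero.1 hx)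
  let g : shaCoc (IAB A B) := ⟨dlc P, dl_coc P, fun p _ => dl_loc P _, dl_loc P _⟩
  obtain ⟨e, he, hfg⟩ := ker_coc h (f - g).2.1 hk
  have hsc : IsShaCoc (IAB A B) (cc h e) := by rw [← hfg]; exact (f - g).2
  refine ⟨e, he, hsc, ?_⟩
  have e1 : f - g = ⟨cc h e, hsc⟩ := Subtype.ext hfg
  rw [← e1]
  have e2 : f = (f - g) + g := by abel
  nth_rw 1 [e2]
  rw [mkQ_add]
  have e3 : mkQ g = 0 := mk_zero.2 ⟨P, fun σ => rfl⟩
  rw [e3, add_zero]

end

/-! ### squarefree integers -/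

lemma exists_sqf {n : ℤ} (hn : n ≠ 0) : ∃ s t : ℤ, Squarefree s ∧ t ≠ 0 ∧ n = s * t ^ 2 := by
  obtain ⟨a, b, hab, ha⟩ := Nat.sq_mul_squarefree n.natAbs
  have hb : (b : ℤ) ≠ 0 := by
    intro h0
    have h1 : b = 0 := by exact_mod_cast h0
    rw [h1] at hab
    apply hn
    rw [← Int.natAbs_eq_zero, ← hab]
    ring
  rcases Int.natAbs_eq n with h1 | h1
  · refine ⟨a, b, Int.squarefree_natCast.2 ha, hb, ?_⟩
    rw [h1, ← hab]
    push_cast
    ring
  · refine ⟨-a, b, ?_, hb, ?_⟩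
    · rw [← Int.squarefree_natAbs, Int.natAbs_neg, Int.natAbs_natCast]
      exact ha
    · rw [h1, ← hab]
      push_cast
      ring

/-- the squarefree part -/
noncomputable def sqf (n : ℤ) : ℤ := if hn : n ≠ 0 then (exists_sqf hn).choose else 0

lemma sqf_spec {n : ℤ} (hn : n ≠ 0) : Squarefree (sqf n) ∧ ∃ t : ℤ, t ≠ 0 ∧ n = sqf n * t ^ 2 := by
  unfold sqf
  rw [dif_pos hn]
  obtain ⟨t, h1, h2, h3⟩ := (exists_sqf hn).choose_spec
  exact ⟨h1, t, h2, h3⟩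

lemma uniq {s s' : ℤ} (hs : Squarefree s) (hs' : Squarefree s') {t t' : ℤ} (ht : t ≠ 0)
    (ht' : t' ≠ 0) (h : s * t ^ 2 = s' * t' ^ 2) : s = s' := by
  have hs0 := hs.ne_zero
  have hs0' := hs'.ne_zero
  have h1 : t' ^ 2 ∣ (s * t) ^ 2 := ⟨s * s', by linear_combination s * h⟩
  have h2 : t' ∣ s * t := (Int.pow_dvd_pow_iff two_ne_zero).1 h1
  obtain ⟨k, hk⟩ := h2
  have h3 : k ^ 2 = s * s' := by
    have : t' ^ 2 * k ^ 2 = t' ^ 2 * (s * s') := by
      have h4 : (s * t) ^ 2 = (t' * k) ^ 2 := by rw [hk]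
      linear_combination s * h - h4
    exact mul_left_cancel₀ (pow_ne_zero 2 ht') this
  have h5 : s ∣ k := (hs.dvd_pow_iff_dvd two_ne_zero).1 ⟨s', h3⟩
  have h6 : s' ∣ k := (hs'.dvd_pow_iff_dvd two_ne_zero).1 ⟨s, by rw [h3, mul_comm]⟩
  obtain ⟨m, hm⟩ := h5
  obtain ⟨m', hm'⟩ := h6
  have h7 : s * m ^ 2 = s' := by
    apply mul_left_cancel₀ hs0
    rw [← h3, hm]
    ring
  have h8 : s' * m' ^ 2 = s := by
    apply mul_left_cancel₀ hs0'
    rw [mul_comm s' s, ← h3, hm']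
    ring
  have h9 : m ^ 2 * m' ^ 2 = 1 := by
    apply mul_left_cancel₀ hs0
    rw [← mul_assoc, h7, h8, mul_one]
  have h10 : IsUnit m := IsUnit.of_mul_eq_one (m * m' ^ 2) (by rw [← h9]; ring)
  rcases Int.isUnit_iff.1 h10 with h11 | h11
  · rw [← h7, h11]
    ring
  · rw [← h7, h11]
    ring

section

variable {A B : ℤ}

lemma sqf_mul {u v w : ℤ} (hu : Squarefree u) (hv : Squarefree v) (hw : w = sqf (u * v)) :
    Squarefree w ∧ ∃ t : ℤ, t ≠ 0 ∧ u * v = w * t ^ 2 := by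
  rw [hw]
  exact sqf_spec (mul_ne_zero hu.ne_zero hv.ne_zero)

lemma sqf_inv {u v : ℤ} (hu : Squarefree u) (hv : Squarefree v) : sqf (u * sqf (u * v)) = v := by
  obtain ⟨h1, t, ht, h2⟩ := sqf_spec (mul_ne_zero hu.ne_zero hv.ne_zero)
  obtain ⟨h3, t', ht', h4⟩ := sqf_spec (mul_ne_zero hu.ne_zero h1.ne_zero)
  refine uniq h3 hv (mul_ne_zero ht' ht) hu.ne_zero ?_
  linear_combination (-t ^ 2) * h4 - u * h2

/-- the classes -/
abbrev SS (A B : ℤ) : Type := {u : ℤ // Squarefree u ∧ ELU A B u}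

/-- the trivial classes -/
abbrev VV (A B : ℤ) : Type := {u : ℤ // Squarefree u ∧ LU A B u ℚ}

/-- the class of an integer -/
noncomputable def psi (h : HK A B) (u : SS A B) : Sha (IAB A B) :=
  mkQ ⟨cc h u.1, (cc_sha h u.2.1.ne_zero).2 u.2.2⟩

lemma psi_two (h : HK A B) (u : SS A B) : 2 • psi h u = 0 := by
  unfold psi
  rw [two_nsmul, ← mkQ_add, mk_zero]
  have e1 : (((⟨cc h u.1, (cc_sha h u.2.1.ne_zero).2 u.2.2⟩ : shaCoc (IAB A B)) +
      (⟨cc h u.1, (cc_sha h u.2.1.ne_zero).2 u.2.2⟩ : shaCoc (IAB A B)) :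
        shaCoc (IAB A B)) : Coch (IAB A B)) = 0 := cc_two h u.2.1.ne_zero
  rw [e1]
  exact cob_zero _

lemma V_sub (h : HK A B) {v : ℤ} (hv : v ≠ 0) (H : LU A B v ℚ) : ELU A B v :=
  (cc_sha h hv).1 (cob_sha ((cc_cob h hv).2 H))

lemma E_mul (h : HK A B) {u v w t : ℤ} (hu : u ≠ 0) (hv : v ≠ 0) (hw0 : w ≠ 0) (ht : t ≠ 0)
    (hw : u * v = w * t ^ 2) (H : ELU A B u) (H' : ELU A B v) : ELU A B w := by
  rw [← cc_sha h hw0, ← cc_mul h hu hv ht hw]
  exact sha_add ((cc_sha h hu).2 H) ((cc_sha h hv).2 H')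

lemma psi_add (h : HK A B) (u v w : SS A B) {t : ℤ} (ht : t ≠ 0)
    (hw : u.1 * v.1 = w.1 * t ^ 2) : psi h w = psi h u + psi h v := by
  unfold psi
  rw [← mkQ_add]
  congr 1
  apply Subtype.ext
  exact (cc_mul h u.2.1.ne_zero v.2.1.ne_zero ht hw).symm

lemma psi_zero (h : HK A B) (u : SS A B) : psi h u = 0 ↔ LU A B u.1 ℚ := by
  unfold psi
  rw [mk_zero]
  exact cc_cob h u.2.1.ne_zero

lemma psi_surj (h : HK A B) (hS : ∀ x : Sha (EAB A B), 2 • x = 0 → x = 0)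
    (x : Sha (IAB A B)) (hx : 2 • x = 0) : ∃ u, psi h u = x := by
  obtain ⟨e, he, hV, hx'⟩ := class_of h x (hS _ (by rw [← map_nsmul, hx, map_zero]))
  exact ⟨⟨e, he, (cc_sha h he.ne_zero).1 hV⟩, hx'.symm⟩

/-- multiplication of the classes -/
noncomputable def mulS (h : HK A B) (u v : SS A B) : SS A B :=
  ⟨sqf (u.1 * v.1), (sqf_spec (mul_ne_zero u.2.1.ne_zero v.2.1.ne_zero)).1, by
    obtain ⟨h1, t, ht, h2⟩ := sqf_spec (mul_ne_zero u.2.1.ne_zero v.2.1.ne_zero)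
    exact E_mul h u.2.1.ne_zero v.2.1.ne_zero h1.ne_zero ht h2 u.2.2 v.2.2⟩

lemma psi_mul (h : HK A B) (u v : SS A B) : psi h (mulS h u v) = psi h u + psi h v := by
  obtain ⟨h1, t, ht, h2⟩ := sqf_spec (mul_ne_zero u.2.1.ne_zero v.2.1.ne_zero)
  exact psi_add h u v _ ht h2

lemma mul_inv (h : HK A B) (u v : SS A B) : mulS h u (mulS h u v) = v :=
  Subtype.ext (sqf_inv u.2.1 v.2.1)

/-- a choice of the classes -/
noncomputable def ch (h : HK A B) (hS : ∀ x : Sha (EAB A B), 2 • x = 0 → x = 0)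
    (x : {x : Sha (IAB A B) // 2 • x = 0}) : SS A B := (psi_surj h hS x.1 x.2).choose

lemma ch_spec (h : HK A B) (hS : ∀ x : Sha (EAB A B), 2 • x = 0 → x = 0)
    (x : {x : Sha (IAB A B) // 2 • x = 0}) : psi h (ch h hS x) = x.1 :=
  (psi_surj h hS x.1 x.2).choose_spec

/-- the classes of the points -/
def inc (h : HK A B) (v : VV A B) : SS A B := ⟨v.1, v.2.1, V_sub h v.2.1.ne_zero v.2.2⟩

/-- the bijection -/
noncomputable def eqv (h : HK A B) (hS : ∀ x : Sha (EAB A B), 2 • x = 0 → x = 0) :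
    {x : Sha (IAB A B) // 2 • x = 0} × VV A B ≃ SS A B where
  toFun p := mulS h (ch h hS p.1) (inc h p.2)
  invFun u := (⟨psi h u, psi_two h u⟩,
    ⟨(mulS h (ch h hS ⟨psi h u, psi_two h u⟩) u).1,
      (mulS h (ch h hS ⟨psi h u, psi_two h u⟩) u).2.1, by
      rw [← psi_zero h, psi_mul, ch_spec, ← two_nsmul]
      exact psi_two h u⟩)
  left_inv p := by
    have h1 : (⟨psi h (mulS h (ch h hS p.1) (inc h p.2)), psi_two h _⟩ :
        {x : Sha (IAB A B) // 2 • x = 0}) = p.1 := by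
      apply Subtype.ext
      show psi h (mulS h (ch h hS p.1) (inc h p.2)) = p.1.1
      rw [psi_mul, ch_spec, (psi_zero h (inc h p.2)).2 p.2.2.2, add_zero]
    refine Prod.ext h1 (Subtype.ext ?_)
    show (mulS h (ch h hS ⟨psi h (mulS h (ch h hS p.1) (inc h p.2)), psi_two h _⟩)
      (mulS h (ch h hS p.1) (inc h p.2))).1 = p.2.1
    rw [h1, mul_inv]
    rfl
  right_inv u := mul_inv h _ u

end

theorem t_IABS2 : S_IABS2 := by
  intro A B hA hB hAB hS hfin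
  have h := hk hA hB hAB
  have hF : Finite (SS A B) := hfin

  have hX : Finite {x : Sha (IAB A B) // 2 • x = 0} := by
    refine Finite.of_surjective (fun u : SS A B => (⟨psi h u, psi_two h u⟩ :
      {x : Sha (IAB A B) // 2 • x = 0})) ?_
    rintro ⟨x, hx⟩
    obtain ⟨u, hu⟩ := psi_surj h hS x hx
    exact ⟨u, Subtype.ext hu⟩
  refine ⟨hX, ?_⟩
  have h1 := Nat.card_congr (eqv h hS)
  rw [Nat.card_prod] at h1
  rw [← Nat.card_coe_set_eq, ← Nat.card_coe_set_eq]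
  exact h1

end Pool.Agent.H743.I17.QIABS2
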