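import Pool.Agent.H743.X17.IsoStm
import Pool.Agent.H743.X17.AP

/-!
# I17 IAP: 2-isogenous curves have the same number of points; Frobenius traces of WJ j m
-/

set_option autoImplicit false

open scoped Classical

namespace Pool.Agent.H743.X17

namespace IAPaux

open Pool.Agent.W97.MT (ap affCount)
open Pool.Agent.N974.Gen

theorem icnt : S_ICNT := by
  intro p _ a b hp hb _
  have h1 := Pool.Agent.H82R3.EK.card_points (rc hp)
    (fun x : ZMod p => x ^ 3 + a * x ^ 2 + b * x)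
  have h2 := Pool.Agent.H82R3.EK.card_points (rc hp)
    (fun x : ZMod p => x ^ 3 - 2 * a * x ^ 2 + (a ^ 2 - 4 * b) * x)
  have h3 := char_isog hp (a := a) hb
  have e1 : ∀ x : ZMod p, x * (x ^ 2 + a * x + b) = x ^ 3 + a * x ^ 2 + b * x := by
    intro x; ring
  have e2 : ∀ x : ZMod p, x * (x ^ 2 - 2 * a * x + (a ^ 2 - 4 * b)) =
      x ^ 3 - 2 * a * x ^ 2 + (a ^ 2 - 4 * b) * x := by
    intro x; ring
  simp only [e1, e2] at h3
  rw [h3] at h1
  have h4 := h1.trans h2.symm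
  exact_mod_cast h4

/-- the parameter -/
def Nn (m : ℤ) : ℤ := if m % 4 = 1 then m else 4 * m

lemma bM (m : ℤ) : (WM m).b₂ = -15 * Nn m ∧ (WM m).b₄ = -2 * (Nn m) ^ 2 ∧ (WM m).b₆ = 0 := by
  unfold WM Nn
  split_ifs with h
  · simp only [W1, WeierstrassCurve.b₂, WeierstrassCurve.b₄, WeierstrassCurve.b₆]
    refine ⟨by omega, by ring, by ring⟩
  · simp only [W2, WeierstrassCurve.b₂, WeierstrassCurve.b₄, WeierstrassCurve.b₆]
    refine ⟨by ring, by ring, by ring⟩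

lemma be_mod (j : Fin 3) (m : ℤ) (h : m % 4 = 1) : 4 * ((be j * m - 1) / 4) = be j * m - 1 := by
  fin_cases j
  · change 4 * ((33 * m - 1) / 4) = 33 * m - 1
    omega
  · change 4 * ((9 * m - 1) / 4) = 9 * m - 1
    omega
  · change 4 * ((-63 * m - 1) / 4) = -63 * m - 1
    omega

lemma bJ (j : Fin 3) (m : ℤ) : (WJ j m).b₂ = be j * Nn m ∧ (WJ j m).b₄ = 2 * ga j * (Nn m) ^ 2 ∧
    (WJ j m).b₆ = 4 * de j * (Nn m) ^ 3 := by
  unfold WJ Nn
  split_ifs with h
  · simp only [WeierstrassCurve.b₂, WeierstrassCurve.b₄, WeierstrassCurve.b₆]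
    have := be_mod j m h
    refine ⟨by linarith, by ring, by ring⟩
  · simp only [WeierstrassCurve.b₂, WeierstrassCurve.b₄, WeierstrassCurve.b₆]
    refine ⟨by ring, by ring, by ring⟩

section

variable {p : ℕ} [Fact p.Prime] (hp : p ≠ 2)
include hp

lemma n4 : (4 : ZMod p) ≠ 0 := by
  rw [show (4 : ZMod p) = 2 * 2 by norm_num]
  exact mul_ne_zero (two_ne hp) (two_ne hp)

lemma sum0 (N : ZMod p) (hN : N ≠ 0) :
    ∑ x : ZMod p, quadraticChar (ZMod p) (4 * x ^ 3 + 33 * N * x ^ 2 + 88 * N ^ 2 * x +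
      20 * N ^ 3) =
    ∑ x : ZMod p, quadraticChar (ZMod p) (4 * x ^ 3 - 15 * N * x ^ 2 - 4 * N ^ 2 * x) := by
  have h4 := n4 hp
  have hb : (-16 * N ^ 2 : ZMod p) ≠ 0 := by
    rw [show (-16 * N ^ 2 : ZMod p) = -(4 * 4 * (N * N)) by ring]
    exact neg_ne_zero.2 (mul_ne_zero (mul_ne_zero h4 h4) (mul_ne_zero hN hN))
  have h1 := char_isog hp (a := -15 * N) hb
  have h2 := char_aff hp (g := fun x : ZMod p => 4 * x ^ 3 + 33 * N * x ^ 2 + 88 * N ^ 2 * x +
      20 * N ^ 3) (k := fun x : ZMod p => x * (x ^ 2 - 2 * (-15 * N) * x +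
      ((-15 * N) ^ 2 - 4 * (-16 * N ^ 2)))) (m := 4) (t := N) (u := 4) h4 h4 (by intro x; ring)
  have h3 := char_aff hp (g := fun x : ZMod p => 4 * x ^ 3 - 15 * N * x ^ 2 - 4 * N ^ 2 * x)
      (k := fun x : ZMod p => x * (x ^ 2 + (-15 * N) * x + (-16 * N ^ 2)))
      (m := 4) (t := 0) (u := 4) h4 h4 (by intro x; ring)
  rw [h2, h3]
  exact h1.symm

lemma sum1 (N : ZMod p) (hN : N ≠ 0) :
    ∑ x : ZMod p, quadraticChar (ZMod p) (4 * x ^ 3 + 9 * N * x ^ 2 + 4 * N ^ 2 * x) =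
    ∑ x : ZMod p, quadraticChar (ZMod p) (4 * x ^ 3 - 15 * N * x ^ 2 - 4 * N ^ 2 * x) := by
  have h4 := n4 hp
  have h16 : (16 : ZMod p) ≠ 0 := by
    rw [show (16 : ZMod p) = 4 * 4 by norm_num]
    exact mul_ne_zero h4 h4
  have h32 : (32 : ZMod p) ≠ 0 := by
    rw [show (32 : ZMod p) = 16 * 2 by norm_num]
    exact mul_ne_zero h16 (two_ne hp)
  have hb : (256 * N ^ 2 : ZMod p) ≠ 0 := by
    rw [show (256 * N ^ 2 : ZMod p) = 16 * 16 * (N * N) by ring]
    exact mul_ne_zero (mul_ne_zero h16 h16) (mul_ne_zero hN hN)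
  have h1 := char_isog hp (a := 36 * N) hb
  have h2 := char_aff hp (g := fun x : ZMod p => 4 * x ^ 3 + 9 * N * x ^ 2 + 4 * N ^ 2 * x)
      (k := fun x : ZMod p => x * (x ^ 2 + (36 * N) * x + 256 * N ^ 2))
      (m := 16) (t := 0) (u := 32) h16 h32 (by intro x; ring)
  have h3 := char_aff hp (g := fun x : ZMod p => 4 * x ^ 3 - 15 * N * x ^ 2 - 4 * N ^ 2 * x)
      (k := fun x : ZMod p => x * (x ^ 2 - 2 * (36 * N) * x + ((36 * N) ^ 2 - 4 * (256 * N ^ 2))))
      (m := 16) (t := 4 * N) (u := 32) h16 h32 (by intro x; ring)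
  rw [h2, h3]
  exact h1

lemma sum2 (N : ZMod p) (hN : N ≠ 0) :
    ∑ x : ZMod p, quadraticChar (ZMod p) (4 * x ^ 3 - 63 * N * x ^ 2 - 32 * N ^ 2 * x -
      4 * N ^ 3) =
    ∑ x : ZMod p, quadraticChar (ZMod p) (4 * x ^ 3 - 15 * N * x ^ 2 - 4 * N ^ 2 * x) := by
  have h4 := n4 hp
  have h16 : (16 : ZMod p) ≠ 0 := by
    rw [show (16 : ZMod p) = 4 * 4 by norm_num]
    exact mul_ne_zero h4 h4
  have h32 : (32 : ZMod p) ≠ 0 := by
    rw [show (32 : ZMod p) = 16 * 2 by norm_num]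
    exact mul_ne_zero h16 (two_ne hp)
  have hb : (N ^ 2 : ZMod p) ≠ 0 := pow_ne_zero 2 hN
  have h1 := char_isog hp (a := -66 * N) hb
  have h2 := char_aff hp (g := fun x : ZMod p => 4 * x ^ 3 - 63 * N * x ^ 2 - 32 * N ^ 2 * x -
      4 * N ^ 3) (k := fun x : ZMod p => x * (x ^ 2 + (-66 * N) * x + N ^ 2))
      (m := 4) (t := N) (u := 4) h4 h4 (by intro x; ring)
  have h3 := char_aff hp (g := fun x : ZMod p => 4 * x ^ 3 - 15 * N * x ^ 2 - 4 * N ^ 2 * x)
      (k := fun x : ZMod p => x * (x ^ 2 - 2 * (-66 * N) * x + ((-66 * N) ^ 2 - 4 * N ^ 2)))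
      (m := 16) (t := -(64 * N)) (u := 32) h16 h32 (by intro x; ring)
  rw [h2, h3]
  exact h1

lemma odd (j : Fin 3) (m : ℤ) : ap (WJ j m) p = ap (WM m) p := by
  rw [ap_char hp, ap_char hp]
  congr 1
  obtain ⟨j1, j2, j3⟩ := bJ j m
  obtain ⟨m1, m2, m3⟩ := bM m
  rw [j1, j2, j3, m1, m2, m3]
  push_cast
  generalize (Nn m : ZMod p) = N
  have hM : ∀ x : ZMod p, 4 * x ^ 3 + -15 * N * x ^ 2 + 2 * (-2 * N ^ 2) * x + 0 =
      4 * x ^ 3 - 15 * N * x ^ 2 - 4 * N ^ 2 * x := by intro x; ring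
  simp only [hM]
  by_cases hN : N = 0
  · subst hN
    refine Finset.sum_congr rfl fun x _ => ?_
    congr 1
    ring
  · fin_cases j
    · rw [← sum0 hp N hN]
      refine Finset.sum_congr rfl fun x _ => ?_
      congr 1
      simp only [be, ga, de]
      push_cast
      ring
    · rw [← sum1 hp N hN]
      refine Finset.sum_congr rfl fun x _ => ?_
      congr 1
      simp only [be, ga, de]
      push_cast
      ring
    · rw [← sum2 hp N hN]
      refine Finset.sum_congr rfl fun x _ => ?_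
      congr 1
      simp only [be, ga, de]
      push_cast
      ring

end

lemma cast2 (n : ℤ) (h : n % 2 = 0) : ((n : ℤ) : ZMod 2) = 0 := by
  rw [ZMod.intCast_zmod_eq_zero_iff_dvd]
  simp only [Nat.cast_ofNat]
  omega

lemma cast2' (n : ℤ) (h : n % 2 = 1) : ((n : ℤ) : ZMod 2) = 1 := by
  have : ((n - 1 : ℤ) : ZMod 2) = 0 := cast2 _ (by omega)
  push_cast at this
  exact sub_eq_zero.1 this

lemma par (j : Fin 3) (m : ℤ) : (m % 8 = 1 → ((be j * m - 1) / 4) % 2 = 0) ∧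
    (m % 8 = 5 → ((be j * m - 1) / 4) % 2 = 1) := by
  fin_cases j
  · change (m % 8 = 1 → ((33 * m - 1) / 4) % 2 = 0) ∧ (m % 8 = 5 → ((33 * m - 1) / 4) % 2 = 1)
    omega
  · change (m % 8 = 1 → ((9 * m - 1) / 4) % 2 = 0) ∧ (m % 8 = 5 → ((9 * m - 1) / 4) % 2 = 1)
    omega
  · change (m % 8 = 1 → ((-63 * m - 1) / 4) % 2 = 0) ∧ (m % 8 = 5 → ((-63 * m - 1) / 4) % 2 = 1)
    omega

lemma two (j : Fin 3) (m : ℤ) : ap (WJ j m) 2 = ap (WM m) 2 := by
  rw [APaux.two_case m, ap17_2]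
  unfold WJ
  split_ifs with h4 h1 h5 h1 h5
  · have hm : ((m : ℤ) : ZMod 2) = 1 := cast2' _ (by omega)
    have h : affCount ⟨1, (be j * m - 1) / 4, 0, ga j * m ^ 2, de j * m ^ 3⟩ 2 = 3 := by
      rw [aff_eq]
      simp only []
      rw [cast2 _ ((par j m).1 h1)]
      push_cast
      rw [hm]
      fin_cases j
      · decide
      · decide
      · decide
    unfold ap
    rw [h]
    norm_num
  · have hm : ((m : ℤ) : ZMod 2) = 1 := cast2' _ (by omega)
    have h : affCount ⟨1, (be j * m - 1) / 4, 0, ga j * m ^ 2, de j * m ^ 3⟩ 2 = 1 := by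
      rw [aff_eq]
      simp only []
      rw [cast2' _ ((par j m).2 h5)]
      push_cast
      rw [hm]
      fin_cases j
      · decide
      · decide
      · decide
    unfold ap
    rw [h]
    norm_num
  · omega
  · omega
  · omega
  · have h : affCount ⟨0, be j * m, 0, 16 * ga j * m ^ 2, 64 * de j * m ^ 3⟩ 2 = 2 := by
      rw [aff_eq]
      simp only []
      have e1 : ((16 * ga j * m ^ 2 : ℤ) : ZMod 2) = 0 := by
        rw [ZMod.intCast_zmod_eq_zero_iff_dvd]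
        exact ⟨8 * ga j * m ^ 2, by push_cast; ring⟩
      have e2 : ((64 * de j * m ^ 3 : ℤ) : ZMod 2) = 0 := by
        rw [ZMod.intCast_zmod_eq_zero_iff_dvd]
        exact ⟨32 * de j * m ^ 3, by push_cast; ring⟩
      rw [e1, e2]
      generalize ((be j * m : ℤ) : ZMod 2) = a
      revert a
      decide
    unfold ap
    rw [h]
    norm_num

end IAPaux

theorem t_IAP : S_ICNT ∧ S_IAP := by
  refine ⟨IAPaux.icnt, ?_⟩
  intro j m _ p hp
  have : Fact p.Prime := ⟨hp⟩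
  by_cases h2 : p = 2
  · subst h2
    exact IAPaux.two j m
  · exact IAPaux.odd h2 j m

end Pool.Agent.H743.X17
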