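import Pool.Agent.H743.X17.IsoStm

/-!
# The periods of the curves `I¹_m`
-/

set_option autoImplicit false

open MeasureTheory Set

namespace Pool.Agent.H743.X17.QIOM1

open Pool.Agent.H743.X17
open Pool.Agent.Y700 (psi Omega)

theorem cov (F : ℝ → ℝ) {l : ℝ} (hl : 0 < l) (s c : ℝ) :
    ∫ t in Ioi (l * c + s), F t = l * ∫ x in Ioi c, F (l * x + s) := by
  have himg : (fun x => l * x + s) '' Ioi c = Ioi (l * c + s) := by
    ext y
    constructor
    · rintro ⟨x, hx, rfl⟩
      have h : c < x := hx
      show l * c + s < l * x + s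
      nlinarith
    · intro hy
      have h : l * c + s < y := hy
      refine ⟨(y - s) / l, ?_, ?_⟩
      · show c < (y - s) / l
        rw [lt_div_iff₀ hl]
        linarith
      · show l * ((y - s) / l) + s = y
        rw [mul_div_cancel₀ _ hl.ne']
        ring
  have hder : ∀ x ∈ Ioi c, HasDerivWithinAt (fun x => l * x + s) l (Ioi c) x := by
    intro x _
    have h1 : HasDerivAt (fun x => l * x + s) (l * 1) x :=
      ((hasDerivAt_id x).const_mul l).add_const s
    rw [mul_one] at h1
    exact h1.hasDerivWithinAt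
  have hinj : InjOn (fun x => l * x + s) (Ioi c) := by
    intro x _ y _ h
    have h1 : l * x + s = l * y + s := h
    have h2 : l * x = l * y := by linarith
    exact mul_left_cancel₀ hl.ne' h2
  have h := integral_image_eq_integral_abs_deriv_smul measurableSet_Ioi hder hinj F
  rw [himg] at h
  rw [h, abs_of_pos hl, ← integral_const_mul]
  rfl

/-- the two components -/
theorem split (hE : S_EGG) {a b c : ℝ} (hab : a < b) (hbc : b < c) :
    ∫ x in Ioo a b ∪ Ioi c, 1 / Real.sqrt ((x - a) * (x - b) * (x - c)) =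
      2 * ∫ x in Ioi c, 1 / Real.sqrt ((x - a) * (x - b) * (x - c)) := by
  have he := hE a b c hab hbc
  obtain ⟨g, hg⟩ : ∃ g : ℝ → ℝ, g = fun x => 1 / Real.sqrt ((x - a) * (x - b) * (x - c)) :=
    ⟨_, rfl⟩
  have hg' : ∀ x, 1 / Real.sqrt ((x - a) * (x - b) * (x - c)) = g x := fun x => by rw [hg]
  simp only [hg'] at he ⊢
  by_cases h1 : IntegrableOn g (Ioo a b)
  · have hpos : 0 < ∫ x in Ioo a b, g x := by
      rw [setIntegral_pos_iff_support_of_nonneg_ae _ h1]
      · have hsub : Ioo a b ⊆ Function.support g ∩ Ioo a b := by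
          intro x hx
          refine ⟨?_, hx⟩
          have h2 : 0 < (x - a) * (x - b) * (x - c) := by
            have e1 : 0 < x - a := by linarith [hx.1]
            have e2 : x - b < 0 := by linarith [hx.2]
            have e3 : x - c < 0 := by linarith [hx.2]
            have e4 : 0 < (x - b) * (x - c) := mul_pos_of_neg_of_neg e2 e3
            have e5 := mul_pos e1 e4
            linarith
          rw [Function.mem_support, hg]
          exact (one_div_pos.2 (Real.sqrt_pos.2 h2)).ne'
        refine lt_of_lt_of_le ?_ (measure_mono hsub)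
        rw [Real.volume_Ioo]
        exact ENNReal.ofReal_pos.2 (by linarith)
      · refine Filter.Eventually.of_forall fun x => ?_
        show 0 ≤ g x
        rw [hg]
        exact div_nonneg zero_le_one (Real.sqrt_nonneg _)
    have h3 : IntegrableOn g (Ioi c) := by
      by_contra hc
      have h4 : ∫ x in Ioi c, g x = 0 := integral_undef hc
      rw [he, h4] at hpos
      exact lt_irrefl _ hpos
    rw [setIntegral_union _ measurableSet_Ioi h1 h3, he]
    · ring
    · rw [Set.disjoint_left]
      intro x hx hx'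
      have e1 : x < b := hx.2
      have e2 : c < x := hx'
      linarith
  · have h2 : ¬ IntegrableOn g (Ioo a b ∪ Ioi c) := fun h => h1 (h.mono_set subset_union_left)
    have h3 : ∫ x in Ioo a b, g x = 0 := integral_undef h1
    have h4 : ∫ x in Ioo a b ∪ Ioi c, g x = 0 := integral_undef h2
    rw [h4, ← he, h3, mul_zero]

theorem omega_eq (hE : S_EGG) {W : WeierstrassCurve ℤ} {a b c : ℝ} (hab : a < b) (hbc : b < c)
    (h : ∀ x, psi W x = 4 * ((x - a) * (x - b) * (x - c))) :
    Omega W = 2 * ∫ x in Ioi c, 1 / Real.sqrt ((x - a) * (x - b) * (x - c)) := by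
  have hset : {x : ℝ | 0 < psi W x} = Ioo a b ∪ Ioi c := by
    ext x
    rw [mem_union]
    show 0 < psi W x ↔ (a < x ∧ x < b) ∨ c < x
    rw [h]
    constructor
    · intro hx
      by_contra hc
      push Not at hc
      obtain ⟨h1, h2⟩ := hc
      rcases le_or_gt x a with h3 | h3
      · have e1 : 0 ≤ a - x := by linarith
        have e2 : 0 ≤ b - x := by linarith
        have e3 : 0 ≤ c - x := by linarith
        have := mul_nonneg (mul_nonneg e1 e2) e3
        nlinarith
      · have h4 := h1 h3
        have e1 : 0 ≤ x - a := by linarith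
        have e2 : 0 ≤ x - b := by linarith
        have e3 : 0 ≤ c - x := by linarith
        have := mul_nonneg (mul_nonneg e1 e2) e3
        nlinarith
    · rintro (⟨h1, h2⟩ | h1)
      · have e1 : 0 < x - a := by linarith
        have e2 : 0 < b - x := by linarith
        have e3 : 0 < c - x := by linarith
        have := mul_pos (mul_pos e1 e2) e3
        nlinarith
      · have e1 : 0 < x - a := by linarith
        have e2 : 0 < x - b := by linarith
        have e3 : 0 < x - c := by linarith
        have := mul_pos (mul_pos e1 e2) e3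
        linarith
  rw [← split hE hab hbc]
  unfold Omega
  rw [hset]
  refine integral_congr_ae (Filter.Eventually.of_forall fun x => ?_)
  simp only
  rw [h, Real.sqrt_mul (by norm_num)]
  have h4 : Real.sqrt 4 = 2 := by
    rw [show (4 : ℝ) = 2 ^ 2 by norm_num, Real.sqrt_sq (by norm_num)]
  rw [h4]
  by_cases h0 : Real.sqrt ((x - a) * (x - b) * (x - c)) = 0
  · rw [h0]
    simp
  · field_simp

/-- the scaled integral -/
theorem scale {F : ℝ → ℝ} {l s k : ℝ} (hl : 0 < l) (hk : 0 < k) {a b c : ℝ}
    (hF : ∀ x, F (l * x + s) = 1 / Real.sqrt (k ^ 2 * ((x - a) * (x - b) * (x - c)))) :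
    ∫ t in Ioi (l * c + s), F t =
      l / k * ∫ x in Ioi c, 1 / Real.sqrt ((x - a) * (x - b) * (x - c)) := by
  rw [cov F hl, div_mul_eq_mul_div, mul_div_assoc]
  congr 1
  rw [div_eq_mul_inv, mul_comm, ← integral_const_mul]
  refine integral_congr_ae (Filter.Eventually.of_forall fun x => ?_)
  simp only
  rw [hF, Real.sqrt_mul (by positivity), Real.sqrt_sq hk.le, one_div, one_div, mul_inv]

theorem psi_WM (m : ℤ) : ∃ N : ℤ, (0 < m → 0 < N) ∧ (m < 0 → N < 0) ∧
    (∀ x, psi (WM m) x = x * (4 * x + N) * (x - 4 * N)) ∧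
    ∀ x, psi (WJ 1 m) x = x * (4 * x ^ 2 + 9 * N * x + 4 * N ^ 2) := by
  by_cases hm : m % 4 = 1
  · obtain ⟨k, hk⟩ : ∃ k, m = 4 * k + 1 := ⟨m / 4, by omega⟩
    refine ⟨m, fun h => h, fun h => h, fun x => ?_, fun x => ?_⟩
    · unfold WM
      rw [if_pos hm]
      unfold psi W1 WeierstrassCurve.b₂ WeierstrassCurve.b₄ WeierstrassCurve.b₆
      have h1 : -((15 * m + 1) / 4) = -(15 * k + 4) := by omega
      rw [h1]
      simp only
      push_cast
      rw [hk]
      push_cast
      ring
    · unfold WJ
      rw [if_pos hm]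
      unfold psi be ga de WeierstrassCurve.b₂ WeierstrassCurve.b₄ WeierstrassCurve.b₆
      have h1 : (9 * m - 1) / 4 = 9 * k + 2 := by omega
      simp only
      rw [h1]
      push_cast
      rw [hk]
      push_cast
      ring
  · refine ⟨4 * m, fun h => by omega, fun h => by omega, fun x => ?_, fun x => ?_⟩
    · unfold WM
      rw [if_neg hm]
      unfold psi W2 WeierstrassCurve.b₂ WeierstrassCurve.b₄ WeierstrassCurve.b₆
      simp only
      push_cast
      ring
    · unfold WJ
      rw [if_neg hm]
      unfold psi be ga de WeierstrassCurve.b₂ WeierstrassCurve.b₄ WeierstrassCurve.b₆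
      simp only
      push_cast
      ring

theorem t_IOM1 : S_LAND → S_EGG → S_IOM1 := by
  intro hL hE m
  obtain ⟨N, hN1, hN2, hM, hJ⟩ := psi_WM m
  have h17 : Real.sqrt 17 ^ 2 = 17 := Real.sq_sqrt (by norm_num)
  have h17a : 4 < Real.sqrt 17 := by
    rw [show (4 : ℝ) = Real.sqrt (4 ^ 2) by rw [Real.sqrt_sq (by norm_num)]]
    exact Real.sqrt_lt_sqrt (by norm_num) (by norm_num)
  have h17b : Real.sqrt 17 < 9 := by
    rw [show (9 : ℝ) = Real.sqrt (9 ^ 2) by rw [Real.sqrt_sq (by norm_num)]]
    exact Real.sqrt_lt_sqrt (by norm_num) (by norm_num)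
  constructor
  · intro hm
    have hN : (0 : ℝ) < N := by exact_mod_cast hN1 hm
    -- the period of `E`
    have e1 := omega_eq hE (W := WM m) (a := -(N : ℝ) / 4) (b := 0) (c := 4 * N)
      (by linarith) (by linarith) (fun x => by rw [hM]; ring)
    have e2 := scale (F := fun t => 1 / Real.sqrt (t * ((t - 9 * N) ^ 2 - 4 * (16 * N ^ 2))))
      (l := 4) (s := N) (k := 8) (a := -(N : ℝ) / 4) (b := 0) (c := 4 * N) (by norm_num)
      (by norm_num) (fun x => by
        show 1 / Real.sqrt _ = _
        congr 2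
        ring)
    have e3 := omega_eq hE (W := WJ 1 m) (a := (-9 - Real.sqrt 17) * N / 8)
      (b := (-9 + Real.sqrt 17) * N / 8) (c := 0) (by nlinarith) (by nlinarith) (fun x => by
        rw [hJ]
        linear_combination ((x * N ^ 2) / 16) * h17)
    have e4 := scale (F := fun t => 1 / Real.sqrt (t * (t ^ 2 + 9 * N * t + 16 * N ^ 2)))
      (l := 4) (s := 0) (k := 8) (a := (-9 - Real.sqrt 17) * N / 8)
      (b := (-9 + Real.sqrt 17) * N / 8) (c := 0) (by norm_num)
      (by norm_num) (fun x => by
        show 1 / Real.sqrt _ = _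
        congr 2
        linear_combination (x * N ^ 2) * h17)
    have hsq : Real.sqrt (16 * (N : ℝ) ^ 2) = 4 * N := by
      rw [show 16 * (N : ℝ) ^ 2 = (4 * N) ^ 2 by ring, Real.sqrt_sq (by linarith)]
    have e5 := hL (9 * N) (16 * N ^ 2) (by positivity) (by rw [hsq]; linarith)
    rw [hsq] at e5
    have c1 : (9 : ℝ) * N + 2 * (4 * N) = 4 * (4 * N) + N := by ring
    have c2 : (0 : ℝ) = 4 * 0 + 0 := by ring
    rw [c1, e2] at e5
    have e6 : ∫ x in Ioi (0 : ℝ), 1 / Real.sqrt (x * (x ^ 2 + 9 * N * x + 16 * N ^ 2)) =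
      4 / 8 * ∫ x in Ioi (0 : ℝ), 1 / Real.sqrt ((x - (-9 - Real.sqrt 17) * N / 8) *
        (x - (-9 + Real.sqrt 17) * N / 8) * (x - 0)) := by
      rw [← e4]
      congr 2
      norm_num
    rw [e6] at e5
    rw [e1, e3]
    linarith
  · intro hm
    have hN : (N : ℝ) < 0 := by exact_mod_cast hN2 hm
    obtain ⟨M, hMN⟩ : ∃ M : ℝ, M = -N := ⟨_, rfl⟩
    have hM0 : 0 < M := by linarith
    have hNM : (N : ℝ) = -M := by linarith
    have e1 := omega_eq hE (W := WM m) (a := -4 * M) (b := 0) (c := M / 4)
      (by linarith) (by linarith) (fun x => by rw [hM, hNM]; ring)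
    have e2 := scale (F := fun t => 1 / Real.sqrt (t * (t ^ 2 + 18 * M * t + 17 * M ^ 2)))
      (l := 4) (s := -M) (k := 8) (a := -4 * M) (b := 0) (c := M / 4) (by norm_num)
      (by norm_num) (fun x => by
        show 1 / Real.sqrt _ = _
        congr 2
        ring)
    have e3 := omega_eq hE (W := WJ 1 m) (a := 0) (b := (9 - Real.sqrt 17) * M / 8)
      (c := (9 + Real.sqrt 17) * M / 8) (by nlinarith) (by nlinarith) (fun x => by
        rw [hJ, hNM]
        linear_combination ((x * M ^ 2) / 16) * h17)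
    have e4 := scale (F := fun t => 1 / Real.sqrt (t * ((t - 18 * M) ^ 2 - 4 * (17 * M ^ 2))))
      (l := 16) (s := 0) (k := 64) (a := 0) (b := (9 - Real.sqrt 17) * M / 8)
      (c := (9 + Real.sqrt 17) * M / 8) (by norm_num)
      (by norm_num) (fun x => by
        show 1 / Real.sqrt _ = _
        congr 2
        linear_combination (64 * x * M ^ 2) * h17)
    have hsq : Real.sqrt (17 * M ^ 2) = Real.sqrt 17 * M := by
      rw [Real.sqrt_mul (by norm_num), Real.sqrt_sq hM0.le]
    have e5 := hL (18 * M) (17 * M ^ 2) (by positivity) (by rw [hsq]; nlinarith)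
    rw [hsq] at e5
    have c1 : 18 * M + 2 * (Real.sqrt 17 * M) = 16 * ((9 + Real.sqrt 17) * M / 8) + 0 := by ring
    have c2 : 4 * (M / 4) + -M = 0 := by ring
    rw [c2] at e2
    rw [c1, e4, e2] at e5
    rw [e1, e3]
    linarith

end Pool.Agent.H743.X17.QIOM1
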