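import Pool.Agent.H743.X17.IsoStm

/-!
# I17 IOM2: periods, j = 2
-/

set_option autoImplicit false

open scoped Classical

open MeasureTheory Set

namespace Pool.Agent.H743.X17.QIOM2

open Pool.Agent.H743.X17

/-- the period is an integral over the whole line -/
theorem om_full (W : WeierstrassCurve ℤ) :
    Pool.Agent.Y700.Omega W = ∫ x : ℝ, 2 / Real.sqrt (Pool.Agent.Y700.psi W x) := by
  unfold Pool.Agent.Y700.Omega
  have hm : MeasurableSet {x : ℝ | 0 < Pool.Agent.Y700.psi W x} := by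
    apply measurableSet_lt measurable_const
    unfold Pool.Agent.Y700.psi
    fun_prop
  rw [← integral_indicator hm]
  congr 1
  funext x
  by_cases h : 0 < Pool.Agent.Y700.psi W x
  · rw [indicator_of_mem (by exact h)]
  · rw [indicator_of_notMem (by exact h), Real.sqrt_eq_zero_of_nonpos (not_lt.mp h), div_zero]

/-- affine substitutions -/
theorem aff (g : ℝ → ℝ) (α β : ℝ) (hα : 0 < α) :
    ∫ x : ℝ, g (α * x + β) = α⁻¹ * ∫ x : ℝ, g x := by
  have h1 : ∫ x : ℝ, g (α * x + β) = ∫ x : ℝ, (fun y => g (y + β)) (α * x) := rfl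
  rw [h1, Measure.integral_comp_mul_left (fun y => g (y + β)) α, integral_add_right_eq_self g β,
    smul_eq_mul, abs_of_pos (inv_pos.mpr hα)]

/-- three real roots -/
theorem three (hE : S_EGG) (a b c : ℝ) (hab : a < b) (hbc : b < c) (P : ℝ → ℝ)
    (hP : ∀ x, P x = (x - a) * (x - b) * (x - c)) :
    ∫ x : ℝ, 1 / Real.sqrt (P x) = 2 * ∫ x in Ioi c, 1 / Real.sqrt (P x) := by
  have hP' : P = fun x => (x - a) * (x - b) * (x - c) := funext hP
  subst hP'
  have he := hE a b c hab hbc
  set f : ℝ → ℝ := fun x => 1 / Real.sqrt ((x - a) * (x - b) * (x - c)) with hf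
  have hz : ∀ x, x ∉ Ioo a b ∪ Ioi c → f x = 0 := by
    intro x hx
    have : (x - a) * (x - b) * (x - c) ≤ 0 := by
      simp only [mem_union, mem_Ioo, mem_Ioi, not_or, not_and, not_lt] at hx
      obtain ⟨h1, h2⟩ := hx
      rcases le_or_gt x a with h3 | h3
      · have e1 : 0 ≤ (x - a) * (x - b) := mul_nonneg_of_nonpos_of_nonpos (by linarith) (by linarith)
        exact mul_nonpos_of_nonneg_of_nonpos e1 (by linarith)
      · have h4 := h1 h3
        have e1 : 0 ≤ (x - a) * (x - b) := mul_nonneg (by linarith) (by linarith)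
        exact mul_nonpos_of_nonneg_of_nonpos e1 (by linarith)
    show 1 / Real.sqrt _ = 0
    rw [Real.sqrt_eq_zero_of_nonpos this, div_zero]
  have h1 : ∫ x : ℝ, f x = ∫ x in Ioo a b ∪ Ioi c, f x := by
    rw [setIntegral_eq_integral_of_forall_compl_eq_zero hz]
  show ∫ x : ℝ, f x = 2 * ∫ x in Ioi c, f x
  have he' : ∫ x in Ioo a b, f x = ∫ x in Ioi c, f x := he
  rw [h1]
  have hd : Disjoint (Ioo a b) (Ioi c) := by
    rw [Set.disjoint_left]
    intro x hx hx'
    simp only [mem_Ioo, mem_Ioi] at hx hx'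
    linarith [hx.2]
  by_cases hI : IntegrableOn f (Ioi c)
  · have hpos : 0 < ∫ x in Ioi c, f x := by
      rw [setIntegral_pos_iff_support_of_nonneg_ae]
      · have hs : Function.support f ∩ Ioi c = Ioi c := by
          apply inter_eq_right.mpr
          intro x hx
          simp only [mem_Ioi] at hx
          have : 0 < (x - a) * (x - b) * (x - c) :=
            mul_pos (mul_pos (by linarith) (by linarith)) (by linarith)
          have h2 : 0 < f x := by
            show 0 < 1 / Real.sqrt _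
            exact div_pos one_pos (Real.sqrt_pos.mpr this)
          exact h2.ne'
        rw [hs, Real.volume_Ioi]
        exact ENNReal.zero_lt_top
      · filter_upwards with x
        show 0 ≤ 1 / Real.sqrt _
        positivity
      · exact hI
    have hJ : IntegrableOn f (Ioo a b) := by
      by_contra hJ
      rw [integral_undef hJ] at he'
      linarith
    rw [setIntegral_union hd measurableSet_Ioi hJ hI, he']
    ring
  · have hU : ¬ IntegrableOn f (Ioo a b ∪ Ioi c) := fun h => hI (h.mono_set subset_union_right)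
    rw [integral_undef hU, integral_undef hI, mul_zero]

/-- scaling of the integrand -/
theorem scal (k : ℝ) (hk : 0 < k) (P : ℝ → ℝ) :
    ∫ x : ℝ, 1 / Real.sqrt (k * P x) = (Real.sqrt k)⁻¹ * ∫ x : ℝ, 1 / Real.sqrt (P x) := by
  rw [← integral_const_mul]
  congr 1
  funext x
  rw [Real.sqrt_mul hk.le, one_div, one_div, mul_inv]

/-- the common computation -/
theorem omP (W : WeierstrassCurve ℤ) (P : ℝ → ℝ) (β : ℝ)
    (h : ∀ x, 16 * Pool.Agent.Y700.psi W x = P (4 * x + β)) :
    Pool.Agent.Y700.Omega W = 2 * ∫ x : ℝ, 1 / Real.sqrt (P x) := by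
  rw [om_full]
  have h1 : (fun x : ℝ => 2 / Real.sqrt (Pool.Agent.Y700.psi W x)) =
      fun x => 8 * (fun y => 1 / Real.sqrt (P y)) (4 * x + β) := by
    funext x
    show _ = 8 * (1 / Real.sqrt (P (4 * x + β)))
    rw [← h x, Real.sqrt_mul (by norm_num)]
    have : Real.sqrt 16 = 4 := by
      rw [show (16 : ℝ) = 4 ^ 2 by norm_num]
      exact Real.sqrt_sq (by norm_num)
    rw [this, one_div, mul_inv, div_eq_mul_inv]
    ring
  rw [h1, integral_const_mul, aff (fun y => 1 / Real.sqrt (P y)) 4 β (by norm_num)]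
  ring

/-- `N` -/
def NN (m : ℤ) : ℤ := if m % 4 = 1 then m else 4 * m

theorem psiM (m : ℤ) (x : ℝ) : Pool.Agent.Y700.psi (WM m) x =
    x * (4 * x + NN m) * (x - 4 * NN m) := by
  have h2 : (WM m).b₂ = -15 * NN m ∧ (WM m).b₄ = -2 * NN m ^ 2 ∧ (WM m).b₆ = 0 := by
    unfold WM NN
    split_ifs with h
    · refine ⟨?_, ?_, ?_⟩
      · simp only [W1, WeierstrassCurve.b₂]
        omega
      · simp only [W1, WeierstrassCurve.b₄]
        ring
      · simp only [W1, WeierstrassCurve.b₆]
        ring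
    · refine ⟨?_, ?_, ?_⟩
      · simp only [W2, WeierstrassCurve.b₂]
        ring
      · simp only [W2, WeierstrassCurve.b₄]
        ring
      · simp only [W2, WeierstrassCurve.b₆]
        ring
  unfold Pool.Agent.Y700.psi
  rw [h2.1, h2.2.1, h2.2.2]
  push_cast
  ring

theorem psi2 (m : ℤ) (x : ℝ) : Pool.Agent.Y700.psi (WJ 2 m) x =
    (4 * x + NN m) * (x ^ 2 - 16 * NN m * x - 4 * (NN m : ℝ) ^ 2) := by
  have hb : be 2 = -63 := rfl
  have hg : ga 2 = -8 := rfl
  have hd : de 2 = -1 := rfl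
  have h2 : (WJ 2 m).b₂ = -63 * NN m ∧ (WJ 2 m).b₄ = -16 * NN m ^ 2 ∧
      (WJ 2 m).b₆ = -4 * NN m ^ 3 := by
    unfold WJ NN
    rw [hb, hg, hd]
    split_ifs with h
    · refine ⟨?_, ?_, ?_⟩
      · simp only [WeierstrassCurve.b₂]
        omega
      · simp only [WeierstrassCurve.b₄]
        ring
      · simp only [WeierstrassCurve.b₆]
        ring
    · refine ⟨?_, ?_, ?_⟩
      · simp only [WeierstrassCurve.b₂]
        ring
      · simp only [WeierstrassCurve.b₄]
        ring
      · simp only [WeierstrassCurve.b₆]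
        ring
  unfold Pool.Agent.Y700.psi
  rw [h2.1, h2.2.1, h2.2.2]
  push_cast
  ring

theorem s17 : Real.sqrt 17 ^ 2 = 17 := Real.sq_sqrt (by norm_num)

theorem s17b : 4 < Real.sqrt 17 ∧ Real.sqrt 17 < 4.125 := by
  constructor
  · rw [Real.lt_sqrt (by norm_num)]; norm_num
  · rw [Real.sqrt_lt' (by norm_num)]; norm_num

theorem t_IOM2 : S_LAND → S_EGG → S_IOM2 := by
  intro hL hE m
  have e1 := omP (WM m) (fun t => t * (t + 16 * NN m) * (t + 17 * NN m)) (-16 * NN m) (by
    intro x
    rw [psiM]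
    ring)
  have e2 := omP (WJ 2 m) (fun t => t * (t ^ 2 - 66 * NN m * t + (NN m : ℝ) ^ 2)) (NN m) (by
    intro x
    rw [psi2]
    ring)
  obtain ⟨r1, r2⟩ := s17b
  have r3 := s17
  constructor
  · intro hm
    have hN : (0 : ℝ) < NN m := by
      have : 0 < NN m := by unfold NN; split_ifs <;> omega
      exact_mod_cast this
    set N : ℝ := (NN m : ℝ) with hNd
    have e3 := three hE (-17 * N) (-16 * N) 0 (by linarith) (by linarith)
      (fun t => t * (t + 16 * N) * (t + 17 * N)) (fun x => by ring)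
    have hq : Real.sqrt (272 * N ^ 2) = 4 * Real.sqrt 17 * N := by
      rw [show 272 * N ^ 2 = (4 * Real.sqrt 17 * N) ^ 2 by nlinarith [r3]]
      exact Real.sqrt_sq (by positivity)
    have e4 := hL (33 * N) (272 * N ^ 2) (by positivity) (by rw [hq]; nlinarith)
    have e5 := three hE 0 ((33 - 8 * Real.sqrt 17) * N) ((33 + 8 * Real.sqrt 17) * N)
      (mul_pos (by linarith) hN) (by nlinarith)
      (fun t => t * (t ^ 2 - 66 * N * t + N ^ 2)) (fun x => by
        have : (x - 0) * (x - (33 - 8 * Real.sqrt 17) * N) * (x - (33 + 8 * Real.sqrt 17) * N) =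
          x * (x ^ 2 - 66 * N * x + (1089 - 64 * Real.sqrt 17 ^ 2) * N ^ 2) := by ring
        rw [this, r3]
        ring)
    rw [e1, e2, e3, e5]
    rw [hq] at e4
    have e6 : (fun x : ℝ => 1 / Real.sqrt (x * (x ^ 2 + 33 * N * x + 272 * N ^ 2))) =
        fun x => 1 / Real.sqrt (x * (x + 16 * N) * (x + 17 * N)) := by
      funext x
      congr 2
      ring
    have e7 : (fun t : ℝ => 1 / Real.sqrt (t * ((t - 33 * N) ^ 2 - 4 * (272 * N ^ 2)))) =
        fun t => 1 / Real.sqrt (t * (t ^ 2 - 66 * N * t + N ^ 2)) := by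
      funext x
      congr 2
      ring
    have e8 : 33 * N + 2 * (4 * Real.sqrt 17 * N) = (33 + 8 * Real.sqrt 17) * N := by ring
    rw [e6, e7, e8] at e4
    show 2 * (2 * ∫ x in Ioi 0, 1 / Real.sqrt (x * (x + 16 * N) * (x + 17 * N))) = _
    rw [e4]
  · intro hm
    have hN : (NN m : ℝ) < 0 := by
      have : NN m < 0 := by unfold NN; split_ifs <;> omega
      exact_mod_cast this
    obtain ⟨M, hM⟩ : ∃ M : ℝ, M = - (NN m : ℝ) := ⟨_, rfl⟩
    have hN' : (NN m : ℝ) = - M := by rw [hM]; ring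
    have hM0 : 0 < M := by rw [hM]; linarith
    rw [hN'] at e1 e2
    have e3 := three hE 0 (16 * M) (17 * M) (by linarith) (by linarith)
      (fun t => t * (t + 16 * -M) * (t + 17 * -M)) (fun x => by ring)
    have hq : Real.sqrt (M ^ 2) = M := Real.sqrt_sq hM0.le
    have e4 := hL (66 * M) (M ^ 2) (by positivity) (by rw [hq]; linarith)
    have e5 := three hE (-(33 + 8 * Real.sqrt 17) * M) (-(33 - 8 * Real.sqrt 17) * M) 0
      (by nlinarith) (by nlinarith)
      (fun t => t * (t ^ 2 - 66 * -M * t + (-M) ^ 2)) (fun x => by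
        have : (x - -(33 + 8 * Real.sqrt 17) * M) * (x - -(33 - 8 * Real.sqrt 17) * M) * (x - 0) =
          x * (x ^ 2 + 66 * M * x + (1089 - 64 * Real.sqrt 17 ^ 2) * M ^ 2) := by ring
        rw [this, r3]
        ring)
    have e6 : (fun x : ℝ => 1 / Real.sqrt (x * (x ^ 2 - 66 * -M * x + (-M) ^ 2))) =
        fun x => 1 / Real.sqrt (x * (x ^ 2 + 66 * M * x + M ^ 2)) := by
      funext x
      congr 2
      ring
    rw [hq] at e4
    have e7 := three hE 0 (64 * M) (68 * M) (by linarith) (by linarith)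
      (fun t => t * ((t - 66 * M) ^ 2 - 4 * M ^ 2)) (fun x => by ring)
    have e8 : 66 * M + 2 * M = 68 * M := by ring
    rw [e8] at e4
    have e9 := aff (fun t => 1 / Real.sqrt (t * ((t - 66 * M) ^ 2 - 4 * M ^ 2))) 4 0 (by norm_num)
    have e10 : (fun x : ℝ => (fun t => 1 / Real.sqrt (t * ((t - 66 * M) ^ 2 - 4 * M ^ 2)))
        (4 * x + 0)) = fun x => 1 / Real.sqrt (64 * (fun t => t * (t + 16 * -M) * (t + 17 * -M)) x) := by
      funext x
      show 1 / Real.sqrt _ = 1 / Real.sqrt _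
      congr 2
      ring
    rw [e10, scal 64 (by norm_num)] at e9
    have e11 : Real.sqrt 64 = 8 := by
      rw [show (64 : ℝ) = 8 ^ 2 by norm_num]
      exact Real.sqrt_sq (by norm_num)
    rw [e11] at e9
    rw [e1, e2, e5]
    show 2 * (2 * ∫ x in Ioi 0, (fun x : ℝ => 1 / Real.sqrt (x * (x ^ 2 - 66 * -M * x + (-M) ^ 2))) x) = _
    rw [e6]
    show 2 * (2 * ∫ x in Ioi 0, 1 / Real.sqrt (x * (x ^ 2 + 66 * M * x + M ^ 2))) = _
    rw [e4]
    linarith
end Pool.Agent.H743.X17.QIOM2
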