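import Pool.Agent.H743.X17.IsoStm
import Pool.Graph.R_seed8.Y809.BSD14.Tam3
import Pool.Agent.H743.X17.TAM2

/-!
# I17 ITD2: Tamagawa number at 2, j = 2
-/

set_option autoImplicit false

open scoped Classical

namespace Pool.Agent.H743.X17.QITD2

open Pool.Agent.H743.X17
open Pool.Agent.H743.X17.QTAM2 (n2 n4 n16 disc0 disc nadd nsub nle nle' unit_sub_one sq_unit
  index_four nm_le cases5 odd_val)
open Pool.Agent.TH841.SH
open Pool.Agent.Y700 (PtP SingRed E0 tam)
open WeierstrassCurve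

/-- the curve `y² = (x + m) (x² - 64 m x - 64 m²)` -/
def WI (m : ℤ) : WeierstrassCurve ℤ := ⟨0, -63 * m, 0, -128 * m ^ 2, -64 * m ^ 3⟩

theorem WJ_eq {m : ℤ} (hm : m % 4 ≠ 1) : WJ 2 m = WI m := by
  unfold WJ WI
  rw [if_neg hm]
  rfl

/-- the curve over `ℚ₂` -/
noncomputable abbrev E (m : ℤ) : WeierstrassCurve ℚ_[2] := (WI m).map (Int.castRingHom ℚ_[2])

/-- the root `8 m (4 + r)` -/
noncomputable def al (r : ℚ_[2]) (m : ℤ) : ℚ_[2] := 8 * m * (4 + r)

theorem isR {r : ℚ_[2]} (hr : r ^ 2 = 17) (m : ℤ) : IsR (E m) (-m) (al r m) (al (-r) m) := by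
  constructor
  · show ((0 : ℤ) : ℚ_[2]) = 0
    simp
  · show ((-63 * m : ℤ) : ℚ_[2]) = _
    unfold al
    push_cast
    ring
  · show ((0 : ℤ) : ℚ_[2]) = 0
    simp
  · show ((-128 * m ^ 2 : ℤ) : ℚ_[2]) = _
    unfold al
    push_cast
    linear_combination (64 * (m : ℚ_[2]) ^ 2) * hr
  · show ((-64 * m ^ 3 : ℤ) : ℚ_[2]) = _
    unfold al
    push_cast
    linear_combination (64 * (m : ℚ_[2]) ^ 3) * hr

/-- the square root of `17` -/
theorem exists_r : ∃ r : ℚ_[2], r ^ 2 = 17 := by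
  obtain ⟨s, hs⟩ := Pool.Agent.H468.X15.sq_of_mod8 (u := 17) (by norm_num)
  refine ⟨s, ?_⟩
  push_cast at hs
  rw [sq, ← hs]

theorem n8 : ‖(8 : ℚ_[2])‖ = 1 / 8 := by
  have : (8 : ℚ_[2]) = 2 ^ 3 := by norm_num
  rw [this, norm_pow, n2]; norm_num

/-- odd integers are units -/
theorem nodd {k : ℤ} (hk : k % 2 = 1) : ‖(k : ℚ_[2])‖ = 1 := by
  by_contra h5
  have h6 : ‖(k : ℚ_[2])‖ < 1 := lt_of_le_of_ne (nm_le k) h5
  have h7 := (Padic.norm_intCast_lt_one_iff (p := 2) (k := k)).1 h6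
  push_cast at h7
  omega

theorem nr {r : ℚ_[2]} (hr : r ^ 2 = 17) : ‖r‖ = 1 := by
  have h1 : ‖r‖ ^ 2 = 1 := by
    rw [← norm_pow, hr]
    have := nodd (k := 17) (by norm_num)
    push_cast at this
    exact this
  nlinarith [norm_nonneg r, pow_eq_one_iff_of_nonneg (norm_nonneg r) two_ne_zero]

section

variable {m : ℤ} {r : ℚ_[2]}

theorem n4r (hr : r ^ 2 = 17) : ‖4 + r‖ = 1 := by
  have h := nr hr
  rw [add_comm, nadd, h]
  rw [n4, h]
  norm_num

/-- `|α| = |m| / 8` -/
theorem nal (hr : r ^ 2 = 17) (m : ℤ) : ‖al r m‖ = 1 / 8 * ‖(m : ℚ_[2])‖ := by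
  unfold al
  rw [norm_mul, norm_mul, n8, n4r hr, mul_one]

theorem neg_r (hr : r ^ 2 = 17) : (-r) ^ 2 = 17 := by rw [neg_sq, hr]

/-- `|α - β| = |m| / 16` -/
theorem nab (hr : r ^ 2 = 17) (m : ℤ) : ‖al r m - al (-r) m‖ = 1 / 16 * ‖(m : ℚ_[2])‖ := by
  have e : al r m - al (-r) m = 16 * (m * r) := by unfold al; ring
  rw [e, norm_mul, norm_mul, n16, nr hr, mul_one]

/-- `|α + m| = |m|` -/
theorem nam (hr : r ^ 2 = 17) (m : ℤ) : ‖al r m + m‖ = ‖(m : ℚ_[2])‖ := by
  have e : al r m + m = m * (1 + 8 * (4 + r)) := by unfold al; ring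
  rw [e, norm_mul, nadd, norm_one, mul_one]
  rw [norm_one, norm_mul, n8, n4r hr]
  norm_num

theorem eqn {x y : ℚ_[2]} (hn : (E m).toAffine.Nonsingular x y) :
    y ^ 2 = (x + m) * (x ^ 2 - 64 * m * x - 64 * m ^ 2) := by
  obtain ⟨r, hr⟩ := exists_r
  have h := ((isR hr m).eqn x y).1 hn.1
  rw [h]
  unfold al
  linear_combination (-64 * (m : ℚ_[2]) ^ 2 * (x + m)) * hr

theorem eqn' (hr : r ^ 2 = 17) {x y : ℚ_[2]} (hn : (E m).toAffine.Nonsingular x y) :
    y ^ 2 = (x + m) * (x - al r m) * (x - al (-r) m) := by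
  have h := ((isR hr m).eqn x y).1 hn.1
  rw [h]; ring

/-- `P ∈ E⁰` if and only if `|x| ≥ 1` -/
theorem mem_iff {x y : ℚ_[2]} (hn : (E m).toAffine.Nonsingular x y) :
    (Affine.Point.some x y hn : PtP (WI m) 2) ∈ E0 (WI m) 2 ↔ 1 ≤ ‖x‖ := by
  rw [Pool.Agent.Y809.BSD14.t_E0]
  have e1 : ∀ x y : ℚ_[2], SingRed (WI m) 2 x y ↔ (‖x‖ ≤ 1 ∧ ‖y‖ ≤ 1 ∧
      ‖3 * x ^ 2 - 126 * m * x - 128 * m ^ 2‖ < 1 ∧ ‖2 * y‖ < 1) := by
    intro x y
    unfold SingRed WI
    simp only
    push_cast
    have e2 : (0 : ℚ_[2]) * y - (3 * x ^ 2 + 2 * (-63 * m) * x + -128 * m ^ 2) =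
        -(3 * x ^ 2 - 126 * m * x - 128 * m ^ 2) := by ring
    have e3 : (2 : ℚ_[2]) * y + 0 * x + 0 = 2 * y := by ring
    rw [e2, e3, norm_neg]
  have h126 : ‖(126 : ℚ_[2])‖ ≤ 1 / 2 := by
    have : (126 : ℚ_[2]) = 2 * ((63 : ℤ) : ℚ_[2]) := by push_cast; norm_num
    rw [this, norm_mul, n2]
    exact (mul_le_mul_of_nonneg_left (nm_le 63) (by norm_num)).trans (by norm_num)
  have h3 : ‖(3 : ℚ_[2])‖ = 1 := by
    have e : (3 : ℚ_[2]) = 1 + 2 := by norm_num
    rw [e, nadd, norm_one]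
    rw [n2, norm_one]
    norm_num
  have hm1 := nm_le m
  have hm0 := norm_nonneg (m : ℚ_[2])
  have h64 : ‖(64 : ℚ_[2])‖ ≤ 1 / 2 := by
    have : (64 : ℚ_[2]) = 2 * ((32 : ℤ) : ℚ_[2]) := by push_cast; norm_num
    rw [this, norm_mul, n2]
    exact (mul_le_mul_of_nonneg_left (nm_le 32) (by norm_num)).trans (by norm_num)
  have h128 : ‖(128 : ℚ_[2]) * m ^ 2‖ ≤ 1 / 2 := by
    have : (128 : ℚ_[2]) = 2 * ((64 : ℤ) : ℚ_[2]) := by push_cast; norm_num
    have h5 := nm_le 64
    have h6 := norm_nonneg (((64 : ℤ) : ℚ_[2]))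
    rw [this, norm_mul, norm_mul, norm_pow, n2]
    have h7 : ‖(m : ℚ_[2])‖ ^ 2 ≤ 1 := by nlinarith
    nlinarith
  constructor
  · intro h
    by_contra hc
    have hx := not_le.1 hc
    have hx0 := norm_nonneg x
    apply h x y hn rfl
    rw [e1]
    have he := eqn hn
    have hy : ‖y‖ ≤ 1 := by
      have h5 : ‖y‖ ^ 2 ≤ 1 := by
        rw [← norm_pow, he, norm_mul]
        have h6 : ‖x + m‖ ≤ 1 := nle hx.le hm1
        have h7 : ‖x ^ 2 - 64 * m * x - 64 * m ^ 2‖ ≤ 1 := by
          refine nle' (nle' ?_ ?_) ?_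
          · rw [norm_pow]; nlinarith
          · rw [norm_mul, norm_mul]
            calc ‖(64 : ℚ_[2])‖ * ‖(m : ℚ_[2])‖ * ‖x‖ ≤ 1 / 2 * 1 * 1 := by gcongr
              _ ≤ 1 := by norm_num
          · rw [norm_mul, norm_pow]
            calc ‖(64 : ℚ_[2])‖ * ‖(m : ℚ_[2])‖ ^ 2 ≤ 1 / 2 * 1 ^ 2 := by gcongr
              _ ≤ 1 := by norm_num
        calc ‖x + m‖ * ‖x ^ 2 - 64 * m * x - 64 * m ^ 2‖ ≤ 1 * 1 := by gcongr
          _ = 1 := by norm_num
      nlinarith [norm_nonneg y]
    refine ⟨hx.le, hy, ?_, ?_⟩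
    · have g1 : ‖3 * x ^ 2‖ < 1 := by
        rw [norm_mul, norm_pow, h3]
        nlinarith
      have g2 : ‖126 * m * x‖ < 1 := by
        rw [norm_mul, norm_mul]
        calc ‖(126 : ℚ_[2])‖ * ‖(m : ℚ_[2])‖ * ‖x‖ ≤ 1 / 2 * 1 * 1 := by gcongr
          _ < 1 := by norm_num
      have g3 : ‖(128 : ℚ_[2]) * m ^ 2‖ < 1 := by linarith
      rw [sub_eq_add_neg, sub_eq_add_neg]
      refine (IsUltrametricDist.norm_add_le_max _ _).trans_lt (max_lt ?_ (by rwa [norm_neg]))
      exact (IsUltrametricDist.norm_add_le_max _ _).trans_lt (max_lt g1 (by rwa [norm_neg]))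
    · rw [norm_mul, n2]
      linarith
  · intro h x' y' hn' he
    obtain ⟨rfl, rfl⟩ : x = x' ∧ y = y' := by simpa using he
    rw [e1]
    rintro ⟨h1, h2, h4, h5⟩
    have hx : ‖x‖ = 1 := le_antisymm h1 h
    have h6 : ‖3 * x ^ 2 - 126 * m * x - 128 * m ^ 2‖ = 1 := by
      have g1 : ‖3 * x ^ 2‖ = 1 := by
        rw [norm_mul, norm_pow, h3, hx]
        norm_num
      have g2 : ‖126 * m * x‖ < 1 := by
        rw [norm_mul, norm_mul, hx]
        calc ‖(126 : ℚ_[2])‖ * ‖(m : ℚ_[2])‖ * 1 ≤ 1 / 2 * 1 * 1 := by gcongr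
          _ < 1 := by norm_num
      have g3 : ‖(128 : ℚ_[2]) * m ^ 2‖ < 1 := by linarith
      have g4 : ‖3 * x ^ 2 - 126 * m * x‖ = 1 := by rw [nsub, g1]; rwa [g1]
      rw [nsub, g4]
      rwa [g4]
    rw [h6] at h4
    exact lt_irrefl _ h4

theorem hns (hr : r ^ 2 = 17) (hm : m ≠ 0) {x y : ℚ_[2]}
    (hx : y ^ 2 = (x + m) * (x - al r m) * (x - al (-r) m)) :
    (E m).toAffine.Nonsingular x y := by
  have hmQ : (m : ℚ_[2]) ≠ 0 := by exact_mod_cast hm
  have hmp : 0 < ‖(m : ℚ_[2])‖ := norm_pos_iff.2 hmQ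
  refine (isR hr m).nons two_ne_zero ?_ ?_ ?_ ?_
  · intro h
    have h1 := nam hr m
    rw [← h, neg_add_cancel, norm_zero] at h1
    exact hmp.ne h1
  · intro h
    have h1 := nam (neg_r hr) m
    rw [← h, neg_add_cancel, norm_zero] at h1
    exact hmp.ne h1
  · intro h
    have h1 := nab hr m
    rw [h, sub_self, norm_zero] at h1
    linarith
  · rw [hx]; ring

theorem hns' (hm : m ≠ 0) {x y : ℚ_[2]}
    (hx : y ^ 2 = (x + m) * (x ^ 2 - 64 * m * x - 64 * m ^ 2)) :
    (E m).toAffine.Nonsingular x y := by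
  obtain ⟨r, hr⟩ := exists_r
  refine hns hr hm ?_
  rw [hx]
  unfold al
  linear_combination (64 * (m : ℚ_[2]) ^ 2 * (x + m)) * hr

/-- translation by the points of order two -/
theorem tr1 {x y : ℚ_[2]} (hn : (E m).toAffine.Nonsingular x y) (hy : y ≠ 0)
    (h0 : (E m).toAffine.Nonsingular (-m) 0) :
    ∃ (X Y : ℚ_[2]) (hn' : (E m).toAffine.Nonsingular X Y),
      (Affine.Point.some x y hn : (E m).toAffine.Point) + .some (-m) 0 h0 = .some X Y hn' ∧
      x + m ≠ 0 ∧ (X + m) * (x + m) = m ^ 2 := by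
  obtain ⟨r, hr⟩ := exists_r
  obtain ⟨X, Y, hn', h1, h2, -, -, h3, -⟩ := (isR hr m).trans hn hy h0
  rw [sub_neg_eq_add] at h2 h3
  refine ⟨X, Y, hn', h1, h2, ?_⟩
  rw [h3]
  have e : (-m - al r m) * (-m - al (-r) m) = (m : ℚ_[2]) ^ 2 := by
    unfold al
    linear_combination (-64 * (m : ℚ_[2]) ^ 2) * hr
  rw [e]
  field_simp
  ring

theorem tr2 (hr : r ^ 2 = 17) {x y : ℚ_[2]} (hn : (E m).toAffine.Nonsingular x y) (hy : y ≠ 0)
    (h0 : (E m).toAffine.Nonsingular (al r m) 0) :
    ∃ (X Y : ℚ_[2]) (hn' : (E m).toAffine.Nonsingular X Y),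
      (Affine.Point.some x y hn : (E m).toAffine.Point) + .some (al r m) 0 h0 = .some X Y hn' ∧
      x - al r m ≠ 0 ∧ ‖X - al r m‖ * ‖x - al r m‖ = ‖(m : ℚ_[2])‖ ^ 2 / 16 := by
  obtain ⟨X, Y, hn', h1, h2, -, -, h3, -⟩ := (isR hr m).rot.trans hn hy h0
  refine ⟨X, Y, hn', h1, h2, ?_⟩
  rw [h3, ← norm_mul]
  have e : (al r m + (al r m - al (-r) m) * (al r m - -m) / (x - al r m) - al r m) *
      (x - al r m) = (al r m - al (-r) m) * (al r m + m) := by
    field_simp
    ring
  rw [e, norm_mul, nab hr, nam hr]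
  ring

/-- `|x| < |α|`: the norm of `x - α` -/
theorem nxa {x a : ℚ_[2]} (h : ‖x‖ < ‖a‖) : ‖x - a‖ = ‖a‖ := by
  rw [← norm_neg, neg_sub, nsub h]

/-- the difference of two numbers of the same absolute value -/
theorem dif (k : ℕ) {a b : ℚ_[2]} (ha : ‖a‖ = (1 / 2) ^ k) (hb : ‖b‖ = (1 / 2) ^ k) :
    ‖a - b‖ ≤ (1 / 2) ^ (k + 1) := by
  have u1 : ‖a / 2 ^ k‖ = 1 := by
    rw [norm_div, ha, norm_pow, n2, div_self]
    positivity
  have u2 : ‖b / 2 ^ k‖ = 1 := by
    rw [norm_div, hb, norm_pow, n2, div_self]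
    positivity
  have e : a - b = 2 ^ k * ((a / 2 ^ k - 1) - (b / 2 ^ k - 1)) := by
    field_simp
    ring
  rw [e, norm_mul, norm_pow, n2, pow_succ]
  have := nle' (unit_sub_one u1) (unit_sub_one u2)
  have h0 : (0 : ℝ) < (1 / 2) ^ k := by positivity
  nlinarith

theorem dif' (k : ℕ) {a b : ℚ_[2]} (ha : ‖a‖ = (1 / 2) ^ k) (hb : ‖b‖ = (1 / 2) ^ k) :
    ‖a + b‖ ≤ (1 / 2) ^ (k + 1) := by
  have := dif k (a := a) (b := -b) ha (by rw [norm_neg, hb])
  rwa [sub_neg_eq_add] at this

/-! ### `m` even -/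

theorem tam_even (hm : m % 4 = 2) : (E0 (WI m) 2).index = 4 := by
  obtain ⟨r, hr⟩ := exists_r
  have hr' := neg_r hr
  have hm0 : m ≠ 0 := by rintro rfl; norm_num at hm
  have hmn : ‖(m : ℚ_[2])‖ = 1 / 2 := by
    obtain ⟨k, rfl⟩ : ∃ k : ℤ, m = 2 * k := ⟨m / 2, by omega⟩
    have hk : ‖(k : ℚ_[2])‖ = 1 := nodd (by omega)
    push_cast
    rw [norm_mul, hk, n2, mul_one]
  have ha : ‖al r m‖ = 1 / 16 := by rw [nal hr, hmn]; norm_num
  have hb : ‖al (-r) m‖ = 1 / 16 := by rw [nal hr', hmn]; norm_num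
  have hab : ‖al r m - al (-r) m‖ = 1 / 32 := by rw [nab hr, hmn]; norm_num
  have g1 := hns (x := -m) (y := 0) hr hm0 (by ring)
  have g2 := hns (x := al r m) (y := 0) hr hm0 (by ring)
  have g3 := hns (x := al (-r) m) (y := 0) hr hm0 (by ring)
  have s1 : (Affine.Point.some (-m) 0 g1 : (E m).toAffine.Point) + .some (-m) 0 g1 = 0 :=
    ((isR hr m).add_self two_ne_zero g1).2 rfl
  have s2 : (Affine.Point.some (al r m) 0 g2 : (E m).toAffine.Point) + .some (al r m) 0 g2 = 0 :=
    ((isR hr m).add_self two_ne_zero g2).2 rfl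
  have hmQ : (m : ℚ_[2]) ≠ 0 := by exact_mod_cast hm0
  -- the sum of the two points is the third one
  have s3 : (Affine.Point.some (-m) 0 g1 : (E m).toAffine.Point) + .some (al r m) 0 g2 =
      .some (al (-r) m) 0 g3 := by
    have h5 : ((Affine.Point.some (-m) 0 g1 : (E m).toAffine.Point) + .some (al r m) 0 g2) +
        (.some (-m) 0 g1 + .some (al r m) 0 g2) = 0 := by
      have e : ∀ a b : (E m).toAffine.Point, (a + b) + (a + b) = (a + a) + (b + b) := by
        intro a b; abel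
      rw [e, s1, s2, add_zero]
    rcases (isR hr m).tors two_ne_zero h5 with h | ⟨h6, h⟩ | ⟨h6, h⟩ | ⟨h6, h⟩
    · exfalso
      have h7 : (Affine.Point.some (-m) 0 g1 : (E m).toAffine.Point) = .some (al r m) 0 g2 := by
        have h8 := eq_neg_of_add_eq_zero_left h
        rw [h8]
        exact neg_eq_of_add_eq_zero_left s2
      have h9 : -(m : ℚ_[2]) = al r m := by simpa using h7
      rw [← h9, norm_neg, hmn] at ha
      norm_num at ha
    · exfalso
      have h7 : (Affine.Point.some (al r m) 0 g2 : (E m).toAffine.Point) = 0 := by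
        have : (Affine.Point.some (-m) 0 g1 : (E m).toAffine.Point) + .some (al r m) 0 g2 =
            .some (-m) 0 g1 + 0 := by rw [h, add_zero]
        exact add_left_cancel this
      exact Affine.Point.some_ne_zero _ h7
    · exfalso
      have h7 : (Affine.Point.some (-m) 0 g1 : (E m).toAffine.Point) = 0 := by
        have : (Affine.Point.some (-m) 0 g1 : (E m).toAffine.Point) + .some (al r m) 0 g2 =
            0 + .some (al r m) 0 g2 := by rw [h, zero_add]
        exact add_right_cancel this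
      exact Affine.Point.some_ne_zero _ h7
    · exact h
  refine index_four (E0 (WI m) 2) (.some (-m) 0 g1 : (E m).toAffine.Point)
    (.some (al r m) 0 g2 : (E m).toAffine.Point) ?_ ?_ ?_ ?_ ?_ ?_
  · rw [s1]; exact AddSubgroup.zero_mem _
  · rw [s2]; exact AddSubgroup.zero_mem _
  · rw [mem_iff, norm_neg, hmn]; norm_num
  · rw [mem_iff, ha]; norm_num
  · rw [s3, mem_iff, hb]; norm_num
  · intro P
    rw [s3]
    rcases P with _ | ⟨x, y, hn⟩
    · left
      exact AddSubgroup.zero_mem _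
    rcases le_or_gt 1 ‖x‖ with hx | hx
    · left
      exact (mem_iff hn).2 hx
    right
    by_cases hy : y = 0
    · have he := eqn' hr hn
      rw [hy] at he
      have h0 : (x + m) * (x - al r m) * (x - al (-r) m) = 0 := by rw [← he]; ring
      subst hy
      rcases mul_eq_zero.1 h0 with h1 | h1
      · rcases mul_eq_zero.1 h1 with h2 | h2
        · have h3 : x = -m := by linear_combination h2
          subst h3
          left
          rw [s1]; exact AddSubgroup.zero_mem _
        · have h3 : x = al r m := by linear_combination h2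
          subst h3
          right; left
          rw [s2]; exact AddSubgroup.zero_mem _
      · have h3 : x = al (-r) m := by linear_combination h1
        subst h3
        right; right
        rw [((isR hr m).add_self two_ne_zero hn).2 rfl]
        exact AddSubgroup.zero_mem _
    · obtain ⟨X1, Y1, k1, p1, q1, r1⟩ := tr1 hn hy g1
      obtain ⟨X2, Y2, k2, p2, q2, r2⟩ := tr2 hr hn hy g2
      obtain ⟨X3, Y3, k3, p3, q3, r3⟩ := tr2 hr' hn hy g3
      rw [p1, p2, p3, mem_iff, mem_iff, mem_iff]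
      rw [hmn] at r2 r3
      have r1' : ‖X1 + m‖ * ‖x + m‖ = 1 / 4 := by
        rw [← norm_mul, r1, norm_pow, hmn]
        norm_num
      have hy2 : ‖y‖ ^ 2 = ‖x + m‖ * ‖x - al r m‖ * ‖x - al (-r) m‖ := by
        rw [← norm_pow, eqn' hr hn, norm_mul, norm_mul]
      have x1 : 0 < ‖x + m‖ := norm_pos_iff.2 q1
      have x2 : 0 < ‖x - al r m‖ := norm_pos_iff.2 q2
      have x3 : 0 < ‖x - al (-r) m‖ := norm_pos_iff.2 q3
      -- the norm of `X` from the norm of `X - a`
      have big : ∀ X a : ℚ_[2], ‖a‖ < 1 → 1 ≤ ‖X - a‖ → 1 ≤ ‖X‖ := by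
        intro X a h1 h2
        have e : X = (X - a) + a := by ring
        rw [e, nadd (h1.trans_le h2)]
        exact h2
      rcases cases5 hx with h | h | h | h | h | h
      · -- `v(x) = 1`
        left
        have h1 : ‖x + m‖ ≤ 1 / 4 := by
          have := dif' 1 (a := x) (b := m) (by rw [h]; norm_num) (by rw [hmn]; norm_num)
          norm_num at this ⊢
          exact this
        apply big X1 (-m) (by rw [norm_neg, hmn]; norm_num)
        rw [sub_neg_eq_add]
        by_contra hc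
        have hc' := not_le.1 hc
        nlinarith [norm_nonneg (X1 + m)]
      · exfalso
        have h1 : ‖x + m‖ = 1 / 2 := by rw [add_comm, nadd, hmn]; rw [h, hmn]; norm_num
        have h2 : ‖x - al r m‖ = 1 / 4 := by rw [nsub, h]; rw [h, ha]; norm_num
        have h3 : ‖x - al (-r) m‖ = 1 / 4 := by rw [nsub, h]; rw [h, hb]; norm_num
        rw [h1, h2, h3] at hy2
        apply odd_val (y := y) 2
        rw [hy2]; norm_num
      · exfalso
        have h1 : ‖x + m‖ = 1 / 2 := by rw [add_comm, nadd, hmn]; rw [h, hmn]; norm_num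
        have h2 : ‖x - al r m‖ = 1 / 8 := by rw [nsub, h]; rw [h, ha]; norm_num
        have h3 : ‖x - al (-r) m‖ = 1 / 8 := by rw [nsub, h]; rw [h, hb]; norm_num
        rw [h1, h2, h3] at hy2
        apply odd_val (y := y) 3
        rw [hy2]; norm_num
      · -- `v(x) = 4`
        right
        have h2 : ‖x - al r m‖ ≤ 1 / 32 := by
          have := dif 4 (a := x) (b := al r m) (by rw [h]; norm_num) (by rw [ha]; norm_num)
          norm_num at this ⊢
          exact this
        have h3 : ‖x - al (-r) m‖ ≤ 1 / 32 := by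
          have := dif 4 (a := x) (b := al (-r) m) (by rw [h]; norm_num) (by rw [hb]; norm_num)
          norm_num at this ⊢
          exact this
        rcases h2.lt_or_eq with h4 | h4
        · left
          have h5 := disc 5 (x := x - al r m) (by norm_num at h4 ⊢; exact h4)
          norm_num at h5
          apply big X2 (al r m) (by rw [ha]; norm_num)
          by_contra hc
          have hc' := not_le.1 hc
          nlinarith [norm_nonneg (X2 - al r m)]
        rcases h3.lt_or_eq with h5 | h5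
        · right
          have h6 := disc 5 (x := x - al (-r) m) (by norm_num at h5 ⊢; exact h5)
          norm_num at h6
          apply big X3 (al (-r) m) (by rw [hb]; norm_num)
          by_contra hc
          have hc' := not_le.1 hc
          nlinarith [norm_nonneg (X3 - al (-r) m)]
        · exfalso
          have h6 := dif 5 (a := x - al (-r) m) (b := x - al r m) (by rw [h5]; norm_num)
            (by rw [h4]; norm_num)
          have e : x - al (-r) m - (x - al r m) = al r m - al (-r) m := by ring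
          rw [e, hab] at h6
          norm_num at h6
      · exfalso
        have h1 : ‖x + m‖ = 1 / 2 := by rw [add_comm, nadd, hmn]; rw [h, hmn]; norm_num
        have h2 : ‖x - al r m‖ = 1 / 16 := by rw [nxa, ha]; rw [h, ha]; norm_num
        have h3 : ‖x - al (-r) m‖ = 1 / 16 := by rw [nxa, hb]; rw [h, hb]; norm_num
        rw [h1, h2, h3] at hy2
        apply odd_val (y := y) 4
        rw [hy2]; norm_num
      · exfalso
        have h1 : ‖x + m‖ = 1 / 2 := by
          rw [add_comm, nadd, hmn]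
          rw [hmn]
          linarith
        have h2 : ‖x - al r m‖ = 1 / 16 := by
          rw [nxa, ha]
          rw [ha]
          linarith
        have h3 : ‖x - al (-r) m‖ = 1 / 16 := by
          rw [nxa, hb]
          rw [hb]
          linarith
        rw [h1, h2, h3] at hy2
        apply odd_val (y := y) 4
        rw [hy2]; norm_num

/-! ### `m = 3 mod 4` -/

/-- a point with `v(x) = 1` -/
structure K1 (m : ℤ) (x y : ℚ_[2]) : Prop where
  hx : ‖x‖ = 1 / 2
  he : y ^ 2 = (x + m) * (x ^ 2 - 64 * m * x - 64 * m ^ 2)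

theorem K1.fac (hm : ‖(m : ℚ_[2])‖ = 1) {x y : ℚ_[2]} (h : K1 m x y) :
    ‖x ^ 2 - 64 * m * x - 64 * (m : ℚ_[2]) ^ 2‖ = 1 / 4 := by
  have n64 : ‖(64 : ℚ_[2])‖ = 1 / 64 := by
    have : (64 : ℚ_[2]) = 2 ^ 6 := by norm_num
    rw [this, norm_pow, n2]; norm_num
  have h1 : ‖64 * m * x‖ ≤ 1 / 64 := by
    rw [norm_mul, norm_mul, n64, hm, h.hx]; norm_num
  have h2 : ‖64 * (m : ℚ_[2]) ^ 2‖ = 1 / 64 := by
    rw [norm_mul, norm_pow, n64, hm]; norm_num
  have h3 : ‖x ^ 2‖ = 1 / 4 := by rw [norm_pow, h.hx]; norm_num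
  have h4 : ‖x ^ 2 - 64 * m * x‖ = 1 / 4 := by
    rw [nsub, h3]
    rw [h3]
    linarith
  rw [nsub, h4]
  rw [h4, h2]
  norm_num

theorem K1.y_norm (hm : ‖(m : ℚ_[2])‖ = 1) {x y : ℚ_[2]} (h : K1 m x y) : ‖y‖ = 1 / 2 := by
  have h1 : ‖x + m‖ = 1 := by rw [add_comm, nadd, hm]; rw [h.hx, hm]; norm_num
  have h3 : ‖y‖ ^ 2 = (1 / 2) ^ 2 := by
    rw [← norm_pow, h.he, norm_mul, h1, h.fac hm]
    norm_num
  exact (pow_left_inj₀ (norm_nonneg _) (by norm_num) two_ne_zero).1 h3

/-- `x + m = 1` modulo `8` -/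
theorem K1.cong (hm : ‖(m : ℚ_[2])‖ = 1) {x y : ℚ_[2]} (h : K1 m x y) : ‖x + m - 1‖ ≤ 1 / 8 := by
  have hy := h.y_norm hm
  have h1 : ‖y / 2‖ = 1 := by rw [norm_div, hy, n2]; norm_num
  have h2 : ‖x / 2‖ = 1 := by rw [norm_div, h.hx, n2]; norm_num
  have h3 : ‖x + m‖ = 1 := by rw [add_comm, nadd, hm]; rw [h.hx, hm]; norm_num
  have c1 := sq_unit h1
  have c2 := sq_unit h2
  have c3 : ‖16 * (m * x + m ^ 2)‖ ≤ 1 / 8 := by
    have h4 : ‖m * x + (m : ℚ_[2]) ^ 2‖ ≤ 1 := by
      refine nle ?_ ?_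
      · rw [norm_mul, hm, h.hx]; norm_num
      · rw [norm_pow, hm]; norm_num
    rw [norm_mul, n16]
    linarith
  have e : x + m - 1 = ((y / 2) ^ 2 - 1) -
      (x + m) * (((x / 2) ^ 2 - 1) - 16 * (m * x + m ^ 2)) := by
    rw [div_pow, h.he]
    ring
  rw [e]
  refine nle' c1 ?_
  rw [norm_mul, h3, one_mul]
  exact nle' c2 c3

theorem dbl (hr : r ^ 2 = 17) {x y : ℚ_[2]} (hn : (E m).toAffine.Nonsingular x y) (hy : y ≠ 0) :
    ∃ (X Y : ℚ_[2]) (hn' : (E m).toAffine.Nonsingular X Y),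
      (Affine.Point.some x y hn : (E m).toAffine.Point) + .some x y hn = .some X Y hn' ∧
      X - al r m =
        (((x - al r m) ^ 2 - (al r m - al (-r) m) * (al r m + m)) / (2 * y)) ^ 2 := by
  obtain ⟨X, Y, hn', h1, h2⟩ := (isR hr m).rot.dup two_ne_zero hn hy
  rw [sub_neg_eq_add] at h2
  exact ⟨X, Y, hn', h1, h2⟩

theorem K1.dbl_mem (hm : ‖(m : ℚ_[2])‖ = 1) {x y : ℚ_[2]} (h : K1 m x y)
    (hn : (E m).toAffine.Nonsingular x y) :
    (Affine.Point.some x y hn : (E m).toAffine.Point) + .some x y hn ∈ E0 (WI m) 2 := by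
  obtain ⟨r, hr⟩ := exists_r
  have hy := h.y_norm hm
  have hy0 : y ≠ 0 := by rw [← norm_pos_iff, hy]; norm_num
  obtain ⟨X, Y, hn', h1, h2⟩ := dbl hr hn hy0
  rw [h1, mem_iff]
  have ha : ‖al r m‖ = 1 / 8 := by rw [nal hr, hm, mul_one]
  have h3 : ‖x - al r m‖ = 1 / 2 := by
    rw [nsub, h.hx]
    rw [h.hx, ha]
    norm_num
  have h4 : ‖(al r m - al (-r) m) * (al r m + m)‖ = 1 / 16 := by
    rw [norm_mul, nab hr, nam hr, hm]
    norm_num
  have h5 : ‖(x - al r m) ^ 2 - (al r m - al (-r) m) * (al r m + m)‖ = 1 / 4 := by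
    rw [nsub, norm_pow, h3]
    · norm_num
    · rw [h4, norm_pow, h3]
      norm_num
  have h6 : ‖X - al r m‖ = 1 := by
    rw [h2, norm_pow, norm_div, h5, norm_mul, n2, hy]
    norm_num
  have e : X = (X - al r m) + al r m := by ring
  rw [e, nadd, h6]
  rw [h6, ha]
  norm_num

/-- the sum of two points with `v(x) = 1` lies in `E⁰` -/
theorem K1.add_mem (hm : ‖(m : ℚ_[2])‖ = 1) {x y x' y' : ℚ_[2]} (h : K1 m x y) (h' : K1 m x' y')
    (hn : (E m).toAffine.Nonsingular x y) (hn' : (E m).toAffine.Nonsingular x' y') :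
    (Affine.Point.some x y hn : (E m).toAffine.Point) + .some x' y' hn' ∈ E0 (WI m) 2 := by
  obtain ⟨r, hr⟩ := exists_r
  have hy := h.y_norm hm
  have hy' := h'.y_norm hm
  by_cases hxx : x = x'
  · subst hxx
    have h1 : (y - y') * (y + y') = 0 := by
      linear_combination h.he - h'.he
    rcases mul_eq_zero.1 h1 with h2 | h2
    · have h3 : y = y' := sub_eq_zero.1 h2
      subst h3
      exact h.dbl_mem hm hn
    · have h3 : (Affine.Point.some x y hn : (E m).toAffine.Point) + .some x y' hn' = 0 := by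
        apply Affine.Point.add_of_Y_eq rfl
        rw [(isR hr m).negY]
        linear_combination h2
      rw [h3]
      exact AddSubgroup.zero_mem _
  · rw [Affine.Point.add_of_X_ne hxx]
    set l : ℚ_[2] := (E m).toAffine.slope x x' y y' with hl
    have hl' : l = (y - y') / (x - x') := Affine.slope_of_X_ne hxx
    rw [mem_iff]
    have e1 : (E m).toAffine.addX x x' l = l ^ 2 + (63 * m - (x + x')) := by
      show l ^ 2 + (E m).a₁ * l - (E m).a₂ - x - x' = _
      rw [(isR hr m).h1, (isR hr m).h2]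
      unfold al
      ring
    rw [e1]
    have hd0 : x - x' ≠ 0 := sub_ne_zero.2 hxx
    have hdp : 0 < ‖x - x'‖ := norm_pos_iff.2 hd0
    have hd : ‖x - x'‖ ≤ 1 / 8 := by
      have e : x - x' = (x + m - 1) - (x' + m - 1) := by ring
      rw [e]
      exact nle' (h.cong hm) (h'.cong hm)
    have hln : ‖l‖ * ‖x - x'‖ = ‖y - y'‖ := by
      rw [← norm_mul, hl', div_mul_cancel₀ _ hd0]
    -- the product
    have hprod : ‖y - y'‖ * ‖y + y'‖ ≤ ‖x - x'‖ * (1 / 8) := by
      have e : (y - y') * (y + y') = (x - x') * (4 * (((x / 2) * (x / 2) + (x / 2) * (x' / 2) +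
          (x' / 2) * (x' / 2)) - 63 * m * ((x / 2) + (x' / 2)) / 2 - 32 * m ^ 2)) := by
        linear_combination h.he - h'.he
      rw [← norm_mul, e, norm_mul, norm_mul, n4]
      have u1 : ‖x / 2‖ = 1 := by rw [norm_div, h.hx, n2]; norm_num
      have u2 : ‖x' / 2‖ = 1 := by rw [norm_div, h'.hx, n2]; norm_num
      have v1 := unit_sub_one u1
      have v2 := unit_sub_one u2
      have v3 := unit_sub_one hm
      have w1 : ‖x / 2 * (x / 2) + x / 2 * (x' / 2) + x' / 2 * (x' / 2) - 1‖ ≤ 1 / 2 := by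
        have e2 : x / 2 * (x / 2) + x / 2 * (x' / 2) + x' / 2 * (x' / 2) - 1 =
            (x / 2 - 1) * (x / 2 + 1) + (x' / 2) * (x / 2 - 1) + x' / 2 * ((x' / 2 - 1) + 2) := by
          ring
        have w2 : ‖x / 2 + 1‖ ≤ 1 := nle u1.le (by rw [norm_one])
        rw [e2]
        refine nle (nle ?_ ?_) ?_
        · rw [norm_mul]
          have := norm_nonneg (x / 2 - 1)
          nlinarith
        · rw [norm_mul, u2, one_mul]; exact v1
        · rw [norm_mul, u2, one_mul]; exact nle v2 n2.le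
      have w3 : ‖63 * m * ((x / 2) + (x' / 2)) / 2 - 1‖ ≤ 1 / 2 := by
        -- `(x/2 + x'/2)/2 = x/2 - (x - x')/4`
        have e3 : 63 * m * ((x / 2) + (x' / 2)) / 2 - 1 =
            (63 * m * (x / 2) - 1) - 63 * m * ((x - x') / 4) := by ring
        rw [e3]
        have w15 : ‖(63 : ℚ_[2])‖ ≤ 1 := by
          have := nm_le 63
          push_cast at this
          exact this
        have w16 : ‖(63 : ℚ_[2]) - 1‖ ≤ 1 / 2 := by
          have e4 : (63 : ℚ_[2]) - 1 = 2 * ((31 : ℤ) : ℚ_[2]) := by push_cast; norm_num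
          rw [e4, norm_mul, n2]
          exact (mul_le_mul_of_nonneg_left (nm_le 31) (by norm_num)).trans (by norm_num)
        refine nle' ?_ ?_
        · have e5 : 63 * m * (x / 2) - 1 = 63 * m * (x / 2 - 1) + 63 * (m - 1) + (63 - 1) := by
            ring
          rw [e5]
          refine nle (nle ?_ ?_) w16
          · rw [norm_mul, norm_mul, hm]
            have := norm_nonneg (x / 2 - 1)
            have := norm_nonneg (63 : ℚ_[2])
            nlinarith
          · rw [norm_mul]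
            have := norm_nonneg ((m : ℚ_[2]) - 1)
            have := norm_nonneg (63 : ℚ_[2])
            nlinarith
        · rw [norm_mul, norm_mul, hm, norm_div, n4]
          have := norm_nonneg (63 : ℚ_[2])
          nlinarith
      have w4 : ‖(32 : ℚ_[2]) * m ^ 2‖ ≤ 1 / 2 := by
        have e7 : (32 : ℚ_[2]) = 2 ^ 5 := by norm_num
        rw [norm_mul, norm_pow, hm, e7, norm_pow, n2]
        norm_num
      have w5 : ‖((x / 2) * (x / 2) + (x / 2) * (x' / 2) +
          (x' / 2) * (x' / 2)) - 63 * m * ((x / 2) + (x' / 2)) / 2 - 32 * (m : ℚ_[2]) ^ 2‖ ≤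
          1 / 2 := by
        have e6 : ((x / 2) * (x / 2) + (x / 2) * (x' / 2) +
          (x' / 2) * (x' / 2)) - 63 * m * ((x / 2) + (x' / 2)) / 2 - 32 * (m : ℚ_[2]) ^ 2 =
          (x / 2 * (x / 2) + x / 2 * (x' / 2) + x' / 2 * (x' / 2) - 1) -
          (63 * m * ((x / 2) + (x' / 2)) / 2 - 1) - 32 * (m : ℚ_[2]) ^ 2 := by ring
        rw [e6]
        exact nle' (nle' w1 w3) w4
      have := norm_nonneg (x - x')
      nlinarith
    have hl1 : ‖l‖ ≠ 1 := by
      intro hc
      rw [hc, one_mul] at hln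
      rw [← hln] at hprod
      have h1 : ‖y + y'‖ ≤ 1 / 8 := by
        by_contra hc2
        have := not_le.1 hc2
        nlinarith
      have h2 : ‖y - y'‖ = 1 / 4 := by
        have e : y - y' = -(2 * y') + (y + y') := by ring
        rw [e, nadd, norm_neg, norm_mul, n2, hy']
        · norm_num
        · rw [norm_neg, norm_mul, n2, hy']
          linarith
      rw [← hln] at h2
      linarith
    have h63 : ‖(63 * m - (x + x') : ℚ_[2])‖ = 1 := by
      have w15 : ‖(63 : ℚ_[2]) * m‖ = 1 := by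
        rw [norm_mul, hm, mul_one]
        have := nodd (k := 63) (by norm_num)
        push_cast at this
        exact this
      rw [nsub, w15]
      rw [w15]
      have := nle h.hx.le h'.hx.le
      linarith
    rcases lt_or_gt_of_ne hl1 with h1 | h1
    · have h2 : ‖l ^ 2‖ < 1 := by
        rw [norm_pow]
        have := norm_nonneg l
        nlinarith
      rw [add_comm, nadd, h63]
      rw [h63]
      exact h2
    · have h2 : 1 < ‖l ^ 2‖ := by
        rw [norm_pow]
        nlinarith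
      rw [nadd]
      · exact h2.le
      · rw [h63]
        exact h2

theorem tam_odd (hm : m % 4 = 3) : (E0 (WI m) 2).index = 4 := by
  obtain ⟨r, hr⟩ := exists_r
  have hr' := neg_r hr
  have hm0 : m ≠ 0 := by rintro rfl; norm_num at hm
  have hmn : ‖(m : ℚ_[2])‖ = 1 := nodd (by omega)
  have hm1 : ‖(m : ℚ_[2]) - 1‖ = 1 / 2 := by
    obtain ⟨k, rfl⟩ : ∃ k : ℤ, m = 4 * k + 3 := ⟨m / 4, by omega⟩
    have e : (((4 * k + 3 : ℤ)) : ℚ_[2]) - 1 = 2 + 4 * k := by push_cast; ring
    rw [e, nadd, n2]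
    rw [n2, norm_mul, n4]
    have := nm_le k
    linarith
  have ha : ‖al r m‖ = 1 / 8 := by rw [nal hr, hmn]; norm_num
  have hb : ‖al (-r) m‖ = 1 / 8 := by rw [nal hr', hmn]; norm_num
  have g2 := hns (x := al r m) (y := 0) hr hm0 (by ring)
  have s2 : (Affine.Point.some (al r m) 0 g2 : (E m).toAffine.Point) + .some (al r m) 0 g2 = 0 :=
    ((isR hr m).add_self two_ne_zero g2).2 rfl
  -- the point `Q`
  have hQ : ∃ xQ yQ : ℚ_[2], K1 m xQ yQ := by
    rcases (by omega : m % 8 = 3 ∨ m % 8 = 7) with h | h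
    · obtain ⟨s, hs⟩ := Pool.Agent.H468.X15.sq_of_mod8
        (u := (m - 2) * (1 + 32 * m - 16 * m ^ 2)) (by
        obtain ⟨k, rfl⟩ : ∃ k : ℤ, m = 8 * k + 3 := ⟨m / 8, by omega⟩
        have e : (8 * k + 3 - 2) * (1 + 32 * (8 * k + 3) - 16 * (8 * k + 3) ^ 2) =
            8 * ((8 * k + 1) * (4 * (8 * k + 3) - 2 * (8 * k + 3) ^ 2) + k) + 1 := by
          ring
        rw [e]
        omega)
      refine ⟨-2, 2 * s, ⟨by rw [norm_neg, n2], ?_⟩⟩
      push_cast at hs
      linear_combination -4 * hs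
    · obtain ⟨s, hs⟩ := Pool.Agent.H468.X15.sq_of_mod8
        (u := (m + 2) * (1 - 32 * m - 16 * m ^ 2)) (by
        obtain ⟨k, rfl⟩ : ∃ k : ℤ, m = 8 * k + 7 := ⟨m / 8, by omega⟩
        have e : (8 * k + 7 + 2) * (1 - 32 * (8 * k + 7) - 16 * (8 * k + 7) ^ 2) =
            8 * ((8 * k + 9) * (-4 * (8 * k + 7) - 2 * (8 * k + 7) ^ 2) + (k + 1)) + 1 := by
          ring
        rw [e]
        omega)
      refine ⟨2, 2 * s, ⟨n2, ?_⟩⟩
      push_cast at hs
      linear_combination -4 * hs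
  obtain ⟨xQ, yQ, hQ⟩ := hQ
  have gQ := hns' hm0 hQ.he
  have hyQ := hQ.y_norm hmn
  have hyQ0 : yQ ≠ 0 := by rw [← norm_pos_iff, hyQ]; norm_num
  -- points with `v(x) = 1`
  have kQ : ∀ (x y : ℚ_[2]) (hn : (E m).toAffine.Nonsingular x y), ‖x‖ = 1 / 2 →
      (Affine.Point.some x y hn : (E m).toAffine.Point) + .some xQ yQ gQ ∈ E0 (WI m) 2 := by
    intro x y hn hx
    exact K1.add_mem hmn ⟨hx, eqn hn⟩ hQ hn gQ
  refine index_four (E0 (WI m) 2) (.some (al r m) 0 g2 : (E m).toAffine.Point)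
    (.some xQ yQ gQ : (E m).toAffine.Point) ?_ ?_ ?_ ?_ ?_ ?_
  · rw [s2]; exact AddSubgroup.zero_mem _
  · exact hQ.dbl_mem hmn gQ
  · rw [mem_iff, ha]; norm_num
  · rw [mem_iff, hQ.hx]; norm_num
  · rw [add_comm]
    obtain ⟨X2, Y2, k2, p2, q2, r2⟩ := tr2 hr gQ hyQ0 g2
    rw [p2, mem_iff]
    have h3 : ‖xQ - al r m‖ = 1 / 2 := by
      rw [nsub, hQ.hx]
      rw [hQ.hx, ha]
      norm_num
    rw [h3, hmn] at r2
    intro h
    have h4 : ‖X2‖ ≤ 1 / 8 := by
      have e : X2 = (X2 - al r m) + al r m := by ring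
      rw [e]
      exact nle (by linarith) ha.le
    linarith
  · intro P
    rcases P with _ | ⟨x, y, hn⟩
    · left
      exact AddSubgroup.zero_mem _
    rcases le_or_gt 1 ‖x‖ with hx | hx
    · left
      exact (mem_iff hn).2 hx
    right
    have he := eqn' hr hn
    have hxm : ‖x + m‖ = 1 := by rw [add_comm, nadd, hmn]; rw [hmn]; exact hx
    by_cases hy : y = 0
    · rw [hy] at he
      have h0 : (x + m) * (x - al r m) * (x - al (-r) m) = 0 := by rw [← he]; ring
      subst hy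
      left
      rcases mul_eq_zero.1 h0 with h1 | h1
      · rcases mul_eq_zero.1 h1 with h2 | h2
        · exfalso
          rw [h2, norm_zero] at hxm
          norm_num at hxm
        · have h3 : x = al r m := by linear_combination h2
          subst h3
          rw [s2]; exact AddSubgroup.zero_mem _
      · -- `x = β`: the sum with `T_α` is `T`
        have h3 : x = al (-r) m := by linear_combination h1
        subst h3
        have hne : al (-r) m ≠ al r m := by
          intro h4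
          have h5 := nab hr m
          rw [h4, sub_self, norm_zero, hmn] at h5
          norm_num at h5
        rw [Affine.Point.add_of_X_ne hne, mem_iff]
        set l : ℚ_[2] := (E m).toAffine.slope (al (-r) m) (al r m) 0 0 with hl
        have hl' : l = (0 - 0) / (al (-r) m - al r m) := Affine.slope_of_X_ne hne
        have hl0 : l = 0 := by rw [hl']; simp
        have e1 : (E m).toAffine.addX (al (-r) m) (al r m) l = -m := by
          show l ^ 2 + (E m).a₁ * l - (E m).a₂ - al (-r) m - al r m = _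
          rw [(isR hr m).h1, (isR hr m).h2, hl0]
          ring
        rw [e1, norm_neg, hmn]
    · obtain ⟨X2, Y2, k2, p2, q2, r2⟩ := tr2 hr hn hy g2
      rw [hmn] at r2
      have x2 : 0 < ‖x - al r m‖ := norm_pos_iff.2 q2
      -- `v(x - α) ≥ 4`
      have hbig : ‖x - al r m‖ ≤ 1 / 16 → (Affine.Point.some x y hn : (E m).toAffine.Point) +
          .some (al r m) 0 g2 ∈ E0 (WI m) 2 := by
        intro h
        rw [p2, mem_iff]
        have h1 : 1 ≤ ‖X2 - al r m‖ := by
          by_contra hc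
          have hc' := not_le.1 hc
          nlinarith
        have e : X2 = (X2 - al r m) + al r m := by ring
        rw [e, nadd]
        · exact h1
        · rw [ha]
          linarith
      -- `v(x - α) = 3`
      have hk : ‖x - al r m‖ = 1 / 8 → ‖X2‖ = 1 / 2 := by
        intro h
        rw [h] at r2
        have h1 : ‖X2 - al r m‖ = 1 / 2 := by linarith
        have e : X2 = (X2 - al r m) + al r m := by ring
        rw [e, nadd, h1]
        rw [h1, ha]
        norm_num
      rcases cases5 hx with h | h | h | h | h | h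
      · -- `v(x) = 1`
        right; left
        exact kQ x y hn h
      · -- `v(x) = 2` is impossible
        exfalso
        have h2 : ‖x - al r m‖ = 1 / 4 := by rw [nsub, h]; rw [h, ha]; norm_num
        have h3 : ‖x - al (-r) m‖ = 1 / 4 := by rw [nsub, h]; rw [h, hb]; norm_num
        have hy2 : ‖y‖ ^ 2 = (1 / 4) ^ 2 := by
          rw [← norm_pow, he, norm_mul, norm_mul, hxm, h2, h3]
          norm_num
        have hy1 : ‖y‖ = 1 / 4 := (pow_left_inj₀ (norm_nonneg _) (by norm_num) two_ne_zero).1 hy2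
        have u1 : ‖y / 4‖ = 1 := by rw [norm_div, hy1, n4]; norm_num
        have u2 : ‖x / 4‖ = 1 := by rw [norm_div, h, n4]; norm_num
        have c1 := sq_unit u1
        have c2 := sq_unit u2
        have e : (m : ℚ_[2]) - 1 = ((y / 4) ^ 2 - 1) - (x + m) * (((x / 4) ^ 2 - 1) -
            4 * (m * x + m ^ 2)) - x := by
          rw [div_pow, eqn hn]
          ring
        have h5 : ‖(m : ℚ_[2]) - 1‖ ≤ 1 / 4 := by
          rw [e]
          refine nle' (nle' (by linarith) ?_) h.le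
          rw [norm_mul, hxm, one_mul]
          refine nle' (by linarith) ?_
          have h6 : ‖m * x + (m : ℚ_[2]) ^ 2‖ ≤ 1 := by
            refine nle ?_ ?_
            · rw [norm_mul, hmn, h]; norm_num
            · rw [norm_pow, hmn]; norm_num
          rw [norm_mul, n4]
          linarith
        rw [hm1] at h5
        norm_num at h5
      · -- `v(x) = 3`: the sum with `T_α`
        left
        apply hbig
        have := dif 3 (a := x) (b := al r m) (by rw [h]; norm_num) (by rw [ha]; norm_num)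
        norm_num at this ⊢
        exact this
      · right; right
        rw [← add_assoc, p2]
        apply kQ
        apply hk
        rw [nxa, ha]
        rw [h, ha]
        norm_num
      · right; right
        rw [← add_assoc, p2]
        apply kQ
        apply hk
        rw [nxa, ha]
        rw [h, ha]
        norm_num
      · right; right
        rw [← add_assoc, p2]
        apply kQ
        apply hk
        rw [nxa, ha]
        rw [ha]
        linarith

theorem t_ITD2 : S_ITD2 := by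
  intro m _ hm
  rw [WJ_eq (by omega)]
  rcases hm with h | h
  · exact tam_even h
  · exact tam_odd h

end

end Pool.Agent.H743.X17.QITD2
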