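import Pool.Agent.H743.X17.IsoStm
import Pool.Agent.H743.X17.TORS
import Pool.Agent.H468.ISG.Iso
import Pool.Graph.R_seed8.Y700.VC

/-!
# I17 ITORS: the torsion subgroup of `I^j_m(ℚ)` has order two
-/

set_option autoImplicit false

open scoped Classical

namespace Pool.Agent.H743.X17.QITORS

open WeierstrassCurve
open Pool.Agent.H743.X17
open Pool.Agent.R432 (KDat isoH pt_congr)
open Pool.Agent.H468.ISG (ker_iff iso_eq rr rr_some)
open Pool.Agent.Y700 (VR)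

lemma hd {A B : ℤ} (hA : A ≠ 0) (hB : B ≠ 0) (hAB : A ≠ B) :
    KDat (IAB A B) (EAB A B) (-2 * ((A : ℚ) + B)) (((A : ℚ) - B) ^ 2) ((A : ℚ) + B)
      ((A : ℚ) * B) 2 where
  hW := rfl
  hW' := rfl
  dat := by
    have h1 : (A : ℚ) ≠ 0 := by exact_mod_cast hA
    have h2 : (B : ℚ) ≠ 0 := by exact_mod_cast hB
    have h3 : (A : ℚ) - B ≠ 0 := sub_ne_zero.2 (by exact_mod_cast hAB)
    exact ⟨pow_ne_zero 2 h3, mul_ne_zero h1 h2, two_ne_zero, by ring, by ring⟩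

/-- the isogeny on the rational points -/
lemma hom_aux [inst : DecidableEq ℚ] {A B : ℤ} (hA : A ≠ 0) (hB : B ≠ 0) (hAB : A ≠ B)
    {V V' : WeierstrassCurve ℚ} (e : V = (IAB A B).baseChange ℚ)
    (e' : V' = (EAB A B).baseChange ℚ) :
    ∃ φ : V.toAffine.Point →+ V'.toAffine.Point,
      (∀ P, φ P = 0 → P = 0 ∨ ∃ h, P = .some 0 0 h) ∧
      ∀ (x y : ℚ) (h : V.toAffine.Nonsingular x y), x ≠ 0 →
        ∃ Y h', φ (.some x y h) = .some ((y / (2 * x)) ^ 2) Y h' := by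
  obtain rfl : inst = Classical.decEq ℚ := Subsingleton.elim _ _
  subst e e'
  refine ⟨isoH ℚ (hd hA hB hAB), fun P hP => ?_, fun x y h hx => ?_⟩
  · rcases (ker_iff (hd hA hB hAB) ℚ P).1 hP with h1 | h1
    · exact Or.inl h1
    · exact Or.inr ⟨_, h1⟩
  · obtain ⟨Y, h', e⟩ := iso_eq (hd hA hB hAB) ℚ hx h
    refine ⟨Y, ?_, e.trans (pt_congr _ _ _ ?_ rfl)⟩
    · have e2 : rr (IAB A B) 2 ℚ (Affine.Point.some x y h :
          ((IAB A B).baseChange ℚ).toAffine.Point) = y / (2 * x) := by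
        rw [rr_some]; rfl
      rw [← e2]
      exact h'
    · rw [rr_some]; rfl

lemma bc_self (W : WeierstrassCurve ℚ) : W = W.baseChange ℚ := by
  apply WeierstrassCurve.ext <;> simp [WeierstrassCurve.baseChange]

lemma hom_IE {A B : ℤ} (hA : A ≠ 0) (hB : B ≠ 0) (hAB : A ≠ B) :
    ∃ φ : (IAB A B).toAffine.Point →+ (EAB A B).toAffine.Point,
      (∀ P, φ P = 0 → P = 0 ∨ ∃ h, P = .some 0 0 h) ∧
      ∀ (x y : ℚ) (h : (IAB A B).toAffine.Nonsingular x y), x ≠ 0 →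
        ∃ Y h', φ (.some x y h) = .some ((y / (2 * x)) ^ 2) Y h' :=
  hom_aux hA hB hAB (bc_self _) (bc_self _)

/-- the shift -/
lemma vr_sh {A B C D r : ℤ} (h1 : A + B = C + D + 3 * r) (h2 : A * B = C * D + 2 * r * (C + D) +
    3 * r ^ 2) (h3 : r * (r + C) * (r + D) = 0) :
    VR (EAB C D) (EAB A B) 1 (r : ℚ) 0 0 := by
  have h1' : (A : ℚ) + B = C + D + 3 * r := by exact_mod_cast h1
  have h2' : (A : ℚ) * B = C * D + 2 * r * (C + D) + 3 * r ^ 2 := by exact_mod_cast h2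
  have h3' : (r : ℚ) * (r + C) * (r + D) = 0 := by exact_mod_cast h3
  refine ⟨one_ne_zero, ?_, ?_, ?_, ?_, ?_⟩
  · show (1 : ℚ) * 0 = 0 + 2 * 0
    norm_num
  · show (1 : ℚ) ^ 2 * ((A : ℚ) + B) = ((C : ℚ) + D) - 0 * 0 + 3 * (r : ℚ) - 0 ^ 2
    rw [h1']
    ring
  · show (1 : ℚ) ^ 3 * 0 = 0 + (r : ℚ) * 0 + 2 * 0
    ring
  · show (1 : ℚ) ^ 4 * ((A : ℚ) * B) = (C : ℚ) * D - 0 * 0 + 2 * (r : ℚ) * ((C : ℚ) + D) -
      (0 + (r : ℚ) * 0) * 0 + 3 * (r : ℚ) ^ 2 - 2 * 0 * 0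
    rw [h2']
    ring
  · show (1 : ℚ) ^ 6 * 0 = 0 + (r : ℚ) * ((C : ℚ) * D) + (r : ℚ) ^ 2 * ((C : ℚ) + D) +
      (r : ℚ) ^ 3 - 0 * 0 - 0 ^ 2 - (r : ℚ) * 0 * 0
    linear_combination -h3'

lemma delta_EAB {A B : ℤ} (hA : A ≠ 0) (hB : B ≠ 0) (hAB : A ≠ B) : (EAB A B).Δ ≠ 0 := by
  have h1 : (A : ℚ) ≠ 0 := by exact_mod_cast hA
  have h2 : (B : ℚ) ≠ 0 := by exact_mod_cast hB
  have h3 : (A : ℚ) - B ≠ 0 := sub_ne_zero.2 (by exact_mod_cast hAB)
  have e : (EAB A B).Δ = 16 * ((A : ℚ) * B * (A - B)) ^ 2 := by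
    simp only [EAB, WeierstrassCurve.Δ, WeierstrassCurve.b₂, WeierstrassCurve.b₄,
      WeierstrassCurve.b₆, WeierstrassCurve.b₈]
    ring
  rw [e]
  exact mul_ne_zero (by norm_num) (pow_ne_zero 2 (mul_ne_zero (mul_ne_zero h1 h2) h3))

lemma exists_eE (j : Fin 3) {m : ℤ} (hA : pA j m ≠ 0) (hB : pB j m ≠ 0)
    (hAB : pA j m ≠ pB j m) :
    Nonempty ((EAB (pA j m) (pB j m)).toAffine.Point ≃+ (EAB m (-16 * m)).toAffine.Point) := by
  have h : ∃ r : ℤ, VR (EAB m (-16 * m)) (EAB (pA j m) (pB j m)) 1 (r : ℚ) 0 0 := by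
    fin_cases j
    · exact ⟨0, vr_sh (by simp only [pA, pB]; ring) (by simp only [pA, pB]; ring) (by ring)⟩
    · exact ⟨-m, vr_sh (by simp only [pA, pB]; ring) (by simp only [pA, pB]; ring) (by ring)⟩
    · exact ⟨16 * m, vr_sh (by simp only [pA, pB]; ring) (by simp only [pA, pB]; ring) (by ring)⟩
  obtain ⟨r, hr⟩ := h
  exact ⟨hr.equiv (delta_EAB hA hB hAB)⟩

/-! ### squares -/

lemma sqf_sq {n : ℤ} (hn : Squarefree n) {z : ℚ} (h : z ^ 2 = n) : n = 1 := by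
  have h1 : IsSquare (n : ℚ) := ⟨z, by rw [← h, sq]⟩
  rw [Rat.isSquare_intCast_iff] at h1
  obtain ⟨k, hk⟩ := h1
  have h2 : IsUnit k := hn k ⟨1, by rw [hk, mul_one]⟩
  rcases Int.isUnit_iff.1 h2 with rfl | rfl <;> simp [hk]

lemma sqf_neg {n : ℤ} (hn : Squarefree n) : Squarefree (-n) := fun x hx => hn x ((dvd_neg).1 hx)

lemma sqf_17 {n : ℤ} (hn : Squarefree n) {z : ℚ} (h : z ^ 2 = 17 * n) : n = 17 := by
  have h1 : IsSquare ((17 * n : ℤ) : ℚ) := ⟨z, by push_cast; rw [← h, sq]⟩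
  rw [Rat.isSquare_intCast_iff] at h1
  obtain ⟨k, hk⟩ := h1
  have hp : Prime (17 : ℤ) := by norm_num
  have h2 : (17 : ℤ) ∣ k := by
    rcases hp.dvd_or_dvd (show (17 : ℤ) ∣ k * k from ⟨n, hk.symm⟩) with h | h <;> exact h
  obtain ⟨l, rfl⟩ := h2
  have h3 : n = 17 * (l * l) := by linarith
  have h4 : IsUnit l := hn l ⟨17, by rw [h3]; ring⟩
  rcases Int.isUnit_iff.1 h4 with rfl | rfl <;> simp [h3]

lemma no_zero (j : Fin 3) {m : ℤ} (hm : m ≠ 0) {w : ℚ} (h : w ^ 2 = ((pA j m : ℤ) : ℚ) * (pB j m : ℤ)) :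
    False := by
  have hmq : (m : ℚ) ≠ 0 := by exact_mod_cast hm
  fin_cases j
  · have h1 : w ^ 2 = (m : ℚ) * (-16 * m) := by
      rw [h]; simp only [pA, pB]; push_cast; ring
    have h2 : (0 : ℚ) < (m : ℚ) ^ 2 := by positivity
    nlinarith [sq_nonneg w]
  · have h1 : w ^ 2 = (-(m : ℚ)) * (-17 * m) := by
      rw [h]; simp only [pA, pB]; push_cast; ring
    apply QTORS.not17 (w / m)
    rw [div_pow, h1]
    field_simp
  · have h1 : w ^ 2 = (16 * (m : ℚ)) * (17 * m) := by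
      rw [h]; simp only [pA, pB]; push_cast; ring
    apply QTORS.not17 (w / (4 * m))
    rw [div_pow, h1]
    field_simp
    ring

lemma no_A (j : Fin 3) {m : ℤ} (hm : Squarefree m) (hE : ¬ Exc m) {z : ℚ}
    (h : z ^ 2 = -((pA j m : ℤ) : ℚ)) : False := by
  fin_cases j
  · have h1 : z ^ 2 = ((-m : ℤ) : ℚ) := by
      rw [h]; simp only [pA]; push_cast; ring
    have := sqf_sq (sqf_neg hm) h1
    exact hE (Or.inr (Or.inl (by omega)))
  · have h1 : z ^ 2 = ((m : ℤ) : ℚ) := by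
      rw [h]; simp only [pA]; push_cast; ring
    have := sqf_sq hm h1
    exact hE (Or.inl (by omega))
  · have h1 : (z / 4) ^ 2 = ((-m : ℤ) : ℚ) := by
      rw [div_pow, h]; simp only [pA]; push_cast; ring
    have := sqf_sq (sqf_neg hm) h1
    exact hE (Or.inr (Or.inl (by omega)))

lemma no_B (j : Fin 3) {m : ℤ} (hm : Squarefree m) (hE : ¬ Exc m) {z : ℚ}
    (h : z ^ 2 = -((pB j m : ℤ) : ℚ)) : False := by
  fin_cases j
  · have h1 : (z / 4) ^ 2 = ((m : ℤ) : ℚ) := by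
      rw [div_pow, h]; simp only [pB]; push_cast; ring
    have := sqf_sq hm h1
    exact hE (Or.inl (by omega))
  · have h1 : z ^ 2 = 17 * ((m : ℤ) : ℚ) := by
      rw [h]; simp only [pB]; push_cast; ring
    have := sqf_17 hm h1
    exact hE (Or.inr (Or.inr (Or.inl (by omega))))
  · have h1 : z ^ 2 = 17 * ((-m : ℤ) : ℚ) := by
      rw [h]; simp only [pB]; push_cast; ring
    have := sqf_17 (sqf_neg hm) h1
    exact hE (Or.inr (Or.inr (Or.inr (by omega))))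

/-! ### the torsion points -/

lemma ne_AB (j : Fin 3) {m : ℤ} (hm : m ≠ 0) : pA j m ≠ 0 ∧ pB j m ≠ 0 ∧ pA j m ≠ pB j m := by
  fin_cases j <;> simp only [pA, pB] <;> refine ⟨?_, ?_, ?_⟩ <;> omega

lemma tors_I (j : Fin 3) {m : ℤ} (hm : Squarefree m) (hE : ¬ Exc m)
    {P : (IAB (pA j m) (pB j m)).toAffine.Point} (hP : IsOfFinAddOrder P) :
    P = 0 ∨ ∃ h, P = .some 0 0 h := by
  obtain ⟨hA, hB, hAB⟩ := ne_AB j hm.ne_zero
  obtain ⟨φ, h1, h2⟩ := hom_IE hA hB hAB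
  obtain ⟨e⟩ := exists_eE j hA hB hAB
  have nz := fun w => no_zero j hm.ne_zero (w := w)
  have nA := fun w => no_A j hm hE (z := w)
  have nB := fun w => no_B j hm hE (z := w)
  revert φ e nz nA nB
  generalize pA j m = A at *
  generalize pB j m = B at *
  intro φ h1 h2 e nz nA nB
  rcases P with _ | ⟨x, y, hxy⟩
  · exact Or.inl rfl
  have heq : y ^ 2 = x ^ 3 + (-2 * ((A : ℚ) + B)) * x ^ 2 + ((A : ℚ) - B) ^ 2 * x := by
    have := (Affine.equation_iff _ _).1 hxy.1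
    have h3 : y ^ 2 + 0 * x * y + 0 * y = x ^ 3 + (-2 * ((A : ℚ) + B)) * x ^ 2 +
      ((A : ℚ) - B) ^ 2 * x + 0 := this
    linear_combination h3
  right
  by_cases hx : x = 0
  · subst hx
    have hy : y = 0 := by
      have : y ^ 2 = 0 := by rw [heq]; ring
      exact pow_eq_zero_iff (two_ne_zero) |>.1 this
    subst hy
    exact ⟨hxy, rfl⟩
  exfalso
  obtain ⟨Y, h', e1⟩ := h2 x y hxy hx
  have h3 : IsOfFinAddOrder (φ (.some x y hxy)) := φ.isOfFinAddOrder hP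
  have h4 : IsOfFinAddOrder (e (φ (.some x y hxy))) := e.toAddMonoidHom.isOfFinAddOrder h3
  have h5 := QTORS.two_of_tors hm h4
  have h6 : φ (.some x y hxy) + φ (.some x y hxy) = 0 := by
    apply e.injective
    rw [map_add, map_zero]
    exact h5
  rw [e1] at h6
  have h7 := eq_neg_of_add_eq_zero_left h6
  rw [Affine.Point.neg_some] at h7
  have h8 : Y = (EAB A B).toAffine.negY ((y / (2 * x)) ^ 2) Y := (Affine.Point.some.inj h7).2
  have h9 : Y = -Y - 0 * ((y / (2 * x)) ^ 2) - 0 := h8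
  have hY : Y = 0 := by linarith
  have heq' : Y ^ 2 = ((y / (2 * x)) ^ 2) ^ 3 + ((A : ℚ) + B) * ((y / (2 * x)) ^ 2) ^ 2 +
      ((A : ℚ) * B) * ((y / (2 * x)) ^ 2) := by
    have := (Affine.equation_iff _ _).1 h'.1
    have h3 : Y ^ 2 + 0 * ((y / (2 * x)) ^ 2) * Y + 0 * Y = ((y / (2 * x)) ^ 2) ^ 3 +
      ((A : ℚ) + B) * ((y / (2 * x)) ^ 2) ^ 2 + ((A : ℚ) * B) * ((y / (2 * x)) ^ 2) + 0 := this
    linear_combination h3
  rw [hY] at heq'
  obtain ⟨z, hz⟩ : ∃ z, z = y / (2 * x) := ⟨_, rfl⟩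
  rw [← hz] at heq'
  have h10 : z ^ 2 * ((z ^ 2 + A) * (z ^ 2 + B)) = 0 := by linear_combination -heq'
  rcases mul_eq_zero.1 h10 with h11 | h11
  · have hz0 : z = 0 := pow_eq_zero_iff (two_ne_zero) |>.1 h11
    rw [hz0] at hz
    have hy : y = 0 := by
      have h2x : 2 * x ≠ 0 := mul_ne_zero two_ne_zero hx
      rcases div_eq_zero_iff.1 hz.symm with h | h
      · exact h
      · exact absurd h h2x
    rw [hy] at heq
    have h12 : x * ((x - (A + B)) ^ 2 - 4 * A * B) = 0 := by linear_combination -heq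
    rcases mul_eq_zero.1 h12 with h13 | h13
    · exact hx h13
    · exact nz ((x - (A + B)) / 2) (by linear_combination h13 / 4)
  · rcases mul_eq_zero.1 h11 with h12 | h12
    · exact nA z (by linear_combination h12)
    · exact nB z (by linear_combination h12)

lemma ns_I {A B : ℤ} (hAB : A ≠ B) : (IAB A B).toAffine.Nonsingular 0 0 := by
  have h3 : (A : ℚ) - B ≠ 0 := sub_ne_zero.2 (by exact_mod_cast hAB)
  rw [Affine.nonsingular_iff, Affine.equation_iff]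
  refine ⟨?_, Or.inl ?_⟩
  · show (0 : ℚ) ^ 2 + 0 * 0 * 0 + 0 * 0 = 0 ^ 3 + (-2 * ((A : ℚ) + B)) * 0 ^ 2 +
      ((A : ℚ) - B) ^ 2 * 0 + 0
    ring
  · show (0 : ℚ) * 0 ≠ 3 * 0 ^ 2 + 2 * (-2 * ((A : ℚ) + B)) * 0 + ((A : ℚ) - B) ^ 2
    intro h0
    apply pow_ne_zero 2 h3
    linarith

theorem t_ITORS : S_ITORS := by
  intro j m hm hE
  obtain ⟨hA, hB, hAB⟩ := ne_AB j hm.ne_zero
  set T : (IAB (pA j m) (pB j m)).toAffine.Point := .some 0 0 (ns_I hAB) with hTdef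
  have hT0 : T ≠ 0 := Affine.Point.some_ne_zero _
  have hTT : T + T = 0 := by
    have h1 : -T = T := by
      rw [hTdef, Affine.Point.neg_some]
      have h2 : (IAB (pA j m) (pB j m)).toAffine.negY 0 0 = 0 := by
        show -(0 : ℚ) - 0 * 0 - 0 = 0
        ring
      congr 1
    nth_rw 1 [← h1]
    exact neg_add_cancel _
  have hTf : IsOfFinAddOrder T := by
    rw [isOfFinAddOrder_iff_nsmul_eq_zero]
    exact ⟨2, by norm_num, by rw [two_nsmul]; exact hTT⟩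
  have hset : ((AddCommGroup.torsion (IAB (pA j m) (pB j m)).toAffine.Point :
      Set (IAB (pA j m) (pB j m)).toAffine.Point)) = {0, T} := by
    ext Q
    constructor
    · intro hQ
      have hQ' : IsOfFinAddOrder Q := hQ
      rcases tors_I j hm hE hQ' with h4 | ⟨h, h4⟩
      · left
        exact h4
      · right
        exact h4
    · rintro (rfl | rfl)
      · exact zero_mem _
      · exact hTf
  have hne : (0 : (IAB (pA j m) (pB j m)).toAffine.Point) ≠ T := hT0.symm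
  have h5 : Nat.card (AddCommGroup.torsion (IAB (pA j m) (pB j m)).toAffine.Point) =
      Set.ncard ((AddCommGroup.torsion (IAB (pA j m) (pB j m)).toAffine.Point :
        Set (IAB (pA j m) (pB j m)).toAffine.Point)) := rfl
  rw [h5, hset, Set.ncard_pair hne]

end Pool.Agent.H743.X17.QITORS
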