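import Pool.Agent.H743.X17.IsoStm
import Pool.Graph.R_seed8.Y809.BSD14.Tam3
import Pool.Agent.H743.X17.TAMP
import Pool.Agent.H468.X15S.Pad

/-!
# I17 ITP1: Tamagawa numbers, `j = 1`, `p ∥ N`, `p ≠ 2, 17` (type `I₀*`)

`X = 4 x`, `Y = 4 (2 y + a₁ x)`, so `Y² = X (X² + 9 N X + 16 N²)`.  The points outside `E⁰` are those
with `|X| < 1`, then `X = N t` with `|t| ≤ 1`, and translation by `T = (N r, 0)`,
`r (r² + 9 r + 16) = 0`, leads to `E⁰` iff `|t - r| < 1`.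
-/

set_option autoImplicit false

open scoped Classical

open WeierstrassCurve

namespace Pool.Agent.H743.X17.QITP1

open Pool.Agent.H743.X17 (IsJ S_ITP1 be ga de)
open Pool.Agent.H743.X17.QTAMP (At exists_at At.ext parity' nint)
open Pool.Agent.Y700 (SingRed E0 tam PtP)
open Pool.Agent.Y809.BSD14 (index_of t_E0 nadd nsub nmul npow nneg ladd lneg lsub lmul lmul' norm_nat_eq_one norm_two_pow
  norm_le_inv norm_M M_lt M_pos M_ne norm2 norm4 norm16 nnat)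

section crd

variable {K : Type} [Field K] [DecidableEq K]

/-- the form of the equation -/
structure IsK (V : WeierstrassCurve.Affine K) (n : K) : Prop where
  a3 : V.a₃ = 0
  a6 : V.a₆ = 0
  b2 : V.a₁ ^ 2 + 4 * V.a₂ = 9 * n
  a4 : V.a₄ = n ^ 2

variable {V : WeierstrassCurve.Affine K} {n : K}

theorem IsK.eqn (h : IsK V n) {x y : K} (hE : V.Equation x y) :
    (4 * (2 * y + V.a₁ * x)) ^ 2 = 4 * x * ((4 * x) ^ 2 + 9 * n * (4 * x) + 16 * n ^ 2) := by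
  rw [Affine.equation_iff, h.a3, h.a6] at hE
  linear_combination 64 * hE + 16 * x ^ 2 * h.b2 + 64 * x * h.a4

theorem IsK.eqn' (h : IsK V n) (h2 : (2 : K) ≠ 0) {x y : K}
    (hE : (4 * (2 * y + V.a₁ * x)) ^ 2 = 4 * x * ((4 * x) ^ 2 + 9 * n * (4 * x) + 16 * n ^ 2)) :
    V.Equation x y := by
  rw [Affine.equation_iff, h.a3, h.a6]
  have h64 : (64 : K) ≠ 0 := by
    have : (64 : K) = 2 ^ 6 := by norm_num
    rw [this]
    exact pow_ne_zero _ h2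
  apply mul_left_cancel₀ h64
  linear_combination hE - 16 * x ^ 2 * h.b2 - 64 * x * h.a4

theorem IsK.fx (h : IsK V n) (x y : K) : 16 * (V.a₁ * y - (3 * x ^ 2 + 2 * V.a₂ * x + V.a₄)) =
    2 * V.a₁ * (4 * (2 * y + V.a₁ * x)) - (3 * (4 * x) ^ 2 + 18 * n * (4 * x) + 16 * n ^ 2) := by
  linear_combination (-8 * x) * h.b2 - 16 * h.a4

theorem eqn (hV : IsK V n) {P : V.Point} {X Y : K} (h : At P X Y) :
    Y ^ 2 = X * (X ^ 2 + 9 * n * X + 16 * n ^ 2) := by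
  obtain ⟨x, y, hn, rfl, rfl, rfl⟩ := h
  exact hV.eqn hn.1

theorem neg (hV : IsK V n) {P : V.Point} {X Y : K} (h : At P X Y) : At (-P) X (-Y) := by
  obtain ⟨x, y, hn, rfl, rfl, rfl⟩ := h
  rw [Affine.Point.neg_some]
  refine ⟨_, _, _, rfl, rfl, ?_⟩
  rw [WeierstrassCurve.Affine.negY, hV.a3]
  ring

/-- the points of order two -/
theorem exists_two (hV : IsK V n) (h2 : (2 : K) ≠ 0) {e : K}
    (he : e * (e ^ 2 + 9 * n * e + 16 * n ^ 2) = 0)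
    (hd : 3 * e ^ 2 + 18 * n * e + 16 * n ^ 2 ≠ 0) : ∃ P : V.Point, At P e 0 := by
  have h4 : (4 : K) ≠ 0 := by
    have : (4 : K) = 2 ^ 2 := by norm_num
    rw [this]
    exact pow_ne_zero _ h2
  obtain ⟨x, hx⟩ : ∃ x : K, e = 4 * x := ⟨e / 4, by field_simp⟩
  obtain ⟨y, hy⟩ : ∃ y : K, 2 * y + V.a₁ * x = 0 := ⟨-(V.a₁ * x) / 2, by field_simp; ring⟩
  have hq : V.Equation x y := by
    apply hV.eqn' h2
    rw [← hx, hy]
    linear_combination -he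
  have hn : V.Nonsingular x y := by
    rw [Affine.nonsingular_iff]
    refine ⟨hq, Or.inl ?_⟩
    intro hcon
    have hf := hV.fx x y
    rw [hcon, sub_self, mul_zero, ← hx, hy] at hf
    apply hd
    linear_combination hf
  exact ⟨Affine.Point.some x y hn, x, y, hn, rfl, hx, by rw [hy, mul_zero]⟩

theorem add (hV : IsK V n) (h2 : (2 : K) ≠ 0) {P P' : V.Point} {X Y X' Y' : K}
    (h : At P X Y) (h' : At P' X' Y') (hne : X ≠ X') :
    ∃ Y3, At (P + P') (((Y - Y') / (X - X')) ^ 2 - 9 * n - X - X') Y3 := by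
  obtain ⟨x, y, hn, rfl, rfl, rfl⟩ := h
  obtain ⟨x', y', hn', rfl, rfl, rfl⟩ := h'
  have hx : x ≠ x' := fun h => hne (by rw [h])
  rw [Affine.Point.add_of_X_ne hx]
  refine ⟨_, _, _, _, rfl, ?_, rfl⟩
  rw [WeierstrassCurve.Affine.addX, WeierstrassCurve.Affine.slope_of_X_ne hx]
  have h1 : x - x' ≠ 0 := sub_ne_zero.2 hx
  have h4 : (4 : K) ≠ 0 := by
    have : (4 : K) = 2 ^ 2 := by norm_num
    rw [this]
    exact pow_ne_zero _ h2
  have h5 : (4 * (2 * y + V.a₁ * x) - 4 * (2 * y' + V.a₁ * x')) /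
      (4 * x - 4 * x') = 2 * ((y - y') / (x - x')) + V.a₁ := by
    have h6 : 4 * x - 4 * x' = 4 * (x - x') := by ring
    rw [h6]
    field_simp
    ring
  rw [h5]
  linear_combination hV.b2

/-- translation by a point of order two with the coordinates `(e, 0)` -/
theorem addT (hV : IsK V n) (h2 : (2 : K) ≠ 0) {P T : V.Point} {X Y e : K} (h : At P X Y)
    (hT : At T e 0) (hX : X ≠ e) : ∃ X3 Y3, At (P + T) X3 Y3 ∧
      (X3 - e) * (X - e) = 3 * e ^ 2 + 18 * n * e + 16 * n ^ 2 := by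
  obtain ⟨Y3, h3⟩ := add hV h2 h hT hX
  refine ⟨_, Y3, h3, ?_⟩
  have e0 := eqn hV h
  have eT := eqn hV hT
  have hXe : X - e ≠ 0 := sub_ne_zero.2 hX
  rw [sub_zero]
  obtain ⟨L, hL⟩ : ∃ L : K, L = Y / (X - e) := ⟨_, rfl⟩
  have hL1 : L * (X - e) = Y := by rw [hL, div_mul_cancel₀ _ hXe]
  rw [← hL]
  have e3 : L ^ 2 * (X - e) = X ^ 2 + (9 * n + e) * X + (e ^ 2 + 9 * n * e + 16 * n ^ 2) := by
    apply mul_right_cancel₀ hXe
    rw [← hL1] at e0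
    linear_combination e0 - eT
  linear_combination e3

theorem two_tors (hV : IsK V n) (h2 : (2 : K) ≠ 0) {T : V.Point} {e : K} (hT : At T e 0) :
    T + T = 0 := by
  have h1 : At (-T) e 0 := by simpa using neg hV hT
  have h3 : T = -T := hT.ext h2 h1
  calc T + T = T + -T := by rw [← h3]
    _ = 0 := add_neg_cancel T

end crd

section

variable {q : ℕ} [Fact q.Prime] {W : WeierstrassCurve ℤ} {N : ℤ}

theorem isK (h : IsJ 1 W N) : IsK ((W.map (Int.castRingHom ℚ_[q])).toAffine) (N : ℚ_[q]) := by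
  have h4 : W.a₄ = N ^ 2 := by
    have := h.a4
    rw [this]
    simp [ga]
  have h6 : W.a₆ = 0 := by
    have := h.a6
    rw [this]
    simp [de]
  have h2 : W.a₁ ^ 2 + 4 * W.a₂ = 9 * N := by
    have := h.b2
    rw [WeierstrassCurve.b₂] at this
    exact this
  refine ⟨?_, ?_, ?_, ?_⟩
  · show ((W.a₃ : ℤ) : ℚ_[q]) = 0
    rw [h.a3, Int.cast_zero]
  · show ((W.a₆ : ℤ) : ℚ_[q]) = 0
    rw [h6, Int.cast_zero]
  · show ((W.a₁ : ℤ) : ℚ_[q]) ^ 2 + 4 * ((W.a₂ : ℤ) : ℚ_[q]) = 9 * (N : ℚ_[q])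
    exact_mod_cast h2
  · show ((W.a₄ : ℤ) : ℚ_[q]) = (N : ℚ_[q]) ^ 2
    exact_mod_cast h4

/-- singular reduction in the coordinates `X`, `Y` -/
theorem sing_XY (h : IsJ 1 W N) (hq2 : q ≠ 2) (x y : ℚ_[q]) :
    SingRed W q x y ↔ ‖4 * x‖ ≤ 1 ∧ ‖4 * (2 * y + (W.a₁ : ℚ_[q]) * x)‖ < 1 ∧
      ‖3 * (4 * x) ^ 2 + 18 * (N : ℚ_[q]) * (4 * x) + 16 * (N : ℚ_[q]) ^ 2‖ < 1 := by
  have hV := isK (q := q) h
  have e2 := hV.fx x y
  have n4 := norm4 hq2
  have n2' := norm2 hq2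
  have n16 := norm16 hq2
  have c3 : ((W.a₃ : ℤ) : ℚ_[q]) = 0 := by rw [h.a3, Int.cast_zero]
  have e3 : 16 * ((W.a₁ : ℚ_[q]) * y - (3 * x ^ 2 + 2 * (W.a₂ : ℚ_[q]) * x + (W.a₄ : ℚ_[q]))) =
      2 * (W.a₁ : ℚ_[q]) * (4 * (2 * y + (W.a₁ : ℚ_[q]) * x)) -
      (3 * (4 * x) ^ 2 + 18 * (N : ℚ_[q]) * (4 * x) + 16 * (N : ℚ_[q]) ^ 2) := e2
  have hA := nint (q := q) W.a₁
  constructor
  · rintro ⟨hx, hy, hfx, hfy⟩
    rw [c3, add_zero] at hfy
    have hY : ‖4 * (2 * y + (W.a₁ : ℚ_[q]) * x)‖ < 1 := by rw [norm_mul, n4, one_mul]; exact hfy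
    refine ⟨nmul n4.le hx, hY, ?_⟩
    have h1 := lmul (a := (16 : ℚ_[q])) n16.le hfx
    rw [e3] at h1
    have h2 := lsub (lmul (a := 2 * (W.a₁ : ℚ_[q])) (nmul n2'.le hA) hY) h1
    rw [sub_sub_cancel] at h2
    exact h2
  · rintro ⟨hX, hY, hF⟩
    rw [norm_mul, n4, one_mul] at hX
    have hY' := hY
    rw [norm_mul, n4, one_mul] at hY'
    have hy : ‖y‖ ≤ 1 := by
      have h1 : ‖2 * y‖ = ‖y‖ := by rw [norm_mul, n2', one_mul]
      rw [← h1]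
      have : 2 * y = (2 * y + (W.a₁ : ℚ_[q]) * x) - (W.a₁ : ℚ_[q]) * x := by ring
      rw [this]
      exact nsub hY'.le (nmul hA hX)
    refine ⟨hX, hy, ?_, ?_⟩
    · have h1 : ‖16 * ((W.a₁ : ℚ_[q]) * y - (3 * x ^ 2 + 2 * (W.a₂ : ℚ_[q]) * x + (W.a₄ : ℚ_[q])))‖ < 1 := by
        rw [e3]
        exact lsub (lmul (nmul n2'.le hA) hY) hF
      rw [norm_mul, n16, one_mul] at h1
      exact h1
    · rw [c3, add_zero]
      exact hY'

/-- membership in `E⁰` -/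
theorem mem_E0 (h : IsJ 1 W N) (hq2 : q ≠ 2) {P : PtP W q} {X Y : ℚ_[q]}
    (hP : At P X Y) : P ∉ E0 W q ↔ ‖X‖ ≤ 1 ∧ ‖Y‖ < 1 ∧
      ‖3 * X ^ 2 + 18 * (N : ℚ_[q]) * X + 16 * (N : ℚ_[q]) ^ 2‖ < 1 := by
  obtain ⟨x, y, hn, rfl, rfl, rfl⟩ := hP
  have h0 := sing_XY (q := q) h hq2 x y
  have h1 : (Affine.Point.some x y hn : PtP W q) ∉ E0 W q ↔ SingRed W q x y := by
    rw [t_E0]
    constructor
    · intro h1
      push Not at h1
      obtain ⟨x', y', h', e, hs⟩ := h1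
      injection e with e1 e2
      rw [e1, e2]
      exact hs
    · intro hs h1
      exact h1 x y hn rfl hs
  rw [h1, h0]
  rfl

variable (h : IsJ 1 W N) (hq2 : q ≠ 2) (hM : ‖(N : ℚ_[q])‖ = (q : ℝ)⁻¹)

include h hq2 hM

/-- the points outside `E⁰` are those with `|X| < 1` -/
theorem memX {P : PtP W q} {X Y : ℚ_[q]} (hP : At P X Y) : P ∉ E0 W q ↔ ‖X‖ < 1 := by
  have he := eqn (isK (q := q) h) hP
  have hm := M_lt hM
  have i9 : ‖(9 : ℚ_[q])‖ ≤ 1 := by exact_mod_cast nint (q := q) 9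
  have i16 : ‖(16 : ℚ_[q])‖ ≤ 1 := by exact_mod_cast nint (q := q) 16
  have i18 : ‖(18 : ℚ_[q])‖ ≤ 1 := by exact_mod_cast nint (q := q) 18
  have i3 : ‖(3 : ℚ_[q])‖ ≤ 1 := by exact_mod_cast nint (q := q) 3
  rw [mem_E0 h hq2 hP]
  constructor
  · rintro ⟨hX, hY, -⟩
    have h3 : ‖X ^ 3‖ < 1 := by
      have e : X ^ 3 = Y * Y - (9 * X ^ 2 + 16 * N * X) * N := by
        linear_combination -he
      rw [e]
      exact lsub (lmul hY.le hY) (lmul (nadd (nmul i9 (npow hX 2)) (nmul (nmul i16 hm.le) hX)) hm)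
    rw [norm_pow] at h3
    by_contra h
    rw [not_lt] at h
    have := one_le_pow₀ h (n := 3)
    linarith
  · intro hX
    refine ⟨hX.le, ?_, ?_⟩
    · have h1 : ‖Y ^ 2‖ < 1 := by
        rw [he]
        exact lmul' hX (nadd (nadd (npow hX.le 2) (nmul (nmul i9 hm.le) hX.le))
          (nmul i16 (npow hm.le 2)))
      rw [norm_pow] at h1
      by_contra h
      rw [not_lt] at h
      have := one_le_pow₀ h (n := 2)
      linarith
    · have hm2 : ‖(N : ℚ_[q]) ^ 2‖ < 1 := by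
        rw [pow_two]
        exact lmul hm.le hm
      have hX2 : ‖X ^ 2‖ < 1 := by
        rw [pow_two]
        exact lmul hX.le hX
      exact ladd (ladd (lmul i3 hX2) (lmul (nmul i18 hm.le) hX)) (lmul i16 hm2)

/-- translation by a point of order two -/
theorem trans {r t c Y : ℚ_[q]} {P T : PtP W q} (hc : 3 * r ^ 2 + 18 * r + 16 = c) (hr1 : ‖r‖ ≤ 1)
    (hP : At P (N * t) Y) (hT : At T (N * r) 0) (htr : ‖t - r‖ < 1) (hc1 : ‖c‖ = 1)
    (hroot : r * (r ^ 2 + 9 * r + 16) = 0) : P + T ∈ E0 W q := by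
  have hV := isK (q := q) h
  have hm0 := M_ne hM
  have hml := M_lt hM
  have hmp := M_pos hM
  have h2 : (2 : ℚ_[q]) ≠ 0 := two_ne_zero
  by_cases he : t = r
  · have hY : Y = 0 := by
      have h3 := eqn hV hP
      rw [he] at h3
      have h4 : Y ^ 2 = 0 := by
        rw [h3]
        linear_combination (N : ℚ_[q]) ^ 3 * hroot
      exact pow_eq_zero_iff two_ne_zero |>.1 h4
    rw [hY, he] at hP
    rw [hP.ext h2 hT, two_tors hV h2 hT]
    exact AddSubgroup.zero_mem _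
  · obtain ⟨X3, Y3, h3, h4⟩ := addT hV h2 hP hT (fun hh => he (mul_left_cancel₀ hm0 hh))
    have htr0 : t - r ≠ 0 := sub_ne_zero.2 he
    have e5 : (X3 - N * r) * (t - r) = N * c := by
      apply mul_left_cancel₀ hm0
      linear_combination h4 + (N : ℚ_[q]) ^ 2 * hc
    have e6 : ‖X3 - N * r‖ * ‖t - r‖ = (q : ℝ)⁻¹ := by
      rw [← norm_mul, e5, norm_mul, hM, hc1, mul_one]
    by_contra hcon
    have h5 := (memX h hq2 hM h3).1 hcon
    have h6 : ‖X3 - N * r‖ < 1 := lsub h5 (lmul' hml hr1)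
    have h8 : 0 < ‖t - r‖ := norm_pos_iff.2 htr0
    have h9 : ‖X3 - N * r‖ * ‖t - r‖ < 1 * ‖t - r‖ := mul_lt_mul_of_pos_right h6 h8
    rw [e6, one_mul] at h9
    exact absurd (norm_le_inv q htr) (not_le.2 h9)

/-- the parameter `t = X / N` of a point outside `E⁰` -/
theorem par {P : PtP W q} (hP : P ∉ E0 W q) : ∃ t Y : ℚ_[q], At P (N * t) Y ∧ ‖t‖ ≤ 1 ∧
    ‖t * (t ^ 2 + 9 * t + 16)‖ < 1 := by
  have hV := isK (q := q) h
  have hm0 := M_ne hM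
  have hmp := M_pos hM
  have hP0 : P ≠ 0 := fun h0 => hP (by rw [h0]; exact zero_mem _)
  obtain ⟨X, Y, hat⟩ := exists_at hP0
  have hX := (memX h hq2 hM hat).1 hP
  obtain ⟨t, rfl⟩ : ∃ t : ℚ_[q], X = N * t := ⟨X / N, by rw [mul_div_cancel₀ _ hm0]⟩
  have ht1 : ‖t‖ ≤ 1 := by
    have h1 := norm_le_inv q hX
    rw [norm_mul, ← hM] at h1
    by_contra h
    rw [not_le] at h
    nlinarith
  refine ⟨t, Y, hat, ht1, ?_⟩
  have he : ‖Y‖ ^ 2 = (q : ℝ)⁻¹ ^ 3 * ‖t * (t ^ 2 + 9 * t + 16)‖ := by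
    have h3 := eqn hV hat
    have h4 : (N : ℚ_[q]) * t * ((N * t) ^ 2 + 9 * N * (N * t) + 16 * N ^ 2) =
        N ^ 3 * (t * (t ^ 2 + 9 * t + 16)) := by ring
    rw [h4] at h3
    rw [← norm_pow, h3, norm_mul, norm_pow, hM]
  have i9 : ‖(9 : ℚ_[q])‖ ≤ 1 := by exact_mod_cast nint (q := q) 9
  have i16 : ‖(16 : ℚ_[q])‖ ≤ 1 := by exact_mod_cast nint (q := q) 16
  have h3 : ‖t * (t ^ 2 + 9 * t + 16)‖ ≤ 1 :=
    nmul ht1 (nadd (nadd (npow ht1 2) (nmul i9 ht1)) i16)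
  refine lt_of_le_of_ne h3 fun h4 => ?_
  rw [h4, mul_one] at he
  exact parity' Y 1 he

/-- the index when `17` is not a square -/
theorem tam_two (hj : jacobiSym 17 q ≠ 1) (hq17 : q ≠ 17) : tam W q = 2 := by
  have hV := isK (q := q) h
  have hm := M_lt hM
  have hm0 := M_ne hM
  have h2 : (2 : ℚ_[q]) ≠ 0 := two_ne_zero
  obtain ⟨T0, hT0⟩ := exists_two hV h2 (e := N * 0) (by ring) (by
    have : 3 * ((N : ℚ_[q]) * 0) ^ 2 + 18 * N * (N * 0) + 16 * (N : ℚ_[q]) ^ 2 =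
      16 * (N : ℚ_[q]) ^ 2 := by ring
    rw [this]
    exact mul_ne_zero (by norm_num) (pow_ne_zero _ hm0))
  have a0 := two_tors hV h2 hT0
  have i0 : ‖(0 : ℚ_[q])‖ ≤ 1 := by rw [norm_zero]; norm_num
  have b0 : T0 ∉ E0 W q := (memX h hq2 hM hT0).2 (lmul' hm i0)
  rw [Pool.Agent.Y700.tam]
  apply index_of (E0 W q) ![0, T0]
  · intro i
    fin_cases i
    · exact add_zero _
    · exact a0
  · intro P
    by_cases hP : P ∈ E0 W q
    · exact ⟨0, by simpa using hP⟩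
    obtain ⟨t, Y, hat, ht1, ht2⟩ := par h hq2 hM hP
    refine ⟨1, trans h hq2 hM (c := 16) (by norm_num) i0 hat hT0 ?_ (norm16 hq2) (by norm_num)⟩
    rw [sub_zero]
    by_contra ht0
    have ht0' : ‖t‖ = 1 := le_antisymm ht1 (not_lt.1 ht0)
    rw [norm_mul, ht0', one_mul] at ht2
    -- `(2 t + 9)² = 4 (t² + 9 t + 16) + 17`
    obtain ⟨r, hr⟩ := Pool.Agent.H468.X15.exists_close (p := q) ht1 (δ := 1) one_pos
    have i4 : ‖(4 : ℚ_[q])‖ ≤ 1 := by exact_mod_cast nint (q := q) 4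
    have i36 : ‖(36 : ℚ_[q])‖ ≤ 1 := by exact_mod_cast nint (q := q) 36
    have h5 : ‖(((2 * r + 9) ^ 2 - 17 : ℤ) : ℚ_[q])‖ < 1 := by
      have e : (((2 * r + 9) ^ 2 - 17 : ℤ) : ℚ_[q]) = 4 * (t ^ 2 + 9 * t + 16) -
          (4 * (t + r) + 36) * (t - r) := by
        push_cast
        ring
      rw [e]
      exact lsub (lmul i4 ht2) (lmul (nadd (nmul i4 (nadd ht1 (nint (q := q) r))) i36) hr)
    have h6 : (q : ℤ) ∣ (2 * r + 9) ^ 2 - 17 := Padic.norm_intCast_lt_one_iff.1 h5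
    have h17 : ¬ (q : ℤ) ∣ 17 := by
      intro h'
      have h8 : q ∣ 17 := by exact_mod_cast h'
      exact hq17 ((Nat.prime_dvd_prime_iff_eq Fact.out (by norm_num)).1 h8)
    apply hj
    have h7 : ((17 : ℤ) : ZMod q) ≠ 0 := by
      rwa [Ne, ZMod.intCast_zmod_eq_zero_iff_dvd]
    rw [← jacobiSym.legendreSym.to_jacobiSym, legendreSym.eq_one_iff q h7]
    refine ⟨((2 * r + 9 : ℤ) : ZMod q), ?_⟩
    have h8 : (((2 * r + 9) ^ 2 - 17 : ℤ) : ZMod q) = 0 := by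
      rwa [ZMod.intCast_zmod_eq_zero_iff_dvd]
    push_cast at h8 ⊢
    linear_combination -h8
  · intro i j hij
    fin_cases i <;> fin_cases j <;> first | rfl | (exfalso; simp at hij; exact b0 hij)

/-- the index when `17` is a square -/
theorem tam_four {s : ℚ_[q]} (hs : s ^ 2 = 17) (hq17 : q ≠ 17) : tam W q = 4 := by
  have hV := isK (q := q) h
  have hm := M_lt hM
  have hm0 := M_ne hM
  have hmp := M_pos hM
  have h2 : (2 : ℚ_[q]) ≠ 0 := two_ne_zero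
  have n2' := norm2 hq2
  have u16 : ‖(16 : ℚ_[q])‖ = 1 := norm16 hq2
  have n17 : ‖(17 : ℚ_[q])‖ = 1 := by
    have : ‖((17 : ℕ) : ℚ_[q])‖ = 1 :=
      norm_nat_eq_one q ((Nat.coprime_primes Fact.out (by norm_num)).2 hq17)
    exact_mod_cast this
  have ns : ‖s‖ = 1 := by
    have h1 : ‖s‖ ^ 2 = 1 := by rw [← norm_pow, hs, n17]
    nlinarith [norm_nonneg s]
  obtain ⟨r1, hr1⟩ : ∃ r : ℚ_[q], 2 * r = -9 + s := ⟨(-9 + s) / 2, by field_simp⟩
  obtain ⟨r2, hr2⟩ : ∃ r : ℚ_[q], 2 * r = -9 - s := ⟨(-9 - s) / 2, by field_simp⟩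
  have h4 : (4 : ℚ_[q]) ≠ 0 := by norm_num
  have Q1 : r1 ^ 2 + 9 * r1 + 16 = 0 := by
    apply mul_left_cancel₀ h4
    linear_combination (2 * r1 + 9 + s) * hr1 + hs
  have Q2 : r2 ^ 2 + 9 * r2 + 16 = 0 := by
    apply mul_left_cancel₀ h4
    linear_combination (2 * r2 + 9 - s) * hr2 + hs
  have hsum : r1 + r2 = -9 := by
    apply mul_left_cancel₀ h2
    linear_combination hr1 + hr2
  have hdif : r1 - r2 = s := by
    apply mul_left_cancel₀ h2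
    linear_combination hr1 - hr2
  have hprod : r1 * r2 = 16 := by
    linear_combination r1 * hsum - Q1
  have i9 : ‖(9 : ℚ_[q])‖ ≤ 1 := by exact_mod_cast nint (q := q) 9
  have m1 : ‖r1‖ ≤ 1 := by
    have h5 : ‖2 * r1‖ ≤ 1 := by
      rw [hr1]
      exact nadd (nneg i9) ns.le
    rwa [norm_mul, n2', one_mul] at h5
  have m2 : ‖r2‖ ≤ 1 := by
    have h5 : ‖2 * r2‖ ≤ 1 := by
      rw [hr2]
      exact nsub (nneg i9) ns.le
    rwa [norm_mul, n2', one_mul] at h5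
  have hnp : ‖r1‖ * ‖r2‖ = 1 := by rw [← norm_mul, hprod, u16]
  have N1 : ‖r1‖ = 1 := by
    refine le_antisymm m1 ?_
    calc 1 = ‖r1‖ * ‖r2‖ := hnp.symm
      _ ≤ ‖r1‖ * 1 := mul_le_mul_of_nonneg_left m2 (norm_nonneg _)
      _ = ‖r1‖ := mul_one _
  have N2 : ‖r2‖ = 1 := by rw [N1, one_mul] at hnp; exact hnp
  have c1 : 3 * r1 ^ 2 + 18 * r1 + 16 = r1 * s := by
    linear_combination Q1 + r1 * hsum + r1 * hdif
  have c2 : 3 * r2 ^ 2 + 18 * r2 + 16 = r2 * (-s) := by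
    linear_combination Q2 + r2 * hsum - r2 * hdif
  have nc1 : ‖r1 * s‖ = 1 := by rw [norm_mul, N1, ns, one_mul]
  have nc2 : ‖r2 * (-s)‖ = 1 := by rw [norm_mul, N2, norm_neg, ns, one_mul]
  have s0 : s ≠ 0 := norm_pos_iff.1 (by rw [ns]; exact one_pos)
  have r10 : r1 ≠ 0 := norm_pos_iff.1 (by rw [N1]; exact one_pos)
  have r20 : r2 ≠ 0 := norm_pos_iff.1 (by rw [N2]; exact one_pos)
  obtain ⟨T0, hT0⟩ := exists_two hV h2 (e := N * 0) (by ring) (by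
    have : 3 * ((N : ℚ_[q]) * 0) ^ 2 + 18 * N * (N * 0) + 16 * (N : ℚ_[q]) ^ 2 =
      16 * (N : ℚ_[q]) ^ 2 := by ring
    rw [this]
    exact mul_ne_zero (by norm_num) (pow_ne_zero _ hm0))
  obtain ⟨T1, hT1⟩ := exists_two hV h2 (e := N * r1)
    (by linear_combination (N : ℚ_[q]) ^ 3 * r1 * Q1) (by
    have : 3 * ((N : ℚ_[q]) * r1) ^ 2 + 18 * N * (N * r1) + 16 * (N : ℚ_[q]) ^ 2 =
        (r1 * s) * (N : ℚ_[q]) ^ 2 := by
      linear_combination (N : ℚ_[q]) ^ 2 * c1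
    rw [this]
    exact mul_ne_zero (mul_ne_zero r10 s0) (pow_ne_zero _ hm0))
  obtain ⟨T2, hT2⟩ := exists_two hV h2 (e := N * r2)
    (by linear_combination (N : ℚ_[q]) ^ 3 * r2 * Q2) (by
    have : 3 * ((N : ℚ_[q]) * r2) ^ 2 + 18 * N * (N * r2) + 16 * (N : ℚ_[q]) ^ 2 =
        (r2 * (-s)) * (N : ℚ_[q]) ^ 2 := by
      linear_combination (N : ℚ_[q]) ^ 2 * c2
    rw [this]
    exact mul_ne_zero (mul_ne_zero r20 (neg_ne_zero.2 s0)) (pow_ne_zero _ hm0))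
  have a0 := two_tors hV h2 hT0
  have a1 := two_tors hV h2 hT1
  have a2 := two_tors hV h2 hT2
  have i0 : ‖(0 : ℚ_[q])‖ ≤ 1 := by rw [norm_zero]; norm_num
  have b0 : T0 ∉ E0 W q := (memX h hq2 hM hT0).2 (lmul' hm i0)
  have b1 : T1 ∉ E0 W q := (memX h hq2 hM hT1).2 (lmul' hm m1)
  have b2 : T2 ∉ E0 W q := (memX h hq2 hM hT2).2 (lmul' hm m2)
  -- the sums
  have key : ∀ (e e' e'' : ℚ_[q]) (T T' T'' : PtP W q), At T (N * e) 0 →
      At T' (N * e') 0 → T'' ∉ E0 W q → At T'' (N * e'') 0 → e ≠ e' →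
      (e'' - e') * (e - e') = 3 * e' ^ 2 + 18 * e' + 16 → T + T' ∉ E0 W q := by
    intro e e' e'' T T' T'' k k' hn k'' hne hr
    obtain ⟨X3, Y3, h3, h4⟩ := addT hV h2 k k' (fun hh => hne (mul_left_cancel₀ hm0 hh))
    have h5 : X3 = N * e'' := by
      have h6 : (X3 - N * e'') * (N * (e - e')) = 0 := by
        linear_combination h4 - (N : ℚ_[q]) ^ 2 * hr
      have h7 : (N : ℚ_[q]) * (e - e') ≠ 0 := mul_ne_zero hm0 (sub_ne_zero.2 hne)
      exact sub_eq_zero.1 ((mul_eq_zero.1 h6).resolve_right h7)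
    rw [memX h hq2 hM h3, h5]
    exact (memX h hq2 hM k'').1 hn
  have m01 : T0 + T1 ∉ E0 W q := key 0 r1 r2 T0 T1 T2 hT0 hT1 b2 hT2 (Ne.symm r10) (by
    rw [c1, ← hdif]; ring)
  have m02 : T0 + T2 ∉ E0 W q := key 0 r2 r1 T0 T2 T1 hT0 hT2 b1 hT1 (Ne.symm r20) (by
    rw [c2, ← hdif]; ring)
  have m12 : T1 + T2 ∉ E0 W q := key r1 r2 0 T1 T2 T0 hT1 hT2 b0 hT0
    (sub_ne_zero.1 (by rw [hdif]; exact s0)) (by rw [c2, ← hdif]; ring)
  have m10 : T1 + T0 ∉ E0 W q := by rwa [add_comm]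
  have m20 : T2 + T0 ∉ E0 W q := by rwa [add_comm]
  have m21 : T2 + T1 ∉ E0 W q := by rwa [add_comm]
  rw [Pool.Agent.Y700.tam]
  apply index_of (E0 W q) ![0, T0, T1, T2]
  · intro i
    fin_cases i
    · exact add_zero _
    · exact a0
    · exact a1
    · exact a2
  · intro P
    by_cases hP : P ∈ E0 W q
    · exact ⟨0, by simpa using hP⟩
    obtain ⟨t, Y, hat, ht1, ht2⟩ := par h hq2 hM hP
    have e : t ^ 2 + 9 * t + 16 = (t - r1) * (t - r2) := by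
      linear_combination t * hsum - hprod
    rw [e] at ht2
    by_cases ht0 : ‖t‖ < 1
    · refine ⟨1, trans h hq2 hM (c := 16) (by norm_num) i0 hat hT0 ?_ u16 (by norm_num)⟩
      rw [sub_zero]
      exact ht0
    by_cases d1 : ‖t - r1‖ < 1
    · exact ⟨2, trans h hq2 hM c1 m1 hat hT1 d1 nc1 (by rw [Q1, mul_zero])⟩
    by_cases d2 : ‖t - r2‖ < 1
    · exact ⟨3, trans h hq2 hM c2 m2 hat hT2 d2 nc2 (by rw [Q2, mul_zero])⟩
    exfalso
    rw [norm_mul, norm_mul] at ht2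
    have := one_le_mul_of_one_le_of_one_le (not_lt.1 ht0)
      (one_le_mul_of_one_le_of_one_le (not_lt.1 d1) (not_lt.1 d2))
    linarith
  · intro i j hij
    fin_cases i <;> fin_cases j <;> first | rfl | (exfalso; simp at hij; first | exact b0 hij | exact b1 hij | exact b2 hij | exact m01 hij | exact m02 hij | exact m12 hij | exact m10 hij | exact m20 hij | exact m21 hij)

end

/-- **ITP1.** -/
theorem t_ITP1 : S_ITP1 := by
  intro W N p _ h hp2 hp17 h1 h2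
  have hM := norm_M p h1 h2
  have hp17' : ¬ (p : ℤ) ∣ 17 := by
    intro h'
    have h8 : p ∣ 17 := by exact_mod_cast h'
    exact hp17 ((Nat.prime_dvd_prime_iff_eq Fact.out (by norm_num)).1 h8)
  by_cases hj : jacobiSym 17 p = 1
  · rw [if_pos hj]
    obtain ⟨s, hs⟩ := Pool.Agent.H468.X15.sq_of_jac hp2 hp17' hj
    exact tam_four h hp2 hM (s := s) (by rw [pow_two, ← hs]; norm_num) hp17
  · rw [if_neg hj]
    exact tam_two h hp2 hM hj hp17

end Pool.Agent.H743.X17.QITP1
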