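import Pool.Agent.H743.X17.IsoStm
import Pool.Graph.R_seed8.Y809.BSD14.Tam3

/-!
# I17 ITR0: Tamagawa number 4 at `17 ∥ N`, `j = 0` (type `I₄*`)

`X = 4 x + N`, `Y = 4 (2 y + a₁ x)`, so `Y² = X (X² + 30 N X + 289 N²) = X (X - N r) (X - N r')` with `r`, `r'` in
`ℚ_17`, `|r| = 1`, `|r'| = 17⁻²`.  The points outside `E⁰` are those with `|X| < 1`, then
`X = N t` with `|t| ≤ 1`, and translation by `T = (N e, 0)`, `e = 0, r, r'`, leads to `E⁰` iff `|t - e| ≤ |c N|`,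
`c = 3 e² + 60 e + 289`.
-/

set_option autoImplicit false
set_option linter.all false

open scoped Classical

open WeierstrassCurve

namespace Pool.Agent.H743.X17.QITR0

open Pool.Agent.H743.X17 (IsJ S_ITR0)
open Pool.Agent.Y700 (SingRed E0 tam PtP)
open Pool.Agent.Y809.BSD14 (index_of t_E0 nadd nsub nmul npow nneg ladd lneg lsub lmul lmul' norm_nat_eq_one norm_two_pow
  norm_le_inv norm_M M_lt M_pos M_ne norm2 norm4 norm16 nnat)

section hens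

variable {p : ℕ} [hp : Fact p.Prime]

theorem norm_two_le : ‖(2 : ℚ_[p])‖ ≤ 1 := by
  have := Padic.norm_int_le_one (p := p) 2
  exact_mod_cast this

theorem norm_four : ‖(4 : ℚ_[p])‖ = ‖(2 : ℚ_[p])‖ ^ 2 := by
  rw [← norm_pow]; norm_num

theorem norm_four_le : ‖(4 : ℚ_[p])‖ ≤ 1 := by
  have := Padic.norm_int_le_one (p := p) 4
  exact_mod_cast this

theorem norm_four_pos : 0 < ‖(4 : ℚ_[p])‖ := norm_pos_iff.2 (by norm_num)

/-- numbers close to one are squares -/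
theorem hens {e : ℚ_[p]} (h : ‖e‖ < ‖(4 : ℚ_[p])‖) : IsSquare (1 + e) := by
  have he1 : ‖e‖ ≤ 1 := h.le.trans norm_four_le
  let ε : ℤ_[p] := ⟨e, he1⟩
  let F : Polynomial ℤ_[p] := Polynomial.X ^ 2 - Polynomial.C (1 + ε)
  have h1 : ‖F.aeval (1 : ℤ_[p])‖ < ‖F.derivative.aeval (1 : ℤ_[p])‖ ^ 2 := by
    have e1 : F.aeval (1 : ℤ_[p]) = -ε := by
      simp [F]
    have e2 : F.derivative.aeval (1 : ℤ_[p]) = 2 := by
      simp [F]
      norm_num
    rw [e1, e2, norm_neg]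
    have e3 : ‖(2 : ℤ_[p])‖ = ‖(2 : ℚ_[p])‖ := by
      rw [PadicInt.norm_def]; rfl
    rw [e3, ← norm_four]
    exact h
  obtain ⟨z, hz, -⟩ := hensels_lemma h1
  refine ⟨z, ?_⟩
  have h2 : z ^ 2 - (1 + ε) = 0 := by
    have : F.aeval z = z ^ 2 - (1 + ε) := by simp [F]
    rw [← this]; exact hz
  have h3 := congrArg (fun x : ℤ_[p] => (x : ℚ_[p])) h2
  simp only [PadicInt.coe_sub, PadicInt.coe_pow, PadicInt.coe_add, PadicInt.coe_one,
    PadicInt.coe_zero] at h3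
  have h4 : ((ε : ℤ_[p]) : ℚ_[p]) = e := rfl
  rw [h4] at h3
  linear_combination -h3

end hens

section crd

variable {K : Type} [Field K] [DecidableEq K]

/-- the form of the equation -/
structure IsK (V : WeierstrassCurve.Affine K) (n : K) : Prop where
  a3 : V.a₃ = 0
  a6 : V.a₆ = 5 * n ^ 3
  b2 : V.a₁ ^ 2 + 4 * V.a₂ = 33 * n
  a4 : V.a₄ = 22 * n ^ 2

variable {V : WeierstrassCurve.Affine K} {n : K}

theorem IsK.eqn (h : IsK V n) {x y : K} (hE : V.Equation x y) :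
    (4 * (2 * y + V.a₁ * x)) ^ 2 =
      (4 * x + n) * ((4 * x + n) ^ 2 + 30 * n * (4 * x + n) + 289 * n ^ 2) := by
  rw [Affine.equation_iff, h.a3, h.a6] at hE
  linear_combination 64 * hE + 16 * x ^ 2 * h.b2 + 64 * x * h.a4

theorem IsK.eqn' (h : IsK V n) (h2 : (2 : K) ≠ 0) {x y : K}
    (hE : (4 * (2 * y + V.a₁ * x)) ^ 2 =
      (4 * x + n) * ((4 * x + n) ^ 2 + 30 * n * (4 * x + n) + 289 * n ^ 2)) : V.Equation x y := by
  rw [Affine.equation_iff, h.a3, h.a6]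
  have h64 : (64 : K) ≠ 0 := by
    have : (64 : K) = 2 ^ 6 := by norm_num
    rw [this]
    exact pow_ne_zero _ h2
  apply mul_left_cancel₀ h64
  linear_combination hE - 16 * x ^ 2 * h.b2 - 64 * x * h.a4

theorem IsK.fx (h : IsK V n) (x y : K) : 16 * (V.a₁ * y - (3 * x ^ 2 + 2 * V.a₂ * x + V.a₄)) =
    2 * V.a₁ * (4 * (2 * y + V.a₁ * x)) -
      (3 * (4 * x + n) ^ 2 + 60 * n * (4 * x + n) + 289 * n ^ 2) := by
  linear_combination (-8 * x) * h.b2 - 16 * h.a4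

/-- the point `P` has the coordinates `X = 4 x + n`, `Y = 4 (2 y + a₁ x)` -/
def At (n : K) (P : V.Point) (X Y : K) : Prop :=
  ∃ (x y : K) (h : V.Nonsingular x y), P = Affine.Point.some x y h ∧ X = 4 * x + n ∧
    Y = 4 * (2 * y + V.a₁ * x)

theorem At.eqn (hV : IsK V n) {P : V.Point} {X Y : K} (h : At n P X Y) :
    Y ^ 2 = X * (X ^ 2 + 30 * n * X + 289 * n ^ 2) := by
  obtain ⟨x, y, hn, rfl, rfl, rfl⟩ := h
  exact hV.eqn hn.1

theorem exists_at (n : K) {P : V.Point} (h : P ≠ 0) : ∃ X Y, At n P X Y := by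
  rcases P with _ | ⟨x, y, hn⟩
  · exact absurd rfl h
  · exact ⟨_, _, x, y, hn, rfl, rfl, rfl⟩

theorem At.ext (h2 : (2 : K) ≠ 0) {P P' : V.Point} {X Y : K} (h : At n P X Y) (h' : At n P' X Y) :
    P = P' := by
  obtain ⟨x, y, hn, rfl, e1, e2⟩ := h
  obtain ⟨x', y', hn', rfl, e1', e2'⟩ := h'
  have hx : x = x' := by
    have h3 : (2 ^ 2 : K) * x = 2 ^ 2 * x' := by linear_combination e1' - e1
    exact mul_left_cancel₀ (pow_ne_zero 2 h2) h3
  have hy : y = y' := by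
    have h3 : (2 ^ 3 : K) * y = 2 ^ 3 * y' := by rw [hx] at e2; linear_combination e2' - e2
    exact mul_left_cancel₀ (pow_ne_zero 3 h2) h3
  subst hx hy
  rfl

theorem At.neg (hV : IsK V n) {P : V.Point} {X Y : K} (h : At n P X Y) : At n (-P) X (-Y) := by
  obtain ⟨x, y, hn, rfl, rfl, rfl⟩ := h
  rw [Affine.Point.neg_some]
  refine ⟨_, _, _, rfl, rfl, ?_⟩
  rw [WeierstrassCurve.Affine.negY, hV.a3]
  ring

/-- the points of order two -/
theorem exists_two (hV : IsK V n) (h2 : (2 : K) ≠ 0) {e : K}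
    (he : e * (e ^ 2 + 30 * n * e + 289 * n ^ 2) = 0)
    (hd : 3 * e ^ 2 + 60 * n * e + 289 * n ^ 2 ≠ 0) : ∃ P : V.Point, At n P e 0 := by
  have h4 : (4 : K) ≠ 0 := by
    have : (4 : K) = 2 ^ 2 := by norm_num
    rw [this]
    exact pow_ne_zero _ h2
  obtain ⟨x, hx⟩ : ∃ x : K, e = 4 * x + n := ⟨(e - n) / 4, by field_simp; ring⟩
  obtain ⟨y, hy⟩ : ∃ y : K, 2 * y + V.a₁ * x = 0 := ⟨-(V.a₁ * x) / 2, by field_simp; ring⟩
  have hq : V.Equation x y := by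
    apply hV.eqn' h2
    rw [← hx, hy]
    linear_combination -he
  have hn : V.Nonsingular x y := by
    rw [Affine.nonsingular_iff]
    refine ⟨hq, Or.inl ?_⟩
    intro hcon
    have hf := hV.fx x y
    rw [hcon, sub_self, mul_zero, ← hx, hy] at hf
    apply hd
    linear_combination hf
  exact ⟨Affine.Point.some x y hn, x, y, hn, rfl, hx, by rw [hy, mul_zero]⟩

theorem At.add (hV : IsK V n) (h2 : (2 : K) ≠ 0) {P P' : V.Point} {X Y X' Y' : K}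
    (h : At n P X Y) (h' : At n P' X' Y') (hne : X ≠ X') :
    ∃ Y3, At n (P + P') (((Y - Y') / (X - X')) ^ 2 - 30 * n - X - X') Y3 := by
  obtain ⟨x, y, hn, rfl, rfl, rfl⟩ := h
  obtain ⟨x', y', hn', rfl, rfl, rfl⟩ := h'
  have hx : x ≠ x' := fun h => hne (by rw [h])
  rw [Affine.Point.add_of_X_ne hx]
  refine ⟨_, _, _, _, rfl, ?_, rfl⟩
  rw [WeierstrassCurve.Affine.addX, WeierstrassCurve.Affine.slope_of_X_ne hx]
  have h1 : x - x' ≠ 0 := sub_ne_zero.2 hx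
  have h4 : (4 : K) ≠ 0 := by
    have : (4 : K) = 2 ^ 2 := by norm_num
    rw [this]
    exact pow_ne_zero _ h2
  have h5 : (4 * (2 * y + V.a₁ * x) - 4 * (2 * y' + V.a₁ * x')) /
      (4 * x + n - (4 * x' + n)) = 2 * ((y - y') / (x - x')) + V.a₁ := by
    have h6 : 4 * x + n - (4 * x' + n) = 4 * (x - x') := by ring
    rw [h6]
    field_simp
    ring
  rw [h5]
  linear_combination hV.b2

/-- translation by a point of order two with the coordinates `(e, 0)` -/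
theorem At.addT (hV : IsK V n) (h2 : (2 : K) ≠ 0) {P T : V.Point} {X Y e : K} (h : At n P X Y)
    (hT : At n T e 0) (hX : X ≠ e) : ∃ X3 Y3, At n (P + T) X3 Y3 ∧
      (X3 - e) * (X - e) = 3 * e ^ 2 + 60 * n * e + 289 * n ^ 2 := by
  obtain ⟨Y3, h3⟩ := h.add hV h2 hT hX
  refine ⟨_, Y3, h3, ?_⟩
  have e0 := h.eqn hV
  have eT := hT.eqn hV
  have hXe : X - e ≠ 0 := sub_ne_zero.2 hX
  rw [sub_zero]
  obtain ⟨L, hL⟩ : ∃ L : K, L = Y / (X - e) := ⟨_, rfl⟩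
  have hL1 : L * (X - e) = Y := by rw [hL, div_mul_cancel₀ _ hXe]
  rw [← hL]
  have e3 : L ^ 2 * (X - e) = X ^ 2 + (30 * n + e) * X + (e ^ 2 + 30 * n * e + 289 * n ^ 2) := by
    apply mul_right_cancel₀ hXe
    rw [← hL1] at e0
    linear_combination e0 - eT
  linear_combination e3

theorem two_tors (hV : IsK V n) (h2 : (2 : K) ≠ 0) {T : V.Point} {e : K} (hT : At n T e 0) :
    T + T = 0 := by
  have h1 : At n (-T) e 0 := by simpa using hT.neg hV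
  have h3 : T = -T := hT.ext h2 h1
  calc T + T = T + -T := by rw [← h3]
    _ = 0 := add_neg_cancel T

end crd

section

variable {q : ℕ} [Fact q.Prime] {W : WeierstrassCurve ℤ} {N : ℤ}

theorem isK (h : IsJ 0 W N) : IsK ((W.map (Int.castRingHom ℚ_[q])).toAffine) (N : ℚ_[q]) := by
  have h4 : W.a₄ = 22 * N ^ 2 := h.a4
  have h6 : W.a₆ = 5 * N ^ 3 := h.a6
  have h2 : W.b₂ = 33 * N := h.b2
  rw [WeierstrassCurve.b₂] at h2
  refine ⟨?_, ?_, ?_, ?_⟩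
  · show ((W.a₃ : ℤ) : ℚ_[q]) = 0
    rw [h.a3, Int.cast_zero]
  · show ((W.a₆ : ℤ) : ℚ_[q]) = 5 * (N : ℚ_[q]) ^ 3
    exact_mod_cast h6
  · show ((W.a₁ : ℤ) : ℚ_[q]) ^ 2 + 4 * ((W.a₂ : ℤ) : ℚ_[q]) = 33 * (N : ℚ_[q])
    exact_mod_cast h2
  · show ((W.a₄ : ℤ) : ℚ_[q]) = 22 * (N : ℚ_[q]) ^ 2
    exact_mod_cast h4

theorem nint (k : ℤ) : ‖(k : ℚ_[q])‖ ≤ 1 := Padic.norm_int_le_one k

/-- singular reduction in the coordinates `X`, `Y` -/
theorem sing_XY (h : IsJ 0 W N) (hq2 : q ≠ 2) (x y : ℚ_[q]) :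
    SingRed W q x y ↔ ‖4 * x + (N : ℚ_[q])‖ ≤ 1 ∧ ‖4 * (2 * y + (W.a₁ : ℚ_[q]) * x)‖ < 1 ∧
      ‖3 * (4 * x + (N : ℚ_[q])) ^ 2 + 60 * (N : ℚ_[q]) * (4 * x + (N : ℚ_[q])) +
        289 * (N : ℚ_[q]) ^ 2‖ < 1 := by
  have hV := isK (q := q) h
  have e2 := hV.fx x y
  have n4 := norm4 hq2
  have n2' := norm2 hq2
  have n16 := norm16 hq2
  have c3 : ((W.a₃ : ℤ) : ℚ_[q]) = 0 := by rw [h.a3, Int.cast_zero]
  have e3 : 16 * ((W.a₁ : ℚ_[q]) * y - (3 * x ^ 2 + 2 * (W.a₂ : ℚ_[q]) * x + (W.a₄ : ℚ_[q]))) =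
      2 * (W.a₁ : ℚ_[q]) * (4 * (2 * y + (W.a₁ : ℚ_[q]) * x)) -
      (3 * (4 * x + (N : ℚ_[q])) ^ 2 + 60 * (N : ℚ_[q]) * (4 * x + (N : ℚ_[q])) +
        289 * (N : ℚ_[q]) ^ 2) := e2
  have hA := nint (q := q) W.a₁
  have hN := nint (q := q) N
  constructor
  · rintro ⟨hx, hy, hfx, hfy⟩
    rw [c3, add_zero] at hfy
    have hY : ‖4 * (2 * y + (W.a₁ : ℚ_[q]) * x)‖ < 1 := by rw [norm_mul, n4, one_mul]; exact hfy
    refine ⟨nadd (nmul n4.le hx) hN, hY, ?_⟩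
    have h1 := lmul (a := (16 : ℚ_[q])) n16.le hfx
    rw [e3] at h1
    have h2 := lsub (lmul (a := 2 * (W.a₁ : ℚ_[q])) (nmul n2'.le hA) hY) h1
    rw [sub_sub_cancel] at h2
    exact h2
  · rintro ⟨hX0, hY, hF⟩
    have hX : ‖4 * x‖ ≤ 1 := by
      have e4 : 4 * x = 4 * x + (N : ℚ_[q]) - N := by ring
      rw [e4]
      exact nsub hX0 hN
    rw [norm_mul, n4, one_mul] at hX
    have hY' := hY
    rw [norm_mul, n4, one_mul] at hY'
    have hy : ‖y‖ ≤ 1 := by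
      have h1 : ‖2 * y‖ = ‖y‖ := by rw [norm_mul, n2', one_mul]
      rw [← h1]
      have : 2 * y = (2 * y + (W.a₁ : ℚ_[q]) * x) - (W.a₁ : ℚ_[q]) * x := by ring
      rw [this]
      exact nsub hY'.le (nmul hA hX)
    refine ⟨hX, hy, ?_, ?_⟩
    · have h1 : ‖16 * ((W.a₁ : ℚ_[q]) * y - (3 * x ^ 2 + 2 * (W.a₂ : ℚ_[q]) * x + (W.a₄ : ℚ_[q])))‖ < 1 := by
        rw [e3]
        exact lsub (lmul (nmul n2'.le hA) hY) hF
      rw [norm_mul, n16, one_mul] at h1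
      exact h1
    · rw [c3, add_zero]
      exact hY'

/-- membership in `E⁰` -/
theorem mem_E0 (h : IsJ 0 W N) (hq2 : q ≠ 2) {P : PtP W q} {X Y : ℚ_[q]}
    (hP : At (N : ℚ_[q]) P X Y) : P ∉ E0 W q ↔ ‖X‖ ≤ 1 ∧ ‖Y‖ < 1 ∧
      ‖3 * X ^ 2 + 60 * (N : ℚ_[q]) * X + 289 * (N : ℚ_[q]) ^ 2‖ < 1 := by
  obtain ⟨x, y, hn, rfl, rfl, rfl⟩ := hP
  have h0 := sing_XY (q := q) h hq2 x y
  have h1 : (Affine.Point.some x y hn : PtP W q) ∉ E0 W q ↔ SingRed W q x y := by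
    rw [t_E0]
    constructor
    · intro h1
      push Not at h1
      obtain ⟨x', y', h', e, hs⟩ := h1
      injection e with e1 e2
      rw [e1, e2]
      exact hs
    · intro hs h1
      exact h1 x y hn rfl hs
  rw [h1, h0]
  rfl

theorem parity' (Y : ℚ_[q]) (k : ℕ) : ‖Y‖ ^ 2 ≠ ((q : ℝ)⁻¹) ^ (2 * k + 1) := by
  have hq : (1 : ℝ) < q := by exact_mod_cast (Fact.out : q.Prime).one_lt
  intro h
  rcases eq_or_ne Y 0 with rfl | hY
  · rw [norm_zero] at h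
    have : (0 : ℝ) < ((q : ℝ)⁻¹) ^ (2 * k + 1) := by positivity
    rw [← h] at this
    norm_num at this
  · rw [Padic.norm_eq_zpow_neg_valuation hY, ← zpow_natCast, ← zpow_mul, inv_pow,
      ← zpow_natCast, ← zpow_neg] at h
    have := zpow_right_injective₀ (by linarith) hq.ne' h
    push_cast at this
    omega

theorem norm_le_pow {x : ℚ_[q]} {k : ℕ} (h : ‖x‖ < ((q : ℝ)⁻¹) ^ k) : ‖x‖ ≤ ((q : ℝ)⁻¹) ^ (k + 1) := by
  have hq : (1 : ℝ) < q := by exact_mod_cast (Fact.out : q.Prime).one_lt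
  have h3 := (Padic.norm_le_pow_iff_norm_lt_pow_add_one x (-((k : ℤ) + 1))).2 (by
    have e : (-((k : ℤ) + 1)) + 1 = -(k : ℤ) := by ring
    rw [e, zpow_neg, zpow_natCast, ← inv_pow]
    exact h)
  rw [zpow_neg, show ((k : ℤ) + 1) = ((k + 1 : ℕ) : ℤ) by push_cast; ring, zpow_natCast,
    ← inv_pow] at h3
  exact h3

variable (h : IsJ 0 W N) (hq2 : q ≠ 2) (hM : ‖(N : ℚ_[q])‖ = (q : ℝ)⁻¹)

include h hq2 hM

/-- the points outside `E⁰` are those with `|X| < 1` -/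
theorem memX {P : PtP W q} {X Y : ℚ_[q]} (hP : At (N : ℚ_[q]) P X Y) :
    P ∉ E0 W q ↔ ‖X‖ < 1 := by
  have he := hP.eqn (isK (q := q) h)
  have hm := M_lt hM
  have i289 : ‖(289 : ℚ_[q])‖ ≤ 1 := by exact_mod_cast nint (q := q) 289
  have i60 : ‖(60 : ℚ_[q])‖ ≤ 1 := by exact_mod_cast nint (q := q) 60
  have i30 : ‖(30 : ℚ_[q])‖ ≤ 1 := by exact_mod_cast nint (q := q) 30
  have i3 : ‖(3 : ℚ_[q])‖ ≤ 1 := by exact_mod_cast nint (q := q) 3
  rw [mem_E0 h hq2 hP]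
  constructor
  · rintro ⟨hX, hY, -⟩
    have h3 : ‖X ^ 3‖ < 1 := by
      have e : X ^ 3 = Y * Y - (30 * X ^ 2 + 289 * N * X) * N := by
        linear_combination -he
      rw [e]
      exact lsub (lmul hY.le hY) (lmul (nadd (nmul i30 (npow hX 2)) (nmul (nmul i289 hm.le) hX)) hm)
    rw [norm_pow] at h3
    by_contra h
    rw [not_lt] at h
    have := one_le_pow₀ h (n := 3)
    linarith
  · intro hX
    have hm2 : ‖(N : ℚ_[q]) ^ 2‖ < 1 := by
      rw [pow_two]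
      exact lmul hm.le hm
    have hX2 : ‖X ^ 2‖ < 1 := by
      rw [pow_two]
      exact lmul hX.le hX
    refine ⟨hX.le, ?_, ?_⟩
    · have h1 : ‖Y ^ 2‖ < 1 := by
        rw [he]
        exact lmul' hX (nadd (nadd hX2.le (nmul (nmul i30 hm.le) hX.le)) (nmul i289 hm2.le))
      rw [norm_pow] at h1
      by_contra h
      rw [not_lt] at h
      have := one_le_pow₀ h (n := 2)
      linarith
    · exact ladd (ladd (lmul i3 hX2) (lmul (nmul i60 hm.le) hX)) (lmul i289 hm2)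

/-- translation by a point of order two -/
theorem trans {r t c Y : ℚ_[q]} {P T : PtP W q} (hc : 3 * r ^ 2 + 60 * r + 289 = c) (hr1 : ‖r‖ ≤ 1)
    (hP : At (N : ℚ_[q]) P (N * t) Y) (hT : At (N : ℚ_[q]) T (N * r) 0)
    (htr : ‖t - r‖ ≤ (q : ℝ)⁻¹ * ‖c‖)
    (hroot : r * (r ^ 2 + 30 * r + 289) = 0) : P + T ∈ E0 W q := by
  have hV := isK (q := q) h
  have hm0 := M_ne hM
  have hml := M_lt hM
  have hmp := M_pos hM
  have h2 : (2 : ℚ_[q]) ≠ 0 := two_ne_zero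
  by_cases he : t = r
  · have hY : Y = 0 := by
      have h3 := hP.eqn hV
      rw [he] at h3
      have h4 : Y ^ 2 = 0 := by
        rw [h3]
        linear_combination (N : ℚ_[q]) ^ 3 * hroot
      exact pow_eq_zero_iff two_ne_zero |>.1 h4
    rw [hY, he] at hP
    rw [hP.ext h2 hT, two_tors hV h2 hT]
    exact AddSubgroup.zero_mem _
  · obtain ⟨X3, Y3, h3, h4⟩ := hP.addT hV h2 hT (fun hh => he (mul_left_cancel₀ hm0 hh))
    have htr0 : t - r ≠ 0 := sub_ne_zero.2 he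
    have e5 : (X3 - N * r) * (t - r) = N * c := by
      apply mul_left_cancel₀ hm0
      linear_combination h4 + (N : ℚ_[q]) ^ 2 * hc
    have e6 : ‖X3 - N * r‖ * ‖t - r‖ = (q : ℝ)⁻¹ * ‖c‖ := by
      rw [← norm_mul, e5, norm_mul, hM]
    by_contra hcon
    have h5 := (memX h hq2 hM h3).1 hcon
    have h6 : ‖X3 - N * r‖ < 1 := lsub h5 (lmul' hml hr1)
    have h8 : 0 < ‖t - r‖ := norm_pos_iff.2 htr0
    have h9 : ‖X3 - N * r‖ * ‖t - r‖ < 1 * ‖t - r‖ := mul_lt_mul_of_pos_right h6 h8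
    rw [e6, one_mul] at h9
    exact absurd htr (not_le.2 h9)

end

/-! ### the prime 17 -/

section s17

variable [Fact (Nat.Prime 17)]

theorem n17 : ‖(17 : ℚ_[17])‖ = (17 : ℝ)⁻¹ := by
  have := Padic.norm_p (p := 17)
  exact_mod_cast this

theorem n289 : ‖(289 : ℚ_[17])‖ = (17 : ℝ)⁻¹ * (17 : ℝ)⁻¹ := by
  have : (289 : ℚ_[17]) = 17 * 17 := by norm_num
  rw [this, norm_mul, n17]

/-- the roots -/
theorem roots : ∃ r s : ℚ_[17], r + s = -30 ∧ r * s = 289 ∧ ‖r‖ = 1 ∧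
    ‖s‖ = (17 : ℝ)⁻¹ * (17 : ℝ)⁻¹ := by
  have h2 : (17 : ℕ) ≠ 2 := by norm_num
  have n16 : ‖(16 : ℚ_[17])‖ = 1 := norm16 h2
  have n4 : ‖(4 : ℚ_[17])‖ = 1 := norm4 h2
  obtain ⟨u, hu⟩ : ∃ u : ℚ_[17], 1 + (-17 / 16 : ℚ_[17]) = u * u := by
    apply hens
    rw [norm_div, norm_neg, n16, n4, n17]
    norm_num
  obtain ⟨i, hi⟩ : ∃ i : ℚ_[17], i * i = -1 := ⟨4 * u, by linear_combination (-16) * hu⟩
  have hi1 : ‖i‖ = 1 := by
    have h3 : ‖i‖ * ‖i‖ = 1 := by rw [← norm_mul, hi, norm_neg, norm_one]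
    nlinarith [norm_nonneg i]
  have n8 : ‖(8 : ℚ_[17])‖ = 1 := by exact_mod_cast norm_two_pow 17 h2 3
  have i15 : ‖(-15 : ℚ_[17])‖ ≤ 1 := by
    rw [norm_neg]
    exact_mod_cast nint (q := 17) 15
  set a : ℚ_[17] := -15 - 8 * i with ha
  set b : ℚ_[17] := -15 + 8 * i with hb
  have h8i : ‖8 * i‖ ≤ 1 := by rw [norm_mul, n8, hi1, one_mul]
  have ha1 : ‖a‖ ≤ 1 := nsub i15 h8i
  have hb1 : ‖b‖ ≤ 1 := nadd i15 h8i
  have hab : a + b = -30 := by rw [ha, hb]; ring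
  have hab' : a * b = 289 := by rw [ha, hb]; linear_combination (-64) * hi
  have hd : ‖b - a‖ = 1 := by
    have e : b - a = 16 * i := by rw [ha, hb]; ring
    rw [e, norm_mul, n16, hi1, one_mul]
  have hn : ‖a‖ * ‖b‖ = (17 : ℝ)⁻¹ * (17 : ℝ)⁻¹ := by rw [← norm_mul, hab', n289]
  by_cases h1 : ‖a‖ = 1
  · refine ⟨a, b, hab, hab', h1, ?_⟩
    rw [h1, one_mul] at hn
    exact hn
  · have h3 : ‖a‖ < 1 := lt_of_le_of_ne ha1 h1
    have h4 : ‖b‖ = 1 := by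
      by_contra h5
      have h6 : ‖b‖ < 1 := lt_of_le_of_ne hb1 h5
      have := lsub h6 h3
      linarith
    refine ⟨b, a, by rw [add_comm]; exact hab, by rw [mul_comm]; exact hab', h4, ?_⟩
    rw [h4, mul_one] at hn
    exact hn

variable {W : WeierstrassCurve ℤ} {N : ℤ} (h : IsJ 0 W N)
  (hM : ‖(N : ℚ_[17])‖ = (((17 : ℕ) : ℝ))⁻¹)

include h hM

theorem tam_four : tam W 17 = 4 := by
  have hV := isK (q := 17) h
  have hq2 : (17 : ℕ) ≠ 2 := by norm_num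
  have hm := M_lt hM
  have hm0 := M_ne hM
  have hmp := M_pos hM
  have h2 : (2 : ℚ_[17]) ≠ 0 := two_ne_zero
  obtain ⟨r, s, hrs, hrs', hr, hs⟩ := roots
  have hr0 : r ≠ 0 := fun h0 => by rw [h0, norm_zero] at hr; norm_num at hr
  have hs0 : s ≠ 0 := fun h0 => by rw [h0, norm_zero] at hs; norm_num at hs
  have hds : ‖r - s‖ = 1 := by
    have h3 : ‖s‖ < ‖r‖ := by rw [hr, hs]; norm_num
    have h4 : ‖r + -s‖ = max ‖r‖ ‖-s‖ := by
      apply IsUltrametricDist.norm_add_eq_max_of_norm_ne_norm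
      rw [norm_neg]
      exact h3.ne'
    rw [sub_eq_add_neg, h4, norm_neg, max_eq_left h3.le, hr]
  have hd0 : r - s ≠ 0 := fun h0 => by rw [h0, norm_zero] at hds; norm_num at hds
  have Fr : r ^ 2 + 30 * r + 289 = 0 := by linear_combination r * hrs - hrs'
  have Fs : s ^ 2 + 30 * s + 289 = 0 := by linear_combination s * hrs - hrs'
  have Cr : 3 * r ^ 2 + 60 * r + 289 = r * (r - s) := by linear_combination 2 * Fr + hrs'
  have Cs : 3 * s ^ 2 + 60 * s + 289 = s * (s - r) := by linear_combination 2 * Fs + hrs'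
  obtain ⟨T0, hT0⟩ := exists_two hV h2 (e := (N : ℚ_[17]) * 0) (by ring) (by
    have : 3 * ((N : ℚ_[17]) * 0) ^ 2 + 60 * N * (N * 0) + 289 * (N : ℚ_[17]) ^ 2 =
      289 * (N : ℚ_[17]) ^ 2 := by ring
    rw [this]
    exact mul_ne_zero (by norm_num) (pow_ne_zero _ hm0))
  obtain ⟨T1, hT1⟩ := exists_two hV h2 (e := (N : ℚ_[17]) * r)
    (by linear_combination (N : ℚ_[17]) ^ 3 * r * Fr) (by
    have : 3 * ((N : ℚ_[17]) * r) ^ 2 + 60 * N * (N * r) + 289 * (N : ℚ_[17]) ^ 2 =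
      (r * (r - s)) * (N : ℚ_[17]) ^ 2 := by
      linear_combination (N : ℚ_[17]) ^ 2 * Cr
    rw [this]
    exact mul_ne_zero (mul_ne_zero hr0 hd0) (pow_ne_zero _ hm0))
  obtain ⟨T2, hT2⟩ := exists_two hV h2 (e := (N : ℚ_[17]) * s)
    (by linear_combination (N : ℚ_[17]) ^ 3 * s * Fs) (by
    have : 3 * ((N : ℚ_[17]) * s) ^ 2 + 60 * N * (N * s) + 289 * (N : ℚ_[17]) ^ 2 =
      (s * (s - r)) * (N : ℚ_[17]) ^ 2 := by
      linear_combination (N : ℚ_[17]) ^ 2 * Cs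
    rw [this]
    exact mul_ne_zero (mul_ne_zero hs0 (by rw [← neg_sub]; exact neg_ne_zero.2 hd0))
      (pow_ne_zero _ hm0))
  have a0 := two_tors hV h2 hT0
  have a1 := two_tors hV h2 hT1
  have a2 := two_tors hV h2 hT2
  have i0 : ‖(0 : ℚ_[17])‖ ≤ 1 := by rw [norm_zero]; norm_num
  have ir : ‖r‖ ≤ 1 := hr.le
  have is : ‖s‖ ≤ 1 := by rw [hs]; norm_num
  have b0 : T0 ∉ E0 W 17 := (memX h hq2 hM hT0).2 (lmul' hm i0)
  have b1 : T1 ∉ E0 W 17 := (memX h hq2 hM hT1).2 (lmul' hm ir)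
  have b2 : T2 ∉ E0 W 17 := (memX h hq2 hM hT2).2 (lmul' hm is)
  -- the sums
  have key : ∀ (e e' e'' : ℚ_[17]) (T T' T'' : PtP W 17), At (N : ℚ_[17]) T (N * e) 0 →
      At (N : ℚ_[17]) T' (N * e') 0 → T'' ∉ E0 W 17 → At (N : ℚ_[17]) T'' (N * e'') 0 → e ≠ e' →
      (e'' - e') * (e - e') = 3 * e' ^ 2 + 60 * e' + 289 → T + T' ∉ E0 W 17 := by
    intro e e' e'' T T' T'' k k' hn k'' hne hr
    obtain ⟨X3, Y3, h3, h4⟩ := k.addT hV h2 k' (fun hh => hne (mul_left_cancel₀ hm0 hh))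
    have h5 : X3 = N * e'' := by
      have h6 : (X3 - N * e'') * (N * (e - e')) = 0 := by
        linear_combination h4 - (N : ℚ_[17]) ^ 2 * hr
      have h7 : (N : ℚ_[17]) * (e - e') ≠ 0 := mul_ne_zero hm0 (sub_ne_zero.2 hne)
      exact sub_eq_zero.1 ((mul_eq_zero.1 h6).resolve_right h7)
    rw [memX h hq2 hM h3, h5]
    exact (memX h hq2 hM k'').1 hn
  have m01 : T0 + T1 ∉ E0 W 17 := key 0 r s T0 T1 T2 hT0 hT1 b2 hT2 hr0.symm
    (by rw [Cr]; ring)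
  have m02 : T0 + T2 ∉ E0 W 17 := key 0 s r T0 T2 T1 hT0 hT2 b1 hT1 hs0.symm
    (by rw [Cs]; ring)
  have m12 : T1 + T2 ∉ E0 W 17 := key r s 0 T1 T2 T0 hT1 hT2 b0 hT0
    (fun h0 => hd0 (sub_eq_zero.2 h0)) (by rw [Cs]; ring)
  have m10 : T1 + T0 ∉ E0 W 17 := by rwa [add_comm]
  have m20 : T2 + T0 ∉ E0 W 17 := by rwa [add_comm]
  have m21 : T2 + T1 ∉ E0 W 17 := by rwa [add_comm]
  have c0 : ((17 : ℕ) : ℝ) = 17 := by norm_num
  rw [Pool.Agent.Y700.tam]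
  apply index_of (E0 W 17) ![0, T0, T1, T2]
  · intro i
    fin_cases i
    · exact add_zero _
    · exact a0
    · exact a1
    · exact a2
  · intro P
    by_cases hP : P ∈ E0 W 17
    · exact ⟨0, by simpa using hP⟩
    have hP0 : P ≠ 0 := fun h0 => hP (by rw [h0]; exact zero_mem _)
    obtain ⟨X, Y, hat⟩ := exists_at (N : ℚ_[17]) hP0
    have hX := (memX h hq2 hM hat).1 hP
    obtain ⟨t, rfl⟩ : ∃ t : ℚ_[17], X = N * t := ⟨X / N, by rw [mul_div_cancel₀ _ hm0]⟩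
    have ht1 : ‖t‖ ≤ 1 := by
      have h1 := norm_le_inv 17 hX
      rw [norm_mul, ← hM] at h1
      by_contra h
      rw [not_le] at h
      nlinarith
    have he : ‖Y‖ ^ 2 = (((17 : ℕ) : ℝ))⁻¹ ^ 3 * (‖t‖ * (‖t - r‖ * ‖t - s‖)) := by
      have h3 := hat.eqn hV
      have h4 : (N : ℚ_[17]) * t * ((N * t) ^ 2 + 30 * N * (N * t) + 289 * N ^ 2) =
          N ^ 3 * (t * ((t - r) * (t - s))) := by
        linear_combination (-(N : ℚ_[17]) ^ 3 * t ^ 2) * (-hrs) - (N : ℚ_[17]) ^ 3 * t * hrs'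
      rw [h4] at h3
      rw [← norm_pow, h3, norm_mul, norm_pow, hM, norm_mul, norm_mul]
    rw [c0] at he
    have par : ∀ k : ℕ, ‖Y‖ ^ 2 ≠ ((17 : ℝ)⁻¹) ^ (2 * k + 1) := by
      intro k
      have := parity' Y k
      rwa [c0] at this
    have nlp : ∀ {x : ℚ_[17]} {k : ℕ}, ‖x‖ < ((17 : ℝ)⁻¹) ^ k → ‖x‖ ≤ ((17 : ℝ)⁻¹) ^ (k + 1) := by
      intro x k hx
      have := norm_le_pow (q := 17) (x := x) (k := k) (by rw [c0]; exact hx)
      rwa [c0] at this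
    suffices hsuf : ‖t‖ ≤ ((17 : ℝ)⁻¹) ^ 3 ∨ ‖t - r‖ < 1 ∨ ‖t - s‖ ≤ ((17 : ℝ)⁻¹) ^ 3 by
      rcases hsuf with h3 | h3 | h3
      · refine ⟨1, trans h hq2 hM (c := 289) (by norm_num) i0 hat hT0 ?_ (by norm_num)⟩
        rw [sub_zero, n289, c0]
        refine h3.trans (le_of_eq ?_)
        ring
      · refine ⟨2, trans h hq2 hM Cr ir hat hT1 ?_ (by rw [Fr, mul_zero])⟩
        rw [norm_mul, hr, hds, mul_one, mul_one]
        exact norm_le_inv 17 h3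
      · refine ⟨3, trans h hq2 hM Cs is hat hT2 ?_ (by rw [Fs, mul_zero])⟩
        have hds' : ‖s - r‖ = 1 := by rw [norm_sub_rev]; exact hds
        rw [norm_mul, hs, hds', mul_one, c0]
        refine h3.trans (le_of_eq ?_)
        ring
    -- the valuations
    have sub_eq : ∀ {a b : ℚ_[17]}, ‖b‖ < ‖a‖ → ‖a - b‖ = ‖a‖ := by
      intro a b hab
      have h4 : ‖a + -b‖ = max ‖a‖ ‖-b‖ := by
        apply IsUltrametricDist.norm_add_eq_max_of_norm_ne_norm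
        rw [norm_neg]
        exact hab.ne'
      rw [sub_eq_add_neg, h4, norm_neg, max_eq_left hab.le]
    by_cases ht0 : ‖t‖ = 1
    · right; left
      by_contra h3
      have h4 : ‖t - r‖ = 1 := le_antisymm (nsub ht1 ir) (not_lt.1 h3)
      have h5 : ‖t - s‖ = 1 := by
        rw [sub_eq (by rw [ht0, hs]; norm_num), ht0]
      rw [ht0, h4, h5] at he
      apply par 1
      rw [he]
      norm_num
    · have ht2 : ‖t‖ < 1 := lt_of_le_of_ne ht1 ht0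
      have h4 : ‖t - r‖ = 1 := by
        rw [norm_sub_rev, sub_eq (by rw [hr]; exact ht2), hr]
      rw [h4, one_mul] at he
      have ht3 : ‖t‖ ≤ (17 : ℝ)⁻¹ ^ 1 := nlp (k := 0) (by rw [pow_zero]; exact ht2)
      by_cases ht4 : ‖t‖ = (17 : ℝ)⁻¹ ^ 1
      · exfalso
        have h5 : ‖t - s‖ = (17 : ℝ)⁻¹ ^ 1 := by
          rw [sub_eq (by rw [ht4, hs]; norm_num), ht4]
        rw [ht4, h5] at he
        apply par 2
        rw [he]
        norm_num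
      · have ht5 : ‖t‖ ≤ (17 : ℝ)⁻¹ ^ 2 := nlp (k := 1) (lt_of_le_of_ne ht3 ht4)
        by_cases ht6 : ‖t‖ = (17 : ℝ)⁻¹ ^ 2
        · right; right
          have h5 : ‖t - s‖ ≤ (17 : ℝ)⁻¹ ^ 2 := by
            rw [sub_eq_add_neg]
            refine (IsUltrametricDist.norm_add_le_max _ _).trans ?_
            rw [norm_neg, ht6, hs]
            norm_num
          have h6 : ‖t - s‖ ≠ (17 : ℝ)⁻¹ ^ 2 := by
            intro h6
            rw [ht6, h6] at he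
            apply par 3
            rw [he]
            norm_num
          exact nlp (k := 2) (lt_of_le_of_ne h5 h6)
        · left
          exact nlp (k := 2) (lt_of_le_of_ne ht5 ht6)
  · intro i j hij
    fin_cases i <;> fin_cases j <;> first | rfl | (exfalso; simp at hij; first | exact b0 hij | exact b1 hij | exact b2 hij | exact m01 hij | exact m02 hij | exact m12 hij | exact m10 hij | exact m20 hij | exact m21 hij)

end s17

end Pool.Agent.H743.X17.QITR0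

namespace Pool.Agent.H743.X17.QITR0

theorem t_ITR0 : Pool.Agent.H743.X17.S_ITR0 := by
  intro W N _ h h1 h2
  exact QITR0.tam_four h (Pool.Agent.Y809.BSD14.norm_M 17 (by exact_mod_cast h1)
    (by exact_mod_cast h2))

end Pool.Agent.H743.X17.QITR0
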