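import Pool.Agent.H743.X17.IsoStm
import Pool.Graph.R_seed8.Y809.BSD14.Tam3
import Pool.Agent.H743.X17.TAMP
import Pool.Agent.H468.X15S.Pad

/-!
# I17 ITR1: Tamagawa number at 17 ∥ N, j = 1 (type I1*)

`X = 4 x`, `Y = 4 (2 y + a₁ x)`, so `Y² = X (X² + 9 N X + 16 N²)`.  The points outside `E⁰` are those
with `|X| < 1`; `T = (0, 0)`; neither `P` nor `P + T` is in `E⁰` iff `|X| = 1/17`.
-/

set_option autoImplicit false
set_option linter.all false

open scoped Classical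

open WeierstrassCurve

namespace Pool.Agent.H743.X17.QITR1

open Pool.Agent.H743.X17 (IsJ S_ITR1 be ga de)
open Pool.Agent.Y700 (SingRed E0 tam PtP)
open Pool.Agent.Y809.BSD14 (t_E0 nadd nsub nmul npow nneg ladd lneg lsub lmul lmul' norm_nat_eq_one
  norm_two_pow norm_le_inv norm_M M_lt M_pos M_ne norm2 norm4 norm16 nnat line_rel)
open Pool.Agent.H743.X17.QTAMP (At exists_at At.ext parity' nint)

section crd

variable {K : Type} [Field K] [DecidableEq K]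

/-- the form of the equation -/
structure IsL (V : WeierstrassCurve.Affine K) (n : K) : Prop where
  a3 : V.a₃ = 0
  a6 : V.a₆ = 0
  b2 : V.a₁ ^ 2 + 4 * V.a₂ = 9 * n
  a4 : V.a₄ = n ^ 2

variable {V : WeierstrassCurve.Affine K} {n : K}

theorem IsL.eqn (h : IsL V n) {x y : K} (hE : V.Equation x y) :
    (4 * (2 * y + V.a₁ * x)) ^ 2 = 4 * x * ((4 * x) ^ 2 + 9 * n * (4 * x) + 16 * n ^ 2) := by
  rw [Affine.equation_iff, h.a3, h.a6] at hE
  linear_combination 64 * hE + 16 * x ^ 2 * h.b2 + 64 * x * h.a4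

theorem IsL.eqn' (h : IsL V n) (h2 : (2 : K) ≠ 0) {x y : K}
    (hE : (4 * (2 * y + V.a₁ * x)) ^ 2 = 4 * x * ((4 * x) ^ 2 + 9 * n * (4 * x) + 16 * n ^ 2)) :
    V.Equation x y := by
  rw [Affine.equation_iff, h.a3, h.a6]
  have h64 : (64 : K) ≠ 0 := by
    have : (64 : K) = 2 ^ 6 := by norm_num
    rw [this]
    exact pow_ne_zero _ h2
  apply mul_left_cancel₀ h64
  linear_combination hE - 16 * x ^ 2 * h.b2 - 64 * x * h.a4

theorem IsL.fx (h : IsL V n) (x y : K) : 16 * (V.a₁ * y - (3 * x ^ 2 + 2 * V.a₂ * x + V.a₄)) =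
    2 * V.a₁ * (4 * (2 * y + V.a₁ * x)) - (3 * (4 * x) ^ 2 + 18 * n * (4 * x) + 16 * n ^ 2) := by
  linear_combination (-8 * x) * h.b2 - 16 * h.a4

theorem at_eqn (hV : IsL V n) {P : V.Point} {X Y : K} (h : At P X Y) :
    Y ^ 2 = X * (X ^ 2 + 9 * n * X + 16 * n ^ 2) := by
  obtain ⟨x, y, hn, rfl, rfl, rfl⟩ := h
  exact hV.eqn hn.1

theorem at_neg (hV : IsL V n) {P : V.Point} {X Y : K} (h : At P X Y) : At (-P) X (-Y) := by
  obtain ⟨x, y, hn, rfl, rfl, rfl⟩ := h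
  rw [Affine.Point.neg_some]
  refine ⟨_, _, _, rfl, rfl, ?_⟩
  rw [WeierstrassCurve.Affine.negY, hV.a3]
  ring

/-- the point `(0, 0)` -/
theorem exists_T (hV : IsL V n) (hn0 : n ≠ 0) : ∃ P : V.Point, At P 0 0 := by
  have hq : V.Equation 0 0 := by
    rw [Affine.equation_iff, hV.a6]
    ring
  have hn : V.Nonsingular 0 0 := by
    rw [Affine.nonsingular_iff]
    refine ⟨hq, Or.inl ?_⟩
    rw [hV.a4]
    intro h
    apply pow_ne_zero 2 hn0
    linear_combination -h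
  exact ⟨Affine.Point.some 0 0 hn, 0, 0, hn, rfl, by ring, by ring⟩

/-- points with `Y ≠ 0` -/
theorem exists_pt (hV : IsL V n) (h2 : (2 : K) ≠ 0) {X Y : K} (hY : Y ≠ 0)
    (he : Y ^ 2 = X * (X ^ 2 + 9 * n * X + 16 * n ^ 2)) : ∃ P : V.Point, At P X Y := by
  have h4 : (4 : K) ≠ 0 := by
    have : (4 : K) = 2 ^ 2 := by norm_num
    rw [this]
    exact pow_ne_zero _ h2
  obtain ⟨x, hx⟩ : ∃ x : K, X = 4 * x := ⟨X / 4, by field_simp⟩
  obtain ⟨y, hy⟩ : ∃ y : K, Y = 4 * (2 * y + V.a₁ * x) := ⟨(Y / 4 - V.a₁ * x) / 2, by field_simp; ring⟩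
  have hq : V.Equation x y := by
    apply hV.eqn' h2
    rw [← hx, ← hy]
    exact he
  have hn : V.Nonsingular x y := by
    rw [Affine.nonsingular_iff]
    refine ⟨hq, Or.inr ?_⟩
    intro h
    apply hY
    rw [hy]
    have h5 : 2 * y + V.a₁ * x = 0 := by
      linear_combination h - hV.a3
    rw [h5, mul_zero]
  exact ⟨Affine.Point.some x y hn, x, y, hn, rfl, hx, hy⟩

/-- the product of the abscissae of `P`, `Q`, `P + Q` is a square -/
theorem prod_rel (hV : IsL V n) {P Q : V.Point} {X1 Y1 X2 Y2 : K} (h1 : At P X1 Y1)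
    (h2 : At Q X2 Y2) (hne : P + Q ≠ 0) :
    ∃ X3 Y3 c, At (P + Q) X3 Y3 ∧ X1 * X2 * X3 = c ^ 2 := by
  obtain ⟨x1, y1, hn1, rfl, rfl, rfl⟩ := h1
  obtain ⟨x2, y2, hn2, rfl, rfl, rfl⟩ := h2
  by_cases hxy : x1 = x2 ∧ y1 = V.negY x2 y2
  · exact absurd (Affine.Point.add_of_Y_eq hxy.1 hxy.2) hne
  · rw [Affine.Point.add_some hxy]
    obtain ⟨r1, r2, r3⟩ := line_rel hn1.1 hn2.1 hxy
    refine ⟨_, _, 8 * (y1 - V.slope x1 x2 y1 y2 * x1), ⟨_, _, _, rfl, rfl, rfl⟩, ?_⟩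
    have hE := hn1.1
    rw [Affine.equation_iff] at hE
    linear_combination 64 * (x1 * r3 - x1 ^ 2 * r2 - hE +
      (y1 - V.slope x1 x2 y1 y2 * x1) * hV.a3 - hV.a6)

/-- translation by the point `(0, 0)` -/
theorem addT (hV : IsL V n) (h2 : (2 : K) ≠ 0) {P T : V.Point} {X Y : K} (h : At P X Y)
    (hT : At T 0 0) (hX : X ≠ 0) : ∃ X3 Y3, At (P + T) X3 Y3 ∧ X3 * X = 16 * n ^ 2 := by
  have e0 := at_eqn hV h
  obtain ⟨x, y, hn, rfl, rfl, rfl⟩ := h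
  obtain ⟨x', y', hn', rfl, e1, e2⟩ := hT
  have h4 : (4 : K) ≠ 0 := by
    have : (4 : K) = 2 ^ 2 := by norm_num
    rw [this]
    exact pow_ne_zero _ h2
  have hx' : x' = 0 := by
    rcases mul_eq_zero.1 e1.symm with h | h
    · exact absurd h h4
    · exact h
  subst hx'
  have hy' : y' = 0 := by
    rcases mul_eq_zero.1 e2.symm with h | h
    · exact absurd h h4
    · rw [mul_zero, add_zero] at h
      rcases mul_eq_zero.1 h with h | h
      · exact absurd h h2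
      · exact h
  subst hy'
  have hx0 : x ≠ 0 := fun h => hX (by rw [h, mul_zero])
  rw [Affine.Point.add_of_X_ne hx0]
  refine ⟨_, _, ⟨_, _, _, rfl, rfl, rfl⟩, ?_⟩
  rw [WeierstrassCurve.Affine.addX, WeierstrassCurve.Affine.slope_of_X_ne hx0]
  simp only [sub_zero]
  obtain ⟨l, hl⟩ : ∃ l : K, l = y / x := ⟨_, rfl⟩
  have hl1 : l * x = y := by rw [hl, div_mul_cancel₀ _ hx0]
  rw [← hl]
  rw [← hl1] at e0
  apply mul_right_cancel₀ hx0
  apply mul_left_cancel₀ h4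
  linear_combination e0 - 16 * x ^ 2 * hV.b2

theorem two_tors (hV : IsL V n) (h2 : (2 : K) ≠ 0) {T : V.Point} {e : K} (hT : At T e 0) :
    T + T = 0 := by
  have h1 : At (-T) e 0 := by simpa using at_neg hV hT
  have h3 : T = -T := hT.ext h2 h1
  calc T + T = T + -T := by rw [← h3]
    _ = 0 := add_neg_cancel T

end crd

section

variable {q : ℕ} [Fact q.Prime] {W : WeierstrassCurve ℤ} {N : ℤ}

theorem isL (h : IsJ 1 W N) : IsL ((W.map (Int.castRingHom ℚ_[q])).toAffine) (N : ℚ_[q]) := by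
  have h4 := h.a4
  have h2 := h.b2
  have h6 := h.a6
  have g : ga 1 = 1 := rfl
  have b : be 1 = 9 := rfl
  have d : de 1 = 0 := rfl
  rw [g, one_mul] at h4
  rw [WeierstrassCurve.b₂, b] at h2
  rw [d, zero_mul] at h6
  refine ⟨?_, ?_, ?_, ?_⟩
  · show ((W.a₃ : ℤ) : ℚ_[q]) = 0
    rw [h.a3, Int.cast_zero]
  · show ((W.a₆ : ℤ) : ℚ_[q]) = 0
    rw [h6, Int.cast_zero]
  · show ((W.a₁ : ℤ) : ℚ_[q]) ^ 2 + 4 * ((W.a₂ : ℤ) : ℚ_[q]) = 9 * (N : ℚ_[q])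
    exact_mod_cast h2
  · show ((W.a₄ : ℤ) : ℚ_[q]) = (N : ℚ_[q]) ^ 2
    exact_mod_cast h4

/-- singular reduction in the coordinates `X`, `Y` -/
theorem sing_XY (h : IsJ 1 W N) (hq2 : q ≠ 2) (x y : ℚ_[q]) :
    SingRed W q x y ↔ ‖4 * x‖ ≤ 1 ∧ ‖4 * (2 * y + (W.a₁ : ℚ_[q]) * x)‖ < 1 ∧
      ‖3 * (4 * x) ^ 2 + 18 * (N : ℚ_[q]) * (4 * x) + 16 * (N : ℚ_[q]) ^ 2‖ < 1 := by
  have hV := isL (q := q) h
  have e2 := hV.fx x y
  have n4 := norm4 hq2
  have n2' := norm2 hq2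
  have n16 := norm16 hq2
  have c3 : ((W.a₃ : ℤ) : ℚ_[q]) = 0 := by rw [h.a3, Int.cast_zero]
  have e3 : 16 * ((W.a₁ : ℚ_[q]) * y - (3 * x ^ 2 + 2 * (W.a₂ : ℚ_[q]) * x + (W.a₄ : ℚ_[q]))) =
      2 * (W.a₁ : ℚ_[q]) * (4 * (2 * y + (W.a₁ : ℚ_[q]) * x)) -
      (3 * (4 * x) ^ 2 + 18 * (N : ℚ_[q]) * (4 * x) + 16 * (N : ℚ_[q]) ^ 2) := e2
  have hA := nint (q := q) W.a₁
  constructor
  · rintro ⟨hx, hy, hfx, hfy⟩
    rw [c3, add_zero] at hfy
    have hY : ‖4 * (2 * y + (W.a₁ : ℚ_[q]) * x)‖ < 1 := by rw [norm_mul, n4, one_mul]; exact hfy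
    refine ⟨nmul n4.le hx, hY, ?_⟩
    have h1 := lmul (a := (16 : ℚ_[q])) n16.le hfx
    rw [e3] at h1
    have h2 := lsub (lmul (a := 2 * (W.a₁ : ℚ_[q])) (nmul n2'.le hA) hY) h1
    rw [sub_sub_cancel] at h2
    exact h2
  · rintro ⟨hX, hY, hF⟩
    rw [norm_mul, n4, one_mul] at hX
    have hY' := hY
    rw [norm_mul, n4, one_mul] at hY'
    have hy : ‖y‖ ≤ 1 := by
      have h1 : ‖2 * y‖ = ‖y‖ := by rw [norm_mul, n2', one_mul]
      rw [← h1]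
      have : 2 * y = (2 * y + (W.a₁ : ℚ_[q]) * x) - (W.a₁ : ℚ_[q]) * x := by ring
      rw [this]
      exact nsub hY'.le (nmul hA hX)
    refine ⟨hX, hy, ?_, ?_⟩
    · have h1 : ‖16 * ((W.a₁ : ℚ_[q]) * y - (3 * x ^ 2 + 2 * (W.a₂ : ℚ_[q]) * x + (W.a₄ : ℚ_[q])))‖ < 1 := by
        rw [e3]
        exact lsub (lmul (nmul n2'.le hA) hY) hF
      rw [norm_mul, n16, one_mul] at h1
      exact h1
    · rw [c3, add_zero]
      exact hY'

/-- membership in `E⁰` -/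
theorem mem_E0 (h : IsJ 1 W N) (hq2 : q ≠ 2) {P : PtP W q} {X Y : ℚ_[q]}
    (hP : At P X Y) : P ∉ E0 W q ↔ ‖X‖ ≤ 1 ∧ ‖Y‖ < 1 ∧
      ‖3 * X ^ 2 + 18 * (N : ℚ_[q]) * X + 16 * (N : ℚ_[q]) ^ 2‖ < 1 := by
  obtain ⟨x, y, hn, rfl, rfl, rfl⟩ := hP
  have h0 := sing_XY (q := q) h hq2 x y
  have h1 : (Affine.Point.some x y hn : PtP W q) ∉ E0 W q ↔ SingRed W q x y := by
    rw [t_E0]
    constructor
    · intro h1
      push Not at h1
      obtain ⟨x', y', h', e, hs⟩ := h1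
      injection e with e1 e2
      rw [e1, e2]
      exact hs
    · intro hs h1
      exact h1 x y hn rfl hs
  rw [h1, h0]
  rfl

section memX

variable (h : IsJ 1 W N) (hq2 : q ≠ 2) (hM : ‖(N : ℚ_[q])‖ = (q : ℝ)⁻¹)

include h hq2 hM

/-- the points outside `E⁰` are those with `|X| < 1` -/
theorem memX {P : PtP W q} {X Y : ℚ_[q]} (hP : At P X Y) : P ∉ E0 W q ↔ ‖X‖ < 1 := by
  have he := at_eqn (isL (q := q) h) hP
  have hm := M_lt hM
  have i9 : ‖(9 : ℚ_[q])‖ ≤ 1 := by exact_mod_cast nint (q := q) 9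
  have i16 : ‖(16 : ℚ_[q])‖ ≤ 1 := by exact_mod_cast nint (q := q) 16
  have i18 : ‖(18 : ℚ_[q])‖ ≤ 1 := by exact_mod_cast nint (q := q) 18
  have i3 : ‖(3 : ℚ_[q])‖ ≤ 1 := by exact_mod_cast nint (q := q) 3
  rw [mem_E0 h hq2 hP]
  constructor
  · rintro ⟨hX, hY, -⟩
    have h3 : ‖X ^ 3‖ < 1 := by
      have e : X ^ 3 = Y * Y - (9 * X ^ 2 + 16 * N * X) * N := by
        linear_combination -he
      rw [e]
      exact lsub (lmul hY.le hY) (lmul (nadd (nmul i9 (npow hX 2)) (nmul (nmul i16 hm.le) hX)) hm)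
    rw [norm_pow] at h3
    by_contra h
    rw [not_lt] at h
    have := one_le_pow₀ h (n := 3)
    linarith
  · intro hX
    refine ⟨hX.le, ?_, ?_⟩
    · have h1 : ‖Y ^ 2‖ < 1 := by
        rw [he]
        exact lmul' hX (nadd (nadd (npow hX.le 2) (nmul (nmul i9 hm.le) hX.le))
          (nmul i16 (npow hm.le 2)))
      rw [norm_pow] at h1
      by_contra h
      rw [not_lt] at h
      have := one_le_pow₀ h (n := 2)
      linarith
    · have hm2 : ‖(N : ℚ_[q]) ^ 2‖ < 1 := by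
        rw [pow_two]
        exact lmul hm.le hm
      have hX2 : ‖X ^ 2‖ < 1 := by
        rw [pow_two]
        exact lmul hX.le hX
      exact ladd (ladd (lmul i3 hX2) (lmul (nmul i18 hm.le) hX)) (lmul i16 hm2)

/-- the points outside `H = E⁰ ∪ (T + E⁰)` -/
theorem memH {P T : PtP W q} (hT : At T 0 0) {X Y : ℚ_[q]} (hP : At P X Y) :
    (P ∉ E0 W q ∧ P + T ∉ E0 W q) ↔ ‖X‖ = (q : ℝ)⁻¹ := by
  have hV := isL (q := q) h
  have h2 : (2 : ℚ_[q]) ≠ 0 := two_ne_zero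
  have hq1 : (1 : ℝ) < q := by exact_mod_cast (Fact.out : q.Prime).one_lt
  have hq0 : (0 : ℝ) < (q : ℝ)⁻¹ := by positivity
  have n16 := norm16 hq2
  have key : ∀ X3 : ℚ_[q], X3 * X = 16 * (N : ℚ_[q]) ^ 2 → ‖X3‖ * ‖X‖ = (q : ℝ)⁻¹ * (q : ℝ)⁻¹ := by
    intro X3 h3
    rw [← norm_mul, h3, norm_mul, n16, one_mul, norm_pow, hM, pow_two]
  constructor
  · rintro ⟨h1, h3⟩
    have hX := (memX h hq2 hM hP).1 h1
    have hX0 : X ≠ 0 := by
      rintro rfl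
      apply h3
      have hY : Y = 0 := by
        have h4 := at_eqn hV hP
        rw [zero_mul] at h4
        exact pow_eq_zero_iff two_ne_zero |>.1 h4
      rw [hY] at hP
      rw [hP.ext h2 hT, two_tors hV h2 hT]
      exact AddSubgroup.zero_mem _
    obtain ⟨X3, Y3, h4, h5⟩ := addT hV h2 hP hT hX0
    have hX3 := (memX h hq2 hM h4).1 h3
    have k := key X3 h5
    have l1 := norm_le_inv q hX
    have l3 := norm_le_inv q hX3
    by_contra hne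
    have l1' : ‖X‖ < (q : ℝ)⁻¹ := lt_of_le_of_ne l1 hne
    have : ‖X3‖ * ‖X‖ < (q : ℝ)⁻¹ * (q : ℝ)⁻¹ :=
      mul_lt_mul' l3 l1' (norm_nonneg _) hq0
    linarith
  · intro hX
    have hX1 : ‖X‖ < 1 := by rw [hX]; exact inv_lt_one_of_one_lt₀ hq1
    have hX0 : X ≠ 0 := by
      rw [← norm_pos_iff, hX]
      exact hq0
    refine ⟨(memX h hq2 hM hP).2 hX1, ?_⟩
    obtain ⟨X3, Y3, h4, h5⟩ := addT hV h2 hP hT hX0
    rw [memX h hq2 hM h4]
    have k := key X3 h5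
    rw [hX] at k
    have := mul_right_cancel₀ hq0.ne' k
    rw [this]
    exact inv_lt_one_of_one_lt₀ hq1

/-- the complement of `H` is one coset -/
theorem add_memH {P Q T : PtP W q} (hT : At T 0 0) (hP : P ∉ E0 W q ∧ P + T ∉ E0 W q)
    (hQ : Q ∉ E0 W q ∧ Q + T ∉ E0 W q) : P + Q ∈ E0 W q ∨ P + Q + T ∈ E0 W q := by
  have hV := isL (q := q) h
  by_contra hcon
  rw [not_or] at hcon
  have hP0 : P ≠ 0 := fun h0 => hP.1 (by rw [h0]; exact zero_mem _)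
  have hQ0 : Q ≠ 0 := fun h0 => hQ.1 (by rw [h0]; exact zero_mem _)
  have hS0 : P + Q ≠ 0 := fun h0 => hcon.1 (by rw [h0]; exact zero_mem _)
  obtain ⟨X1, Y1, h1⟩ := exists_at hP0
  obtain ⟨X2, Y2, h2⟩ := exists_at hQ0
  obtain ⟨X3, Y3, c, h3, hc⟩ := prod_rel hV h1 h2 hS0
  have n1 := (memH h hq2 hM hT h1).1 hP
  have n2 := (memH h hq2 hM hT h2).1 hQ
  have n3 := (memH h hq2 hM hT h3).1 hcon
  apply parity' c 1
  rw [← norm_pow, ← hc, norm_mul, norm_mul, n1, n2, n3]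
  ring

end memX

theorem index_of' {G : Type} [AddCommGroup G] (H : AddSubgroup G) {n : ℕ} (T : Fin n → G)
    (hs : ∀ P, ∃ i, P + T i ∈ H) (hi : ∀ i j, T i - T j ∈ H → i = j) : H.index = n := by
  rw [AddSubgroup.index, ← Nat.card_eq_of_bijective (α := Fin n)
    (fun i => (QuotientAddGroup.mk (-T i) : G ⧸ H)), Nat.card_eq_fintype_card, Fintype.card_fin]
  constructor
  · intro i j hij
    simp only at hij
    rw [QuotientAddGroup.eq, neg_neg, ← sub_eq_add_neg] at hij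
    exact hi i j hij
  · intro q
    induction q using QuotientAddGroup.induction_on with
    | H P =>
      obtain ⟨i, h⟩ := hs P
      refine ⟨i, ?_⟩
      simp only
      rw [QuotientAddGroup.eq, neg_neg, add_comm]
      exact h

end

section seventeen

variable [Fact (Nat.Prime 17)] {W : WeierstrassCurve ℤ} {N : ℤ}

theorem n17 : ‖(17 : ℚ_[17])‖ = ((17 : ℕ) : ℝ)⁻¹ := by
  have := Padic.norm_p (p := 17)
  exact_mod_cast this

/-- a point with `|X| = 1/17` forces `N / 17` to be a square -/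
theorem sq_of (h : IsJ 1 W N) {M : ℤ} (hNM : N = 17 * M) (hM : ¬ (17 : ℤ) ∣ M) {P : PtP W 17}
    {X Y : ℚ_[17]} (hP : At P X Y) (hX : ‖X‖ = ((17 : ℕ) : ℝ)⁻¹) : jacobiSym M 17 = 1 := by
  have hV := isL (q := 17) h
  have he := at_eqn hV hP
  have c17 := n17
  have n4 : ‖(4 : ℚ_[17])‖ = 1 := norm4 (q := 17) (by norm_num)
  have n2' : ‖(2 : ℚ_[17])‖ = 1 := norm2 (q := 17) (by norm_num)
  have i9 : ‖(9 : ℚ_[17])‖ ≤ 1 := by exact_mod_cast nint (q := 17) 9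
  have i16 : ‖(16 : ℚ_[17])‖ ≤ 1 := by exact_mod_cast nint (q := 17) 16
  have uM : ‖(M : ℚ_[17])‖ = 1 :=
    le_antisymm (Padic.norm_int_le_one M) (not_lt.1 fun h1 => hM (by
      have := Padic.norm_intCast_lt_one_iff.1 h1
      exact_mod_cast this))
  have hM0 : (M : ℚ_[17]) ≠ 0 := by
    rw [← norm_pos_iff, uM]; norm_num
  have h170 : (17 : ℚ_[17]) ≠ 0 := by norm_num
  have eN : (N : ℚ_[17]) = 17 * M := by rw [hNM]; push_cast; ring
  rw [eN] at he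
  obtain ⟨t, ht⟩ : ∃ t : ℚ_[17], X = 17 * M * t :=
    ⟨X / (17 * M), by rw [mul_div_cancel₀ _ (mul_ne_zero h170 hM0)]⟩
  have ht1 : ‖t‖ = 1 := by
    rw [ht, norm_mul, norm_mul, uM, mul_one, c17] at hX
    have h0 : (((17 : ℕ) : ℝ)⁻¹) ≠ 0 := by norm_num
    apply mul_left_cancel₀ h0
    rw [hX, mul_one]
  rw [ht] at he
  have he2 : Y ^ 2 = 17 ^ 3 * M ^ 3 * (t * (t ^ 2 + 9 * t + 16)) := by
    rw [he]; ring
  have l0 : ‖t ^ 2 + 9 * t + 16‖ ≤ 1 := nadd (nadd (npow ht1.le 2) (nmul i9 ht1.le)) i16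
  have l1 : ‖t ^ 2 + 9 * t + 16‖ < 1 := by
    refine lt_of_le_of_ne l0 fun h1 => ?_
    apply parity' Y 1
    rw [← norm_pow, he2, norm_mul, norm_mul, norm_mul, norm_pow, norm_pow, uM, h1, ht1, c17]
    norm_num
  have l2 : ‖(2 * t + 9) ^ 2‖ < 1 := by
    have e : (2 * t + 9) ^ 2 = 4 * (t ^ 2 + 9 * t + 16) + 17 := by ring
    rw [e]
    exact ladd (lmul n4.le l1) (by rw [c17]; norm_num)
  have l3 : ‖2 * t + 9‖ < 1 := by
    rw [norm_pow] at l2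
    by_contra h1
    rw [not_lt] at h1
    have := one_le_pow₀ h1 (n := 2)
    linarith
  have l4 := norm_le_inv 17 l3
  obtain ⟨w, hw⟩ : ∃ w : ℚ_[17], 2 * t + 9 = 17 * w :=
    ⟨(2 * t + 9) / 17, by rw [mul_div_cancel₀ _ h170]⟩
  have hw1 : ‖w‖ ≤ 1 := by
    rw [hw, norm_mul, c17] at l4
    have h0 : (0 : ℝ) < ((17 : ℕ) : ℝ)⁻¹ := by norm_num
    nlinarith
  obtain ⟨Z, hZ⟩ : ∃ Z : ℚ_[17], Y = 17 ^ 2 * Z :=
    ⟨Y / 17 ^ 2, by rw [mul_div_cancel₀ _ (pow_ne_zero 2 h170)]⟩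
  have hZ2 : 4 * Z ^ 2 = M ^ 3 * t * (17 * w ^ 2 - 1) := by
    apply mul_left_cancel₀ (pow_ne_zero 4 h170)
    rw [hZ] at he2
    linear_combination 4 * he2 + 17 ^ 3 * (M : ℚ_[17]) ^ 3 * t * (2 * t + 9 + 17 * w) * hw
  have hZ1 : ‖Z‖ ≤ 1 := by
    have h5 : ‖4 * Z ^ 2‖ ≤ 1 := by
      rw [hZ2]
      refine nmul (nmul (npow uM.le 3) ht1.le) (nsub (nmul ?_ (npow hw1 2)) norm_one.le)
      rw [c17]; norm_num
    rw [norm_mul, n4, one_mul, norm_pow] at h5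
    by_contra h6
    rw [not_le] at h6
    have := one_lt_pow₀ h6 two_ne_zero
    linarith
  obtain ⟨τ, rfl⟩ : ∃ τ : ℤ_[17], (τ : ℚ_[17]) = t := ⟨⟨t, ht1.le⟩, rfl⟩
  obtain ⟨ω, rfl⟩ : ∃ τ : ℤ_[17], (τ : ℚ_[17]) = w := ⟨⟨w, hw1⟩, rfl⟩
  obtain ⟨ζ, rfl⟩ : ∃ τ : ℤ_[17], (τ : ℚ_[17]) = Z := ⟨⟨Z, hZ1⟩, rfl⟩
  have f1 : 2 * τ + 9 = 17 * ω := by
    have : ((2 * τ + 9 : ℤ_[17]) : ℚ_[17]) = ((17 * ω : ℤ_[17]) : ℚ_[17]) := by
      push_cast
      exact hw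
    exact Subtype.ext this
  have f2 : 4 * ζ ^ 2 = (M : ℤ_[17]) ^ 3 * τ * (17 * ω ^ 2 - 1) := by
    have : ((4 * ζ ^ 2 : ℤ_[17]) : ℚ_[17]) =
        (((M : ℤ_[17]) ^ 3 * τ * (17 * ω ^ 2 - 1) : ℤ_[17]) : ℚ_[17]) := by
      push_cast
      exact hZ2
    exact Subtype.ext this
  have g1 := congrArg PadicInt.toZMod f1
  have g2 := congrArg PadicInt.toZMod f2
  simp only [map_add, map_mul, map_pow, map_ofNat, map_sub, map_one, map_intCast] at g1 g2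
  have z17 : (17 : ZMod 17) = 0 := by
    have := ZMod.natCast_self 17
    exact_mod_cast this
  rw [z17] at g1 g2
  set τ' := PadicInt.toZMod τ
  set ω' := PadicInt.toZMod ω
  set ζ' := PadicInt.toZMod ζ
  have hMz : (M : ZMod 17) ≠ 0 := by
    rw [Ne, ZMod.intCast_zmod_eq_zero_iff_dvd]
    exact_mod_cast hM
  have g3 : τ' = 4 := by
    have : τ' = 9 * (2 * τ' + 9) + 4 - 17 * (τ' + 5) := by ring
    rw [this, g1, z17]
    ring
  have g4 : ζ' ^ 2 = -(M : ZMod 17) ^ 3 := by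
    rw [g3] at g2
    have h6 : ζ' ^ 2 = 13 * (4 * ζ' ^ 2) - 17 * (3 * ζ' ^ 2) := by ring
    rw [h6, g2, z17]
    have h7 : (52 : ZMod 17) = 1 := by
      have h9 : (52 : ZMod 17) = 3 * 17 + 1 := by norm_num
      rw [h9, z17]
      ring
    linear_combination (-(M : ZMod 17) ^ 3) * h7
  rw [← jacobiSym.legendreSym.to_jacobiSym, legendreSym.eq_one_iff 17 hMz]
  refine ⟨4 * ζ' / M, ?_⟩
  rw [div_mul_div_comm, eq_div_iff (mul_ne_zero hMz hMz)]
  have h8 : (17 : ZMod 17) * (M : ZMod 17) ^ 3 = 0 := by rw [z17, zero_mul]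
  linear_combination (-16) * g4 + h8

/-- if `N / 17` is a square there is a point with `|X| = 1/17` -/
theorem exists_Q (h : IsJ 1 W N) {M : ℤ} (hNM : N = 17 * M) (hM : ¬ (17 : ℤ) ∣ M)
    (hj : jacobiSym M 17 = 1) :
    ∃ (Q : PtP W 17) (X Y : ℚ_[17]), At Q X Y ∧ ‖X‖ = ((17 : ℕ) : ℝ)⁻¹ := by
  have hV := isL (q := 17) h
  have c17 := n17
  have n2' : ‖(2 : ℚ_[17])‖ = 1 := norm2 (q := 17) (by norm_num)
  have n9 : ‖(9 : ℚ_[17])‖ = 1 := by
    have := norm_nat_eq_one 17 (n := 9) (by norm_num)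
    exact_mod_cast this
  have uM : ‖(M : ℚ_[17])‖ = 1 :=
    le_antisymm (Padic.norm_int_le_one M) (not_lt.1 fun h1 => hM (by
      have := Padic.norm_intCast_lt_one_iff.1 h1
      exact_mod_cast this))
  have hM0 : (M : ℚ_[17]) ≠ 0 := by
    rw [← norm_pos_iff, uM]; norm_num
  have eN : (N : ℚ_[17]) = 17 * M := by rw [hNM]; push_cast; ring
  have hd : ¬ ((17 : ℕ) : ℤ) ∣ 2 * M := by
    intro h1
    have h2 : Prime (17 : ℤ) := by norm_num
    rcases h2.dvd_or_dvd (by exact_mod_cast h1) with h3 | h3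
    · norm_num at h3
    · exact hM h3
  have hj2 : jacobiSym (2 * M) 17 = 1 := by
    rw [jacobiSym.mul_left, hj, mul_one]
    norm_num
  obtain ⟨s, hs⟩ := Pool.Agent.H468.X15.sq_of_jac (p := 17) (by norm_num) hd hj2
  push_cast at hs
  have hs0 : s ≠ 0 := by
    rintro rfl
    rw [mul_zero] at hs
    rcases mul_eq_zero.1 hs with h1 | h1
    · norm_num at h1
    · exact hM0 h1
  obtain ⟨Q, hQ⟩ := exists_pt hV two_ne_zero (X := -9 * (17 * M) / 2)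
    (Y := 17 ^ 2 * 3 * M * s / 4) (by
      apply div_ne_zero
      · exact mul_ne_zero (mul_ne_zero (by norm_num) hM0) hs0
      · norm_num) (by
      rw [eN]
      linear_combination (-(17 : ℚ_[17]) ^ 4 * 9 * (M : ℚ_[17]) ^ 2 / 16) * hs)
  refine ⟨Q, _, _, hQ, ?_⟩
  rw [norm_div, norm_mul, norm_mul, norm_neg, n9, n2', uM, c17]
  norm_num

end seventeen

theorem t_ITR1 : S_ITR1 := by
  intro W N _ h h1 h2
  obtain ⟨M, hNM⟩ := h1
  have hM : ¬ (17 : ℤ) ∣ M := by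
    rintro ⟨k, hk⟩
    apply h2
    exact ⟨k, by rw [hNM, hk]; ring⟩
  have hN17 : N / 17 = M := by rw [hNM]; exact Int.mul_ediv_cancel_left _ (by norm_num)
  rw [hN17]
  have hm : ‖(N : ℚ_[17])‖ = ((17 : ℕ) : ℝ)⁻¹ :=
    norm_M 17 (M := N) ⟨M, by exact_mod_cast hNM⟩ (by exact_mod_cast h2)
  have hV := isL (q := 17) h
  have hm0 := M_ne hm
  have hq2 : (17 : ℕ) ≠ 2 := by norm_num
  obtain ⟨T, hT⟩ := Pool.Agent.H743.X17.QITR1.exists_T hV hm0
  have hTT := Pool.Agent.H743.X17.QITR1.two_tors hV two_ne_zero hT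
  have hTn : T ∉ Pool.Agent.Y700.E0 W 17 :=
    (Pool.Agent.H743.X17.QITR1.memX h hq2 hm hT).2 (by rw [norm_zero]; norm_num)
  by_cases hj : jacobiSym M 17 = 1
  · rw [if_pos hj]
    obtain ⟨Q, X, Y, hQ, hX⟩ := exists_Q h hNM hM hj
    have hQn := (memH h hq2 hm hT hQ).2 hX
    rw [Pool.Agent.Y700.tam]
    apply index_of' (Pool.Agent.Y700.E0 W 17) ![0, T, Q, Q + T]
    · intro P
      by_cases hP : P ∈ Pool.Agent.Y700.E0 W 17
      · exact ⟨0, by simpa using hP⟩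
      by_cases hPT : P + T ∈ Pool.Agent.Y700.E0 W 17
      · exact ⟨1, by simpa using hPT⟩
      rcases add_memH h hq2 hm hT ⟨hP, hPT⟩ hQn with h3 | h3
      · exact ⟨2, by simpa using h3⟩
      · refine ⟨3, ?_⟩
        have e : P + (![0, T, Q, Q + T] : Fin 4 → _) 3 = P + Q + T := by
          show P + (Q + T) = P + Q + T
          rw [add_assoc]
        rw [e]
        exact h3
    · have hQT : T = -T := (neg_eq_of_add_eq_zero_left hTT).symm
      have k1 : ∀ A : Pool.Agent.Y700.PtP W 17, A ∉ Pool.Agent.Y700.E0 W 17 →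
          -A ∉ Pool.Agent.Y700.E0 W 17 := fun A hA h3 => hA (by simpa using neg_mem h3)
      have d1 : (0 : Pool.Agent.Y700.PtP W 17) - T ∉ Pool.Agent.Y700.E0 W 17 := by
        rw [zero_sub]; exact k1 _ hTn
      have d2 : (0 : Pool.Agent.Y700.PtP W 17) - Q ∉ Pool.Agent.Y700.E0 W 17 := by
        rw [zero_sub]; exact k1 _ hQn.1
      have d3 : (0 : Pool.Agent.Y700.PtP W 17) - (Q + T) ∉ Pool.Agent.Y700.E0 W 17 := by
        rw [zero_sub]; exact k1 _ hQn.2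
      have d4 : T - Q ∉ Pool.Agent.Y700.E0 W 17 := by
        have e : T - Q = -(Q + T) := by
          nth_rw 1 [hQT]
          abel
        rw [e]; exact k1 _ hQn.2
      have d5 : T - (Q + T) ∉ Pool.Agent.Y700.E0 W 17 := by
        have e : T - (Q + T) = -Q := by abel
        rw [e]; exact k1 _ hQn.1
      have d6 : Q - (Q + T) ∉ Pool.Agent.Y700.E0 W 17 := by
        have e : Q - (Q + T) = -T := by abel
        rw [e]; exact k1 _ hTn
      have s : ∀ A B : Pool.Agent.Y700.PtP W 17, A - B ∉ Pool.Agent.Y700.E0 W 17 →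
          B - A ∉ Pool.Agent.Y700.E0 W 17 := by
        intro A B hAB h3
        apply k1 _ hAB
        rw [neg_sub]
        exact h3
      intro i j hij
      fin_cases i <;> fin_cases j <;> first | rfl | (exfalso; first | exact d1 hij | exact d2 hij | exact d3 hij | exact d4 hij | exact d5 hij | exact d6 hij | exact s _ _ d1 hij | exact s _ _ d2 hij | exact s _ _ d3 hij | exact s _ _ d4 hij | exact s _ _ d5 hij | exact s _ _ d6 hij)
  · rw [if_neg hj, Pool.Agent.Y700.tam, AddSubgroup.index_eq_two_iff_exists_notMem_and]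
    refine ⟨T, hTn, fun P => ?_⟩
    by_cases hP : P ∈ Pool.Agent.Y700.E0 W 17
    · exact Or.inr hP
    left
    by_contra hPT
    apply hj
    have hP0 : P ≠ 0 := fun h0 => hP (by rw [h0]; exact zero_mem _)
    obtain ⟨X, Y, hat⟩ := exists_at hP0
    exact sq_of h hNM hM hat ((memH h hq2 hm hT hat).1 ⟨hP, hPT⟩)

end Pool.Agent.H743.X17.QITR1
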