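import Pool.Agent.H743.X17.IsoStm
import Pool.Graph.R_seed8.Y809.BSD14.Tam3
import Pool.Agent.H468.X15S.Pad

/-!
# I17 ITS0: Tamagawa number at `17 ∤ N`, `j = 0` (type I₄)

`X = 4 x + N`, `Y = 4 (2 y + a₁ x)`, `Y² = X (X² + 30 N X + 289 N²)`.
-/

set_option autoImplicit false
set_option linter.all false

open scoped Classical

open WeierstrassCurve

namespace Pool.Agent.H743.X17.QITS0

open Pool.Agent.H743.X17
open Pool.Agent.Y700 (SingRed E0 tam PtP)
open Pool.Agent.Y809.BSD14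

section crd

variable {K : Type} [Field K]

/-- the shape of the equation -/
structure IsK (V : WeierstrassCurve.Affine K) (n : K) : Prop where
  a3 : V.a₃ = 0
  b2 : V.a₁ ^ 2 + 4 * V.a₂ = 33 * n
  a4 : V.a₄ = 22 * n ^ 2
  a6 : V.a₆ = 5 * n ^ 3

variable {V : WeierstrassCurve.Affine K} {n : K}

theorem IsK.eqn (h : IsK V n) {x y : K} (hE : V.Equation x y) :
    (4 * (2 * y + V.a₁ * x)) ^ 2 = (4 * x + n) * ((4 * x + n) ^ 2 + 30 * n * (4 * x + n) + 289 * n ^ 2) := by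
  rw [Affine.equation_iff, h.a3] at hE
  linear_combination 64 * hE + 16 * x ^ 2 * h.b2 + 64 * x * h.a4 + 64 * h.a6

theorem IsK.eqn' (h : IsK V n) (h2 : (2 : K) ≠ 0) {x y : K}
    (hE : (4 * (2 * y + V.a₁ * x)) ^ 2 =
      (4 * x + n) * ((4 * x + n) ^ 2 + 30 * n * (4 * x + n) + 289 * n ^ 2)) : V.Equation x y := by
  rw [Affine.equation_iff, h.a3]
  have h64 : (64 : K) ≠ 0 := by
    have : (64 : K) = 2 ^ 6 := by norm_num
    rw [this]
    exact pow_ne_zero _ h2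
  apply mul_left_cancel₀ h64
  linear_combination hE - 16 * x ^ 2 * h.b2 - 64 * x * h.a4 - 64 * h.a6

theorem IsK.fx (h : IsK V n) (x y : K) : 16 * (V.a₁ * y - (3 * x ^ 2 + 2 * V.a₂ * x + V.a₄)) =
    2 * V.a₁ * (4 * (2 * y + V.a₁ * x)) -
      (3 * (4 * x + n) ^ 2 + 60 * n * (4 * x + n) + 289 * n ^ 2) := by
  linear_combination (-8 * x) * h.b2 - 16 * h.a4

/-- the point `P` has the coordinates `X = 4 x + n`, `Y = 4 (2 y + a₁ x)` -/
def At (n : K) (P : V.Point) (X Y : K) : Prop :=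
  ∃ (x y : K) (h : V.Nonsingular x y), P = Affine.Point.some x y h ∧ X = 4 * x + n ∧
    Y = 4 * (2 * y + V.a₁ * x)

theorem At.eqn (hV : IsK V n) {P : V.Point} {X Y : K} (h : At n P X Y) :
    Y ^ 2 = X * (X ^ 2 + 30 * n * X + 289 * n ^ 2) := by
  obtain ⟨x, y, hn, rfl, rfl, rfl⟩ := h
  exact hV.eqn hn.1

theorem At.ne_zero {P : V.Point} {X Y : K} (h : At n P X Y) : P ≠ 0 := by
  obtain ⟨x, y, hn, rfl, _⟩ := h
  exact Affine.Point.some_ne_zero _

theorem exists_at (n : K) {P : V.Point} (h : P ≠ 0) : ∃ X Y, At n P X Y := by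
  rcases P with _ | ⟨x, y, hn⟩
  · exact absurd rfl h
  · exact ⟨_, _, x, y, hn, rfl, rfl, rfl⟩

theorem At.ext (h2 : (2 : K) ≠ 0) {P P' : V.Point} {X Y : K} (h : At n P X Y) (h' : At n P' X Y) :
    P = P' := by
  obtain ⟨x, y, hn, rfl, e1, e2⟩ := h
  obtain ⟨x', y', hn', rfl, e1', e2'⟩ := h'
  have hx : x = x' := by
    have h3 : (2 ^ 2 : K) * x = 2 ^ 2 * x' := by linear_combination e1' - e1
    exact mul_left_cancel₀ (pow_ne_zero 2 h2) h3
  have hy : y = y' := by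
    have h3 : (2 ^ 3 : K) * y = 2 ^ 3 * y' := by rw [hx] at e2; linear_combination e2' - e2
    exact mul_left_cancel₀ (pow_ne_zero 3 h2) h3
  subst hx hy
  rfl

theorem At.neg (hV : IsK V n) {P : V.Point} {X Y : K} (h : At n P X Y) : At n (-P) X (-Y) := by
  obtain ⟨x, y, hn, rfl, rfl, rfl⟩ := h
  rw [Affine.Point.neg_some]
  refine ⟨_, _, _, rfl, rfl, ?_⟩
  rw [WeierstrassCurve.Affine.negY, hV.a3]
  ring

/-- two points with the same `X` -/
theorem At.pm (hV : IsK V n) (h2 : (2 : K) ≠ 0) {P P' : V.Point} {X Y Y' : K} (h : At n P X Y)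
    (h' : At n P' X Y') : P = P' ∨ P = -P' := by
  have e : (Y - Y') * (Y + Y') = 0 := by linear_combination h.eqn hV - h'.eqn hV
  rcases mul_eq_zero.1 e with e | e
  · rw [sub_eq_zero.1 e] at h
    exact Or.inl (h.ext h2 h')
  · have e' : Y = -Y' := by linear_combination e
    rw [e'] at h
    exact Or.inr (h.ext h2 (h'.neg hV))

/-- existence of points -/
theorem exists_pt (hV : IsK V n) (h2 : (2 : K) ≠ 0) {X Y : K}
    (he : Y ^ 2 = X * (X ^ 2 + 30 * n * X + 289 * n ^ 2))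
    (hd : Y ≠ 0 ∨ 3 * X ^ 2 + 60 * n * X + 289 * n ^ 2 ≠ 0) : ∃ P : V.Point, At n P X Y := by
  have h4 : (4 : K) ≠ 0 := by
    have : (4 : K) = 2 ^ 2 := by norm_num
    rw [this]
    exact pow_ne_zero _ h2
  obtain ⟨x, hx⟩ : ∃ x : K, X = 4 * x + n := ⟨(X - n) / 4, by field_simp; ring⟩
  obtain ⟨y, hy⟩ : ∃ y : K, Y = 4 * (2 * y + V.a₁ * x) := ⟨(Y / 4 - (V.a₁ * x)) / 2, by field_simp; ring⟩
  have hq : V.Equation x y := by
    apply hV.eqn' h2
    rw [← hx, ← hy]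
    exact he
  have hn : V.Nonsingular x y := by
    rw [Affine.nonsingular_iff]
    refine ⟨hq, ?_⟩
    by_contra hcon
    rw [not_or, not_ne_iff, not_ne_iff] at hcon
    obtain ⟨hc1, hc2⟩ := hcon
    have hf := hV.fx x y
    have hY : Y = 0 := by
      rw [hV.a3] at hc2
      rw [hy]
      linear_combination 4 * hc2
    rw [hc1, sub_self, mul_zero, ← hx, ← hy, hY] at hf
    rcases hd with hd | hd
    · exact hd hY
    · apply hd
      linear_combination hf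
  exact ⟨Affine.Point.some x y hn, x, y, hn, rfl, hx, hy⟩

variable [DecidableEq K]

theorem At.add (hV : IsK V n) (h2 : (2 : K) ≠ 0) {P P' : V.Point} {X Y X' Y' : K}
    (h : At n P X Y) (h' : At n P' X' Y') (hne : X ≠ X') :
    ∃ Y3, At n (P + P') (((Y - Y') / (X - X')) ^ 2 - 30 * n - X - X') Y3 := by
  obtain ⟨x, y, hn, rfl, rfl, rfl⟩ := h
  obtain ⟨x', y', hn', rfl, rfl, rfl⟩ := h'
  have hx : x ≠ x' := fun h => hne (by rw [h])
  rw [Affine.Point.add_of_X_ne hx]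
  refine ⟨_, _, _, _, rfl, ?_, rfl⟩
  rw [WeierstrassCurve.Affine.addX, WeierstrassCurve.Affine.slope_of_X_ne hx]
  have h1 : x - x' ≠ 0 := sub_ne_zero.2 hx
  have h4 : (4 : K) ≠ 0 := by
    have : (4 : K) = 2 ^ 2 := by norm_num
    rw [this]
    exact pow_ne_zero _ h2
  have h5 : (4 * (2 * y + V.a₁ * x) - 4 * (2 * y' + V.a₁ * x')) /
      (4 * x + n - (4 * x' + n)) = 2 * ((y - y') / (x - x')) + V.a₁ := by
    have h6 : 4 * x + n - (4 * x' + n) = 4 * (x - x') := by ring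
    rw [h6]
    field_simp
    ring
  rw [h5]
  linear_combination hV.b2

/-- translation by the point `(0, 0)` -/
theorem At.addT (hV : IsK V n) (h2 : (2 : K) ≠ 0) {P T : V.Point} {X Y : K} (h : At n P X Y)
    (hT : At n T 0 0) (hX : X ≠ 0) : ∃ X3 Y3, At n (P + T) X3 Y3 ∧
      X3 * X = 289 * n ^ 2 := by
  obtain ⟨Y3, h3⟩ := h.add hV h2 hT hX
  refine ⟨_, Y3, h3, ?_⟩
  have e0 := h.eqn hV
  simp only [sub_zero]
  obtain ⟨L, hL⟩ : ∃ L : K, L = Y / X := ⟨_, rfl⟩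
  have hL1 : L * X = Y := by rw [hL, div_mul_cancel₀ _ hX]
  rw [← hL]
  have e3 : L ^ 2 * X = X ^ 2 + 30 * n * X + 289 * n ^ 2 := by
    apply mul_right_cancel₀ hX
    rw [← hL1] at e0
    linear_combination e0
  linear_combination e3

theorem two_tors (hV : IsK V n) (h2 : (2 : K) ≠ 0) {T : V.Point} {e : K} (hT : At n T e 0) :
    T + T = 0 := by
  have h1 : At n (-T) e 0 := by simpa using hT.neg hV
  have h3 : T = -T := hT.ext h2 h1
  calc T + T = T + -T := by rw [← h3]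
    _ = 0 := add_neg_cancel T

/-- the three `X` on a line have a square product -/
theorem At.prod (hV : IsK V n) {P P' : V.Point} {X Y X' Y' : K}
    (h : At n P X Y) (h' : At n P' X' Y') (hne : P + P' ≠ 0) :
    ∃ X3 Y3 s, At n (P + P') X3 Y3 ∧ X * X' * X3 = s ^ 2 := by
  obtain ⟨x, y, hn, rfl, rfl, rfl⟩ := h
  obtain ⟨x', y', hn', rfl, rfl, rfl⟩ := h'
  have hxy : ¬(x = x' ∧ y = V.negY x' y') := by
    rintro ⟨e1, e2⟩
    exact hne (Affine.Point.add_of_Y_eq e1 e2)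
  have hl := line_rel hn.1 hn'.1 hxy
  simp only at hl
  obtain ⟨l1, l2, l3⟩ := hl
  set l := V.slope x x' y y' with hldef
  have hE := hn.1
  rw [Affine.equation_iff, hV.a3] at hE
  refine ⟨4 * V.addX x x' l + n, _, 8 * (y - l * x) - 2 * n * l - n * V.a₁, ⟨_, _, Affine.nonsingular_add hn hn' hxy, Affine.Point.add_some hxy, rfl, rfl⟩, ?_⟩
  set x3 := V.addX x x' l with hx3
  obtain ⟨c, hc⟩ : ∃ c : K, c = y - l * x := ⟨_, rfl⟩
  rw [← hc] at l3 ⊢
  have hy : y = l * x + c := by rw [hc]; ring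
  rw [hV.a3] at l3
  have e3 : x * x' * x3 = c ^ 2 - V.a₆ := by
    rw [hy] at hE
    linear_combination x * l3 - x ^ 2 * l2 - hE
  linear_combination 64 * e3 + 16 * n * l3 + 4 * n ^ 2 * l2 - n ^ 2 * hV.b2 + 16 * n * hV.a4 - 64 * hV.a6

end crd

section

variable {q : ℕ} [Fact q.Prime] {W : WeierstrassCurve ℤ} {N : ℤ}

theorem isK (h : IsJ 0 W N) : IsK ((W.map (Int.castRingHom ℚ_[q])).toAffine) (N : ℚ_[q]) := by
  have h2 := h.b2
  rw [WeierstrassCurve.b₂] at h2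
  have h4 := h.a4
  have h6 := h.a6
  simp only [be, ga, de] at h2 h4 h6
  refine ⟨?_, ?_, ?_, ?_⟩
  · show ((W.a₃ : ℤ) : ℚ_[q]) = 0
    rw [h.a3, Int.cast_zero]
  · show ((W.a₁ : ℤ) : ℚ_[q]) ^ 2 + 4 * ((W.a₂ : ℤ) : ℚ_[q]) = 33 * (N : ℚ_[q])
    exact_mod_cast h2
  · show ((W.a₄ : ℤ) : ℚ_[q]) = 22 * (N : ℚ_[q]) ^ 2
    exact_mod_cast h4
  · show ((W.a₆ : ℤ) : ℚ_[q]) = 5 * (N : ℚ_[q]) ^ 3
    exact_mod_cast h6

theorem nint (k : ℤ) : ‖(k : ℚ_[q])‖ ≤ 1 := Padic.norm_int_le_one k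

theorem unit_int {n : ℤ} (h : ¬ (q : ℤ) ∣ n) : ‖(n : ℚ_[q])‖ = 1 :=
  le_antisymm (Padic.norm_int_le_one n) (not_lt.1 fun h1 => h (Padic.norm_intCast_lt_one_iff.1 h1))

theorem sq_lt {x : ℚ_[q]} (h : ‖x ^ 2‖ < 1) : ‖x‖ < 1 := by
  rw [norm_pow] at h
  by_contra h1
  rw [not_lt] at h1
  have := one_le_pow₀ h1 (n := 2)
  linarith

/-- singular reduction in the coordinates `X`, `Y` -/
theorem sing_XY (h : IsJ 0 W N) (hq2 : q ≠ 2) (x y : ℚ_[q]) :
    SingRed W q x y ↔ ‖4 * x + (N : ℚ_[q])‖ ≤ 1 ∧ ‖4 * (2 * y + (W.a₁ : ℚ_[q]) * x)‖ < 1 ∧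
      ‖3 * (4 * x + (N : ℚ_[q])) ^ 2 + 60 * (N : ℚ_[q]) * (4 * x + (N : ℚ_[q])) +
        289 * (N : ℚ_[q]) ^ 2‖ < 1 := by
  have hV := isK (q := q) h
  have e2 := hV.fx x y
  have n4 := norm4 hq2
  have n2' := norm2 hq2
  have n16 := norm16 hq2
  have c3 : ((W.a₃ : ℤ) : ℚ_[q]) = 0 := by rw [h.a3, Int.cast_zero]
  have e3 : 16 * ((W.a₁ : ℚ_[q]) * y - (3 * x ^ 2 + 2 * (W.a₂ : ℚ_[q]) * x + (W.a₄ : ℚ_[q]))) =
      2 * (W.a₁ : ℚ_[q]) * (4 * (2 * y + (W.a₁ : ℚ_[q]) * x)) -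
      (3 * (4 * x + (N : ℚ_[q])) ^ 2 + 60 * (N : ℚ_[q]) * (4 * x + (N : ℚ_[q])) +
        289 * (N : ℚ_[q]) ^ 2) := e2
  have hA := nint (q := q) W.a₁
  have hN := nint (q := q) N
  constructor
  · rintro ⟨hx, hy, hfx, hfy⟩
    rw [c3, add_zero] at hfy
    have hY : ‖4 * (2 * y + (W.a₁ : ℚ_[q]) * x)‖ < 1 := by rw [norm_mul, n4, one_mul]; exact hfy
    refine ⟨nadd (nmul n4.le hx) hN, hY, ?_⟩
    have h1 := lmul (a := (16 : ℚ_[q])) n16.le hfx
    rw [e3] at h1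
    have h2 := lsub (lmul (a := 2 * (W.a₁ : ℚ_[q])) (nmul n2'.le hA) hY) h1
    rw [sub_sub_cancel] at h2
    exact h2
  · rintro ⟨hX, hY, hF⟩
    have hx : ‖x‖ ≤ 1 := by
      have h1 : ‖4 * x‖ = ‖x‖ := by rw [norm_mul, n4, one_mul]
      rw [← h1]
      have : 4 * x = (4 * x + (N : ℚ_[q])) - N := by ring
      rw [this]
      exact nsub hX hN
    have hY' := hY
    rw [norm_mul, n4, one_mul] at hY'
    have hy : ‖y‖ ≤ 1 := by
      have h1 : ‖2 * y‖ = ‖y‖ := by rw [norm_mul, n2', one_mul]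
      rw [← h1]
      have : 2 * y = (2 * y + (W.a₁ : ℚ_[q]) * x) - (W.a₁ : ℚ_[q]) * x := by ring
      rw [this]
      exact nsub hY'.le (nmul hA hx)
    refine ⟨hx, hy, ?_, ?_⟩
    · have h1 : ‖16 * ((W.a₁ : ℚ_[q]) * y - (3 * x ^ 2 + 2 * (W.a₂ : ℚ_[q]) * x + (W.a₄ : ℚ_[q])))‖ < 1 := by
        rw [e3]
        exact lsub (lmul (nmul n2'.le hA) hY) hF
      rw [norm_mul, n16, one_mul] at h1
      exact h1
    · rw [c3, add_zero]
      exact hY'

/-- membership in `E⁰` -/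
theorem mem_E0 (h : IsJ 0 W N) (hq2 : q ≠ 2) {P : PtP W q} {X Y : ℚ_[q]}
    (hP : At (N : ℚ_[q]) P X Y) : P ∉ E0 W q ↔ ‖X‖ ≤ 1 ∧ ‖Y‖ < 1 ∧
      ‖3 * X ^ 2 + 60 * (N : ℚ_[q]) * X + 289 * (N : ℚ_[q]) ^ 2‖ < 1 := by
  obtain ⟨x, y, hn, rfl, rfl, rfl⟩ := hP
  have h0 := sing_XY (q := q) h hq2 x y
  have h1 : (Affine.Point.some x y hn : PtP W q) ∉ E0 W q ↔ SingRed W q x y := by
    rw [t_E0]
    constructor
    · intro h1
      push Not at h1
      obtain ⟨x', y', h', e, hs⟩ := h1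
      injection e with e1 e2
      rw [e1, e2]
      exact hs
    · intro hs h1
      exact h1 x y hn rfl hs
  rw [h1, h0]
  rfl

end

section abstract_index

theorem index_four {G : Type} [AddCommGroup G] (H : AddSubgroup G) (T R : G) (h2 : T + T = 0)
    (hT : T ∉ H) (hR : R ∉ H) (hRT : R + T ∉ H)
    (hs : ∀ P, P ∈ H ∨ P + T ∈ H ∨ P - R ∈ H ∨ P - R + T ∈ H) : H.index = 4 := by
  have hTn : -T = T := neg_eq_of_add_eq_zero_left h2
  have key : ∀ i j : Fin 4, (![0, T, R, R + T] : Fin 4 → G) i - ![0, T, R, R + T] j ∈ H → i = j := by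
    have n1 : ∀ x ∉ H, -x ∉ H := fun x hx h => hx (neg_mem_iff.1 h)
    have a1 := n1 _ hT
    have a2 := n1 _ hR
    have a3 := n1 _ hRT
    have e4 : T - R = -(R + T) := by
      rw [neg_add, hTn]; abel
    have e5 : R - T = R + T := by rw [sub_eq_add_neg, hTn]
    intro i j hij
    fin_cases i <;> fin_cases j <;> first
      | rfl
      | (exfalso
         simp at hij
         first
          | exact hT hij
          | exact hR hij
          | exact hRT hij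
          | exact a1 hij
          | exact a2 hij
          | exact a3 hij
          | exact a3 (by rw [neg_add_rev]; exact hij)
          | (rw [e4] at hij; exact a3 hij)
          | (rw [e5] at hij; exact hRT hij)
          | exact a2 (by rw [show -R = T - (R + T) by abel]; exact hij)
          | exact a1 (by rw [show -T = R - (R + T) by abel]; exact hij))
  rw [AddSubgroup.index, ← Nat.card_eq_of_bijective (α := Fin 4)
    (fun i => (QuotientAddGroup.mk ((![0, T, R, R + T] : Fin 4 → G) i) : G ⧸ H)),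
    Nat.card_eq_fintype_card, Fintype.card_fin]
  constructor
  · intro i j hij
    simp only at hij
    rw [QuotientAddGroup.eq, ← neg_mem_iff] at hij
    apply key
    convert hij using 1
    abel
  · intro q
    induction q using QuotientAddGroup.induction_on with
    | H P =>
      rcases hs P with h | h | h | h
      · refine ⟨0, ?_⟩
        simp only
        rw [QuotientAddGroup.eq]
        simpa using h
      · refine ⟨1, ?_⟩
        simp only
        rw [QuotientAddGroup.eq]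
        show -T + P ∈ H
        rwa [hTn, add_comm]
      · refine ⟨2, ?_⟩
        simp only
        rw [QuotientAddGroup.eq]
        show -R + P ∈ H
        rwa [add_comm, ← sub_eq_add_neg]
      · refine ⟨3, ?_⟩
        simp only
        rw [QuotientAddGroup.eq]
        show -(R + T) + P ∈ H
        rw [neg_add, hTn]
        convert h using 1
        abel

end abstract_index

section seventeen

variable [Fact (Nat.Prime 17)] {W : WeierstrassCurve ℤ} {N : ℤ}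

theorem t_n17 : ‖(17 : ℚ_[17])‖ = 1 / 17 := by
  have := Padic.norm_p (p := 17)
  simpa using this

theorem t_lt17 {x : ℚ_[17]} (h : ‖x‖ < 1) : ‖x‖ ≤ 1 / 17 := by
  have := norm_le_inv 17 h
  simpa using this

theorem nz {x : ℚ_[17]} (hx : x ≠ 0) : ‖x‖ = (17 : ℝ) ^ (-x.valuation) := by
  have := Padic.norm_eq_zpow_neg_valuation hx
  exact_mod_cast this

theorem lt_iff {x : ℚ_[17]} (hx : x ≠ 0) : ‖x‖ < 1 ↔ 0 < x.valuation := by
  rw [nz hx]
  constructor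
  · intro h
    by_contra hc
    have : (1 : ℝ) ≤ (17 : ℝ) ^ (-x.valuation) := one_le_zpow₀ (by norm_num) (by omega)
    linarith
  · intro h
    exact zpow_lt_one_of_neg₀ (by norm_num) (by omega)

theorem inj17 {a b : ℤ} (h : (17 : ℝ) ^ a = (17 : ℝ) ^ b) : a = b :=
  zpow_right_injective₀ (by norm_num) (by norm_num) h

/-- at `17` the points outside `E⁰` are those with `|X| < 1` -/
theorem mem17 (h : IsJ 0 W N) (hN : ¬ (17 : ℤ) ∣ N) {P : PtP W 17} {X Y : ℚ_[17]}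
    (hP : At (N : ℚ_[17]) P X Y) : P ∉ E0 W 17 ↔ ‖X‖ < 1 := by
  have hW := isK (q := 17) h
  have he := hP.eqn hW
  have hmi := nint (q := 17) N
  have l17 : ‖(17 : ℚ_[17])‖ < 1 := by rw [t_n17]; norm_num
  have i2 : ‖(2 : ℚ_[17])‖ ≤ 1 := by exact_mod_cast nnat (K := ℚ_[17]) 2
  have i3 : ‖(3 : ℚ_[17])‖ ≤ 1 := by exact_mod_cast nnat (K := ℚ_[17]) 3
  have i17 : ‖(17 : ℚ_[17])‖ ≤ 1 := by exact_mod_cast nnat (K := ℚ_[17]) 17
  have i34 : ‖(34 : ℚ_[17])‖ ≤ 1 := by exact_mod_cast nnat (K := ℚ_[17]) 34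
  have i30 : ‖(30 : ℚ_[17])‖ ≤ 1 := by exact_mod_cast nnat (K := ℚ_[17]) 30
  have i60 : ‖(60 : ℚ_[17])‖ ≤ 1 := by exact_mod_cast nnat (K := ℚ_[17]) 60
  have u30 : ‖(30 : ℚ_[17])‖ = 1 := by
    have := unit_int (q := 17) (n := 30) (by norm_num)
    exact_mod_cast this
  have uN : ‖(N : ℚ_[17])‖ = 1 := unit_int (q := 17) (by exact_mod_cast hN)
  rw [mem_E0 h (by norm_num) hP]
  constructor
  · rintro ⟨hX, hY, hF⟩
    have h1 : ‖30 * N * X ^ 2‖ < 1 := by
      have e : 30 * N * X ^ 2 = 3 * (Y * Y) - X * (3 * X ^ 2 + 60 * N * X + 289 * (N : ℚ_[17]) ^ 2) -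
        17 * (34 * N ^ 2 * X) := by
        linear_combination -3 * he
      rw [e]
      refine lsub (lsub (lmul i3 (lmul hY.le hY)) (lmul hX hF)) (lmul' l17 ?_)
      exact nmul (nmul i34 (npow hmi 2)) hX
    rw [norm_mul, norm_mul, u30, uN, one_mul, one_mul] at h1
    exact sq_lt h1
  · intro hU
    have hX := hU.le
    refine ⟨hX, ?_, ?_⟩
    · apply sq_lt
      rw [he]
      refine lmul' hU (nadd (nadd (npow hX 2) (nmul (nmul i30 hmi) hX)) ?_)
      have : (289 : ℚ_[17]) = 17 * 17 := by norm_num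
      rw [this]
      exact nmul (nmul i17 i17) (npow hmi 2)
    · have e : 3 * X ^ 2 + 60 * N * X + 289 * (N : ℚ_[17]) ^ 2 = (3 * X + 60 * N) * X +
        17 * (17 * (N : ℚ_[17]) ^ 2) := by ring
      rw [e]
      exact ladd (lmul (nadd (nmul i3 hX) (nmul i60 hmi)) hU)
        (lmul' l17 (nmul i17 (npow hmi 2)))

/-- odd valuation of `X` -/
def Od (N : ℤ) (P : PtP W 17) : Prop :=
  ∃ X Y : ℚ_[17], At (N : ℚ_[17]) P X Y ∧ X ≠ 0 ∧ Odd X.valuation

theorem n289 : ‖(289 : ℚ_[17])‖ = 1 / 17 * (1 / 17) := by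
  have : (289 : ℚ_[17]) = 17 * 17 := by norm_num
  rw [this, norm_mul, t_n17]

theorem val_one (h : IsJ 0 W N) (hN : ¬ (17 : ℤ) ∣ N) {P : PtP W 17} {X Y : ℚ_[17]}
    (hP : At (N : ℚ_[17]) P X Y) (hX : X ≠ 0) (ho : Odd X.valuation) : X.valuation = 1 := by
  have hW := isK (q := 17) h
  have he := hP.eqn hW
  have hmi := nint (q := 17) N
  have uN : ‖(N : ℚ_[17])‖ = 1 := unit_int (q := 17) (by exact_mod_cast hN)
  have i30 : ‖(30 : ℚ_[17])‖ ≤ 1 := by exact_mod_cast nnat (K := ℚ_[17]) 30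
  have i289 : ‖(289 : ℚ_[17])‖ ≤ 1 := by exact_mod_cast nnat (K := ℚ_[17]) 289
  have hnX := nz hX
  have hXp : 0 < ‖X‖ := norm_pos_iff.2 hX
  obtain ⟨v, hv⟩ : ∃ v, v = X.valuation := ⟨_, rfl⟩
  rw [← hv] at ho hnX ⊢
  rcases lt_trichotomy v 1 with hlt | heq | hgt
  · -- `v ≤ 0`, odd, so negative
    exfalso
    have hv0 : v ≤ -1 := by
      obtain ⟨k, hk⟩ := ho
      omega
    have hX1 : 1 < ‖X‖ := by
      rw [hnX]
      exact one_lt_zpow₀ (by norm_num) (by omega)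
    have hb : ‖30 * N * X + 289 * (N : ℚ_[17]) ^ 2‖ < ‖X ^ 2‖ := by
      have h1 : ‖30 * N * X‖ ≤ ‖X‖ := by
        rw [norm_mul]
        calc ‖30 * (N : ℚ_[17])‖ * ‖X‖ ≤ 1 * ‖X‖ :=
              mul_le_mul_of_nonneg_right (nmul i30 hmi) hXp.le
          _ = ‖X‖ := one_mul _
      have h2 : ‖289 * (N : ℚ_[17]) ^ 2‖ ≤ ‖X‖ := (nmul i289 (npow hmi 2)).trans hX1.le
      refine lt_of_le_of_lt ((IsUltrametricDist.norm_add_le_max _ _).trans (max_le h1 h2)) ?_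
      rw [norm_pow]
      nlinarith
    have h3 : ‖Y‖ ^ 2 = ‖X‖ ^ 3 := by
      rw [← norm_pow, he]
      have e : X ^ 2 + 30 * N * X + 289 * (N : ℚ_[17]) ^ 2 =
        X ^ 2 + (30 * N * X + 289 * (N : ℚ_[17]) ^ 2) := by ring
      rw [e, norm_mul, norm_eq_of_lt hb, norm_pow]
      ring
    have hY : Y ≠ 0 := by
      rintro rfl
      rw [norm_zero] at h3
      have : 0 < ‖X‖ ^ 3 := by positivity
      rw [← h3] at this
      norm_num at this
    rw [nz hY, hnX, ← zpow_natCast, ← zpow_natCast, ← zpow_mul, ← zpow_mul] at h3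
    have h4 := inj17 h3
    push_cast at h4
    obtain ⟨k, hk⟩ := ho
    omega
  · exact heq
  · exfalso
    have hv3 : 3 ≤ v := by
      obtain ⟨k, hk⟩ := ho
      omega
    have hX3 : ‖X‖ ≤ (17 : ℝ) ^ (-3 : ℤ) := by
      rw [hnX]
      exact zpow_le_zpow_right₀ (by norm_num) (by omega)
    have hX1 : ‖X‖ ≤ 1 := hX3.trans (by norm_num)
    have hb : ‖X ^ 2 + 30 * N * X‖ < ‖289 * (N : ℚ_[17]) ^ 2‖ := by
      have e : X ^ 2 + 30 * N * X = (X + 30 * N) * X := by ring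
      rw [e, norm_mul, norm_mul, norm_pow, uN, n289]
      calc ‖X + 30 * (N : ℚ_[17])‖ * ‖X‖ ≤ 1 * ‖X‖ :=
              mul_le_mul_of_nonneg_right (nadd hX1 (nmul i30 hmi)) hXp.le
          _ = ‖X‖ := one_mul _
          _ ≤ (17 : ℝ) ^ (-3 : ℤ) := hX3
          _ < 1 / 17 * (1 / 17) * 1 ^ 2 := by norm_num
    have h3 : ‖Y‖ ^ 2 = ‖X‖ * (17 : ℝ) ^ (-2 : ℤ) := by
      rw [← norm_pow, he]
      have e : X ^ 2 + 30 * N * X + 289 * (N : ℚ_[17]) ^ 2 =
        289 * (N : ℚ_[17]) ^ 2 + (X ^ 2 + 30 * N * X) := by ring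
      rw [e, norm_mul, norm_eq_of_lt hb, norm_mul, norm_pow, uN, n289]
      norm_num
    have hY : Y ≠ 0 := by
      rintro rfl
      rw [norm_zero] at h3
      have : 0 < ‖X‖ * (17 : ℝ) ^ (-2 : ℤ) := by positivity
      rw [← h3] at this
      norm_num at this
    rw [nz hY, hnX, ← zpow_natCast, ← zpow_mul, ← zpow_add₀ (by norm_num)] at h3
    have h4 := inj17 h3
    push_cast at h4
    obtain ⟨k, hk⟩ := ho
    omega

/-- there is a point with odd valuation only if `N` is a square mod `17` -/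
theorem jac_of_Od (h : IsJ 0 W N) (hN : ¬ (17 : ℤ) ∣ N) {P : PtP W 17} (hO : Od N P) :
    jacobiSym N 17 = 1 := by
  obtain ⟨X, Y, hP, hX, ho⟩ := hO
  have hW := isK (q := 17) h
  have he := hP.eqn hW
  have hmi := nint (q := 17) N
  have uN : ‖(N : ℚ_[17])‖ = 1 := unit_int (q := 17) (by exact_mod_cast hN)
  have v1 := val_one h hN hP hX ho
  have nX : ‖X‖ = 1 / 17 := by
    rw [nz hX, v1]
    norm_num
  have h17 : (17 : ℚ_[17]) ≠ 0 := by norm_num
  have n30 : ‖(30 : ℚ_[17])‖ = 1 := by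
    have := unit_int (q := 17) (n := 30) (by norm_num)
    exact_mod_cast this
  have l17 : ‖(17 : ℚ_[17])‖ < 1 := by rw [t_n17]; norm_num
  obtain ⟨u, rfl⟩ : ∃ u : ℚ_[17], X = 17 * u := ⟨X / 17, by field_simp⟩
  obtain ⟨w, rfl⟩ : ∃ w : ℚ_[17], Y = 17 * u * w := ⟨Y / (17 * u), by rw [mul_div_cancel₀ _ hX]⟩
  have hu0 : u ≠ 0 := fun h0 => hX (by rw [h0, mul_zero])
  have nu : ‖u‖ = 1 := by
    rw [norm_mul, t_n17] at nX
    linarith
  have e1 : w ^ 2 * u = 17 * u ^ 2 + 30 * N * u + 17 * N ^ 2 := by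
    have hc : (17 : ℚ_[17]) ^ 2 * u ≠ 0 := mul_ne_zero (pow_ne_zero _ h17) hu0
    apply mul_left_cancel₀ hc
    linear_combination he
  have e2 : ‖w ^ 2 - 30 * N‖ < 1 := by
    have : ‖(w ^ 2 - 30 * N) * u‖ < 1 := by
      have e : (w ^ 2 - 30 * N) * u = 17 * (u ^ 2 + N ^ 2) := by
        linear_combination e1
      rw [e]
      exact lmul' l17 (nadd (npow nu.le 2) (npow hmi 2))
    rw [norm_mul, nu, mul_one] at this
    exact this
  have nw : ‖w‖ ≤ 1 := by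
    have h1 : ‖w ^ 2‖ ≤ 1 := by
      have e : w ^ 2 = (w ^ 2 - 30 * N) + 30 * N := by ring
      rw [e]
      exact nadd e2.le (nmul n30.le hmi)
    rw [norm_pow] at h1
    by_contra hc
    rw [not_le] at hc
    have := one_lt_pow₀ hc (n := 2) (by norm_num)
    linarith
  obtain ⟨r, hr⟩ := Pool.Agent.H468.X15.exists_close nw (δ := 1) one_pos
  have nr := nint (q := 17) r
  have e3 : ‖((r ^ 2 - 30 * N : ℤ) : ℚ_[17])‖ < 1 := by
    have e : ((r ^ 2 - 30 * N : ℤ) : ℚ_[17]) = (w ^ 2 - 30 * N) - (w + r) * (w - r) := by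
      push_cast
      ring
    rw [e]
    exact lsub e2 (lmul (nadd nw nr) hr)
  have e4 : (17 : ℤ) ∣ r ^ 2 - 30 * N := by
    have := Padic.norm_intCast_lt_one_iff.1 e3
    exact_mod_cast this
  have hr0 : ¬ (17 : ℤ) ∣ r := by
    intro h0
    apply hN
    have h1 : (17 : ℤ) ∣ 30 * N := by
      have h2 : (17 : ℤ) ∣ r ^ 2 := Dvd.dvd.pow h0 two_ne_zero
      have := dvd_sub h2 e4
      simpa using this
    exact (Int.Prime.dvd_mul' (by norm_num) h1).resolve_left (by norm_num)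
  have e5 : jacobiSym (30 * N) 17 = jacobiSym (r ^ 2) 17 := by
    rw [jacobiSym.mod_left (30 * N) 17, jacobiSym.mod_left (r ^ 2) 17]
    congr 1
    push_cast
    omega
  have e6 : jacobiSym (r ^ 2) 17 = 1 := by
    apply jacobiSym.sq_one'
    rw [Int.gcd_comm]
    have : IsCoprime (17 : ℤ) r := (Int.prime_iff_natAbs_prime.2 (by norm_num)).coprime_iff_not_dvd.2 hr0
    exact_mod_cast Int.isCoprime_iff_gcd_eq_one.1 this
  rw [e6, jacobiSym.mul_left] at e5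
  have e7 : jacobiSym 30 17 = 1 := by norm_num
  rw [e7, one_mul] at e5
  exact e5

/-- a point with odd valuation -/
theorem exists_Od (h : IsJ 0 W N) (hN : ¬ (17 : ℤ) ∣ N) (hj : jacobiSym N 17 = 1) :
    ∃ R : PtP W 17, Od N R := by
  have hW := isK (q := 17) h
  have h2 : (2 : ℚ_[17]) ≠ 0 := two_ne_zero
  obtain ⟨t, ht⟩ : ∃ t : ℤ, t = 17 + 30 * N + 17 * N ^ 2 := ⟨_, rfl⟩
  have h30 : ¬ (17 : ℤ) ∣ 30 * N := fun h1 =>
    hN ((Int.Prime.dvd_mul' (by norm_num) h1).resolve_left (by norm_num))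
  have hmod : t % 17 = (30 * N) % 17 := by omega
  have ht17 : ¬ (17 : ℤ) ∣ t := by omega
  have hjt : jacobiSym t 17 = 1 := by
    rw [jacobiSym.mod_left t 17]
    push_cast
    rw [hmod]
    have := jacobiSym.mod_left (30 * N) 17
    push_cast at this
    rw [← this, jacobiSym.mul_left, hj]
    norm_num
  obtain ⟨z, hz⟩ := Pool.Agent.H468.X15.sq_of_jac (p := 17) (by norm_num) (u := t)
    (by exact_mod_cast ht17) hjt
  have hz0 : z ≠ 0 := by
    rintro rfl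
    rw [mul_zero] at hz
    have : t ≠ 0 := fun h0 => ht17 (by rw [h0]; exact dvd_zero _)
    exact this (by exact_mod_cast hz)
  have h17 : (17 : ℚ_[17]) ≠ 0 := by norm_num
  have htq : (t : ℚ_[17]) = 17 + 30 * N + 17 * N ^ 2 := by
    rw [ht]
    push_cast
    ring
  obtain ⟨R, hR⟩ := exists_pt hW h2 (X := 17) (Y := 17 * z) (by
    rw [htq] at hz
    linear_combination (-289) * hz) (Or.inl (mul_ne_zero h17 hz0))
  refine ⟨R, 17, 17 * z, hR, h17, ?_⟩
  have h1 := nz h17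
  rw [t_n17] at h1
  have h3 : (17 : ℝ) ^ (-1 : ℤ) = (17 : ℝ) ^ (-(17 : ℚ_[17]).valuation) := by
    rw [← h1]
    norm_num
  have h4 := inj17 h3
  exact ⟨0, by omega⟩

end seventeen

theorem t_ITS0 : S_ITS0 := by
  intro W N _ h hN
  have h2 : (2 : ℚ_[17]) ≠ 0 := two_ne_zero
  have h17 : (17 : ℚ_[17]) ≠ 0 := by norm_num
  have hW := isK (q := 17) h
  have hN0 : (N : ℚ_[17]) ≠ 0 := by
    have : N ≠ 0 := fun h0 => hN (by rw [h0]; exact dvd_zero _)
    exact_mod_cast this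
  have uN : ‖(N : ℚ_[17])‖ = 1 := unit_int (q := 17) (by exact_mod_cast hN)
  have n289N : ‖289 * (N : ℚ_[17]) ^ 2‖ = (17 : ℝ) ^ (-2 : ℤ) := by
    rw [norm_mul, norm_pow, uN, n289]
    norm_num
  obtain ⟨T, hT⟩ := exists_pt hW h2 (X := 0) (Y := 0) (by ring) (Or.inr (by
    have : 3 * (0 : ℚ_[17]) ^ 2 + 60 * N * 0 + 289 * (N : ℚ_[17]) ^ 2 = 289 * (N : ℚ_[17]) ^ 2 := by ring
    rw [this]
    exact mul_ne_zero (by norm_num) (pow_ne_zero _ hN0)))
  have hTT := two_tors hW h2 hT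
  have hTn : T ∉ E0 W 17 := (mem17 h hN hT).2 (by rw [norm_zero]; norm_num)
  -- odd valuation
  have hO1 : ∀ P : PtP W 17, Od N P → P ∉ E0 W 17 ∧ P + T ∉ E0 W 17 := by
    rintro P ⟨X, Y, hP, hX, ho⟩
    have v1 := val_one h hN hP hX ho
    have nX : ‖X‖ = (17 : ℝ) ^ (-1 : ℤ) := by rw [nz hX, v1]
    refine ⟨(mem17 h hN hP).2 (by rw [nX]; norm_num), ?_⟩
    obtain ⟨X3, Y3, h3, h4⟩ := hP.addT hW h2 hT hX
    rw [mem17 h hN h3]
    have h5 := congrArg norm h4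
    rw [norm_mul, n289N, nX] at h5
    have h6 : ‖X3‖ = (17 : ℝ)⁻¹ := by
      norm_num at h5 ⊢
      linarith
    rw [h6]
    norm_num
  have hO2 : ∀ P : PtP W 17, ¬ Od N P → P ∈ E0 W 17 ∨ P + T ∈ E0 W 17 := by
    intro P hO
    by_cases hP : P ∈ E0 W 17
    · exact Or.inl hP
    right
    have hP0 : P ≠ 0 := fun h0 => hP (by rw [h0]; exact zero_mem _)
    obtain ⟨X, Y, hat⟩ := exists_at (N : ℚ_[17]) hP0
    have hU := (mem17 h hN hat).1 hP
    by_cases hX : X = 0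
    · have he := hat.eqn hW
      have hY : Y = 0 := by
        rw [hX, zero_mul] at he
        exact pow_eq_zero_iff two_ne_zero |>.1 he
      rw [hY, hX] at hat
      rw [hat.ext h2 hT, hTT]
      exact AddSubgroup.zero_mem _
    · have hv := (lt_iff hX).1 hU
      have hv2 : 2 ≤ X.valuation := by
        have hne : ¬ Odd X.valuation := fun ho => hO ⟨X, Y, hat, hX, ho⟩
        rw [Int.not_odd_iff_even] at hne
        obtain ⟨k, hk⟩ := hne
        omega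
      obtain ⟨X3, Y3, h3, h4⟩ := hat.addT hW h2 hT hX
      by_contra hcon
      have h5 := (mem17 h hN h3).1 hcon
      have h6 := congrArg norm h4
      rw [norm_mul, n289N] at h6
      have h7 : ‖X‖ ≤ (17 : ℝ) ^ (-2 : ℤ) := by
        rw [nz hX]
        exact zpow_le_zpow_right₀ (by norm_num) (by omega)
      have h8 : 0 < (17 : ℝ) ^ (-2 : ℤ) := by positivity
      have h9 : ‖X3‖ * ‖X‖ ≤ ‖X3‖ * (17 : ℝ) ^ (-2 : ℤ) :=
        mul_le_mul_of_nonneg_left h7 (norm_nonneg _)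
      have h10 : ‖X3‖ * (17 : ℝ) ^ (-2 : ℤ) < 1 * (17 : ℝ) ^ (-2 : ℤ) :=
        mul_lt_mul_of_pos_right h5 h8
      rw [h6] at h9
      linarith
  have hO3 : ∀ P P' : PtP W 17, Od N P → Od N P' → ¬ Od N (P + P') := by
    rintro P P' ⟨X, Y, hP, hX, ho⟩ ⟨X', Y', hP', hX', ho'⟩ ⟨X3, Y3, hP3, hX3, ho3⟩
    obtain ⟨Z, Y4, s, hZ, hs⟩ := hP.prod hW hP' hP3.ne_zero
    have hZX : Z = X3 := by
      obtain ⟨x, y, hn, e1, e2, e3⟩ := hZ
      obtain ⟨x', y', hn', e1', e2', e3'⟩ := hP3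
      rw [e1] at e1'
      injection e1' with e4 e5
      rw [e2, e2', e4]
    rw [hZX] at hs
    have hs0 : s ≠ 0 := by
      rintro rfl
      have : X * X' * X3 ≠ 0 := mul_ne_zero (mul_ne_zero hX hX') hX3
      apply this
      rw [hs]
      ring
    have h5 := congrArg norm hs
    rw [norm_mul, norm_mul, norm_pow, nz hX, nz hX', nz hX3, nz hs0, ← zpow_natCast, ← zpow_mul,
      ← zpow_add₀ (by norm_num), ← zpow_add₀ (by norm_num)] at h5
    have h6 := inj17 h5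
    obtain ⟨a, ha⟩ := ho
    obtain ⟨b, hb⟩ := ho'
    obtain ⟨c, hc⟩ := ho3
    push_cast at h6
    omega
  have hO4 : ∀ P : PtP W 17, Od N P → Od N (-P) := by
    rintro P ⟨X, Y, hP, hX, ho⟩
    exact ⟨X, -Y, hP.neg hW, hX, ho⟩
  split_ifs with hj
  · obtain ⟨R, hR⟩ := exists_Od h hN hj
    obtain ⟨r1, r2⟩ := hO1 R hR
    rw [Pool.Agent.Y700.tam]
    apply index_four (E0 W 17) T R hTT hTn r1 r2
    intro P
    by_cases hP : Od N P
    · have h3 := hO3 P (-R) hP (hO4 R hR)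
      rw [← sub_eq_add_neg] at h3
      rcases hO2 _ h3 with h4 | h4
      · exact Or.inr (Or.inr (Or.inl h4))
      · exact Or.inr (Or.inr (Or.inr h4))
    · rcases hO2 _ hP with h4 | h4
      · exact Or.inl h4
      · exact Or.inr (Or.inl h4)
  · rw [Pool.Agent.Y700.tam, AddSubgroup.index_eq_two_iff_exists_notMem_and]
    refine ⟨T, hTn, fun P => ?_⟩
    exact (hO2 P (fun hP => hj (jac_of_Od h hN hP))).symm

end Pool.Agent.H743.X17.QITS0
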