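import Pool.Agent.H743.X17.IsoStm

/-!
# I17 LAND: an integral: the substitution t = x + q/x + p
-/

set_option autoImplicit false

open scoped Classical
open MeasureTheory Set

namespace Pool.Agent.H743.X17

namespace LANDaux

/-- the substitution -/
noncomputable def ph (p q x : ℝ) : ℝ := x + p + q / x

lemma deriv_ph {p q x : ℝ} (hx : x ≠ 0) : HasDerivAt (ph p q) (1 - q / x ^ 2) x := by
  have h1 : HasDerivAt (fun x : ℝ => x + p) 1 x := (hasDerivAt_id x).add_const p
  have h2 : HasDerivAt (fun x : ℝ => q / x) (- q / x ^ 2) x := by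
    have := (hasDerivAt_inv hx).const_mul q
    have e : (fun x : ℝ => q / x) = fun y => q * y⁻¹ := by
      funext y; rw [div_eq_mul_inv]
    rw [e]
    have e2 : - q / x ^ 2 = q * -(x ^ 2)⁻¹ := by rw [neg_div, div_eq_mul_inv, mul_neg]
    rw [e2]
    exact this
  have h3 := h1.add h2
  have e : 1 - q / x ^ 2 = 1 + - q / x ^ 2 := by rw [neg_div]; ring
  rw [e]
  exact h3

lemma inj_aux {p q x y : ℝ} (hx : 0 < x) (hy : 0 < y) (hxy : x * y ≠ q)
    (h : ph p q x = ph p q y) : x = y := by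
  unfold ph at h
  have h1 : (x - y) * (x * y - q) = 0 := by
    have h2 : x + q / x = y + q / y := by linarith
    have h3 : (x + q / x) * (x * y) = (y + q / y) * (x * y) := by rw [h2]
    have h4 : (x + q / x) * (x * y) = x ^ 2 * y + q * y := by field_simp
    have h5 : (y + q / y) * (x * y) = x * y ^ 2 + q * x := by field_simp
    rw [h4, h5] at h3
    linear_combination h3
  rcases mul_eq_zero.1 h1 with h2 | h2
  · linarith
  · exact absurd (by linarith) hxy

variable {p q s : ℝ}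

lemma key (hs : 0 < s) (hq : s ^ 2 = q) (hp : -(2 * s) < p) {x : ℝ} (hx : 0 < x) (hxs : x ≠ s) :
    |1 - q / x ^ 2| • (1 / Real.sqrt (ph p q x * ((ph p q x - p) ^ 2 - 4 * q))) =
      1 / Real.sqrt (x * (x ^ 2 + p * x + q)) := by
  have hpos : 0 < x ^ 2 + p * x + q := by
    rw [← hq]
    nlinarith [sq_nonneg (x - s), mul_pos hx hs]
  have h1 : ph p q x = (x ^ 2 + p * x + q) / x := by
    unfold ph; field_simp
  have h2 : (ph p q x - p) ^ 2 - 4 * q = (x - q / x) ^ 2 := by
    unfold ph; field_simp; ring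
  have h3 : 1 - q / x ^ 2 = (x - q / x) / x := by field_simp
  have h4 : x - q / x ≠ 0 := by
    intro h
    have : x ^ 2 = s ^ 2 := by
      rw [hq]
      have : x = q / x := by linarith
      field_simp at this
      linarith
    rw [sq_eq_sq₀ hx.le hs.le] at this
    exact hxs this
  have h5 : 0 < |x - q / x| := abs_pos.2 h4
  have h6 : 0 < (x ^ 2 + p * x + q) / x := div_pos hpos hx
  rw [h2, h1, h3, smul_eq_mul, Real.sqrt_mul h6.le, Real.sqrt_sq_eq_abs, abs_div, abs_of_pos hx]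
  have h7 : Real.sqrt (x * (x ^ 2 + p * x + q)) = x * Real.sqrt ((x ^ 2 + p * x + q) / x) := by
    have e : x * (x ^ 2 + p * x + q) = x ^ 2 * ((x ^ 2 + p * x + q) / x) := by field_simp
    rw [e, Real.sqrt_mul (sq_nonneg x), Real.sqrt_sq hx.le]
  rw [h7]
  have h8 : 0 < Real.sqrt ((x ^ 2 + p * x + q) / x) := Real.sqrt_pos.2 h6
  generalize Real.sqrt ((x ^ 2 + p * x + q) / x) = r at h8 ⊢
  generalize |x - q / x| = w at h5 ⊢
  field_simp

lemma im1 (hs : 0 < s) (hq : s ^ 2 = q) : ph p q '' Ioi s = Ioi (p + 2 * s) := by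
  ext t
  constructor
  · rintro ⟨x, hx, rfl⟩
    rw [mem_Ioi] at hx ⊢
    have hx0 : 0 < x := hs.trans hx
    unfold ph
    have : 0 < (x - s) ^ 2 / x := div_pos (by nlinarith) hx0
    have e : (x - s) ^ 2 / x = x + q / x - 2 * s := by rw [← hq]; field_simp; ring
    linarith
  · intro ht
    rw [mem_Ioi] at ht
    set u := t - p with hu
    have hu2 : 2 * s < u := by linarith
    have hd : 0 < u ^ 2 - 4 * q := by rw [← hq]; nlinarith
    have hsd := Real.sqrt_pos.2 hd
    have hsq := Real.sq_sqrt hd.le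
    refine ⟨(u + Real.sqrt (u ^ 2 - 4 * q)) / 2, ?_, ?_⟩
    · rw [mem_Ioi]; linarith
    · have h0 : 0 < (u + Real.sqrt (u ^ 2 - 4 * q)) / 2 := by linarith
      unfold ph
      have : q / ((u + Real.sqrt (u ^ 2 - 4 * q)) / 2) = (u - Real.sqrt (u ^ 2 - 4 * q)) / 2 := by
        rw [div_eq_iff h0.ne']
        nlinarith
      rw [this]
      linarith

lemma im2 (hs : 0 < s) (hq : s ^ 2 = q) : ph p q '' Ioo 0 s = Ioi (p + 2 * s) := by
  ext t
  constructor
  · rintro ⟨x, ⟨hx0, hx⟩, rfl⟩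
    rw [mem_Ioi]
    unfold ph
    have : 0 < (x - s) ^ 2 / x := div_pos (by nlinarith) hx0
    have e : (x - s) ^ 2 / x = x + q / x - 2 * s := by rw [← hq]; field_simp; ring
    linarith
  · intro ht
    rw [mem_Ioi] at ht
    set u := t - p with hu
    have hu2 : 2 * s < u := by linarith
    have hd : 0 < u ^ 2 - 4 * q := by rw [← hq]; nlinarith
    have hsd := Real.sqrt_pos.2 hd
    have hsq := Real.sq_sqrt hd.le
    have hlt : Real.sqrt (u ^ 2 - 4 * q) < u := by
      rw [Real.sqrt_lt' (by linarith)]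
      nlinarith [pow_pos hs 2]
    have hgt : u - 2 * s < Real.sqrt (u ^ 2 - 4 * q) := by
      apply Real.lt_sqrt_of_sq_lt
      rw [← hq]
      nlinarith
    refine ⟨(u - Real.sqrt (u ^ 2 - 4 * q)) / 2, ⟨by linarith, by linarith⟩, ?_⟩
    have h0 : 0 < (u - Real.sqrt (u ^ 2 - 4 * q)) / 2 := by linarith
    unfold ph
    have : q / ((u - Real.sqrt (u ^ 2 - 4 * q)) / 2) = (u + Real.sqrt (u ^ 2 - 4 * q)) / 2 := by
      rw [div_eq_iff h0.ne']
      nlinarith
    rw [this]
    linarith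

end LANDaux

open LANDaux in
theorem t_LAND : S_LAND := by
  intro p q hq0 hp
  set s := Real.sqrt q with hs'
  have hs : 0 < s := Real.sqrt_pos.2 hq0
  have hq : s ^ 2 = q := Real.sq_sqrt hq0.le
  set F : ℝ → ℝ := fun t => 1 / Real.sqrt (t * ((t - p) ^ 2 - 4 * q)) with hF
  set Gx : ℝ → ℝ := fun x => 1 / Real.sqrt (x * (x ^ 2 + p * x + q)) with hG
  have inj1 : InjOn (ph p q) (Ioi s) := by
    intro x hx y hy h
    rw [mem_Ioi] at hx hy
    refine inj_aux (hs.trans hx) (hs.trans hy) ?_ h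
    rw [← hq]
    nlinarith
  have inj2 : InjOn (ph p q) (Ioo 0 s) := by
    intro x hx y hy h
    refine inj_aux hx.1 hy.1 ?_ h
    rw [← hq]
    have h1 := hx.1
    have h2 := hx.2
    have h3 := hy.1
    have h4 := hy.2
    nlinarith
  have d1 : ∀ x ∈ Ioi s, HasDerivWithinAt (ph p q) (1 - q / x ^ 2) (Ioi s) x := fun x hx =>
    (deriv_ph (hs.trans hx).ne').hasDerivWithinAt
  have d2 : ∀ x ∈ Ioo 0 s, HasDerivWithinAt (ph p q) (1 - q / x ^ 2) (Ioo 0 s) x := fun x hx =>
    (deriv_ph hx.1.ne').hasDerivWithinAt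
  have e1 : EqOn (fun x => |1 - q / x ^ 2| • F (ph p q x)) Gx (Ioi s) := fun x hx =>
    key hs hq hp (hs.trans hx) (ne_of_gt hx)
  have e2 : EqOn (fun x => |1 - q / x ^ 2| • F (ph p q x)) Gx (Ioo 0 s) := fun x hx =>
    key hs hq hp hx.1 (ne_of_lt hx.2)
  have i1 : ∫ t in Ioi (p + 2 * s), F t = ∫ x in Ioi s, Gx x := by
    rw [← im1 (p := p) hs hq, integral_image_eq_integral_abs_deriv_smul measurableSet_Ioi d1 inj1 F]
    exact setIntegral_congr_fun measurableSet_Ioi e1
  have i2 : ∫ t in Ioi (p + 2 * s), F t = ∫ x in Ioo 0 s, Gx x := by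
    rw [← im2 (p := p) hs hq, integral_image_eq_integral_abs_deriv_smul measurableSet_Ioo d2 inj2 F]
    exact setIntegral_congr_fun measurableSet_Ioo e2
  have j1 : IntegrableOn F (Ioi (p + 2 * s)) ↔ IntegrableOn Gx (Ioi s) := by
    rw [← im1 (p := p) hs hq,
      integrableOn_image_iff_integrableOn_abs_deriv_smul measurableSet_Ioi d1 inj1 F]
    exact integrableOn_congr_fun e1 measurableSet_Ioi
  have j2 : IntegrableOn F (Ioi (p + 2 * s)) ↔ IntegrableOn Gx (Ioo 0 s) := by
    rw [← im2 (p := p) hs hq,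
      integrableOn_image_iff_integrableOn_abs_deriv_smul measurableSet_Ioo d2 inj2 F]
    exact integrableOn_congr_fun e2 measurableSet_Ioo
  change ∫ x in Ioi (0 : ℝ), Gx x = 2 * ∫ t in Ioi (p + 2 * s), F t
  by_cases hint : IntegrableOn F (Ioi (p + 2 * s))
  · have g1 := j1.1 hint
    have g2 := j2.1 hint
    have hun : Ioc 0 s ∪ Ioi s = Ioi 0 := Ioc_union_Ioi_eq_Ioi hs.le
    have g3 : IntegrableOn Gx (Ioc 0 s) := by
      rw [integrableOn_Ioc_iff_integrableOn_Ioo]; exact g2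
    rw [← hun, setIntegral_union (Ioc_disjoint_Ioi le_rfl) measurableSet_Ioi g3 g1,
      integral_Ioc_eq_integral_Ioo, ← i1, ← i2]
    ring
  · have g1 : ¬ IntegrableOn Gx (Ioi s) := fun h => hint (j1.2 h)
    have g0 : ¬ IntegrableOn Gx (Ioi 0) := fun h => g1 (h.mono_set (Ioi_subset_Ioi hs.le))
    rw [integral_undef hint, integral_undef g0, mul_zero]

end Pool.Agent.H743.X17
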