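import Pool.Agent.H743.X17.IsoStm
import Pool.Agent.H743.X17.Kit

/-!
# Local images in one coordinate versus two coordinates (project I17 of helper743, helper401)
-/

set_option autoImplicit false

namespace Pool.Agent.H743.X17.QLUV

open Pool.Agent.H743.X17
open Pool.Agent.H468.X15 (hens exists_close norm_four_le norm_four_pos)

/-- the squarefree part -/
theorem sqf {n : ℤ} (hn : n ≠ 0) : ∃ b v : ℤ, n = b ^ 2 * v ∧ Squarefree v := by
  obtain ⟨a, b, hab, ha⟩ := Nat.sq_mul_squarefree n.natAbs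
  have hs : n = n.sign * (n.natAbs : ℤ) := (Int.sign_mul_natAbs n).symm
  refine ⟨b, n.sign * a, ?_, ?_⟩
  · calc n = n.sign * (n.natAbs : ℤ) := hs
      _ = n.sign * ((b ^ 2 * a : ℕ) : ℤ) := by rw [hab]
      _ = (b : ℤ) ^ 2 * (n.sign * a) := by
        push_cast
        ring
  · have h1 : (n.sign * (a : ℤ)).natAbs = a := by
      rw [Int.natAbs_mul, Int.natAbs_sign_of_ne_zero hn, one_mul, Int.natAbs_natCast]
    rw [← Int.squarefree_natAbs, h1]
    exact ha

/-- the statement over a general field -/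
theorem gen {K : Type} [Field K] [CharZero K] {A B u : ℤ} (hA : A ≠ 0) (hB : B ≠ 0)
    (hAB : A ≠ B) (hu : u ≠ 0) (h1 : LS A B 1 1 K)
    (h2 : ∀ z : K, z ≠ 0 → ∃ v : ℤ, Squarefree v ∧ IsSquare (z * v)) :
    LU A B u K ↔ ∃ v : ℤ, Squarefree v ∧ LS A B u v K := by
  have hA' : (A : K) ≠ 0 := by exact_mod_cast hA
  have hB' : (B : K) ≠ 0 := by exact_mod_cast hB
  have hu' : (u : K) ≠ 0 := by exact_mod_cast hu
  have hAB' : (A : K) - B ≠ 0 := by
    rw [sub_ne_zero]
    exact_mod_cast hAB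
  constructor
  · rintro (h | h | ⟨x, y, hx, hxy, hsq⟩)
    · refine ⟨1, squarefree_one, LS.congr (u := 1) (v := 1) (by simp) (by simp) ?_ (by simp) h1⟩
      rw [one_mul]
      exact h
    · obtain ⟨v, hv, hsv⟩ := h2 A hA'
      refine ⟨v, hv, LS.congr (u := A * B * 1) (v := A * 1) ?_ ?_ ?_ ?_ (LS.shiftA hA' hB' h1)⟩
      · push_cast
        rw [mul_one]
        exact mul_ne_zero hA' hB'
      · push_cast
        rw [mul_one]
        exact hA'
      · rw [mul_one]
        exact h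
      · push_cast
        rw [mul_one]
        exact hsv
    · by_cases hy : y = 0
      · rw [hy, zero_pow two_ne_zero] at hxy
        rcases mul_eq_zero.1 hxy.symm with h3 | h3
        · rcases mul_eq_zero.1 h3 with h4 | h4
          · exact absurd h4 hx
          · have hxA : x = -A := by linear_combination h4
            obtain ⟨v, hv, hsv⟩ := h2 (A * (A - B)) (mul_ne_zero hA' hAB')
            refine ⟨v, hv, LS.congr (u := -A * 1) (v := A * (A - B) * 1) ?_ ?_ ?_ ?_
              (LS.shiftB hA' hAB' h1)⟩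
            · push_cast
              rw [mul_one]
              exact neg_ne_zero.2 hA'
            · push_cast
              rw [mul_one]
              exact mul_ne_zero hA' hAB'
            · rw [hxA] at hsq
              push_cast
              rw [mul_one]
              exact hsq
            · push_cast
              rw [mul_one]
              exact hsv
        · have hxB : x = -B := by linear_combination h3
          obtain ⟨v, hv, hsv⟩ := h2 (A - B) hAB'
          refine ⟨v, hv, LS.congr (u := -B * 1) (v := (A - B) * 1) ?_ ?_ ?_ ?_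
              (LS.shiftC hB' hAB' h1)⟩
          · push_cast
            rw [mul_one]
            exact neg_ne_zero.2 hB'
          · push_cast
            rw [mul_one]
            exact hAB'
          · rw [hxB] at hsq
            push_cast
            rw [mul_one]
            exact hsq
          · push_cast
            rw [mul_one]
            exact hsv
      · obtain ⟨n0, nA, nB⟩ := LS.ne hy hxy
        obtain ⟨v, hv, hsv⟩ := h2 (x + A) nA
        exact ⟨v, hv, x, y, hy, hxy, hsq, hsv⟩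
  · rintro ⟨v, -, x, y, hy, hxy, hs1, -⟩
    exact Or.inr (Or.inr ⟨x, y, (LS.ne hy hxy).1, hxy, hs1⟩)

/-- every class of `ℚ_p` modulo squares contains a squarefree integer -/
theorem padic_class {p : ℕ} [hp : Fact p.Prime] (z : ℚ_[p]) (hz : z ≠ 0) :
    ∃ v : ℤ, Squarefree v ∧ IsSquare (z * v) := by
  have hpz : (p : ℚ_[p]) ≠ 0 := by exact_mod_cast hp.out.ne_zero
  have hp1 : (1 : ℝ) < p := by exact_mod_cast hp.out.one_lt
  have hp0 : (0 : ℝ) < p := by linarith
  -- an even power of `p` makes it integral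
  obtain ⟨k, hk⟩ : ∃ k : ℕ, ‖z * ((p : ℚ_[p]) ^ k) ^ 2‖ ≤ 1 := by
    refine ⟨(-z.valuation).toNat, ?_⟩
    have hv := Padic.norm_eq_zpow_neg_valuation hz
    rw [norm_mul, norm_pow, norm_pow, Padic.norm_p, hv, inv_pow, inv_pow, ← pow_mul,
      ← div_eq_mul_inv, div_le_one (by positivity), ← zpow_natCast]
    refine zpow_le_zpow_right₀ hp1.le ?_
    push_cast
    have := Int.self_le_toNat (-z.valuation)
    have h0 : (0 : ℤ) ≤ ((-z.valuation).toNat : ℤ) := Int.natCast_nonneg _
    linarith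
  set z' : ℚ_[p] := z * ((p : ℚ_[p]) ^ k) ^ 2 with hz'
  have hz'0 : z' ≠ 0 := mul_ne_zero hz (pow_ne_zero _ (pow_ne_zero _ hpz))
  have hn0 : 0 < ‖z'‖ := norm_pos_iff.2 hz'0
  obtain ⟨n, hn⟩ := exists_close hk (δ := ‖z'‖ * ‖(4 : ℚ_[p])‖) (mul_pos hn0 norm_four_pos)
  have he : ‖((n : ℚ_[p]) - z') / z'‖ < ‖(4 : ℚ_[p])‖ := by
    rw [norm_div, div_lt_iff₀ hn0, mul_comm, ← norm_neg, neg_sub]
    exact hn
  obtain ⟨q, hq⟩ := hens he
  have hq' : (n : ℚ_[p]) = z' * (q * q) := by
    rw [← hq]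
    field_simp
    ring
  have hq0 : q ≠ 0 := by
    rintro rfl
    rw [mul_zero] at hq
    have h1 : ((n : ℚ_[p]) - z') / z' = -1 := by linear_combination hq
    rw [h1, norm_neg, norm_one] at he
    exact absurd norm_four_le (not_le.2 he)
  have hn0' : n ≠ 0 := by
    rintro rfl
    rw [Int.cast_zero] at hq'
    exact (mul_ne_zero hz'0 (mul_ne_zero hq0 hq0)) hq'.symm
  obtain ⟨b, v, hbv, hv⟩ := sqf hn0'
  have hb0 : (b : ℚ_[p]) ≠ 0 := by
    have h1 : b ≠ 0 := by
      rintro rfl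
      exact hn0' (by rw [hbv]; ring)
    exact_mod_cast h1
  refine ⟨v, hv, z * (p : ℚ_[p]) ^ k * q / b, ?_⟩
  have hbv' : (n : ℚ_[p]) = (b : ℚ_[p]) ^ 2 * v := by
    rw [hbv]
    push_cast
    rfl
  have hv' : (v : ℚ_[p]) = z' * (q * q) / (b : ℚ_[p]) ^ 2 := by
    rw [← hq', hbv']
    field_simp
  rw [hv', hz']
  field_simp

/-- the real case -/
theorem real_class (z : ℝ) (hz : z ≠ 0) : ∃ v : ℤ, Squarefree v ∧ IsSquare (z * v) := by
  rcases lt_or_gt_of_ne hz with h | h
  · refine ⟨-1, ?_, ?_⟩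
    · rw [← Int.squarefree_natAbs]
      exact squarefree_one
    · push_cast
      rw [mul_neg, mul_one]
      exact ⟨√(-z), (Real.mul_self_sqrt (by linarith)).symm⟩
  · refine ⟨1, squarefree_one, ?_⟩
    push_cast
    rw [mul_one]
    exact ⟨√z, (Real.mul_self_sqrt h.le).symm⟩

theorem real_one (A B : ℤ) : LS A B 1 1 ℝ := by
  have hx : (0 : ℝ) < |(A : ℝ)| + |(B : ℝ)| + 1 := by positivity
  have hxA : (0 : ℝ) < |(A : ℝ)| + |(B : ℝ)| + 1 + A := by
    have h1 := neg_abs_le (A : ℝ)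
    have h2 := abs_nonneg (B : ℝ)
    linarith
  have hxB : (0 : ℝ) < |(A : ℝ)| + |(B : ℝ)| + 1 + B := by
    have h1 := neg_abs_le (B : ℝ)
    have h2 := abs_nonneg (A : ℝ)
    linarith
  have hpos := mul_pos (mul_pos hx hxA) hxB
  refine ⟨|(A : ℝ)| + |(B : ℝ)| + 1, √((|(A : ℝ)| + |(B : ℝ)| + 1) *
    (|(A : ℝ)| + |(B : ℝ)| + 1 + A) * (|(A : ℝ)| + |(B : ℝ)| + 1 + B)),
    (Real.sqrt_pos.2 hpos).ne', Real.sq_sqrt hpos.le, ?_, ?_⟩
  · rw [Int.cast_one, mul_one]
    exact ⟨√(|(A : ℝ)| + |(B : ℝ)| + 1), (Real.mul_self_sqrt hx.le).symm⟩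
  · rw [Int.cast_one, mul_one]
    exact ⟨√(|(A : ℝ)| + |(B : ℝ)| + 1 + A), (Real.mul_self_sqrt hxA.le).symm⟩

/-- **LUV** -/
theorem t_LUV : S_LUV ∧ S_LUVR :=
  ⟨fun _ _ A B _ hA hB hAB hu => gen hA hB hAB hu (LS.one A B) padic_class,
    fun A B _ hA hB hAB hu => gen hA hB hAB hu (real_one A B) real_class⟩

end Pool.Agent.H743.X17.QLUV
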