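import Pool.Agent.H743.X17.IsoStm
import Pool.Agent.H743.X17.SYSB
import Pool.Agent.H743.X17.SYSF

/-!
# I17 UCNT0: number of classes, j = 0 (for helper743, by helper297)
-/

set_option autoImplicit false

open scoped Classical

namespace Pool.Agent.H743.X17.QUCNT0

open Pool.Agent.H743.X17
open Pool.Agent.H743.X17.QSYSF (AddH V Lm G A4 A8 sg)

/-! ### linear algebra -/

theorem count (R K : Finset ℕ) (B : ℕ → ℕ → ZMod 2)
    (hind : ∀ c : ℕ → ZMod 2, (∀ p ∈ R, ∑ k ∈ K, B k p * c k = 0) → ∀ k ∈ K, c k = 0) :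
    K.card ≤ R.card ∧
      Nat.card {x : R → ZMod 2 // ∀ k ∈ K, ∑ p : R, B k p * x p = 0} = 2 ^ (R.card - K.card) := by
  let M : Matrix K R (ZMod 2) := Matrix.of fun k p => B k p
  have hli : LinearIndependent (ZMod 2) M.row := by
    rw [Fintype.linearIndependent_iff]
    intro g hg
    have h1 := hind (fun n => if h : n ∈ K then g ⟨n, h⟩ else 0) (by
      intro p hp
      have h2 := congrFun hg ⟨p, hp⟩
      rw [Finset.sum_apply] at h2
      rw [← Finset.sum_coe_sort K]
      refine Eq.trans ?_ h2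
      refine Finset.sum_congr rfl fun k _ => ?_
      simp only [Pi.smul_apply, smul_eq_mul, Finset.coe_mem, dite_true]
      rw [mul_comm]
      rfl)
    intro i
    have h3 := h1 i i.2
    simpa using h3
  have hrank : M.rank = K.card := by
    rw [hli.rank_matrix]
    exact Fintype.card_coe K
  have hsum := LinearMap.finrank_range_add_finrank_ker M.mulVecLin
  have hr : Module.finrank (ZMod 2) (LinearMap.range M.mulVecLin) = K.card := hrank
  rw [hr, Module.finrank_fintype_fun_eq_card, Fintype.card_coe] at hsum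
  refine ⟨by omega, ?_⟩
  have hk : Nat.card (LinearMap.ker M.mulVecLin) = 2 ^ (R.card - K.card) := by
    rw [Module.natCard_eq_pow_finrank (K := ZMod 2)]
    congr 1
    · simp
    · omega
  rw [← hk]
  refine Nat.card_congr (Equiv.subtypeEquivRight fun x => ?_)
  rw [LinearMap.mem_ker]
  constructor
  · intro h
    funext k
    exact h k k.2
  · intro h k hk
    exact congrFun h ⟨k, hk⟩

/-! ### the characters of a supported class -/

/-- the primes dividing `u` are ramified -/
def Supp (m u : ℤ) : Prop := ∀ p : ℕ, p.Prime → (p : ℤ) ∣ u → p ∈ RS m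

theorem F_supp {F : ℤ → ZMod 2} (hF : AddH F) {m u : ℤ} (hu : u ≠ 0) (hs : Supp m u) :
    F u = sg u * F (-1) + ∑ q ∈ RS m, V q u * F q := by
  rw [QSYSF.F_abs hF hu, QSYSF.expand hF (abs_pos.2 hu) (RS m) (fun q hq => QSYSF.RS_prime hq)]
  · congr 1
    refine Finset.sum_congr rfl fun q hq => ?_
    rw [QSYSF.V_abs (QSYSF.RS_prime hq) hu]
  · intro q hq hqS
    rw [QSYSF.V_abs hq hu]
    apply QSYSF.V_zero hq
    intro h
    exact hqS (hs q hq h)

theorem eq_odd {m u : ℤ} (hm : Squarefree m) (hu : u ≠ 0) (hs : Supp m u) {q : ℕ} (hq : q ∈ RS m)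
    (h2 : q ≠ 2) (hal : al m q = 0) :
    ∑ p ∈ RS m, LL m p q * V p u = Lm q u + V q u * Lm q m := by
  have hqq := QSYSF.RS_prime hq
  have : Fact q.Prime := ⟨hqq⟩
  rw [QSYSF.col hm (fun p => V p u) hq h2, QSYSF.G_odd h2, hal, zero_mul, add_zero]
  have h1 := F_supp (QSYSF.Lm_addH q) hu hs
  have h3 : Lm q (-1) = 0 := by
    rw [QSYSF.Lm_neg_one hqq h2, ← QSYSF.al_odd hm hq h2, hal]
  rw [h3, mul_zero, zero_add] at h1
  rw [← h1]

theorem eq_two {m u : ℤ} (hm : Squarefree m) (hu : Squarefree u) (hs : Supp m u) (hq : 2 ∈ RS m)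
    (hal : al m 2 = 0) :
    ∑ p ∈ RS m, LL m p 2 * V p u = h2 u m := by
  have : Fact (Nat.Prime 2) := ⟨Nat.prime_two⟩
  have h4 : A4 m = 0 := by rw [← QSYSF.al_two hm hq, hal]
  rw [QSYSF.col2 hm (fun p => V p u) hq, h4, zero_mul, zero_add]
  have h1 := F_supp QSYSF.A8_addH hu.ne_zero hs
  rw [QSYSF.A8_neg_one, mul_zero, zero_add] at h1
  unfold h2
  have e1 : ind 2 u = V 2 u := QSYSF.sf_ind hu
  have e2 : ind 2 m = V 2 m := QSYSF.sf_ind hm
  rw [QSYSF.sf_e4 hu, QSYSF.sf_e4 hm, QSYSF.sf_e8 hu, QSYSF.sf_e8 hm, e1, e2, h4, ← h1]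
  ring

theorem eq_nu {m u : ℤ} (hu : u ≠ 0) (hs : Supp m u) (h17 : 17 ∉ RS m) :
    ∑ p ∈ RS m, nu p * V p u = Lm 17 u := by
  have : Fact (Nat.Prime 17) := ⟨by norm_num⟩
  have h1 := F_supp (QSYSF.Lm_addH 17) hu hs
  have h3 : Lm 17 (-1) = 0 := by
    rw [QSYSF.Lm_neg_one (by norm_num) (by norm_num), QSYSF.A4_17]
  rw [h3, mul_zero, zero_add] at h1
  rw [h1]
  refine Finset.sum_congr rfl fun p hp => ?_
  have hpp := QSYSF.RS_prime hp
  have hne : p ≠ 17 := fun h => h17 (h ▸ hp)
  rw [QSYSF.Lm_unit (QSYSF.ndvd (by norm_num) hpp (Ne.symm hne)), ← QSYSB.aj17 hpp hne, mul_comm]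
  rfl

/-! ### the equations -/

/-- the functionals -/
def Bf (m : ℤ) (k p : ℕ) : ZMod 2 := if k = 0 then nu p else LL m p k

theorem Bf_ne {m : ℤ} {k : ℕ} (h : k ≠ 0) (p : ℕ) : Bf m k p = LL m p k := if_neg h

theorem Bf_zero {m : ℤ} (p : ℕ) : Bf m 0 p = nu p := if_pos rfl

/-- their indices -/
noncomputable def Kf (m : ℤ) : Finset ℕ :=
  (RS m).filter (fun q => al m q = 0) ∪ (if 0 < m then {0} else ∅)

theorem zero_not (m : ℤ) : 0 ∉ RS m := fun h => Nat.not_prime_zero (QSYSF.RS_prime h)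

theorem mem_Kf {m : ℤ} {k : ℕ} :
    k ∈ Kf m ↔ (k ∈ RS m ∧ al m k = 0) ∨ (0 < m ∧ k = 0) := by
  unfold Kf
  rw [Finset.mem_union, Finset.mem_filter]
  constructor
  · rintro (h | h)
    · exact Or.inl h
    · split_ifs at h with h0
      · exact Or.inr ⟨h0, Finset.mem_singleton.1 h⟩
      · exact absurd h (Finset.notMem_empty _)
  · rintro (h | ⟨h0, rfl⟩)
    · exact Or.inl h
    · right
      rw [if_pos h0]
      exact Finset.mem_singleton_self 0

theorem rt_pos {m : ℤ} (hr : Rt m) (h : 0 < m) : jacobiSym m 17 = 1 ∧ ¬ (17 : ℤ) ∣ m := by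
  rcases hr with ⟨-, h1⟩ | ⟨h1, -⟩
  · refine ⟨h1, fun hd => ?_⟩
    have h2 : jacobiSym m 17 = 0 := by
      rw [jacobiSym.eq_zero_iff_not_coprime]
      intro hc
      have h3 : (17 : ℤ) ∣ (Int.gcd m (17 : ℕ) : ℤ) := Int.dvd_coe_gcd hd (by norm_num)
      rw [hc] at h3
      norm_num at h3
    rw [h2] at h1
    exact zero_ne_one h1
  · omega

theorem lam17 {m : ℤ} (hd : ¬ (17 : ℤ) ∣ m) : lam 17 m = 0 ↔ jacobiSym m 17 = 1 := by
  unfold lam up
  have hd' : ¬ ((17 : ℕ) : ℤ) ∣ m := hd
  rw [if_neg hd']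
  split_ifs with h
  · exact ⟨fun _ => h, fun _ => rfl⟩
  · exact ⟨fun h' => absurd h' one_ne_zero, fun h' => absurd h' h⟩

theorem not_RS17 {m : ℤ} (hm : Squarefree m) (hd : ¬ (17 : ℤ) ∣ m) : 17 ∉ RS m := by
  intro h
  rcases ((QSYSF.mem_RS hm.ne_zero 17).1 h).2 with h1 | h1
  · exact hd h1
  · omega

/-- the conditions in terms of the equations -/
theorem uc_iff {m u : ℤ} (hm : Squarefree m) (hr : Rt m) (hu : Squarefree u) :
    UC0 m u ↔ Supp m u ∧ ∀ k ∈ Kf m, ∑ p ∈ RS m, Bf m k p * V p u = 0 := by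
  have hu0 := hu.ne_zero
  constructor
  · intro h
    have hs : Supp m u := by
      intro p hp hpu
      rw [QSYSF.mem_RS hm.ne_zero]
      refine ⟨hp, ?_⟩
      by_cases hpm : (p : ℤ) ∣ m
      · exact Or.inl hpm
      · right
        by_cases hp2 : p = 2
        · subst hp2
          exact ⟨rfl, fun h4 => h.o2 h4 hpu⟩
        · exfalso
          by_cases hp17 : p = 17
          · subst hp17
            exact (h.s17 hpm).1 hpu
          · exact h.good p hp hp2 hp17 hpm hpu
    refine ⟨hs, fun k hk => ?_⟩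
    rcases mem_Kf.1 hk with ⟨hkR, hal⟩ | ⟨h0, rfl⟩
    · have hk0 : k ≠ 0 := fun h0 => zero_not m (h0 ▸ hkR)
      have hkk := QSYSF.RS_prime hkR
      have : Fact k.Prime := ⟨hkk⟩
      simp only [Bf_ne hk0]
      by_cases hk2 : k = 2
      · subst hk2
        rw [eq_two hm hu hs hkR hal]
        apply h.e2 ((QSYSF.two_RS hm).1 hkR)
        rw [QSYSF.sf_e4 hm, ← QSYSF.al_two hm hkR, hal]
      · rw [eq_odd hm hu0 hs hkR hk2 hal, ← QSYSF.sf_lam hu, ← QSYSF.sf_lam hm, ← QSYSF.sf_ind hu]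
        have hd := QSYSF.dvd_of_RS hm hkR hk2
        have h1 : lam k u = ind k u * lam k m := by
          by_cases hk17 : k = 17
          · subst hk17
            exact h.r17 hd
          · apply h.odd k hkk hk2 hk17 hd
            rw [QSYSF.sf_lam (QSYSF.sf_neg squarefree_one), QSYSF.Lm_neg_one hkk hk2,
              ← QSYSF.al_odd hm hkR hk2, hal]
        rw [h1, QSYSF.z2]
    · obtain ⟨hj, hd⟩ := rt_pos hr h0
      simp only [Bf_zero]
      rw [eq_nu hu0 hs (not_RS17 hm hd)]
      have : Fact (Nat.Prime 17) := ⟨by norm_num⟩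
      rw [← QSYSF.sf_lam hu]
      exact (h.s17 hd).2 ((lam17 hd).2 hj)
  · rintro ⟨hs, hE⟩
    have hodd : ∀ p : ℕ, p.Prime → p ≠ 2 → (p : ℤ) ∣ m → lam p (-1) = 0 →
        lam p u = ind p u * lam p m := by
      intro p hp hp2 hpm hl
      have : Fact p.Prime := ⟨hp⟩
      have hpR : p ∈ RS m := (QSYSF.mem_RS hm.ne_zero p).2 ⟨hp, Or.inl hpm⟩
      have hal : al m p = 0 := by
        rw [QSYSF.al_odd hm hpR hp2, ← QSYSF.Lm_neg_one hp hp2,
          ← QSYSF.sf_lam (QSYSF.sf_neg squarefree_one), hl]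
      have h1 := hE p (mem_Kf.2 (Or.inl ⟨hpR, hal⟩))
      simp only [Bf_ne hp.ne_zero] at h1
      rw [eq_odd hm hu0 hs hpR hp2 hal, ← QSYSF.sf_lam hu, ← QSYSF.sf_lam hm,
        ← QSYSF.sf_ind hu] at h1
      exact QSYSF.dd2 _ _ h1
    refine ⟨?_, ?_, ?_, ?_, ?_, ?_⟩
    · intro p hp hp2 _ hpm hpu
      rcases ((QSYSF.mem_RS hm.ne_zero p).1 (hs p hp hpu)).2 with h1 | h1
      · exact hpm h1
      · exact hp2 h1.1
    · intro p hp hp2 _ hpm hl
      exact hodd p hp hp2 hpm hl
    · intro hd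
      refine ⟨fun hpu => not_RS17 hm hd (hs 17 (by norm_num) hpu), fun hl => ?_⟩
      have hj := (lam17 hd).1 hl
      have h0 : 0 < m := by
        rcases hr with ⟨h1, -⟩ | ⟨-, h1⟩
        · exact h1
        · exact absurd hj h1
      have h1 := hE 0 (mem_Kf.2 (Or.inr ⟨h0, rfl⟩))
      simp only [Bf_zero] at h1
      rw [eq_nu hu0 hs (not_RS17 hm hd)] at h1
      have : Fact (Nat.Prime 17) := ⟨by norm_num⟩
      rw [QSYSF.sf_lam hu]
      exact h1
    · intro hd
      apply hodd 17 (by norm_num) (by norm_num) hd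
      have : Fact (Nat.Prime 17) := ⟨by norm_num⟩
      rw [QSYSF.sf_lam (QSYSF.sf_neg squarefree_one), QSYSF.Lm_neg_one (by norm_num) (by norm_num),
        QSYSF.A4_17]
    · intro h4 hd
      exact (QSYSF.two_RS hm).1 (hs 2 Nat.prime_two hd) h4
    · intro h4 he
      have h2R := (QSYSF.two_RS hm).2 h4
      have hal : al m 2 = 0 := by
        rw [QSYSF.al_two hm h2R, ← QSYSF.sf_e4 hm, he]
      have h1 := hE 2 (mem_Kf.2 (Or.inl ⟨h2R, hal⟩))
      simp only [Bf_ne two_ne_zero] at h1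
      rw [eq_two hm hu hs h2R hal] at h1
      exact h1

/-! ### independence -/

theorem indep {m : ℤ} (hm : Squarefree m) (hm1 : m ≠ 1) (hS : Sys m) (hr : Rt m)
    (c : ℕ → ZMod 2) (hc : ∀ p ∈ RS m, ∑ k ∈ Kf m, Bf m k p * c k = 0) : ∀ k ∈ Kf m, c k = 0 := by
  -- the part supported on the columns
  obtain ⟨y, hy⟩ : ∃ y : ℕ → ZMod 2, y = fun q => if q ∈ RS m ∧ al m q = 0 then c q else 0 :=
    ⟨_, rfl⟩
  have hyal : ∀ q, al m q * y q = 0 := by
    intro q
    rw [hy]
    simp only
    split_ifs with h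
    · rw [h.2, zero_mul]
    · rw [mul_zero]
  have hsum : ∀ p ∈ RS m, ∑ q ∈ RS m, LL m p q * y q = if 0 < m then nu p * c 0 else 0 := by
    intro p hp
    have h1 := hc p hp
    unfold Kf at h1
    rw [Finset.sum_union] at h1
    · have h2 : ∑ k ∈ (RS m).filter (fun q => al m q = 0), Bf m k p * c k =
          ∑ q ∈ RS m, LL m p q * y q := by
        rw [Finset.sum_filter]
        refine Finset.sum_congr rfl fun q hq => ?_
        have hq0 : q ≠ 0 := fun h0 => zero_not m (h0 ▸ hq)
        rw [hy]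
        simp only
        rw [Bf_ne hq0]
        by_cases hal : al m q = 0
        · rw [if_pos hal, if_pos ⟨hq, hal⟩]
        · rw [if_neg hal, if_neg (fun h => hal h.2), mul_zero]
      rw [h2] at h1
      have h3 := QSYSF.dd2 _ _ h1
      rw [h3]
      split_ifs with h0
      · rw [Finset.sum_singleton, Bf_zero]
      · rw [Finset.sum_empty]
    · split_ifs
      · rw [Finset.disjoint_singleton_right]
        intro h
        exact zero_not m (Finset.mem_filter.1 h).1
      · exact Finset.disjoint_empty_right _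
  -- the case without the symbol of 17
  have hzero : (∀ p ∈ RS m, ∑ q ∈ RS m, LL m p q * y q = 0) →
      ∀ k ∈ RS m, al m k = 0 → c k = 0 := by
    intro h k hk hal
    have h1 := hS (fun _ => 0) y rfl (by
      intro p hp
      rw [mul_zero, zero_add]
      exact h p (Finset.mem_of_mem_erase hp)) (by
      intro q hq
      rw [hyal q, add_zero]
      apply Finset.sum_eq_zero
      intro p _
      rw [mul_zero])
    have h2 := (h1 k hk).2
    rw [hy] at h2
    simp only at h2
    rwa [if_pos ⟨hk, hal⟩] at h2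
  by_cases h0 : 0 < m
  · obtain ⟨hj, hd⟩ := rt_pos hr h0
    have h17 := not_RS17 hm hd
    have hc0 : c 0 = 0 := by
      rcases QSYSB.z2 (c 0) with h | h
      · exact h
      · exfalso
        -- the solution `(w, y + 1)`
        have h1 := hS (fun p => if p ∈ RS m then QSYSB.w m p else 0) (fun q => y q + 1)
          (if_neg h17) (by
            intro p hp
            have hpR := Finset.mem_of_mem_erase hp
            simp only [mul_add, mul_one, Finset.sum_add_distrib]
            rw [hsum p hpR, if_pos h0, h, mul_one, QSYSB.row_zero hpR, if_pos hpR, add_zero]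
            by_cases hp2 : p = 2
            · subst hp2
              rw [QSYSB.nu_two, zero_mul, add_zero]
            · rw [QSYSB.w_odd hp2, mul_one, QSYSF.z2]) (by
            intro q hq
            have h3 : ∑ p ∈ RS m, LL m p q * (if p ∈ RS m then QSYSB.w m p else 0) =
                ∑ p ∈ RS m, QSYSB.w m p * LL m p q := by
              refine Finset.sum_congr rfl fun p hp => ?_
              rw [if_pos hp, mul_comm]
            have h4 : ∑ p ∈ (RS m).erase q, al m p = al m q := by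
              have h5 := QSYSF.sum_al hm
              rw [QSYSF.sg_pos h0, ← Finset.add_sum_erase _ _ hq] at h5
              exact (QSYSF.dd2 _ _ h5).symm
            rw [h3, QSYSB.col_sum hm hq, h4, mul_add, hyal q, zero_add, mul_one, QSYSF.z2sq,
              QSYSF.z2])
        -- a prime divisor of `m`
        obtain ⟨p, hp, hpm⟩ := Nat.exists_prime_and_dvd (n := m.natAbs) (by omega)
        have hpm' : (p : ℤ) ∣ m := Int.natCast_dvd.2 hpm
        have hpR : p ∈ RS m := (QSYSF.mem_RS hm.ne_zero p).2 ⟨hp, Or.inl hpm'⟩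
        have h6 := (h1 p hpR).1
        simp only [if_pos hpR] at h6
        unfold QSYSB.w at h6
        rw [if_neg] at h6
        · exact one_ne_zero h6
        · rintro ⟨rfl, h7⟩
          have h8 : (2 : ℤ) ∣ m := hpm'
          omega
    intro k hk
    rcases mem_Kf.1 hk with ⟨hkR, hal⟩ | ⟨-, rfl⟩
    · refine hzero (fun p hp => ?_) k hkR hal
      rw [hsum p hp, if_pos h0, hc0, mul_zero]
    · exact hc0
  · intro k hk
    rcases mem_Kf.1 hk with ⟨hkR, hal⟩ | ⟨h0', -⟩
    · refine hzero (fun p hp => ?_) k hkR hal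
      rw [hsum p hp, if_neg h0]
    · exact absurd h0' h0

/-! ### the classes -/

theorem V_neg {u : ℤ} (hu : u ≠ 0) {p : ℕ} (hp : p.Prime) : V p (-u) = V p u := by
  have : Fact p.Prime := ⟨hp⟩
  rw [QSYSF.F_neg (QSYSF.V_addH p) hu, QSYSF.V_neg_one hp, zero_add]

theorem natAbs_eq {m u : ℤ} (hu : Squarefree u) (hs : Supp m u) :
    u.natAbs = ∏ q ∈ (RS m).filter (fun q => V q u = 1), q := by
  have h1 : u.natAbs.primeFactors = (RS m).filter (fun q => V q u = 1) := by
    ext q
    rw [Finset.mem_filter, Nat.mem_primeFactors]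
    constructor
    · rintro ⟨hq, hd, -⟩
      have hd' : (q : ℤ) ∣ u := Int.natCast_dvd.2 hd
      exact ⟨hs q hq hd', QSYSF.V_one hu hq hd'⟩
    · rintro ⟨hq, hv⟩
      have hqq := QSYSF.RS_prime hq
      refine ⟨hqq, ?_, Int.natAbs_ne_zero.2 hu.ne_zero⟩
      by_contra hd
      rw [QSYSF.V_zero hqq (fun h => hd (Int.natCast_dvd.1 h))] at hv
      exact zero_ne_one hv
  rw [← h1]
  exact (Nat.prod_primeFactors_of_squarefree (Int.squarefree_natAbs.2 hu)).symm

/-- the coordinates of a class -/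
noncomputable def coord (m u : ℤ) : Bool × (RS m → ZMod 2) := (decide (u < 0), fun p => V p u)

theorem coord_inj {m u u' : ℤ} (hu : Squarefree u) (hu' : Squarefree u') (hs : Supp m u)
    (hs' : Supp m u') (h : coord m u = coord m u') : u = u' := by
  unfold coord at h
  rw [Prod.mk.injEq] at h
  obtain ⟨h1, h2⟩ := h
  have h3 : u.natAbs = u'.natAbs := by
    rw [natAbs_eq hu hs, natAbs_eq hu' hs']
    apply Finset.prod_congr _ (fun _ _ => rfl)
    apply Finset.filter_congr
    intro q hq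
    have := congrFun h2 ⟨q, hq⟩
    simp only at this
    rw [this]
  rw [decide_eq_decide] at h1
  have := hu.ne_zero
  have := hu'.ne_zero
  omega

theorem surj {m : ℤ} (hm : Squarefree m) (b : Bool) (x : RS m → ZMod 2) :
    ∃ u : ℤ, Squarefree u ∧ Supp m u ∧ coord m u = (b, x) := by
  obtain ⟨x', hx'⟩ : ∃ x' : ℕ → ZMod 2, x' = fun n => if h : n ∈ RS m then x ⟨n, h⟩ else 0 :=
    ⟨_, rfl⟩
  have hpos := QSYSB.U_pos (x := x') hm
  have hsq := QSYSB.U_sqf (x := x') hm
  have hsupp : Supp m (QSYSB.U m x') := fun p hp hd => ((QSYSB.U_up hm hp).2.1 hd).1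
  have hV : (fun p : RS m => V p (QSYSB.U m x')) = x := by
    funext p
    have hpp := QSYSF.RS_prime p.2
    have : Fact (p : ℕ).Prime := ⟨hpp⟩
    rw [← QSYSF.sf_ind hsq, QSYSB.ind_U hm p.2, hx']
    simp
  cases b with
  | false =>
    refine ⟨QSYSB.U m x', hsq, hsupp, ?_⟩
    unfold coord
    rw [hV]
    congr 1
    exact decide_eq_false (not_lt.2 hpos.le)
  | true =>
    refine ⟨-QSYSB.U m x', QSYSF.sf_neg hsq, ?_, ?_⟩
    · intro p hp hd
      exact hsupp p hp ((dvd_neg).1 hd)
    · unfold coord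
      have h1 : (fun p : RS m => V p (-QSYSB.U m x')) = x := by
        rw [← hV]
        funext p
        exact V_neg hpos.ne' (QSYSF.RS_prime p.2)
      rw [h1]
      congr 1
      exact decide_eq_true (by omega)

theorem card_Kf (m : ℤ) :
    (Kf m).card + na m = (RS m).card + (if 0 < m then 1 else 0) := by
  have h1 : (Kf m).card = ((RS m).filter fun q => al m q = 0).card + (if 0 < m then 1 else 0) := by
    unfold Kf
    rw [Finset.card_union_of_disjoint]
    · congr 1
      split_ifs <;> rfl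
    · split_ifs
      · rw [Finset.disjoint_singleton_right]
        intro h
        exact zero_not m (Finset.mem_filter.1 h).1
      · exact Finset.disjoint_empty_right _
  have h2 := Finset.card_filter_add_card_filter_not (s := RS m) (fun q => al m q = 0)
  have h3 : ((RS m).filter fun q => ¬ al m q = 0) = (RS m).filter fun q => al m q = 1 := by
    apply Finset.filter_congr
    intro q _
    rcases QSYSB.z2 (al m q) with h | h <;> rw [h] <;> decide
  rw [h3] at h2
  unfold na
  omega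

end Pool.Agent.H743.X17.QUCNT0

namespace Pool.Agent.H743.X17

open Pool.Agent.H743.X17.QUCNT0
open Pool.Agent.H743.X17.QSYSF (V)

theorem t_UCNT0 : S_UCNT0 := by
  intro m hm hm1 hS hr
  obtain ⟨hle, hcard⟩ := count (RS m) (Kf m) (Bf m) (indep hm hm1 hS hr)
  -- the classes
  have hmem : ∀ u : ℤ, (Squarefree u ∧ UC0 m u) ↔ (Squarefree u ∧ Supp m u ∧
      ∀ k ∈ Kf m, ∑ p ∈ RS m, Bf m k p * V p u = 0) := by
    intro u
    constructor
    · rintro ⟨h1, h2⟩
      exact ⟨h1, (uc_iff hm hr h1).1 h2⟩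
    · rintro ⟨h1, h2⟩
      exact ⟨h1, (uc_iff hm hr h1).2 h2⟩
  let A : Type := {u : ℤ // Squarefree u ∧ UC0 m u}
  let S : Type := {x : RS m → ZMod 2 // ∀ k ∈ Kf m, ∑ p : RS m, Bf m k p * x p = 0}
  let f : A → Bool × S := fun u => ((coord m u.1).1, ⟨(coord m u.1).2, fun k hk => by
    have h1 := ((hmem u.1).1 u.2).2.2 k hk
    rw [← Finset.sum_coe_sort (RS m)] at h1
    exact h1⟩)
  have hf : Function.Bijective f := by
    constructor
    · intro u u' h
      have h1 := (hmem u.1).1 u.2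
      have h2 := (hmem u'.1).1 u'.2
      apply Subtype.ext
      have e1 : (f u).1 = (f u').1 := congrArg Prod.fst h
      have e2 : (f u).2.1 = (f u').2.1 := congrArg (fun t : Bool × S => t.2.1) h
      exact coord_inj h1.1 h2.1 h1.2.1 h2.2.1 (Prod.ext e1 e2)
    · rintro ⟨b, x, hx⟩
      obtain ⟨u, h1, h2, h3⟩ := surj hm b x
      have h4 : Squarefree u ∧ UC0 m u := by
        rw [hmem]
        refine ⟨h1, h2, fun k hk => ?_⟩
        have h5 := hx k hk
        have h6 : (fun p : RS m => V p u) = x := congrArg Prod.snd h3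
        rw [← h6] at h5
        rw [← Finset.sum_coe_sort (RS m)]
        exact h5
      have e1 : (coord m u).1 = b := congrArg Prod.fst h3
      have e2 : (coord m u).2 = x := congrArg Prod.snd h3
      exact ⟨⟨u, h4⟩, Prod.ext e1 (Subtype.ext e2)⟩
  have hfin : Finite A := Finite.of_injective f hf.1
  have hA : Nat.card A = 2 * 2 ^ ((RS m).card - (Kf m).card) := by
    rw [Nat.card_congr (Equiv.ofBijective f hf), Nat.card_prod]
    congr 1
    simp
  refine ⟨hfin, ?_⟩
  have h1 : {u : ℤ | Squarefree u ∧ UC0 m u}.ncard = Nat.card A := rfl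
  rw [h1, hA]
  have h2 := card_Kf m
  split_ifs at h2 ⊢ with h0
  · have h3 : na m = (RS m).card - (Kf m).card + 1 := by omega
    rw [h3, pow_succ, mul_comm]
  · have h3 : na m = (RS m).card - (Kf m).card := by omega
    rw [h3, pow_succ, mul_comm]

end Pool.Agent.H743.X17

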