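import Pool.Agent.H743.X17.IsoStm
import Pool.Agent.H743.X17.SYSB
import Pool.Agent.H743.X17.SYSF

/-!
# UCNT1: the number of the classes with the local conditions of the curve `I¹_m`
-/

set_option autoImplicit false
set_option linter.all false

namespace Pool.Agent.H743.X17.QUCNT1

open Pool.Agent.H743.X17
open Pool.Agent.H743.X17.QSYSF (AddH V Lm A4 A8 G sg)
open Pool.Agent.H743.X17.QSYSB (vq w)

/-! ### linear algebra -/

theorem card_ker {ι J : Type} [Fintype ι] [Fintype J] (A : J → ι → ZMod 2)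
    (h : ∀ c : J → ZMod 2, (∀ q, ∑ j, c j * A j q = 0) → c = 0) :
    Nat.card {y : ι → ZMod 2 // ∀ j, ∑ q, A j q * y q = 0} =
      2 ^ (Fintype.card ι - Fintype.card J) := by
  classical
  haveI : Fact (Nat.Prime 2) := ⟨Nat.prime_two⟩
  set M : Matrix J ι (ZMod 2) := Matrix.of A with hM
  have hli : LinearIndependent (ZMod 2) M.row := by
    rw [Fintype.linearIndependent_iff]
    intro c hc
    have h1 := h c (fun q => by
      have h2 := congrFun hc q
      rw [Finset.sum_apply] at h2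
      exact h2)
    exact fun i => congrFun h1 i
  have hr : Module.finrank (ZMod 2) (LinearMap.range M.mulVecLin) = Fintype.card J :=
    hli.rank_matrix
  have h1 := LinearMap.finrank_range_add_finrank_ker M.mulVecLin
  rw [hr, Module.finrank_fintype_fun_eq_card] at h1
  have h2 : Module.finrank (ZMod 2) (LinearMap.ker M.mulVecLin) =
      Fintype.card ι - Fintype.card J := by omega
  have e : {y : ι → ZMod 2 // ∀ j, ∑ q, A j q * y q = 0} ≃ LinearMap.ker M.mulVecLin :=
    Equiv.subtypeEquivRight fun y => by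
      rw [LinearMap.mem_ker]
      constructor
      · intro hy
        funext j
        exact hy j
      · intro hy j
        exact congrFun hy j
  rw [Nat.card_congr e, Module.natCard_eq_pow_finrank (K := ZMod 2), h2, Nat.card_zmod]

/-- extension by zero -/
noncomputable def ext (s : Finset ℕ) (y : ↥s → ZMod 2) (q : ℕ) : ZMod 2 := by
  classical exact if h : q ∈ s then y ⟨q, h⟩ else 0

theorem ext_mem {s : Finset ℕ} (y : ↥s → ZMod 2) (q : ↥s) : ext s y q = y q := by
  unfold ext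
  rw [dif_pos q.2]

theorem ext_not {s : Finset ℕ} (y : ↥s → ZMod 2) {q : ℕ} (h : q ∉ s) : ext s y q = 0 := by
  unfold ext
  rw [dif_neg h]

open Classical in
theorem sum_ext {s t : Finset ℕ} (hts : t ⊆ s) (f : ℕ → ZMod 2) (y : ↥s → ZMod 2) :
    ∑ q : ↥s, (if (q : ℕ) ∈ t then f q else 0) * y q = ∑ q ∈ t, f q * ext s y q := by
  have h1 : ∑ q : ↥s, (if (q : ℕ) ∈ t then f q else 0) * y q =
      ∑ q : ↥s, (fun q : ℕ => (if q ∈ t then f q else 0) * ext s y q) q := by
    refine Finset.sum_congr rfl fun q _ => ?_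
    simp only
    rw [ext_mem]
  rw [h1, Finset.sum_coe_sort s (fun q : ℕ => (if q ∈ t then f q else 0) * ext s y q)]
  rw [← Finset.sum_subset hts]
  · refine Finset.sum_congr rfl fun q hq => ?_
    rw [if_pos hq]
  · intro q _ hq
    rw [if_neg hq, zero_mul]

/-! ### the representatives -/

/-- the primes which may divide `u` -/
noncomputable def R1 (m : ℤ) : Finset ℕ := by
  classical exact insert 17 (RS m)

theorem mem_R1 {m : ℤ} {q : ℕ} : q ∈ R1 m ↔ q = 17 ∨ q ∈ RS m := by
  classical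
  unfold R1
  rw [Finset.mem_insert]

theorem RS_sub (m : ℤ) : RS m ⊆ R1 m := fun _ h => mem_R1.2 (Or.inr h)

theorem p17 : Nat.Prime 17 := by norm_num

theorem R1_prime {m : ℤ} {q : ℕ} (h : q ∈ R1 m) : q.Prime := by
  rcases mem_R1.1 h with h | h
  · rw [h]; exact p17
  · exact QSYSF.RS_prime h

/-- the class belonging to `y` -/
noncomputable def U (m : ℤ) (y : ℕ → ZMod 2) : ℤ := ∏ q ∈ R1 m, vq m q ^ (y q).val

theorem F_four {F : ℤ → ZMod 2} (hF : AddH F) : F 4 = 0 := by
  have : (4 : ℤ) = 2 * 2 := by norm_num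
  rw [this, hF.sq (by norm_num)]

theorem F_vq {F : ℤ → ZMod 2} (hF : AddH F) {m : ℤ} {q : ℕ} (hq : q.Prime) :
    F (pd m q) = F (vq m q) := by
  by_cases h2 : q = 2
  · subst h2
    rw [QSYSB.pd_two, hF _ _ (by norm_num) (QSYSB.vq_ne hq), F_four hF, zero_add]
  · rw [QSYSB.pd_odd h2, QSYSB.vq_odd h2]

theorem F_U {F : ℤ → ZMod 2} (hF : AddH F) (m : ℤ) (y : ℕ → ZMod 2) :
    F (U m y) = ∑ q ∈ R1 m, y q * F (vq m q) := by
  unfold U
  rw [hF.prod _ _ fun q hq => pow_ne_zero _ (QSYSB.vq_ne (R1_prime hq))]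
  refine Finset.sum_congr rfl fun q hq => ?_
  rw [hF.pow (QSYSB.vq_ne (R1_prime hq))]

theorem U_ne (m : ℤ) (y : ℕ → ZMod 2) : U m y ≠ 0 :=
  Finset.prod_ne_zero_iff.2 fun _ hq => pow_ne_zero _ (QSYSB.vq_ne (R1_prime hq))

theorem vq_dvd (m : ℤ) (q : ℕ) : vq m q ∣ (q : ℤ) := by
  unfold vq
  split_ifs with h1 h2 h3 h4
  · exact ⟨-q, by ring⟩
  · rw [h1]; exact ⟨1, by norm_num⟩
  · rw [h1]; exact ⟨-1, by norm_num⟩
  · exact dvd_rfl
  · exact ⟨-1, by ring⟩

theorem U_sqf (m : ℤ) (y : ℕ → ZMod 2) : Squarefree (U m y) := by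
  unfold U
  apply Finset.squarefree_prod_of_pairwise_isCoprime
  · intro p hp q hq hpq
    have hp' := R1_prime hp
    have hq' := R1_prime hq
    have h1 : IsCoprime (p : ℤ) (q : ℤ) := Nat.isCoprime_iff_coprime.2 ((Nat.coprime_primes hp' hq').2 hpq)
    have h2 : IsCoprime (vq m p) (vq m q) :=
      (h1.of_isCoprime_of_dvd_left (vq_dvd m p)).of_isCoprime_of_dvd_right (vq_dvd m q)
    exact (h2.pow).isRelPrime
  · intro q hq
    have hq' := R1_prime hq
    have h1 : Squarefree (vq m q) := Squarefree.squarefree_of_dvd (vq_dvd m q) (QSYSF.sf_prime hq')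
    rcases QSYSB.z2 (y q) with h | h
    · rw [h]
      have : (0 : ZMod 2).val = 0 := rfl
      rw [this, pow_zero]
      exact squarefree_one
    · rw [h]
      have : (1 : ZMod 2).val = 1 := rfl
      rw [this, pow_one]
      exact h1

/-! ### values of the characters -/

theorem V_vq {m : ℤ} (hm : Squarefree m) {q r : ℕ} (hq : q.Prime) (hr : r ∈ R1 m) :
    V q (vq m r) = if q = r then (if r = 2 then V 2 m else 1) else 0 := by
  haveI : Fact q.Prime := ⟨hq⟩
  haveI : Fact (Nat.Prime 2) := ⟨Nat.prime_two⟩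
  have hrp := R1_prime hr
  have hr0 : (r : ℤ) ≠ 0 := by exact_mod_cast hrp.ne_zero
  by_cases h2 : r = 2
  · subst h2
    have h2R : 2 ∈ RS m := by
      rcases mem_R1.1 hr with h | h
      · exact absurd h (by norm_num)
      · exact h
    have hm1 := (QSYSF.two_RS hm).1 h2R
    rw [← F_vq (QSYSF.V_addH q) hrp, QSYSF.F_pd (QSYSF.V_addH q) hm h2R, QSYSF.V_neg_one hq, mul_zero,
      zero_add, QSYSF.V_prime hq Nat.prime_two, if_pos rfl]
    split_ifs
    · rw [mul_one]
    · rw [mul_zero]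
  · rw [if_neg h2, QSYSB.vq_odd h2]
    have h3 : V q (QSYSB.ep r) = 0 := by
      unfold QSYSB.ep
      split_ifs
      · exact (QSYSF.V_addH q).one
      · exact QSYSF.V_neg_one hq
    have h4 : QSYSB.ep r ≠ 0 := by
      unfold QSYSB.ep
      split_ifs <;> norm_num
    rw [QSYSF.V_addH q _ _ h4 hr0, h3, zero_add, QSYSF.V_prime hq hrp]

theorem V_U {m : ℤ} (hm : Squarefree m) (y : ℕ → ZMod 2) {q : ℕ} (hq : q ∈ R1 m) :
    V q (U m y) = y q * (if q = 2 then V 2 m else 1) := by
  haveI : Fact q.Prime := ⟨R1_prime hq⟩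
  rw [F_U (QSYSF.V_addH q), Finset.sum_eq_single q]
  · rw [V_vq hm (R1_prime hq) hq, if_pos rfl]
  · intro r hr hrq
    rw [V_vq hm (R1_prime hq) hr, if_neg (Ne.symm hrq), mul_zero]
  · intro h
    exact absurd hq h

theorem V_U_not {m : ℤ} (hm : Squarefree m) (y : ℕ → ZMod 2) {q : ℕ} (hq : q.Prime)
    (h : q ∉ R1 m) : V q (U m y) = 0 := by
  haveI : Fact q.Prime := ⟨hq⟩
  rw [F_U (QSYSF.V_addH q)]
  refine Finset.sum_eq_zero fun r hr => ?_
  rw [V_vq hm hq hr, if_neg (by rintro rfl; exact h hr), mul_zero]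

theorem A4_vq {m : ℤ} (hm : Squarefree m) {r : ℕ} (hr : r ∈ R1 m) :
    A4 (vq m r) = if r = 2 then A4 m else 0 := by
  by_cases h2 : r = 2
  · subst h2
    have h2R : 2 ∈ RS m := by
      rcases mem_R1.1 hr with h | h
      · exact absurd h (by norm_num)
      · exact h
    rw [← F_vq QSYSF.A4_addH Nat.prime_two, QSYSF.F_pd QSYSF.A4_addH hm h2R, if_pos rfl,
      QSYSF.al_two hm h2R, QSYSF.A4_neg_one]
    have : A4 ((2 : ℕ) : ℤ) = 0 := QSYSF.A4_two
    rw [this, mul_one, mul_zero, add_zero]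
  · have h1 := QSYSB.vq_mod4 (m := m) (R1_prime hr) h2
    rw [if_neg h2]
    exact QSYSF.A4_zero h1

theorem A4_U {m : ℤ} (hm : Squarefree m) (y : ℕ → ZMod 2) :
    A4 (U m y) = if 2 ∈ RS m then y 2 * A4 m else 0 := by
  rw [F_U QSYSF.A4_addH]
  have h1 : ∀ r ∈ R1 m, y r * A4 (vq m r) = if r = 2 then y 2 * A4 m else 0 := by
    intro r hr
    rw [A4_vq hm hr]
    split_ifs with h
    · rw [h]
    · rw [mul_zero]
  rw [Finset.sum_congr rfl h1, Finset.sum_ite_eq' (R1 m) 2]
  have h2 : 2 ∈ R1 m ↔ 2 ∈ RS m := by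
    rw [mem_R1]
    constructor
    · rintro (h | h)
      · exact absurd h (by norm_num)
      · exact h
    · exact Or.inr
  simp only [h2]

/-- sums over the two sets of primes -/
theorem sum_R1 {m : ℤ} (f : ℕ → ZMod 2) (h : 17 ∉ RS m → f 17 = 0) :
    ∑ q ∈ R1 m, f q = ∑ q ∈ RS m, f q := by
  classical
  unfold R1
  by_cases h17 : 17 ∈ RS m
  · rw [Finset.insert_eq_of_mem h17]
  · rw [Finset.sum_insert h17, h h17, zero_add]

theorem vq17 (m : ℤ) : vq m 17 = 17 := QSYSB.vq17

theorem sg_U {m : ℤ} (hm : Squarefree m) (y : ℕ → ZMod 2) :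
    sg (U m y) = ∑ q ∈ RS m, al m q * y q := by
  rw [F_U QSYSF.sg_addH, sum_R1]
  · refine Finset.sum_congr rfl fun q hq => ?_
    have h1 : sg (vq m q) = al m q := QSYSB.vq_neg_iff
    rw [h1, mul_comm]
  · intro _
    rw [vq17, QSYSF.sg_pos (by norm_num), mul_zero]

theorem G_17 {p : ℕ} (hp : p.Prime) (hne : p ≠ 17) : G p 17 = nu p := by
  haveI : Fact p.Prime := ⟨hp⟩
  by_cases h2 : p = 2
  · subst h2
    rw [QSYSF.G_two, QSYSF.A8_17]
    unfold nu
    rw [if_pos rfl]
  · have h3 : ¬ (p : ℤ) ∣ 17 := by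
      have := QSYSF.ndvd hp p17 hne
      exact_mod_cast this
    unfold nu
    rw [if_neg h2, QSYSF.G_odd h2, QSYSF.Lm_unit h3]

/-- the rows of the Rédei matrix -/
theorem G_U {m : ℤ} (hm : Squarefree m) (y : ℕ → ZMod 2) {p : ℕ} (hp : p ∈ RS m)
    (h : p = 17 ∨ nu p = 0) :
    G p (U m y) = ∑ q ∈ RS m, LL m p q * y q + y p * G p m := by
  have hpp := QSYSF.RS_prime hp
  rw [F_U (QSYSF.G_addH hpp), sum_R1, QSYSF.row hm y hp]
  · have h1 : ∑ q ∈ RS m, y q * G p (vq m q) = ∑ q ∈ RS m, y q * G p (pd m q) := by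
      refine Finset.sum_congr rfl fun q hq => ?_
      rw [F_vq (QSYSF.G_addH hpp) (QSYSF.RS_prime hq)]
    rw [h1]
    have h2 : ∀ a b : ZMod 2, a = a + b + b := by decide
    exact h2 _ _
  · intro h17
    have hne : p ≠ 17 := fun hh => h17 (hh ▸ hp)
    rw [vq17, G_17 hpp hne, h.resolve_left hne, mul_zero]

/-! ### comparison -/

theorem dvd_iff_V {p : ℕ} (hp : p.Prime) {a : ℤ} (ha : Squarefree a) : (p : ℤ) ∣ a ↔ V p a = 1 := by
  haveI : Fact p.Prime := ⟨hp⟩
  rw [← QSYSF.sf_ind ha]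
  unfold ind
  constructor
  · intro h
    rw [if_pos h]
  · intro h
    by_contra hn
    rw [if_neg hn] at h
    exact absurd h (by decide)

theorem eq_of_V {a b : ℤ} (ha : Squarefree a) (hb : Squarefree b)
    (h : ∀ p : ℕ, p.Prime → V p a = V p b) (hs : sg a = sg b) : a = b := by
  have h1 : a.natAbs.primeFactors = b.natAbs.primeFactors := by
    ext p
    rw [Nat.mem_primeFactors, Nat.mem_primeFactors]
    constructor
    · rintro ⟨h1, h2, -⟩
      refine ⟨h1, ?_, Int.natAbs_ne_zero.2 hb.ne_zero⟩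
      rw [← Int.natCast_dvd] at h2 ⊢
      rw [dvd_iff_V h1 hb, ← h p h1, ← dvd_iff_V h1 ha]
      exact h2
    · rintro ⟨h1, h2, -⟩
      refine ⟨h1, ?_, Int.natAbs_ne_zero.2 ha.ne_zero⟩
      rw [← Int.natCast_dvd] at h2 ⊢
      rw [dvd_iff_V h1 ha, h p h1, ← dvd_iff_V h1 hb]
      exact h2
  have h2 : a.natAbs = b.natAbs := by
    rw [← Nat.prod_primeFactors_of_squarefree (Int.squarefree_natAbs.2 ha),
      ← Nat.prod_primeFactors_of_squarefree (Int.squarefree_natAbs.2 hb), h1]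
  have ha0 := ha.ne_zero
  rcases Int.natAbs_eq_natAbs_iff.1 h2 with h3 | h3
  · exact h3
  · exfalso
    rcases lt_or_gt_of_ne ha0 with h4 | h4
    · rw [QSYSF.sg_neg h4, QSYSF.sg_pos (by omega : 0 < b)] at hs
      exact absurd hs (by decide)
    · rw [QSYSF.sg_pos h4, QSYSF.sg_neg (by omega : b < 0)] at hs
      exact absurd hs (by decide)

theorem inj {m : ℤ} (hm : Squarefree m) {y y' : ℕ → ZMod 2} (hy : ∀ q, q ∉ R1 m → y q = 0)
    (hy' : ∀ q, q ∉ R1 m → y' q = 0) (h : U m y = U m y') : y = y' := by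
  funext q
  by_cases hq : q ∈ R1 m
  · have h1 := V_U hm y hq
    have h2 := V_U hm y' hq
    rw [h, h2] at h1
    by_cases hq2 : q = 2
    · subst hq2
      rw [if_pos rfl] at h1
      have h2R : 2 ∈ RS m := by
        rcases mem_R1.1 hq with h | h
        · exact absurd h (by norm_num)
        · exact h
      have hm1 := (QSYSF.two_RS hm).1 h2R
      rcases QSYSF.m4 hm with h4 | h4 | h4
      · exact absurd h4 hm1
      · have h5 : V 2 m = 1 := QSYSF.V_one hm Nat.prime_two (by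
          have : (2 : ℤ) ∣ m := by omega
          exact_mod_cast this)
        rw [h5, mul_one, mul_one] at h1
        exact h1.symm
      · have h5 : A4 m = 1 := by rw [QSYSF.A4_odd (by omega), if_pos h4]
        have h6 := A4_U hm y
        rw [h, A4_U hm y', if_pos h2R, if_pos h2R, h5, mul_one, mul_one] at h6
        exact h6.symm
    · rw [if_neg hq2, mul_one, mul_one] at h1
      exact h1.symm
  · rw [hy q hq, hy' q hq]

/-! ### the condition at two -/

theorem ar (a b : ℤ) (ha : a % 2 = 1) (hb : b % 2 = 1) (P Q : Prop) [Decidable P] [Decidable Q] :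
    ((a % 8 = 1 ∧ ¬ P) ∨ ((P ↔ Q) ∧ (a * b) % 8 = 1)) ↔
    ∃ c : ZMod 2, (if a % 4 = 3 then (1 : ZMod 2) else 0) = c * (if b % 4 = 3 then 1 else 0) ∧
      (if a % 8 = 1 ∨ a % 8 = 7 then (0 : ZMod 2) else 1) =
        c * (if b % 8 = 1 ∨ b % 8 = 7 then 0 else 1) ∧
      (if P then (1 : ZMod 2) else 0) = c * (if Q then 1 else 0) := by
  have ha8 : a % 8 = 1 ∨ a % 8 = 3 ∨ a % 8 = 5 ∨ a % 8 = 7 := by omega
  have hb8 : b % 8 = 1 ∨ b % 8 = 3 ∨ b % 8 = 5 ∨ b % 8 = 7 := by omega
  have ha4 : a % 4 = (a % 8) % 4 := by omega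
  have hb4 : b % 4 = (b % 8) % 4 := by omega
  rw [Int.mul_emod, ha4, hb4]
  by_cases hP : P <;> by_cases hQ : Q <;>
  rcases ha8 with h1 | h1 | h1 | h1 <;> rcases hb8 with h2 | h2 | h2 | h2 <;>
  rw [h1, h2] <;> simp only [hP, hQ, if_true, if_false, not_true, not_false_iff, and_true, and_false,
    iff_true, iff_false, true_and, false_and, or_false, false_or, true_iff, false_iff] <;> decide

theorem e2_iff {m u : ℤ} (hm : Squarefree m) (hu : Squarefree u) :
    ((up 2 u % 8 = 1 ∧ ¬ (2 : ℤ) ∣ u) ∨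
      (((2 : ℤ) ∣ u ↔ (2 : ℤ) ∣ m) ∧ (up 2 u * up 2 m) % 8 = 1)) ↔
    ∃ c : ZMod 2, A4 u = c * A4 m ∧ A8 u = c * A8 m ∧ V 2 u = c * V 2 m := by
  haveI : Fact (Nat.Prime 2) := ⟨Nat.prime_two⟩
  have h1 := (QSYSF.od_spec hu.ne_zero).2
  have h2 := (QSYSF.od_spec hm.ne_zero).2
  rw [← QSYSF.sf_od hu] at h1
  rw [← QSYSF.sf_od hm] at h2
  rw [ar _ _ h1 h2]
  rw [← QSYSF.sf_e4 hu, ← QSYSF.sf_e4 hm, ← QSYSF.sf_e8 hu, ← QSYSF.sf_e8 hm, ← QSYSF.sf_ind hu,
    ← QSYSF.sf_ind hm]
  rfl

/-! ### the linear conditions -/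

/-- the linear conditions -/
def Lin (m : ℤ) (y : ℕ → ZMod 2) : Prop :=
  (0 < m → ∑ q ∈ RS m, al m q * y q = 0) ∧
  (∀ p ∈ (RS m).erase 17, nu p = 0 → ∑ q ∈ RS m, LL m p q * y q = 0) ∧
  ((17 : ℤ) ∣ m → lam 17 m = 0 → ∑ q ∈ RS m, LL m 17 q * y q = 0)

theorem d1 : ∀ a b : ZMod 2, a + b = b → a = 0 := by decide

theorem mem17 {m : ℤ} (hm : Squarefree m) (h : (17 : ℤ) ∣ m) : 17 ∈ RS m :=
  (QSYSF.mem_RS hm.ne_zero 17).2 ⟨p17, Or.inl (by exact_mod_cast h)⟩

theorem notMem_R1 {m : ℤ} (hm : Squarefree m) {p : ℕ} (h17 : p ≠ 17) (h : ¬ (p : ℤ) ∣ m)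
    (h2 : p = 2 → m % 4 = 1) : p ∉ R1 m := by
  rw [mem_R1, QSYSF.mem_RS hm.ne_zero]
  rintro (h1 | ⟨-, h1 | h1⟩)
  · exact h17 h1
  · exact h h1
  · exact h1.2 (h2 h1.1)

theorem U_mod4 {m : ℤ} (hm : Squarefree m) (y : ℕ → ZMod 2) (h1 : m % 4 = 1) : U m y % 4 = 1 := by
  haveI : Fact (Nat.Prime 2) := ⟨Nat.prime_two⟩
  have h2 : 2 ∉ RS m := fun h => (QSYSF.two_RS hm).1 h h1
  have h3 : (2 : ℕ) ∉ R1 m := by
    rw [mem_R1]
    rintro (h | h)
    · exact absurd h (by norm_num)
    · exact h2 h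
  have h4 := V_U_not hm y Nat.prime_two h3
  have h5 : ¬ (2 : ℤ) ∣ U m y := by
    intro h
    have h6 := (dvd_iff_V Nat.prime_two (U_sqf m y)).1 (by exact_mod_cast h)
    rw [h4] at h6
    exact absurd h6 (by decide)
  have h6 := A4_U hm y
  rw [if_neg h2, QSYSF.A4_odd (by omega)] at h6
  by_contra h7
  rw [if_pos (by omega)] at h6
  exact absurd h6 (by decide)

theorem c_eq {m : ℤ} (hm : Squarefree m) (h1 : m % 4 ≠ 1) {c d : ZMod 2} (h4 : c * A4 m = d * A4 m)
    (h2 : c * V 2 m = d * V 2 m) : c = d := by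
  rcases QSYSF.m4 hm with h5 | h5 | h5
  · exact absurd h5 h1
  · have h6 : V 2 m = 1 := QSYSF.V_one hm Nat.prime_two (by
      have : (2 : ℤ) ∣ m := by omega
      exact_mod_cast this)
    rw [h6, mul_one, mul_one] at h2
    exact h2
  · have h6 : A4 m = 1 := by rw [QSYSF.A4_odd (by omega), if_pos h5]
    rw [h6, mul_one, mul_one] at h4
    exact h4

theorem cond_iff {m : ℤ} (hm : Squarefree m) (y : ℕ → ZMod 2) : UC1 m (U m y) ↔ Lin m y := by
  have hu := U_sqf m y
  have hu0 := U_ne m y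
  constructor
  · intro h
    refine ⟨fun hpos => ?_, fun p hp hnu => ?_, fun h17 hl => ?_⟩
    · rw [← sg_U hm, QSYSF.sg_pos (h.pos hpos)]
    · rw [Finset.mem_erase] at hp
      have hpp := QSYSF.RS_prime hp.2
      haveI : Fact p.Prime := ⟨hpp⟩
      have h1 := G_U hm y hp.2 (Or.inr hnu)
      by_cases h2 : p = 2
      · subst h2
        have hm1 := (QSYSF.two_RS hm).1 hp.2
        obtain ⟨c, c1, c2, c3⟩ := (e2_iff hm hu).1 (h.e2 hm1)
        have h4 := A4_U hm y
        rw [if_pos hp.2, c1] at h4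
        have h5 := V_U hm y (RS_sub m hp.2)
        rw [if_pos rfl, c3] at h5
        have h6 := c_eq hm hm1 h4 h5
        rw [QSYSF.G_two, c2, h6] at h1
        exact d1 _ _ h1.symm
      · have hd := QSYSF.dvd_of_RS hm hp.2 h2
        have h3 := h.odd p hpp h2 hp.1 hd (by rw [QSYSB.lam17 hpp h2 hp.1]; exact hnu)
        rw [QSYSF.sf_lam hu, QSYSF.sf_ind hu, QSYSF.sf_lam hm, V_U hm y (RS_sub m hp.2), if_neg h2,
          mul_one] at h3
        rw [QSYSF.G_odd h2, h3] at h1
        exact d1 _ _ h1.symm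
    · haveI : Fact (Nat.Prime 17) := ⟨p17⟩
      have hR := mem17 hm h17
      have h1 := G_U hm y hR (Or.inl rfl)
      have h2 := h.r17 h17 hl
      rw [QSYSF.sf_lam hu] at h2
      rw [QSYSF.sf_lam hm] at hl
      rw [QSYSF.G_odd (by norm_num), h2, hl, mul_zero, add_zero] at h1
      exact h1.symm
  · rintro ⟨l1, l2, l3⟩
    refine ⟨fun hpos => ?_, ?_, ?_, ?_, ?_, ?_⟩
    · apply QSYSF.pos_of_sg hu0
      rw [sg_U hm]
      exact l1 hpos
    · intro p hp hp2 hp17 hpm hd
      haveI : Fact p.Prime := ⟨hp⟩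
      have h1 := V_U_not hm y hp (notMem_R1 hm hp17 hpm fun h => absurd h hp2)
      rw [(dvd_iff_V hp hu).1 hd] at h1
      exact absurd h1 (by decide)
    · intro p hp hp2 hp17 hpm hl
      haveI : Fact p.Prime := ⟨hp⟩
      have hR : p ∈ RS m := (QSYSF.mem_RS hm.ne_zero p).2 ⟨hp, Or.inl hpm⟩
      rw [QSYSB.lam17 hp hp2 hp17] at hl
      have h1 := G_U hm y hR (Or.inr hl)
      rw [l2 p (Finset.mem_erase.2 ⟨hp17, hR⟩) hl, zero_add, QSYSF.G_odd hp2] at h1
      rw [QSYSF.sf_lam hu, QSYSF.sf_ind hu, QSYSF.sf_lam hm, V_U hm y (RS_sub m hR), if_neg hp2,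
        mul_one]
      exact h1
    · intro h17 hl
      haveI : Fact (Nat.Prime 17) := ⟨p17⟩
      have hR := mem17 hm h17
      have h1 := G_U hm y hR (Or.inl rfl)
      rw [l3 h17 hl, zero_add, QSYSF.G_odd (by norm_num), ← QSYSF.sf_lam hm, hl, mul_zero,
        ← QSYSF.sf_lam hu] at h1
      exact h1
    · intro h1
      exact U_mod4 hm y h1
    · intro hm1
      have h2R := (QSYSF.two_RS hm).2 hm1
      rw [e2_iff hm hu]
      refine ⟨y 2, ?_, ?_, ?_⟩
      · rw [A4_U hm, if_pos h2R]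
      · have hnu : nu 2 = 0 := by unfold nu; rw [if_pos rfl]
        have h1 := G_U hm y h2R (Or.inr hnu)
        rw [l2 2 (Finset.mem_erase.2 ⟨by norm_num, h2R⟩) hnu, zero_add, QSYSF.G_two] at h1
        exact h1
      · rw [V_U hm y (RS_sub m h2R), if_pos rfl]

/-- every class comes from a `y` -/
theorem surj {m u : ℤ} (hm : Squarefree m) (hu : Squarefree u) (h : UC1 m u) :
    ∃ y : ℕ → ZMod 2, (∀ q, q ∉ R1 m → y q = 0) ∧ U m y = u := by
  classical
  haveI : Fact (Nat.Prime 2) := ⟨Nat.prime_two⟩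
  obtain ⟨c, hc⟩ : ∃ c : ZMod 2, m % 4 ≠ 1 → A4 u = c * A4 m ∧ A8 u = c * A8 m ∧
      V 2 u = c * V 2 m := by
    by_cases h1 : m % 4 = 1
    · exact ⟨0, fun h2 => absurd h1 h2⟩
    · obtain ⟨c, hc⟩ := (e2_iff hm hu).1 (h.e2 h1)
      exact ⟨c, fun _ => hc⟩
  refine ⟨fun q => if q ∈ R1 m then (if q = 2 then c else V q u) else 0, fun q hq => if_neg hq, ?_⟩
  set y : ℕ → ZMod 2 := fun q => if q ∈ R1 m then (if q = 2 then c else V q u) else 0 with hy
  have hUs := U_sqf m y
  have hU0 := U_ne m y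
  have hu0 := hu.ne_zero
  have hVq : ∀ p : ℕ, p.Prime → V p (U m y) = V p u := by
    intro p hp
    haveI : Fact p.Prime := ⟨hp⟩
    by_cases hpR : p ∈ R1 m
    · rw [V_U hm y hpR]
      by_cases h2 : p = 2
      · subst h2
        have h2R : 2 ∈ RS m := by
          rcases mem_R1.1 hpR with h | h
          · exact absurd h (by norm_num)
          · exact h
        have e : y 2 = c := by rw [hy]; simp only; rw [if_pos hpR, if_pos trivial]
        rw [e, if_pos rfl]
        exact (hc ((QSYSF.two_RS hm).1 h2R)).2.2.symm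
      · have e : y p = V p u := by rw [hy]; simp only; rw [if_pos hpR, if_neg h2]
        rw [e, if_neg h2, mul_one]
    · rw [V_U_not hm y hp hpR]
      symm
      have hpm : ¬ (p : ℤ) ∣ m := fun h' => hpR (RS_sub m ((QSYSF.mem_RS hm.ne_zero p).2 ⟨hp, Or.inl h'⟩))
      have h17 : p ≠ 17 := fun h' => hpR (mem_R1.2 (Or.inl h'))
      by_cases h2 : p = 2
      · subst h2
        have hm1 : m % 4 = 1 := by
          by_contra h1
          exact hpR (RS_sub m ((QSYSF.two_RS hm).2 h1))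
        have h3 := h.o2 hm1
        refine QSYSF.V_zero Nat.prime_two ?_
        have : ¬ (2 : ℤ) ∣ u := by omega
        exact_mod_cast this
      · exact QSYSF.V_zero hp (h.good p hp h2 h17 hpm)
  have hA : A4 (U m y) = A4 u := by
    rw [A4_U hm]
    split_ifs with h2R
    · have e : y 2 = c := by rw [hy]; simp only; rw [if_pos (RS_sub m h2R), if_pos trivial]
      rw [e]
      exact (hc ((QSYSF.two_RS hm).1 h2R)).1.symm
    · have hm1 : m % 4 = 1 := by
        by_contra h1
        exact h2R ((QSYSF.two_RS hm).2 h1)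
      exact (QSYSF.A4_zero (h.o2 hm1)).symm
  refine eq_of_V hUs hu hVq ?_
  have hexp : ∀ v : ℤ, v ≠ 0 → (∀ p : ℕ, p.Prime → p ∉ R1 m → V p v = 0) →
      A4 v = sg v + ∑ q ∈ R1 m, V q v * A4 q := by
    intro v hv0 hv
    rw [QSYSF.F_abs QSYSF.A4_addH hv0, QSYSF.A4_neg_one, mul_one,
      QSYSF.expand QSYSF.A4_addH (abs_pos.2 hv0) (R1 m) (fun q hq => R1_prime hq)]
    · congr 1
      refine Finset.sum_congr rfl fun q hq => ?_
      rw [QSYSF.V_abs (R1_prime hq) hv0]
    · intro q hq hqS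
      rw [QSYSF.V_abs hq hv0]
      exact hv q hq hqS
  have e1 := hexp (U m y) hU0 (fun p hp hpR => V_U_not hm y hp hpR)
  have e2 := hexp u hu0 (fun p hp hpR => by rw [← hVq p hp]; exact V_U_not hm y hp hpR)
  have e3 : ∑ q ∈ R1 m, V q (U m y) * A4 q = ∑ q ∈ R1 m, V q u * A4 q :=
    Finset.sum_congr rfl fun q hq => by rw [hVq q (R1_prime hq)]
  rw [e1, e2, e3] at hA
  exact add_right_cancel hA

/-! ### independence -/

/-- the rows with `ν = 0` -/
noncomputable def P0 (m : ℤ) : Finset ℕ := ((RS m).erase 17).filter fun q => nu q = 0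

theorem mem_P0 {m : ℤ} {p : ℕ} : p ∈ P0 m ↔ (p ≠ 17 ∧ p ∈ RS m) ∧ nu p = 0 := by
  unfold P0
  rw [Finset.mem_filter, Finset.mem_erase]

theorem card_P0 (m : ℤ) : (P0 m).card + nn m = ((RS m).erase 17).card := by
  unfold P0 nn
  have h := Finset.card_filter_add_card_filter_not (s := (RS m).erase 17) (fun q => nu q = 0)
  rw [← h]
  congr 2
  ext q
  rw [Finset.mem_filter, Finset.mem_filter]
  have h1 : ∀ a : ZMod 2, a = 1 ↔ ¬ a = 0 := by decide
  rw [h1]

theorem col_zero {m : ℤ} (hm : Squarefree m) (hneg : m < 0) {q : ℕ} (hq : q ∈ RS m) :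
    ∑ p ∈ RS m, w m p * LL m p q = 0 := by
  rw [QSYSB.col_sum hm hq]
  have h1 := QSYSF.sum_al hm
  rw [QSYSF.sg_neg hneg, ← Finset.add_sum_erase _ _ hq] at h1
  have h2 : ∀ a b : ZMod 2, a + b = 1 → a * b = 0 := by decide
  exact h2 _ _ h1

theorem indep {m : ℤ} (hm : Squarefree m) (hS : Sys m) (hne : (RS m).Nonempty)
    (x : ℕ → ZMod 2) (hx : ∀ p, p ∉ P0 m → x p = 0) (c d : ZMod 2)
    (hcd : d ≠ 0 → c = 0 ∧ m < 0 ∧ (17 : ℤ) ∣ m)
    (h : ∀ q ∈ RS m, ∑ p ∈ RS m, LL m p q * x p + c * al m q + d * LL m 17 q = 0) :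
    (∀ p ∈ RS m, x p = 0) ∧ c = 0 ∧ d = 0 := by
  have hx17 : x 17 = 0 := hx 17 fun h => (mem_P0.1 h).1.1 rfl
  have hnx : ∀ p ∈ (RS m).erase 17, nu p * x p = 0 := by
    intro p hp
    rw [Finset.mem_erase] at hp
    by_cases h0 : nu p = 0
    · rw [h0, zero_mul]
    · rw [hx p fun h => h0 (mem_P0.1 h).2, mul_zero]
  rcases QSYSB.z2 d with hd | hd
  · subst hd
    have key := hS x (fun _ => c) hx17 ?_ ?_
    · obtain ⟨p, hp⟩ := hne
      exact ⟨fun p hp => (key p hp).1, (key p hp).2, rfl⟩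
    · intro p hp
      rw [hnx p hp, zero_add, ← Finset.sum_mul, QSYSB.row_zero (Finset.mem_erase.1 hp).2, zero_mul]
    · intro q hq
      have h1 := h q hq
      rw [zero_mul, add_zero, mul_comm c] at h1
      exact h1
  · subst hd
    obtain ⟨hc, hneg, h17⟩ := hcd one_ne_zero
    exfalso
    have hR := mem17 hm h17
    have key := hS (fun p => if p = 17 then 0 else x p + w m p) (fun q => if q = 17 then 1 else 0)
      (if_pos rfl) ?_ ?_
    · have h1 := (key 17 hR).2
      rw [if_pos rfl] at h1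
      exact one_ne_zero h1
    · intro p hp
      have hp' := Finset.mem_erase.1 hp
      have hpp := QSYSF.RS_prime hp'.2
      have e1 : ∑ q ∈ RS m, LL m p q * (if q = 17 then (1 : ZMod 2) else 0) = LL m p 17 := by
        rw [Finset.sum_eq_single 17]
        · rw [if_pos rfl, mul_one]
        · intro b _ hb
          rw [if_neg hb, mul_zero]
        · intro h
          exact absurd hR h
      rw [e1, if_neg hp'.1, QSYSB.LL_off hp'.1, QSYSB.lS_nu hpp hp'.1, mul_add, hnx p hp, zero_add]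
      by_cases h2 : p = 2
      · subst h2
        rw [QSYSB.nu_two, zero_mul, add_zero]
      · rw [QSYSB.w_odd h2, mul_one]
        exact QSYSF.z2 _
    · intro q hq
      have h1 := h q hq
      rw [hc, zero_mul, add_zero, one_mul] at h1
      have e2 : ∑ p ∈ RS m, LL m p q * (if p = 17 then (0 : ZMod 2) else x p + w m p) =
          ∑ p ∈ RS m, LL m p q * x p + ∑ p ∈ (RS m).erase 17, w m p * LL m p q := by
        rw [← Finset.add_sum_erase _ _ hR, if_pos rfl, mul_zero, zero_add,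
          ← Finset.add_sum_erase _ (fun p => LL m p q * x p) hR, hx17, mul_zero, zero_add,
          ← Finset.sum_add_distrib]
        refine Finset.sum_congr rfl fun p hp => ?_
        rw [if_neg (Finset.mem_erase.1 hp).1]
        ring
      have e3 := col_zero hm hneg hq
      rw [← Finset.add_sum_erase _ _ hR, QSYSB.w_odd (by norm_num), one_mul] at e3
      have e4 : al m q * (if q = 17 then (1 : ZMod 2) else 0) = 0 := by
        split_ifs with h17'
        · subst h17'
          have : al m 17 = 0 := by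
            rw [QSYSB.al_odd p17 (by norm_num)]; decide
          rw [this, zero_mul]
        · rw [mul_zero]
      rw [e2, e4, add_zero]
      have h5 : ∀ a b c : ZMod 2, a + b = 0 → b + c = 0 → a + c = 0 := by decide
      exact h5 _ _ _ h1 e3

/-! ### the count -/

open Classical in
theorem count {m : ℤ} {E : Type} [Fintype E] (g : E → ℕ → ZMod 2)
    (hind : ∀ (x : ℕ → ZMod 2) (d : E → ZMod 2), (∀ p, p ∉ P0 m → x p = 0) →
      (∀ q ∈ RS m, ∑ p ∈ RS m, LL m p q * x p + ∑ e, d e * g e q = 0) →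
      (∀ p ∈ RS m, x p = 0) ∧ d = 0) :
    Nat.card {y : ↥(R1 m) → ZMod 2 // (∀ p ∈ P0 m, ∑ q ∈ RS m, LL m p q * ext _ y q = 0) ∧
      ∀ e, ∑ q ∈ RS m, g e q * ext _ y q = 0} =
      2 ^ ((R1 m).card - ((P0 m).card + Fintype.card E)) := by
  set A : ↥(P0 m) ⊕ E → ↥(R1 m) → ZMod 2 := fun j q =>
    Sum.elim (fun p : ↥(P0 m) => if (q : ℕ) ∈ RS m then LL m p q else 0)
      (fun e => if (q : ℕ) ∈ RS m then g e q else 0) j with hA
  have h1 := card_ker A (fun c hc => by
    have h2 := hind (ext (P0 m) fun p => c (Sum.inl p)) (fun e => c (Sum.inr e))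
      (fun p hp => ext_not _ hp) (fun q hq => by
        have h3 := hc ⟨q, RS_sub m hq⟩
        rw [Fintype.sum_sum_type] at h3
        rw [← h3]
        congr 1
        · have h4 : ∑ p ∈ RS m, LL m p q * ext (P0 m) (fun p => c (Sum.inl p)) p =
              ∑ p ∈ P0 m, LL m p q * ext (P0 m) (fun p => c (Sum.inl p)) p := by
            symm
            refine Finset.sum_subset (fun p hp => (mem_P0.1 hp).1.2) fun p _ hp => ?_
            rw [ext_not _ hp, mul_zero]
          rw [h4, ← Finset.sum_coe_sort]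
          refine Finset.sum_congr rfl fun p _ => ?_
          rw [ext_mem]
          simp only [hA, Sum.elim_inl]
          rw [if_pos hq, mul_comm]
        · refine Finset.sum_congr rfl fun e _ => ?_
          simp only [hA, Sum.elim_inr]
          rw [if_pos hq])
    funext j
    rcases j with p | e
    · have h3 := h2.1 p (mem_P0.1 p.2).1.2
      rw [ext_mem] at h3
      exact h3
    · exact congrFun h2.2 e)
  rw [Fintype.card_sum, Fintype.card_coe, Fintype.card_coe] at h1
  rw [← h1]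
  refine Nat.card_congr (Equiv.subtypeEquivRight fun y => ?_)
  constructor
  · rintro ⟨ha, hb⟩ j
    rcases j with p | e
    · have h2 := ha p p.2
      rw [← sum_ext (RS_sub m)] at h2
      exact h2
    · have h2 := hb e
      rw [← sum_ext (RS_sub m)] at h2
      exact h2
  · intro h
    constructor
    · intro p hp
      rw [← sum_ext (RS_sub m)]
      exact h (Sum.inl ⟨p, hp⟩)
    · intro e
      rw [← sum_ext (RS_sub m)]
      exact h (Sum.inr e)

theorem set_eq {m : ℤ} (hm : Squarefree m) : {u : ℤ | Squarefree u ∧ UC1 m u} =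
    (fun y : ↥(R1 m) → ZMod 2 => U m (ext _ y)) '' {y | Lin m (ext _ y)} := by
  ext u
  constructor
  · rintro ⟨hu, h⟩
    obtain ⟨y, hy, rfl⟩ := surj hm hu h
    have e : ext (R1 m) (fun q => y q) = y := by
      funext q
      by_cases hq : q ∈ R1 m
      · exact ext_mem (s := R1 m) (fun q => y q) ⟨q, hq⟩
      · rw [ext_not _ hq, hy q hq]
    refine ⟨fun q => y q, ?_, ?_⟩
    · show Lin m (ext (R1 m) fun q => y q)
      rw [e]
      exact (cond_iff hm y).1 h
    · show U m (ext (R1 m) fun q => y q) = U m y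
      rw [e]
  · rintro ⟨y, hy, rfl⟩
    exact ⟨U_sqf m _, (cond_iff hm _).2 hy⟩

theorem ncard_eq {m : ℤ} (hm : Squarefree m) : {u : ℤ | Squarefree u ∧ UC1 m u}.Finite ∧
    {u : ℤ | Squarefree u ∧ UC1 m u}.ncard =
      Nat.card {y : ↥(R1 m) → ZMod 2 // Lin m (ext _ y)} := by
  have hinj : Function.Injective (fun y : ↥(R1 m) → ZMod 2 => U m (ext _ y)) := by
    intro y y' h
    have h1 := inj hm (fun q hq => ext_not y hq) (fun q hq => ext_not y' hq) h
    funext q
    rw [← ext_mem y q, ← ext_mem y' q]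
    exact congrFun h1 q
  rw [set_eq hm]
  constructor
  · exact (Set.toFinite _).image _
  · rw [Set.ncard_image_of_injective _ hinj]
    exact (Nat.card_coe_set_eq _).symm

theorem card_R1 {m : ℤ} (h : 17 ∉ RS m) : (R1 m).card = (RS m).card + 1 := by
  classical
  unfold R1
  rw [Finset.card_insert_of_notMem h]

theorem card_R1' {m : ℤ} (h : 17 ∈ RS m) : (R1 m).card = (RS m).card := by
  classical
  unfold R1
  rw [Finset.insert_eq_of_mem h]

theorem RS_nonempty {m : ℤ} (hm : Squarefree m) (h1 : m ≠ 1) : (RS m).Nonempty := by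
  by_contra hcon
  rw [Finset.not_nonempty_iff_eq_empty] at hcon
  have h2 := QSYSB.prod_vq hm
  rw [hcon, Finset.prod_empty] at h2
  exact h1 h2.symm

theorem lam_val {m : ℤ} : (lam 17 m).val = if lam 17 m = 0 then 0 else 1 := by
  rcases QSYSB.z2 (lam 17 m) with h | h
  · rw [h, if_pos rfl]; rfl
  · rw [h, if_neg (by decide)]; rfl

theorem not_mem17 {m : ℤ} (hm : Squarefree m) (h : ¬ (17 : ℤ) ∣ m) : 17 ∉ RS m := by
  intro h'
  exact h (by exact_mod_cast QSYSF.dvd_of_RS hm h' (by norm_num))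

theorem t_UCNT1 : S_UCNT1 := by
  intro m hm h1 hS hR
  have hne := RS_nonempty hm h1
  have hcP := card_P0 m
  obtain ⟨hfin, hcard⟩ := ncard_eq hm
  refine ⟨hfin, ?_⟩
  rw [hcard]
  by_cases hpos : 0 < m
  · -- `m > 0`
    rw [if_pos hpos]
    have h17 : ¬ (17 : ℤ) ∣ m := by
      intro h
      rcases hR with hR | hR
      · have h3 : jacobiSym m 17 = 0 := by
          rw [jacobiSym.eq_zero_iff]
          refine ⟨by norm_num, ?_⟩
          have h4 : (17 : ℤ).gcd m = 17 := by
            rw [Int.gcd_comm]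
            have := Int.gcd_eq_right (by norm_num : (0 : ℤ) ≤ 17) h
            exact_mod_cast this
          rw [Int.gcd_comm]
          have : ((17 : ℕ) : ℤ) = 17 := rfl
          rw [this, h4]
          norm_num
        rw [h3] at hR
        exact absurd hR.2 (by norm_num)
      · exact absurd hR.1 (not_lt.2 hpos.le)
    have h17R := not_mem17 hm h17
    have hc := count (m := m) (E := Unit) (fun _ => al m) (fun x d hx h => by
      have h2 := indep hm hS hne x hx (d ()) 0 (fun h => absurd rfl h) (fun q hq => by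
        have h3 := h q hq
        rw [Fintype.sum_unique] at h3
        rw [zero_mul, add_zero]
        exact h3)
      exact ⟨h2.1, funext fun _ => h2.2.1⟩)
    have he : Nat.card {y : ↥(R1 m) → ZMod 2 // Lin m (ext _ y)} =
        Nat.card {y : ↥(R1 m) → ZMod 2 // (∀ p ∈ P0 m, ∑ q ∈ RS m, LL m p q * ext _ y q = 0) ∧
          ∀ e : Unit, ∑ q ∈ RS m, al m q * ext _ y q = 0} := by
      refine Nat.card_congr (Equiv.subtypeEquivRight fun y => ?_)
      constructor
      · rintro ⟨l1, l2, -⟩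
        exact ⟨fun p hp => l2 p (Finset.mem_erase.2 (mem_P0.1 hp).1) (mem_P0.1 hp).2,
          fun _ => l1 hpos⟩
      · rintro ⟨l1, l2⟩
        exact ⟨fun _ => l2 (), fun p hp hn => l1 p (mem_P0.2 ⟨Finset.mem_erase.1 hp, hn⟩),
          fun h => absurd h h17⟩
    rw [he, hc, card_R1 h17R, Fintype.card_unit]
    rw [Finset.erase_eq_of_notMem h17R] at hcP
    congr 1
    omega
  · rw [if_neg hpos]
    have hneg : m < 0 := lt_of_le_of_ne (not_lt.1 hpos) hm.ne_zero
    by_cases h17 : (17 : ℤ) ∣ m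
    · rw [if_pos h17]
      have h17R := mem17 hm h17
      have hce : ((RS m).erase 17).card + 1 = (RS m).card := Finset.card_erase_add_one h17R
      rw [lam_val]
      by_cases hl : lam 17 m = 0
      · rw [if_pos hl, add_zero]
        have hc := count (m := m) (E := Unit) (fun _ => LL m 17) (fun x d hx h => by
          have h2 := indep hm hS hne x hx 0 (d ()) (fun _ => ⟨rfl, hneg, h17⟩) (fun q hq => by
            have h3 := h q hq
            rw [Fintype.sum_unique] at h3
            rw [zero_mul, add_zero]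
            exact h3)
          exact ⟨h2.1, funext fun _ => h2.2.2⟩)
        have he : Nat.card {y : ↥(R1 m) → ZMod 2 // Lin m (ext _ y)} =
            Nat.card {y : ↥(R1 m) → ZMod 2 // (∀ p ∈ P0 m, ∑ q ∈ RS m, LL m p q * ext _ y q = 0) ∧
              ∀ e : Unit, ∑ q ∈ RS m, LL m 17 q * ext _ y q = 0} := by
          refine Nat.card_congr (Equiv.subtypeEquivRight fun y => ?_)
          constructor
          · rintro ⟨-, l2, l3⟩
            exact ⟨fun p hp => l2 p (Finset.mem_erase.2 (mem_P0.1 hp).1) (mem_P0.1 hp).2,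
              fun _ => l3 h17 hl⟩
          · rintro ⟨l1, l2⟩
            exact ⟨fun h => absurd h hpos,
              fun p hp hn => l1 p (mem_P0.2 ⟨Finset.mem_erase.1 hp, hn⟩), fun _ _ => l2 ()⟩
        rw [he, hc, card_R1' h17R, Fintype.card_unit]
        congr 1
        omega
      · rw [if_neg hl]
        have hc := count (m := m) (E := Empty) (fun e => e.elim) (fun x d hx h => by
          have h2 := indep hm hS hne x hx 0 0 (fun h => absurd rfl h) (fun q hq => by
            have h3 := h q hq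
            rw [Fintype.sum_empty] at h3
            rw [zero_mul, zero_mul, add_zero]
            exact h3)
          exact ⟨h2.1, funext fun e => e.elim⟩)
        have he : Nat.card {y : ↥(R1 m) → ZMod 2 // Lin m (ext _ y)} =
            Nat.card {y : ↥(R1 m) → ZMod 2 // (∀ p ∈ P0 m, ∑ q ∈ RS m, LL m p q * ext _ y q = 0) ∧
              ∀ e : Empty, ∑ q ∈ RS m, (e.elim : ℕ → ZMod 2) q * ext _ y q = 0} := by
          refine Nat.card_congr (Equiv.subtypeEquivRight fun y => ?_)
          constructor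
          · rintro ⟨-, l2, -⟩
            exact ⟨fun p hp => l2 p (Finset.mem_erase.2 (mem_P0.1 hp).1) (mem_P0.1 hp).2,
              fun e => e.elim⟩
          · rintro ⟨l1, l2⟩
            exact ⟨fun h => absurd h hpos,
              fun p hp hn => l1 p (mem_P0.2 ⟨Finset.mem_erase.1 hp, hn⟩), fun _ h => absurd h hl⟩
        rw [he, hc, card_R1' h17R, Fintype.card_empty]
        congr 1
        omega
    · rw [if_neg h17]
      have h17R := not_mem17 hm h17
      have hc := count (m := m) (E := Empty) (fun e => e.elim) (fun x d hx h => by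
        have h2 := indep hm hS hne x hx 0 0 (fun h => absurd rfl h) (fun q hq => by
          have h3 := h q hq
          rw [Fintype.sum_empty] at h3
          rw [zero_mul, zero_mul, add_zero]
          exact h3)
        exact ⟨h2.1, funext fun e => e.elim⟩)
      have he : Nat.card {y : ↥(R1 m) → ZMod 2 // Lin m (ext _ y)} =
          Nat.card {y : ↥(R1 m) → ZMod 2 // (∀ p ∈ P0 m, ∑ q ∈ RS m, LL m p q * ext _ y q = 0) ∧
            ∀ e : Empty, ∑ q ∈ RS m, (e.elim : ℕ → ZMod 2) q * ext _ y q = 0} := by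
        refine Nat.card_congr (Equiv.subtypeEquivRight fun y => ?_)
        constructor
        · rintro ⟨-, l2, -⟩
          exact ⟨fun p hp => l2 p (Finset.mem_erase.2 (mem_P0.1 hp).1) (mem_P0.1 hp).2,
            fun e => e.elim⟩
        · rintro ⟨l1, l2⟩
          exact ⟨fun h => absurd h hpos,
            fun p hp hn => l1 p (mem_P0.2 ⟨Finset.mem_erase.1 hp, hn⟩), fun h => absurd h h17⟩
      rw [he, hc, card_R1 h17R, Fintype.card_empty]
      rw [Finset.erase_eq_of_notMem h17R] at hcP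
      congr 1
      omega

end Pool.Agent.H743.X17.QUCNT1
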