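import Pool.Agent.H743.X17.IsoStm
import Pool.Agent.H743.X17.SYSB
import Pool.Agent.H743.X17.SYSF

/-!
# I17 UCNT2 (helper385): the number of the classes, `j = 2`
-/

set_option autoImplicit false

open scoped Classical

namespace Pool.Agent.H743.X17.QUCNT2

open Pool.Agent.H743.X17

/-! ### counting common zeros of independent functionals -/

/-- the sign character -/
def chi (a : ZMod 2) : ℤ := if a = 0 then 1 else -1

theorem chi_zero : chi 0 = 1 := if_pos rfl

theorem chi_ne {a : ZMod 2} (h : a ≠ 0) : chi a = -1 := if_neg h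

theorem chi_add (a b : ZMod 2) : chi (a + b) = chi a * chi b := by
  revert a b; decide

theorem chi_sum (s : Finset ℕ) (f : ℕ → ZMod 2) :
    chi (∑ i ∈ s, f i) = ∏ i ∈ s, chi (f i) := by
  induction s using Finset.induction_on with
  | empty => rw [Finset.sum_empty, Finset.prod_empty, chi_zero]
  | insert a s ha ih => rw [Finset.sum_insert ha, Finset.prod_insert ha, chi_add, ih]

theorem count (I C : Finset ℕ) (B : ℕ → ℕ → ZMod 2)
    (h : ∀ D ⊆ C, (∀ i ∈ I, ∑ p ∈ D, B p i = 0) → D = ∅) :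
    (I.powerset.filter fun T => ∀ p ∈ C, ∑ i ∈ T, B p i = 0).card * 2 ^ C.card = 2 ^ I.card := by
  have h1 : ∀ T : Finset ℕ, (∑ D ∈ C.powerset, ∏ p ∈ D, chi (∑ i ∈ T, B p i)) =
      if (∀ p ∈ C, ∑ i ∈ T, B p i = 0) then 2 ^ C.card else 0 := by
    intro T
    rw [← Finset.prod_one_add]
    split_ifs with hT
    · have e : ∏ p ∈ C, (1 + chi (∑ i ∈ T, B p i)) = ∏ _p ∈ C, (2 : ℤ) :=
        Finset.prod_congr rfl fun p hp => by rw [hT p hp, chi_zero]; norm_num
      rw [e, Finset.prod_const]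
    · push Not at hT
      obtain ⟨p, hp, hp'⟩ := hT
      exact Finset.prod_eq_zero hp (by rw [chi_ne hp']; norm_num)
  have h2 : ∀ D ∈ C.powerset, ∑ T ∈ I.powerset, ∏ p ∈ D, chi (∑ i ∈ T, B p i) =
      if D = ∅ then 2 ^ I.card else 0 := by
    intro D hD
    have e : ∀ T : Finset ℕ, ∏ p ∈ D, chi (∑ i ∈ T, B p i) =
        ∏ i ∈ T, chi (∑ p ∈ D, B p i) := by
      intro T
      simp_rw [chi_sum]
      exact Finset.prod_comm
    rw [Finset.sum_congr rfl fun T _ => e T, ← Finset.prod_one_add]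
    split_ifs with hD0
    · subst hD0
      have e2 : ∏ i ∈ I, (1 + chi (∑ p ∈ (∅ : Finset ℕ), B p i)) = ∏ _i ∈ I, (2 : ℤ) :=
        Finset.prod_congr rfl fun i _ => by rw [Finset.sum_empty, chi_zero]; norm_num
      rw [e2, Finset.prod_const]
    · by_contra hne
      apply hD0
      refine h D (Finset.mem_powerset.1 hD) fun i hi => ?_
      by_contra hi'
      exact hne (Finset.prod_eq_zero hi (by rw [chi_ne hi']; norm_num))
  have h3 : ∑ T ∈ I.powerset, (if (∀ p ∈ C, ∑ i ∈ T, B p i = 0) then (2 : ℤ) ^ C.card else 0) =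
      2 ^ I.card := by
    rw [← Finset.sum_congr rfl fun T _ => h1 T, Finset.sum_comm, Finset.sum_congr rfl h2,
      Finset.sum_ite_eq', if_pos (Finset.mem_powerset.2 (Finset.empty_subset C))]
  rw [← Finset.sum_filter, Finset.sum_const, nsmul_eq_mul] at h3
  exact_mod_cast h3

/-! ### independence -/

theorem z2 (a : ZMod 2) : a = 0 ∨ a = 1 := QSYSB.z2 a

theorem zz (a : ZMod 2) : a + a = 0 := QSYSB.z2_add_self a

theorem al17 {m : ℤ} : al m 17 = 0 := by
  rw [QSYSB.al_odd QSYSB.p17 (by norm_num)]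
  decide

theorem RS_pr {m : ℤ} {q : ℕ} (h : q ∈ RS m) : q.Prime := QSYSF.RS_prime h

theorem w_odd {m : ℤ} {p : ℕ} (h : p ≠ 2) : QSYSB.w m p = 1 := QSYSB.w_odd h

theorem sum_al_erase {m : ℤ} (hm : Squarefree m) {q : ℕ} (hq : q ∈ RS m) :
    al m q * ∑ p ∈ (RS m).erase q, al m p = al m q * (QSYSF.sg m + al m q) := by
  have h1 := QSYSF.sum_al hm
  rw [← Finset.add_sum_erase _ _ hq] at h1
  have h2 : ∑ p ∈ (RS m).erase q, al m p = QSYSF.sg m + al m q := by
    rw [← h1]
    have : ∀ a b : ZMod 2, b = a + b + a := by decide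
    exact this _ _
  rw [h2]

/-- the transposed system -/
theorem star {m : ℤ} (hm : Squarefree m) (c : ℕ → ZMod 2)
    (h1 : ∀ q ∈ RS m, ∑ p ∈ RS m, LL m q p * c p = 0) {q : ℕ} (hq : q ∈ RS m) :
    ∑ p ∈ RS m, LL m p q * (QSYSB.w m p * c p) =
      al m q * ((∑ p ∈ RS m, al m p * c p) + c q) := by
  have e1 := h1 q hq
  rw [← Finset.add_sum_erase _ _ hq] at e1
  rw [← Finset.add_sum_erase _ _ hq, ← Finset.add_sum_erase (RS m) (fun p => al m p * c p) hq]
  have e2 : ∑ p ∈ (RS m).erase q, LL m p q * (QSYSB.w m p * c p) =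
      QSYSB.w m q * (∑ p ∈ (RS m).erase q, LL m q p * c p) +
        al m q * ∑ p ∈ (RS m).erase q, al m p * c p := by
    rw [Finset.mul_sum, Finset.mul_sum, ← Finset.sum_add_distrib]
    refine Finset.sum_congr rfl fun p hp => ?_
    obtain ⟨hp1, hp2⟩ := Finset.mem_erase.1 hp
    have hr := QSYSB.rel hm hp2 hq hp1
    rw [QSYSB.LL_off hp1, QSYSB.LL_off (Ne.symm hp1)]
    have : ∀ a b c d e f g : ZMod 2, a * b + c * d = e * f →
        b * (a * g) = c * (d * g) + f * (e * g) := by decide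
    exact this _ _ _ _ _ _ _ hr
  rw [e2]
  generalize ∑ p ∈ (RS m).erase q, LL m q p * c p = S at e1
  generalize ∑ p ∈ (RS m).erase q, al m p * c p = S'
  have : ∀ l w x a S S' : ZMod 2, l * x + S = 0 →
      l * (w * x) + (w * S + a * S') = a * (a * x + S' + x) := by decide
  exact this _ _ _ _ _ _ e1

theorem indep {m : ℤ} (hm : Squarefree m) (hS : Sys m) (hR : Rt m) (c : ℕ → ZMod 2)
    (h0 : ∀ p, p ∉ RS m → c p = 0)
    (h1 : ∀ q ∈ RS m, ∑ p ∈ RS m, LL m q p * c p = 0)
    (h2 : 0 < m → ∑ p ∈ RS m, al m p * c p = 0)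
    (h3 : ∀ p ∈ (RS m).erase 17, nu p * c p = 0) : ∀ p, c p = 0 := by
  have hm0 := hm.ne_zero
  obtain ⟨s, hs⟩ : ∃ s, s = ∑ p ∈ RS m, al m p * c p := ⟨_, rfl⟩
  obtain ⟨d, hd⟩ : ∃ d, d = c 17 := ⟨_, rfl⟩
  have hst : ∀ q ∈ RS m, ∑ p ∈ RS m, LL m p q * (QSYSB.w m p * c p) = al m q * (s + c q) := by
    intro q hq
    rw [hs]
    exact star hm c h1 hq
  -- `17` divides `m` if `d = 1`
  have h17 : d = 1 → 17 ∈ RS m := by
    intro h
    by_contra hc
    rw [h0 17 hc] at hd
    rw [hd] at h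
    exact absurd h (by decide)
  have hneg : d = 1 → QSYSF.sg m = 1 := by
    intro h
    have h4 := QSYSF.dvd_of_RS hm (h17 h) (by norm_num)
    rcases hR with hR | hR
    · exfalso
      have h5 : jacobiSym m 17 = 0 := by
        rw [jacobiSym.eq_zero_iff_not_coprime]
        intro h6
        have h7 : (17 : ℤ) ∣ (Int.gcd m 17 : ℤ) := Int.dvd_coe_gcd (by exact_mod_cast h4) (by norm_num)
        have h8 : Int.gcd m 17 = 1 := h6
        rw [h8] at h7
        norm_num at h7
      rw [h5] at hR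
      exact absurd hR.2 (by norm_num)
    · exact QSYSF.sg_neg hR.1
  have hcs : ∀ q ∈ RS m, d * ∑ p ∈ RS m, QSYSB.w m p * LL m p q = 0 := by
    intro q hq
    rcases z2 d with h | h
    · rw [h, zero_mul]
    · rw [QSYSB.col_sum hm hq, sum_al_erase hm hq, hneg h]
      have : ∀ a d : ZMod 2, d * (a * (1 + a)) = 0 := by decide
      exact this _ _
  -- the solution of the system
  have key := hS (fun p => if p = 17 then 0 else QSYSB.w m p * (c p + d))
    (fun p => (if p = 17 then 0 else c p) + s) (if_pos rfl) ?_ ?_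
  · by_cases hs1 : s = 0
    · -- `s = 0`
      have k1 : ∀ p ∈ RS m, p ≠ 17 → c p = 0 := by
        intro p hp hne
        have := (key p hp).2
        rwa [hs1, add_zero, if_neg hne] at this
      rcases z2 d with h | h
      · intro p
        by_cases hp : p ∈ RS m
        · by_cases hne : p = 17
          · rw [hne, ← hd, h]
          · exact k1 p hp hne
        · exact h0 p hp
      · exfalso
        have k2 : ∀ p ∈ RS m, p ≠ 17 → QSYSB.w m p = 0 := by
          intro p hp hne
          have := (key p hp).1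
          rwa [if_neg hne, k1 p hp hne, h, zero_add, mul_one] at this
        have k3 : ∀ p ∈ RS m, p = 17 ∨ p = 2 := by
          intro p hp
          by_contra hc
          push Not at hc
          have := k2 p hp hc.1
          rw [w_odd hc.2] at this
          exact absurd this (by decide)
        by_cases h2m : 2 ∈ RS m
        · -- the solution `e_2`
          have k4 := hS (fun p => if p = 2 then 1 else 0) (fun _ => 0) (if_neg (by norm_num)) ?_ ?_
          · have := (k4 2 h2m).1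
            rw [if_pos rfl] at this
            exact absurd this (by decide)
          · intro p _
            by_cases hp2 : p = 2
            · rw [hp2, QSYSB.nu_two]; simp
            · simp [hp2]
          · intro q hq
            have e : ∑ p ∈ RS m, LL m p q * (if p = 2 then 1 else 0) = LL m 2 q := by
              rw [Finset.sum_eq_single 2]
              · simp
              · intro p _ hp; rw [if_neg hp, mul_zero]
              · intro h; exact absurd h2m h
            rw [e, mul_zero, add_zero]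
            rcases k3 q hq with hq1 | hq1
            · rw [hq1, QSYSB.LL_off (by norm_num), QSYSB.lS_nu Nat.prime_two (by norm_num)]
              rfl
            · rw [hq1, QSYSB.LL_diag]
              refine Finset.sum_eq_zero fun r hr => ?_
              obtain ⟨hr1, hr2⟩ := Finset.mem_erase.1 hr
              rw [(k3 r hr2).resolve_right hr1, QSYSB.lS_nu Nat.prime_two (by norm_num)]
              rfl
        · have k5 := QSYSF.sum_al hm
          rw [hneg h, Finset.sum_eq_zero] at k5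
          · exact absurd k5 (by decide)
          · intro q hq
            rcases k3 q hq with hq1 | hq1
            · rw [hq1, al17]
            · rw [hq1] at hq
              exact absurd hq h2m
    · -- `s = 1`
      exfalso
      have hs1' : s = 1 := (z2 s).resolve_left hs1
      have hmneg : m < 0 := by
        rcases lt_or_gt_of_ne hm0 with h | h
        · exact h
        · exact absurd (hs.trans (h2 h)) hs1
      have k0 : 17 ∉ RS m := by
        intro h
        have := (key 17 h).2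
        rw [if_pos rfl, zero_add] at this
        exact hs1 this
      have hd0 : d = 0 := by
        rw [hd]
        exact h0 17 k0
      have k1 : ∀ p ∈ RS m, QSYSB.w m p = 0 := by
        intro p hp
        have hne : p ≠ 17 := fun h => k0 (h ▸ hp)
        obtain ⟨a1, a2⟩ := key p hp
        rw [if_neg hne, hs1'] at a2
        rw [if_neg hne, hd0, add_zero] at a1
        have : ∀ a b : ZMod 2, a + 1 = 0 → b * a = 0 → b = 0 := by decide
        exact this _ _ a2 a1
      have k2 : ∀ p ∈ RS m, p = 2 ∧ m % 4 = 3 := by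
        intro p hp
        by_contra hc
        have := k1 p hp
        unfold QSYSB.w at this
        rw [if_neg hc] at this
        exact absurd this (by decide)
      obtain ⟨p₀, hp₀⟩ : (RS m).Nonempty := by
        by_contra hc
        rw [Finset.not_nonempty_iff_eq_empty] at hc
        rw [hc, Finset.sum_empty] at hs
        exact hs1 hs
      have hm4 := (k2 p₀ hp₀).2
      have hn : m.natAbs = 1 := by
        by_contra hc
        obtain ⟨p, hp, hpd⟩ := Nat.exists_prime_and_dvd hc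
        have hpm : (p : ℤ) ∣ m := Int.natCast_dvd.2 hpd
        have hpR : p ∈ RS m := (QSYSF.mem_RS hm0 p).2 ⟨hp, Or.inl hpm⟩
        have := (k2 p hpR).1
        subst this
        have : (2 : ℤ) ∣ m := by exact_mod_cast hpm
        omega
      have hm1 : m = -1 := by omega
      subst hm1
      rcases hR with hR | hR
      · exact absurd hR.1 (by norm_num)
      · apply hR.2
        rw [jacobiSym.at_neg_one (by decide)]
        decide
  · -- rows
    intro p hp
    obtain ⟨hp1, hp2⟩ := Finset.mem_erase.1 hp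
    have hpp := RS_pr hp2
    rw [if_neg hp1]
    have e1 : ∑ q ∈ RS m, LL m p q * ((if q = 17 then 0 else c q) + s) = nu p * d := by
      have e2 : ∀ q ∈ RS m, LL m p q * ((if q = 17 then 0 else c q) + s) =
          LL m p q * c q + s * LL m p q + (if q = 17 then LL m p 17 * d else 0) := by
        intro q _
        by_cases hq : q = 17
        · rw [if_pos hq, if_pos hq, hq, hd]
          have : ∀ a b c : ZMod 2, a * (0 + b) = a * c + b * a + a * c := by decide
          exact this _ _ _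
        · rw [if_neg hq, if_neg hq]
          ring
      rw [Finset.sum_congr rfl e2, Finset.sum_add_distrib, Finset.sum_add_distrib, h1 p hp2,
        ← Finset.mul_sum, QSYSB.row_zero hp2, mul_zero, zero_add, zero_add, Finset.sum_ite_eq']
      by_cases h : 17 ∈ RS m
      · rw [if_pos h, QSYSB.LL_off hp1, QSYSB.lS_nu hpp hp1]
      · rw [if_neg h]
        have : d = 0 := by rw [hd]; exact h0 17 h
        rw [this, mul_zero]
    rw [e1]
    have h4 := h3 p hp
    by_cases hp3 : p = 2
    · rw [hp3, QSYSB.nu_two, zero_mul, zero_mul, add_zero]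
    · rw [w_odd hp3]
      have : ∀ n c d : ZMod 2, n * c = 0 → n * (1 * (c + d)) + n * d = 0 := by decide
      exact this _ _ _ h4
  · -- columns
    intro q hq
    have e1 : ∑ p ∈ RS m, LL m p q * (if p = 17 then 0 else QSYSB.w m p * (c p + d)) =
        al m q * (s + c q) := by
      have e2 : ∀ p ∈ RS m, LL m p q * (if p = 17 then 0 else QSYSB.w m p * (c p + d)) =
          LL m p q * (QSYSB.w m p * c p) + d * (QSYSB.w m p * LL m p q) := by
        intro p _
        by_cases hp : p = 17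
        · rw [if_pos hp, hp, hd]
          have : ∀ a b c : ZMod 2, a * 0 = a * (b * c) + c * (b * a) := by decide
          exact this _ _ _
        · rw [if_neg hp]
          ring
      rw [Finset.sum_congr rfl e2, Finset.sum_add_distrib, hst q hq, ← Finset.mul_sum, hcs q hq,
        add_zero]
    rw [e1]
    by_cases hq1 : q = 17
    · rw [hq1, al17, zero_mul, zero_mul, add_zero]
    · rw [if_neg hq1]
      have : ∀ a s c : ZMod 2, a * (s + c) + a * (c + s) = 0 := by decide
      exact this _ _ _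

open Pool.Agent.H743.X17.QSYSF (AddH V Lm A4 A8 sg G)

/-! ### the representatives -/

/-- the generators -/
def gg (i : ℕ) : ℤ := if i = 0 then -1 else i

/-- the indices: the sign, the primes of `RS m` and `17` -/
noncomputable def II (m : ℤ) : Finset ℕ :=
  if 0 < m then insert 0 (insert 17 (RS m)) else insert 17 (RS m)

theorem mem_II {m : ℤ} {i : ℕ} : i ∈ II m ↔ (i = 0 ∧ 0 < m) ∨ i = 17 ∨ i ∈ RS m := by
  unfold II
  split_ifs with h
  · rw [Finset.mem_insert, Finset.mem_insert]
    tauto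
  · rw [Finset.mem_insert]
    tauto

theorem II_pr {m : ℤ} {i : ℕ} (h : i ∈ II m) (h0 : i ≠ 0) : i.Prime := by
  rcases mem_II.1 h with h | h | h
  · exact absurd h.1 h0
  · rw [h]; norm_num
  · exact RS_pr h

theorem zero_RS {m : ℤ} : 0 ∉ RS m := fun h => (RS_pr h).ne_zero rfl

theorem gg_ne {m : ℤ} {i : ℕ} (h : i ∈ II m) : gg i ≠ 0 := by
  unfold gg
  split_ifs with h0
  · norm_num
  · exact_mod_cast h0

/-- the representative -/
def Ps (T : Finset ℕ) : ℤ := ∏ i ∈ T, gg i

theorem Ps_add {m : ℤ} {T : Finset ℕ} (hT : T ⊆ II m) {F : ℤ → ZMod 2} (hF : AddH F) :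
    F (Ps T) = ∑ i ∈ T, F (gg i) :=
  hF.prod T gg fun q hq => gg_ne (hT hq)

theorem Ps_ne {m : ℤ} {T : Finset ℕ} (hT : T ⊆ II m) : Ps T ≠ 0 :=
  Finset.prod_ne_zero_iff.2 fun _ hq => gg_ne (hT hq)

theorem gg_pos {i : ℕ} (h : i ≠ 0) : gg i = i := if_neg h

theorem Ps_V {m : ℤ} {T : Finset ℕ} (hT : T ⊆ II m) {q : ℕ} (hq : q.Prime) :
    V q (Ps T) = if q ∈ T then 1 else 0 := by
  haveI : Fact q.Prime := ⟨hq⟩
  rw [Ps_add hT (QSYSF.V_addH q)]
  have e : ∀ i ∈ T, V q (gg i) = if q = i then 1 else 0 := by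
    intro i hi
    by_cases h0 : i = 0
    · have h1 : gg i = -1 := if_pos h0
      rw [h1, QSYSF.V_neg_one hq, if_neg]
      rintro rfl
      exact hq.ne_zero h0
    · rw [gg_pos h0, QSYSF.V_prime hq (II_pr (hT hi) h0)]
  rw [Finset.sum_congr rfl e, Finset.sum_ite_eq]

theorem Ps_sg {m : ℤ} {T : Finset ℕ} (hT : T ⊆ II m) :
    sg (Ps T) = if 0 ∈ T then 1 else 0 := by
  rw [Ps_add hT QSYSF.sg_addH]
  have e : ∀ i ∈ T, sg (gg i) = if 0 = i then 1 else 0 := by
    intro i _
    by_cases h0 : i = 0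
    · have h1 : gg i = -1 := if_pos h0
      rw [h1, if_pos h0.symm]
      rfl
    · rw [gg_pos h0, if_neg (Ne.symm h0)]
      exact QSYSF.sg_pos (by exact_mod_cast Nat.pos_of_ne_zero h0)
  rw [Finset.sum_congr rfl e, Finset.sum_ite_eq]

theorem Ps_inj {m : ℤ} {T T' : Finset ℕ} (hT : T ⊆ II m) (hT' : T' ⊆ II m) (h : Ps T = Ps T') :
    T = T' := by
  have h01 : (1 : ZMod 2) ≠ 0 := by decide
  have key : ∀ i, (i ∈ T ∨ i ∈ T') → (i ∈ T ↔ i ∈ T') := by
    intro i hi
    have hi' : i ∈ II m := hi.elim (fun h => hT h) (fun h => hT' h)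
    by_cases h0 : i = 0
    · have h1 := Ps_sg hT
      rw [h, Ps_sg hT'] at h1
      subst h0
      by_cases a : 0 ∈ T <;> by_cases b : 0 ∈ T' <;> simp [a, b] at h1 ⊢
    · have h1 := Ps_V hT (II_pr hi' h0)
      rw [h, Ps_V hT' (II_pr hi' h0)] at h1
      by_cases a : i ∈ T <;> by_cases b : i ∈ T' <;> simp [a, b] at h1 ⊢
  ext i
  constructor
  · intro hi; exact (key i (Or.inl hi)).1 hi
  · intro hi; exact (key i (Or.inr hi)).2 hi

theorem Ps_sqf {m : ℤ} {T : Finset ℕ} (hT : T ⊆ II m) : Squarefree (Ps T) := by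
  have h1 : Squarefree (∏ i ∈ T.erase 0, ((i : ℕ) : ℤ)) := by
    apply Finset.squarefree_prod_of_pairwise_isCoprime
    · intro p hp q hq hpq
      have hp' := Finset.mem_erase.1 hp
      have hq' := Finset.mem_erase.1 hq
      have := (Nat.coprime_primes (II_pr (hT hp'.2) hp'.1) (II_pr (hT hq'.2) hq'.1)).2 hpq
      exact (Nat.isCoprime_iff_coprime.2 this).isRelPrime
    · intro p hp
      have hp' := Finset.mem_erase.1 hp
      exact QSYSF.sf_prime (II_pr (hT hp'.2) hp'.1)
  have h2 : ∏ i ∈ T.erase 0, gg i = ∏ i ∈ T.erase 0, ((i : ℕ) : ℤ) :=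
    Finset.prod_congr rfl fun i hi => gg_pos (Finset.mem_erase.1 hi).1
  unfold Ps
  by_cases h0 : 0 ∈ T
  · rw [← Finset.mul_prod_erase T gg h0, h2]
    have h3 : gg 0 = -1 := if_pos rfl
    rw [h3, neg_one_mul]
    exact QSYSF.sf_neg h1
  · rw [Finset.erase_eq_of_notMem h0] at h1 h2
    rw [h2]
    exact h1

theorem Ps_surj {m u : ℤ} (hu : Squarefree u) (hs : u < 0 → 0 < m)
    (hp : ∀ q : ℕ, q.Prime → (q : ℤ) ∣ u → q = 17 ∨ q ∈ RS m) : ∃ T ⊆ II m, Ps T = u := by
  have hu0 := hu.ne_zero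
  have h1 : ∏ q ∈ u.natAbs.primeFactors, ((q : ℕ) : ℤ) = |u| := by
    have := Nat.prod_primeFactors_of_squarefree (Int.squarefree_natAbs.2 hu)
    rw [Int.abs_eq_natAbs]
    conv_rhs => rw [← this]
    push_cast
    rfl
  have h2 : ∏ q ∈ u.natAbs.primeFactors, gg q = |u| := by
    rw [← h1]
    exact Finset.prod_congr rfl fun i hi => gg_pos (Nat.prime_of_mem_primeFactors hi).ne_zero
  have h3 : ∀ q ∈ u.natAbs.primeFactors, q ∈ II m := by
    intro q hq
    have hq' := Nat.mem_primeFactors.1 hq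
    exact mem_II.2 (Or.inr (hp q hq'.1 (Int.natCast_dvd.2 hq'.2.1)))
  have h0 : 0 ∉ u.natAbs.primeFactors := fun h => (Nat.prime_of_mem_primeFactors h).ne_zero rfl
  by_cases hneg : u < 0
  · refine ⟨insert 0 u.natAbs.primeFactors, ?_, ?_⟩
    · intro i hi
      rcases Finset.mem_insert.1 hi with hi | hi
      · exact mem_II.2 (Or.inl ⟨hi, hs hneg⟩)
      · exact h3 i hi
    · unfold Ps
      rw [Finset.prod_insert h0, h2, abs_of_neg hneg]
      have h3 : gg 0 = -1 := if_pos rfl
      rw [h3]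
      ring
  · refine ⟨u.natAbs.primeFactors, h3, ?_⟩
    unfold Ps
    rw [h2, abs_of_nonneg (not_lt.1 hneg)]

/-! ### the functionals -/

/-- the coefficients -/
noncomputable def BB (m : ℤ) (p i : ℕ) : ZMod 2 :=
  if i = 0 then al m p else if i ∈ RS m then LL m i p else 0

/-- the conditions -/
noncomputable def CC (m : ℤ) : Finset ℕ :=
  (((RS m).erase 17).filter fun q => nu q = 0) ∪
    (if 17 ∈ RS m ∧ lam 17 m = 0 then {17} else ∅)

theorem mem_CC {m : ℤ} {p : ℕ} : p ∈ CC m ↔ (p ∈ RS m ∧ p ≠ 17 ∧ nu p = 0) ∨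
    (p = 17 ∧ 17 ∈ RS m ∧ lam 17 m = 0) := by
  unfold CC
  rw [Finset.mem_union, Finset.mem_filter, Finset.mem_erase]
  split_ifs with h
  · rw [Finset.mem_singleton]
    tauto
  · simp only [Finset.notMem_empty, or_false]
    tauto

theorem CC_RS {m : ℤ} {p : ℕ} (h : p ∈ CC m) : p ∈ RS m := by
  rcases mem_CC.1 h with h | h
  · exact h.1
  · rw [h.1]; exact h.2.1

/-- a sum over a subset of `II m` -/
theorem sum_T {m : ℤ} {T : Finset ℕ} (hT : T ⊆ II m) (f : ℕ → ZMod 2) :
    ∑ i ∈ T, f i = (if 0 ∈ T then f 0 else 0) +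
      ∑ q ∈ RS m, (if q ∈ T then 1 else 0) * f q +
      (if 17 ∈ T ∧ 17 ∉ RS m then f 17 else 0) := by
  have e1 : ∑ i ∈ T, f i = ∑ i ∈ insert 0 (insert 17 (RS m)), (if i ∈ T then f i else 0) := by
    rw [← Finset.sum_filter]
    refine Finset.sum_congr ?_ fun _ _ => rfl
    ext i
    rw [Finset.mem_filter, Finset.mem_insert, Finset.mem_insert]
    constructor
    · intro h
      rcases mem_II.1 (hT h) with h' | h' | h'
      · exact ⟨Or.inl h'.1, h⟩
      · exact ⟨Or.inr (Or.inl h'), h⟩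
      · exact ⟨Or.inr (Or.inr h'), h⟩
    · exact fun h => h.2
  have h0 : 0 ∉ insert 17 (RS m) := by
    rw [Finset.mem_insert]
    push Not
    exact ⟨by norm_num, zero_RS⟩
  rw [e1, Finset.sum_insert h0]
  have e2 : ∑ q ∈ RS m, (if q ∈ T then 1 else 0) * f q = ∑ q ∈ RS m, if q ∈ T then f q else 0 := by
    refine Finset.sum_congr rfl fun q _ => ?_
    split_ifs
    · rw [one_mul]
    · rw [zero_mul]
  rw [e2]
  by_cases h17 : 17 ∈ RS m
  · have e3 : (if 17 ∈ T ∧ 17 ∉ RS m then f 17 else 0) = 0 := if_neg (fun h => h.2 h17)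
    rw [Finset.insert_eq_of_mem h17, e3, add_zero]
  · rw [Finset.sum_insert h17]
    by_cases hT17 : 17 ∈ T
    · have e3 : (if 17 ∈ T ∧ 17 ∉ RS m then f 17 else 0) = f 17 := if_pos ⟨hT17, h17⟩
      rw [if_pos hT17, e3]
      ring
    · have e3 : (if 17 ∈ T ∧ 17 ∉ RS m then f 17 else 0) = 0 := if_neg (fun h => hT17 h.1)
      rw [if_neg hT17, e3]
      ring

theorem sum_B {m : ℤ} {T : Finset ℕ} (hT : T ⊆ II m) (p : ℕ) :
    ∑ i ∈ T, BB m p i = (if 0 ∈ T then al m p else 0) +
      ∑ q ∈ RS m, LL m q p * (if q ∈ T then 1 else 0) := by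
  rw [sum_T hT]
  have e1 : BB m p 0 = al m p := if_pos rfl
  have e2 : ∑ q ∈ RS m, (if q ∈ T then 1 else 0) * BB m p q =
      ∑ q ∈ RS m, LL m q p * (if q ∈ T then 1 else 0) := by
    refine Finset.sum_congr rfl fun q hq => ?_
    have e : BB m p q = LL m q p := by
      unfold BB
      rw [if_neg (fun h => zero_RS (h ▸ hq)), if_pos hq]
    rw [e, mul_comm]
  have e3 : (if 17 ∈ T ∧ 17 ∉ RS m then BB m p 17 else 0) = 0 := by
    split_ifs with h
    · unfold BB
      rw [if_neg (by norm_num), if_neg h.2]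
    · rfl
  rw [e1, e2, e3, add_zero]

/-- the value of a character on the representative -/
theorem F_Ps {m : ℤ} {T : Finset ℕ} (hT : T ⊆ II m) {F : ℤ → ZMod 2} (hF : AddH F)
    (h17 : F ((17 : ℕ) : ℤ) = 0) : F (Ps T) = (if 0 ∈ T then F (-1) else 0) +
      ∑ q ∈ RS m, (if q ∈ T then 1 else 0) * F q := by
  rw [Ps_add hT hF, sum_T hT]
  have e1 : gg 0 = -1 := if_pos rfl
  have e2 : ∑ q ∈ RS m, (if q ∈ T then 1 else 0) * F (gg q) =
      ∑ q ∈ RS m, (if q ∈ T then 1 else 0) * F q := by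
    refine Finset.sum_congr rfl fun q hq => ?_
    rw [gg_pos (fun h => zero_RS (h ▸ hq))]
  have e3 : gg 17 = ((17 : ℕ) : ℤ) := gg_pos (by norm_num)
  rw [e1, e2, e3, h17, ite_self, add_zero]

/-- odd primes different from `17` -/
theorem cond_odd {m : ℤ} (hm : Squarefree m) {T : Finset ℕ} (hT : T ⊆ II m) {p : ℕ}
    (hp : p ∈ RS m) (h2 : p ≠ 2) (h17 : p ≠ 17) (hnu : nu p = 0) :
    ∑ i ∈ T, BB m p i = lam p (Ps T) + ind p (Ps T) * lam p (-m) := by
  have hpp := RS_pr hp
  haveI : Fact p.Prime := ⟨hpp⟩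
  have hm0 := hm.ne_zero
  have e17 : Lm p ((17 : ℕ) : ℤ) = 0 := by
    have h3 : ¬ (p : ℤ) ∣ ((17 : ℕ) : ℤ) := QSYSF.ndvd hpp (by norm_num) h17
    rw [QSYSF.Lm_unit h3]
    unfold nu at hnu
    rw [if_neg h2] at hnu
    exact_mod_cast hnu
  rw [QSYSF.sf_lam (Ps_sqf hT), QSYSF.sf_ind (Ps_sqf hT), QSYSF.sf_lam (QSYSF.sf_neg hm),
    sum_B hT, QSYSF.col hm _ hp h2, QSYSF.G_odd h2, F_Ps hT (QSYSF.Lm_addH p) e17,
    Ps_V hT hpp, QSYSF.F_neg (QSYSF.Lm_addH p) hm0, QSYSF.al_odd hm hp h2,
    QSYSF.Lm_neg_one hpp h2, QSYSF.z2sq]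
  generalize ∑ q ∈ RS m, (if q ∈ T then 1 else 0) * Lm p q = S
  generalize Lm p m = b
  ring

/-- the prime `2` -/
theorem cond_two {m : ℤ} (hm : Squarefree m) {T : Finset ℕ} (hT : T ⊆ II m)
    (hp : 2 ∈ RS m) : ∑ i ∈ T, BB m 2 i = h2 (Ps T) m := by
  have hpp := Nat.prime_two
  haveI : Fact (Nat.Prime 2) := ⟨hpp⟩
  unfold h2
  rw [QSYSF.sf_e4 (Ps_sqf hT), QSYSF.sf_e4 hm, QSYSF.sf_ind (Ps_sqf hT), QSYSF.sf_e8 hm,
    QSYSF.sf_ind hm, QSYSF.sf_e8 (Ps_sqf hT), sum_B hT, QSYSF.col2 hm _ hp,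
    F_Ps hT QSYSF.A4_addH QSYSF.A4_17, F_Ps hT QSYSF.A8_addH QSYSF.A8_17, Ps_V hT hpp,
    QSYSF.al_two hm hp, QSYSF.A4_neg_one, QSYSF.A8_neg_one, ite_self, zero_add]
  generalize ∑ q ∈ RS m, (if q ∈ T then 1 else 0) * A4 q = S
  generalize ∑ q ∈ RS m, (if q ∈ T then 1 else 0) * A8 q = S'
  split_ifs <;> ring

/-- the prime `17` -/
theorem cond_17 {m : ℤ} (hm : Squarefree m) {T : Finset ℕ} (hT : T ⊆ II m)
    (hp : 17 ∈ RS m) (hl : lam 17 m = 0) : ∑ i ∈ T, BB m 17 i = lam 17 (Ps T) := by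
  have hpp : Nat.Prime 17 := by norm_num
  haveI : Fact (Nat.Prime 17) := ⟨hpp⟩
  have e17 : Lm 17 ((17 : ℕ) : ℤ) = 0 := QSYSF.Lm_self 17
  rw [QSYSF.sf_lam hm] at hl
  have e1 : Lm 17 (-1) = 0 := by
    rw [QSYSF.Lm_neg_one hpp (by norm_num)]
    exact QSYSF.A4_17
  rw [QSYSF.sf_lam (Ps_sqf hT), sum_B hT, QSYSF.col hm _ hp (by norm_num),
    QSYSF.G_odd (by norm_num), F_Ps hT (QSYSF.Lm_addH 17) e17, al17, hl, e1, ite_self, mul_zero,
    add_zero, mul_zero, add_zero]

/-- the conditions -/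
theorem UC2_iff {m : ℤ} (hm : Squarefree m) {T : Finset ℕ} (hT : T ⊆ II m) :
    UC2 m (Ps T) ↔ ∀ p ∈ CC m, ∑ i ∈ T, BB m p i = 0 := by
  have hm0 := hm.ne_zero
  have hzz : ∀ a b : ZMod 2, a + b = 0 ↔ a = b := by decide
  constructor
  · intro h p hp
    rcases mem_CC.1 hp with ⟨h1, h2, h3⟩ | ⟨rfl, h2, h3⟩
    · by_cases hp2 : p = 2
      · subst hp2
        rw [cond_two hm hT h1]
        exact h.e2 ((QSYSF.two_RS hm).1 h1)
      · rw [cond_odd hm hT h1 hp2 h2 h3, hzz]
        have hpp := RS_pr h1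
        refine h.odd p hpp hp2 h2 (QSYSF.dvd_of_RS hm h1 hp2) ?_
        rw [QSYSB.lam17 hpp hp2 h2]
        exact h3
    · rw [cond_17 hm hT h2 h3]
      exact h.r17 (by exact_mod_cast QSYSF.dvd_of_RS hm h2 (by norm_num)) h3
  · intro h
    have hdv : ∀ q : ℕ, q.Prime → (q : ℤ) ∣ Ps T → q ∈ T := by
      intro q hq hd
      by_contra hc
      haveI : Fact q.Prime := ⟨hq⟩
      have h1 := Ps_V hT hq
      rw [if_neg hc, QSYSF.V_one (Ps_sqf hT) hq hd] at h1
      exact absurd h1 (by decide)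
    refine ⟨?_, ?_, ?_, ?_, ?_, ?_⟩
    · intro hneg
      apply QSYSF.pos_of_sg (Ps_ne hT)
      rw [Ps_sg hT, if_neg]
      intro h0
      rcases mem_II.1 (hT h0) with h1 | h1 | h1
      · omega
      · exact absurd h1 (by norm_num)
      · exact zero_RS h1
    · intro p hp hp2 hp17 hpm hd
      rcases mem_II.1 (hT (hdv p hp hd)) with h1 | h1 | h1
      · exact hp.ne_zero h1.1
      · exact hp17 h1
      · exact hpm (QSYSF.dvd_of_RS hm h1 hp2)
    · intro p hp hp2 hp17 hpm hl
      have hR : p ∈ RS m := (QSYSF.mem_RS hm0 p).2 ⟨hp, Or.inl hpm⟩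
      rw [QSYSB.lam17 hp hp2 hp17] at hl
      have h1 := h p (mem_CC.2 (Or.inl ⟨hR, hp17, hl⟩))
      rwa [cond_odd hm hT hR hp2 hp17 hl, hzz] at h1
    · intro hpm hl
      have hR : 17 ∈ RS m := (QSYSF.mem_RS hm0 17).2 ⟨by norm_num, Or.inl (by exact_mod_cast hpm)⟩
      have h1 := h 17 (mem_CC.2 (Or.inr ⟨rfl, hR, hl⟩))
      rwa [cond_17 hm hT hR hl] at h1
    · intro h4 hd
      have h1 := hdv 2 Nat.prime_two (by exact_mod_cast hd)
      rcases mem_II.1 (hT h1) with h1 | h1 | h1
      · exact absurd h1.1 (by norm_num)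
      · exact absurd h1 (by norm_num)
      · exact (QSYSF.two_RS hm).1 h1 h4
    · intro h4
      have hR : 2 ∈ RS m := (QSYSF.two_RS hm).2 h4
      have h1 := h 2 (mem_CC.2 (Or.inl ⟨hR, by norm_num, QSYSB.nu_two⟩))
      rwa [cond_two hm hT hR] at h1

/-- the set of the classes -/
theorem set_eq {m : ℤ} (hm : Squarefree m) : {u : ℤ | Squarefree u ∧ UC2 m u} =
    (((II m).powerset.filter fun T => ∀ p ∈ CC m, ∑ i ∈ T, BB m p i = 0).image Ps :
      Finset ℤ) := by
  ext u
  rw [Set.mem_ofPred_eq, Finset.mem_coe, Finset.mem_image]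
  constructor
  · rintro ⟨hu, h⟩
    obtain ⟨T, hT, rfl⟩ := Ps_surj (m := m) hu (fun hneg => by
      by_contra hc
      have hm1 : m < 0 := by
        have := hm.ne_zero
        omega
      have := h.neg hm1
      omega) (fun q hq hd => by
      by_contra hc
      push Not at hc
      have hqm : ¬ (q : ℤ) ∣ m := fun h' => hc.2 ((QSYSF.mem_RS hm.ne_zero q).2 ⟨hq, Or.inl h'⟩)
      by_cases hq2 : q = 2
      · subst hq2
        have h4 : m % 4 = 1 := by
          by_contra h4
          exact hc.2 ((QSYSF.two_RS hm).2 h4)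
        exact h.o2 h4 (by exact_mod_cast hd)
      · exact h.good q hq hq2 hc.1 hqm hd)
    exact ⟨T, Finset.mem_filter.2 ⟨Finset.mem_powerset.2 hT, (UC2_iff hm hT).1 h⟩, rfl⟩
  · rintro ⟨T, hT, rfl⟩
    rw [Finset.mem_filter, Finset.mem_powerset] at hT
    exact ⟨Ps_sqf hT.1, (UC2_iff hm hT.1).2 hT.2⟩

theorem ncard_eq {m : ℤ} (hm : Squarefree m) (hS : Sys m) (hR : Rt m) :
    {u : ℤ | Squarefree u ∧ UC2 m u}.ncard * 2 ^ (CC m).card = 2 ^ (II m).card := by
  rw [set_eq hm, Set.ncard_coe_finset, Finset.card_image_of_injOn]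
  · refine count (II m) (CC m) (BB m) fun D hD h => ?_
    have hDR : ∀ p ∈ D, p ∈ RS m := fun p hp => CC_RS (hD hp)
    have hsum : ∀ f : ℕ → ZMod 2, ∑ p ∈ D, f p = ∑ p ∈ RS m, f p * (if p ∈ D then 1 else 0) := by
      intro f
      have e : ∀ p ∈ RS m, f p * (if p ∈ D then 1 else 0) = if p ∈ D then f p else 0 := by
        intro p _
        split_ifs
        · rw [mul_one]
        · rw [mul_zero]
      rw [Finset.sum_congr rfl e, ← Finset.sum_filter]
      refine Finset.sum_congr ?_ fun _ _ => rfl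
      ext p
      rw [Finset.mem_filter]
      exact ⟨fun hp => ⟨hDR p hp, hp⟩, fun hp => hp.2⟩
    have key := indep hm hS hR (fun p => if p ∈ D then 1 else 0) ?_ ?_ ?_ ?_
    · rw [Finset.eq_empty_iff_forall_notMem]
      intro p hp
      have := key p
      rw [if_pos hp] at this
      exact absurd this (by decide)
    · intro p hp
      exact if_neg fun hc => hp (hDR p hc)
    · intro q hq
      have h1 := h q (mem_II.2 (Or.inr (Or.inr hq)))
      have e : ∀ p ∈ D, BB m p q = LL m q p := by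
        intro p _
        unfold BB
        rw [if_neg (fun h => zero_RS (h ▸ hq)), if_pos hq]
      rw [Finset.sum_congr rfl e, hsum] at h1
      exact h1
    · intro hpos
      have h1 := h 0 (mem_II.2 (Or.inl ⟨rfl, hpos⟩))
      have e : ∀ p ∈ D, BB m p 0 = al m p := fun p _ => if_pos rfl
      rw [Finset.sum_congr rfl e, hsum] at h1
      exact h1
    · intro p hp
      obtain ⟨hp1, hp2⟩ := Finset.mem_erase.1 hp
      split_ifs with hpD
      · rcases mem_CC.1 (hD hpD) with h1 | h1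
        · rw [h1.2.2, zero_mul]
        · exact absurd h1.1 hp1
      · rw [mul_zero]
  · intro T hT T' hT' h
    rw [Finset.mem_coe, Finset.mem_filter, Finset.mem_powerset] at hT hT'
    exact Ps_inj hT.1 hT'.1 h

/-! ### the numbers -/

theorem card_RS_erase {m : ℤ} : ((RS m).erase 17).card =
    nn m + (((RS m).erase 17).filter fun q => nu q = 0).card := by
  unfold nn
  rw [← Finset.card_filter_add_card_filter_not (s := (RS m).erase 17) (fun q => nu q = 1)]
  congr 2
  ext q
  rw [Finset.mem_filter, Finset.mem_filter]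
  refine and_congr_right fun _ => ?_
  have : ∀ a : ZMod 2, ¬ a = 1 ↔ a = 0 := by decide
  exact this _

theorem card_CC {m : ℤ} : (CC m).card = (((RS m).erase 17).filter fun q => nu q = 0).card +
    (if 17 ∈ RS m ∧ lam 17 m = 0 then 1 else 0) := by
  unfold CC
  rw [Finset.card_union_of_disjoint]
  · split_ifs <;> simp
  · split_ifs
    · rw [Finset.disjoint_singleton_right, Finset.mem_filter, Finset.mem_erase]
      exact fun h => h.1.1 rfl
    · exact Finset.disjoint_empty_right _

/-- **UCNT2** -/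
theorem t_UCNT2 : S_UCNT2 := by
  intro m hm _ hS hR
  have hm0 := hm.ne_zero
  have h1 := ncard_eq hm hS hR
  refine ⟨by rw [set_eq hm]; exact Finset.finite_toSet _, ?_⟩
  have hc := card_RS_erase (m := m)
  rw [card_CC] at h1
  generalize (((RS m).erase 17).filter fun q => nu q = 0).card = k at h1 hc
  have h17 : (17 : ℤ) ∣ m ↔ 17 ∈ RS m := by
    rw [QSYSF.mem_RS hm0 17]
    constructor
    · intro h; exact ⟨by norm_num, Or.inl (by exact_mod_cast h)⟩
    · rintro ⟨-, h | h⟩
      · exact_mod_cast h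
      · exact absurd h.1 (by norm_num)
  have hcan : ∀ N a b : ℕ, N * 2 ^ a = 2 ^ (b + a) → N = 2 ^ b := by
    intro N a b h
    rw [pow_add] at h
    exact Nat.eq_of_mul_eq_mul_right (pow_pos (by norm_num) a) h
  by_cases hpos : 0 < m
  · rw [if_pos hpos]
    have hn17 : 17 ∉ RS m := by
      intro h
      rcases hR with hR | hR
      · have h4 := h17.2 h
        have h5 : jacobiSym m 17 = 0 := by
          rw [jacobiSym.eq_zero_iff_not_coprime]
          intro h6
          have h7 : (17 : ℤ) ∣ (Int.gcd m 17 : ℤ) := Int.dvd_coe_gcd h4 (by norm_num)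
          have h8 : Int.gcd m 17 = 1 := h6
          rw [h8] at h7
          norm_num at h7
        rw [h5] at hR
        exact absurd hR.2 (by norm_num)
      · omega
    have hI : (II m).card = (RS m).card + 2 := by
      unfold II
      rw [if_pos hpos, Finset.card_insert_of_notMem, Finset.card_insert_of_notMem hn17]
      rw [Finset.mem_insert]
      push Not
      exact ⟨by norm_num, zero_RS⟩
    rw [Finset.erase_eq_of_notMem hn17] at hc
    rw [if_neg (fun h => hn17 h.1), add_zero, hI, hc,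
      show nn m + k + 2 = (nn m + 2) + k by ring] at h1
    exact hcan _ _ _ h1
  · rw [if_neg hpos]
    by_cases hd : (17 : ℤ) ∣ m
    · rw [if_pos hd]
      have hR17 := h17.1 hd
      have hI : (II m).card = (RS m).card := by
        unfold II
        rw [if_neg hpos, Finset.insert_eq_of_mem hR17]
      have hRc : (RS m).card = ((RS m).erase 17).card + 1 := by
        rw [Finset.card_erase_of_mem hR17]
        have := Finset.card_pos.2 ⟨17, hR17⟩
        omega
      rw [hI, hRc, hc] at h1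
      rcases z2 (lam 17 m) with hl | hl
      · rw [if_pos ⟨hR17, hl⟩, show nn m + k + 1 = nn m + (k + 1) by ring] at h1
        rw [hl]
        exact hcan _ _ _ h1
      · rw [if_neg (fun h => by rw [hl] at h; exact absurd h.2 (by decide)), add_zero,
          show nn m + k + 1 = (nn m + 1) + k by ring] at h1
        rw [hl]
        exact hcan _ _ _ h1
    · rw [if_neg hd]
      have hn17 : 17 ∉ RS m := fun h => hd (h17.2 h)
      have hI : (II m).card = (RS m).card + 1 := by
        unfold II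
        rw [if_neg hpos, Finset.card_insert_of_notMem hn17]
      rw [Finset.erase_eq_of_notMem hn17] at hc
      rw [if_neg (fun h => hn17 h.1), add_zero, hI, hc,
        show nn m + k + 1 = (nn m + 1) + k by ring] at h1
      exact hcan _ _ _ h1

end Pool.Agent.H743.X17.QUCNT2
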