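import Pool.Agent.H743.X17.NECODD

/-!
# X17 NEC17: local conditions at 17 (necessary)
-/

set_option autoImplicit false
set_option linter.all false

open scoped Classical

namespace Pool.Agent.H743.X17.Q962

open Pool.Agent.H743.X17
open Pool.Agent.H468.X15 (ps dec pI val_of ps_of ps_unit val_unit val_p ps_p nd_mul nd_pow ps_mul
  val_mul jac_sq jac_pm jac_mul_self jac_mul_sq jac_congr ps_sq val_sq ps_pm nd_of_coprime
  sq_val sq_ps)

theorem t_NEC17 : S_NEC17 := by
  intro hp m u v hm hu hv h
  have n1 := nd1 (p := 17)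
  have J1 : J 17 (-1) = 0 := by
    unfold J
    rw [if_pos (by norm_num)]
  have Jn : ∀ w : ℤ, ¬ ((17 : ℕ) : ℤ) ∣ w → J 17 (-w) = J 17 w := fun w hw => by
    rw [show -w = -1 * w by ring, J_mul n1 hw, J1, zero_add]
  obtain ⟨r, t, hrt, a1, a2, a3, b1, b2, b3, b4, b5, b6⟩ := data hu hv h
  constructor
  · intro hpm'
    have hpm : ¬ ((17 : ℕ) : ℤ) ∣ m := by exact_mod_cast hpm'
    have em : lam 17 m = J 17 m := by
      have e : up 17 m = m := by
        unfold up
        rw [if_neg hpm]
      unfold lam J
      rw [e]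
    have key : V 17 r = 0 ∧ L 17 r = V 17 (r + m * t ^ 2) * J 17 m := by
      by_cases hr : ((17 : ℕ) : ℤ) ∣ r
      · have ht := nd_of_coprime hrt hr
        obtain ⟨-, q1, q2⟩ := L_near (n := r + m * t ^ 2) (w := m) hpm ht (by
          rw [add_sub_cancel_right]; exact hr)
        obtain ⟨-, q3, q4⟩ := L_near (n := r + -16 * m * t ^ 2) (w := m) hpm ht (by
          rw [show r + -16 * m * t ^ 2 - m * t ^ 2 = r - ((17 : ℕ) : ℤ) * (m * t ^ 2) by
            push_cast; ring]
          exact dvd_sub hr (dvd_mul_right _ _))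
        rw [q1, q3] at b5
        rw [q2, q4] at b6
        rw [q1]
        refine ⟨by simpa using b5, ?_⟩
        rw [zero_mul]
        rw [add_assoc, CharTwo.add_self_eq_zero, add_zero] at b6
        exact b6
      · refine ⟨V_unit hr, ?_⟩
        by_cases hB : ((17 : ℕ) : ℤ) ∣ r + m * t ^ 2
        · have ht : ¬ ((17 : ℕ) : ℤ) ∣ t := by
            intro h'
            apply hr
            have h1 : ((17 : ℕ) : ℤ) ∣ m * t ^ 2 := Dvd.dvd.mul_left (Dvd.dvd.pow h' two_ne_zero) _
            have := dvd_sub hB h1
            rwa [add_sub_cancel_right] at this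
          obtain ⟨-, -, q2⟩ := L_near (n := r) (w := -m) (ndn hpm) ht (by
            rw [show r - -m * t ^ 2 = r + m * t ^ 2 by ring]; exact hB)
          rw [Jn _ hpm] at q2
          have hvr := V_unit hr
          obtain ⟨s, hs⟩ := hB
          have eC : r + -16 * m * t ^ 2 = ((17 : ℕ) : ℤ) * (s - m * t ^ 2) := by
            have : r = ((17 : ℕ) : ℤ) * s - m * t ^ 2 := by linarith
            rw [this]; push_cast; ring
          rw [hs] at a2 b5 ⊢
          rw [eC] at a3 b5
          have c2 := right_ne_zero_of_mul a2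
          have c3 := right_ne_zero_of_mul a3
          have hV : V 17 (((17 : ℕ) : ℤ) * s) = 1 := by
            by_cases hs : ((17 : ℕ) : ℤ) ∣ s
            · have hC : ¬ ((17 : ℕ) : ℤ) ∣ s - m * t ^ 2 := by
                intro h'
                have := dvd_sub hs h'
                rw [sub_sub_cancel] at this
                exact nd_mul hpm (nd_pow ht 2) this
              rw [V_p c3, V_unit hC, hvr] at b5
              generalize V 17 (((17 : ℕ) : ℤ) * s) = x at *
              revert b5
              revert x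
              decide
            · rw [V_p c2, V_unit hs]
              rfl
          rw [hV, one_mul, q2]
        · have hC : ((17 : ℕ) : ℤ) ∣ r + -16 * m * t ^ 2 - (r + m * t ^ 2) :=
            ⟨-m * t ^ 2, by push_cast; ring⟩
          have uC : ¬ ((17 : ℕ) : ℤ) ∣ r + -16 * m * t ^ 2 := by
            intro h'
            have := dvd_sub h' hC
            rw [sub_sub_cancel] at this
            exact hB this
          rw [L_unit hB, L_unit uC, J_congr hC, add_assoc, CharTwo.add_self_eq_zero,
            add_zero] at b6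
          rw [V_unit hB, zero_mul, b6]
    obtain ⟨k1, k2⟩ := key
    rw [b2, b3, ← em] at k2
    rw [b1] at k1
    refine ⟨?_, k2⟩
    intro h'
    unfold ind at k1
    rw [if_pos (by exact_mod_cast h')] at k1
    exact one_ne_zero k1
  · intro hpm
    have hpm : ((17 : ℕ) : ℤ) ∣ m := by exact_mod_cast hpm
    obtain ⟨m', rfl⟩ := hpm
    have hm' : ¬ ((17 : ℕ) : ℤ) ∣ m' := by
      rintro ⟨k, rfl⟩
      exact pI.not_unit (hm ((17 : ℕ) : ℤ) ⟨k, by ring⟩)
    have hpz : ((17 : ℕ) : ℤ) ≠ 0 := by norm_num
    have em : lam 17 (((17 : ℕ) : ℤ) * m') = J 17 m' := by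
      have e : up 17 (((17 : ℕ) : ℤ) * m') = m' := by
        unfold up
        rw [if_pos (dvd_mul_right _ _), Int.mul_ediv_cancel_left _ hpz]
      unfold lam J
      rw [e]
    rw [em, ← b1, ← b2, ← b3, ← b4]
    clear b1 b2 b3 b4
    by_cases hr : ((17 : ℕ) : ℤ) ∣ r
    · have ht := nd_of_coprime hrt hr
      obtain ⟨a, rfl⟩ := hr
      have eB : ((17 : ℕ) : ℤ) * a + ((17 : ℕ) : ℤ) * m' * t ^ 2 =
        ((17 : ℕ) : ℤ) * (a + m' * t ^ 2) := by ring
      have eC : ((17 : ℕ) : ℤ) * a + -16 * (((17 : ℕ) : ℤ) * m') * t ^ 2 =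
        ((17 : ℕ) : ℤ) * (a - 16 * m' * t ^ 2) := by ring
      rw [eB] at a2 b5 b6 ⊢
      rw [eC] at a3 b5 b6
      have c1 := right_ne_zero_of_mul a1
      have c2 := right_ne_zero_of_mul a2
      have c3 := right_ne_zero_of_mul a3
      rw [V_p c1, V_p c2, V_p c3] at b5
      rw [L_p c1, L_p c2, L_p c3] at b6
      rw [V_p c1, V_p c2, L_p c1, L_p c2]
      by_cases k1 : ((17 : ℕ) : ℤ) ∣ a
      · obtain ⟨-, q1, q2⟩ := L_near (n := a + m' * t ^ 2) (w := m') hm' ht (by
          rw [add_sub_cancel_right]; exact k1)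
        obtain ⟨-, q3, q4⟩ := L_near (n := a - 16 * m' * t ^ 2) (w := m') hm' ht (by
          rw [show a - 16 * m' * t ^ 2 - m' * t ^ 2 = a - ((17 : ℕ) : ℤ) * (m' * t ^ 2) by
            push_cast; ring]
          exact dvd_sub k1 (dvd_mul_right _ _))
        rw [q1, q3] at b5
        rw [q2, q4] at b6
        rw [q1, q2]
        generalize V 17 a = x1 at *
        generalize L 17 a = x2 at *
        generalize J 17 m' = x3 at *
        clear em q2 q4 Jn J1
        revert x1 x2 x3
        decide
      · have v1 := V_unit k1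
        rw [v1] at b5 ⊢
        by_cases k2 : ((17 : ℕ) : ℤ) ∣ a + m' * t ^ 2
        · obtain ⟨-, -, q2⟩ := L_near (n := a) (w := -m') (ndn hm') ht (by
            rw [show a - -m' * t ^ 2 = a + m' * t ^ 2 by ring]; exact k2)
          rw [Jn _ hm'] at q2
          obtain ⟨s, hs⟩ := k2
          have eC' : a - 16 * m' * t ^ 2 = ((17 : ℕ) : ℤ) * (s - m' * t ^ 2) := by
            have : a = ((17 : ℕ) : ℤ) * s - m' * t ^ 2 := by linarith
            rw [this]; push_cast; ring
          rw [hs] at c2 b5 b6 ⊢
          rw [eC'] at c3 b5 b6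
          have d2 := right_ne_zero_of_mul c2
          have d3 := right_ne_zero_of_mul c3
          rw [V_p d2, V_p d3] at b5
          rw [L_p d2, L_p d3] at b6
          rw [V_p d2, L_p d2]
          by_cases k3 : ((17 : ℕ) : ℤ) ∣ s
          · obtain ⟨-, q3, q4⟩ := L_near (n := s - m' * t ^ 2) (w := -m') (ndn hm') ht (by
              rw [show s - m' * t ^ 2 - -m' * t ^ 2 = s by ring]; exact k3)
            rw [Jn _ hm'] at q4
            rw [q3] at b5
            rw [q4, q2] at b6
            rw [q2]
            generalize V 17 s = x1 at *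
            generalize L 17 s = x2 at *
            generalize J 17 m' = x3 at *
            clear em q2 q4 Jn J1
            revert x1 x2 x3
            decide
          · have v2 := V_unit k3
            rw [v2] at b5 ⊢
            by_cases k4 : ((17 : ℕ) : ℤ) ∣ s - m' * t ^ 2
            · obtain ⟨-, q3, q4⟩ := L_near (n := s) (w := m') hm' ht k4
              rw [q2, q4]
              generalize J 17 m' = x3 at *
              clear em q2 q4 Jn J1 b5 b6
              revert x3
              decide
            · exfalso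
              rw [V_unit k4] at b5
              revert b5
              decide
        · exfalso
          have hC : ¬ ((17 : ℕ) : ℤ) ∣ a - 16 * m' * t ^ 2 := by
            intro h'
            apply k2
            have := dvd_add h' (dvd_mul_right ((17 : ℕ) : ℤ) (m' * t ^ 2))
            rwa [show a - 16 * m' * t ^ 2 + ((17 : ℕ) : ℤ) * (m' * t ^ 2) = a + m' * t ^ 2 by
              push_cast; ring] at this
          rw [V_unit k2, V_unit hC] at b5
          revert b5
          decide
    · obtain ⟨q1, q2, q3, q4⟩ := all_units hr (b := r + ((17 : ℕ) : ℤ) * m' * t ^ 2)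
        (c := r + -16 * (((17 : ℕ) : ℤ) * m') * t ^ 2) ⟨m' * t ^ 2, by ring⟩
        ⟨-16 * m' * t ^ 2, by ring⟩ b6
      rw [q1, q2, q3, q4]
      simp

end Pool.Agent.H743.X17.Q962
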