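import Pool.Agent.H743.X17.NECODD

/-!
# X17 NECA: local conditions at infinity and at the good primes (necessary)
-/

set_option autoImplicit false
set_option linter.all false

open scoped Classical

namespace Pool.Agent.H743.X17.Q962

open Pool.Agent.H743.X17
open Pool.Agent.H468.X15 (ps dec pI val_of ps_of ps_unit val_unit val_p ps_p nd_mul nd_pow ps_mul
  val_mul jac_sq jac_pm jac_mul_self jac_mul_sq jac_congr ps_sq val_sq ps_pm nd_of_coprime
  sq_val sq_ps)

theorem t_NECINF : S_NECINF := by
  intro m u v hm hu hv h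
  obtain ⟨x, y, hy, hxy, ⟨s, hs⟩, ⟨w, hw⟩⟩ := h
  obtain ⟨n1, n2, n3⟩ := LS.ne hy hxy
  have hy2 : 0 < y ^ 2 := by positivity
  have hs2 : 0 ≤ x * u := by rw [hs]; exact mul_self_nonneg s
  have hw2 : 0 ≤ (x + m) * v := by rw [hw]; exact mul_self_nonneg w
  have hu0 : (u : ℝ) ≠ 0 := by exact_mod_cast hu.ne_zero
  have hv0 : (v : ℝ) ≠ 0 := by exact_mod_cast hv.ne_zero
  rw [hxy] at hy2
  push_cast at hy2 n3
  constructor
  · intro hm0
    have hmR : (0 : ℝ) < m := by exact_mod_cast hm0
    have h1 : 0 < x + m := by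
      by_contra hcon
      push Not at hcon
      have h2 : x + m < 0 := lt_of_le_of_ne hcon n2
      have h3 : x < 0 := by linarith
      have h4 : x + -16 * m < 0 := by linarith
      have h5 : 0 < x * (x + m) := mul_pos_of_neg_of_neg h3 h2
      have h6 := mul_neg_of_pos_of_neg h5 h4
      linarith
    have h2 : 0 ≤ (v : ℝ) := nonneg_of_mul_nonneg_right hw2 h1
    have h3 : 0 < (v : ℝ) := lt_of_le_of_ne h2 (Ne.symm hv0)
    exact_mod_cast h3
  · intro hm0
    have hmR : (m : ℝ) < 0 := by exact_mod_cast hm0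
    -- `x` and `x + m` have the same sign
    have h1 : 0 < x * (x + m) := by
      rcases lt_or_gt_of_ne n1 with h2 | h2
      · exact mul_pos_of_neg_of_neg h2 (by linarith)
      · have h3 : 0 < x + -16 * m := by linarith
        exact pos_of_mul_pos_left (by linarith) h3.le
    have h2 : 0 ≤ (x * (x + m)) * (u * v) := by
      have := mul_nonneg hs2 hw2
      linarith
    have h3 : 0 ≤ (u : ℝ) * v := nonneg_of_mul_nonneg_right h2 h1
    have h4 : 0 < (u : ℝ) * v := lt_of_le_of_ne h3 (Ne.symm (mul_ne_zero hu0 hv0))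
    exact_mod_cast h4

theorem t_NECGOOD : S_NECGOOD := by
  intro p hp m u v h2 h17 hpm hu hv h
  have n2 := nd2 h2
  have n17 := nd17 h17
  have n16 : ¬ (p : ℤ) ∣ 16 := by
    have := nd_pow n2 4
    norm_num at this
    exact this
  obtain ⟨r, t, hrt, a1, a2, a3, b1, b2, b3, b4, b5, b6⟩ := data hu hv h
  have key : V p r = 0 ∧ V p (r + m * t ^ 2) = 0 := by
    by_cases ht : (p : ℤ) ∣ t
    · have hr : ¬ (p : ℤ) ∣ r := nd_of_coprime hrt.symm ht
      have hB : ¬ (p : ℤ) ∣ r + m * t ^ 2 := by
        intro h'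
        have h1 : (p : ℤ) ∣ m * t ^ 2 := Dvd.dvd.mul_left (Dvd.dvd.pow ht two_ne_zero) _
        have := dvd_sub h' h1
        rw [add_sub_cancel_right] at this
        exact hr this
      exact ⟨V_unit hr, V_unit hB⟩
    · have nmt := nd_mul hpm (nd_pow ht 2)
      by_cases hr : (p : ℤ) ∣ r
      · have hB : ¬ (p : ℤ) ∣ r + m * t ^ 2 := by
          intro h'
          have := dvd_sub h' hr
          rw [add_sub_cancel_left] at this
          exact nmt this
        have hC : ¬ (p : ℤ) ∣ r + -16 * m * t ^ 2 := by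
          intro h'
          have := dvd_sub h' hr
          rw [show r + -16 * m * t ^ 2 - r = -(16 * (m * t ^ 2)) by ring] at this
          exact ndn (nd_mul n16 nmt) this
        rw [V_unit hB, V_unit hC] at b5
        refine ⟨?_, V_unit hB⟩
        simpa using b5
      · by_cases hB : (p : ℤ) ∣ r + m * t ^ 2
        · have hC : ¬ (p : ℤ) ∣ r + -16 * m * t ^ 2 := by
            intro h'
            have := dvd_sub hB h'
            rw [show r + m * t ^ 2 - (r + -16 * m * t ^ 2) = 17 * (m * t ^ 2) by ring] at this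
            exact nd_mul n17 nmt this
          rw [V_unit hr, V_unit hC] at b5
          refine ⟨V_unit hr, ?_⟩
          simpa using b5
        · exact ⟨V_unit hr, V_unit hB⟩
  rw [b1, b3] at key
  obtain ⟨k1, k2⟩ := key
  unfold ind at k1 k2
  constructor
  · intro h'
    rw [if_pos h'] at k1
    exact one_ne_zero k1
  · intro h'
    rw [if_pos h'] at k2
    exact one_ne_zero k2

theorem t_NECA : S_NECINF ∧ S_NECGOOD := ⟨t_NECINF, t_NECGOOD⟩

end Pool.Agent.H743.X17.Q962
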