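import Pool.Agent.H743.X17.Kit
import Pool.Agent.H743.X17.Stm2

/-!
# The local conditions are sufficient at `17`
-/

set_option autoImplicit false
set_option linter.unusedSectionVars false

open scoped Classical

namespace Pool.Agent.H743.X17.QSUF17

open Pool.Agent.H743.X17
open Pool.Agent.H468.X15 (jac_pm sq_of_jac)

section

variable [hf : Fact (Nat.Prime 17)]

/-- squares in `ℚ_17` -/
def SQ (n : ℤ) : Prop := IsSquare ((n : ℤ) : ℚ_[17])

theorem SQ.mul {a b c : ℤ} (h : c = a * b) (ha : SQ a) (hb : SQ b) : SQ c := by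
  subst h
  unfold SQ at *
  push_cast
  exact IsSquare.mul ha hb

theorem SQ.sq {a c : ℤ} (h : c = a * a) : SQ c := by
  subst h
  exact ⟨(a : ℚ_[17]), by push_cast; ring⟩

theorem SQ.of_jac {a : ℤ} (ha : ¬ (17 : ℤ) ∣ a) (h : jacobiSym a 17 = 1) : SQ a :=
  sq_of_jac (p := 17) (by norm_num) (by exact_mod_cast ha) h

theorem sq_neg_one : SQ (-1) := SQ.of_jac (by decide) (by norm_num)

theorem lam_unit {n : ℤ} (h : ¬ (17 : ℤ) ∣ n) :
    lam 17 n = if jacobiSym n 17 = 1 then 0 else 1 := by
  unfold lam up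
  have h' : ¬ ((17 : ℕ) : ℤ) ∣ n := by exact_mod_cast h
  rw [if_neg h']

theorem lam_mul17 {n : ℤ} (h : ¬ (17 : ℤ) ∣ n) : lam 17 (17 * n) = lam 17 n := by
  rw [lam_unit h]
  unfold lam up
  have h1 : ((17 : ℕ) : ℤ) ∣ 17 * n := by
    push_cast; exact dvd_mul_right _ _
  rw [if_pos h1]
  have h2 : 17 * n / ((17 : ℕ) : ℤ) = n := by
    push_cast; omega
  rw [h2]

theorem ind_unit {n : ℤ} (h : ¬ (17 : ℤ) ∣ n) : ind 17 n = 0 := by
  unfold ind
  rw [if_neg (by exact_mod_cast h)]

theorem ind_mul17 {n : ℤ} : ind 17 (17 * n) = 1 := by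
  unfold ind
  rw [if_pos (by push_cast; exact dvd_mul_right _ _)]

theorem lam_cases (n : ℤ) : lam 17 n = 0 ∨ lam 17 n = 1 := by
  unfold lam
  split_ifs
  · exact Or.inl rfl
  · exact Or.inr rfl

/-- two units with the same symbol -/
theorem SQ.units {a b : ℤ} (ha : ¬ (17 : ℤ) ∣ a) (hb : ¬ (17 : ℤ) ∣ b) (h : lam 17 a = lam 17 b) :
    SQ (a * b) := by
  refine SQ.of_jac ?_ ?_
  · intro h'
    have : Prime (17 : ℤ) := by
      have := Nat.prime_iff_prime_int.1 hf.out
      exact_mod_cast this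
    rcases this.dvd_or_dvd h' with h1 | h1
    · exact ha h1
    · exact hb h1
  · rw [jacobiSym.mul_left]
    rw [lam_unit ha, lam_unit hb] at h
    rcases jac_pm (p := 17) (u := a) (by exact_mod_cast ha) with h1 | h1 <;>
    rcases jac_pm (p := 17) (u := b) (by exact_mod_cast hb) with h2 | h2 <;>
    rw [h1, h2] at h ⊢ <;> simp at h ⊢

theorem SQ.unit {a : ℤ} (ha : ¬ (17 : ℤ) ∣ a) (h : lam 17 a = 0) : SQ a := by
  refine SQ.of_jac ha ?_
  rw [lam_unit ha] at h
  by_contra hc
  rw [if_neg hc] at h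
  exact absurd h (by decide)

theorem div17 {a : ℤ} (ha : Squarefree a) (h : (17 : ℤ) ∣ a) :
    ∃ b : ℤ, a = 17 * b ∧ ¬ (17 : ℤ) ∣ b := by
  obtain ⟨b, rfl⟩ := h
  refine ⟨b, rfl, ?_⟩
  rintro ⟨c, rfl⟩
  have := ha 17 ⟨c, by ring⟩
  rw [Int.isUnit_iff] at this
  omega

theorem castne {n : ℤ} (h : n ≠ 0) : ((n : ℤ) : ℚ_[17]) ≠ 0 := by exact_mod_cast h

theorem lam_three : lam 17 3 = 1 := by
  rw [lam_unit (by decide), if_neg (by norm_num)]

end

theorem t_SUF17 : S_SUF17 := by
  intro hf m u v hm hu hv h1 h2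
  have m0 : m ≠ 0 := hm.ne_zero
  have u0 : u ≠ 0 := hu.ne_zero
  have v0 : v ≠ 0 := hv.ne_zero
  have hA : ((m : ℤ) : ℚ_[17]) ≠ 0 := castne m0
  have hB : (((-16 * m : ℤ)) : ℚ_[17]) ≠ 0 := castne (by omega)
  have hAB : ((m : ℤ) : ℚ_[17]) - ((-16 * m : ℤ)) ≠ 0 := by
    have : ((m : ℤ) : ℚ_[17]) - ((-16 * m : ℤ)) = ((17 * m : ℤ) : ℚ_[17]) := by push_cast; ring
    rw [this]
    exact castne (by omega)
  have one : LS m (-16 * m) 1 1 ℚ_[17] := LS.one _ _
  have T1 := one.shiftA hA hB
  have T2 := one.shiftB hA hAB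
  have T3 := one.shiftC hB hAB
  -- the four torsion classes
  have c0 : SQ u → SQ v → LS m (-16 * m) u v ℚ_[17] := fun a b =>
    one.congr (by norm_num) (by norm_num) (SQ.mul (a := 1) (b := u) (by ring) (SQ.sq (a := 1) rfl) a)
      (SQ.mul (a := 1) (b := v) (by ring) (SQ.sq (a := 1) rfl) b)
  have c1 : SQ u → SQ (m * v) → LS m (-16 * m) u v ℚ_[17] := fun a b =>
    T1.congr (castne (by simpa using m0)) (castne (by simpa using m0))
      (SQ.mul (a := -1) (b := (4 * m) * (4 * m) * u) (by ring) sq_neg_one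
        (SQ.mul rfl (SQ.sq rfl) a)) (SQ.mul (a := 1) (b := m * v) (by ring) (SQ.sq (a := 1) rfl) b)
  have c2 : SQ (m * u) → SQ (17 * v) → LS m (-16 * m) u v ℚ_[17] := fun a b =>
    T2.congr (castne (by simpa using m0)) (castne (by
        have : m * (m - -16 * m) * 1 = 17 * (m * m) := by ring
        rw [this]; positivity))
      (SQ.mul (a := -1) (b := m * u) (by ring) sq_neg_one a)
      (SQ.mul (a := m * m) (b := 17 * v) (by ring) (SQ.sq rfl) b)
  have c3 : SQ (m * u) → SQ (17 * (m * v)) → LS m (-16 * m) u v ℚ_[17] := fun a b =>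
    T3.congr (castne (by
        have : -(-16 * m) * 1 = 16 * m := by ring
        rw [this]; omega)) (castne (by
        have : (m - -16 * m) * 1 = 17 * m := by ring
        rw [this]; omega))
      (SQ.mul (a := 4 * 4) (b := m * u) (by ring) (SQ.sq rfl) a)
      (SQ.mul (a := 1) (b := 17 * (m * v)) (by ring) (SQ.sq (a := 1) rfl) b)
  by_cases hm17 : (17 : ℤ) ∣ m
  · obtain ⟨h3, h4⟩ := h2 hm17
    obtain ⟨m', rfl, hm'⟩ := div17 hm hm17
    rw [lam_mul17 hm'] at h3 h4
    by_cases hu17 : (17 : ℤ) ∣ u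
    · obtain ⟨u', rfl, hu'⟩ := div17 hu hu17
      rw [lam_mul17 hu', ind_mul17, one_mul] at h3
      have a : SQ (17 * m' * (17 * u')) :=
        SQ.mul (a := 17 * 17) (b := m' * u') (by ring) (SQ.sq rfl) (SQ.units hm' hu' h3.symm)
      by_cases hv17 : (17 : ℤ) ∣ v
      · obtain ⟨v', rfl, hv'⟩ := div17 hv hv17
        rw [lam_mul17 hv', ind_mul17, ind_mul17] at h4
        have h5 : lam 17 v' = 0 := by
          rw [h4]
          have : (1 + 1 : ZMod 2) = 0 := by decide
          rw [this, zero_mul]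
        exact c2 a (SQ.mul (a := 17 * 17) (b := v') (by ring) (SQ.sq rfl) (SQ.unit hv' h5))
      · rw [ind_mul17, ind_unit hv17, add_zero, one_mul] at h4
        exact c3 a (SQ.mul (a := 17 * 17) (b := m' * v) (by ring) (SQ.sq rfl)
          (SQ.units hm' hv17 h4.symm))
    · rw [ind_unit hu17, zero_mul] at h3
      have a := SQ.unit hu17 h3
      by_cases hv17 : (17 : ℤ) ∣ v
      · obtain ⟨v', rfl, hv'⟩ := div17 hv hv17
        rw [lam_mul17 hv', ind_mul17, ind_unit hu17, zero_add, one_mul] at h4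
        exact c1 a (SQ.mul (a := 17 * 17) (b := m' * v') (by ring) (SQ.sq rfl)
          (SQ.units hm' hv' h4.symm))
      · rw [ind_unit hu17, ind_unit hv17, add_zero, zero_mul] at h4
        exact c0 a (SQ.unit hv17 h4)
  · obtain ⟨h3, h4⟩ := h1 hm17
    rcases lam_cases m with hl | hl
    · -- `m` is a square
      rw [hl, mul_zero] at h4
      have sm := SQ.unit hm17 hl
      have su := SQ.unit h3 h4
      have smu : SQ (m * u) := SQ.mul rfl sm su
      -- the class `(1, 3)`
      have c4 : LS m (-16 * m) 1 3 ℚ_[17] := by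
        have s1 : SQ (2 * m * (2 * m + m) * (2 * m + -16 * m)) := by
          refine SQ.mul (a := m * m * m) (b := -84) (by ring) ?_ (SQ.of_jac (by decide) (by norm_num))
          exact SQ.mul rfl (SQ.mul rfl sm sm) sm
        obtain ⟨y, hy⟩ := s1
        refine ⟨2 * m, y, ?_, ?_, ?_, ?_⟩
        · rintro rfl
          rw [mul_zero] at hy
          have : 2 * m * (2 * m + m) * (2 * m + -16 * m) = 0 := by exact_mod_cast hy
          have h9 : 2 * m * (2 * m + m) * (2 * m + -16 * m) = -84 * (m * m * m) := by ring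
          rw [h9] at this
          have h10 : m * m * m ≠ 0 := mul_ne_zero (mul_ne_zero m0 m0) m0
          omega
        · rw [sq y, ← hy]
          push_cast
          ring
        · have : SQ (2 * m * 1) := SQ.mul (a := 2) (b := m) (by ring)
            (SQ.of_jac (by decide) (by norm_num)) sm
          unfold SQ at this
          push_cast at this ⊢
          exact this
        · have : SQ ((2 * m + m) * 3) := SQ.mul (a := 3 * 3) (b := m) (by ring) (SQ.sq rfl) sm
          unfold SQ at this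
          push_cast at this ⊢
          exact this
      by_cases hv17 : (17 : ℤ) ∣ v
      · obtain ⟨v', rfl, hv'⟩ := div17 hv hv17
        rcases lam_cases v' with h5 | h5
        · exact c2 smu (SQ.mul (a := 17 * 17) (b := v') (by ring) (SQ.sq rfl) (SQ.unit hv' h5))
        · refine (c4.shiftB hA hAB).congr (castne (by simpa using m0)) (castne ?_) ?_ ?_
          · have : m * (m - -16 * m) * 3 = 51 * (m * m) := by ring
            rw [this]; positivity
          · exact SQ.mul (a := -1) (b := m * u) (by ring) sq_neg_one smu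
          · refine SQ.mul (a := (17 * m) * (17 * m)) (b := 3 * v') (by ring) (SQ.sq rfl) ?_
            exact SQ.units (by decide) hv' (by rw [h5, lam_three])
      · rcases lam_cases v with h5 | h5
        · exact c0 su (SQ.unit hv17 h5)
        · refine c4.congr (by norm_num) (by norm_num) ?_ ?_
          · exact SQ.mul (a := 1) (b := u) (by ring) (SQ.sq (a := 1) rfl) su
          · exact SQ.units (by decide) hv17 (by rw [h5, lam_three])
    · -- `m` is not a square
      rw [hl, mul_one] at h4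
      by_cases hv17 : (17 : ℤ) ∣ v
      · obtain ⟨v', rfl, hv'⟩ := div17 hv hv17
        rw [ind_mul17] at h4
        have smu : SQ (m * u) := SQ.units hm17 h3 (by rw [hl, h4])
        rcases lam_cases v' with h5 | h5
        · exact c2 smu (SQ.mul (a := 17 * 17) (b := v') (by ring) (SQ.sq rfl) (SQ.unit hv' h5))
        · refine c3 smu (SQ.mul (a := 17 * 17) (b := m * v') (by ring) (SQ.sq rfl) ?_)
          exact SQ.units hm17 hv' (by rw [hl, h5])
      · rw [ind_unit hv17] at h4
        have su := SQ.unit h3 h4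
        rcases lam_cases v with h5 | h5
        · exact c0 su (SQ.unit hv17 h5)
        · exact c1 su (SQ.units hm17 hv17 (by rw [hl, h5]))

end Pool.Agent.H743.X17.QSUF17
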