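import Pool.Agent.H743.X17.Stm2
import Pool.Agent.H743.X17.Kit

/-!
# X17 SUF2: local conditions sufficient at 2

The twists by the classes of `ℚ_2` modulo squares: reduction to `m, u, v` in `{1, 3, 5, 7, 2, 6, 10, 14}` and a
table of 64 explicit points (`x = r / t ^ 2`).
-/

set_option autoImplicit false

namespace Pool.Agent.H743.X17.QSUF2

open Pool.Agent.H743.X17

/-- a test for squares in `ℚ_2` -/
def sqb (n : ℤ) : Bool := (List.range 8).any fun k => (n % 4 ^ k == 0) && ((n / 4 ^ k) % 8 == 1)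

theorem sqb_sq {n : ℤ} (h : sqb n = true) : n ≠ 0 ∧ IsSquare (n : ℚ_[2]) := by
  unfold sqb at h
  rw [List.any_eq_true] at h
  obtain ⟨k, -, hk⟩ := h
  rw [Bool.and_eq_true, beq_iff_eq, beq_iff_eq] at hk
  obtain ⟨h1, h2⟩ := hk
  have h3 : n = (2 : ℤ) ^ (2 * k) * (n / 4 ^ k) := by
    rw [pow_mul, show (2 : ℤ) ^ 2 = 4 by norm_num]
    exact (Int.mul_ediv_cancel' (Int.dvd_of_emod_eq_zero h1)).symm
  constructor
  · rintro rfl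
    simp at h2
  · rw [h3]
    exact sq2_of h2

/-- the class of an integer not divisible by `4` -/
def rp (n : ℤ) : ℤ := if n % 2 = 0 then n % 16 else n % 8

theorem rp_mem {n : ℤ} (h : ¬ (4 : ℤ) ∣ n) : rp n ∈ ([1, 3, 5, 7, 2, 6, 10, 14] : List ℤ) := by
  simp only [List.mem_cons, List.not_mem_nil, or_false]
  unfold rp
  split_ifs <;> omega

theorem mul_emod_eight {a : ℤ} (h : a % 2 = 1) : (a * (a % 8)) % 8 = 1 := by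
  have h1 : a % 8 = 1 ∨ a % 8 = 3 ∨ a % 8 = 5 ∨ a % 8 = 7 := by omega
  rw [Int.mul_emod, Int.emod_emod_of_dvd _ (dvd_refl 8)]
  rcases h1 with h | h | h | h <;> rw [h] <;> norm_num

theorem sq_rp {n : ℤ} (h : ¬ (4 : ℤ) ∣ n) : IsSquare ((n * rp n : ℤ) : ℚ_[2]) := by
  unfold rp
  by_cases h2 : n % 2 = 0
  · rw [if_pos h2]
    obtain ⟨a, rfl⟩ : ∃ a, n = 2 * a := ⟨n / 2, by omega⟩
    have ha : a % 2 = 1 := by omega
    have e : 2 * a * (2 * a % 16) = (2 : ℤ) ^ (2 * 1) * (a * (a % 8)) := by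
      have : 2 * a % 16 = 2 * (a % 8) := by omega
      rw [this]
      ring
    rw [e]
    exact sq2_of (mul_emod_eight ha)
  · rw [if_neg h2]
    have e : n * (n % 8) = (2 : ℤ) ^ (2 * 0) * (n * (n % 8)) := by ring
    rw [e]
    exact sq2_of (mul_emod_eight (by omega))

theorem not_four {n : ℤ} (h : Squarefree n) : ¬ (4 : ℤ) ∣ n := by
  intro h4
  have h2 : (2 : ℤ) * 2 ∣ n := by norm_num; exact h4
  have := h 2 h2
  rw [Int.isUnit_iff] at this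
  omega

/-- the table: `(m, u, v, r, t)` -/
def tab : List (ℤ × ℤ × ℤ × ℤ × ℤ) :=
  [(1, 1, 1, 1, 4), (1, 1, 5, 4, 1), (1, 3, 1, 3, 1), (1, 3, 5, 12, 1), (1, 5, 1, -3, 2),
   (1, 5, 5, -12, 1), (1, 7, 1, 15, 1), (1, 7, 5, -4, 1), (3, 1, 1, 1, 1), (3, 3, 3, 192, 1),
   (3, 5, 1, -3, 2), (3, 7, 3, -144, 1), (3, 2, 3, 8, 1), (3, 6, 1, 6, 1), (3, 10, 3, -24, 1),
   (3, 14, 1, -2, 1), (5, 1, 1, 1, 4), (5, 1, 5, -112, 1), (5, 3, 1, 11, 1), (5, 3, 5, 192, 1),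
   (5, 5, 1, -3, 2), (5, 5, 5, 336, 1), (5, 7, 1, -1, 1), (5, 7, 5, -256, 1), (7, 1, 1, 1, 4),
   (7, 3, 7, -80, 1), (7, 5, 1, -3, 1), (7, 7, 7, -256, 1), (7, 2, 1, 2, 1), (7, 6, 7, 24, 1),
   (7, 10, 1, -6, 1), (7, 14, 7, -8, 1), (2, 1, 1, 1, 2), (2, 1, 2, 64, 1), (2, 7, 1, -1, 1),
   (2, 7, 2, -256, 1), (2, 2, 1, 2, 1), (2, 2, 2, 288, 1), (2, 14, 1, 14, 1),
   (2, 14, 2, -32, 1), (6, 1, 1, 1, 2), (6, 3, 1, 3, 1), (6, 5, 6, -192, 1),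
   (6, 7, 6, -256, 1), (6, 2, 6, -224, 1), (6, 6, 6, 352, 1), (6, 10, 1, 10, 1),
   (6, 14, 1, -2, 1), (10, 1, 1, 1, 2), (10, 1, 10, 64, 1), (10, 7, 1, -1, 1),
   (10, 7, 10, -256, 1), (10, 6, 1, 6, 1), (10, 6, 10, 96, 1), (10, 10, 1, -6, 1),
   (10, 10, 10, 416, 1), (14, 1, 1, 1, 2), (14, 3, 1, 3, 1), (14, 5, 14, -192, 1),
   (14, 7, 14, -256, 1), (14, 2, 1, 2, 1), (14, 6, 1, -10, 1), (14, 10, 14, -96, 1),
   (14, 14, 14, 480, 1)]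

def ok (e : ℤ × ℤ × ℤ × ℤ × ℤ) : Bool :=
  sqb (e.2.2.2.1 * e.2.1) && sqb ((e.2.2.2.1 + e.1 * e.2.2.2.2 ^ 2) * e.2.2.1) &&
    sqb (e.2.2.2.1 * (e.2.2.2.1 + e.1 * e.2.2.2.2 ^ 2) * (e.2.2.2.1 - 16 * e.1 * e.2.2.2.2 ^ 2)) &&
    !(e.2.2.2.2 == 0)

theorem tab_ok : ∀ e ∈ tab, ok e = true := by decide

/-- the local condition -/
def cnd (m u v : ℤ) : Prop := (m % 4 = 1 → ¬ (2 : ℤ) ∣ u ∧ v % 4 = 1) ∧
  (m % 4 ≠ 1 → ((up 2 v % 8 = 1 ∧ ¬ (2 : ℤ) ∣ v) ∨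
    (((2 : ℤ) ∣ v ↔ (2 : ℤ) ∣ m) ∧ (up 2 v * up 2 m) % 8 = 1)) ∧ h2 u m = e4 v)

instance (m u v : ℤ) : Decidable (cnd m u v) := by unfold cnd; infer_instance

theorem tab_cover : ∀ m ∈ ([1, 3, 5, 7, 2, 6, 10, 14] : List ℤ), ∀ u ∈ ([1, 3, 5, 7, 2, 6, 10, 14] : List ℤ),
    ∀ v ∈ ([1, 3, 5, 7, 2, 6, 10, 14] : List ℤ), cnd m u v →
      ∃ e ∈ tab, e.1 = m ∧ e.2.1 = u ∧ e.2.2.1 = v := by decide

theorem up_rp {n : ℤ} (h : ¬ (4 : ℤ) ∣ n) : up 2 (rp n) % 8 = up 2 n % 8 := by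
  unfold up rp
  push_cast
  split_ifs <;> omega

theorem dvd_rp {n : ℤ} (h : ¬ (4 : ℤ) ∣ n) : (2 : ℤ) ∣ rp n ↔ (2 : ℤ) ∣ n := by
  unfold rp
  split_ifs <;> omega

theorem rp_four {n : ℤ} (h : ¬ (4 : ℤ) ∣ n) : rp n % 4 = n % 4 := by
  unfold rp
  split_ifs <;> omega

theorem e4_rp {n : ℤ} (h : ¬ (4 : ℤ) ∣ n) : e4 (rp n) = e4 n := by
  have h1 := up_rp h
  have h2 : up 2 (rp n) % 4 = 3 ↔ up 2 n % 4 = 3 := by omega
  unfold e4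
  simp only [h2]

theorem e8_rp {n : ℤ} (h : ¬ (4 : ℤ) ∣ n) : e8 (rp n) = e8 n := by
  have h1 := up_rp h
  unfold e8
  rw [h1]

theorem ind_rp {n : ℤ} (h : ¬ (4 : ℤ) ∣ n) : ind 2 (rp n) = ind 2 n := by
  unfold ind
  push_cast
  simp only [dvd_rp h]

theorem h2_rp {a b : ℤ} (ha : ¬ (4 : ℤ) ∣ a) (hb : ¬ (4 : ℤ) ∣ b) : h2 (rp a) (rp b) = h2 a b := by
  unfold h2
  rw [e4_rp ha, e4_rp hb, e8_rp ha, e8_rp hb, ind_rp ha, ind_rp hb]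

theorem cnd_rp {m u v : ℤ} (hm : ¬ (4 : ℤ) ∣ m) (hu : ¬ (4 : ℤ) ∣ u) (hv : ¬ (4 : ℤ) ∣ v)
    (h : cnd m u v) : cnd (rp m) (rp u) (rp v) := by
  unfold cnd at h ⊢
  rw [rp_four hm, rp_four hv, dvd_rp hu, dvd_rp hv, dvd_rp hm, up_rp hv, h2_rp hu hm, e4_rp hv,
    Int.mul_emod, up_rp hv, up_rp hm, ← Int.mul_emod]
  exact h

/-- squares and twists -/
theorem twist {K : Type} [Field K] {m m' u v : ℤ} (hm : (m : K) ≠ 0) (hm' : (m' : K) ≠ 0)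
    (hs : IsSquare ((m * m' : ℤ) : K)) (h : LS m (-16 * m) u v K) : LS m' (-16 * m') u v K := by
  obtain ⟨x, y, hy, hxy, ⟨s, hs1⟩, ⟨t, ht⟩⟩ := h
  obtain ⟨w, hw⟩ := hs
  push_cast at hw hxy
  have hw0 : w ≠ 0 := by
    rintro rfl
    rw [mul_zero] at hw
    exact mul_ne_zero hm hm' hw
  have hc : (m' : K) = (w / m) ^ 2 * m := by
    field_simp
    linear_combination hw
  have hc0 : w / (m : K) ≠ 0 := div_ne_zero hw0 hm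
  refine ⟨(w / m) ^ 2 * x, (w / m) ^ 3 * y, mul_ne_zero (pow_ne_zero 3 hc0) hy, ?_,
    ⟨w / m * s, ?_⟩, ⟨w / m * t, ?_⟩⟩
  · push_cast
    rw [hc]
    linear_combination (w / m) ^ 6 * hxy
  · linear_combination (w / m) ^ 2 * hs1
  · rw [hc]
    linear_combination (w / m) ^ 2 * ht

theorem of_ok {m u v r t : ℤ} (h : ok (m, u, v, r, t) = true) : LS m (-16 * m) u v ℚ_[2] := by
  unfold ok at h
  simp only [Bool.and_eq_true, Bool.not_eq_true', beq_eq_false_iff_ne] at h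
  obtain ⟨⟨⟨h1, h2⟩, h3⟩, h4⟩ := h
  obtain ⟨-, a, ha⟩ := sqb_sq h1
  obtain ⟨-, b, hb⟩ := sqb_sq h2
  obtain ⟨hc0, c, hc⟩ := sqb_sq h3
  have ht : (t : ℚ_[2]) ≠ 0 := by exact_mod_cast h4
  have hc1 : c ≠ 0 := by
    rintro rfl
    rw [mul_zero] at hc
    exact hc0 (by exact_mod_cast hc)
  push_cast at ha hb hc
  refine ⟨(r : ℚ_[2]) / t ^ 2, c / t ^ 3, div_ne_zero hc1 (pow_ne_zero 3 ht), ?_, ⟨a / t, ?_⟩,
    ⟨b / t, ?_⟩⟩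
  · push_cast
    field_simp
    linear_combination -hc
  · rw [div_mul_div_comm, ← ha]
    field_simp
  · rw [div_mul_div_comm, ← hb]
    field_simp

/-- **SUF2** -/
theorem t_SUF2 : S_SUF2 := by
  intro _ m u v hm hu hv h1 h2
  have hm4 := not_four hm
  have hu4 := not_four hu
  have hv4 := not_four hv
  have hm0 : m ≠ 0 := hm.ne_zero
  have hc : cnd (rp m) (rp u) (rp v) := cnd_rp hm4 hu4 hv4 ⟨h1, h2⟩
  obtain ⟨e, he, e1, e2, e3⟩ := tab_cover _ (rp_mem hm4) _ (rp_mem hu4) _ (rp_mem hv4) hc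
  obtain ⟨a, b, c, r, t⟩ := e
  have hok := tab_ok _ he
  simp only at e1 e2 e3
  rw [e1, e2, e3] at hok
  have h3 := of_ok hok
  have hne : ∀ n : ℤ, ¬ (4 : ℤ) ∣ n → ((rp n : ℤ) : ℚ_[2]) ≠ 0 := by
    intro n hn h0
    have h4 : rp n = 0 := by exact_mod_cast h0
    have h5 := rp_mem hn
    rw [h4] at h5
    simp at h5
  have h4 : LS m (-16 * m) (rp u) (rp v) ℚ_[2] :=
    twist (hne m hm4) (by exact_mod_cast hm0) (by rw [mul_comm]; exact sq_rp hm4) h3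
  exact LS.congr (hne u hu4) (hne v hv4) (by rw [mul_comm]; exact sq_rp hu4)
    (by rw [mul_comm]; exact sq_rp hv4) h4

end Pool.Agent.H743.X17.QSUF2
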