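import Pool.Agent.H743.X17.Stm2
import Pool.Agent.H743.X17.Kit

/-!
# X17 SUFA: local conditions sufficient: at infinity and at odd p | m (helper356)
-/

set_option autoImplicit false

open scoped Classical

namespace Pool.Agent.H743.X17.QSUFA

open Pool.Agent.H743.X17
open Pool.Agent.H468.X15 (ps dec pI ppos val_of ps_of ps_unit val_unit val_p ps_p ps_mul val_mul
  ps_sq val_sq ps_pm)

/-! ### the real place -/

theorem real_point {m u v : ℤ} (x : ℝ) (h : 0 < x * (x + m) * (x + ((-16 * m : ℤ) : ℝ)))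
    (hu : 0 ≤ x * u) (hv : 0 ≤ (x + m) * v) : LS m (-16 * m) u v ℝ := by
  refine ⟨x, √(x * (x + m) * (x + ((-16 * m : ℤ) : ℝ))), ?_, ?_, ?_, ?_⟩
  · exact (Real.sqrt_pos.2 h).ne'
  · exact Real.sq_sqrt h.le
  · exact Real.isSquare_iff.2 hu
  · exact Real.isSquare_iff.2 hv

theorem sufinf : S_SUFINF := by
  intro m u v hm hu hv h1 h2
  rcases lt_or_gt_of_ne hu with hu' | hu'
  · have hu'' : (u : ℝ) < 0 := by exact_mod_cast hu'
    rcases lt_or_gt_of_ne hm with hm' | hm'
    · have hm'' : (m : ℝ) < 0 := by exact_mod_cast hm'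
      have hv' : v < 0 := by
        have := h2 hm'
        by_contra hc
        push Not at hc
        nlinarith
      have hv'' : (v : ℝ) < 0 := by exact_mod_cast hv'
      refine real_point (8 * m) ?_ ?_ ?_
      · push_cast
        have e : (8 * (m : ℝ)) * (8 * m + m) * (8 * m + -16 * m) = -576 * m ^ 3 := by ring
        rw [e]
        have : (m : ℝ) ^ 3 < 0 := by
          have : (m : ℝ) ^ 3 = m * m ^ 2 := by ring
          rw [this]
          exact mul_neg_of_neg_of_pos hm'' (by positivity)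
        linarith
      · nlinarith [mul_pos_of_neg_of_neg hm'' hu'']
      · nlinarith [mul_pos_of_neg_of_neg hm'' hv'']
    · have hm'' : (0 : ℝ) < m := by exact_mod_cast hm'
      have hv'' : (0 : ℝ) < v := by exact_mod_cast h1 hm'
      refine real_point (-m / 2) ?_ ?_ ?_
      · push_cast
        have e : (-(m : ℝ) / 2) * (-m / 2 + m) * (-m / 2 + -16 * m) = 33 / 8 * m ^ 3 := by ring
        rw [e]
        positivity
      · nlinarith [mul_neg_of_pos_of_neg hm'' hu'']
      · nlinarith [mul_pos hm'' hv'']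
  · have hu'' : (0 : ℝ) < u := by exact_mod_cast hu'
    have hv' : 0 < v := by
      rcases lt_or_gt_of_ne hm with hm' | hm'
      · have := h2 hm'
        by_contra hc
        push Not at hc
        nlinarith
      · exact h1 hm'
    have hv'' : (0 : ℝ) < v := by exact_mod_cast hv'
    have ha := abs_nonneg (m : ℝ)
    have hb := neg_abs_le (m : ℝ)
    have hc := le_abs_self (m : ℝ)
    refine real_point (17 * |(m : ℝ)| + 1) ?_ ?_ ?_
    · push_cast
      refine mul_pos (mul_pos (by linarith) (by linarith)) (by linarith)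
    · exact mul_nonneg (by linarith) hu''.le
    · exact mul_nonneg (by linarith) hv''.le

/-! ### the odd prime divisors of `m` -/

section padic

variable {p : ℕ} [hp : Fact p.Prime]

theorem sqf_dec {n : ℤ} (hn : Squarefree n) : ¬ (p : ℤ) ∣ up p n ∧
    padicValInt p n = (if (p : ℤ) ∣ n then 1 else 0) ∧ ps p n = jacobiSym (up p n) p := by
  by_cases h : (p : ℤ) ∣ n
  · obtain ⟨w, hw⟩ := h
    have hw' : ¬ (p : ℤ) ∣ w := by
      rintro ⟨w', rfl⟩
      have h2 : (p : ℤ) * p ∣ n := ⟨w', by rw [hw]; ring⟩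
      exact pI.not_isUnit (hn _ h2)
    have hd : (p : ℤ) ∣ n := ⟨w, hw⟩
    have e : up p n = w := by
      unfold up
      rw [if_pos hd, hw]
      exact Int.mul_ediv_cancel_left _ ppos
    rw [e, if_pos hd, hw]
    exact ⟨hw', val_p hw', ps_p hw'⟩
  · have e : up p n = n := by
      unfold up
      rw [if_neg h]
    rw [e, if_neg h]
    exact ⟨h, val_unit h, ps_unit h⟩

theorem lam_eq {n : ℤ} (hn : Squarefree n) : lam p n = if ps p n = 1 then 0 else 1 := by
  unfold lam
  rw [(sqf_dec hn).2.2]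

theorem add_lam {s a b : ℤ} (hs : s = 1 ∨ s = -1) (ha : a = 1 ∨ a = -1) (hb : b = 1 ∨ b = -1)
    (h : (if s = 1 then (0 : ZMod 2) else 1) =
      (if a = 1 then (0 : ZMod 2) else 1) + (if b = 1 then (0 : ZMod 2) else 1)) :
    a * b * s = 1 := by
  rcases hs with rfl | rfl <;> rcases ha with rfl | rfl <;> rcases hb with rfl | rfl <;>
    first
    | exact absurd h (by decide)
    | norm_num

theorem one_lam {s a : ℤ} (hs : s = 1 ∨ s = -1) (ha : a = 1 ∨ a = -1)
    (h : (if s = 1 then (0 : ZMod 2) else 1) = (if a = 1 then (0 : ZMod 2) else 1)) :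
    a * s = 1 := by
  have := add_lam (b := 1) hs ha (Or.inl rfl) (by rw [h]; simp)
  simpa using this

end padic

theorem sufodd : S_SUFODD := by
  intro p _ m u v hp2 hp17 hpm hm hu hv h1 h2
  have hm0 := hm.ne_zero
  have hu0 := hu.ne_zero
  have hv0 := hv.ne_zero
  have hp2' : ¬ (p : ℤ) ∣ 2 := by
    intro h
    have := (Nat.prime_dvd_prime_iff_eq (Fact.out : p.Prime) Nat.prime_two).1 (by exact_mod_cast h)
    exact hp2 this
  have hp17' : ¬ (p : ℤ) ∣ 17 := by
    intro h
    have := (Nat.prime_dvd_prime_iff_eq (Fact.out : p.Prime)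
      (by norm_num : Nat.Prime 17)).1 (by exact_mod_cast h)
    exact hp17 this
  have hp1' : ¬ (p : ℤ) ∣ -1 := by
    intro h
    rw [dvd_neg] at h
    exact pI.not_isUnit (isUnit_of_dvd_one h)
  have sqm : Squarefree (-m) := (Associated.squarefree_iff
    (Associated.neg_right (Associated.refl m))).1 hm
  have sq1 : Squarefree (-1 : ℤ) := IsUnit.squarefree (by norm_num)
  have sq17 : Squarefree (17 : ℤ) := by
    have := (Nat.prime_iff_prime_int.1 (by norm_num : Nat.Prime 17)).squarefree
    exact_mod_cast this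
  -- the values
  have vm : padicValInt p m = 1 := by rw [(sqf_dec hm).2.1, if_pos hpm]
  have vm' : padicValInt p (-m) = 1 := by rw [(sqf_dec sqm).2.1, if_pos ((dvd_neg).2 hpm)]
  have v1 : padicValInt p (-1) = 0 := by rw [(sqf_dec sq1).2.1, if_neg hp1']
  have v17 : padicValInt p 17 = 0 := by rw [(sqf_dec sq17).2.1, if_neg hp17']
  have vu := (sqf_dec (p := p) hu).2.1
  have vv := (sqf_dec (p := p) hv).2.1
  rw [lam_eq hu, lam_eq sqm, lam_eq sq1] at h1
  rw [lam_eq hv, lam_eq hm, lam_eq sq17] at h2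
  have pu := ps_pm (p := p) hu0
  have pv := ps_pm (p := p) hv0
  have pm' := ps_pm (p := p) hm0
  have p1 := ps_pm (p := p) (n := -1) (by norm_num)
  have p17 := ps_pm (p := p) (n := 17) (by norm_num)
  have pnm := ps_pm (p := p) (n := -m) (neg_ne_zero.2 hm0)
  have enm : ps p (-m) = ps p (-1) * ps p m := by
    rw [← ps_mul (by norm_num) hm0, neg_one_mul]
  have S2 : ∀ x y : ℤ, x ≠ 0 → y ≠ 0 → Even (padicValInt p x + padicValInt p y) →
      ps p x * ps p y = 1 → IsSquare ((x * y : ℤ) : ℚ_[p]) := by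
    intro x y hx hy h3 h4
    rw [sq_iff hp2 (mul_ne_zero hx hy), val_mul hx hy, ps_mul hx hy]
    exact ⟨h3, h4⟩
  have Sq : ∀ q w : ℤ, IsSquare ((w : ℤ) : ℚ_[p]) → IsSquare ((q ^ 2 * w : ℤ) : ℚ_[p]) := by
    intro q w h
    push_cast
    rw [sq]
    exact IsSquare.mul ⟨(q : ℚ_[p]), rfl⟩ h
  -- the trivial class and its translates
  have h0 : LS m (-16 * m) 1 1 ℚ_[p] := LS.one m (-16 * m)
  have hmK : (m : ℚ_[p]) ≠ 0 := by exact_mod_cast hm0
  have hBK : ((-16 * m : ℤ) : ℚ_[p]) ≠ 0 := by
    have : (-16 * m : ℤ) ≠ 0 := by omega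
    exact_mod_cast this
  have hABK : (m : ℚ_[p]) - ((-16 * m : ℤ) : ℚ_[p]) ≠ 0 := by
    have h3 : (m - -16 * m : ℤ) ≠ 0 := by omega
    have h4 : (((m - -16 * m : ℤ)) : ℚ_[p]) ≠ 0 := by exact_mod_cast h3
    rwa [Int.cast_sub] at h4
  have hA := LS.shiftA hmK hBK h0
  have hB := LS.shiftB hmK hABK h0
  have hC := LS.shiftC hBK hABK h0
  have cast_ne : ∀ n : ℤ, n ≠ 0 → (n : ℚ_[p]) ≠ 0 := fun n hn => by exact_mod_cast hn
  by_cases hpu : (p : ℤ) ∣ u
  · have iu : ind p u = 1 := by unfold ind; rw [if_pos hpu]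
    rw [if_pos hpu] at vu
    rw [iu, one_mul] at h1 h2
    by_cases hpv : (p : ℤ) ∣ v
    · have iv : ind p v = 1 := by unfold ind; rw [if_pos hpv]
      rw [if_pos hpv] at vv
      rw [iv, one_mul] at h1 h2
      have k1 := add_lam pu pnm p1 h1
      have k2 := add_lam pv pm' p17 h2
      refine LS.congr (A := m) (B := -16 * m) (u := -(-16 * m) * 1) (v := (m - -16 * m) * 1) (u' := u) (v' := v)
        (cast_ne (-(-16 * m) * 1) ?_) (cast_ne ((m - -16 * m) * 1) ?_) ?_ ?_ hC
      · omega
      · omega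
      · have e : -(-16 * m) * 1 * u = 4 ^ 2 * (m * u) := by ring
        rw [e]
        refine Sq 4 _ (S2 m u hm0 hu0 (by rw [vm, vu]; decide) ?_)
        rw [enm] at k1
        rcases p1 with e1 | e1 <;> rw [e1] at k1 <;> linarith
      · have e : (m - -16 * m) * 1 * v = 17 * m * v := by ring
        rw [e]
        refine S2 (17 * m) v (by omega) hv0 ?_ ?_
        · rw [val_mul (by norm_num) hm0, vm, vv, v17]; decide
        · rw [ps_mul (by norm_num) hm0]
          linarith
    · have iv : ind p v = 0 := by unfold ind; rw [if_neg hpv]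
      rw [if_neg hpv] at vv
      rw [iv, zero_mul] at h1 h2
      rw [add_zero] at h1
      rw [zero_add] at h2
      have k1 := one_lam pu pnm h1
      have k2 := one_lam pv p17 h2
      refine LS.congr (A := m) (B := -16 * m) (u := -m * 1) (v := m * (m - -16 * m) * 1) (u' := u) (v' := v)
        (cast_ne (-m * 1) ?_) (cast_ne (m * (m - -16 * m) * 1) ?_) ?_ ?_ hB
      · omega
      · have : m * (m - -16 * m) * 1 = 17 * m ^ 2 := by ring
        rw [this]
        positivity
      · have e : -m * 1 * u = (-m) * u := by ring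
        rw [e]
        exact S2 (-m) u (neg_ne_zero.2 hm0) hu0 (by rw [vm', vu]; decide) k1
      · have e : m * (m - -16 * m) * 1 * v = m ^ 2 * (17 * v) := by ring
        rw [e]
        exact Sq m _ (S2 17 v (by norm_num) hv0 (by rw [v17, vv]; decide) k2)
  · have iu : ind p u = 0 := by unfold ind; rw [if_neg hpu]
    rw [if_neg hpu] at vu
    rw [iu, zero_mul] at h1 h2
    rw [zero_add] at h1
    rw [add_zero] at h2
    by_cases hpv : (p : ℤ) ∣ v
    · have iv : ind p v = 1 := by unfold ind; rw [if_pos hpv]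
      rw [if_pos hpv] at vv
      rw [iv, one_mul] at h1 h2
      have k1 := one_lam pu p1 h1
      have k2 := one_lam pv pm' h2
      refine LS.congr (A := m) (B := -16 * m) (u := m * (-16 * m) * 1) (v := m * 1) (u' := u) (v' := v)
        (cast_ne (m * (-16 * m) * 1) ?_) (cast_ne (m * 1) ?_) ?_ ?_ hA
      · have : m * (-16 * m) * 1 = -16 * m ^ 2 := by ring
        rw [this]
        exact mul_ne_zero (by norm_num) (pow_ne_zero 2 hm0)
      · omega
      · have e : m * (-16 * m) * 1 * u = (4 * m) ^ 2 * (-1 * u) := by ring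
        rw [e]
        exact Sq _ _ (S2 (-1) u (by norm_num) hu0 (by rw [v1, vu]; decide) k1)
      · have e : m * 1 * v = m * v := by ring
        rw [e]
        exact S2 m v hm0 hv0 (by rw [vm, vv]; decide) k2
    · have iv : ind p v = 0 := by unfold ind; rw [if_neg hpv]
      rw [if_neg hpv] at vv
      rw [iv, zero_mul] at h1 h2
      have k1 := one_lam (a := 1) pu (Or.inl rfl) (by rw [h1]; simp)
      have k2 := one_lam (a := 1) pv (Or.inl rfl) (by rw [h2]; simp)
      refine LS.congr (cast_ne 1 one_ne_zero) (cast_ne 1 one_ne_zero) ?_ ?_ h0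
      · rw [sq_iff hp2 (mul_ne_zero one_ne_zero hu0), one_mul, vu]
        exact ⟨by decide, by linarith⟩
      · rw [sq_iff hp2 (mul_ne_zero one_ne_zero hv0), one_mul, vv]
        exact ⟨by decide, by linarith⟩

theorem t_SUFA : S_SUFINF ∧ S_SUFODD := ⟨sufinf, sufodd⟩

end Pool.Agent.H743.X17.QSUFA

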