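import Pool.Agent.H743.X17.IsoStm
import Pool.Agent.H743.X17.Kit
import Pool.Agent.H743.X17.NECA
import Pool.Agent.H743.X17.NECODD
import Pool.Agent.H743.X17.NEC17
import Pool.Agent.H743.X17.NEC2
import Pool.Agent.H743.X17.SUFA
import Pool.Agent.H743.X17.SUFGOOD
import Pool.Agent.H743.X17.SUF17
import Pool.Agent.H743.X17.SUF2

/-!
# I17 UL0: the local conditions for j = 0
-/

set_option autoImplicit false

open scoped Classical

namespace Pool.Agent.H743.X17.QUL0

open Pool.Agent.H743.X17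
open Pool.Agent.H468.X15 (ps dec pI ppos val_of ps_of ps_unit val_unit val_p ps_p ps_mul val_mul
  ps_sq val_sq ps_pm jac_pm)

theorem z2 (a : ZMod 2) : a = 0 ∨ a = 1 := by
  revert a; decide

theorem z11 : (1 : ZMod 2) + 1 = 0 := by decide

theorem z3 (a b : ZMod 2) : a = b + (a + b) := by
  revert a b; decide

theorem lam_unit {p : ℕ} {n : ℤ} (h : ¬ (p : ℤ) ∣ n) :
    lam p n = if jacobiSym n p = 1 then 0 else 1 := by
  unfold lam up
  rw [if_neg h]

theorem lam_mulp {p : ℕ} (hp : 0 < p) (n : ℤ) (h : ¬ (p : ℤ) ∣ n) :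
    lam p (p * n) = lam p n := by
  rw [lam_unit h]
  unfold lam up
  rw [if_pos (dvd_mul_right _ _), Int.mul_ediv_cancel_left _ (by exact_mod_cast hp.ne')]

theorem ind_unit {p : ℕ} {n : ℤ} (h : ¬ (p : ℤ) ∣ n) : ind p n = 0 := by
  unfold ind
  rw [if_neg h]

theorem ind_mulp {p : ℕ} {n : ℤ} : ind p (p * n) = 1 := by
  unfold ind
  rw [if_pos (dvd_mul_right _ _)]

section

variable {p : ℕ} [hp : Fact p.Prime]

theorem nonres (hp2 : p ≠ 2) : ∃ a : ℤ, Squarefree a ∧ ¬ (p : ℤ) ∣ a ∧ jacobiSym a p = -1 := by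
  obtain ⟨x, hx⟩ := FiniteField.exists_nonsquare (F := ZMod p) (by
    rw [ZMod.ringChar_zmod_n]; exact hp2)
  obtain ⟨a, b, hab, hsf⟩ := Nat.sq_mul_squarefree (ZMod.val x)
  have hxv : ((ZMod.val x : ℕ) : ZMod p) = x := ZMod.natCast_zmod_val x
  have hns : ¬ IsSquare (((a : ℕ) : ℤ) : ZMod p) := by
    rintro ⟨s, hs⟩
    apply hx
    refine ⟨b * s, ?_⟩
    rw [← hxv, ← hab]
    push_cast at hs ⊢
    rw [hs]
    ring
  have hnd : ¬ (p : ℤ) ∣ ((a : ℕ) : ℤ) := by
    intro h
    apply hns
    rw [(ZMod.intCast_zmod_eq_zero_iff_dvd _ p).2 h]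
    exact IsSquare.zero
  exact ⟨a, Int.squarefree_natCast.2 hsf, hnd, QSUFGOOD.jac_of_nsq hnd hns⟩

theorem sqf_mulp {n : ℤ} (hn : Squarefree n) (h : ¬ (p : ℤ) ∣ n) : Squarefree ((p : ℤ) * n) := by
  have h1 : IsCoprime (p : ℤ) n := (Prime.coprime_iff_not_dvd pI).2 h
  rw [squarefree_mul_iff]
  exact ⟨h1.isRelPrime, pI.squarefree, hn⟩

theorem unit_pick (hp2 : p ≠ 2) (l : ZMod 2) : ∃ v : ℤ, Squarefree v ∧ ¬ (p : ℤ) ∣ v ∧
    lam p v = l := by
  rcases z2 l with rfl | rfl
  · have h1 : ¬ (p : ℤ) ∣ 1 := fun h => pI.not_isUnit (isUnit_of_dvd_one h)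
    exact ⟨1, squarefree_one, h1, by rw [lam_unit h1, if_pos (jacobiSym.one_left p)]⟩
  · obtain ⟨a, h1, h2, h3⟩ := nonres (p := p) hp2
    exact ⟨a, h1, h2, by rw [lam_unit h2, h3, if_neg (by norm_num)]⟩

theorem pick (hp2 : p ≠ 2) (b l : ZMod 2) : ∃ v : ℤ, Squarefree v ∧ ind p v = b ∧
    lam p v = l := by
  obtain ⟨v, h1, h2, h3⟩ := unit_pick (p := p) hp2 l
  rcases z2 b with rfl | rfl
  · exact ⟨v, h1, ind_unit h2, h3⟩
  · exact ⟨p * v, sqf_mulp h1 h2, ind_mulp, by rw [lam_mulp hp.out.pos v h2, h3]⟩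

/-- `(-m/p) = (-1/p) (m/p)` -/
theorem lam_neg {m : ℤ} (h : lam p (-1) = 0) : lam p (-m) = lam p m := by
  have h1 : ¬ (p : ℤ) ∣ -1 := fun h => pI.not_isUnit (isUnit_of_dvd_one (dvd_neg.1 h))
  rw [lam_unit h1] at h
  have h2 : jacobiSym (-1) p = 1 := by
    by_contra hc
    rw [if_neg hc] at h
    exact absurd h (by decide)
  have h3 : jacobiSym (up p (-m)) p = jacobiSym (up p m) p := by
    have e : up p (-m) = -1 * up p m := by
      unfold up
      by_cases hd : (p : ℤ) ∣ m
      · rw [if_pos hd, if_pos (dvd_neg.2 hd), Int.neg_ediv_of_dvd hd]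
        ring
      · rw [if_neg hd, if_neg (fun h' => hd (dvd_neg.1 h'))]
        ring
    rw [e, jacobiSym.mul_left, h2, one_mul]
  unfold lam
  rw [h3]

end

theorem t_UL0 : S_LUV → S_LUVR → S_UL0 := by
  intro hLUV hLUVR m u hm hu
  have hm0 : m ≠ 0 := hm.ne_zero
  have hu0 : u ≠ 0 := hu.ne_zero
  change ELU m (-16 * m) u ↔ UC0 m u
  have hB : -16 * m ≠ 0 := by omega
  have hAB : m ≠ -16 * m := by omega
  have key : ∀ (p : ℕ) [Fact p.Prime], LU m (-16 * m) u ℚ_[p] ↔
      ∃ v : ℤ, Squarefree v ∧ LS m (-16 * m) u v ℚ_[p] := fun p _ =>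
    hLUV p m (-16 * m) u hm0 hB hAB hu0
  have keyR := hLUVR m (-16 * m) u hm0 hB hAB hu0
  have f17 : Fact (Nat.Prime 17) := ⟨by norm_num⟩
  have f2 : Fact (Nat.Prime 2) := ⟨Nat.prime_two⟩
  constructor
  · rintro ⟨h1, h2⟩
    refine ⟨?_, ?_, ?_, ?_, ?_, ?_⟩
    · intro p hp hp2 hp17 hpm
      have : Fact p.Prime := ⟨hp⟩
      obtain ⟨v, hv, hls⟩ := (key p).1 (h1 p)
      exact (Q962.t_NECGOOD p m u v hp2 hp17 hpm hu hv hls).1
    · intro p hp hp2 hp17 hpm hl
      have : Fact p.Prime := ⟨hp⟩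
      obtain ⟨v, hv, hls⟩ := (key p).1 (h1 p)
      have h3 := (Q962.t_NECODD p m u v hp2 hp17 hpm hm hu hv hls).1
      rw [h3, hl, mul_zero, add_zero, lam_neg hl]
    · intro hpm
      obtain ⟨v, hv, hls⟩ := (key 17).1 (h1 17)
      obtain ⟨h3, h4⟩ := (Q962.t_NEC17 m u v hm hu hv hls).1 hpm
      exact ⟨h3, fun h5 => by rw [h4, h5, mul_zero]⟩
    · intro hpm
      obtain ⟨v, hv, hls⟩ := (key 17).1 (h1 17)
      exact ((Q962.t_NEC17 m u v hm hu hv hls).2 hpm).1
    · intro hm4
      obtain ⟨v, hv, hls⟩ := (key 2).1 (h1 2)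
      exact ((QNEC2.t_NEC2 m u v hm hu hv hls).1 hm4).1
    · intro hm4 he
      obtain ⟨v, hv, hls⟩ := (key 2).1 (h1 2)
      obtain ⟨h3, h4⟩ := (QNEC2.t_NEC2 m u v hm hu hv hls).2 hm4
      rw [h4]
      rcases h3 with ⟨h5, -⟩ | ⟨-, h5⟩
      · unfold e4
        rw [if_neg (by omega)]
      · unfold e4 at he ⊢
        have h6 : up 2 m % 4 ≠ 3 := by
          intro h7
          rw [if_pos h7] at he
          exact absurd he (by decide)
        have h8 : (up 2 v * up 2 m) % 4 = 1 := by omega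
        rw [if_neg]
        intro h9
        rw [Int.mul_emod, h9] at h8
        omega
  · intro C
    refine ⟨?_, ?_⟩
    · intro p hp
      rw [key p]
      by_cases hp2 : p = 2
      · subst hp2
        by_cases hm4 : m % 4 = 1
        · exact ⟨1, squarefree_one, QSUF2.t_SUF2 m u 1 hm hu squarefree_one
            (fun _ => ⟨C.o2 hm4, by norm_num⟩) (fun h => absurd hm4 h)⟩
        · by_cases hh : h2 u m = 0
          · refine ⟨1, squarefree_one, QSUF2.t_SUF2 m u 1 hm hu squarefree_one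
              (fun h => absurd h hm4) (fun _ => ⟨Or.inl ⟨?_, by norm_num⟩, ?_⟩)⟩
            · unfold up; norm_num
            · rw [hh]; unfold e4 up; norm_num
          · have h3 : e4 m = 1 := by
              rcases z2 (e4 m) with h | h
              · exact absurd (C.e2 hm4 h) hh
              · exact h
            have h4 : h2 u m = 1 := by
              rcases z2 (h2 u m) with h | h
              · exact absurd h hh
              · exact h
            refine ⟨m, hm, QSUF2.t_SUF2 m u m hm hu hm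
              (fun h => absurd h hm4) (fun _ => ⟨Or.inr ⟨Iff.rfl, ?_⟩, by rw [h3, h4]⟩)⟩
            have h5 : up 2 m % 2 = 1 := by
              have := (QSUFA.sqf_dec (p := 2) hm).1
              push_cast at this
              omega
            have h6 : up 2 m % 8 = 1 ∨ up 2 m % 8 = 3 ∨ up 2 m % 8 = 5 ∨ up 2 m % 8 = 7 := by omega
            rw [Int.mul_emod]
            rcases h6 with h | h | h | h <;> rw [h] <;> norm_num
      · by_cases hp17 : p = 17
        · subst hp17
          have n17 : ¬ (17 : ℤ) ∣ 1 := by decide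
          have l1 : lam 17 1 = 0 := by
            rw [lam_unit (by exact_mod_cast n17), if_pos (jacobiSym.one_left 17)]
          have l17 : lam 17 17 = 0 := by
            have := lam_mulp (p := 17) (by norm_num) 1 (by exact_mod_cast n17)
            exact this.trans l1
          have i1 : ind 17 1 = 0 := ind_unit (by exact_mod_cast n17)
          have i17 : ind 17 17 = 1 := by
            exact ind_mulp (p := 17) (n := 1)
          have s17 : Squarefree (17 : ℤ) := by
            exact sqf_mulp (p := 17) squarefree_one (by exact_mod_cast n17)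
          by_cases hd : (17 : ℤ) ∣ m
          · rcases z2 (ind 17 u) with h | h
            · refine ⟨1, squarefree_one, QSUF17.t_SUF17 m u 1 hm hu squarefree_one
                (fun h' => absurd hd h') (fun _ => ⟨C.r17 hd, ?_⟩)⟩
              rw [l1, h, i1]; simp
            · refine ⟨17, s17, QSUF17.t_SUF17 m u 17 hm hu s17
                (fun h' => absurd hd h') (fun _ => ⟨C.r17 hd, ?_⟩)⟩
              rw [l17, h, i17]
              rw [z11, zero_mul]
          · obtain ⟨h3, h4⟩ := C.s17 hd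
            rcases z2 (lam 17 u) with h | h
            · refine ⟨1, squarefree_one, QSUF17.t_SUF17 m u 1 hm hu squarefree_one
                (fun _ => ⟨h3, ?_⟩) (fun h' => absurd h' hd)⟩
              rw [h, i1, zero_mul]
            · refine ⟨17, s17, QSUF17.t_SUF17 m u 17 hm hu s17
                (fun _ => ⟨h3, ?_⟩) (fun h' => absurd h' hd)⟩
              have h5 : lam 17 m = 1 := by
                rcases z2 (lam 17 m) with h' | h'
                · rw [h4 h'] at h; exact absurd h (by decide)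
                · exact h'
              rw [h, i17, h5, mul_one]
        · by_cases hd : (p : ℤ) ∣ m
          · rcases z2 (lam p (-1)) with h | h
            · obtain ⟨v, hv1, hv2, hv3⟩ := pick (p := p) hp2 0 (ind p u * lam p 17)
              refine ⟨v, hv1, QSUFA.sufodd p m u v hp2 hp17 hd hm hu hv1 ?_ ?_⟩
              · rw [C.odd p hp.out hp2 hp17 hd h, hv2, zero_mul, add_zero, lam_neg h]
              · rw [hv3, hv2, zero_mul, zero_add]
            · obtain ⟨v, hv1, hv2, hv3⟩ := pick (p := p) hp2 (lam p u + ind p u * lam p (-m))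
                ((lam p u + ind p u * lam p (-m)) * lam p m + ind p u * lam p 17)
              refine ⟨v, hv1, QSUFA.sufodd p m u v hp2 hp17 hd hm hu hv1 ?_ ?_⟩
              · rw [hv2, h, mul_one]
                exact z3 _ _
              · rw [hv3, hv2]
          · have n1 : ¬ (p : ℤ) ∣ 1 := fun h => pI.not_isUnit (isUnit_of_dvd_one h)
            exact ⟨1, squarefree_one, QSUFGOOD.t_SUFGOOD p m u 1 hp2 hp17 hd
              (C.good p hp.out hp2 hp17 hd) n1⟩
    · rw [keyR]
      rcases lt_or_gt_of_ne hm0 with h | h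
      · rcases lt_or_gt_of_ne hu0 with h' | h'
        · exact ⟨-1, (Int.squarefree_natAbs.1 (by norm_num)), QSUFA.sufinf m u (-1) hm0 hu0 (by norm_num)
            (fun h2 => absurd h2 (by omega)) (fun _ => by omega)⟩
        · exact ⟨1, squarefree_one, QSUFA.sufinf m u 1 hm0 hu0 (by norm_num)
            (fun h2 => absurd h2 (by omega)) (fun _ => by omega)⟩
      · exact ⟨1, squarefree_one, QSUFA.sufinf m u 1 hm0 hu0 (by norm_num)
            (fun _ => by norm_num) (fun h2 => absurd h2 (by omega))⟩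

end Pool.Agent.H743.X17.QUL0
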