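import Pool.Agent.H743.X17.IsoStm
import Pool.Agent.H743.X17.Kit
import Pool.Agent.H743.X17.NECA
import Pool.Agent.H743.X17.NECODD
import Pool.Agent.H743.X17.NEC17
import Pool.Agent.H743.X17.NEC2
import Pool.Agent.H743.X17.SUFA
import Pool.Agent.H743.X17.SUFGOOD
import Pool.Agent.H743.X17.SUF17
import Pool.Agent.H743.X17.SUF2

/-!
# I17 UL1: the local conditions for j = 1
-/

set_option autoImplicit false

open scoped Classical

namespace Pool.Agent.H743.X17.QUL1

open Pool.Agent.H743.X17

theorem ls_swap (m u v : ℤ) (K : Type) [Field K] :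
    LS (pA 1 m) (pB 1 m) u v K ↔ LS m (-16 * m) v u K := by
  have hA : pA 1 m = -m := rfl
  have hB : pB 1 m = -17 * m := rfl
  rw [hA, hB]
  constructor
  · rintro ⟨x, y, hy, h, hu, hv⟩
    refine ⟨x - m, y, hy, ?_, ?_, ?_⟩
    · rw [h]; push_cast; ring
    · push_cast at hv; rwa [← sub_eq_add_neg] at hv
    · simpa using hu
  · rintro ⟨x, y, hy, h, hu, hv⟩
    refine ⟨x + m, y, hy, ?_, hv, ?_⟩
    · rw [h]; push_cast; ring
    · have : x + m + ((-m : ℤ) : K) = x := by push_cast; ring
      rw [this]; exact hu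

theorem zmod2 (a : ZMod 2) : a = 0 ∨ a = 1 := by revert a; decide

theorem ex_unit (p : ℕ) [Fact p.Prime] (hp2 : p ≠ 2) (b : ZMod 2) :
    ∃ t : ℤ, Squarefree t ∧ ¬ (p : ℤ) ∣ t ∧ lam p t = b := by
  have hp : p.Prime := Fact.out
  rcases zmod2 b with rfl | rfl
  · refine ⟨1, squarefree_one, ?_, ?_⟩
    · intro h
      have h1 := Int.le_of_dvd (by norm_num) h
      have h2 := hp.two_le
      omega
    · unfold lam up
      have h : ¬ (p : ℤ) ∣ 1 := by
        intro h
        have h1 := Int.le_of_dvd (by norm_num) h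
        have h2 := hp.two_le
        omega
      rw [if_neg h, jacobiSym.one_left, if_pos rfl]
  · obtain ⟨a, ha⟩ := FiniteField.exists_nonsquare (F := ZMod p)
      (by rw [ZMod.ringChar_zmod_n]; exact hp2)
    obtain ⟨c, d, hcd, hc⟩ := Nat.sq_mul_squarefree a.val
    have hac : a = (d : ZMod p) ^ 2 * (c : ZMod p) := by
      have h1 : ((a.val : ℕ) : ZMod p) = a := ZMod.natCast_zmod_val a
      rw [← h1, ← hcd]; push_cast; ring
    have hcs : ¬ IsSquare (c : ZMod p) := by
      rintro ⟨e, he⟩
      apply ha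
      refine ⟨d * e, ?_⟩
      rw [hac, he]; ring
    have hc0 : ¬ (p : ℤ) ∣ (c : ℤ) := by
      intro h
      apply hcs
      have h1 : (c : ZMod p) = 0 := by
        have := (ZMod.intCast_zmod_eq_zero_iff_dvd (c : ℤ) p).2 h
        exact_mod_cast this
      rw [h1]
      exact ⟨0, by ring⟩
    refine ⟨c, ?_, hc0, ?_⟩
    · exact Int.squarefree_natCast.2 hc
    · unfold lam up
      rw [if_neg hc0, if_neg]
      rw [← jacobiSym.legendreSym.to_jacobiSym]
      intro h
      have h1 : ((c : ℤ) : ZMod p) ≠ 0 := by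
        intro h2
        exact hc0 ((ZMod.intCast_zmod_eq_zero_iff_dvd (c : ℤ) p).1 h2)
      rw [legendreSym.eq_one_iff p h1] at h
      apply hcs
      exact_mod_cast h

theorem ex_w (p : ℕ) [Fact p.Prime] (hp2 : p ≠ 2) (a b : ZMod 2) :
    ∃ w : ℤ, Squarefree w ∧ ind p w = a ∧ lam p w = b := by
  have hp : p.Prime := Fact.out
  have hpI : Prime (p : ℤ) := Nat.prime_iff_prime_int.1 hp
  obtain ⟨t, ht, hpt, hl⟩ := ex_unit p hp2 b
  rcases zmod2 a with rfl | rfl
  · exact ⟨t, ht, by unfold ind; rw [if_neg hpt], hl⟩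
  · refine ⟨p * t, ?_, ?_, ?_⟩
    · rw [squarefree_mul_iff]
      refine ⟨?_, hpI.squarefree, ht⟩
      exact ((Prime.coprime_iff_not_dvd hpI).2 hpt).isRelPrime
    · unfold ind; rw [if_pos (dvd_mul_right _ _)]
    · have h0 : (p : ℤ) ≠ 0 := hpI.ne_zero
      unfold lam at hl ⊢
      have e : up p (p * t) = up p t := by
        unfold up
        rw [if_pos (dvd_mul_right _ _), if_neg hpt, Int.mul_ediv_cancel_left _ h0]
      rw [e]; exact hl

theorem t_UL1 : S_LUV → S_LUVR → S_UL1 := by
  intro hLUV hLUVR m u hm hu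
  have hm0 : m ≠ 0 := hm.ne_zero
  have hu0 : u ≠ 0 := hu.ne_zero
  have hA0 : pA 1 m ≠ 0 := by
    have hA : pA 1 m = -m := rfl
    rw [hA]; exact neg_ne_zero.2 hm0
  have hB0 : pB 1 m ≠ 0 := by
    have hB : pB 1 m = -17 * m := rfl
    rw [hB]; exact mul_ne_zero (by norm_num) hm0
  have hAB : pA 1 m ≠ pB 1 m := by
    have hA : pA 1 m = -m := rfl
    have hB : pB 1 m = -17 * m := rfl
    rw [hA, hB]; intro h; apply hm0; linarith
  have key : ∀ (p : ℕ) [Fact p.Prime], LU (pA 1 m) (pB 1 m) u ℚ_[p] ↔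
      ∃ v : ℤ, Squarefree v ∧ LS m (-16 * m) v u ℚ_[p] := by
    intro p _
    rw [hLUV p _ _ u hA0 hB0 hAB hu0]
    simp only [ls_swap]
  have keyR : LU (pA 1 m) (pB 1 m) u ℝ ↔
      ∃ v : ℤ, Squarefree v ∧ LS m (-16 * m) v u ℝ := by
    rw [hLUVR _ _ u hA0 hB0 hAB hu0]
    simp only [ls_swap]
  constructor
  · rintro ⟨hp, hR⟩
    refine ⟨?_, ?_, ?_, ?_, ?_, ?_⟩
    · obtain ⟨v, hv, h⟩ := keyR.1 hR
      exact (Q962.t_NECINF m v u hm0 hv hu h).1
    · intro p hpp hp2 hp17 hpm
      have : Fact p.Prime := ⟨hpp⟩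
      obtain ⟨v, hv, h⟩ := (key p).1 (hp p)
      exact (Q962.t_NECGOOD p m v u hp2 hp17 hpm hv hu h).2
    · intro p hpp hp2 hp17 hpm h17
      have : Fact p.Prime := ⟨hpp⟩
      obtain ⟨v, hv, h⟩ := (key p).1 (hp p)
      have := (Q962.t_NECODD p m v u hp2 hp17 hpm hm hv hu h).2
      rw [h17, mul_zero, add_zero] at this
      exact this
    · intro h17 hl
      have : Fact (Nat.Prime 17) := ⟨by norm_num⟩
      obtain ⟨v, hv, h⟩ := (key 17).1 (hp 17)
      have := ((Q962.t_NEC17 m v u hm hv hu h).2 h17).2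
      rw [hl, mul_zero] at this
      exact this
    · intro h4
      have : Fact (Nat.Prime 2) := ⟨Nat.prime_two⟩
      obtain ⟨v, hv, h⟩ := (key 2).1 (hp 2)
      exact ((QNEC2.t_NEC2 m v u hm hv hu h).1 h4).2
    · intro h4
      have : Fact (Nat.Prime 2) := ⟨Nat.prime_two⟩
      obtain ⟨v, hv, h⟩ := (key 2).1 (hp 2)
      exact ((QNEC2.t_NEC2 m v u hm hv hu h).2 h4).1
  · intro hU
    refine ⟨?_, ?_⟩
    · intro p hpF
      have hpp : p.Prime := hpF.out
      rw [key p]
      by_cases hp2 : p = 2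
      · subst hp2
        by_cases h4 : m % 4 = 1
        · exact ⟨1, squarefree_one, QSUF2.t_SUF2 m 1 u hm squarefree_one hu
            (fun _ => ⟨by norm_num, hU.o2 h4⟩) (fun h => absurd h4 h)⟩
        · have he := hU.e2 h4
          rcases he with he | he
          · refine ⟨1, squarefree_one, QSUF2.t_SUF2 m 1 u hm squarefree_one hu
              (fun h => absurd h h4) (fun _ => ⟨Or.inl he, ?_⟩)⟩
            have h1 : e4 u = 0 := by unfold e4; rw [if_neg]; omega
            rw [h1]
            simp [h2, e4, e8, ind, up]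
          · have hsq : Squarefree (-1 : ℤ) := (isUnit_one.neg).squarefree
            refine ⟨-1, hsq, QSUF2.t_SUF2 m (-1) u hm hsq hu
              (fun h => absurd h h4) (fun _ => ⟨Or.inr he, ?_⟩)⟩
            have h1 : e4 u = e4 m := by
              have h3 := he.2
              unfold e4
              have h5 : up 2 u % 8 = up 2 m % 8 := by
                rw [Int.mul_emod] at h3
                have h6 : up 2 u % 8 = 0 ∨ up 2 u % 8 = 1 ∨ up 2 u % 8 = 2 ∨ up 2 u % 8 = 3 ∨
                  up 2 u % 8 = 4 ∨ up 2 u % 8 = 5 ∨ up 2 u % 8 = 6 ∨ up 2 u % 8 = 7 := by omega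
                have h7 : up 2 m % 8 = 0 ∨ up 2 m % 8 = 1 ∨ up 2 m % 8 = 2 ∨ up 2 m % 8 = 3 ∨
                  up 2 m % 8 = 4 ∨ up 2 m % 8 = 5 ∨ up 2 m % 8 = 6 ∨ up 2 m % 8 = 7 := by omega
                rcases h6 with h | h | h | h | h | h | h | h <;>
                  rcases h7 with h' | h' | h' | h' | h' | h' | h' | h' <;>
                  rw [h, h'] at h3 <;> first | (exfalso; revert h3; decide) | rw [h, h']
              have h6 : up 2 u % 4 = 3 ↔ up 2 m % 4 = 3 := by omega
              simp only [h6]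
            rw [h1]
            simp [h2, e4, e8, ind, up]
      · by_cases hp17 : p = 17
        · subst hp17
          by_cases h17 : (17 : ℤ) ∣ m
          · rcases zmod2 (lam 17 m) with hl | hl
            · refine ⟨1, squarefree_one, QSUF17.t_SUF17 m 1 u hm squarefree_one hu
                (fun h => absurd h17 h) (fun _ => ⟨?_, ?_⟩)⟩
              · rw [hl, mul_zero]
                have hup : up 17 1 = 1 := by unfold up; rw [if_neg (by norm_num)]
                unfold lam
                rw [hup, jacobiSym.one_left, if_pos rfl]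
              · rw [hl, mul_zero, hU.r17 h17 hl]
            · obtain ⟨w, hw, ha, hb⟩ := ex_w 17 (by norm_num) (lam 17 u - ind 17 u)
                (lam 17 u - ind 17 u)
              refine ⟨w, hw, QSUF17.t_SUF17 m w u hm hw hu
                (fun h => absurd h17 h) (fun _ => ⟨?_, ?_⟩)⟩
              · rw [hl, ha, hb, mul_one]
              · rw [hl, ha, mul_one]; ring
          · obtain ⟨w, hw, ha, hb⟩ := ex_w 17 (by norm_num) 0 (ind 17 u * lam 17 m)
            refine ⟨w, hw, QSUF17.t_SUF17 m w u hm hw hu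
                (fun _ => ⟨?_, hb⟩) (fun h => absurd h h17)⟩
            intro hd
            unfold ind at ha
            rw [if_pos (by exact_mod_cast hd)] at ha
            exact absurd ha (by decide)
        · by_cases hpm : (p : ℤ) ∣ m
          · rcases zmod2 (lam p 17) with hl | hl
            · obtain ⟨w, hw, ha, hb⟩ := ex_w p hp2 0 (ind p u * lam p (-1))
              refine ⟨w, hw, QSUFA.t_SUFA.2 p m w u hp2 hp17 hpm hm hw hu ?_ ?_⟩
              · rw [ha, hb, zero_mul, zero_add]
              · rw [ha, zero_mul, add_zero]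
                exact hU.odd p hpp hp2 hp17 hpm hl
            · obtain ⟨w, hw, ha, hb⟩ := ex_w p hp2 (lam p u - ind p u * lam p m)
                ((lam p u - ind p u * lam p m) * lam p (-m) + ind p u * lam p (-1))
              refine ⟨w, hw, QSUFA.t_SUFA.2 p m w u hp2 hp17 hpm hm hw hu ?_ ?_⟩
              · rw [ha, hb]
              · rw [ha, hl]; ring
          · refine ⟨1, squarefree_one, QSUFGOOD.t_SUFGOOD p m 1 u hp2 hp17 hpm ?_
              (hU.good p hpp hp2 hp17 hpm)⟩
            intro h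
            have h1 := Int.le_of_dvd (by norm_num) h
            have h2 := hpp.two_le
            omega
    · rw [keyR]
      rcases lt_or_gt_of_ne hm0 with h | h
      · rcases lt_or_gt_of_ne hu0 with h' | h'
        · have hsq : Squarefree (-1 : ℤ) := (isUnit_one.neg).squarefree
          exact ⟨-1, hsq, QSUFA.t_SUFA.1 m (-1) u hm0 (by norm_num) hu0
            (fun h2 => absurd h (not_lt.2 h2.le)) (fun _ => by linarith)⟩
        · exact ⟨1, squarefree_one, QSUFA.t_SUFA.1 m 1 u hm0 (by norm_num) hu0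
            (fun _ => h') (fun _ => by linarith)⟩
      · exact ⟨1, squarefree_one, QSUFA.t_SUFA.1 m 1 u hm0 (by norm_num) hu0
            (fun _ => hU.pos h) (fun h2 => absurd h (not_lt.2 h2.le))⟩

end Pool.Agent.H743.X17.QUL1
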