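import Pool.Agent.H743.X17.IsoStm
import Pool.Agent.H743.X17.Kit
import Pool.Agent.H743.X17.NECA
import Pool.Agent.H743.X17.NEC17
import Pool.Agent.H743.X17.NEC2
import Pool.Agent.H743.X17.SUFGOOD
import Pool.Agent.H743.X17.SUF17
import Pool.Agent.H743.X17.SUF2

/-!
# PROJECT I17, part UL2 (helper914): the local conditions for the isogenous curve `j = 2`
-/

set_option autoImplicit false

open scoped Classical

namespace Pool.Agent.H743.X17.QUL2

open Pool.Agent.H743.X17
open Pool.Agent.H743.X17.Q962 (V L J V_mul L_mul V_sqf L_sqf V_unit L_unit sq_V sq_L z2 nd2 nd17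
  t_NECINF t_NECGOOD t_NECODD t_NEC17)
open Pool.Agent.H468.X15 (ps pI)

/-- squarefree part -/
theorem sqf_part {n : ℤ} (hn : n ≠ 0) : ∃ v k : ℤ, Squarefree v ∧ k ≠ 0 ∧ n = v * k ^ 2 := by
  obtain ⟨a, b, hab, hsq⟩ := Nat.sq_mul_squarefree n.natAbs
  have hb : b ≠ 0 := by
    rintro rfl
    rw [zero_pow two_ne_zero, zero_mul] at hab
    exact hn (Int.natAbs_eq_zero.1 hab.symm)
  refine ⟨n.sign * a, b, ?_, by exact_mod_cast hb, ?_⟩
  · rw [← Int.squarefree_natAbs, Int.natAbs_mul, Int.natAbs_sign_of_ne_zero hn, one_mul,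
      Int.natAbs_natCast]
    exact hsq
  · have h1 : (n.natAbs : ℤ) = (b : ℤ) ^ 2 * a := by exact_mod_cast hab.symm
    calc n = n.sign * n.natAbs := (Int.sign_mul_natAbs n).symm
      _ = n.sign * a * (b : ℤ) ^ 2 := by rw [h1]; ring

section bridge

variable {K : Type} [Field K] {m w u v : ℤ}

/-- translation of the curve -/
theorem bridge_mp (hs0 : IsSquare ((u * v * w : ℤ) : K)) (hw : (w : K) ≠ 0) (hu : (u : K) ≠ 0)
    (h : LS (16 * m) (17 * m) w u K) : LS m (-16 * m) u v K := by
  obtain ⟨x, y, hy, hxy, ⟨s, hs⟩, ⟨t, ht⟩⟩ := h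
  obtain ⟨n0, nA, nB⟩ := LS.ne hy hxy
  obtain ⟨c, hc⟩ := hs0
  push_cast at hxy hs ht hc n0 nA nB
  have hst : s * t * (s * t) ≠ 0 := by
    have e : s * t * (s * t) = (x * w) * ((x + 16 * m) * u) := by rw [hs, ht]; ring
    rw [e]
    exact mul_ne_zero (mul_ne_zero n0 hw) (mul_ne_zero nA hu)
  refine ⟨x + 16 * m, y, hy, ?_, ⟨t, ht⟩, ⟨y * c / (s * t), ?_⟩⟩
  · push_cast
    rw [hxy]
    ring
  · rw [div_mul_div_comm, eq_div_iff hst]
    have e : s * t * (s * t) = (x * w) * ((x + 16 * m) * u) := by rw [hs, ht]; ring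
    have e2 : y * c * (y * c) = y ^ 2 * ((u : K) * v * w) := by rw [hc]; ring
    rw [e, e2, hxy]
    ring

theorem bridge_mpr (hs0 : IsSquare ((u * v * w : ℤ) : K)) (hv : (v : K) ≠ 0) (hu : (u : K) ≠ 0)
    (h : LS m (-16 * m) u v K) : LS (16 * m) (17 * m) w u K := by
  obtain ⟨x, y, hy, hxy, ⟨s, hs⟩, ⟨t, ht⟩⟩ := h
  obtain ⟨n0, nA, nB⟩ := LS.ne hy hxy
  obtain ⟨c, hc⟩ := hs0
  push_cast at hxy hs ht hc n0 nA nB
  have e : s * t * (s * t) = (x * u) * ((x + m) * v) := by rw [hs, ht]; ring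
  have hst : s * t * (s * t) ≠ 0 := by
    rw [e]
    exact mul_ne_zero (mul_ne_zero n0 hu) (mul_ne_zero nA hv)
  refine ⟨x - 16 * m, y, hy, ?_, ⟨y * c / (s * t), ?_⟩, ⟨s, ?_⟩⟩
  · push_cast
    rw [hxy]
    ring
  · rw [div_mul_div_comm, eq_div_iff hst]
    have e2 : y * c * (y * c) = y ^ 2 * ((u : K) * v * w) := by rw [hc]; ring
    rw [e, e2, hxy]
    ring
  · push_cast
    rw [← hs]
    ring

theorem lu17 (h : IsSquare ((17 * w : ℤ) : K)) : LU (16 * m) (17 * m) w K := by
  right; left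
  obtain ⟨s, hs⟩ := h
  push_cast at hs
  refine ⟨4 * m * s, ?_⟩
  push_cast
  linear_combination (16 * (m : K) ^ 2) * hs

variable [CharZero K]

theorem lum (hm : m ≠ 0) (h : IsSquare ((-m * w : ℤ) : K)) : LU (16 * m) (17 * m) w K := by
  right; right
  obtain ⟨s, hs⟩ := h
  push_cast at hs
  have hmK : (m : K) ≠ 0 := by exact_mod_cast hm
  refine ⟨-(16 * m), 0, neg_ne_zero.2 (mul_ne_zero (by norm_num) hmK), ?_, ⟨4 * s, ?_⟩⟩
  · push_cast
    ring
  · linear_combination 16 * hs

theorem lum17 (hm : m ≠ 0) (h : IsSquare ((-(17 * m) * w : ℤ) : K)) : LU (16 * m) (17 * m) w K := by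
  right; right
  obtain ⟨s, hs⟩ := h
  push_cast at hs
  have hmK : (m : K) ≠ 0 := by exact_mod_cast hm
  refine ⟨-(17 * m), 0, neg_ne_zero.2 (mul_ne_zero (by norm_num) hmK), ?_, ⟨s, ?_⟩⟩
  · push_cast
    ring
  · rw [← hs]

end bridge

section padic

variable {p : ℕ} [hp : Fact p.Prime]

theorem lu_iff (hLUV : S_LUV) {m w : ℤ} (hm : Squarefree m) (hw : Squarefree w) :
    LU (16 * m) (17 * m) w ℚ_[p] ↔ ∃ u v : ℤ, Squarefree u ∧ Squarefree v ∧
      IsSquare ((u * v * w : ℤ) : ℚ_[p]) ∧ LS m (-16 * m) u v ℚ_[p] := by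
  have hm0 := hm.ne_zero
  have hw0 := hw.ne_zero
  have hwK : (w : ℚ_[p]) ≠ 0 := by exact_mod_cast hw0
  rw [hLUV p (16 * m) (17 * m) w (by omega) (by omega) (by omega) hw0]
  constructor
  · rintro ⟨u, hu, h⟩
    have huK : (u : ℚ_[p]) ≠ 0 := by exact_mod_cast hu.ne_zero
    obtain ⟨v, k, hv, hk, e⟩ := sqf_part (mul_ne_zero hu.ne_zero hw0)
    have hsq : IsSquare ((u * v * w : ℤ) : ℚ_[p]) := by
      refine ⟨v * k, ?_⟩
      have e1 : (u * v * w : ℤ) = (v * k) * (v * k) := by
        calc u * v * w = v * (u * w) := by ring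
          _ = _ := by rw [e]; ring
      rw [e1]
      push_cast
      ring
    exact ⟨u, v, hu, hv, hsq, bridge_mp hsq hwK huK h⟩
  · rintro ⟨u, v, hu, hv, hsq, h⟩
    have huK : (u : ℚ_[p]) ≠ 0 := by exact_mod_cast hu.ne_zero
    have hvK : (v : ℚ_[p]) ≠ 0 := by exact_mod_cast hv.ne_zero
    exact ⟨u, hu, bridge_mpr hsq hvK huK h⟩

theorem sq_of_VL (hp2 : p ≠ 2) {n : ℤ} (hn : n ≠ 0) (hV : V p n = 0) (hL : L p n = 0) :
    IsSquare (n : ℚ_[p]) := by
  refine (sq_iff hp2 hn).2 ⟨?_, ?_⟩
  · unfold V at hV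
    rw [ZMod.natCast_eq_zero_iff] at hV
    exact even_iff_two_dvd.2 hV
  · unfold L at hL
    by_contra h
    rw [if_neg h] at hL
    exact absurd hL (by decide)

theorem sq_cls (hp2 : p ≠ 2) {c w : ℤ} (hc : c ≠ 0) (hw : w ≠ 0) (hV : V p c + V p w = 0)
    (hL : L p c + L p w = 0) : IsSquare ((c * w : ℤ) : ℚ_[p]) :=
  sq_of_VL hp2 (mul_ne_zero hc hw) (by rw [V_mul hc hw]; exact hV) (by rw [L_mul hc hw]; exact hL)

theorem VL_add {u v w : ℤ} (hu : Squarefree u) (hv : Squarefree v) (hw : Squarefree w)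
    (h : IsSquare ((u * v * w : ℤ) : ℚ_[p])) : ind p w = ind p u + ind p v ∧
      lam p w = lam p u + lam p v := by
  have n1 := mul_ne_zero hu.ne_zero hv.ne_zero
  have h1 := sq_V (mul_ne_zero n1 hw.ne_zero) h
  have h2 := sq_L (mul_ne_zero n1 hw.ne_zero) h
  rw [V_mul n1 hw.ne_zero, V_mul hu.ne_zero hv.ne_zero, V_sqf hu, V_sqf hv, V_sqf hw] at h1
  rw [L_mul n1 hw.ne_zero, L_mul hu.ne_zero hv.ne_zero, L_sqf hu, L_sqf hv, L_sqf hw] at h2
  exact ⟨(z2 h1).symm, (z2 h2).symm⟩

omit hp in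
theorem ind_one {n : ℤ} (h : (p : ℤ) ∣ n) : ind p n = 1 := if_pos h

omit hp in
theorem ind_zero {n : ℤ} (h : ¬ (p : ℤ) ∣ n) : ind p n = 0 := if_neg h

omit hp in
theorem not_dvd_of {n : ℤ} (h : ind p n = 0) : ¬ (p : ℤ) ∣ n := by
  intro h1
  rw [ind_one h1] at h
  exact absurd h (by decide)

theorem z2c (a : ZMod 2) : a = 0 ∨ a = 1 := by
  revert a; decide

end padic

section two

/-- the unit part at two -/
theorem dec_up {u : ℤ} (hu : Squarefree u) :
    u = 2 ^ (if (2 : ℤ) ∣ u then 1 else 0) * up 2 u ∧ up 2 u % 2 = 1 := by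
  have h4 : ¬ (4 : ℤ) ∣ u := QSUF2.not_four hu
  unfold up
  push_cast
  split_ifs with h
  · constructor <;> omega
  · constructor <;> omega

theorem e4_of {n r : ℤ} (h : up 2 n % 8 = r) : e4 n = if r % 4 = 3 then 1 else 0 := by
  have h4 : up 2 n % 4 = r % 4 := by omega
  unfold e4
  rw [h4]

theorem e8_of {n r : ℤ} (h : up 2 n % 8 = r) : e8 n = if r = 1 ∨ r = 7 then 0 else 1 := by
  unfold e8
  rw [h]

theorem ef_add {u v w : ℤ} (ou : up 2 u % 2 = 1) (ov : up 2 v % 2 = 1)
    (h8 : up 2 w % 8 = (up 2 u * up 2 v) % 8) :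
    e4 w = e4 u + e4 v ∧ e8 w = e8 u + e8 v := by
  rw [Int.mul_emod] at h8
  rcases QNEC2.odd8 ou with a | a | a | a <;> rcases QNEC2.odd8 ov with b | b | b | b <;>
    rw [a, b] at h8 <;> norm_num at h8 <;>
    (rw [e4_of a, e4_of b, e4_of h8, e8_of a, e8_of b, e8_of h8]
     decide)

theorem two_add [Fact (Nat.Prime 2)] {u v w : ℤ} (hu : Squarefree u) (hv : Squarefree v)
    (hw : Squarefree w) (h : IsSquare ((u * v * w : ℤ) : ℚ_[2])) : ind 2 w = ind 2 u + ind 2 v ∧
      e4 w = e4 u + e4 v ∧ e8 w = e8 u + e8 v := by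
  refine ⟨(VL_add hu hv hw h).1, ?_⟩
  obtain ⟨eu, ou⟩ := dec_up hu
  obtain ⟨ev, ov⟩ := dec_up hv
  obtain ⟨k, hk⟩ : ∃ k : ℕ, u * v = 2 ^ k * (up 2 u * up 2 v) :=
    ⟨_, by
      conv_lhs => rw [eu, ev]
      rw [show ∀ (a b : ℕ) (x y : ℤ), (2 : ℤ) ^ a * x * (2 ^ b * y) = 2 ^ (a + b) * (x * y) from
        fun a b x y => by rw [pow_add]; ring]⟩
  have ox : (up 2 u * up 2 v) % 2 = 1 := by rw [Int.mul_emod, ou, ov]; norm_num
  obtain ⟨-, h8⟩ := QNEC2.cls hk ox hw h
  exact ef_add ou ov h8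

theorem h2_lin {u v w m : ℤ} (h1 : ind 2 w = ind 2 u + ind 2 v) (h4 : e4 w = e4 u + e4 v)
    (h8 : e8 w = e8 u + e8 v) : h2 w m = h2 u m + h2 v m := by
  unfold h2
  rw [h1, h4, h8]
  ring

end two

theorem t_UL2 : S_LUV → S_LUVR → S_UL2 := by
  intro hLUV hLUVR m w hm hw
  show ELU (16 * m) (17 * m) w ↔ UC2 m w
  have hm0 := hm.ne_zero
  have hw0 := hw.ne_zero
  have sqm : Squarefree (-m) := (Associated.squarefree_iff
    (Associated.neg_right (Associated.refl m))).1 hm
  constructor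
  · rintro ⟨hP, hR⟩
    refine ⟨?_, ?_, ?_, ?_, ?_, ?_⟩
    · intro hneg
      rw [hLUVR (16 * m) (17 * m) w (by omega) (by omega) (by omega) hw0] at hR
      obtain ⟨u, hu, h⟩ := hR
      obtain ⟨v, k, hv, hk, e⟩ := sqf_part (mul_ne_zero hu.ne_zero hw0)
      have e1 : (u * v * w : ℤ) = (v * k) * (v * k) := by
        calc u * v * w = v * (u * w) := by ring
          _ = _ := by rw [e]; ring
      have hsq : IsSquare ((u * v * w : ℤ) : ℝ) := by
        refine ⟨v * k, ?_⟩
        rw [e1]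
        push_cast
        ring
      have h1 := bridge_mp hsq (by exact_mod_cast hw0) (by exact_mod_cast hu.ne_zero) h
      have h2 := (t_NECINF m u v hm0 hu hv h1).2 hneg
      have h3 : 0 ≤ u * v * w := by rw [e1]; exact mul_self_nonneg _
      have h4 : 0 ≤ w := nonneg_of_mul_nonneg_right h3 h2
      omega
    · intro p hp p2 p17 hpm
      have : Fact p.Prime := ⟨hp⟩
      obtain ⟨u, v, hu, hv, hsq, h⟩ := (lu_iff hLUV hm hw).1 (hP p)
      obtain ⟨h1, h2⟩ := t_NECGOOD p m u v p2 p17 hpm hu hv h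
      apply not_dvd_of
      rw [(VL_add hu hv hw hsq).1, ind_zero h1, ind_zero h2, add_zero]
    · intro p hp p2 p17 hpm h17
      have : Fact p.Prime := ⟨hp⟩
      obtain ⟨u, v, hu, hv, hsq, h⟩ := (lu_iff hLUV hm hw).1 (hP p)
      obtain ⟨h1, h2⟩ := t_NECODD p m u v p2 p17 hpm hm hu hv h
      obtain ⟨h3, h4⟩ := VL_add hu hv hw hsq
      have h5 : lam p (-m) = lam p (-1) + lam p m := by
        rw [← L_sqf sqm, ← L_sqf hm, ← L_sqf (n := -1) (IsUnit.squarefree (by norm_num)),
          ← L_mul (by norm_num) hm0, neg_one_mul]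
      rw [h4, h3, h1, h2, h17, h5]
      generalize ind p u = a
      generalize ind p v = b
      generalize lam p (-1) = c
      generalize lam p m = d
      revert a b c d
      decide
    · intro h17m hl
      have : Fact (Nat.Prime 17) := ⟨by norm_num⟩
      obtain ⟨u, v, hu, hv, hsq, h⟩ := (lu_iff hLUV hm hw).1 (hP 17)
      obtain ⟨h1, h2⟩ := (t_NEC17 m u v hm hu hv h).2 h17m
      rw [(VL_add hu hv hw hsq).2, h1, h2, hl, mul_zero, mul_zero, add_zero]
    · intro hm4
      have : Fact (Nat.Prime 2) := ⟨Nat.prime_two⟩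
      obtain ⟨u, v, hu, hv, hsq, h⟩ := (lu_iff hLUV hm hw).1 (hP 2)
      obtain ⟨h1, h2⟩ := (QNEC2.t_NEC2 m u v hm hu hv h).1 hm4
      have h3 := (VL_add hu hv hw hsq).1
      have h1' : ¬ ((2 : ℕ) : ℤ) ∣ u := by exact_mod_cast h1
      have h2' : ¬ ((2 : ℕ) : ℤ) ∣ v := by push_cast; omega
      rw [ind_zero h1', ind_zero h2', add_zero] at h3
      have := not_dvd_of (p := 2) h3
      exact_mod_cast this
    · intro hm4
      have : Fact (Nat.Prime 2) := ⟨Nat.prime_two⟩
      obtain ⟨u, v, hu, hv, hsq, h⟩ := (lu_iff hLUV hm hw).1 (hP 2)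
      obtain ⟨h1, h2⟩ := (QNEC2.t_NEC2 m u v hm hu hv h).2 hm4
      obtain ⟨h3, h4, h5⟩ := two_add hu hv hw hsq
      rw [h2_lin (m := m) h3 h4 h5, h2]
      rcases h1 with ⟨h6, h7⟩ | ⟨h6, h7⟩
      · have i0 : ind 2 v = 0 := ind_zero (by exact_mod_cast h7)
        have j0 : e4 v = 0 := by unfold e4; rw [if_neg (by omega)]
        have k0 : e8 v = 0 := by unfold e8; rw [if_pos (Or.inl h6)]
        unfold Pool.Agent.H743.X17.h2
        rw [i0, j0, k0]
        ring
      · have ov := (dec_up hv).2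
        have om := (dec_up hm).2
        have h8 : up 2 v % 8 = up 2 m % 8 := by
          rw [Int.mul_emod] at h7
          rcases QNEC2.odd8 ov with a | a | a | a <;> rcases QNEC2.odd8 om with b | b | b | b <;>
            rw [a, b] at h7 ⊢ <;> norm_num at h7
        have i0 : ind 2 v = ind 2 m := by
          unfold ind
          push_cast
          by_cases hv2 : (2 : ℤ) ∣ v
          · rw [if_pos hv2, if_pos (h6.1 hv2)]
          · rw [if_neg hv2, if_neg (fun h9 => hv2 (h6.2 h9))]
        have j0 : e4 v = e4 m := by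
          have : up 2 v % 4 = up 2 m % 4 := by omega
          unfold e4
          rw [this]
        have k0 : e8 v = e8 m := by unfold e8; rw [h8]
        unfold Pool.Agent.H743.X17.h2
        rw [i0, j0, k0]
        generalize e4 m = a
        generalize e8 m = b
        generalize ind 2 m = c
        revert a b c
        decide
  · intro hU
    refine ⟨?_, ?_⟩
    · intro p hp
      by_cases p2 : p = 2
      · subst p2
        refine (lu_iff hLUV hm hw).2 ⟨w, 1, hw, squarefree_one, ⟨w, by push_cast; ring⟩,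
          QSUF2.t_SUF2 m w 1 hm hw squarefree_one ?_ ?_⟩
        · intro h4
          exact ⟨hU.o2 h4, by norm_num⟩
        · intro h4
          have e1 : up 2 1 = 1 := by unfold up; rw [if_neg (by norm_num)]
          refine ⟨Or.inl ⟨by rw [e1]; norm_num, by norm_num⟩, ?_⟩
          rw [hU.e2 h4]
          unfold e4
          rw [e1, if_neg (by norm_num)]
      have Vw : V p w = ind p w := V_sqf hw
      have Lw : L p w = lam p w := L_sqf hw
      have Vm : V p (-m) = ind p (-m) := V_sqf sqm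
      have Lm : L p (-m) = lam p (-m) := L_sqf sqm
      have c0 : (17 : ℤ) ≠ 0 := by norm_num
      have c1 : -m ≠ 0 := neg_ne_zero.2 hm0
      have c2 : -(17 * m) ≠ 0 := neg_ne_zero.2 (mul_ne_zero c0 hm0)
      have V17m : V p (-(17 * m)) = V p 17 + ind p (-m) := by
        rw [show -(17 * m) = 17 * -m by ring, V_mul c0 c1, Vm]
      have L17m : L p (-(17 * m)) = L p 17 + lam p (-m) := by
        rw [show -(17 * m) = 17 * -m by ring, L_mul c0 c1, Lm]
      by_cases p17 : p = 17
      · subst p17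
        have sq17 : Squarefree (17 : ℤ) := by
          have := (Nat.prime_iff_prime_int.1 (by norm_num : Nat.Prime 17)).squarefree
          exact_mod_cast this
        have V17 : V 17 17 = 1 := by
          rw [V_sqf sq17]
          exact if_pos (by norm_num)
        have L17 : L 17 17 = 0 := by
          rw [L_sqf sq17]
          unfold lam up
          norm_num
        have Lneg : lam 17 (-m) = lam 17 m := by
          have h1 : L 17 (-1) = 0 := by
            rw [L_unit (by decide)]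
            unfold J
            norm_num
          rw [← L_sqf sqm, ← L_sqf hm, ← neg_one_mul, L_mul (by norm_num) hm0, h1, zero_add]
        by_cases h17 : (17 : ℤ) ∣ m
        · have i1 : ind 17 (-m) = 1 := ind_one (by push_cast; exact (dvd_neg).2 h17)
          have hr := hU.r17 h17
          rcases z2c (lam 17 w) with hl | hl <;> rcases z2c (ind 17 w) with hi | hi
          · exact Or.inl (sq_of_VL p2 hw0 (by rw [Vw, hi]) (by rw [Lw, hl]))
          · exact lu17 (sq_cls p2 c0 hw0 (by rw [V17, Vw, hi]; decide) (by rw [L17, Lw, hl]; decide))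
          · have hlm : lam 17 m = 1 := by
              rcases z2c (lam 17 m) with h | h
              · rw [hr h] at hl; exact absurd hl (by decide)
              · exact h
            exact lum17 hm0 (sq_cls p2 c2 hw0 (by rw [V17m, V17, i1, Vw, hi]; decide)
              (by rw [L17m, L17, Lneg, hlm, Lw, hl]; decide))
          · have hlm : lam 17 m = 1 := by
              rcases z2c (lam 17 m) with h | h
              · rw [hr h] at hl; exact absurd hl (by decide)
              · exact h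
            exact lum hm0 (sq_cls p2 c1 hw0 (by rw [Vm, i1, Vw, hi]; decide)
              (by rw [Lm, Lneg, hlm, Lw, hl]; decide))
        · have i1 : ind 17 (-m) = 0 := ind_zero (by push_cast; exact fun h => h17 ((dvd_neg).1 h))
          rcases z2c (lam 17 m) with hlm | hlm
          · refine (lu_iff hLUV hm hw).2 ⟨1, w, squarefree_one, hw, ⟨w, by push_cast; ring⟩,
              QSUF17.t_SUF17 m 1 w hm squarefree_one hw ?_ (fun h => absurd h h17)⟩
            intro _
            refine ⟨by norm_num, ?_⟩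
            rw [hlm, mul_zero]
            unfold lam up
            norm_num
          · rcases z2c (lam 17 w) with hl | hl <;> rcases z2c (ind 17 w) with hi | hi
            · exact Or.inl (sq_of_VL p2 hw0 (by rw [Vw, hi]) (by rw [Lw, hl]))
            · exact lu17 (sq_cls p2 c0 hw0 (by rw [V17, Vw, hi]; decide)
                (by rw [L17, Lw, hl]; decide))
            · exact lum hm0 (sq_cls p2 c1 hw0 (by rw [Vm, i1, Vw, hi]; decide)
                (by rw [Lm, Lneg, hlm, Lw, hl]; decide))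
            · exact lum17 hm0 (sq_cls p2 c2 hw0 (by rw [V17m, V17, i1, Vw, hi]; decide)
                (by rw [L17m, L17, Lneg, hlm, Lw, hl]; decide))
      by_cases hpm : (p : ℤ) ∣ m
      · have i1 : ind p (-m) = 1 := ind_one ((dvd_neg).2 hpm)
        have n17 := nd17 p17
        have sq17 : Squarefree (17 : ℤ) := by
          have := (Nat.prime_iff_prime_int.1 (by norm_num : Nat.Prime 17)).squarefree
          exact_mod_cast this
        have V17 : V p 17 = 0 := V_unit n17
        have L17 : L p 17 = lam p 17 := L_sqf sq17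
        have ho := hU.odd p hp.out p2 p17 hpm
        rcases z2c (lam p 17) with h17 | h17
        · have ho' := ho h17
          rcases z2c (ind p w) with hi | hi
          · rw [hi, zero_mul] at ho'
            exact Or.inl (sq_of_VL p2 hw0 (by rw [Vw, hi]) (by rw [Lw, ho']))
          · rw [hi, one_mul] at ho'
            exact lum hm0 (sq_cls p2 c1 hw0 (by rw [Vm, i1, Vw, hi]; decide)
              (by rw [Lm, Lw, ho']; exact CharTwo.add_self_eq_zero _))
        · rcases z2c (ind p w) with hi | hi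
          · rcases z2c (lam p w) with hl | hl
            · exact Or.inl (sq_of_VL p2 hw0 (by rw [Vw, hi]) (by rw [Lw, hl]))
            · exact lu17 (sq_cls p2 c0 hw0 (by rw [V17, Vw, hi]; decide)
                (by rw [L17, h17, Lw, hl]; decide))
          · by_cases hl : lam p w = lam p (-m)
            · exact lum hm0 (sq_cls p2 c1 hw0 (by rw [Vm, i1, Vw, hi]; decide)
                (by rw [Lm, Lw, hl]; exact CharTwo.add_self_eq_zero _))
            · refine lum17 hm0 (sq_cls p2 c2 hw0 (by rw [V17m, V17, i1, Vw, hi]; decide) ?_)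
              rw [L17m, L17, h17, Lw]
              generalize lam p w = a at hl ⊢
              generalize lam p (-m) = b at hl ⊢
              revert a b
              decide
      · refine (lu_iff hLUV hm hw).2 ⟨w, 1, hw, squarefree_one, ⟨w, by push_cast; ring⟩,
          QSUFGOOD.t_SUFGOOD p m w 1 p2 p17 hpm (hU.good p hp.out p2 p17 hpm) ?_⟩
        intro h
        exact pI.not_isUnit (isUnit_of_dvd_one h)
    · by_cases hwpos : 0 < w
      · left
        rw [Real.isSquare_iff]
        exact_mod_cast hwpos.le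
      · have hmpos : 0 < m := by
          by_contra h
          exact hwpos (hU.neg (by omega))
        have hmR : (0 : ℝ) < m := by exact_mod_cast hmpos
        have hwR : (w : ℝ) ≤ 0 := by exact_mod_cast not_lt.1 hwpos
        right; right
        have hpos : 0 ≤ (-(33 * (m : ℝ) / 2)) * (-(33 * (m : ℝ) / 2) + ((16 * m : ℤ) : ℝ)) *
            (-(33 * (m : ℝ) / 2) + ((17 * m : ℤ) : ℝ)) := by
          push_cast
          have e : (-(33 * (m : ℝ) / 2)) * (-(33 * (m : ℝ) / 2) + 16 * m) *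
            (-(33 * (m : ℝ) / 2) + 17 * m) = 33 / 8 * (m : ℝ) ^ 3 := by ring
          rw [e]
          positivity
        refine ⟨-(33 * (m : ℝ) / 2), √((-(33 * (m : ℝ) / 2)) *
          (-(33 * (m : ℝ) / 2) + ((16 * m : ℤ) : ℝ)) * (-(33 * (m : ℝ) / 2) + ((17 * m : ℤ) : ℝ))),
          ?_, Real.sq_sqrt hpos, ?_⟩
        · have : 0 < 33 * (m : ℝ) / 2 := by positivity
          exact (neg_neg_of_pos this).ne
        · rw [Real.isSquare_iff]
          have : 0 < 33 * (m : ℝ) / 2 := by positivity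
          nlinarith

end Pool.Agent.H743.X17.QUL2
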