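import Pool.Agent.H743.X17.IsoStm
import Pool.Agent.H743.X17.TORS

/-!
# I17 VCNT: the four classes of the rational points
-/

set_option autoImplicit false

open scoped Classical

namespace Pool.Agent.H743.X17.QVCNT

open Pool.Agent.H743.X17 Pool.Agent.H743.X17.QTORS
open Pool.Agent.TH841.SH
open WeierstrassCurve

theorem sqlem {c u s : ℤ} (hc : Squarefree c) (hu : Squarefree u) (hs : s ≠ 0) :
    IsSquare ((c * s ^ 2 * u : ℤ) : ℚ) ↔ u = c := by
  constructor
  · intro h
    rw [Rat.isSquare_intCast_iff] at h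
    obtain ⟨k, hk⟩ := h
    have h1 : s ^ 2 ∣ k ^ 2 := ⟨c * u, by rw [sq k, ← hk]; ring⟩
    have h2 : s ∣ k := (Int.pow_dvd_pow_iff two_ne_zero).1 h1
    obtain ⟨l, rfl⟩ := h2
    have h3 : c * u = l ^ 2 := by
      have : s ^ 2 * (c * u) = s ^ 2 * l ^ 2 := by linear_combination hk
      exact mul_left_cancel₀ (pow_ne_zero 2 hs) this
    have h4 : c ∣ l := (hc.dvd_pow_iff_dvd two_ne_zero).1 ⟨u, h3.symm⟩
    obtain ⟨r, rfl⟩ := h4
    have h5 : u = c * (r * r) := by
      have : c * u = c * (c * (r * r)) := by linear_combination h3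
      exact mul_left_cancel₀ hc.ne_zero this
    have h6 : IsUnit r := hu r ⟨c, by rw [h5]; ring⟩
    rcases Int.isUnit_iff.1 h6 with rfl | rfl <;> simpa using h5
  · rintro rfl
    exact ⟨u * s, by push_cast; ring⟩

theorem pts {m : ℤ} (hm : Squarefree m) (hf : Finite (EAB m (-16 * m)).toAffine.Point) {x y : ℚ}
    (h : y ^ 2 = x * (x + m) * (x - 16 * m)) : x = 0 ∨ x = -m ∨ x = 16 * m := by
  have hm0 : (m : ℚ) ≠ 0 := by exact_mod_cast hm.ne_zero
  have hW := isR m
  have hn : (E m).toAffine.Nonsingular x y := by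
    refine hW.nons two_ne_zero (fun h => hm0 ?_) (fun h => hm0 ?_) (fun h => hm0 ?_) ?_
    · linarith
    · linarith
    · linarith
    · rw [h]; ring
  have hfin : IsOfFinAddOrder (Affine.Point.some x y hn : (E m).toAffine.Point) :=
    isOfFinAddOrder_of_finite _
  have h2 := two_of_tors hm hfin
  have hy := (hW.add_self two_ne_zero hn).1 h2
  have h3 : x * (x + m) * (x - 16 * m) = 0 := by rw [← h, hy]; ring
  rcases mul_eq_zero.1 h3 with h4 | h4
  · rcases mul_eq_zero.1 h4 with h5 | h5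
    · exact Or.inl h5
    · exact Or.inr (Or.inl (by linarith))
  · exact Or.inr (Or.inr (by linarith))

theorem cnt {S : Set ℤ} {a b c d : ℤ} (hS : ∀ u, u ∈ S ↔ u = a ∨ u = b ∨ u = c ∨ u = d)
    (hab : a ≠ b) (hac : a ≠ c) (had : a ≠ d) (hbc : b ≠ c) (hbd : b ≠ d) (hcd : c ≠ d) :
    S.ncard = 4 := by
  have h : S = (({a, b, c, d} : Finset ℤ) : Set ℤ) := by
    ext u
    rw [hS]
    simp
  rw [h, Set.ncard_coe_finset, Finset.card_insert_of_notMem, Finset.card_insert_of_notMem,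
    Finset.card_insert_of_notMem, Finset.card_singleton]
  · simpa using hcd
  · simpa using ⟨hbc, hbd⟩
  · simpa using ⟨hab, hac, had⟩

theorem main4 {A B c₁ c₂ c₃ s₁ s₂ s₃ : ℤ} (hA : A ≠ 0) (hB : B ≠ 0) (h1 : Squarefree c₁)
    (h2 : Squarefree c₂) (h3 : Squarefree c₃) (e1 : A * B = c₁ * s₁ ^ 2) (e2 : -A = c₂ * s₂ ^ 2)
    (e3 : -B = c₃ * s₃ ^ 2)
    (hp : ∀ x y : ℚ, y ^ 2 = x * (x + A) * (x + B) → x = 0 ∨ x = -A ∨ x = -B)
    (d1 : (1 : ℤ) ≠ c₁) (d2 : (1 : ℤ) ≠ c₂) (d3 : (1 : ℤ) ≠ c₃) (d4 : c₁ ≠ c₂) (d5 : c₁ ≠ c₃)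
    (d6 : c₂ ≠ c₃) : {u : ℤ | Squarefree u ∧ LU A B u ℚ}.ncard = 4 := by
  have hs1 : s₁ ≠ 0 := by
    rintro rfl
    exact mul_ne_zero hA hB (by rw [e1]; ring)
  have hs2 : s₂ ≠ 0 := by
    rintro rfl
    exact neg_ne_zero.2 hA (by rw [e2]; ring)
  have hs3 : s₃ ≠ 0 := by
    rintro rfl
    exact neg_ne_zero.2 hB (by rw [e3]; ring)
  have hAq : (A : ℚ) ≠ 0 := by exact_mod_cast hA
  have hBq : (B : ℚ) ≠ 0 := by exact_mod_cast hB
  have key : ∀ u : ℤ, Squarefree u → (LU A B u ℚ ↔ u = 1 ∨ u = c₁ ∨ u = c₂ ∨ u = c₃) := by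
    intro u hu
    have g0 : IsSquare (u : ℚ) ↔ u = 1 := by
      have := sqlem (c := 1) (s := 1) squarefree_one hu one_ne_zero
      simpa using this
    have g1 : IsSquare ((A * B * u : ℤ) : ℚ) ↔ u = c₁ := by
      rw [e1]
      exact sqlem h1 hu hs1
    have g2 : IsSquare (-(A : ℚ) * u) ↔ u = c₂ := by
      have h := sqlem h2 hu hs2
      rw [← e2] at h
      rw [← h]
      push_cast
      rfl
    have g3 : IsSquare (-(B : ℚ) * u) ↔ u = c₃ := by
      have h := sqlem h3 hu hs3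
      rw [← e3] at h
      rw [← h]
      push_cast
      rfl
    unfold LU
    rw [g0, g1, ← g2, ← g3]
    refine or_congr Iff.rfl (or_congr Iff.rfl ?_)
    constructor
    · rintro ⟨x, y, hx, hxy, hsq⟩
      rcases hp x y hxy with h | h | h
      · exact absurd h hx
      · left; rwa [h] at hsq
      · right; rwa [h] at hsq
    · rintro (h | h)
      · exact ⟨-A, 0, neg_ne_zero.2 hAq, by ring, h⟩
      · exact ⟨-B, 0, neg_ne_zero.2 hBq, by ring, h⟩
  refine cnt (a := 1) (b := c₁) (c := c₂) (d := c₃) (fun u => ?_) d1 d2 d3 d4 d5 d6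
  constructor
  · rintro ⟨hu, h⟩
    exact (key u hu).1 h
  · intro h
    have hu : Squarefree u := by
      rcases h with rfl | rfl | rfl | rfl
      · exact squarefree_one
      · exact h1
      · exact h2
      · exact h3
    exact ⟨hu, (key u hu).2 h⟩

theorem prime17 : Prime (17 : ℤ) := Int.prime_iff_natAbs_prime.2 (by norm_num)

theorem sqf17 {m : ℤ} (hm : Squarefree m) (h : ¬ (17 : ℤ) ∣ m) : Squarefree (17 * m) := by
  rw [squarefree_mul_iff]
  exact ⟨(prime17.irreducible.isRelPrime_iff_not_dvd).2 h, prime17.squarefree, hm⟩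

theorem not_dvd17 {k : ℤ} (h : Squarefree (17 * k)) : ¬ (17 : ℤ) ∣ k := by
  rintro ⟨l, rfl⟩
  have h1 := h 17 ⟨l, by ring⟩
  exact prime17.not_isUnit h1

theorem sqf_neg {m : ℤ} (hm : Squarefree m) : Squarefree (-m) := fun x hx => hm x (dvd_neg.1 hx)

theorem t_VCNT : S_VCNT := by
  intro j m hm hexc hf
  have hm0 : m ≠ 0 := hm.ne_zero
  have hp := fun x y => @pts m hm hf x y
  unfold Exc at hexc
  push Not at hexc
  obtain ⟨x1, x2, x3, x4⟩ := hexc
  have hcases : j = 0 ∨ j = 1 ∨ j = 2 := by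
    revert j
    decide
  rcases hcases with rfl | rfl | rfl
  · change {u : ℤ | Squarefree u ∧ LU m (-16 * m) u ℚ}.ncard = 4
    refine main4 (c₁ := -1) (c₂ := -m) (c₃ := m) (s₁ := 4 * m) (s₂ := 1) (s₃ := 4) hm0
      (by omega) (sqf_neg squarefree_one) (sqf_neg hm) hm (by ring) (by ring) (by ring) ?_
      (by omega) (by omega) (by omega) (by omega) (by omega) (by omega)
    intro x y h
    push_cast at h ⊢
    rcases hp x y (by rw [h]; ring) with h | h | h
    · exact Or.inl h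
    · exact Or.inr (Or.inl h)
    · exact Or.inr (Or.inr (by rw [h]; ring))
  · change {u : ℤ | Squarefree u ∧ LU (-m) (-17 * m) u ℚ}.ncard = 4
    have hpt : ∀ x y : ℚ, y ^ 2 = x * (x + ((-m : ℤ) : ℚ)) * (x + ((-17 * m : ℤ) : ℚ)) →
        x = 0 ∨ x = -((-m : ℤ) : ℚ) ∨ x = -((-17 * m : ℤ) : ℚ) := by
      intro x y h
      push_cast at h ⊢
      rcases hp (x - m) y (by rw [h]; ring) with h | h | h
      · exact Or.inr (Or.inl (by linarith))
      · exact Or.inl (by linarith)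
      · exact Or.inr (Or.inr (by linarith))
    by_cases h17 : (17 : ℤ) ∣ m
    · obtain ⟨k, rfl⟩ := h17
      have hk : Squarefree k := hm.of_mul_right
      have hk17 := not_dvd17 hm
      exact main4 (c₁ := 17) (c₂ := 17 * k) (c₃ := k) (s₁ := 17 * k) (s₂ := 1) (s₃ := 17)
        (by omega) (by omega) prime17.squarefree hm hk (by ring) (by ring) (by ring) hpt
        (by omega) (by omega) (by omega) (by omega) (by omega) (by omega)
    · exact main4 (c₁ := 17) (c₂ := m) (c₃ := 17 * m) (s₁ := m) (s₂ := 1) (s₃ := 1)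
        (by omega) (by omega) prime17.squarefree hm (sqf17 hm h17) (by ring) (by ring) (by ring) hpt
        (by omega) (by omega) (by omega) (by omega) (by omega) (by omega)
  · change {u : ℤ | Squarefree u ∧ LU (16 * m) (17 * m) u ℚ}.ncard = 4
    have hpt : ∀ x y : ℚ, y ^ 2 = x * (x + ((16 * m : ℤ) : ℚ)) * (x + ((17 * m : ℤ) : ℚ)) →
        x = 0 ∨ x = -((16 * m : ℤ) : ℚ) ∨ x = -((17 * m : ℤ) : ℚ) := by
      intro x y h
      push_cast at h ⊢
      rcases hp (x + 16 * m) y (by rw [h]; ring) with h | h | h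
      · exact Or.inr (Or.inl (by linarith))
      · exact Or.inr (Or.inr (by linarith))
      · exact Or.inl (by linarith)
    by_cases h17 : (17 : ℤ) ∣ m
    · obtain ⟨k, rfl⟩ := h17
      have hk : Squarefree k := hm.of_mul_right
      have hk17 := not_dvd17 hm
      exact main4 (c₁ := 17) (c₂ := -(17 * k)) (c₃ := -k) (s₁ := 4 * (17 * k)) (s₂ := 4) (s₃ := 17)
        (by omega) (by omega) prime17.squarefree (sqf_neg hm) (sqf_neg hk) (by ring) (by ring)
        (by ring) hpt (by omega) (by omega) (by omega) (by omega) (by omega) (by omega)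
    · exact main4 (c₁ := 17) (c₂ := -m) (c₃ := -(17 * m)) (s₁ := 4 * m) (s₂ := 4) (s₃ := 1)
        (by omega) (by omega) prime17.squarefree (sqf_neg hm) (sqf_neg (sqf17 hm h17)) (by ring)
        (by ring) (by ring) hpt (by omega) (by omega) (by omega) (by omega) (by omega) (by omega)

end Pool.Agent.H743.X17.QVCNT
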