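import Pool.Agent.H743.X17.All
import Pool.Agent.H743.X17.AVR
import Pool.Agent.H743.X17.ADEL
import Pool.Agent.H743.X17.AISL
import Pool.Agent.H743.X17.ATP
import Pool.Agent.H743.X17.ASHA
import Pool.Agent.H743.X17.ATOR
import Pool.Agent.H743.X17.AVAL
import Pool.Agent.H743.X17.UCNT0
import Pool.Agent.H743.X17.UCNT1
import Pool.Agent.H743.X17.UCNT2
import Pool.Agent.H743.X17.IABS1
import Pool.Agent.H743.X17.IABS2
import Pool.Agent.H743.X17.IFIN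
import Pool.Agent.H743.X17.LUV
import Pool.Agent.H743.X17.UL0
import Pool.Agent.H743.X17.UL1
import Pool.Agent.H743.X17.UL2
import Pool.Agent.H743.X17.VCNT
import Pool.Agent.H743.X17.ITORS
import Pool.Agent.H743.X17.ITP0
import Pool.Agent.H743.X17.ITP1
import Pool.Agent.H743.X17.ITP2
import Pool.Agent.H743.X17.ITS0
import Pool.Agent.H743.X17.ITS1
import Pool.Agent.H743.X17.ITR0
import Pool.Agent.H743.X17.ITR1
import Pool.Agent.H743.X17.ITR2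
import Pool.Agent.H743.X17.ITD0
import Pool.Agent.H743.X17.ITD1
import Pool.Agent.H743.X17.ITD2
import Pool.Agent.H743.X17.IMIN
import Pool.Agent.H743.X17.IAP
import Pool.Agent.H743.X17.LAND
import Pool.Agent.H743.X17.EGG
import Pool.Agent.H743.X17.IOM0
import Pool.Agent.H743.X17.IOM1
import Pool.Agent.H743.X17.IOM2

/-!
# The curves isogenous to `E_m`: all the parts
-/

set_option autoImplicit false

namespace Pool.Agent.H743.X17

theorem iparts : IParts where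
  iabs1 := QIABS1.t_IABS1
  iabs2 := Pool.Agent.H743.I17.QIABS2.t_IABS2
  ifin := QIFIN.t_IFIN
  ul0 := QUL0.t_UL0 QLUV.t_LUV.1 QLUV.t_LUV.2
  ul1 := QUL1.t_UL1 QLUV.t_LUV.1 QLUV.t_LUV.2
  ul2 := QUL2.t_UL2 QLUV.t_LUV.1 QLUV.t_LUV.2
  ucnt0 := t_UCNT0
  ucnt1 := QUCNT1.t_UCNT1
  ucnt2 := QUCNT2.t_UCNT2
  vcnt := QVCNT.t_VCNT
  itors := QITORS.t_ITORS
  itp0 := QITP0.t_ITP0
  itp1 := QITP1.t_ITP1
  itp2 := QITP2.t_ITP2
  its0 := QITS0.t_ITS0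
  its1 := QITS1.t_ITS1.1
  its2 := QITS1.t_ITS1.2
  itr0 := QITR0.t_ITR0
  itr1 := QITR1.t_ITR1
  itr2 := QITR2.t_ITR2
  itd0 := QITD0.t_ITD0
  itd1 := QITD1.t_ITD1
  itd2 := QITD2.t_ITD2
  imin := QIMIN.t_IMIN
  iap := t_IAP.2
  iom0 := QIOM0.t_IOM0 t_LAND QEGG.t_EGG
  iom1 := QIOM1.t_IOM1 t_LAND QEGG.t_EGG
  iom2 := QIOM2.t_IOM2 t_LAND QEGG.t_EGG

end Pool.Agent.H743.X17
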