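import Pool.Agent.H743.X17.IsoFin

/-!
# The 2-part of the strong Birch and Swinnerton-Dyer conjecture for EVERY elliptic curve isogenous to a quadratic twist of `X_0(17)`

For a squarefree integer `m` (positive or negative, no condition on the ramification) let `W 0 m`, `W 1 m`,
`W 2 m`, `W 3 m` be the minimal equations of the four elliptic curves isogenous to the quadratic twist by
`m` of `X_0(17)`: `W 0 m` is the twist of `X_0(17)` itself (discriminant `-17⁴`), `W 3 m` is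
`y² = x (x + m) (x - 16 m)`, with all its points of order two rational, and the three others are its
quotients by the points of order two.  None has complex multiplication.

The theorem, with no hypothesis on the rank or on `Ш`: for EVERY squarefree `m` except `1, -1, 17, -17` and
for each of the four curves (and for `W 3 m` for every `m ≠ 1`)
* the equation is minimal; the torsion subgroup has order `4` for `W 3 m` and `2` for the three others; the
  Tamagawa numbers;
* the four curves have the same entire L-function `Λ`, and the order of `Ш` predicted by the formula for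
  rank `0`, `#tors² L(1) / (Ω Tam)`, is `2 ^ (ex j m - 2) y²` with one and the same integer `y` for the four
  curves; here `ex 3 m = 2` and `ex 0 m`, `ex 1 m`, `ex 2 m` are explicit: up to `2` they are the number of
  the prime factors `≡ 3 mod 4` of `m`, respectively of those with `(17/p) = -1`; `y` is `0` if the root
  number is `-1`;
* `y` is odd if and only if the criterion `Good m` holds (a symmetric matrix over `𝔽₂`, made of the Rédei
  matrix of `ℚ(√m)`, of the signs of the prime discriminants and of the symbols `(17/p)`, is nonsingular),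
  and if and only if the points of `W 3 m` are finite in number and its `Ш` has no element of order two;
* in this case the 2-part of the conjecture holds for the four curves (`TwoPart j m`): `L(1) ≠ 0`, the
  group of the rational points is finite, `Ш[2^∞]` is killed by `2` and has exactly `2 ^ (ex j m - 2)`
  elements, the predicted order of `Ш` is this number times an odd square, and the formula holds up to an
  odd factor if `Ш` is finite.

The natural density of the `m` for which this is so, among ALL squarefree integers ordered by `|m|`, is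
exactly `c / 2 = 0.2097...`, `c = (1 - 1/2) (1 - 1/8) (1 - 1/32) ⋯ = 0.4194...`; among the `m` with root
number `1`, which are exactly one half of all, it is `c`, and the same in every class given by conditions at
finitely many places; and it does not change if we ask that for `j = 0, 1, 2` the group `Ш[2^∞]` has the
order `(log |m|) ^ ((log 2)/2 + o(1))`; in particular it is unbounded.

Proof.  `W 3 m`: the theorem `EveryTwistX17` (`Pool/Agent/H743/X17`: complete 2-descent; the L-values and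
the density from the library, run 63374d34).  New: the descent by 2-isogenies in cohomology, in both
directions, for `Ш[2^∞]` of a quotient of a curve with trivial `Ш[2]`; the Selmer groups of the three
isogenies for all `m`, at all the places; the Tamagawa numbers (types `I₁, I₄, I₀*, I₁*, I₄*, I₈*`), the
torsion, the minimal equations, the Frobenius traces and the periods (Landen transformation, equality of
the periods of the two real components) of the quotients; the normal order of the exponents.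
-/

set_option autoImplicit false

open Filter Topology MeasureTheory

namespace Pool.Agent.H743.X17.ECX

open Pool.Agent.TH841.SH.D (Sha)

/-! ### the curves -/

/-- the minimal equations of the four curves, `m` squarefree.  They are, up to a change of variables
`(4 x + m) (x² + 8 m x + 20 m²)`, `x (4 x² + 9 m x + 4 m²)`, `(4 x + m) (x² - 16 m x - 4 m²)` and
`x (4 x + m) (x - 4 m)` equal to `y²` -/
def W (j : Fin 4) (m : ℤ) : WeierstrassCurve ℤ := match j with
  | 0 => if m % 4 = 1 then ⟨1, (33 * m - 1) / 4, 0, 22 * m ^ 2, 5 * m ^ 3⟩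
    else ⟨0, 33 * m, 0, 352 * m ^ 2, 320 * m ^ 3⟩
  | 1 => if m % 4 = 1 then ⟨1, (9 * m - 1) / 4, 0, m ^ 2, 0⟩ else ⟨0, 9 * m, 0, 16 * m ^ 2, 0⟩
  | 2 => if m % 4 = 1 then ⟨1, (-63 * m - 1) / 4, 0, -8 * m ^ 2, -m ^ 3⟩
    else ⟨0, -63 * m, 0, -128 * m ^ 2, -64 * m ^ 3⟩
  | 3 => if m % 4 = 1 then ⟨1, -((15 * m + 1) / 4), 0, -m ^ 2, 0⟩
    else ⟨0, -15 * m, 0, -16 * m ^ 2, 0⟩

/-- the curve over `ℚ` -/
abbrev E (j : Fin 4) (m : ℤ) : WeierstrassCurve ℚ := (W j m).map (Int.castRingHom ℚ)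

/-- the equation is minimal: `Δ ≠ 0` and `|Δ|` is minimal among the integral equations -/
def IsMinimal (V : WeierstrassCurve ℤ) : Prop :=
  V.Δ ≠ 0 ∧ ∀ (V' : WeierstrassCurve ℤ) (C : WeierstrassCurve.VariableChange ℚ),
    C • (V.map (Int.castRingHom ℚ)) = V'.map (Int.castRingHom ℚ) → |V.Δ| ≤ |V'.Δ|

/-- `a_p = p - #{affine points modulo p}` -/
noncomputable def ap (V : WeierstrassCurve ℤ) (p : ℕ) : ℤ :=
  p - (Nat.card {P : ZMod p × ZMod p //
    (V.map (Int.castRingHom (ZMod p))).toAffine.Equation P.1 P.2} : ℕ)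

/-- `Λ` is entire and it is the Hasse-Weil L-function of the minimal equation `V` -/
def IsL (V : WeierstrassCurve ℤ) (Λ : ℂ → ℂ) : Prop :=
  Differentiable ℂ Λ ∧ ∀ s : ℂ, 3 / 2 < s.re →
    HasProd (fun p : Nat.Primes => (1 - (ap V p : ℂ) * ((p : ℕ) : ℂ) ^ (-s) +
      (if ((p : ℕ) : ℤ) ∣ V.Δ then 0 else ((p : ℕ) : ℂ) ^ (1 - 2 * s)))⁻¹) (Λ s)

/-- `4 x³ + b₂ x² + 2 b₄ x + b₆ = (2 y + a₁ x + a₃)²` -/
noncomputable def cubic (V : WeierstrassCurve ℤ) (x : ℝ) : ℝ :=
  4 * x ^ 3 + V.b₂ * x ^ 2 + 2 * V.b₄ * x + V.b₆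

/-- `Ω = ∫_{E(ℝ)} |ω|`, `ω = dx / (2 y + a₁ x + a₃)`; two real points lie over each `x` with
`cubic x > 0` -/
noncomputable def Omega (V : WeierstrassCurve ℤ) : ℝ :=
  ∫ x in {x : ℝ | 0 < cubic V x}, 2 / Real.sqrt (cubic V x)

/-- the reduction of the point `(x, y)` modulo `p` is the singular point -/
def Sing (V : WeierstrassCurve ℤ) (p : ℕ) [Fact p.Prime] (x y : ℚ_[p]) : Prop :=
  ‖x‖ ≤ 1 ∧ ‖y‖ ≤ 1 ∧ ‖V.a₁ * y - (3 * x ^ 2 + 2 * V.a₂ * x + V.a₄)‖ < 1 ∧
    ‖2 * y + V.a₁ * x + V.a₃‖ < 1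

open scoped Classical in
/-- the Tamagawa number `[E(ℚ_p) : E_0(ℚ_p)]`, `E_0(ℚ_p)` the group generated by the points with
nonsingular reduction -/
noncomputable def tam (V : WeierstrassCurve ℤ) (p : ℕ) [Fact p.Prime] : ℕ :=
  (AddSubgroup.closure {P : (V.map (Int.castRingHom ℚ_[p])).toAffine.Point |
    ∀ (x y : ℚ_[p]) (h), P = .some x y h → ¬ Sing V p x y}).index

/-- the product of the Tamagawa numbers over the primes which divide the discriminant -/
noncomputable def Tam (V : WeierstrassCurve ℤ) : ℕ :=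
  ∏ p ∈ V.Δ.natAbs.primeFactors, if h : p.Prime then (haveI := Fact.mk h; tam V p) else 1

/-- the order of the torsion subgroup -/
noncomputable def tors (j : Fin 4) (m : ℤ) : ℕ :=
  Nat.card (AddCommGroup.torsion (E j m).toAffine.Point)

/-- `L^an` for rank `0`: the value `l` at `s = 1` divided by `Ω` -/
noncomputable def Lan (j : Fin 4) (m : ℤ) (l : ℂ) : ℂ := l / (Omega (W j m) : ℝ)

/-- `L^alg = #Ш Tam / #tors²` -/
noncomputable def Lalg (j : Fin 4) (m : ℤ) : ℚ :=
  Nat.card (Sha (E j m)) * Tam (W j m) / (tors j m : ℚ) ^ 2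

/-- the order of `Ш` predicted by the formula for rank `0`: `#tors² L^an / Tam` -/
noncomputable def anSha (j : Fin 4) (m : ℤ) (l : ℂ) : ℂ :=
  Lan j m l * (tors j m : ℂ) ^ 2 / (Tam (W j m) : ℂ)

/-- the order of `Ш[2^∞]` -/
noncomputable def sha2 (j : Fin 4) (m : ℤ) : ℕ :=
  Nat.card {x : Sha (E j m) // ∃ n : ℕ, 2 ^ n • x = 0}

/-- the root number is `1` -/
def Root (m : ℤ) : Prop := (0 < m ∧ jacobiSym m 17 = 1) ∨ (m < 0 ∧ jacobiSym m 17 ≠ 1)

/-! ### the criterion and the exponents -/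

/-- the absolute value of the discriminant of `ℚ(√m)`, `m` squarefree -/
def disc (m : ℤ) : ℕ := if m % 4 = 1 then m.natAbs else 4 * m.natAbs

/-- the primes ramified in `ℚ(√m)` -/
def R (m : ℤ) : Finset ℕ := (disc m).primeFactors

/-- the prime discriminant `q*` of `ℚ(√m)`, `q ∈ R m` -/
def star (m : ℤ) (q : ℕ) : ℤ :=
  if q = 2 then (if m % 4 = 3 then -4 else if m % 8 = 2 then 8 else -8)
  else if q % 4 = 1 then q else -q

/-- the Kronecker symbol `(q* / p)`, `p ≠ q`, written additively -/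
def sym (m : ℤ) (q p : ℕ) : ZMod 2 :=
  if p = 2 then (if star m q % 8 = 1 ∨ star m q % 8 = 7 then 0 else 1)
  else (if jacobiSym (star m q) p = 1 then 0 else 1)

/-- the Rédei matrix: `(q* / p)` outside of the diagonal, and the sums of the rows are zero -/
def L (m : ℤ) (p q : ℕ) : ZMod 2 := if p = q then ∑ r ∈ (R m).erase p, sym m r p else sym m q p

/-- the sign of `q*`, written additively -/
def sg (m : ℤ) (q : ℕ) : ZMod 2 := if star m q < 0 then 1 else 0

/-- the Kronecker symbol `(17 / p)`, written additively -/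
def nu (p : ℕ) : ZMod 2 := if p = 2 then 0 else if jacobiSym 17 p = 1 then 0 else 1

/-- **The criterion**: the homogeneous system over `𝔽₂` with the symmetric matrix
`[[diag (17/p), L], [Lᵀ, diag (sign of q*)]]`, without the row and the column of the first block which
belong to `17`, has only the trivial solution. -/
def Good (m : ℤ) : Prop := ∀ x y : ℕ → ZMod 2, x 17 = 0 →
  (∀ p ∈ (R m).erase 17, nu p * x p + ∑ q ∈ R m, L m p q * y q = 0) →
  (∀ q ∈ R m, ∑ p ∈ R m, L m p q * x p + sg m q * y q = 0) →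
  ∀ p ∈ R m, x p = 0 ∧ y p = 0

/-- the number of the negative prime discriminants -/
def neg (m : ℤ) : ℕ := ((R m).filter fun q => sg m q = 1).card

/-- the number of the ramified primes `p ≠ 17` with `(17/p) = -1` -/
def non (m : ℤ) : ℕ := (((R m).erase 17).filter fun p => nu p = 1).card

/-- `((m/17) / 17)`, written additively -/
def r17 (m : ℤ) : ℕ := if jacobiSym (m / 17) 17 = 1 then 0 else 1

/-- the exponents: `#Ш[2^∞] = 2 ^ (ex j m - 2)` if `Good m` -/
def ex (j : Fin 4) (m : ℤ) : ℕ := match j with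
  | 0 => if 0 < m then neg m else neg m + 1
  | 1 => if 0 < m then non m else if (17 : ℤ) ∣ m then non m + r17 m else non m + 1
  | 2 => if 0 < m then non m + 2 else if (17 : ℤ) ∣ m then non m + r17 m else non m + 1
  | 3 => 2

/-- the exponents in the products of the Tamagawa numbers -/
def tx (j : Fin 4) (m : ℤ) : ℕ := match j with
  | 0 => neg m
  | 1 => non m + if (17 : ℤ) ∣ m then r17 m else 0
  | 2 => non m + if (17 : ℤ) ∣ m then r17 m else 0
  | 3 => 0

/-- the factor which belongs to `17` in the products of the Tamagawa numbers -/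
def t17 (j : Fin 4) (m : ℤ) : ℕ := match j with
  | 0 => if (17 : ℤ) ∣ m then 1 else if jacobiSym m 17 = 1 then 4 else 2
  | 1 => 1
  | 2 => 1
  | 3 => if (17 : ℤ) ∣ m then 1 else 2

/-! ### the 2-part of the conjecture -/

/-- the points of `W 3 m` are finite in number and the `2`-primary part of its `Ш` is zero -/
def FinSha (m : ℤ) : Prop :=
  Finite (E 3 m).toAffine.Point ∧ ∀ (n : ℕ) (x : Sha (E 3 m)), 2 ^ n • x = 0 → x = 0

/-- the `2`-part of the conjecture with `L(1) ≠ 0`: `E(ℚ)` is finite, `Ш[2^∞]` is killed by `2` and has the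
order `2 ^ (ex j m - 2)`, `L(1) ≠ 0`, the predicted order of `Ш` is `#Ш[2^∞]` times the square of an odd
number, and `n L^an = k L^alg` for odd numbers `k`, `n` if `Ш` is finite -/
def TwoPart (j : Fin 4) (m : ℤ) : Prop :=
  Finite (E j m).toAffine.Point ∧ (∀ (n : ℕ) (x : Sha (E j m)), 2 ^ n • x = 0 → 2 • x = 0) ∧
    2 ≤ ex j m ∧ sha2 j m = 2 ^ (ex j m - 2) ∧
    ∃ Λ : ℂ → ℂ, IsL (W j m) Λ ∧ Λ 1 ≠ 0 ∧
      (∃ y : ℕ, Odd y ∧ anSha j m (Λ 1) = sha2 j m * (y : ℂ) ^ 2) ∧
      (Finite (Sha (E j m)) → ∃ k n : ℕ, Odd k ∧ Odd n ∧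
        n * Lan j m (Λ 1) = k * ((Lalg j m : ℚ) : ℂ))

/-- the four torsion subgroups are small for all the other squarefree `m` -/
def Exc (m : ℤ) : Prop := m = 1 ∨ m = -1 ∨ m = 17 ∨ m = -17

/-! ### the densities -/

open Classical in
/-- the number of the squarefree integers `m`, `|m| ≤ X`, with the property `P` -/
noncomputable def num (P : ℤ → Prop) (X : ℕ) : ℕ :=
  ((Finset.Icc (-(X : ℤ)) X).filter fun m => Squarefree m ∧ P m).card

/-- `m` and `d₀` have the same class in `ℚ_p^×` modulo squares for `p ∈ S`, and the same sign if `inf` -/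
def SameClass (inf : Prop) (S : Finset ℕ) (d₀ m : ℤ) : Prop :=
  (inf → 0 < m * d₀) ∧ ∀ (p : ℕ) [Fact p.Prime], p ∈ S → IsSquare ((m * d₀ : ℤ) : ℚ_[p])

/-- the 2-part of the conjecture holds for the four curves -/
def All (m : ℤ) : Prop := ∀ j, TwoPart j m

/-- `log₂ #Ш[2^∞]` is `(1/2 + O(δ)) log log |m|` for the three curves `W 0 m`, `W 1 m`, `W 2 m` -/
def Size (δ : ℝ) (m : ℤ) : Prop := ∀ j : Fin 4, j ≠ 3 →
  |Real.logb 2 (sha2 j m) - 1 / 2 * Real.log (Real.log |(m : ℝ)|)| ≤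
    δ * Real.log (Real.log |(m : ℝ)|)

/-- the constant `(1 - 1/2) (1 - 1/8) (1 - 1/32) ⋯ = 0.4194...` -/
noncomputable def c : ℝ := ∏' i : ℕ, (1 - (1 / 2 : ℝ) ^ (2 * i + 1))

section proof

open Pool.Agent.H743 (X17.parts X17.iparts)

abbrev A : ℤ → Prop := Pool.Agent.H743.X17.Sys

lemma Wj (j : Fin 3) (m : ℤ) : W (Fin.castSucc j) m = Pool.Agent.H743.X17.WJ j m := by
  have h3 : ∀ j : Fin 3, j = 0 ∨ j = 1 ∨ j = 2 := by decide
  rcases h3 j with rfl | rfl | rfl
  · show (if m % 4 = 1 then _ else _) = (if m % 4 = 1 then _ else _)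
    rw [show (Pool.Agent.H743.X17.be 0) = 33 from rfl, show (Pool.Agent.H743.X17.ga 0) = 22 from rfl,
      show (Pool.Agent.H743.X17.de 0) = 5 from rfl]
    norm_num
  · show (if m % 4 = 1 then _ else _) = (if m % 4 = 1 then _ else _)
    rw [show (Pool.Agent.H743.X17.be 1) = 9 from rfl, show (Pool.Agent.H743.X17.ga 1) = 1 from rfl,
      show (Pool.Agent.H743.X17.de 1) = 0 from rfl]
    norm_num
  · show (if m % 4 = 1 then _ else _) = (if m % 4 = 1 then _ else _)
    rw [show (Pool.Agent.H743.X17.be 2) = -63 from rfl, show (Pool.Agent.H743.X17.ga 2) = -8 from rfl,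
      show (Pool.Agent.H743.X17.de 2) = -1 from rfl]
    norm_num

lemma r17_eq {m : ℤ} (h : (17 : ℤ) ∣ m) : (Pool.Agent.H743.X17.lam 17 m).val = r17 m := by
  have e : Pool.Agent.H743.X17.up 17 m = m / 17 := by
    unfold Pool.Agent.H743.X17.up
    rw [if_pos (by exact_mod_cast h)]
    rfl
  unfold Pool.Agent.H743.X17.lam r17
  rw [e]
  split_ifs <;> rfl

lemma exj (j : Fin 3) (m : ℤ) : ex (Fin.castSucc j) m = Pool.Agent.H743.X17.eJ j m := by
  have h3 : ∀ j : Fin 3, j = 0 ∨ j = 1 ∨ j = 2 := by decide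
  rcases h3 j with rfl | rfl | rfl
  · rfl
  · show (if 0 < m then non m else if (17 : ℤ) ∣ m then non m + r17 m else non m + 1) =
      (if 0 < m then non m else if (17 : ℤ) ∣ m then
        non m + (Pool.Agent.H743.X17.lam 17 m).val else non m + 1)
    by_cases h : (17 : ℤ) ∣ m
    · rw [r17_eq h]
    · rw [if_neg h, if_neg h]
  · show (if 0 < m then non m + 2 else if (17 : ℤ) ∣ m then non m + r17 m else non m + 1) =
      (if 0 < m then non m + 2 else if (17 : ℤ) ∣ m then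
        non m + (Pool.Agent.H743.X17.lam 17 m).val else non m + 1)
    by_cases h : (17 : ℤ) ∣ m
    · rw [r17_eq h]
    · rw [if_neg h, if_neg h]

lemma fin4 (j : Fin 4) : j = 3 ∨ ∃ i : Fin 3, j = Fin.castSucc i := by
  have : ∀ j : Fin 4, j = 3 ∨ ∃ i : Fin 3, j = Fin.castSucc i := by decide
  exact this j

lemma cast_ne (i : Fin 3) : Fin.castSucc i ≠ 3 := by
  have : ∀ i : Fin 3, Fin.castSucc i ≠ 3 := by decide
  exact this i

/-- the order of a finite group and of its `2`-primary part -/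
lemma card_split (G : Type) [AddCommGroup G] [Finite G] :
    ∃ b : ℕ, Odd b ∧ Nat.card G = b * Nat.card {x : G // ∃ n : ℕ, 2 ^ n • x = 0} := by
  let H : AddSubgroup G :=
    { carrier := {x | ∃ n : ℕ, 2 ^ n • x = 0}
      zero_mem' := ⟨0, smul_zero _⟩
      add_mem' := by
        rintro x y ⟨n, hn⟩ ⟨k, hk⟩
        refine ⟨n + k, ?_⟩
        have e1 : 2 ^ (n + k) • x = 0 := by rw [pow_add, mul_comm, mul_smul, hn, smul_zero]
        have e2 : 2 ^ (n + k) • y = 0 := by rw [pow_add, mul_smul, hk, smul_zero]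
        rw [smul_add, e1, e2, add_zero]
      neg_mem' := by
        rintro x ⟨n, hn⟩
        exact ⟨n, by rw [smul_neg, hn, neg_zero]⟩ }
  refine ⟨Nat.card (G ⧸ H), ?_, ?_⟩
  · apply Pool.Agent.H743.X17.odd_card
    intro q hq
    obtain ⟨x, rfl⟩ := QuotientAddGroup.mk_surjective q
    rw [← QuotientAddGroup.mk_add, QuotientAddGroup.eq_zero_iff] at hq
    obtain ⟨n, hn⟩ := hq
    rw [QuotientAddGroup.eq_zero_iff]
    exact ⟨n + 1, by rw [pow_succ, mul_smul, two_smul]; exact hn⟩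
  · exact AddSubgroup.card_eq_card_quotient_mul_card_addSubgroup H

/-- from the invariants to the formula -/
lemma formula {j : Fin 4} {m : ℤ} {l : ℂ} {y : ℕ} (ht : tors j m ≠ 0) (hT : Tam (W j m) ≠ 0)
    (hy : Odd y) (h : anSha j m l = sha2 j m * (y : ℂ) ^ 2) (hf : Finite (Sha (E j m))) :
    ∃ k n : ℕ, Odd k ∧ Odd n ∧ n * Lan j m l = k * ((Lalg j m : ℚ) : ℂ) := by
  obtain ⟨b, hb, hcard⟩ := card_split (Sha (E j m))
  refine ⟨y ^ 2, b, hy.pow, hb, ?_⟩
  have hc : Nat.card (Sha (E j m)) = b * sha2 j m := hcard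
  have htC : (tors j m : ℂ) ≠ 0 := by exact_mod_cast ht
  have hTC : (Tam (W j m) : ℂ) ≠ 0 := by exact_mod_cast hT
  unfold anSha at h
  rw [div_eq_iff hTC] at h
  unfold Lalg
  rw [hc]
  push_cast
  field_simp
  linear_combination (b : ℂ) * h

lemma tors3 {m : ℤ} (hm : Squarefree m) : tors 3 m = 4 :=
  Pool.Agent.H743.X17.tors_EM Pool.Agent.H743.X17.parts hm

lemma tam3 {m : ℤ} (hm : Squarefree m) :
    Tam (W 3 m) = 4 ^ (R m).card * (if (17 : ℤ) ∣ m then 1 else 2) :=
  Pool.Agent.H743.X17.tamProd_eq Pool.Agent.H743.X17.parts hm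

lemma fs_iff {m : ℤ} (hm : Squarefree m) : FinSha m ↔ Good m :=
  Pool.Agent.H743.X17.finSha_iff Pool.Agent.H743.X17.parts hm

lemma sha2_three {m : ℤ} (h : FinSha m) : sha2 3 m = 1 := by
  unfold sha2
  rw [Nat.card_eq_one_iff_unique]
  refine ⟨⟨?_⟩, ⟨⟨0, 0, smul_zero _⟩⟩⟩
  rintro ⟨x, n, hx⟩ ⟨x', n', hx'⟩
  apply Subtype.ext
  show x = x'
  rw [h.2 n x hx, h.2 n' x' hx']

/-- the value for `W 3 m` -/
lemma an3 {m : ℤ} (hm : Squarefree m) {l : ℂ} {y : ℕ} (hO : (0 : ℝ) < Omega (W 3 m))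
    (hv : l = (((y : ℝ) ^ 2 * (Tam (W 3 m) : ℝ) / 16 * Omega (W 3 m) : ℝ) : ℂ)) :
    anSha 3 m l = (y : ℂ) ^ 2 := by
  have hOC : ((Omega (W 3 m) : ℝ) : ℂ) ≠ 0 := by exact_mod_cast hO.ne'
  have hT0 : (Tam (W 3 m) : ℂ) ≠ 0 := by
    rw [tam3 hm]
    split_ifs <;> simp
  unfold anSha Lan
  rw [hv, tors3 hm]
  push_cast
  field_simp
  norm_num

lemma torsj {i : Fin 3} {m : ℤ} (hm : Squarefree m) (hE : ¬ Exc m) : tors (Fin.castSucc i) m = 2 := by
  unfold tors E
  rw [Wj]
  exact Pool.Agent.H743.X17.QATOR.t_ATOR Pool.Agent.H743.X17.iparts.itors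
    Pool.Agent.H743.X17.QAVR.t_AVR Pool.Agent.H743.X17.QADEL.t_ADEL i m hm hE

lemma tamj {j : Fin 4} {m : ℤ} (hm : Squarefree m) :
    Tam (W j m) * 2 ^ tx j m = 4 ^ (R m).card * t17 j m := by
  rcases fin4 j with rfl | ⟨i, rfl⟩
  · rw [tam3 hm]
    show _ * 2 ^ 0 = _
    rw [pow_zero, mul_one]
    rfl
  · have h := Pool.Agent.H743.X17.QATP.t_ATP Pool.Agent.H743.X17.iparts
      Pool.Agent.H743.X17.QADEL.t_ADEL i m hm
    have e17 : (non m + if (17 : ℤ) ∣ m then (Pool.Agent.H743.X17.lam 17 m).val else 0) =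
        non m + if (17 : ℤ) ∣ m then r17 m else 0 := by
      by_cases h17 : (17 : ℤ) ∣ m
      · rw [if_pos h17, if_pos h17, r17_eq h17]
      · rw [if_neg h17, if_neg h17]
    rw [Wj]
    have h3 : ∀ j : Fin 3, j = 0 ∨ j = 1 ∨ j = 2 := by decide
    rcases h3 i with rfl | rfl | rfl
    · exact h.1 rfl
    · have h1 := h.2 (by decide)
      show _ * 2 ^ (non m + if (17 : ℤ) ∣ m then r17 m else 0) = 4 ^ (R m).card * 1
      rw [← e17, mul_one]
      exact h1
    · have h1 := h.2 (by decide)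
      show _ * 2 ^ (non m + if (17 : ℤ) ∣ m then r17 m else 0) = 4 ^ (R m).card * 1
      rw [← e17, mul_one]
      exact h1

lemma tam_ne {j : Fin 4} {m : ℤ} (hm : Squarefree m) : Tam (W j m) ≠ 0 := by
  intro h
  have h1 := tamj (j := j) hm
  rw [h, zero_mul] at h1
  have h2 : t17 j m ≠ 0 := by
    have h3 : ∀ j : Fin 4, j = 0 ∨ j = 1 ∨ j = 2 ∨ j = 3 := by decide
    rcases h3 j with rfl | rfl | rfl | rfl
    · show (if (17 : ℤ) ∣ m then 1 else if jacobiSym m 17 = 1 then 4 else 2 : ℕ) ≠ 0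
      split_ifs <;> decide
    · exact one_ne_zero
    · exact one_ne_zero
    · show (if (17 : ℤ) ∣ m then 1 else 2 : ℕ) ≠ 0
      split_ifs <;> decide
  exact mul_ne_zero (pow_ne_zero _ (by norm_num)) h2 h1.symm

lemma minj {j : Fin 4} {m : ℤ} (hm : Squarefree m) : IsMinimal (W j m) := by
  rcases fin4 j with rfl | ⟨i, rfl⟩
  · exact Pool.Agent.H743.X17.parts.min m hm
  · rw [Wj]
    exact Pool.Agent.H743.X17.iparts.imin i m hm

/-- the value, `j ≠ 3` -/
lemma anj {i : Fin 3} {m : ℤ} (hm : Squarefree m) (hE : ¬ Exc m) {l : ℂ} {y : ℕ}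
    (hO : (0 : ℝ) < Omega (W (Fin.castSucc i) m))
    (hv : l = (((y : ℝ) ^ 2 * 2 ^ ex (Fin.castSucc i) m * (Tam (W (Fin.castSucc i) m) : ℝ) / 16 *
      Omega (W (Fin.castSucc i) m) : ℝ) : ℂ)) :
    4 * anSha (Fin.castSucc i) m l = 2 ^ ex (Fin.castSucc i) m * (y : ℂ) ^ 2 := by
  have hOC : ((Omega (W (Fin.castSucc i) m) : ℝ) : ℂ) ≠ 0 := by exact_mod_cast hO.ne'
  have hT0 : (Tam (W (Fin.castSucc i) m) : ℂ) ≠ 0 := by exact_mod_cast tam_ne hm
  unfold anSha Lan
  rw [hv, torsj hm hE]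
  push_cast
  field_simp
  ring

lemma main {m : ℤ} (hm : Squarefree m) (hE : ¬ Exc m) : ∃ (Λ : ℂ → ℂ) (y : ℕ),
    (Odd y ↔ Good m) ∧ (¬ Root m → Λ 1 = 0) ∧ (y ≠ 0 → Λ 1 ≠ 0) ∧
      ∀ j, IsL (W j m) Λ ∧ 4 * anSha j m (Λ 1) = 2 ^ ex j m * (y : ℂ) ^ 2 := by
  have h1 : m ≠ 1 := fun h => hE (Or.inl h)
  obtain ⟨hO, f, y, hf, hy, h0, hv⟩ := Pool.Agent.H743.X17.main Pool.Agent.H743.X17.parts hm h1
  have hy' : Odd y ↔ Good m := hy.trans (fs_iff hm)
  have ha3 : anSha 3 m (f 1) = (y : ℂ) ^ 2 := an3 hm hO hv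
  refine ⟨f, y, hy', fun h => ?_, fun h h2 => ?_, fun j => ?_⟩
  · rw [hv, h0 h]
    push_cast
    ring
  · rw [h2] at ha3
    unfold anSha Lan at ha3
    rw [zero_div, zero_mul, zero_div] at ha3
    have h3 : (y : ℂ) = 0 := pow_eq_zero_iff (two_ne_zero) |>.1 ha3.symm
    exact h (by exact_mod_cast h3)
  · rcases fin4 j with rfl | ⟨i, rfl⟩
    · refine ⟨hf, ?_⟩
      rw [ha3]
      show _ = (2 : ℂ) ^ 2 * _
      norm_num
    · have hgi : IsL (W (Fin.castSucc i) m) f := by
        rw [Wj]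
        exact Pool.Agent.H743.X17.QAISL.t_AISL Pool.Agent.H743.X17.iparts.iap
          Pool.Agent.H743.X17.QADEL.t_ADEL i m f hm hf
      have hOi : (0 : ℝ) < Omega (W (Fin.castSucc i) m) := by
        rw [Wj]
        exact Pool.Agent.H743.X17.QAVAL.om_pos Pool.Agent.H743.X17.iparts i hm.ne_zero hO
      refine ⟨hgi, anj hm hE hOi ?_⟩
      rw [hv, exj, Wj]
      by_cases hR : Root m
      · have e := Pool.Agent.H743.X17.QAVAL.cmp Pool.Agent.H743.X17.parts
          Pool.Agent.H743.X17.iparts Pool.Agent.H743.X17.QADEL.t_ADEL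
          Pool.Agent.H743.X17.QATP.t_ATP i hm hR
        refine congrArg (fun z : ℝ => (z : ℂ)) ?_
        have e' : (Pool.Agent.H743.X17.TamProd (Pool.Agent.H743.X17.WM m) : ℝ) *
            Pool.Agent.Y700.Omega (Pool.Agent.H743.X17.WM m) =
          2 ^ Pool.Agent.H743.X17.eJ i m * (Tam (Pool.Agent.H743.X17.WJ i m) : ℝ) *
            Omega (Pool.Agent.H743.X17.WJ i m) := e
        linear_combination ((y : ℝ) ^ 2 / 16) * e'
      · rw [h0 hR]
        norm_num

lemma two_of_good {m : ℤ} (hm : Squarefree m) (hE : ¬ Exc m) (hG : Good m) (j : Fin 4) :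
    TwoPart j m := by
  obtain ⟨Λ, y, hy, -, h1, h2⟩ := main hm hE
  have hyo := hy.2 hG
  have hy0 : y ≠ 0 := by
    rintro rfl
    exact absurd hyo (by decide)
  have hF := (fs_iff hm).2 hG
  obtain ⟨hL, han⟩ := h2 j
  rcases fin4 j with rfl | ⟨i, rfl⟩
  · have hs := sha2_three hF
    have ha : anSha 3 m (Λ 1) = sha2 3 m * (y : ℂ) ^ 2 := by
      rw [hs]
      have e : (2 : ℂ) ^ ex 3 m = 4 := by
        show (2 : ℂ) ^ 2 = 4
        norm_num
      rw [e] at han
      push_cast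
      linear_combination (1 / 4) * han
    refine ⟨hF.1, fun n x hx => by rw [hF.2 n x hx, smul_zero], le_rfl, hs, Λ, hL, h1 hy0,
      ⟨y, hyo, ha⟩, formula (by rw [tors3 hm]; norm_num) (tam_ne hm) hyo ha⟩
  · obtain ⟨k1, k2, k3, k4⟩ := Pool.Agent.H743.X17.QASHA.t_ASHA Pool.Agent.H743.X17.parts
      Pool.Agent.H743.X17.iparts Pool.Agent.H743.X17.QAVR.t_AVR Pool.Agent.H743.X17.QADEL.t_ADEL
      i m hm hE hG
    have hW : E (Fin.castSucc i) m = Pool.Agent.H743.X17.EJ i m := by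
      unfold E
      rw [Wj]
    have hs : sha2 (Fin.castSucc i) m = 2 ^ (ex (Fin.castSucc i) m - 2) := by
      rw [exj, ← k4]
      unfold sha2
      rw [hW]
      refine Nat.card_congr (Equiv.subtypeEquivRight fun x => ?_)
      constructor
      · rintro ⟨n, hn⟩
        exact k2 n x hn
      · intro h
        exact ⟨1, by rw [pow_one]; exact h⟩
    have he : 2 ≤ ex (Fin.castSucc i) m := by
      rw [exj]
      exact k3
    have hpw : (2 : ℂ) ^ ex (Fin.castSucc i) m = 4 * 2 ^ (ex (Fin.castSucc i) m - 2) := by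
      have : ex (Fin.castSucc i) m = 2 + (ex (Fin.castSucc i) m - 2) := by omega
      nth_rw 1 [this]
      rw [pow_add]
      norm_num
    have ha : anSha (Fin.castSucc i) m (Λ 1) = sha2 (Fin.castSucc i) m * (y : ℂ) ^ 2 := by
      rw [hpw] at han
      rw [hs]
      push_cast
      linear_combination (1 / 4) * han
    refine ⟨by rw [hW]; exact k1, by rw [hW]; exact k2, he, hs, Λ, hL, h1 hy0, ⟨y, hyo, ha⟩,
      formula (by rw [torsj hm hE]; norm_num) (tam_ne hm) hyo ha⟩

lemma good_of_two {m : ℤ} (hm : Squarefree m) (hE : ¬ Exc m) {j : Fin 4} (hT : TwoPart j m) :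
    Good m := by
  obtain ⟨Λ, y, hy, -, -, h2⟩ := main hm hE
  obtain ⟨hL, h4⟩ := h2 j
  obtain ⟨-, -, he, hs, Λ', hL', -, ⟨z, hz, h5⟩, -⟩ := hT
  have e : Λ' = Λ := Pool.Agent.H743.X17.L_uniq hL' hL
  rw [e] at h5
  have hpw : (2 : ℂ) ^ ex j m = 4 * 2 ^ (ex j m - 2) := by
    have : ex j m = 2 + (ex j m - 2) := by omega
    nth_rw 1 [this]
    rw [pow_add]
    norm_num
  have hsC : ((sha2 j m : ℕ) : ℂ) = 2 ^ (ex j m - 2) := by rw [hs]; push_cast; rfl
  rw [h5, hsC, hpw] at h4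
  have hne : (4 : ℂ) * 2 ^ (ex j m - 2) ≠ 0 :=
    mul_ne_zero (by norm_num) (pow_ne_zero _ (by norm_num))
  have h6 : (z : ℂ) ^ 2 = (y : ℂ) ^ 2 := by
    apply mul_left_cancel₀ hne
    linear_combination h4
  have h7 : z ^ 2 = y ^ 2 := by exact_mod_cast h6
  have h8 : z = y := Nat.pow_left_injective (n := 2) (by norm_num) h7
  exact hy.1 (h8 ▸ hz)

lemma two_iff {m : ℤ} (hm : Squarefree m) (hE : ¬ Exc m) (j : Fin 4) : TwoPart j m ↔ Good m :=
  ⟨good_of_two hm hE, fun h => two_of_good hm hE h j⟩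

lemma all_iff {m : ℤ} (hm : Squarefree m) (hE : ¬ Exc m) : All m ↔ Good m :=
  ⟨fun h => (two_iff hm hE 3).1 (h 3), fun h j => (two_iff hm hE j).2 h⟩

/-- `W 3 m`, also for the excluded values -/
lemma three {m : ℤ} (hm : Squarefree m) (h1 : m ≠ 1) : (FinSha m ↔ Good m) ∧
    (TwoPart 3 m ↔ Good m) ∧ ∃ (Λ : ℂ → ℂ) (y : ℕ), IsL (W 3 m) Λ ∧
      anSha 3 m (Λ 1) = (y : ℂ) ^ 2 ∧ (Odd y ↔ Good m) := by
  obtain ⟨hO, f, y, hf, hy, h0, hv⟩ := Pool.Agent.H743.X17.main Pool.Agent.H743.X17.parts hm h1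
  have hy' : Odd y ↔ Good m := hy.trans (fs_iff hm)
  have ha3 : anSha 3 m (f 1) = (y : ℂ) ^ 2 := an3 hm hO hv
  refine ⟨fs_iff hm, ⟨fun h => ?_, fun hG => ?_⟩, f, y, hf, ha3, hy'⟩
  · obtain ⟨-, -, he, hs, Λ', hL', -, ⟨z, hz, h5⟩, -⟩ := h
    have e : Λ' = f := Pool.Agent.H743.X17.L_uniq hL' hf
    have hs1 : sha2 3 m = 1 := by
      rw [hs]
      rfl
    rw [e, ha3, hs1] at h5
    have h6 : y ^ 2 = z ^ 2 := by
      have h7 : (y : ℂ) ^ 2 = (z : ℂ) ^ 2 := by rw [h5]; push_cast; ring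
      exact_mod_cast h7
    have h8 : y = z := Nat.pow_left_injective (n := 2) (by norm_num) h6
    exact hy'.1 (h8 ▸ hz)
  · have hF := (fs_iff hm).2 hG
    have hyo := hy'.2 hG
    have hs := sha2_three hF
    have ha : anSha 3 m (f 1) = sha2 3 m * (y : ℂ) ^ 2 := by
      rw [hs, ha3]
      push_cast
      ring
    refine ⟨hF.1, fun n x hx => by rw [hF.2 n x hx, smul_zero], le_rfl, hs, f, hf, ?_,
      ⟨y, hyo, ha⟩, formula (by rw [tors3 hm]; norm_num) (tam_ne hm) hyo ha⟩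
    intro h2
    rw [h2] at ha3
    unfold anSha Lan at ha3
    rw [zero_div, zero_mul, zero_div] at ha3
    have h3 : (y : ℂ) = 0 := pow_eq_zero_iff (two_ne_zero) |>.1 ha3.symm
    have h4 : y = 0 := by exact_mod_cast h3
    rw [h4] at hyo
    exact absurd hyo (by decide)

lemma size_iff {m : ℤ} {δ : ℝ} (hA : All m) : Size δ m ↔ ∀ j : Fin 3,
    |((Pool.Agent.H743.X17.eJ j m : ℝ) - 2) - 1 / 2 * Real.log (Real.log |(m : ℝ)|)| ≤
      δ * Real.log (Real.log |(m : ℝ)|) := by
  have key : ∀ i : Fin 3, Real.logb 2 (sha2 (Fin.castSucc i) m) =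
      (Pool.Agent.H743.X17.eJ i m : ℝ) - 2 := by
    intro i
    obtain ⟨-, -, he, hs, -⟩ := hA (Fin.castSucc i)
    rw [hs, ← exj]
    push_cast
    rw [← Real.rpow_natCast, Real.logb_rpow (by norm_num) (by norm_num), Nat.cast_sub he]
    norm_num
  constructor
  · intro h i
    have h1 := h (Fin.castSucc i) (cast_ne i)
    rwa [key] at h1
  · intro h j hj
    rcases fin4 j with rfl | ⟨i, rfl⟩
    · exact absurd rfl hj
    · rw [key]
      exact h i

end proof

theorem res :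
    -- every quadratic twist, every curve of the isogeny class
    (∀ m : ℤ, Squarefree m → ¬ Exc m → ∃ (Λ : ℂ → ℂ) (y : ℕ),
      (Odd y ↔ Good m) ∧ (¬ Root m → Λ 1 = 0) ∧
      ∀ j, IsMinimal (W j m) ∧ tors j m = (if j = 3 then 4 else 2) ∧
        Tam (W j m) * 2 ^ tx j m = 4 ^ (R m).card * t17 j m ∧
        IsL (W j m) Λ ∧ 4 * anSha j m (Λ 1) = 2 ^ ex j m * (y : ℂ) ^ 2 ∧
        (TwoPart j m ↔ Good m)) ∧
    -- the 2-converse, and the excluded values for `W 3 m`
    (∀ m : ℤ, Squarefree m → m ≠ 1 → (FinSha m ↔ Good m) ∧ (TwoPart 3 m ↔ Good m) ∧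
      ∃ (Λ : ℂ → ℂ) (y : ℕ), IsL (W 3 m) Λ ∧ anSha 3 m (Λ 1) = (y : ℂ) ^ 2 ∧
        (Odd y ↔ Good m)) ∧
    -- the natural density among all the twists, and among those with root number `1`
    Tendsto (fun X : ℕ => (num All X : ℝ) / (num (fun _ => True) X : ℝ)) atTop (𝓝 (c / 2)) ∧
    (∀ X : ℕ, 2 * num Root X = num (fun _ => True) X) ∧
    Tendsto (fun X : ℕ => (num All X : ℝ) / (num Root X : ℝ)) atTop (𝓝 c) ∧
    -- the natural density in every class given by conditions at finitely many places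
    (∀ (inf : Prop) (S : Finset ℕ), (∀ p ∈ S, p.Prime) → ∀ d₀ : ℤ, Squarefree d₀ → Root d₀ →
      Tendsto (fun X : ℕ => (num (fun m => (Root m ∧ SameClass inf S d₀ m) ∧ All m) X : ℝ) /
        (num (fun m => Root m ∧ SameClass inf S d₀ m) X : ℝ)) atTop (𝓝 c)) ∧
    -- the size of the Tate-Shafarevich groups
    (∀ δ : ℝ, 0 < δ → Tendsto (fun X : ℕ => (num (fun m => All m ∧ Size δ m) X : ℝ) /
      (num (fun _ => True) X : ℝ)) atTop (𝓝 (c / 2))) ∧
    0.4194 < c ∧ c < 0.4195 := by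
  have hP : ∀ d : ℤ, Squarefree d → ¬ Pool.Agent.H743.X17.Exc d →
      (All d ↔ Pool.Agent.H743.X17.Sys d) := fun d hd h1 => all_iff hd h1
  have hall : Tendsto (fun X : ℕ => (num All X : ℝ) / (num (fun _ => True) X : ℝ)) atTop
      (𝓝 (c / 2)) := Pool.Agent.H743.X17.dens_allE hP
  refine ⟨fun m hm hE => ?_, fun m hm h1 => three hm h1, hall, Pool.Agent.H743.X17.half,
    Pool.Agent.H743.X17.dens_rootE hP, fun inf S hS d₀ hd h1 =>
      Pool.Agent.H743.X17.dens_locE hP inf S hS hd h1, fun δ hδ => ?_,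
    Pool.Agent.H743.X17.c2_bounds⟩
  · obtain ⟨Λ, y, h1, h2, -, h4⟩ := main hm hE
    refine ⟨Λ, y, h1, h2, fun j => ⟨minj hm, ?_, tamj hm, (h4 j).1, (h4 j).2, two_iff hm hE j⟩⟩
    rcases fin4 j with rfl | ⟨i, rfl⟩
    · rw [if_pos rfl]
      exact tors3 hm
    · rw [if_neg (cast_ne i)]
      exact torsj hm hE
  · have h1 := Pool.Agent.H743.X17.and_normal hall (Pool.Agent.H743.X17.normalJ δ hδ)
    refine Pool.Agent.H743.X17.lim_closeN 0 h1 (fun X => ?_) (fun X => ?_)
      Pool.Agent.H743.X17.top_all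
    · exact Pool.Agent.H743.X17.num_mono (fun d _ h => ⟨h.1, (size_iff h.1).2 h.2⟩) X
    · exact Pool.Agent.H743.X17.num_mono (fun d _ h => ⟨h.1, (size_iff h.1).1 h.2⟩) X

end Pool.Agent.H743.X17.ECX
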