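import Pool.Agent.H743.X17.NormStm
import Pool.Graph.R_seed8.Y405.CQ.MER

/-!
# I17 NORM: normal order of the numbers `na m`, `nn m`

The first part is the proof of Turan of `Pool/Graph/R_pool_sql_team_seeded_620a6dc7/H487/I/H2.lean`
for an arbitrary set `T` of primes.
-/

set_option autoImplicit false

namespace Pool.Agent.H743.X17.QNORM

open Filter Topology

open scoped Classical

variable {T : ℕ → Prop}

/-- the number of the prime factors in `T` -/
noncomputable def mm (T : ℕ → Prop) (D : ℕ) : ℕ := (D.primeFactors.filter (fun p => T p)).card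

/-- the primes in `T` up to `X` -/
noncomputable def nPP (T : ℕ → Prop) (X : ℕ) : Finset ℕ := (Finset.range (X + 1)).filter (fun p => p.Prime ∧ T p)

theorem n_mem {X p : ℕ} (h : p ∈ nPP T X) : p.Prime ∧ p ≤ X := by
  unfold nPP at h
  rw [Finset.mem_filter, Finset.mem_range] at h
  exact ⟨h.2.1, by omega⟩

theorem n_mm {X n : ℕ} (hn : n ∈ Finset.Icc 1 X) :
    (mm T n : ℝ) = ∑ p ∈ nPP T X, if p ∣ n then (1 : ℝ) else 0 := by
  rw [Finset.sum_boole]
  unfold mm nPP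
  rw [Finset.mem_Icc] at hn
  congr 2
  ext p
  simp only [Finset.mem_filter, Nat.mem_primeFactors, Finset.mem_range]
  constructor
  · rintro ⟨⟨h1, h2, h3⟩, h4⟩
    exact ⟨⟨by have := Nat.le_of_dvd (by omega) h2; omega, h1, h4⟩, h2⟩
  · rintro ⟨⟨h1, h2, h3⟩, h4⟩
    exact ⟨⟨h2, h4, by omega⟩, h3⟩

theorem n_card (X d : ℕ) :
    ∑ n ∈ Finset.Icc 1 X, (if d ∣ n then (1 : ℝ) else 0) = ((X / d : ℕ) : ℝ) := by
  rw [Finset.sum_boole]
  have h : Finset.Icc 1 X = Finset.Ioc 0 X := by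
    ext n
    simp only [Finset.mem_Icc, Finset.mem_Ioc]
    omega
  rw [h, Nat.Ioc_filter_dvd_card_eq_div]

theorem n_div_le (X d : ℕ) : ((X / d : ℕ) : ℝ) ≤ (X : ℝ) * (1 / (d : ℝ)) := by
  rw [mul_one_div]
  exact Nat.cast_div_le

theorem n_div_ge (X d : ℕ) : (X : ℝ) * (1 / (d : ℝ)) - 1 ≤ ((X / d : ℕ) : ℝ) := by
  rw [mul_one_div]
  have h := Nat.lt_floor_add_one ((X : ℝ) / d)
  rw [Nat.floor_div_eq_div] at h
  linarith

theorem n_first (X : ℕ) : (X : ℝ) * (∑ p ∈ nPP T X, (1 : ℝ) / p) - X ≤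
    ∑ n ∈ Finset.Icc 1 X, (mm T n : ℝ) := by
  rw [Finset.sum_congr rfl (fun n hn => n_mm hn), Finset.sum_comm]
  have h1 : ∑ p ∈ nPP T X, ((X : ℝ) * (1 / (p : ℝ)) - 1) ≤
      ∑ p ∈ nPP T X, ∑ n ∈ Finset.Icc 1 X, (if p ∣ n then (1 : ℝ) else 0) := by
    refine Finset.sum_le_sum fun p hp => ?_
    rw [n_card]
    exact n_div_ge X p
  refine le_trans ?_ h1
  rw [Finset.sum_sub_distrib, ← Finset.mul_sum]
  have h2 : (nPP T X).card ≤ X := by
    have h3 : nPP T X ⊆ Finset.Icc 1 X := by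
      intro p hp
      have := n_mem hp
      exact Finset.mem_Icc.2 ⟨this.1.one_lt.le, this.2⟩
    calc (nPP T X).card ≤ (Finset.Icc 1 X).card := Finset.card_le_card h3
      _ = X := by simp
  have h3 : ((nPP T X).card : ℝ) ≤ X := by exact_mod_cast h2
  simp only [Finset.sum_const, nsmul_eq_mul, mul_one]
  linarith

theorem n_second (X : ℕ) : ∑ n ∈ Finset.Icc 1 X, (mm T n : ℝ) ^ 2 ≤
    (X : ℝ) * (∑ p ∈ nPP T X, (1 : ℝ) / p) ^ 2 + X * (∑ p ∈ nPP T X, (1 : ℝ) / p) := by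
  have h1 : ∑ n ∈ Finset.Icc 1 X, (mm T n : ℝ) ^ 2 =
      ∑ p ∈ nPP T X, ∑ q ∈ nPP T X, ∑ n ∈ Finset.Icc 1 X,
        (if p ∣ n then (1 : ℝ) else 0) * (if q ∣ n then (1 : ℝ) else 0) := by
    rw [Finset.sum_congr rfl (fun n hn => by rw [n_mm hn, pow_two, Finset.sum_mul_sum])]
    rw [Finset.sum_comm]
    refine Finset.sum_congr rfl fun p _ => ?_
    rw [Finset.sum_comm]
  rw [h1]
  have h2 : ∀ p ∈ nPP T X, ∀ q ∈ nPP T X, ∑ n ∈ Finset.Icc 1 X,
        (if p ∣ n then (1 : ℝ) else 0) * (if q ∣ n then (1 : ℝ) else 0) ≤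
        (X : ℝ) * ((1 / (p : ℝ)) * (1 / (q : ℝ))) + (if p = q then (X : ℝ) * (1 / (p : ℝ)) else 0) := by
    intro p hp q hq
    by_cases hpq : p = q
    · subst hpq
      rw [if_pos rfl]
      have h3 : ∀ n ∈ Finset.Icc 1 X, (if p ∣ n then (1 : ℝ) else 0) * (if p ∣ n then (1 : ℝ) else 0)
          = (if p ∣ n then (1 : ℝ) else 0) := by
        intro n _
        split_ifs <;> simp
      rw [Finset.sum_congr rfl h3, n_card]
      have := n_div_le X p
      have h4 : 0 ≤ (X : ℝ) * ((1 / (p : ℝ)) * (1 / (p : ℝ))) := by positivity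
      linarith
    · rw [if_neg hpq, add_zero]
      have hc : Nat.Coprime p q := (Nat.coprime_primes (n_mem hp).1 (n_mem hq).1).2 hpq
      have h3 : ∀ n ∈ Finset.Icc 1 X, (if p ∣ n then (1 : ℝ) else 0) * (if q ∣ n then (1 : ℝ) else 0)
          = (if p * q ∣ n then (1 : ℝ) else 0) := by
        intro n _
        by_cases h5 : p * q ∣ n
        · have h6 : p ∣ n := (dvd_mul_right p q).trans h5
          have h7 : q ∣ n := (dvd_mul_left q p).trans h5
          simp [h5, h6, h7]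
        · rw [if_neg h5]
          by_cases h6 : p ∣ n
          · by_cases h7 : q ∣ n
            · exact absurd (hc.mul_dvd_of_dvd_of_dvd h6 h7) h5
            · simp [h7]
          · simp [h6]
      rw [Finset.sum_congr rfl h3, n_card]
      have := n_div_le X (p * q)
      have h4 : (1 : ℝ) / ((p * q : ℕ) : ℝ) = (1 / (p : ℝ)) * (1 / (q : ℝ)) := by
        push_cast
        rw [one_div_mul_one_div]
      rw [h4] at this
      exact this
  refine le_trans (Finset.sum_le_sum fun p hp => Finset.sum_le_sum fun q hq => h2 p hp q hq) ?_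
  apply le_of_eq
  simp only [Finset.sum_add_distrib]
  congr 1
  · rw [pow_two, Finset.sum_mul_sum, Finset.mul_sum]
    refine Finset.sum_congr rfl fun p _ => ?_
    rw [Finset.mul_sum]
  · rw [Finset.mul_sum]
    refine Finset.sum_congr rfl fun p hp => ?_
    rw [Finset.sum_ite_eq, if_pos hp]

theorem n_var (X : ℕ) : ∑ n ∈ Finset.Icc 1 X, ((mm T n : ℝ) - ∑ p ∈ nPP T X, (1 : ℝ) / p) ^ 2 ≤
    3 * X * (∑ p ∈ nPP T X, (1 : ℝ) / p) := by
  set P := ∑ p ∈ nPP T X, (1 : ℝ) / p with hP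
  have hP0 : 0 ≤ P := Finset.sum_nonneg fun p _ => by positivity
  have h1 := n_first (T := T) X
  have h2 := n_second (T := T) X
  rw [← hP] at h1 h2
  have h3 : ∑ n ∈ Finset.Icc 1 X, ((mm T n : ℝ) - P) ^ 2 = ∑ n ∈ Finset.Icc 1 X, (mm T n : ℝ) ^ 2 -
      2 * P * ∑ n ∈ Finset.Icc 1 X, (mm T n : ℝ) + X * P ^ 2 := by
    have h4 : ∀ n ∈ Finset.Icc 1 X, ((mm T n : ℝ) - P) ^ 2 =
      (mm T n : ℝ) ^ 2 - 2 * P * (mm T n : ℝ) + P ^ 2 := fun n _ => by ring
    rw [Finset.sum_congr rfl h4, Finset.sum_add_distrib, Finset.sum_sub_distrib, ← Finset.mul_sum]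
    simp
  rw [h3]
  have h5 : 2 * P * ((X : ℝ) * P - X) ≤ 2 * P * ∑ n ∈ Finset.Icc 1 X, (mm T n : ℝ) :=
    mul_le_mul_of_nonneg_left h1 (by positivity)
  nlinarith [h2, h5]

/-- Chebyshev -/
theorem n_cheb (X : ℕ) (t : ℝ) (hT : 0 < t) :
    (((Finset.Icc 1 X).filter fun n => ¬ |(mm T n : ℝ) - ∑ p ∈ nPP T X, (1 : ℝ) / p| ≤ t).card : ℝ) *
      t ^ 2 ≤ 3 * X * (∑ p ∈ nPP T X, (1 : ℝ) / p) := by
  refine le_trans ?_ (n_var (T := T) X)
  set P := ∑ p ∈ nPP T X, (1 : ℝ) / p with hP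
  have h0 : ∑ n ∈ (Finset.Icc 1 X).filter (fun n => ¬ |(mm T n : ℝ) - P| ≤ t), t ^ 2 ≤
      ∑ n ∈ (Finset.Icc 1 X).filter (fun n => ¬ |(mm T n : ℝ) - P| ≤ t), ((mm T n : ℝ) - P) ^ 2 := by
    refine Finset.sum_le_sum fun n hn => ?_
    have h1 := (Finset.mem_filter.1 hn).2
    rw [not_le] at h1
    rw [← sq_abs ((mm T n : ℝ) - P)]
    exact pow_le_pow_left₀ hT.le h1.le 2
  have h2 : ∑ n ∈ (Finset.Icc 1 X).filter (fun n => ¬ |(mm T n : ℝ) - P| ≤ t),
      ((mm T n : ℝ) - P) ^ 2 ≤ ∑ n ∈ Finset.Icc 1 X, ((mm T n : ℝ) - P) ^ 2 :=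
    Finset.sum_le_sum_of_subset_of_nonneg (Finset.filter_subset _ _) fun n _ _ => sq_nonneg _
  rw [Finset.sum_const, nsmul_eq_mul] at h0
  exact h0.trans h2

theorem n_small (X : ℕ) :
    (((Finset.Icc 1 X).filter fun n => n ^ 2 < X).card : ℝ) ≤ Real.sqrt X := by
  have h1 : ((Finset.Icc 1 X).filter fun n => n ^ 2 < X) ⊆ Finset.Icc 1 (Nat.sqrt X) := by
    intro n hn
    rw [Finset.mem_filter, Finset.mem_Icc] at hn
    rw [Finset.mem_Icc]
    exact ⟨hn.1.1, Nat.le_sqrt'.2 hn.2.le⟩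
  have h2 : ((Finset.Icc 1 X).filter fun n => n ^ 2 < X).card ≤ Nat.sqrt X := by
    refine le_trans (Finset.card_le_card h1) ?_
    simp
  calc (((Finset.Icc 1 X).filter fun n => n ^ 2 < X).card : ℝ) ≤ (Nat.sqrt X : ℝ) := by
        exact_mod_cast h2
    _ ≤ Real.sqrt X := Real.nat_sqrt_le_real_sqrt

theorem n_lim : Tendsto (fun X : ℕ => Real.log (Real.log X)) atTop atTop :=
  Real.tendsto_log_atTop.comp (Real.tendsto_log_atTop.comp tendsto_natCast_atTop_atTop)

theorem n_main (H : ∃ C : ℝ, ∀ y : ℕ, 3 ≤ y →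
    |∑ p ∈ (Finset.range (y + 1)).filter (fun p => p.Prime ∧ T p), (1 : ℝ) / p -
      1 / 2 * Real.log (Real.log y)| ≤ C) {δ : ℝ} (hδ : 0 < δ) :
    ∀ᶠ X : ℕ in atTop, (((Finset.Icc 1 X).filter fun D =>
    ¬ |(mm T D : ℝ) - 1 / 2 * Real.log (Real.log D)| ≤ δ * Real.log (Real.log D)).card : ℝ) / X ≤
      12 / δ ^ 2 * (Real.log (Real.log X))⁻¹ + (Real.sqrt X)⁻¹ := by
  obtain ⟨C, hC⟩ := H
  filter_upwards [eventually_ge_atTop 3, n_lim.eventually_ge_atTop 1,
    n_lim.eventually_ge_atTop (2 * C), n_lim.eventually_ge_atTop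
      (2 / δ * (C + 1 + δ * Real.log 2))] with X hX hL1 hLC hLδ
  set L := Real.log (Real.log X) with hLdef
  have hc := hC X hX
  rw [← hLdef] at hc
  change |∑ p ∈ nPP T X, (1 : ℝ) / p - 1 / 2 * L| ≤ C at hc
  have hcheb := n_cheb (T := T) X (δ / 2 * L) (by positivity)
  set P := ∑ p ∈ nPP T X, (1 : ℝ) / p with hPdef
  have hX0 : (0 : ℝ) < X := by
    have : 0 < X := by omega
    exact_mod_cast this
  have hC0 : 0 ≤ C := le_trans (abs_nonneg _) hc
  have hPL : P ≤ L := by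
    have := (abs_le.1 hc).2
    linarith
  have hδL : C + 1 + δ * Real.log 2 ≤ δ / 2 * L := by
    have h1 : δ / 2 * (2 / δ * (C + 1 + δ * Real.log 2)) ≤ δ / 2 * L :=
      mul_le_mul_of_nonneg_left hLδ (by positivity)
    have h2 : δ / 2 * (2 / δ * (C + 1 + δ * Real.log 2)) = C + 1 + δ * Real.log 2 := by
      field_simp
    linarith
  have hlogX : 0 < Real.log X := Real.log_pos (by
    have : (1 : ℝ) < 3 := by norm_num
    have h3 : (3 : ℝ) ≤ X := by exact_mod_cast hX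
    linarith)
  -- the inclusion
  have hsub : ((Finset.Icc 1 X).filter fun D =>
      ¬ |(mm T D : ℝ) - 1 / 2 * Real.log (Real.log D)| ≤ δ * Real.log (Real.log D)) ⊆
      ((Finset.Icc 1 X).filter fun n => ¬ |(mm T n : ℝ) - P| ≤ δ / 2 * L) ∪
        ((Finset.Icc 1 X).filter fun n => n ^ 2 < X) := by
    intro n hn
    rw [Finset.mem_filter] at hn
    rw [Finset.mem_union, Finset.mem_filter, Finset.mem_filter]
    by_contra hcon
    push Not at hcon
    have h1 := hcon.1 hn.1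
    have h2 := hcon.2 hn.1
    apply hn.2
    have hnX := Finset.mem_Icc.1 hn.1
    have hn0 : (0 : ℝ) < n := by
      have : 0 < n := by omega
      exact_mod_cast this
    have h3 : (X : ℝ) ≤ (n : ℝ) ^ 2 := by exact_mod_cast h2
    have h4 : Real.log X ≤ 2 * Real.log n := by
      have := Real.log_le_log hX0 h3
      rw [Real.log_pow] at this
      exact_mod_cast this
    have hlogn : 0 < Real.log n := by linarith
    have h5 : L ≤ Real.log 2 + Real.log (Real.log n) := by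
      rw [hLdef, ← Real.log_mul (by norm_num) hlogn.ne']
      exact Real.log_le_log hlogX h4
    have h6 : Real.log (Real.log n) ≤ L := by
      rw [hLdef]
      refine Real.log_le_log hlogn (Real.log_le_log hn0 ?_)
      exact_mod_cast hnX.2
    have hlog2 : Real.log 2 < 1 := by
      have := Real.log_two_lt_d9
      linarith
    have hlog20 : 0 < Real.log 2 := Real.log_pos (by norm_num)
    set l := Real.log (Real.log n) with hl
    have h7 := abs_le.1 h1
    have h8 := abs_le.1 hc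
    have h9 : δ * L ≤ δ * (Real.log 2 + l) := mul_le_mul_of_nonneg_left h5 hδ.le
    rw [abs_le]
    constructor
    · nlinarith [h7.1, h8.1]
    · nlinarith [h7.2, h8.2]
  have hcard := Finset.card_le_card hsub
  have hcard2 := le_trans hcard (Finset.card_union_le _ _)
  have hcard3 : (((Finset.Icc 1 X).filter fun D =>
      ¬ |(mm T D : ℝ) - 1 / 2 * Real.log (Real.log D)| ≤ δ * Real.log (Real.log D)).card : ℝ) ≤
      (((Finset.Icc 1 X).filter fun n => ¬ |(mm T n : ℝ) - P| ≤ δ / 2 * L).card : ℝ) +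
        (((Finset.Icc 1 X).filter fun n => n ^ 2 < X).card : ℝ) := by
    exact_mod_cast hcard2
  have hsm := n_small X
  have hA : (((Finset.Icc 1 X).filter fun n => ¬ |(mm T n : ℝ) - P| ≤ δ / 2 * L).card : ℝ) ≤
      12 / δ ^ 2 * L⁻¹ * X := by
    have hT2 : 0 < (δ / 2 * L) ^ 2 := by positivity
    have h1 : (((Finset.Icc 1 X).filter fun n => ¬ |(mm T n : ℝ) - P| ≤ δ / 2 * L).card : ℝ) *
        (δ / 2 * L) ^ 2 ≤ 3 * X * L :=
      le_trans hcheb (mul_le_mul_of_nonneg_left hPL (by positivity))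
    rw [← le_div_iff₀ hT2] at h1
    refine le_trans h1 (le_of_eq ?_)
    have hL0 : L ≠ 0 := by positivity
    field_simp
    ring
  have hsq : Real.sqrt X = (Real.sqrt X)⁻¹ * X := by
    have h1 : 0 < Real.sqrt X := Real.sqrt_pos.2 hX0
    rw [inv_mul_eq_div, Real.div_sqrt]
  rw [div_le_iff₀ hX0, add_mul, ← hsq]
  linarith

theorem n_final (H : ∃ C : ℝ, ∀ y : ℕ, 3 ≤ y →
    |∑ p ∈ (Finset.range (y + 1)).filter (fun p => p.Prime ∧ T p), (1 : ℝ) / p -
      1 / 2 * Real.log (Real.log y)| ≤ C) {δ : ℝ} (hδ : 0 < δ) :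
    Tendsto (fun X : ℕ => (((Finset.Icc 1 X).filter fun D =>
    ¬ |(mm T D : ℝ) - 1 / 2 * Real.log (Real.log D)| ≤ δ * Real.log (Real.log D)).card : ℝ) / X)
      atTop (𝓝 0) := by
  have h1 : Tendsto (fun X : ℕ => 12 / δ ^ 2 * (Real.log (Real.log X))⁻¹ + (Real.sqrt X)⁻¹) atTop
      (𝓝 0) := by
    have h2 : Tendsto (fun X : ℕ => 12 / δ ^ 2 * (Real.log (Real.log X))⁻¹) atTop
        (𝓝 (12 / δ ^ 2 * 0)) := (tendsto_inv_atTop_zero.comp n_lim).const_mul _
    have h3 : Tendsto (fun X : ℕ => (Real.sqrt X)⁻¹) atTop (𝓝 0) :=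
      tendsto_inv_atTop_zero.comp (Real.tendsto_sqrt_atTop.comp tendsto_natCast_atTop_atTop)
    have h4 := h2.add h3
    simpa using h4
  refine tendsto_of_tendsto_of_tendsto_of_le_of_le' tendsto_const_nhds h1 ?_ (n_main H hδ)
  exact Eventually.of_forall fun X => by positivity



/-! ### Mertens' theorem for the two sets of primes -/

/-- the primes `3` modulo `4` -/
def T3 (p : ℕ) : Prop := p % 4 = 3

/-- the primes which are nonresidues modulo `17` -/
def T17 (p : ℕ) : Prop := p % 17 ∈ ({3, 5, 6, 7, 10, 11, 12, 14} : Finset ℕ)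

theorem range_eq (y : ℕ) (P : ℕ → Prop) :
    (Finset.range (y + 1)).filter (fun p => p.Prime ∧ P p) =
      (Finset.Icc 1 y).filter (fun p => p.Prime ∧ P p) := by
  ext p
  rw [Finset.mem_filter, Finset.mem_filter, Finset.mem_range, Finset.mem_Icc]
  constructor
  · rintro ⟨g1, g2, g3⟩
    exact ⟨⟨g2.one_lt.le, by omega⟩, g2, g3⟩
  · rintro ⟨⟨g0, g1⟩, g2, g3⟩
    exact ⟨by omega, g2, g3⟩

theorem mert3 : ∃ C : ℝ, ∀ y : ℕ, 3 ≤ y →
    |∑ p ∈ (Finset.range (y + 1)).filter (fun p => p.Prime ∧ T3 p), (1 : ℝ) / p -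
      1 / 2 * Real.log (Real.log y)| ≤ C := by
  obtain ⟨C, -, hC⟩ := Pool.Agent.Y405.CQ.mertens_ap 4 (by norm_num) 3 (by norm_num) (by norm_num)
  refine ⟨C, fun y hy => ?_⟩
  have h1 := hC y hy
  have h2 : Nat.totient 4 = 2 := by decide
  rw [h2] at h1
  have h3 : (Finset.range (y + 1)).filter (fun p => p.Prime ∧ T3 p) =
      (Finset.Icc 1 y).filter (fun p => p.Prime ∧ p % 4 = 3) := by
    rw [range_eq]
    ext p
    rw [Finset.mem_filter, Finset.mem_filter]
    rfl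
  rw [h3]
  exact_mod_cast h1

theorem mert17 : ∃ C : ℝ, ∀ y : ℕ, 3 ≤ y →
    |∑ p ∈ (Finset.range (y + 1)).filter (fun p => p.Prime ∧ T17 p), (1 : ℝ) / p -
      1 / 2 * Real.log (Real.log y)| ≤ C := by
  have h0 : ∀ a ∈ ({3, 5, 6, 7, 10, 11, 12, 14} : Finset ℕ), ∃ C : ℝ, ∀ x : ℕ, 3 ≤ x →
      |∑ p ∈ (Finset.Icc 1 x).filter (fun p => p.Prime ∧ p % 17 = a), (1 : ℝ) / p -
        1 / 16 * Real.log (Real.log x)| ≤ C := by
    intro a ha
    have h1 : a < 17 ∧ a.Coprime 17 := by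
      revert a
      decide
    obtain ⟨C, -, hC⟩ := Pool.Agent.Y405.CQ.mertens_ap 17 (by norm_num) a h1.1 h1.2
    refine ⟨C, fun y hy => ?_⟩
    have h2 := hC y hy
    have h3 : Nat.totient 17 = 16 := by decide
    rw [h3] at h2
    exact_mod_cast h2
  choose! C hC using h0
  refine ⟨∑ a ∈ ({3, 5, 6, 7, 10, 11, 12, 14} : Finset ℕ), C a, fun y hy => ?_⟩
  have h1 : ∑ p ∈ (Finset.range (y + 1)).filter (fun p => p.Prime ∧ T17 p), (1 : ℝ) / p =
      ∑ a ∈ ({3, 5, 6, 7, 10, 11, 12, 14} : Finset ℕ),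
        ∑ p ∈ (Finset.Icc 1 y).filter (fun p => p.Prime ∧ p % 17 = a), (1 : ℝ) / p := by
    rw [range_eq]
    have h2 : ∀ p ∈ (Finset.Icc 1 y).filter (fun p => p.Prime ∧ T17 p),
        p % 17 ∈ ({3, 5, 6, 7, 10, 11, 12, 14} : Finset ℕ) := fun p hp =>
      (Finset.mem_filter.1 hp).2.2
    rw [← Finset.sum_fiberwise_of_maps_to h2]
    refine Finset.sum_congr rfl fun a ha => Finset.sum_congr ?_ fun _ _ => rfl
    ext p
    simp only [Finset.mem_filter]
    constructor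
    · rintro ⟨⟨h3, h4, h5⟩, h6⟩
      exact ⟨h3, h4, h6⟩
    · rintro ⟨h3, h4, h5⟩
      refine ⟨⟨h3, h4, ?_⟩, h5⟩
      unfold T17
      rw [h5]
      exact ha
  have h2 : (1 : ℝ) / 2 * Real.log (Real.log y) =
      ∑ a ∈ ({3, 5, 6, 7, 10, 11, 12, 14} : Finset ℕ), 1 / 16 * Real.log (Real.log y) := by
    rw [Finset.sum_const]
    have : ({3, 5, 6, 7, 10, 11, 12, 14} : Finset ℕ).card = 8 := by decide
    rw [this, nsmul_eq_mul]
    push_cast
    ring
  rw [h1, h2, ← Finset.sum_sub_distrib]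
  exact (Finset.abs_sum_le_sum_abs _ _).trans (Finset.sum_le_sum fun a ha => hC a ha y hy)

/-! ### the transfer to the squarefree integers -/

open Pool.Agent.H743.X17

theorem card_sym (P : ℤ → Prop) (X : ℕ) (S : Finset ℕ)
    (h : ∀ m : ℤ, m ∈ Finset.Icc (-(X : ℤ)) X → Squarefree m → P m → m.natAbs ∈ S) :
    num P X ≤ 2 * S.card := by
  unfold num
  have h1 : ((Finset.Icc (-(X : ℤ)) X).filter fun m => Squarefree m ∧ P m) ⊆
      S.image (fun n : ℕ => (n : ℤ)) ∪ S.image (fun n : ℕ => -(n : ℤ)) := by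
    intro m hm
    obtain ⟨h2, h3, h4⟩ := Finset.mem_filter.1 hm
    have h5 := h m h2 h3 h4
    rw [Finset.mem_union, Finset.mem_image, Finset.mem_image]
    rcases Int.natAbs_eq m with h6 | h6
    · exact Or.inl ⟨m.natAbs, h5, h6.symm⟩
    · exact Or.inr ⟨m.natAbs, h5, h6.symm⟩
  refine (Finset.card_le_card h1).trans ((Finset.card_union_le _ _).trans ?_)
  have h2 := Finset.card_image_le (s := S) (f := fun n : ℕ => (n : ℤ))
  have h3 := Finset.card_image_le (s := S) (f := fun n : ℕ => -(n : ℤ))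
  omega

theorem transfer (H : ∃ C : ℝ, ∀ y : ℕ, 3 ≤ y →
    |∑ p ∈ (Finset.range (y + 1)).filter (fun p => p.Prime ∧ T p), (1 : ℝ) / p -
      1 / 2 * Real.log (Real.log y)| ≤ C) (f : ℤ → ℕ)
    (hf : ∀ m : ℤ, m ≠ 0 → |(f m : ℝ) - (mm T m.natAbs : ℝ)| ≤ 1) {δ : ℝ} (hδ : 0 < δ) :
    Tendsto (fun X : ℕ => (num (fun m => ¬ |(f m : ℝ) - 1 / 2 * Real.log (Real.log |(m : ℝ)|)| ≤
      δ * Real.log (Real.log |(m : ℝ)|)) X : ℝ) / X) atTop (𝓝 0) := by
  have hδ2 : 0 < δ / 2 := by linarith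
  have hlim := n_final (T := T) H hδ2
  obtain ⟨N0, hN0⟩ := eventually_atTop.1 (n_lim.eventually_ge_atTop (2 / δ))
  have hbd : ∀ X : ℕ, (num (fun m => ¬ |(f m : ℝ) - 1 / 2 * Real.log (Real.log |(m : ℝ)|)| ≤
      δ * Real.log (Real.log |(m : ℝ)|)) X : ℝ) / X ≤
      2 * ((((Finset.Icc 1 X).filter fun D =>
        ¬ |(mm T D : ℝ) - 1 / 2 * Real.log (Real.log D)| ≤ δ / 2 * Real.log (Real.log D)).card : ℝ) /
          X) + 2 * (N0 : ℝ) * (X : ℝ)⁻¹ := by
    intro X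
    set S1 : Finset ℕ := (Finset.Icc 1 X).filter fun D =>
        ¬ |(mm T D : ℝ) - 1 / 2 * Real.log (Real.log D)| ≤ δ / 2 * Real.log (Real.log D) with hS1
    have h1 : num (fun m => ¬ |(f m : ℝ) - 1 / 2 * Real.log (Real.log |(m : ℝ)|)| ≤
        δ * Real.log (Real.log |(m : ℝ)|)) X ≤ 2 * (S1 ∪ Finset.range N0).card := by
      refine card_sym _ X _ fun m hm hsq hP => ?_
      rw [Finset.mem_union, Finset.mem_range]
      by_contra hcon
      push Not at hcon
      obtain ⟨hc1, hc2⟩ := hcon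
      apply hP
      have hm0 : m ≠ 0 := hsq.ne_zero
      have hn0 : 1 ≤ m.natAbs := Int.natAbs_pos.2 hm0
      have hnX : m.natAbs ≤ X := by
        rw [Finset.mem_Icc] at hm
        omega
      have hc3 : |(mm T m.natAbs : ℝ) - 1 / 2 * Real.log (Real.log (m.natAbs : ℕ))| ≤
          δ / 2 * Real.log (Real.log (m.natAbs : ℕ)) := by
        by_contra hcc
        exact hc1 (Finset.mem_filter.2 ⟨Finset.mem_Icc.2 ⟨hn0, hnX⟩, hcc⟩)
      have habs : ((m.natAbs : ℕ) : ℝ) = |(m : ℝ)| := by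
        rw [Nat.cast_natAbs, Int.cast_abs]
      have hl := hN0 m.natAbs hc2
      rw [habs] at hl hc3
      set l := Real.log (Real.log |(m : ℝ)|) with hldef
      have hl2 : 1 ≤ δ / 2 * l := by
        have h2 : δ / 2 * (2 / δ) ≤ δ / 2 * l := mul_le_mul_of_nonneg_left hl hδ2.le
        have h3 : δ / 2 * (2 / δ) = 1 := by field_simp
        linarith
      have h4 := abs_le.1 (hf m hm0)
      have h5 := abs_le.1 hc3
      rw [abs_le]
      constructor <;> linarith [h4.1, h4.2, h5.1, h5.2]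
    have h2 : (S1 ∪ Finset.range N0).card ≤ S1.card + N0 := by
      refine (Finset.card_union_le _ _).trans ?_
      rw [Finset.card_range]
    have h3 : (num (fun m => ¬ |(f m : ℝ) - 1 / 2 * Real.log (Real.log |(m : ℝ)|)| ≤
        δ * Real.log (Real.log |(m : ℝ)|)) X : ℝ) ≤ 2 * (S1.card : ℝ) + 2 * (N0 : ℝ) := by
      have h4 : num (fun m => ¬ |(f m : ℝ) - 1 / 2 * Real.log (Real.log |(m : ℝ)|)| ≤
        δ * Real.log (Real.log |(m : ℝ)|)) X ≤ 2 * S1.card + 2 * N0 := by omega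
      exact_mod_cast h4
    have hX0 : (0 : ℝ) ≤ (X : ℝ)⁻¹ := by positivity
    have h5 := mul_le_mul_of_nonneg_right h3 hX0
    rw [div_eq_mul_inv]
    refine h5.trans (le_of_eq ?_)
    ring
  have h2 : Tendsto (fun X : ℕ => 2 * ((((Finset.Icc 1 X).filter fun D =>
        ¬ |(mm T D : ℝ) - 1 / 2 * Real.log (Real.log D)| ≤ δ / 2 * Real.log (Real.log D)).card : ℝ) /
          X) + 2 * (N0 : ℝ) * (X : ℝ)⁻¹) atTop (𝓝 (2 * 0 + 2 * (N0 : ℝ) * 0)) :=
    (hlim.const_mul 2).add ((tendsto_inv_atTop_zero.comp tendsto_natCast_atTop_atTop).const_mul _)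
  rw [mul_zero, mul_zero, add_zero] at h2
  exact squeeze_zero (fun X => by positivity) hbd h2

/-! ### the numbers `na`, `nn` -/

theorem pf_iff {m : ℤ} (hm : m ≠ 0) {q : ℕ} (hq2 : q ≠ 2) :
    q ∈ RS m ↔ q ∈ m.natAbs.primeFactors := by
  have hn : m.natAbs ≠ 0 := Int.natAbs_ne_zero.2 hm
  unfold RS Kn
  split_ifs with h
  · rfl
  · rw [Nat.mem_primeFactors, Nat.mem_primeFactors]
    constructor
    · rintro ⟨h1, h2, h3⟩
      refine ⟨h1, ?_, hn⟩
      rcases (Nat.Prime.dvd_mul h1).1 h2 with h4 | h4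
      · exfalso
        have h5 : q ∣ 2 ^ 2 := by simpa using h4
        exact hq2 ((Nat.prime_dvd_prime_iff_eq h1 Nat.prime_two).1 (h1.dvd_of_dvd_pow h5))
      · exact h4
    · rintro ⟨h1, h2, h3⟩
      exact ⟨h1, h2.mul_left 4, by omega⟩

theorem na_close (m : ℤ) (hm : m ≠ 0) : |(na m : ℝ) - (mm T3 m.natAbs : ℝ)| ≤ 1 := by
  have h0 : ∀ q : ℕ, q.Prime → q ≠ 2 → (al m q = 1 ↔ T3 q) := by
    intro q hq hq2
    have hodd : q % 2 = 1 := hq.eq_two_or_odd.resolve_left hq2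
    have hpos := hq.pos
    unfold al pd T3
    rw [if_neg hq2]
    by_cases h4 : q % 4 = 1
    · rw [if_pos h4, if_neg (by omega)]
      constructor
      · intro h; exact absurd h (by decide)
      · intro h; omega
    · rw [if_neg h4, if_pos (by omega)]
      constructor
      · intro _; omega
      · intro _; rfl
  have h1 : m.natAbs.primeFactors.filter (fun p => T3 p) ⊆
      (RS m).filter fun q => al m q = 1 := by
    intro q hq
    obtain ⟨h2, h3⟩ := Finset.mem_filter.1 hq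
    have hp := Nat.prime_of_mem_primeFactors h2
    have hq2 : q ≠ 2 := by
      rintro rfl
      unfold T3 at h3
      omega
    exact Finset.mem_filter.2 ⟨(pf_iff hm hq2).2 h2, (h0 q hp hq2).2 h3⟩
  have h2 : ((RS m).filter fun q => al m q = 1) ⊆
      insert 2 (m.natAbs.primeFactors.filter (fun p => T3 p)) := by
    intro q hq
    obtain ⟨h2, h3⟩ := Finset.mem_filter.1 hq
    rw [Finset.mem_insert]
    by_cases hq2 : q = 2
    · exact Or.inl hq2
    · right
      have h4 := (pf_iff hm hq2).1 h2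
      exact Finset.mem_filter.2 ⟨h4, (h0 q (Nat.prime_of_mem_primeFactors h4) hq2).1 h3⟩
  have h3 := Finset.card_le_card h1
  have h4 := (Finset.card_le_card h2).trans (Finset.card_insert_le _ _)
  have h5 : mm T3 m.natAbs ≤ na m := h3
  have h6 : na m ≤ mm T3 m.natAbs + 1 := h4
  have h7 : (mm T3 m.natAbs : ℝ) ≤ na m := by exact_mod_cast h5
  have h8 : (na m : ℝ) ≤ mm T3 m.natAbs + 1 := by exact_mod_cast h6
  rw [abs_le]
  constructor <;> linarith

theorem nu_iff {q : ℕ} (hq : q.Prime) : (q ≠ 17 ∧ nu q = 1) ↔ T17 q := by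
  by_cases hq2 : q = 2
  · subst hq2
    unfold nu T17
    decide
  by_cases hq17 : q = 17
  · subst hq17
    unfold T17
    constructor
    · rintro ⟨h, -⟩; exact absurd rfl h
    · intro h; exact absurd h (by decide)
  have hodd : q % 2 = 1 := hq.eq_two_or_odd.resolve_left hq2
  have hrec : jacobiSym 17 q = jacobiSym q 17 := by
    have := jacobiSym.quadratic_reciprocity_one_mod_four (a := 17) (b := q) (by norm_num)
      (Nat.odd_iff.2 hodd)
    exact_mod_cast this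
  have hmod : jacobiSym (q : ℤ) 17 = jacobiSym ((q % 17 : ℕ) : ℤ) 17 := by
    rw [jacobiSym.mod_left]
    push_cast
    rfl
  have hnz : q % 17 ≠ 0 := by
    intro h
    exact hq17 ((Nat.prime_dvd_prime_iff_eq (by norm_num) hq).1 (Nat.dvd_of_mod_eq_zero h)).symm
  have hlt : q % 17 < 17 := Nat.mod_lt _ (by norm_num)
  unfold nu T17
  rw [if_neg hq2, hrec, hmod]
  generalize q % 17 = r at hnz hlt
  have key : ∀ r : ℕ, r < 17 → r ≠ 0 →
      (jacobiSym (r : ℤ) 17 = 1 ↔ r ∉ ({3, 5, 6, 7, 10, 11, 12, 14} : Finset ℕ)) := by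
    intro r hr h0
    interval_cases r <;> first | exact absurd rfl h0 | norm_num
  have h1 := key r hlt hnz
  by_cases h2 : jacobiSym (r : ℤ) 17 = 1
  · rw [if_pos h2]
    constructor
    · rintro ⟨-, h⟩; exact absurd h (by decide)
    · intro h; exact absurd h (h1.1 h2)
  · rw [if_neg h2]
    constructor
    · intro _
      by_contra h
      exact h2 (h1.2 h)
    · intro _; exact ⟨hq17, rfl⟩

theorem nn_eq (m : ℤ) (hm : m ≠ 0) : nn m = mm T17 m.natAbs := by
  unfold nn mm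
  congr 1
  ext q
  rw [Finset.mem_filter, Finset.mem_filter, Finset.mem_erase]
  constructor
  · rintro ⟨⟨h1, h2⟩, h3⟩
    have hq2 : q ≠ 2 := by
      rintro rfl
      unfold nu at h3
      rw [if_pos rfl] at h3
      exact absurd h3 (by decide)
    have h4 := (pf_iff hm hq2).1 h2
    exact ⟨h4, (nu_iff (Nat.prime_of_mem_primeFactors h4)).1 ⟨h1, h3⟩⟩
  · rintro ⟨h1, h2⟩
    have hp := Nat.prime_of_mem_primeFactors h1
    have hq2 : q ≠ 2 := by
      rintro rfl
      unfold T17 at h2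
      revert h2
      decide
    obtain ⟨h3, h4⟩ := (nu_iff hp).2 h2
    exact ⟨⟨h3, (pf_iff hm hq2).2 h1⟩, h4⟩

theorem t_NORM : S_NORM := by
  intro δ hδ
  refine ⟨transfer mert3 na na_close hδ, transfer mert17 nn (fun m hm => ?_) hδ⟩
  rw [nn_eq m hm, sub_self, abs_zero]
  norm_num

end Pool.Agent.H743.X17.QNORM
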