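import Pool.Agent.H743.X17.IsoAll
import Pool.Agent.H743.X17.NORM
import Pool.Agent.H743.X17.Fin

/-!
# The curves isogenous to `E_m`: the final lemmas
-/

set_option autoImplicit false

open scoped Classical
open Filter Topology

namespace Pool.Agent.H743.X17

open Pool.Agent.Y700 (tam VR IsL Omega)
open Pool.Agent.TH841.SH.D (Sha)

/-! ### change of finitely many values -/

theorem num_close {P Q : ℤ → Prop} (S : Finset ℤ) (h : ∀ d, Squarefree d → d ∉ S → P d → Q d)
    (X : ℕ) : num P X ≤ num Q X + S.card := by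
  unfold num
  refine (Finset.card_le_card ?_).trans (Finset.card_union_le _ S)
  intro d hd
  obtain ⟨h2, h3, h4⟩ := Finset.mem_filter.1 hd
  rw [Finset.mem_union]
  by_cases e1 : d ∈ S
  · exact Or.inr e1
  · exact Or.inl (Finset.mem_filter.2 ⟨h2, h3, h d h3 e1 h4⟩)

theorem num_mono {P Q : ℤ → Prop} (h : ∀ d, Squarefree d → P d → Q d) (X : ℕ) :
    num P X ≤ num Q X := by
  unfold num
  refine Finset.card_le_card fun d hd => ?_
  obtain ⟨h2, h3, h4⟩ := Finset.mem_filter.1 hd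
  exact Finset.mem_filter.2 ⟨h2, h3, h d h3 h4⟩

theorem num_or {P Q R : ℤ → Prop} (h : ∀ d, Squarefree d → P d → Q d ∨ R d) (X : ℕ) :
    num P X ≤ num Q X + num R X := by
  unfold num
  refine (Finset.card_le_card ?_).trans (Finset.card_union_le _ _)
  intro d hd
  obtain ⟨h2, h3, h4⟩ := Finset.mem_filter.1 hd
  rw [Finset.mem_union]
  rcases h d h3 h4 with h5 | h5
  · exact Or.inl (Finset.mem_filter.2 ⟨h2, h3, h5⟩)
  · exact Or.inr (Finset.mem_filter.2 ⟨h2, h3, h5⟩)

theorem num_small {P : ℤ → Prop} (M : ℕ) (h : ∀ d, P d → -(M : ℤ) ≤ d ∧ d ≤ M) (X : ℕ) :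
    num P X ≤ 2 * M + 1 := by
  unfold num
  refine (Finset.card_le_card (t := Finset.Icc (-(M : ℤ)) M) ?_).trans ?_
  · intro d hd
    obtain ⟨h2, h3, h4⟩ := Finset.mem_filter.1 hd
    exact Finset.mem_Icc.2 (h d h4)
  · rw [Int.card_Icc]
    omega

theorem lim_closeN {A B T : ℕ → ℕ} {c : ℝ} (N : ℕ)
    (hA : Tendsto (fun X => (A X : ℝ) / (T X : ℝ)) atTop (𝓝 c))
    (h1 : ∀ X, A X ≤ B X + N) (h2 : ∀ X, B X ≤ A X + N)
    (hT : Tendsto (fun X => (T X : ℝ)) atTop atTop) :
    Tendsto (fun X => (B X : ℝ) / (T X : ℝ)) atTop (𝓝 c) := by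
  refine tendsto_of_tendsto_of_dist hA ?_
  have h3 : Tendsto (fun X => (N : ℝ) / (T X : ℝ)) atTop (𝓝 0) := tendsto_const_nhds.div_atTop hT
  refine squeeze_zero (fun X => dist_nonneg) (fun X => ?_) h3
  rw [Real.dist_eq, ← sub_div, abs_div, abs_of_nonneg (Nat.cast_nonneg (T X) : (0 : ℝ) ≤ _)]
  refine div_le_div_of_nonneg_right ?_ (Nat.cast_nonneg _)
  have h4 : (A X : ℝ) ≤ B X + N := by exact_mod_cast h1 X
  have h5 : (B X : ℝ) ≤ A X + N := by exact_mod_cast h2 X
  rw [abs_le]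
  constructor <;> linarith

/-- the excluded values -/
def ES : Finset ℤ := {1, -1, 17, -17}

theorem mem_ES {m : ℤ} : m ∈ ES ↔ Exc m := by
  unfold ES Exc
  simp only [Finset.mem_insert, Finset.mem_singleton]

theorem card_ES : ES.card = 4 := by decide

section

variable {P : ℤ → Prop}

/-- `P` with the values of `Sys` at the excluded places -/
def fixE (P : ℤ → Prop) (d : ℤ) : Prop := if d ∈ ES then Sys d else P d

theorem fixE_iff (hP : ∀ d, Squarefree d → ¬ Exc d → (P d ↔ Sys d)) (d : ℤ) (hd : Squarefree d)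
    (_ : d ≠ 1) : fixE P d ↔ Sys d := by
  unfold fixE
  split_ifs with h
  · rfl
  · exact hP d hd fun h' => h (mem_ES.2 h')

theorem fixE_close {Q : ℤ → Prop} (X : ℕ) :
    num (fun d => Q d ∧ fixE P d) X ≤ num (fun d => Q d ∧ P d) X + 4 ∧
      num (fun d => Q d ∧ P d) X ≤ num (fun d => Q d ∧ fixE P d) X + 4 := by
  constructor
  · rw [← card_ES]
    refine num_close ES (fun d _ h => ?_) X
    unfold fixE
    rw [if_neg h]
    exact id
  · rw [← card_ES]
    refine num_close ES (fun d _ h => ?_) X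
    unfold fixE
    rw [if_neg h]
    exact id

theorem fixE_close' (X : ℕ) : num (fixE P) X ≤ num P X + 4 ∧ num P X ≤ num (fixE P) X + 4 := by
  constructor
  · rw [← card_ES]
    refine num_close ES (fun d _ h => ?_) X
    unfold fixE
    rw [if_neg h]
    exact id
  · rw [← card_ES]
    refine num_close ES (fun d _ h => ?_) X
    unfold fixE
    rw [if_neg h]
    exact id

theorem top_all : Tendsto (fun X : ℕ => (num (fun _ => True) X : ℝ)) atTop atTop :=
  Pool.Agent.N969.Den.NS_top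

theorem dens_allE (hP : ∀ d, Squarefree d → ¬ Exc d → (P d ↔ Sys d)) :
    Tendsto (fun X : ℕ => (num P X : ℝ) / (num (fun _ => True) X : ℝ)) atTop
      (𝓝 (Pool.Agent.Y703.CQ.c2 / 2)) :=
  lim_closeN 4 (dens_all parts (fixE_iff hP)) (fun X => (fixE_close' X).1)
    (fun X => (fixE_close' X).2) top_all

theorem top_root : Tendsto (fun X : ℕ => (num Rt X : ℝ)) atTop atTop := by
  have h : ∀ X : ℕ, (num Rt X : ℝ) = (1 / 2) * (num (fun _ => True) X : ℝ) := by
    intro X
    rw [← half X]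
    push_cast
    ring
  simp only [h]
  exact Tendsto.const_mul_atTop (by norm_num) top_all

theorem dens_rootE (hP : ∀ d, Squarefree d → ¬ Exc d → (P d ↔ Sys d)) :
    Tendsto (fun X : ℕ => (num P X : ℝ) / (num Rt X : ℝ)) atTop (𝓝 Pool.Agent.Y703.CQ.c2) :=
  lim_closeN 4 (dens_root parts (fixE_iff hP)) (fun X => (fixE_close' X).1)
    (fun X => (fixE_close' X).2) top_root

theorem dens_locE (hP : ∀ d, Squarefree d → ¬ Exc d → (P d ↔ Sys d)) (inf : Prop)
    (S : Finset ℕ) (hS : ∀ p ∈ S, p.Prime) {d₀ : ℤ} (hd : Squarefree d₀) (h1 : Rt d₀) :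
    Tendsto (fun X : ℕ => (num (fun d => (Rt d ∧ Pool.Agent.N855.GF.Lc17.Loc inf S d₀ d) ∧ P d) X : ℝ) /
      (num (fun d => Rt d ∧ Pool.Agent.N855.GF.Lc17.Loc inf S d₀ d) X : ℝ)) atTop
      (𝓝 Pool.Agent.Y703.CQ.c2) := by
  obtain ⟨⟨c, X₀, hc, h2⟩, h3⟩ := dens_loc parts (fixE_iff hP) inf S hS hd h1
  exact lim_closeN 4 h3 (fun X => (fixE_close X).1) (fun X => (fixE_close X).2)
    (top_of_low hc h2)

end

/-- the L-function is determined by the Euler product -/
theorem L_uniq {W : WeierstrassCurve ℤ} {f g : ℂ → ℂ} (hf : IsL W f) (hg : IsL W g) : f = g := by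
  have e1 : ∀ s : ℂ, 3 / 2 < s.re → f s = g s := fun s hs => (hf.2 s hs).unique (hg.2 s hs)
  have hfa : AnalyticOnNhd ℂ f Set.univ := fun z _ => hf.1.analyticAt z
  have hga : AnalyticOnNhd ℂ g Set.univ := fun z _ => hg.1.analyticAt z
  refine hfa.eq_of_eventuallyEq hga (z₀ := 2) ?_
  have hop : IsOpen {s : ℂ | 3 / 2 < s.re} := isOpen_lt continuous_const Complex.continuous_re
  filter_upwards [hop.mem_nhds (show (2 : ℂ) ∈ {s : ℂ | 3 / 2 < s.re} by simp; norm_num)] with s hs
  exact e1 s hs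

/-! ### the size of the Tate-Shafarevich groups -/

/-- the exponents differ from `na`, `nn` by at most two -/
theorem eJ_near (j : Fin 3) (m : ℤ) :
    |(eJ j m : ℝ) - (if j = 0 then (na m : ℝ) else (nn m : ℝ))| ≤ 2 := by
  have h1 : ((lam 17 m).val : ℝ) ≤ 1 := by
    have : (lam 17 m).val < 2 := ZMod.val_lt _
    exact_mod_cast Nat.lt_succ_iff.1 this
  have h0 : (0 : ℝ) ≤ ((lam 17 m).val : ℝ) := Nat.cast_nonneg _
  have h3 : ∀ j : Fin 3, j = 0 ∨ j = 1 ∨ j = 2 := by decide
  rcases h3 j with rfl | rfl | rfl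
  · have e : eJ 0 m = if 0 < m then na m else na m + 1 := rfl
    rw [e, if_pos rfl]
    split_ifs <;> push_cast <;> rw [abs_le] <;> constructor <;> linarith
  · have e : eJ 1 m = if 0 < m then nn m else
      if (17 : ℤ) ∣ m then nn m + (lam 17 m).val else nn m + 1 := rfl
    have h4 : ¬ ((1 : Fin 3) = 0) := by decide
    rw [e, if_neg h4]
    split_ifs <;> push_cast <;> rw [abs_le] <;> constructor <;> linarith
  · have e : eJ 2 m = if 0 < m then nn m + 2 else
      if (17 : ℤ) ∣ m then nn m + (lam 17 m).val else nn m + 1 := rfl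
    have h4 : ¬ ((2 : Fin 3) = 0) := by decide
    rw [e, if_neg h4]
    split_ifs <;> push_cast <;> rw [abs_le] <;> constructor <;> linarith

/-- **normal order** -/
theorem normalJ (δ : ℝ) (hδ : 0 < δ) :
    Tendsto (fun X : ℕ => (num (fun m => ¬ ∀ j : Fin 3,
      |((eJ j m : ℝ) - 2) - 1 / 2 * Real.log (Real.log |(m : ℝ)|)| ≤
        δ * Real.log (Real.log |(m : ℝ)|)) X : ℝ) / X) atTop (𝓝 0) := by
  obtain ⟨ha, hn⟩ := QNORM.t_NORM (δ / 2) (by positivity)
  -- small `m`
  obtain ⟨M, hM⟩ : ∃ M : ℕ, ∀ x : ℝ, (M : ℝ) ≤ x → 8 / δ ≤ Real.log (Real.log x) := by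
    have h1 : Tendsto (fun x : ℝ => Real.log (Real.log x)) atTop atTop :=
      Real.tendsto_log_atTop.comp Real.tendsto_log_atTop
    obtain ⟨x0, hx0⟩ := (tendsto_atTop.1 h1 (8 / δ)).exists_forall_of_atTop
    obtain ⟨M, hM⟩ := exists_nat_ge x0
    exact ⟨M, fun x hx => hx0 x (hM.trans hx)⟩
  set Pa : ℤ → Prop := fun m => ¬ |(na m : ℝ) - 1 / 2 * Real.log (Real.log |(m : ℝ)|)| ≤
    δ / 2 * Real.log (Real.log |(m : ℝ)|) with hPa
  set Pn : ℤ → Prop := fun m => ¬ |(nn m : ℝ) - 1 / 2 * Real.log (Real.log |(m : ℝ)|)| ≤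
    δ / 2 * Real.log (Real.log |(m : ℝ)|) with hPn
  have hle : ∀ X : ℕ, (num (fun m => ¬ ∀ j : Fin 3,
      |((eJ j m : ℝ) - 2) - 1 / 2 * Real.log (Real.log |(m : ℝ)|)| ≤
        δ * Real.log (Real.log |(m : ℝ)|)) X) ≤ num Pa X + num Pn X + (2 * M + 1) := by
    intro X
    have k1 := num_or (P := fun m => ¬ ∀ j : Fin 3,
      |((eJ j m : ℝ) - 2) - 1 / 2 * Real.log (Real.log |(m : ℝ)|)| ≤
        δ * Real.log (Real.log |(m : ℝ)|)) (Q := fun m => Pa m ∨ Pn m)
      (R := fun m => -(M : ℤ) ≤ m ∧ m ≤ M) (fun m h3 h4 => by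
        by_cases h5 : Pa m
        · exact Or.inl (Or.inl h5)
        by_cases h6 : Pn m
        · exact Or.inl (Or.inr h6)
        right
        by_contra h7
        apply h4
        intro j
        have h8 : (M : ℝ) ≤ |(m : ℝ)| := by
          have : (M : ℤ) ≤ |m| := by
            by_contra h9
            push Not at h9
            apply h7
            rw [abs_lt] at h9
            omega
          exact_mod_cast this
        have h9 := hM _ h8
        set l := Real.log (Real.log |(m : ℝ)|) with hl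
        have h10 : 8 ≤ δ * l := by
          rw [div_le_iff₀ hδ] at h9
          linarith
        rw [hPa] at h5
        rw [hPn] at h6
        have h5' : |(na m : ℝ) - 1 / 2 * l| ≤ δ / 2 * l := not_not.1 h5
        have h6' : |(nn m : ℝ) - 1 / 2 * l| ≤ δ / 2 * l := not_not.1 h6
        have h11 := eJ_near j m
        have h12 : |(if j = 0 then (na m : ℝ) else (nn m : ℝ)) - 1 / 2 * l| ≤ δ / 2 * l := by
          split_ifs
          · exact h5'
          · exact h6'
        rw [abs_le] at h11 h12 ⊢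
        constructor <;> linarith [h11.1, h11.2, h12.1, h12.2]) X
    have k2 := num_or (P := fun m => Pa m ∨ Pn m) (Q := Pa) (R := Pn) (fun _ _ h => h) X
    have k3 := num_small (P := fun m => -(M : ℤ) ≤ m ∧ m ≤ M) M (fun _ h => h) X
    omega
  have h0 : Tendsto (fun X : ℕ => (num Pa X : ℝ) / X + (num Pn X : ℝ) / X +
      ((2 * M + 1 : ℕ) : ℝ) / X) atTop (𝓝 0) := by
    have := (ha.add hn).add (tendsto_const_div_atTop_nhds_zero_nat (((2 * M + 1 : ℕ) : ℝ)))
    simpa only [add_zero] using this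
  refine squeeze_zero (fun X => by positivity) (fun X => ?_) h0
  rw [← add_div, ← add_div]
  refine div_le_div_of_nonneg_right ?_ (Nat.cast_nonneg _)
  exact_mod_cast hle X

/-- a property of density `c` together with a property of density one -/
theorem and_normal {P Q : ℤ → Prop} {c : ℝ} (hP : Tendsto (fun X : ℕ => (num P X : ℝ) /
    (num (fun _ => True) X : ℝ)) atTop (𝓝 c))
    (hQ : Tendsto (fun X : ℕ => (num (fun m => ¬ Q m) X : ℝ) / X) atTop (𝓝 0)) :
    Tendsto (fun X : ℕ => (num (fun m => P m ∧ Q m) X : ℝ) / (num (fun _ => True) X : ℝ)) atTop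
      (𝓝 c) := by
  obtain ⟨a, X₀, ha, hlow⟩ : ∃ (a : ℝ) (X₀ : ℕ), 0 < a ∧ ∀ X : ℕ, X₀ ≤ X →
      a * X ≤ (num (fun _ => True) X : ℝ) := by
    obtain ⟨⟨c', X₀, hc, h2⟩, -⟩ := dens_loc (P := Sys) parts (fun _ _ _ => Iff.rfl) False ∅
      (by simp) (d₀ := 1) squarefree_one (Or.inl ⟨one_pos, jacobiSym.one_left 17⟩)
    refine ⟨c', X₀, hc, fun X hX => (h2 X hX).trans ?_⟩
    have := num_mono (P := fun d => Rt d ∧ Pool.Agent.N855.GF.Lc17.Loc False ∅ 1 d)
      (Q := fun _ => True) (fun _ _ _ => trivial) X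
    exact_mod_cast this
  have key : ∀ X : ℕ, num P X ≤ num (fun m => P m ∧ Q m) X + num (fun m => ¬ Q m) X :=
    num_or fun d _ h4 => by
      by_cases h : Q d
      · exact Or.inl ⟨h4, h⟩
      · exact Or.inr h
  have key2 : ∀ X : ℕ, num (fun m => P m ∧ Q m) X ≤ num P X := num_mono fun d _ h => h.1
  refine tendsto_of_tendsto_of_dist hP ?_
  have h3 : Tendsto (fun X : ℕ => ((num (fun m => ¬ Q m) X : ℝ) / X) / a) atTop (𝓝 0) := by
    have := hQ.div_const a
    rwa [zero_div] at this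
  refine squeeze_zero' (Eventually.of_forall fun X => dist_nonneg) ?_ h3
  filter_upwards [eventually_ge_atTop (max X₀ 1)] with X hX
  have hX1 : X₀ ≤ X := (le_max_left _ _).trans hX
  have hX2 : 0 < X := lt_of_lt_of_le Nat.one_pos ((le_max_right _ _).trans hX)
  have hXr : (0 : ℝ) < X := by exact_mod_cast hX2
  have hl := hlow X hX1
  have hT0 : (0 : ℝ) < (num (fun _ => True) X : ℝ) := lt_of_lt_of_le (by positivity) hl
  rw [Real.dist_eq, ← sub_div, abs_div, abs_of_pos hT0, div_div]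
  have h4 : (num P X : ℝ) ≤ num (fun m => P m ∧ Q m) X + num (fun m => ¬ Q m) X := by
    exact_mod_cast key X
  have h5 : (num (fun m => P m ∧ Q m) X : ℝ) ≤ num P X := by exact_mod_cast key2 X
  have h6 : |(num P X : ℝ) - num (fun m => P m ∧ Q m) X| ≤ num (fun m => ¬ Q m) X := by
    rw [abs_le]
    constructor
    · have : (0 : ℝ) ≤ num (fun m => ¬ Q m) X := Nat.cast_nonneg _
      linarith
    · linarith
  have h7 : (X : ℝ) * a ≤ (num (fun _ => True) X : ℝ) := by linarith
  exact div_le_div₀ (Nat.cast_nonneg _) h6 (by positivity) h7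

end Pool.Agent.H743.X17
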