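import Pool.Agent.H743.X17.NFtw
import Pool.Agent.H743.X17.Fin
import Pool.Agent.H743.X17.Gold

/-!
# Quadratic characters ordered by the conductor, with prescribed local components
-/

set_option autoImplicit false
set_option linter.all false

open scoped Classical

namespace Pool.Agent.H743.X17

open Finset Filter Topology
open Pool.Agent.N919.BS (NF Rt17 Fund core)
open Pool.Agent.N916.MO (G17)
open Pool.Agent.Y703.CQ (c2)
open Pool.Agent.N855.GF.Lc17 (Loc lc_Loc Lc)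
open Pool.Agent.N855.GF.Tw (tw tw_sqf split tw_eq)

variable {e : ℤ}

/-- a squarefree square -/
theorem sqf_sq {x : ℤ} (hx : Squarefree x) (h : IsSquare x) : x = 1 := by
  obtain ⟨t, rfl⟩ := h
  rcases Int.isUnit_iff.1 (hx t (dvd_refl _)) with h | h <;> rw [h] <;> norm_num

theorem sq_of_mul {g x : ℤ} (hg : g ≠ 0) (h : IsSquare (g ^ 2 * x)) : IsSquare x := by
  obtain ⟨r, hr⟩ := h
  have h1 : g ^ 2 ∣ r ^ 2 := ⟨x, by rw [sq r, ← hr]⟩
  obtain ⟨t, ht⟩ := (Int.pow_dvd_pow_iff (by norm_num)).1 h1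
  refine ⟨t, ?_⟩
  have hg2 : g ^ 2 ≠ 0 := pow_ne_zero 2 hg
  apply mul_left_cancel₀ hg2
  rw [hr, ht]
  ring

theorem sqf_eq {a b : ℤ} (ha : Squarefree a) (hb : Squarefree b) (h : IsSquare (a * b)) : b = a := by
  obtain ⟨g, a', b', hg, h1, h2, h3, -⟩ := split ha hb
  have ht := tw_eq hg h1 h2 h3
  have hgz : (g : ℤ) ≠ 0 := by exact_mod_cast hg.ne'
  have h4 : IsSquare ((g : ℤ) ^ 2 * tw a b) := by
    rw [ht]
    have : (g : ℤ) ^ 2 * (a' * b') = a * b := by rw [h2, h3]; ring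
    rw [this]
    exact h
  exact tw_one ha hb (sqf_sq (tw_sqf ha hb) (sq_of_mul hgz h4))

theorem core_spec {D : ℤ} (hD : Fund D) : Squarefree (core D) ∧ ∃ c : ℕ, c ≠ 0 ∧
    D = (c : ℤ) ^ 2 * core D := by
  unfold core
  rcases hD with ⟨h5, h6⟩ | ⟨m, h5, h6, h7⟩
  · rw [if_pos (by omega)]
    exact ⟨h5, 1, one_ne_zero, by norm_num⟩
  · rw [if_neg (by omega)]
    have e : D / 4 = m := by omega
    rw [e]
    exact ⟨h6, 2, two_ne_zero, by rw [h5]; norm_num⟩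

/-- `E_e ⊗ χ_D` is the twist `E_m`, `m = tw e (core D)` -/
theorem spec (he : Squarefree e) {D : ℤ} (hD : Fund D) : ∃ g : ℕ, g ≠ 0 ∧
    e * D = (g : ℤ) ^ 2 * tw e (core D) := by
  obtain ⟨h1, c, hc, h2⟩ := core_spec hD
  obtain ⟨g, hg, h3⟩ := tw_spec he h1
  refine ⟨g * c, mul_ne_zero hg hc, ?_⟩
  push_cast
  nth_rw 1 [h2]
  linear_combination ((c : ℤ) ^ 2) * h3

/-- the root number of `π_e ⊗ χ_D` is `1` -/
def RO (e D : ℤ) : Prop := ∃ m : ℤ, Squarefree m ∧ IsSquare (e * D * m) ∧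
  ((0 < m ∧ jacobiSym m 17 = 1) ∨ (m < 0 ∧ jacobiSym m 17 ≠ 1))

theorem RO_iff (he : Squarefree e) {D : ℤ} (hD : Fund D) : RO e D ↔ Rt (tw e (core D)) := by
  obtain ⟨g, hg, h⟩ := spec he hD
  have hgz : (g : ℤ) ≠ 0 := by exact_mod_cast hg
  have hsq := tw_sqf he (core_spec hD).1
  constructor
  · rintro ⟨m, h1, h2, h3⟩
    have h4 : m = tw e (core D) := by
      refine sqf_eq hsq h1 (sq_of_mul hgz ?_)
      rw [h] at h2
      rwa [mul_assoc] at h2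
    rw [← h4]
    exact h3
  · intro h3
    refine ⟨tw e (core D), hsq, ⟨g * tw e (core D), ?_⟩, h3⟩
    rw [h]
    ring

/-- the local components of `χ_D` and `χ_{D₀}` are equal at the places of `S`, and at `∞` if `inf` -/
def SL (inf : Prop) (S : Finset ℕ) (D₀ D : ℤ) : Prop :=
  (inf → 0 < D * D₀) ∧ ∀ (p : ℕ) [Fact p.Prime], p ∈ S → IsSquare ((D * D₀ : ℤ) : ℚ_[p])

theorem SL_iff (inf : Prop) (S : Finset ℕ) (he : Squarefree e) {D₀ D : ℤ} (hD₀ : Fund D₀)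
    (hD : Fund D) : SL inf S D₀ D ↔ Loc inf S (tw e (core D₀)) (tw e (core D)) := by
  rw [loc_tw inf S he (core_spec hD₀).1 (core_spec hD).1]
  obtain ⟨-, c, hc, h2⟩ := core_spec hD
  obtain ⟨-, c0, hc0, k2⟩ := core_spec hD₀
  unfold SL Loc
  have key : D * D₀ = ((c : ℤ) * c0) ^ 2 * (core D * core D₀) := by
    nth_rw 1 [h2]
    nth_rw 1 [k2]
    ring
  have hcz : (c : ℤ) * c0 ≠ 0 := by exact_mod_cast mul_ne_zero hc hc0
  refine and_congr ?_ ?_
  · refine forall_congr' fun _ => ?_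
    rw [key, mul_pos_iff_of_pos_left (by positivity)]
  · refine forall_congr' fun p => forall_congr' fun _ => forall_congr' fun _ => ?_
    have hcp : (((c : ℤ) * c0 : ℤ) : ℚ_[p]) ≠ 0 := by exact_mod_cast hcz
    rw [key, Int.cast_mul, Int.cast_pow]
    constructor
    · rintro ⟨r, hr⟩
      refine ⟨r / (((c : ℤ) * c0 : ℤ) : ℚ_[p]), ?_⟩
      field_simp
      linear_combination hr
    · rintro ⟨r, hr⟩
      refine ⟨r * (((c : ℤ) * c0 : ℤ) : ℚ_[p]), ?_⟩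
      rw [hr]
      ring

/-! ### counting -/

/-- the number of the quadratic characters `χ_D` of conductor `|D| ≤ X` with the property `P` -/
noncomputable def NC (P : ℤ → Prop) (X : ℝ) : ℕ := {D : ℤ | Fund D ∧ |(D : ℝ)| ≤ X ∧ P D}.ncard

/-- see `NC` -/
noncomputable def NG (P : ℤ → Prop) (X : ℕ) : ℕ :=
  ((Icc (-(X : ℤ)) X).filter fun D => Fund D ∧ P D).card

theorem NC_eq (P : ℤ → Prop) {X : ℝ} (hX : 0 ≤ X) : NC P X = NG P ⌊X⌋₊ := by
  unfold NC NG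
  rw [← Set.ncard_coe_finset]
  congr 1
  ext d
  rw [Set.mem_setOf_eq, Finset.mem_coe, mem_filter, mem_Icc]
  have h : |(d : ℝ)| ≤ X ↔ -((⌊X⌋₊ : ℕ) : ℤ) ≤ d ∧ d ≤ ((⌊X⌋₊ : ℕ) : ℤ) := by
    have e1 : |(d : ℝ)| = ((d.natAbs : ℕ) : ℝ) := by rw [Nat.cast_natAbs, Int.cast_abs]
    rw [e1, ← Nat.le_floor_iff hX]
    omega
  rw [h]
  constructor
  · rintro ⟨h1, h2, h3⟩
    exact ⟨h2, h1, h3⟩
  · rintro ⟨h1, h2, h3⟩
    exact ⟨h2, h1, h3⟩

theorem NG_core {P Q : ℤ → Prop} (h : ∀ D, Fund D → (Q D ↔ P (core D))) (X : ℕ) :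
    NG Q X = NF P X := by
  unfold NG Pool.Agent.N919.BS.NF
  congr 1
  ext D
  rw [mem_filter, mem_filter]
  constructor
  · rintro ⟨h1, h2, h3⟩
    exact ⟨h1, h2, (h D h2).1 h3⟩
  · rintro ⟨h1, h2, h3⟩
    exact ⟨h1, h2, (h D h2).2 h3⟩

theorem core_inj {D D' : ℤ} (hD : Fund D) (hD' : Fund D') (h : core D = core D') : D = D' := by
  unfold core at h
  rcases hD with ⟨h5, h6⟩ | ⟨m, h5, h6, h7⟩ <;> rcases hD' with ⟨i5, i6⟩ | ⟨n, i5, i6, i7⟩
  · rw [if_pos (by omega), if_pos (by omega)] at h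
    exact h
  · rw [if_pos (by omega), if_neg (by omega)] at h
    omega
  · rw [if_neg (by omega), if_pos (by omega)] at h
    omega
  · rw [if_neg (by omega), if_neg (by omega)] at h
    omega

theorem NG_close {P Q : ℤ → Prop} {E : ℤ} (h : ∀ D, Fund D → core D ≠ E → (P D ↔ Q D)) (X : ℕ) :
    NG P X ≤ NG Q X + 2 := by
  by_cases hE : ∃ D₁, Fund D₁ ∧ core D₁ = E
  · obtain ⟨D₁, hD₁, rfl⟩ := hE
    unfold NG
    have h1 : ((Icc (-(X : ℤ)) X).filter fun D => Fund D ∧ P D) ⊆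
        ((Icc (-(X : ℤ)) X).filter fun D => Fund D ∧ Q D) ∪ {D₁} := by
      intro d hd
      obtain ⟨h2, h3, h4⟩ := mem_filter.1 hd
      rw [mem_union]
      by_cases e1 : d = D₁
      · right
        rw [e1]
        simp
      left
      exact mem_filter.2 ⟨h2, h3, (h d h3 fun h' => e1 (core_inj h3 hD₁ h')).1 h4⟩
    refine (card_le_card h1).trans ((card_union_le _ _).trans ?_)
    rw [card_singleton]
    omega
  · unfold NG
    refine (card_le_card ?_).trans (Nat.le_add_right _ 2)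
    intro d hd
    obtain ⟨h2, h3, h4⟩ := mem_filter.1 hd
    exact mem_filter.2 ⟨h2, h3, (h d h3 fun h' => hE ⟨d, h3, h'⟩).1 h4⟩

/-- **the density, conductor ordering** -/
theorem dens_cond (h : Parts) (he : Squarefree e) (inf : Prop) (S : Finset ℕ)
    (hS : ∀ p ∈ S, p.Prime) {D₀ : ℤ} (hD₀ : Fund D₀) (h1 : RO e D₀) {G : ℤ → Prop}
    (hG : ∀ D, Fund D → tw e (core D) ≠ 1 → (G D ↔ Sys (tw e (core D)))) :
    Tendsto (fun X : ℝ => (NC (fun D => (RO e D ∧ SL inf S D₀ D) ∧ G D) X : ℝ) /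
      (NC (fun D => RO e D ∧ SL inf S D₀ D) X : ℝ)) atTop (𝓝 c2) := by
  have hd := (core_spec hD₀).1
  obtain ⟨m, h2, h3, h4⟩ := lc_Loc inf S hS (tw e (core D₀))
  have h5 : Loc inf S (tw e (core D₀)) (tw e (core D₀)) := by
    refine ⟨fun _ => mul_self_pos.2 (tw_sqf he hd).ne_zero,
      fun p _ _ => ⟨(tw e (core D₀) : ℚ_[p]), ?_⟩⟩
    push_cast
    ring
  obtain ⟨h6, c, X₀, hc, h7⟩ := lim_NFtw he h2 h3 h4 hd ((RO_iff he hD₀).1 h1) h5
  have e1 : ∀ X, NG (fun D => RO e D ∧ SL inf S D₀ D) X =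
      NF (fun d => Rt17 (tw e d) ∧ Loc inf S (tw e (core D₀)) (tw e d)) X :=
    NG_core fun D hD => and_congr (RO_iff he hD) (SL_iff inf S he hD₀ hD)
  have htop : Tendsto (fun X : ℕ => (NG (fun D => RO e D ∧ SL inf S D₀ D) X : ℝ)) atTop atTop := by
    refine tendsto_atTop_mono' _ ?_ (Tendsto.const_mul_atTop hc tendsto_natCast_atTop_atTop)
    filter_upwards [eventually_ge_atTop X₀] with X hX
    rw [e1]
    exact h7 X hX
  have key : ∀ D, Fund D → core D ≠ e → (((RO e D ∧ SL inf S D₀ D) ∧ G D) ↔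
      ((RO e D ∧ SL inf S D₀ D) ∧ G17 (tw e (core D)))) := by
    intro D hD hne
    have hne' : tw e (core D) ≠ 1 := fun h' => hne (tw_one he (core_spec hD).1 h')
    refine and_congr_right fun h8 => ?_
    rw [hG D hD hne']
    exact h.crit _ (tw_sqf he (core_spec hD).1) ((RO_iff he hD).1 h8.1)
  have e2 : ∀ X, NG (fun D => (RO e D ∧ SL inf S D₀ D) ∧ G17 (tw e (core D))) X =
      NF (fun d => (Rt17 (tw e d) ∧ Loc inf S (tw e (core D₀)) (tw e d)) ∧ G17 (tw e d)) X :=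
    NG_core fun D hD => and_congr_left fun _ => and_congr (RO_iff he hD) (SL_iff inf S he hD₀ hD)
  have h9 : Tendsto (fun X : ℕ => (NG (fun D => (RO e D ∧ SL inf S D₀ D) ∧
      G17 (tw e (core D))) X : ℝ) / (NG (fun D => RO e D ∧ SL inf S D₀ D) X : ℝ)) atTop (𝓝 c2) := by
    refine h6.congr fun X => ?_
    rw [e1, e2]
  have h10 := Pool.Agent.N969.Den.lim_close h9
    (NG_close (E := e) fun D hD hne => (key D hD hne).symm) (NG_close (E := e) key) htop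
  refine (h10.comp tendsto_nat_floor_atTop).congr' ?_
  filter_upwards [eventually_ge_atTop 0] with X hX
  simp only [Function.comp_apply]
  rw [NC_eq _ hX, NC_eq _ hX]

theorem fin_NC (X : ℝ) : {D : ℤ | Fund D ∧ |(D : ℝ)| ≤ X}.Finite := by
  refine (Set.finite_Icc (-((⌊X⌋₊ : ℕ) : ℤ)) ((⌊X⌋₊ : ℕ) : ℤ)).subset ?_
  rintro d ⟨-, h⟩
  have hX : 0 ≤ X := (abs_nonneg _).trans h
  have e1 : |(d : ℝ)| = ((d.natAbs : ℕ) : ℝ) := by rw [Nat.cast_natAbs, Int.cast_abs]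
  rw [e1, ← Nat.le_floor_iff hX] at h
  rw [Set.mem_Icc]
  omega

theorem NC_mono {P Q : ℤ → Prop} (h : ∀ D, Fund D → P D → Q D) (X : ℝ) : NC P X ≤ NC Q X := by
  refine Set.ncard_le_ncard ?_ ((fin_NC X).subset fun D hD => ⟨hD.1, hD.2.1⟩)
  rintro D ⟨h1, h2, h3⟩
  exact ⟨h1, h2, h D h1 h3⟩

theorem liminf_NC {P Q R : ℤ → Prop} {c : ℝ} (hPQ : ∀ d, Fund d → P d → Q d)
    (hQR : ∀ d, Fund d → Q d → R d)
    (h : Tendsto (fun X : ℝ => (NC P X : ℝ) / (NC R X : ℝ)) atTop (𝓝 c)) :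
    c ≤ liminf (fun X : ℝ => (NC Q X : ℝ) / (NC R X : ℝ)) atTop := by
  rw [← h.liminf_eq]
  refine liminf_le_liminf (Eventually.of_forall fun X => ?_) ?_ ?_
  · exact div_le_div_of_nonneg_right (Nat.cast_le.2 (NC_mono hPQ X)) (Nat.cast_nonneg _)
  · exact h.isBoundedUnder_ge
  · refine IsBoundedUnder.isCoboundedUnder_ge ?_
    refine ⟨1, ?_⟩
    rw [eventually_map]
    refine Eventually.of_forall fun X => ?_
    apply div_le_one_of_le₀
    · exact_mod_cast NC_mono hQR X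
    · positivity

end Pool.Agent.H743.X17
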