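import Pool.Agent.H743.X17.TwL

/-!
# The twists of a twist ordered by the conductor of the quadratic character
-/

set_option autoImplicit false
set_option linter.all false

open scoped Classical

namespace Pool.Agent.H743.X17

open Finset Filter Topology
open Pool.Agent.N919.BS (NN NS NF HG Rt17 ratio root17 Fund core)
open Pool.Agent.N916.MO (G17 hg17)
open Pool.Agent.Y703.CQ (c2)
open Pool.Agent.N855.GF.Lc17 (Loc lc_Loc Lc lc_and lc_root low_P close_NF sq_skM type_of)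
open Pool.Agent.N855.GF.Tw (tw T tw_sqf T_eq split tw_eq sqf_mul)

variable {e : ℤ}

theorem tw_tw {d : ℤ} (he : Squarefree e) (hd : Squarefree d) : tw e (tw e d) = d := by
  obtain ⟨g, e', d', hg, h1, h2, h3, h4, h5, h6, h7, h8⟩ := split he hd
  have ht := tw_eq hg h1 h2 h3
  have he' : e' ≠ 0 := h7.ne_zero
  have hp : 0 < e'.natAbs := Int.natAbs_pos.2 he'
  obtain ⟨σ, hσ, h9⟩ : ∃ σ : ℤ, σ * σ = 1 ∧ e' = (e'.natAbs : ℤ) * σ := by
    rcases le_total 0 e' with h | h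
    · exact ⟨1, by norm_num, by omega⟩
    · exact ⟨-1, by norm_num, by omega⟩
  rw [ht]
  have h10 : Int.gcd e (e' * d') = e'.natAbs := by
    rw [h2, mul_comm (g : ℤ) e', Int.gcd_mul_left, h5, mul_one]
  have h11 := tw_eq (e := e) (d := e' * d') (e' := σ * g) (d' := σ * d') hp h10
    (by rw [h2]; nth_rw 1 [h9]; ring) (by nth_rw 1 [h9]; ring)
  rw [h11, h3]
  linear_combination ((g : ℤ) * d') * hσ

theorem odd_uniq {s s' : ℤ} {k k' M N : ℕ} (hs : s = 1 ∨ s = -1) (hs' : s' = 1 ∨ s' = -1)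
    (hk : k = 1 ∨ k = 2) (hk' : k' = 1 ∨ k' = 2) (hM : M % 2 = 1) (hN : N % 2 = 1)
    (h : s * ((k * M : ℕ) : ℤ) = s' * ((k' * N : ℕ) : ℤ)) : s = s' ∧ k = k' ∧ M = N := by
  rcases hs with rfl | rfl <;> rcases hs' with rfl | rfl <;> rcases hk with rfl | rfl <;>
    rcases hk' with rfl | rfl <;> push_cast at h <;> refine ⟨?_, ?_, ?_⟩ <;> omega

/-- the twist of a class -/
theorem lc_tw (he : Squarefree e) {m : ℕ} {P : ℤ → Prop} (hP : Lc m P) :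
    Lc (m * (2 * e.natAbs ^ 2)) fun f => P (tw e f) := by
  intro s k M N hs hk hM hN hM2 hN2 h
  have hd1 := sq_skM hs hk hM hM2
  have hd2 := sq_skM hs hk hN hN2
  have hM0 : 0 < M := Nat.pos_of_ne_zero hM.ne_zero
  have hN0 : 0 < N := Nat.pos_of_ne_zero hN.ne_zero
  have he0 : 0 < e.natAbs := Int.natAbs_pos.2 he.ne_zero
  obtain ⟨s1, k1, M1, hs1, hk1, hM1, hM12, e1⟩ := type_of (tw_sqf he hd1)
  obtain ⟨s2, k2, M2, hs2, hk2, hM2', hM22, e2⟩ := type_of (tw_sqf he hd2)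
  have hgcd : Int.gcd e (s * ((k * M : ℕ) : ℤ)) = Int.gcd e (s * ((k * N : ℕ) : ℤ)) := by
    have h0 := (lc_gcd' (e := e) (m := m * (2 * e.natAbs ^ 2))
      ⟨m * (2 * e.natAbs), by ring⟩ (Int.gcd (s * ((k * N : ℕ) : ℤ)) e)) s k M N hs hk hM hN hM2 hN2 h
    rw [Int.gcd_comm e, Int.gcd_comm e]
    exact h0.2 rfl
  obtain ⟨g, a, b, hg, i1, i2, i3, -⟩ := split he hd1
  obtain ⟨g', a', b', hg', j1, j2, j3, -⟩ := split he hd2
  have hgg : g' = g := by rw [← i1, ← j1, hgcd]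
  subst hgg
  have t1 := tw_eq hg i1 i2 i3
  have t2 := tw_eq hg' j1 j2 j3
  have hgz : (g' : ℤ) ≠ 0 := by exact_mod_cast hg.ne'
  have haa : a' = a := mul_left_cancel₀ hgz (j2.symm.trans i2)
  subst haa
  -- g² f = e d
  have q1 : (g' : ℤ) ^ 2 * tw e (s * ((k * M : ℕ) : ℤ)) = e * (s * ((k * M : ℕ) : ℤ)) := by
    rw [t1, i3, i2]; ring
  have q2 : (g' : ℤ) ^ 2 * tw e (s * ((k * N : ℕ) : ℤ)) = e * (s * ((k * N : ℕ) : ℤ)) := by
    rw [t2, j3, j2]; ring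
  have q3 : s1 * ((k1 * (M1 * N) : ℕ) : ℤ) = s2 * ((k2 * (M2 * M) : ℕ) : ℤ) := by
    have hg2 : (g' : ℤ) ^ 2 ≠ 0 := pow_ne_zero 2 hgz
    apply mul_left_cancel₀ hg2
    rw [e1] at q1
    rw [e2] at q2
    push_cast at q1 q2 ⊢
    linear_combination (N : ℤ) * q1 - (M : ℤ) * q2
  obtain ⟨r1, r2, r3⟩ := odd_uniq hs1 hs2 hk1 hk2 (by rw [Nat.mul_mod, hM12, hN2])
    (by rw [Nat.mul_mod, hM22, hM2]) q3
  subst r1 r2
  have key : M1 % m = M2 % m := by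
    have hmod : (M : ℤ) ≡ N [ZMOD (m * (2 * e.natAbs ^ 2) : ℕ)] := by
      exact_mod_cast (show M ≡ N [MOD m * (2 * e.natAbs ^ 2)] from h)
    obtain ⟨t, ht⟩ := Int.modEq_iff_dvd.1 hmod
    have hk1' : (k1 : ℤ) ∣ 2 := by rcases hk1 with rfl | rfl <;> norm_num
    obtain ⟨l, hl⟩ := hk1'
    have hk0 : (k1 : ℤ) ≠ 0 := by rcases hk1 with rfl | rfl <;> norm_num
    have hss : s1 * s1 = 1 := by rcases hs1 with rfl | rfl <;> norm_num
    have e3 : ((M2 : ℤ) - M1) = m * (s1 * a' * s * k * l * e * a' * t) := by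
      have hc : (g' : ℤ) ^ 2 * k1 ≠ 0 := mul_ne_zero (pow_ne_zero 2 hgz) hk0
      apply mul_left_cancel₀ hc
      rw [e1] at q1
      rw [e2] at q2
      push_cast at q1 q2 ht
      have q4 : (g' : ℤ) ^ 2 * k1 * (M2 - M1) = s1 * (e * s * k * (N - M)) := by
        linear_combination s1 * q2 - s1 * q1 - ((g' : ℤ) ^ 2 * k1 * (M2 - M1)) * hss
      rw [q4, ht, sq_abs]
      have q5 : (e : ℤ) = g' * a' := i2
      have e6 : s1 * (e * s * k * (m * (2 * e ^ 2) * t)) =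
        s1 * s * k * m * t * (2 * e ^ 3) := by ring
      have e7 : (g' : ℤ) ^ 2 * k1 * (m * (s1 * a' * s * k * l * e * a' * t)) =
        s1 * s * k * m * t * ((k1 * l) * ((g' * a') ^ 2 * e)) := by ring
      rw [e6, e7, ← hl, ← q5]
      ring
    have h8 : (M1 : ℤ) ≡ M2 [ZMOD m] := Int.modEq_iff_dvd.2 ⟨_, e3⟩
    exact_mod_cast (show (M1 : ℤ) % m = M2 % m from h8)
  show P (tw e (s * ((k * M : ℕ) : ℤ))) ↔ P (tw e (s * ((k * N : ℕ) : ℤ)))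
  rw [e1, e2]
  exact hP s1 k1 M1 M2 hs1 hk1 hM1 hM2' hM12 hM22 key

/-- `d = s k M`, `M ≡ r mod 4` -/
def Ty (s : ℤ) (k r : ℕ) (d : ℤ) : Prop := ∃ M : ℕ, M % 4 = r ∧ d = s * ((k * M : ℕ) : ℤ)

theorem lc_Ty {s : ℤ} {k r : ℕ} (hs : s = 1 ∨ s = -1) (hk : k = 1 ∨ k = 2) (hr : r = 1 ∨ r = 3) :
    Lc 4 (Ty s k r) := by
  have key : ∀ (s' : ℤ) (k' M N : ℕ), (s' = 1 ∨ s' = -1) → (k' = 1 ∨ k' = 2) → M % 2 = 1 →
      N % 2 = 1 → M % 4 = N % 4 → Ty s k r (s' * ((k' * M : ℕ) : ℤ)) →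
      Ty s k r (s' * ((k' * N : ℕ) : ℤ)) := by
    rintro s' k' M N hs' hk' hM hN h ⟨M0, h0, h1⟩
    obtain ⟨rfl, rfl, rfl⟩ := odd_uniq hs' hs hk' hk hM (by omega) h1
    exact ⟨N, by omega, rfl⟩
  intro s' k' M N hs' hk' hM hN hM2 hN2 h
  exact ⟨key s' k' M N hs' hk' hM2 hN2 h, key s' k' N M hs' hk' hN2 hM2 h.symm⟩

theorem NN_tw' (he : Squarefree e) {s : ℤ} {k r : ℕ} (hs : s = 1 ∨ s = -1) (hk : k = 1 ∨ k = 2)
    (hr : r = 1 ∨ r = 3) (P P' R : ℤ → Prop) (hP' : ∀ d, P' d ↔ P (tw e d))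
    (hR : ∀ f, R f ↔ P f ∧ Ty s k r (tw e f)) (Y : ℕ) :
    NN P' s k r Y = T e R (k * Y) := by
  unfold Pool.Agent.N919.BS.NN T
  have hk0 : 0 < k := by omega
  refine card_bij (fun M _ => s * ((k * M : ℕ) : ℤ)) ?_ ?_ ?_
  · intro M hM
    rw [mem_filter, mem_Icc] at hM
    obtain ⟨⟨h1, h2⟩, h3, h4, h5⟩ := hM
    have hsq := sq_skM hs hk h3 (by omega)
    refine mem_filter.2 ⟨?_, hsq, (hR _).2 ⟨(hP' _).1 h5, ?_⟩⟩
    · have h6 : (k * M : ℕ) ≤ k * Y := Nat.mul_le_mul_left k h2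
      have h7 : ((k * M : ℕ) : ℤ) ≤ ((k * Y : ℕ) : ℤ) := by exact_mod_cast h6
      rw [mem_Icc]
      rcases hs with rfl | rfl
      · constructor
        · have : (0 : ℤ) ≤ ((k * M : ℕ) : ℤ) := Int.natCast_nonneg _
          omega
        · omega
      · constructor
        · omega
        · have : (0 : ℤ) ≤ ((k * M : ℕ) : ℤ) := Int.natCast_nonneg _
          omega
    · rw [tw_tw he hsq]
      exact ⟨M, h4, rfl⟩
  · intro M hM N hN h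
    rw [mem_filter] at hM hN
    exact (odd_uniq hs hs hk hk (by omega) (by omega) h).2.2
  · intro d hd
    obtain ⟨h1, h2, h34⟩ := mem_filter.1 hd
    obtain ⟨h3, h4⟩ := (hR _).1 h34
    rw [tw_tw he h2] at h4
    obtain ⟨M, h5, rfl⟩ := h4
    have h6 : Squarefree (k * M) := by
      rw [← Int.squarefree_natAbs] at h2
      rcases hs with rfl | rfl <;> simpa [Int.natAbs_mul] using h2
    have h7 : Squarefree M := h6.squarefree_of_dvd (Dvd.intro_left _ rfl)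
    refine ⟨M, ?_, rfl⟩
    rw [mem_Icc] at h1
    have h8 : k * M ≤ k * Y := by
      rcases hs with rfl | rfl
      · have := h1.2; zify; push_cast at this ⊢; linarith
      · have := h1.1; zify; push_cast at this ⊢; linarith
    rw [mem_filter, mem_Icc]
    exact ⟨⟨Nat.pos_of_ne_zero h7.ne_zero, Nat.le_of_mul_le_mul_left h8 hk0⟩, h7, h5,
      (hP' _).2 h3⟩

theorem NN_tw (he : Squarefree e) {s : ℤ} {k r : ℕ} (hs : s = 1 ∨ s = -1) (hk : k = 1 ∨ k = 2)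
    (hr : r = 1 ∨ r = 3) (P : ℤ → Prop) (Y : ℕ) :
    NN (fun d => P (tw e d)) s k r Y = T e (fun f => P f ∧ Ty s k r (tw e f)) (k * Y) :=
  NN_tw' he hs hk hr P _ _ (fun _ => Iff.rfl) (fun _ => Iff.rfl) Y

/-- the law in the eight classes, for the twists of a twist -/
theorem hg_tw (he : Squarefree e) {m : ℕ} (h136 : 136 ∣ m) (hm : 0 < m) {Q : ℤ → Prop}
    (hQ : Lc m Q) : HG (fun d => Rt17 (tw e d) ∧ Q (tw e d)) (fun d => G17 (tw e d)) c2 := by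
  intro s k r hs hk hr ε hε
  have hL : Lc (m * (4 * (2 * e.natAbs ^ 2))) fun f => Q f ∧ Ty s k r (tw e f) :=
    lc_and (lc_of_dvd (Dvd.intro _ rfl) hQ)
      (lc_of_dvd (Dvd.intro_left _ rfl) (lc_tw he (lc_Ty hs hk hr)))
  have he0 : 0 < e.natAbs := Int.natAbs_pos.2 he.ne_zero
  have hm' : 0 < m * (4 * (2 * e.natAbs ^ 2)) := by positivity
  obtain ⟨X₀, h⟩ := close_TQ he (Dvd.dvd.mul_right h136 _) hm' hL (ε / 2) (by positivity)
  refine ⟨X₀, fun Y hY => ?_⟩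
  have hk0 : 1 ≤ k := by omega
  have h1 := h (k * Y) (hY.trans (Nat.le_mul_of_pos_left Y (by omega)))
  have e1 : NN (fun d => (Rt17 (tw e d) ∧ Q (tw e d)) ∧ G17 (tw e d)) s k r Y =
      T e (fun d => (Rt17 d ∧ (Q d ∧ Ty s k r (tw e d))) ∧ G17 d) (k * Y) := by
    rw [NN_tw he hs hk hr (fun f => (Rt17 f ∧ Q f) ∧ G17 f)]
    congr 1
    funext f
    exact propext ⟨fun h => ⟨⟨h.1.1.1, h.1.1.2, h.2⟩, h.1.2⟩,
      fun h => ⟨⟨⟨h.1.1, h.1.2.1⟩, h.2⟩, h.1.2.2⟩⟩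
  have e2 : NN (fun d => Rt17 (tw e d) ∧ Q (tw e d)) s k r Y =
      T e (fun d => Rt17 d ∧ (Q d ∧ Ty s k r (tw e d))) (k * Y) := by
    rw [NN_tw he hs hk hr (fun f => Rt17 f ∧ Q f)]
    congr 1
    funext f
    exact propext ⟨fun h => ⟨h.1.1, h.1.2, h.2⟩, fun h => ⟨⟨h.1, h.2.1⟩, h.2.2⟩⟩
  show |(NN (fun d => (Rt17 (tw e d) ∧ Q (tw e d)) ∧ G17 (tw e d)) s k r Y : ℝ) -
    c2 * NN (fun d => Rt17 (tw e d) ∧ Q (tw e d)) s k r Y| ≤ ε * Y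
  rw [e1, e2]
  refine h1.trans ?_
  have hk2 : ((k : ℕ) : ℝ) ≤ 2 := by rcases hk with rfl | rfl <;> norm_num
  push_cast
  have hY0 : (0 : ℝ) ≤ Y := Nat.cast_nonneg _
  nlinarith [mul_nonneg hε.le hY0]

/-- **the conductor ordering** -/
theorem lim_NFtw (he : Squarefree e) {m : ℕ} (h136 : 136 ∣ m) (hm : 0 < m) {Q : ℤ → Prop}
    (hQ : Lc m Q) {d₀ : ℤ} (hd : Squarefree d₀) (h1 : Rt17 (tw e d₀)) (h2 : Q (tw e d₀)) :
    Tendsto (fun X : ℕ => (NF (fun d => (Rt17 (tw e d) ∧ Q (tw e d)) ∧ G17 (tw e d)) X : ℝ) /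
      (NF (fun d => Rt17 (tw e d) ∧ Q (tw e d)) X : ℝ)) atTop (𝓝 c2) ∧
    ∃ (c : ℝ) (X₀ : ℕ), 0 < c ∧ ∀ X : ℕ, X₀ ≤ X →
      c * X ≤ (NF (fun d => Rt17 (tw e d) ∧ Q (tw e d)) X : ℝ) := by
  have he0 : 0 < e.natAbs := Int.natAbs_pos.2 he.ne_zero
  have hL : Lc (m * (2 * e.natAbs ^ 2)) fun d => Rt17 (tw e d) ∧ Q (tw e d) :=
    lc_tw he (lc_and (lc_root (Dvd.dvd.trans (by norm_num) h136)) hQ)
  obtain ⟨c, X₀, hc, h3⟩ := low_P (Dvd.dvd.mul_right (Dvd.dvd.trans (by norm_num) h136) _)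
    (by positivity) hL hd ⟨h1, h2⟩
  exact ⟨ratio hc (fun X hX => (h3 X hX).1) (close_NF (hg_tw he h136 hm hQ)),
    c, X₀, hc, fun X hX => (h3 X hX).1⟩

end Pool.Agent.H743.X17
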