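import Mathlib

/-!
# The quadratic twists `E_m : y² = x (x + m) (x - 16 m)` of the curve 17a2: definitions

`m` is any squarefree integer, positive or negative.
-/

set_option autoImplicit false

namespace Pool.Agent.H743.X17

/-! ### equations -/

/-- `y² = x (x + A) (x + B)` -/
def EAB (A B : ℤ) : WeierstrassCurve ℚ := ⟨0, (A : ℚ) + B, 0, (A : ℚ) * B, 0⟩

/-- the minimal equation for `m ≡ 1 mod 4`: `y² + x y = x³ - (15 m + 1)/4 x² - m² x` -/
def W1 (m : ℤ) : WeierstrassCurve ℤ := ⟨1, -((15 * m + 1) / 4), 0, -m ^ 2, 0⟩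

/-- the minimal equation for `m ≢ 1 mod 4`: `y² = x³ - 15 m x² - 16 m² x` -/
def W2 (m : ℤ) : WeierstrassCurve ℤ := ⟨0, -15 * m, 0, -16 * m ^ 2, 0⟩

/-- the minimal equation of `E_m`, `m` squarefree -/
def WM (m : ℤ) : WeierstrassCurve ℤ := if m % 4 = 1 then W1 m else W2 m

/-! ### 2-coverings -/

/-- the 2-covering of `y² = x (x + A) (x + B)` attached to `(u, v)` has a point over `K` -/
def LS (A B u v : ℤ) (K : Type) [Field K] : Prop :=
  ∃ x y : K, y ≠ 0 ∧ y ^ 2 = x * (x + A) * (x + B) ∧ IsSquare (x * u) ∧ IsSquare ((x + A) * v)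

/-- the 2-covering has a point over all the completions of `ℚ` -/
def ELS (A B u v : ℤ) : Prop := (∀ (p : ℕ) [Fact p.Prime], LS A B u v ℚ_[p]) ∧ LS A B u v ℝ

/-- `(u, v)` is the class of a point of order dividing two, modulo squares:
`O`, `(0, 0)`, `(-A, 0)`, `(-B, 0)` -/
def TC (A B u v : ℤ) : Prop :=
  (IsSquare u ∧ IsSquare v) ∨ (IsSquare (A * B * u) ∧ IsSquare (A * v)) ∨
  (IsSquare (-A * u) ∧ IsSquare (A * (A - B) * v)) ∨ (IsSquare (-B * u) ∧ IsSquare ((A - B) * v))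

/-! ### symbols of squarefree integers -/

/-- the part prime to `p` of a squarefree integer -/
def up (p : ℕ) (n : ℤ) : ℤ := if (p : ℤ) ∣ n then n / p else n

/-- the additive quadratic symbol of the unit part, `p` odd -/
def lam (p : ℕ) (n : ℤ) : ZMod 2 := if jacobiSym (up p n) p = 1 then 0 else 1

/-- the valuation of a squarefree integer -/
def ind (p : ℕ) (n : ℤ) : ZMod 2 := if (p : ℤ) ∣ n then 1 else 0

/-- the additive form of the character modulo `4` of the odd part -/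
def e4 (n : ℤ) : ZMod 2 := if up 2 n % 4 = 3 then 1 else 0

/-- the additive form of the even character modulo `8` of the odd part -/
def e8 (n : ℤ) : ZMod 2 := if up 2 n % 8 = 1 ∨ up 2 n % 8 = 7 then 0 else 1

/-- the additive Hilbert symbol at `2` of two squarefree integers -/
def h2 (a b : ℤ) : ZMod 2 := e4 a * e4 b + ind 2 a * e8 b + ind 2 b * e8 a

/-- **The local conditions** for the class `(u, v)` (`u`, `v` squarefree) on `E_m`. -/
structure LC (m u v : ℤ) : Prop where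
  pos : 0 < m → 0 < v
  neg : m < 0 → 0 < u * v
  good : ∀ p : ℕ, p.Prime → p ≠ 2 → p ≠ 17 → ¬ (p : ℤ) ∣ m → ¬ (p : ℤ) ∣ u ∧ ¬ (p : ℤ) ∣ v
  odd : ∀ p : ℕ, p.Prime → p ≠ 2 → p ≠ 17 → (p : ℤ) ∣ m →
    lam p u = ind p u * lam p (-m) + ind p v * lam p (-1) ∧
    lam p v = ind p v * lam p m + ind p u * lam p 17
  s17 : ¬ (17 : ℤ) ∣ m → ¬ (17 : ℤ) ∣ u ∧ lam 17 u = ind 17 v * lam 17 m
  r17 : (17 : ℤ) ∣ m → lam 17 u = ind 17 u * lam 17 m ∧
    lam 17 v = (ind 17 u + ind 17 v) * lam 17 m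
  o2 : m % 4 = 1 → ¬ (2 : ℤ) ∣ u ∧ v % 4 = 1
  e2 : m % 4 ≠ 1 → ((up 2 v % 8 = 1 ∧ ¬ (2 : ℤ) ∣ v) ∨
    (((2 : ℤ) ∣ v ↔ (2 : ℤ) ∣ m) ∧ (up 2 v * up 2 m) % 8 = 1)) ∧ h2 u m = e4 v

/-! ### the uniform criterion -/

/-- the absolute value of the discriminant of `ℚ(√m)`, `m` squarefree -/
def Kn (m : ℤ) : ℕ := if m % 4 = 1 then m.natAbs else 4 * m.natAbs

/-- the ramified primes of `ℚ(√m)` -/
def RS (m : ℤ) : Finset ℕ := (Kn m).primeFactors

/-- the prime discriminants of `ℚ(√m)` -/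
def pd (m : ℤ) (q : ℕ) : ℤ :=
  if q = 2 then (if m % 4 = 3 then -4 else if m % 8 = 2 then 8 else -8)
  else if q % 4 = 1 then q else -q

/-- the Kronecker symbol `(pd m q / p)` for `p ≠ q`, written additively -/
def lS (m : ℤ) (q p : ℕ) : ZMod 2 :=
  if p = 2 then (if pd m q % 8 = 1 ∨ pd m q % 8 = 7 then 0 else 1)
  else (if jacobiSym (pd m q) p = 1 then 0 else 1)

/-- the Rédei matrix, with row sums zero -/
def LL (m : ℤ) (p q : ℕ) : ZMod 2 := if p = q then ∑ r ∈ (RS m).erase p, lS m r p else lS m q p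

/-- the sign of the prime discriminant -/
def al (m : ℤ) (q : ℕ) : ZMod 2 := if pd m q < 0 then 1 else 0

/-- the Kronecker symbol `(17 / p)` -/
def nu (p : ℕ) : ZMod 2 := if p = 2 then 0 else if jacobiSym 17 p = 1 then 0 else 1

/-- **The criterion**: the symmetric system `[[N, L], [Lᵀ, A]]` over `F_2` (without the row and the
column of the first block which belong to `17`) has only the trivial solution. -/
def Sys (m : ℤ) : Prop := ∀ x y : ℕ → ZMod 2, x 17 = 0 →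
  (∀ p ∈ (RS m).erase 17, nu p * x p + ∑ q ∈ RS m, LL m p q * y q = 0) →
  (∀ q ∈ RS m, ∑ p ∈ RS m, LL m p q * x p + al m q * y q = 0) →
  ∀ p ∈ RS m, x p = 0 ∧ y p = 0

/-- the root number of `E_m` is `1` -/
def Rt (m : ℤ) : Prop := (0 < m ∧ jacobiSym m 17 = 1) ∨ (m < 0 ∧ jacobiSym m 17 ≠ 1)

end Pool.Agent.H743.X17
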