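import Pool.Agent.H743.X17.RK3

/-!
# The rational points of `y² = x³ + cA j k² x + cB j k³`, and all the equations with a given j-invariant
-/

set_option autoImplicit false
set_option linter.all false

open scoped Classical

namespace Pool.Agent.H743.X17.RK

open Pool.Agent.H743.X17 WeierstrassCurve Finset
open Pool.Agent.Y700 (VR IsL)
open Pool.Agent.TH841.SH.D (Sha)

/-- the short equation -/
abbrev SS (j : Fin 4) (k : ℤ) : WeierstrassCurve ℚ :=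
  ⟨0, 0, 0, ((cA j * k ^ 2 : ℤ) : ℚ), ((cB j * k ^ 3 : ℤ) : ℚ)⟩

theorem vr3 {m : ℤ} {g : ℕ} (hg : g ≠ 0) :
    VR (EAB m (-16 * m)) (SS 3 ((g : ℤ) ^ 2 * m)) (1 / g) (5 * m) 0 0 := by
  have hg0 : (g : ℚ) ≠ 0 := by exact_mod_cast hg
  refine ⟨by positivity, ?_, ?_, ?_, ?_, ?_⟩
  · simp [SS, EAB]
  · simp [SS, EAB]; ring
  · simp [SS, EAB]
  · simp [SS, EAB, cA]; field_simp; ring
  · simp [SS, EAB, cB]; field_simp; ring

theorem vr3' {m : ℤ} {g : ℕ} (hg : g ≠ 0) :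
    VR (SS 3 ((g : ℤ) ^ 2 * m)) (EAB m (-16 * m)) g (-5 * g ^ 2 * m) 0 0 := by
  have hg0 : (g : ℚ) ≠ 0 := by exact_mod_cast hg
  refine ⟨by positivity, ?_, ?_, ?_, ?_, ?_⟩
  · simp [SS, EAB]
  · simp [SS, EAB]; ring
  · simp [SS, EAB]
  · simp [SS, EAB, cA]; ring
  · simp [SS, EAB, cA, cB]; ring

theorem SS_D (j : Fin 4) {k : ℤ} (hk : k ≠ 0) : (SS j k).Δ ≠ 0 := by
  have e : (SS j k).Δ = 16 * ((-4 * (cA j * k ^ 2) ^ 3 - 27 * (cB j * k ^ 3) ^ 2 : ℤ) : ℚ) := by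
    simp only [WeierstrassCurve.Δ, WeierstrassCurve.b₂, WeierstrassCurve.b₄, WeierstrassCurve.b₆,
      WeierstrassCurve.b₈]
    push_cast
    ring
  rw [e]
  exact mul_ne_zero (by norm_num) (by exact_mod_cast disc_ne j hk)

/-- the criterion for the curves with full `2`-torsion -/
theorem finSha3 (P : Parts) {m : ℤ} (hm : Squarefree m) {g : ℕ} (hg : g ≠ 0) :
    FinSha (SS 3 ((g : ℤ) ^ 2 * m)) ↔ Sys m := by
  have hk : (g : ℤ) ^ 2 * m ≠ 0 :=
    mul_ne_zero (pow_ne_zero 2 (by exact_mod_cast hg)) hm.ne_zero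
  rw [finSha_iff' (vr3 hg) (vr3' hg) (delta_EAB hm.ne_zero) (SS_D 3 hk)]
  exact sha_iff P hm

theorem vrI (j : Fin 3) {m : ℤ} {g : ℕ} (hg : g ≠ 0) : ∃ u r : ℚ,
    VR (IAB (pA j m) (pB j m)) (SS (Fin.castSucc j) ((g : ℤ) ^ 2 * m)) u r 0 0 := by
  have hg0 : (g : ℚ) ≠ 0 := by exact_mod_cast hg
  have h3 : ∀ j : Fin 3, j = 0 ∨ j = 1 ∨ j = 2 := by decide
  rcases h3 j with rfl | rfl | rfl
  · refine ⟨1 / g, -10 * m, by positivity, ?_, ?_, ?_, ?_, ?_⟩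
    · simp [IAB, pA, pB]
    · simp [IAB, pA, pB]; ring
    · simp [IAB, pA, pB]
    · simp [IAB, pA, pB, cA]; field_simp; ring
    · simp [IAB, pA, pB, cB]; field_simp; ring
  · refine ⟨2 / g, -12 * m, by positivity, ?_, ?_, ?_, ?_, ?_⟩
    · simp [IAB, pA, pB]
    · simp [IAB, pA, pB]; ring
    · simp [IAB, pA, pB]
    · simp [IAB, pA, pB, cA]; field_simp; ring
    · simp [IAB, pA, pB, cB]; field_simp; ring
  · refine ⟨1 / g, 22 * m, by positivity, ?_, ?_, ?_, ?_, ?_⟩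
    · simp [IAB, pA, pB]
    · simp [IAB, pA, pB]; ring
    · simp [IAB, pA, pB]
    · simp [IAB, pA, pB, cA]; field_simp; ring
    · simp [IAB, pA, pB, cB]; field_simp; ring

theorem fin_pts (P : Parts) (h : IParts) (j : Fin 4) {m : ℤ} (hm : Squarefree m) (hS : Sys m)
    {g : ℕ} (hg : g ≠ 0) : Finite (SS j ((g : ℤ) ^ 2 * m)).toAffine.Point := by
  have hk : (g : ℤ) ^ 2 * m ≠ 0 :=
    mul_ne_zero (pow_ne_zero 2 (by exact_mod_cast hg)) hm.ne_zero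
  rcases fin4 j with rfl | ⟨i, rfl⟩
  · exact ((finSha3 P hm hg).2 hS).1
  · obtain ⟨hf, hs⟩ := (sha_iff P hm).2 hS
    have hm0 := hm.ne_zero
    obtain ⟨-, u2, r2, s2, t2, v2⟩ := QAVR.t_AVR i m
    have hD2 : (EAB (pA i m) (pB i m)).Δ ≠ 0 := QASHA.vr_ne v2 (delta_EAB hm0)
    have hfin : Finite (EAB (pA i m) (pB i m)).toAffine.Point :=
      Finite.of_equiv _ (v2.equiv hD2).toEquiv.symm
    have hs2 : ∀ x : Sha (EAB (pA i m) (pB i m)), 2 • x = 0 → x = 0 := fun x hx =>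
      Pool.Agent.Y700.sha_two_pow v2 hD2 hs 1 x (by rw [pow_one]; exact hx)
    obtain ⟨hfI, -⟩ := h.iabs1 (pA i m) (pB i m) (QASHA.pA_ne hm0) (QASHA.pB_ne hm0)
      (QASHA.pAB_ne hm0) hfin hs2
    obtain ⟨u, r, v⟩ := vrI i (m := m) hg
    exact Finite.of_equiv _ (v.equiv (SS_D _ hk)).toEquiv.symm

/-! ### all the equations with a given j-invariant -/

theorem cA_ne (j : Fin 4) : cA j ≠ 0 := by fin_cases j <;> norm_num [cA]

theorem cB_ne (j : Fin 4) : cB j ≠ 0 := by fin_cases j <;> norm_num [cB]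

theorem cA_sqf (j : Fin 4) {v : ℤ} (h : v ^ 2 ∣ cA j) : IsUnit v := by
  have h1 : v ^ 2 ≤ 1451 := by
    have h2 := Int.le_of_dvd (b := |cA j|) (by fin_cases j <;> norm_num [cA]) ((dvd_abs _ _).2 h)
    refine h2.trans ?_
    fin_cases j <;> norm_num [cA]
  have h3 : |v| ≤ 38 := by
    by_contra hc
    push Not at hc
    have : |v| ^ 2 = v ^ 2 := sq_abs v
    nlinarith
  rw [abs_le] at h3
  obtain ⟨h4, h5⟩ := h3
  rw [Int.isUnit_iff]
  revert h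
  fin_cases j
  all_goals
    interval_cases v <;> simp [cA] <;> decide

/-- the integral equations with the j-invariant of the `j`-th curve -/
theorem k_of_j (j : Fin 4) {a b : ℤ} (hD : 4 * a ^ 3 + 27 * b ^ 2 ≠ 0)
    (h : a ^ 3 * cB j ^ 2 = cA j ^ 3 * b ^ 2) :
    ∃ k : ℤ, k ≠ 0 ∧ a = cA j * k ^ 2 ∧ b = cB j * k ^ 3 := by
  have hA := cA_ne j
  have hB := cB_ne j
  have ha : a ≠ 0 := by
    rintro rfl
    have h1 : cA j ^ 3 * b ^ 2 = 0 := by rw [← h]; ring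
    have h2 := (mul_eq_zero.1 h1).resolve_left (pow_ne_zero 3 hA)
    apply hD
    rw [h2]
    ring
  have hb : b ≠ 0 := by
    rintro rfl
    have h1 : a ^ 3 * cB j ^ 2 = 0 := by rw [h]; ring
    exact ha (pow_eq_zero_iff (by norm_num) |>.1 ((mul_eq_zero.1 h1).resolve_right (pow_ne_zero 2 hB)))
  have hA' : (cA j : ℚ) ≠ 0 := by exact_mod_cast hA
  have hB' : (cB j : ℚ) ≠ 0 := by exact_mod_cast hB
  have ha' : (a : ℚ) ≠ 0 := by exact_mod_cast ha
  have hb' : (b : ℚ) ≠ 0 := by exact_mod_cast hb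
  have h' : (a : ℚ) ^ 3 * cB j ^ 2 = cA j ^ 3 * b ^ 2 := by exact_mod_cast h
  set κ : ℚ := b * cA j / (a * cB j) with hκ
  have k1 : (a : ℚ) = cA j * κ ^ 2 := by
    rw [hκ]
    field_simp
    linear_combination h'
  have k2 : (b : ℚ) = cB j * κ ^ 3 := by
    have : (b : ℚ) * cA j = κ * (a * cB j) := by
      rw [hκ]
      field_simp
    have h3 : (b : ℚ) * cA j = cB j * κ ^ 3 * cA j := by
      rw [this]
      nth_rewrite 1 [k1]
      ring
    exact mul_right_cancel₀ hA' h3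
  have hκ0 : κ ≠ 0 := by
    rw [hκ]
    positivity
  have hden : (κ.den : ℤ) ^ 2 ∣ cA j := by
    have h3 : (a : ℚ) * κ.den ^ 2 = cA j * κ.num ^ 2 := by
      rw [k1]
      have : (κ.num : ℚ) = κ * κ.den := (Rat.mul_den_eq_num κ).symm
      rw [this]
      ring
    have h4 : a * (κ.den : ℤ) ^ 2 = cA j * κ.num ^ 2 := by exact_mod_cast h3
    have h5 : IsCoprime ((κ.den : ℤ) ^ 2) (κ.num ^ 2) := by
      refine IsCoprime.pow ?_
      rw [Int.isCoprime_iff_gcd_eq_one, Int.gcd_comm]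
      exact κ.reduced
    exact h5.dvd_of_dvd_mul_right (Dvd.intro_left a h4)
  have hone : κ.den = 1 := by
    have h3 := cA_sqf j hden
    have h4 := Int.isUnit_iff.1 h3
    have := κ.den_pos
    omega
  have hκk : κ = (κ.num : ℚ) := by
    rw [← Rat.mul_den_eq_num κ, hone]
    simp
  refine ⟨κ.num, Rat.num_ne_zero.2 hκ0, ?_, ?_⟩
  · have h3 : (a : ℚ) = cA j * (κ.num : ℚ) ^ 2 := by rw [← hκk]; exact k1
    exact_mod_cast h3
  · have h3 : (b : ℚ) = cB j * (κ.num : ℚ) ^ 3 := by rw [← hκk]; exact k2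
    exact_mod_cast h3

/-- every nonzero integer is `g² m`, `m` squarefree -/
theorem split_k {k : ℤ} (hk : k ≠ 0) : ∃ (g : ℕ) (m : ℤ), g ≠ 0 ∧ Squarefree m ∧
    k = (g : ℤ) ^ 2 * m := by
  obtain ⟨a, b, -, -, h, hs⟩ := Nat.sq_mul_squarefree_of_pos (Int.natAbs_pos.2 hk)
  refine ⟨b, k.sign * a, ?_, ?_, ?_⟩
  · rintro rfl
    rw [zero_pow two_ne_zero, zero_mul] at h
    exact hk (Int.natAbs_eq_zero.1 h.symm)
  · rw [← Int.squarefree_natAbs, Int.natAbs_mul, Int.natAbs_sign_of_ne_zero hk, one_mul,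
      Int.natAbs_natCast]
    exact hs
  · have h1 : k.sign * (k.natAbs : ℤ) = k := Int.sign_mul_natAbs k
    have h2 : (k.natAbs : ℤ) = (b : ℤ) ^ 2 * a := by exact_mod_cast h.symm
    calc k = k.sign * (k.natAbs : ℤ) := h1.symm
      _ = k.sign * ((b : ℤ) ^ 2 * a) := by rw [h2]
      _ = _ := by ring

end Pool.Agent.H743.X17.RK
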