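import Pool.Agent.H743.X17.Stm

/-!
# X17 PARITY: root number -1: the system always has a nontrivial solution
-/

set_option autoImplicit false

open scoped Classical

namespace Pool.Agent.H743.X17.QPARITY

open Pool.Agent.H743.X17

/-! ### the key lemma -/

theorem two_cases (a : ZMod 2) : a = 0 ∨ a = 1 := by
  revert a
  decide

theorem add_self (a : ZMod 2) : a + a = 0 := by
  revert a
  decide

theorem mul_self' (a : ZMod 2) : a * a = a := by
  revert a
  decide

theorem eq_of_add (a b : ZMod 2) (h : a + b = 0) : a = b := by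
  revert a b
  decide

/-- an alternating matrix of odd size over `F_2` is singular -/
theorem det_alt {ι : Type} [Fintype ι] [DecidableEq ι] (N : Matrix ι ι (ZMod 2))
    (hs : ∀ i j, N i j = N j i) (hd : ∀ i, N i i = 0) (hodd : Odd (Fintype.card ι)) :
    N.det = 0 := by
  classical
  let e := Fintype.equivFin ι
  let A : Matrix ι ι ℤ := fun i j =>
    if e i < e j then ((N i j).val : ℤ) else if e j < e i then -((N i j).val : ℤ) else 0
  have hA : A.transpose = -A := by
    ext i j
    simp only [A, Matrix.transpose_apply, Matrix.neg_apply]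
    rcases lt_trichotomy (e i) (e j) with h | h | h
    · rw [if_neg (lt_asymm h), if_pos h, if_pos h, hs j i]
    · rw [h, if_neg (lt_irrefl _), if_neg (lt_irrefl _)]
      simp
    · rw [if_pos h, if_neg (lt_asymm h), if_pos h, hs j i, neg_neg]
  have hdet : A.det = 0 := by
    have h1 : A.det = -A.det := by
      conv_lhs => rw [← Matrix.det_transpose, hA, Matrix.det_neg]
      rw [hodd.neg_one_pow]
      ring
    omega
  have hmap : N = A.map (Int.castRingHom (ZMod 2)) := by
    ext i j
    simp only [A, Matrix.map_apply]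
    rcases lt_trichotomy (e i) (e j) with h | h | h
    · rw [if_pos h]
      simp
    · rw [h, if_neg (lt_irrefl _), if_neg (lt_irrefl _)]
      rw [e.injective h, hd]
      simp
    · rw [if_neg (lt_asymm h), if_pos h]
      have : ∀ a : ZMod 2, a = (Int.castRingHom (ZMod 2)) (-(a.val : ℤ)) := by decide
      exact this _
  rw [hmap, ← RingHom.mapMatrix_apply, ← RingHom.map_det, hdet, map_zero]

theorem KL_odd {ι : Type} [Fintype ι] [DecidableEq ι] (M : Matrix ι ι (ZMod 2))
    (hs : ∀ i j, M i j = M j i) (hinj : ∀ v, M.mulVec v = 0 → v = 0) (c : ι → ZMod 2)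
    (hc : M.mulVec c = M.diag) (hodd : Odd (Fintype.card ι)) : M.diag ⬝ᵥ c = 1 := by
  set d := M.diag with hd
  let N : Matrix ι ι (ZMod 2) := M + Matrix.vecMulVec d d
  have hN : N.det = 0 := by
    refine det_alt N (fun i j => ?_) (fun i => ?_) hodd
    · simp only [N, Matrix.add_apply, Matrix.vecMulVec_apply, hs i j, mul_comm]
    · simp only [N, Matrix.add_apply, Matrix.vecMulVec_apply]
      rw [mul_self']
      exact add_self _
  obtain ⟨v, hv0, hv⟩ := Matrix.exists_mulVec_eq_zero_iff.2 hN
  have h1 : M.mulVec v + (d ⬝ᵥ v) • d = 0 := by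
    rw [← hv]
    simp only [N, Matrix.add_mulVec]
    congr 1
    ext i
    simp only [Matrix.mulVec, dotProduct, Matrix.vecMulVec_apply, Pi.smul_apply, smul_eq_mul,
      Finset.sum_mul]
    exact Finset.sum_congr rfl fun j _ => by ring
  rcases two_cases (d ⬝ᵥ v) with h | h
  · rw [h, zero_smul, add_zero] at h1
    exact absurd (hinj v h1) hv0
  · rw [h, one_smul] at h1
    have h2 : M.mulVec (v - c) = 0 := by
      rw [Matrix.mulVec_sub, hc]
      ext i
      have h3 := congrFun h1 i
      simp only [Pi.add_apply, Pi.zero_apply] at h3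
      simp only [Pi.sub_apply, Pi.zero_apply]
      rw [sub_eq_zero]
      exact eq_of_add _ _ h3
    have h4 := sub_eq_zero.1 (hinj _ h2)
    rw [← h4]
    exact h

theorem KL {ι : Type} [Fintype ι] [DecidableEq ι] (M : Matrix ι ι (ZMod 2))
    (hs : ∀ i j, M i j = M j i) (hinj : ∀ v, M.mulVec v = 0 → v = 0) (c : ι → ZMod 2)
    (hc : M.mulVec c = M.diag) : M.diag ⬝ᵥ c = (Fintype.card ι : ZMod 2) := by
  rcases Nat.even_or_odd (Fintype.card ι) with h | h
  · -- add one diagonal entry
    let M' : Matrix (ι ⊕ Unit) (ι ⊕ Unit) (ZMod 2) := Matrix.fromBlocks M 0 0 1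
    have h1 := KL_odd M' (by
        rintro (i | i) (j | j)
        · exact hs i j
        · rfl
        · rfl
        · rfl)
      (fun v hv => by
        have e1 : M.mulVec (v ∘ Sum.inl) = 0 := by
          ext i
          have := congrFun hv (Sum.inl i)
          simpa [M', Matrix.mulVec, dotProduct] using this
        have e2 := hinj _ e1
        ext (i | i)
        · exact congrFun e2 i
        · have := congrFun hv (Sum.inr i)
          simpa [M', Matrix.mulVec, dotProduct] using this)
      (Sum.elim c (fun _ => 1)) (by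
        ext (i | i)
        · have := congrFun hc i
          simpa [M', Matrix.mulVec, dotProduct] using this
        · simp [M', Matrix.mulVec, dotProduct])
      (by
        rw [Fintype.card_sum, Fintype.card_unit]
        exact h.add_one)
    have h2 : M'.diag ⬝ᵥ (Sum.elim c (fun _ => 1)) = M.diag ⬝ᵥ c + 1 := by
      simp [M', dotProduct]
    rw [h2] at h1
    have h3 : M.diag ⬝ᵥ c = 0 := by
      have : ∀ a : ZMod 2, a + 1 = 1 → a = 0 := by decide
      exact this _ h1
    rw [h3]
    exact ((ZMod.natCast_eq_zero_iff_even).2 h).symm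
  · rw [KL_odd M hs hinj c hc h]
    exact ((ZMod.natCast_eq_one_iff_odd).2 h).symm

/-! ### the key lemma for systems indexed by a finite set of natural numbers -/

theorem KLS (S : Finset ℕ) (nu al : ℕ → ZMod 2) (L : ℕ → ℕ → ZMod 2)
    (hsys : ∀ x y : ℕ → ZMod 2, x 17 = 0 →
      (∀ p ∈ S.erase 17, nu p * x p + ∑ q ∈ S, L p q * y q = 0) →
      (∀ q ∈ S, ∑ p ∈ S, L p q * x p + al q * y q = 0) → ∀ p ∈ S, x p = 0 ∧ y p = 0)
    (c d : ℕ → ZMod 2) (hc : c 17 = 0)
    (h1 : ∀ p ∈ S.erase 17, nu p * c p + ∑ q ∈ S, L p q * d q = nu p)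
    (h2 : ∀ q ∈ S, ∑ p ∈ S, L p q * c p + al q * d q = al q) :
    ∑ p ∈ S, nu p * c p + ∑ q ∈ S, al q * d q = (((S.erase 17).card + S.card : ℕ) : ZMod 2) := by
  let M : Matrix (↥(S.erase 17) ⊕ ↥S) (↥(S.erase 17) ⊕ ↥S) (ZMod 2) :=
    Matrix.fromBlocks (Matrix.diagonal fun p => nu p.1) (Matrix.of fun p q => L p.1 q.1)
      (Matrix.of fun q p => L p.1 q.1) (Matrix.diagonal fun q => al q.1)
  -- sums without 17
  have hsum : ∀ (f c : ℕ → ZMod 2), c 17 = 0 → ∑ p ∈ S.erase 17, f p * c p = ∑ p ∈ S, f p * c p := by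
    intro f c hc
    by_cases h17 : 17 ∈ S
    · rw [← Finset.add_sum_erase S _ h17, hc, mul_zero, zero_add]
    · rw [Finset.erase_eq_of_notMem h17]
  have hrow1 : ∀ (x y : ℕ → ZMod 2) (p : ↥(S.erase 17)),
      M.mulVec (Sum.elim (fun p => x p.1) (fun q => y q.1)) (Sum.inl p) =
        nu p.1 * x p.1 + ∑ q ∈ S, L p.1 q * y q := by
    intro x y p
    simp only [M, Matrix.mulVec, dotProduct, Fintype.sum_sum_type, Matrix.fromBlocks_apply₁₁,
      Matrix.fromBlocks_apply₁₂, Sum.elim_inl, Sum.elim_inr, Matrix.of_apply]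
    congr 1
    · rw [Finset.sum_eq_single p]
      · rw [Matrix.diagonal_apply_eq]
      · intro b _ hb
        rw [Matrix.diagonal_apply_ne _ hb.symm, zero_mul]
      · intro h
        exact absurd (Finset.mem_univ _) h
    · rw [← Finset.sum_coe_sort S (fun q => L p.1 q * y q)]
  have hrow2 : ∀ (x y : ℕ → ZMod 2) (q : ↥S), x 17 = 0 →
      M.mulVec (Sum.elim (fun p => x p.1) (fun q => y q.1)) (Sum.inr q) =
        ∑ p ∈ S, L p q.1 * x p + al q.1 * y q.1 := by
    intro x y q hx
    simp only [M, Matrix.mulVec, dotProduct, Fintype.sum_sum_type, Matrix.fromBlocks_apply₂₁,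
      Matrix.fromBlocks_apply₂₂, Sum.elim_inl, Sum.elim_inr, Matrix.of_apply]
    congr 1
    · rw [← hsum (fun p => L p q.1) x hx,
        ← Finset.sum_coe_sort (S.erase 17) (fun p => L p q.1 * x p)]
    · rw [Finset.sum_eq_single q]
      · rw [Matrix.diagonal_apply_eq]
      · intro b _ hb
        rw [Matrix.diagonal_apply_ne _ hb.symm, zero_mul]
      · intro h
        exact absurd (Finset.mem_univ _) h
  have hdiag : M.diag = Sum.elim (fun p => nu p.1) (fun q => al q.1) := by
    ext (i | i)
    · simp [M]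
    · simp [M]
  have key := KL M (by
      rintro (i | i) (j | j)
      · simp only [M, Matrix.fromBlocks_apply₁₁]
        rw [← Matrix.diagonal_transpose, Matrix.transpose_apply, Matrix.diagonal_transpose]
      · rfl
      · rfl
      · simp only [M, Matrix.fromBlocks_apply₂₂]
        rw [← Matrix.diagonal_transpose, Matrix.transpose_apply, Matrix.diagonal_transpose])
    (by
      intro v hv
      let x : ℕ → ZMod 2 := fun p => if h : p ∈ S.erase 17 then v (Sum.inl ⟨p, h⟩) else 0
      let y : ℕ → ZMod 2 := fun p => if h : p ∈ S then v (Sum.inr ⟨p, h⟩) else 0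
      have hvxy : v = Sum.elim (fun p => x p.1) (fun q => y q.1) := by
        ext (i | i)
        · simp only [Sum.elim_inl, x]
          rw [dif_pos i.2]
        · simp only [Sum.elim_inr, y]
          rw [dif_pos i.2]
      have hx : x 17 = 0 := by
        simp only [x]
        rw [dif_neg (Finset.notMem_erase _ _)]
      have h := hsys x y hx (fun p hp => by
          rw [← hrow1 x y ⟨p, hp⟩, ← hvxy, hv]
          rfl) (fun q hq => by
          rw [← hrow2 x y ⟨q, hq⟩ hx, ← hvxy, hv]
          rfl)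
      rw [hvxy]
      ext (i | i)
      · exact (h i.1 (Finset.mem_of_mem_erase i.2)).1
      · exact (h i.1 i.2).2)
    (Sum.elim (fun p => c p.1) (fun q => d q.1)) (by
      rw [hdiag]
      ext (i | i)
      · rw [hrow1 c d i, h1 i.1 i.2]
        rfl
      · rw [hrow2 c d i hc, h2 i.1 i.2]
        rfl)
  rw [hdiag] at key
  rw [Fintype.card_sum, Fintype.card_coe, Fintype.card_coe] at key
  rw [← key]
  simp only [dotProduct, Fintype.sum_sum_type, Sum.elim_inl, Sum.elim_inr]
  congr 1
  · rw [← hsum nu c hc, ← Finset.sum_coe_sort (S.erase 17) (fun p => nu p * c p)]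
  · rw [← Finset.sum_coe_sort S (fun p => al p * d p)]

/-! ### symbols -/

/-- additive Jacobi symbol -/
def jj (a : ℤ) (p : ℕ) : ZMod 2 := if jacobiSym a p = 1 then 0 else 1

/-- additive character modulo 4 -/
def ee (p : ℕ) : ZMod 2 := if p % 4 = 3 then 1 else 0

theorem jj_mul {a b : ℤ} {p : ℕ} (ha : Int.gcd a p = 1) (hb : Int.gcd b p = 1) :
    jj (a * b) p = jj a p + jj b p := by
  unfold jj
  rw [jacobiSym.mul_left]
  rcases jacobiSym.eq_one_or_neg_one ha with h | h <;>
  rcases jacobiSym.eq_one_or_neg_one hb with h' | h' <;> rw [h, h'] <;> decide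

theorem ee_mul {a b : ℕ} (ha : a % 2 = 1) (hb : b % 2 = 1) : ee (a * b) = ee a + ee b := by
  unfold ee
  have h1 : a % 4 = 1 ∨ a % 4 = 3 := by omega
  have h2 : b % 4 = 1 ∨ b % 4 = 3 := by omega
  rw [Nat.mul_mod]
  rcases h1 with h1 | h1 <;> rcases h2 with h2 | h2 <;> rw [h1, h2] <;> decide

theorem ee_prod (T : Finset ℕ) (hT : ∀ p ∈ T, p % 2 = 1) : ee (∏ p ∈ T, p) = ∑ p ∈ T, ee p := by
  have key : (∏ p ∈ T, p) % 2 = 1 ∧ ee (∏ p ∈ T, p) = ∑ p ∈ T, ee p := by
    induction T using Finset.induction_on with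
    | empty => exact ⟨by simp, by simp [ee]⟩
    | insert a s ha ih =>
      obtain ⟨i1, i2⟩ := ih fun p hp => hT p (Finset.mem_insert_of_mem hp)
      have ha' := hT a (Finset.mem_insert_self _ _)
      rw [Finset.prod_insert ha, Finset.sum_insert ha, ee_mul ha' i1, i2]
      exact ⟨by rw [Nat.mul_mod, ha', i1], rfl⟩
  exact key.2

theorem jj_prod (T : Finset ℕ) (hT : ∀ p ∈ T, Int.gcd p 17 = 1) :
    jj ((∏ p ∈ T, p : ℕ) : ℤ) 17 = ∑ p ∈ T, jj p 17 := by
  have key : Int.gcd ((∏ p ∈ T, p : ℕ) : ℤ) 17 = 1 ∧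
      jj ((∏ p ∈ T, p : ℕ) : ℤ) 17 = ∑ p ∈ T, jj p 17 := by
    induction T using Finset.induction_on with
    | empty => exact ⟨by simp, by simp [jj]⟩
    | insert a s ha ih =>
      obtain ⟨i1, i2⟩ := ih fun p hp => hT p (Finset.mem_insert_of_mem hp)
      have ha' := hT a (Finset.mem_insert_self _ _)
      rw [Finset.prod_insert ha, Finset.sum_insert ha]
      push_cast at i1 i2 ⊢
      refine ⟨?_, ?_⟩
      · rw [← Int.isCoprime_iff_gcd_eq_one] at *
        exact IsCoprime.mul_left ha' i1
      · rw [jj_mul ha' i1, i2]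
  exact key.2

/-- reciprocity for the prime discriminants -/
theorem jac_pd {p q : ℕ} (hp : p % 2 = 1) (hq : q % 2 = 1) (m : ℤ) (hq2 : q ≠ 2) :
    jacobiSym (pd m q) p = jacobiSym p q := by
  have hpo : Odd p := Nat.odd_iff.2 hp
  have hqo : Odd q := Nat.odd_iff.2 hq
  unfold pd
  rw [if_neg hq2]
  rcases (by omega : q % 4 = 1 ∨ q % 4 = 3) with h | h
  · rw [if_pos h]
    exact jacobiSym.quadratic_reciprocity_one_mod_four h hpo
  · rw [if_neg (by omega)]
    rcases (by omega : p % 4 = 1 ∨ p % 4 = 3) with h' | h'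
    · rw [jacobiSym.neg _ hpo, ZMod.χ₄_nat_one_mod_four h', one_mul]
      exact (jacobiSym.quadratic_reciprocity_one_mod_four h' hqo).symm
    · rw [jacobiSym.neg _ hpo, ZMod.χ₄_nat_three_mod_four h',
        jacobiSym.quadratic_reciprocity_three_mod_four h h']
      ring

theorem jj_neg_one {p : ℕ} (hp : p % 2 = 1) : jj (-1) p = ee p := by
  unfold jj ee
  rw [jacobiSym.at_neg_one (Nat.odd_iff.2 hp)]
  rcases (by omega : p % 4 = 1 ∨ p % 4 = 3) with h | h
  · rw [ZMod.χ₄_nat_one_mod_four h, if_pos rfl, if_neg (by omega)]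
  · rw [ZMod.χ₄_nat_three_mod_four h, if_neg (by decide), if_pos h]

theorem gcd_neg_one (p : ℕ) : Int.gcd (-1) p = 1 := by simp

theorem gcd_two {p : ℕ} (hp : p % 2 = 1) : Int.gcd 2 p = 1 := by
  have h : Nat.Coprime 2 p := by
    rw [Nat.coprime_two_left]
    exact Nat.odd_iff.2 hp
  exact_mod_cast h

theorem jj_two {p : ℕ} (hp : p % 2 = 1) : jj 2 p = if p % 8 = 1 ∨ p % 8 = 7 then 0 else 1 := by
  unfold jj
  have h1 : jacobiSym 2 p = if p % 8 = 1 ∨ p % 8 = 7 then 1 else -1 := by
    rw [jacobiSym.at_two (Nat.odd_iff.2 hp), ZMod.χ₈_nat_eq_if_mod_eight, if_neg (by omega)]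
  rw [h1]
  by_cases h : p % 8 = 1 ∨ p % 8 = 7
  · rw [if_pos h, if_pos h, if_pos rfl]
  · rw [if_neg h, if_neg h, if_neg (by decide)]

theorem jj_sq_mul {a : ℤ} {p : ℕ} (hp : p % 2 = 1) : jj (4 * a) p = jj a p := by
  unfold jj
  have h : (4 * a : ℤ) = a * 2 ^ 2 := by ring
  rw [h, jacobiSym.mul_left, jacobiSym.sq_one' (gcd_two hp), mul_one]


theorem rec_jj {p q : ℕ} (hp : p % 2 = 1) (hq : q % 2 = 1) (hpq : Nat.Coprime p q) :
    jj p q + jj q p = ee p * ee q := by
  have g1 : Int.gcd (p : ℤ) q = 1 := by exact_mod_cast hpq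
  have g2 : Int.gcd (q : ℤ) p = 1 := by exact_mod_cast hpq.symm
  unfold jj ee
  rcases (by omega : p % 4 = 1 ∨ p % 4 = 3) with h | h
  · rw [jacobiSym.quadratic_reciprocity_one_mod_four h (Nat.odd_iff.2 hq),
      if_neg (show ¬ p % 4 = 3 by omega), zero_mul]
    exact add_self _
  · rcases (by omega : q % 4 = 1 ∨ q % 4 = 3) with h' | h'
    · rw [jacobiSym.quadratic_reciprocity_one_mod_four h' (Nat.odd_iff.2 hp),
        if_neg (show ¬ q % 4 = 3 by omega), mul_zero]
      exact add_self _
    · rw [jacobiSym.quadratic_reciprocity_three_mod_four h h', if_pos h, if_pos h']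
      rcases jacobiSym.eq_one_or_neg_one g2 with e | e <;> rw [e] <;> decide

theorem al_odd (m : ℤ) {q : ℕ} (hq : q % 2 = 1) : al m q = ee q := by
  unfold al pd ee
  rw [if_neg (show q ≠ 2 by omega)]
  rcases (by omega : q % 4 = 1 ∨ q % 4 = 3) with h | h
  · rw [if_pos h, if_neg (show ¬ (q : ℤ) < 0 by omega), if_neg (by omega)]
  · rw [if_neg (show ¬ q % 4 = 1 by omega), if_pos (show -(q : ℤ) < 0 by omega), if_pos h]

theorem lS_odd (m : ℤ) {p q : ℕ} (hp : p % 2 = 1) (hq : q % 2 = 1) : lS m q p = jj p q := by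
  unfold lS jj
  rw [if_neg (show p ≠ 2 by omega), jac_pd hp hq m (by omega)]

theorem lS_odd_two (m : ℤ) {q : ℕ} (hq : q % 2 = 1) : lS m q 2 = jj 2 q := by
  rw [jj_two hq]
  unfold lS pd
  rw [if_pos rfl, if_neg (show q ≠ 2 by omega)]
  have h : ((if q % 4 = 1 then (q : ℤ) else -q) % 8 = 1 ∨ (if q % 4 = 1 then (q : ℤ) else -q) % 8 = 7)
      ↔ (q % 8 = 1 ∨ q % 8 = 7) := by
    split_ifs <;> omega
  by_cases h' : q % 8 = 1 ∨ q % 8 = 7
  · rw [if_pos (h.2 h'), if_pos h']
  · rw [if_neg (fun h1 => h' (h.1 h1)), if_neg h']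

theorem lS_two (m : ℤ) {p : ℕ} (hp : p % 2 = 1) : lS m 2 p =
    if m % 4 = 3 then ee p else if m % 8 = 2 then jj 2 p else jj 2 p + ee p := by
  have h0 : lS m 2 p = jj (pd m 2) p := by
    unfold lS jj
    rw [if_neg (show p ≠ 2 by omega)]
  rw [h0]
  unfold pd
  rw [if_pos rfl]
  split_ifs
  · rw [show (-4 : ℤ) = 4 * (-1) by norm_num, jj_sq_mul hp, jj_neg_one hp]
  · rw [show (8 : ℤ) = 4 * 2 by norm_num, jj_sq_mul hp]
  · rw [show (-8 : ℤ) = 4 * (2 * (-1)) by norm_num, jj_sq_mul hp,
      jj_mul (gcd_two hp) (gcd_neg_one p), jj_neg_one hp]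

/-! ### the ramified primes -/

/-- the odd part -/
def od (m : ℤ) : ℕ := if m % 2 = 0 then (m / 2).natAbs else m.natAbs

/-- `1` if `2` is ramified and the prime discriminant is negative -/
def tt (m : ℤ) : ZMod 2 := if m % 4 = 3 ∨ m % 8 = 6 then 1 else 0

/-- the sign -/
def ss (m : ℤ) : ZMod 2 := if m < 0 then 1 else 0

theorem mod4_ne {m : ℤ} (hm : Squarefree m) : m % 4 ≠ 0 := by
  intro h
  have h2 : (2 : ℤ) * 2 ∣ m := by omega
  have := hm 2 h2
  rw [Int.isUnit_iff] at this
  omega

theorem od_odd {m : ℤ} (hm : Squarefree m) : od m % 2 = 1 := by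
  have := mod4_ne hm
  unfold od
  split_ifs <;> omega

theorem od_sqf {m : ℤ} (hm : Squarefree m) : Squarefree (od m) := by
  have h1 : Squarefree m.natAbs := Int.squarefree_natAbs.2 hm
  have h2 : od m ∣ m.natAbs := by
    unfold od
    split_ifs with h
    · exact Int.natAbs_dvd_natAbs.2 ⟨2, by omega⟩
    · exact dvd_rfl
  exact h1.squarefree_of_dvd h2

theorem natAbs_eq {m : ℤ} (_hm : Squarefree m) (h : m % 2 = 0) : m.natAbs = 2 * od m := by
  unfold od
  rw [if_pos h]
  omega

theorem od_prime {m : ℤ} {p : ℕ} (hm : Squarefree m) (hp : p ∈ (od m).primeFactors) :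
    p.Prime ∧ p % 2 = 1 ∧ (p : ℤ) ∣ m := by
  have hpp := Nat.prime_of_mem_primeFactors hp
  have hd := Nat.dvd_of_mem_primeFactors hp
  refine ⟨hpp, ?_, ?_⟩
  · rcases Nat.even_or_odd p with h | h
    · exfalso
      have h2 : 2 ∣ od m := (even_iff_two_dvd.1 h).trans hd
      have := od_odd hm
      omega
    · exact Nat.odd_iff.1 h
  · rw [← Int.dvd_natAbs]
    have h2 : od m ∣ m.natAbs := by
      by_cases h : m % 2 = 0
      · rw [natAbs_eq hm h]
        exact Dvd.intro_left 2 rfl
      · unfold od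
        rw [if_neg h]
    exact_mod_cast hd.trans h2

theorem RS_eq {m : ℤ} (hm : Squarefree m) :
    RS m = if m % 4 = 1 then (od m).primeFactors else insert 2 (od m).primeFactors := by
  have h0 := mod4_ne hm
  have hn : od m ≠ 0 := by
    have := od_odd hm
    omega
  unfold RS Kn
  split_ifs with h
  · unfold od
    rw [if_neg (by omega)]
  · by_cases h2 : m % 2 = 0
    · rw [natAbs_eq hm h2, ← mul_assoc, Nat.primeFactors_mul (by norm_num) hn]
      rw [show (4 * 2 : ℕ) = 2 ^ 3 by norm_num, Nat.primeFactors_prime_pow (by norm_num) Nat.prime_two]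
      rfl
    · have h3 : m.natAbs = od m := by
        unfold od
        rw [if_neg h2]
      rw [h3, Nat.primeFactors_mul (by norm_num) hn]
      rw [show (4 : ℕ) = 2 ^ 2 by norm_num, Nat.primeFactors_prime_pow (by norm_num) Nat.prime_two]
      rfl

theorem ee_od {m : ℤ} (hm : Squarefree m) : ee (od m) + tt m = ss m := by
  have h0 := mod4_ne hm
  have h1 : ee (od m) = if od m % 4 = 3 then 1 else 0 := rfl
  rw [h1]
  unfold tt ss od
  have hm8 : m % 8 = 1 ∨ m % 8 = 2 ∨ m % 8 = 3 ∨ m % 8 = 5 ∨ m % 8 = 6 ∨ m % 8 = 7 := by omega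
  have hdec1 : (1 : ZMod 2) + 1 = 0 := by decide
  split_ifs <;> first | omega | exact hdec1 | simp

theorem ee_sum {m : ℤ} (hm : Squarefree m) : ∑ p ∈ (od m).primeFactors, ee p = ee (od m) := by
  rw [← ee_prod _ (fun p hp => (od_prime hm hp).2.1),
    Nat.prod_primeFactors_of_squarefree (od_sqf hm)]

theorem al_two (m : ℤ) (h0 : m % 4 ≠ 0) (h : m % 4 ≠ 1) : al m 2 = tt m := by
  unfold al pd tt
  rw [if_pos rfl]
  split_ifs <;> first | rfl | omega

theorem two_notMem {m : ℤ} (hm : Squarefree m) : 2 ∉ (od m).primeFactors := by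
  intro h
  have := (od_prime hm h).2.1
  omega

theorem al_sum {m : ℤ} (hm : Squarefree m) : ∑ q ∈ RS m, al m q = ss m := by
  have h1 : ∑ q ∈ (od m).primeFactors, al m q = ee (od m) := by
    rw [← ee_sum hm]
    exact Finset.sum_congr rfl fun q hq => al_odd m (od_prime hm hq).2.1
  rw [RS_eq hm]
  split_ifs with h
  · rw [h1, ← ee_od hm]
    unfold tt
    rw [if_neg (by omega), add_zero]
  · rw [Finset.sum_insert (two_notMem hm), h1, al_two m (mod4_ne hm) h, add_comm, ee_od hm]

/-- row sums -/
theorem row_sum (m : ℤ) {p : ℕ} (hp : p ∈ RS m) : ∑ q ∈ RS m, LL m p q = 0 := by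
  rw [← Finset.add_sum_erase _ _ hp]
  have h1 : LL m p p = ∑ r ∈ (RS m).erase p, lS m r p := by
    unfold LL
    rw [if_pos rfl]
  have h2 : ∑ q ∈ (RS m).erase p, LL m p q = ∑ r ∈ (RS m).erase p, lS m r p :=
    Finset.sum_congr rfl fun q hq => by
      unfold LL
      rw [if_neg (Finset.ne_of_mem_erase hq).symm]
  rw [h1, h2]
  exact add_self _

theorem core_sum {m : ℤ} (hm : Squarefree m) {q : ℕ} (hq : q ∈ (od m).primeFactors) :
    ∑ p ∈ (od m).primeFactors.erase q, lS m q p + ∑ p ∈ (od m).primeFactors.erase q, lS m p q =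
      ee q * (ee (od m) + 1) := by
  obtain ⟨hq1, hq2, -⟩ := od_prime hm hq
  rw [← Finset.sum_add_distrib]
  have h1 : ∑ p ∈ (od m).primeFactors.erase q, (lS m q p + lS m p q) =
      ∑ p ∈ (od m).primeFactors.erase q, ee q * ee p := by
    refine Finset.sum_congr rfl fun p hp => ?_
    obtain ⟨hp1, hp2, -⟩ := od_prime hm (Finset.mem_of_mem_erase hp)
    rw [lS_odd m hp2 hq2, lS_odd m hq2 hp2,
      rec_jj hp2 hq2 ((Nat.coprime_primes hp1 hq1).2 (Finset.ne_of_mem_erase hp)), mul_comm]
  rw [h1, ← Finset.mul_sum]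
  have h2 : ee q + ∑ p ∈ (od m).primeFactors.erase q, ee p = ee (od m) := by
    rw [Finset.add_sum_erase _ _ hq, ee_sum hm]
  have h3 : ∑ p ∈ (od m).primeFactors.erase q, ee p = ee (od m) + ee q := by
    rw [← h2, add_right_comm, add_self, zero_add]
  rw [h3, mul_add, mul_add, mul_self', mul_one]

/-- column sums -/
theorem col_sum {m : ℤ} (hm : Squarefree m) {q : ℕ} (hq : q ∈ RS m) :
    ∑ p ∈ RS m, LL m p q * (if (p : ℤ) ∣ m then 1 else 0) = al m q * (1 + ss m) := by
  have h0 := mod4_ne hm
  have hRS := RS_eq hm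
  have h2n := two_notMem hm
  have hO : ∀ f : ℕ → ZMod 2, ∑ p ∈ (od m).primeFactors, f p * (if (p : ℤ) ∣ m then 1 else 0) =
      ∑ p ∈ (od m).primeFactors, f p := fun f =>
    Finset.sum_congr rfl fun p hp => by rw [if_pos (od_prime hm hp).2.2, mul_one]
  have hLL : ∀ p, LL m p p = ∑ r ∈ (RS m).erase p, lS m r p := fun p => by
    unfold LL
    rw [if_pos rfl]
  have hLn : ∀ p q, p ≠ q → LL m p q = lS m q p := fun p q h => by
    unfold LL
    rw [if_neg h]
  have hcore : ∀ q ∈ (od m).primeFactors, ∑ p ∈ (od m).primeFactors, LL m p q =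
      ∑ r ∈ (RS m).erase q, lS m r q + ∑ p ∈ (od m).primeFactors.erase q, lS m q p := by
    intro q hq
    rw [← Finset.add_sum_erase _ _ hq, hLL]
    congr 1
    exact Finset.sum_congr rfl fun p hp => hLn p q (Finset.ne_of_mem_erase hp)
  by_cases h4 : m % 4 = 1
  · rw [if_pos h4] at hRS
    rw [hRS] at hq
    rw [hRS, hO, hcore q hq, hRS, add_comm, core_sum hm hq, al_odd m (od_prime hm hq).2.1,
      ← ee_od hm]
    unfold tt
    rw [if_neg (by omega), add_zero, add_comm 1]
  · rw [if_neg h4] at hRS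
    have hqc : q = 2 ∨ q ∈ (od m).primeFactors := by
      rw [hRS] at hq
      exact Finset.mem_insert.1 hq
    rcases hqc with rfl | hqO
    · -- q = 2
      rw [al_two m h0 h4]
      have hLO : ∑ p ∈ (od m).primeFactors, LL m p 2 = ∑ p ∈ (od m).primeFactors, lS m 2 p :=
        Finset.sum_congr rfl fun p hp => hLn p 2 (by rintro rfl; exact h2n hp)
      have hL2 : LL m 2 2 = ∑ p ∈ (od m).primeFactors, lS m p 2 := by
        rw [hLL, hRS, Finset.erase_insert h2n]
      rw [hRS, Finset.sum_insert h2n, hO, hLO, hL2]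
      by_cases h3 : m % 4 = 3
      · have e1 : ∑ p ∈ (od m).primeFactors, lS m 2 p = ee (od m) := by
          rw [← ee_sum hm]
          refine Finset.sum_congr rfl fun p hp => ?_
          rw [lS_two m (od_prime hm hp).2.1, if_pos h3]
        rw [e1]
        have e2 : ¬ ((2 : ℕ) : ℤ) ∣ m := by push_cast; omega
        rw [if_neg e2, mul_zero, zero_add, ← ee_od hm]
        unfold tt
        rw [if_pos (Or.inl h3), one_mul, add_comm, add_assoc, add_self, add_zero]
      · have e2 : ((2 : ℕ) : ℤ) ∣ m := by push_cast; omega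
        rw [if_pos e2, mul_one, ← Finset.sum_add_distrib]
        by_cases h8 : m % 8 = 2
        · have e1 : ∑ p ∈ (od m).primeFactors, (lS m p 2 + lS m 2 p) = 0 := by
            refine Finset.sum_eq_zero fun p hp => ?_
            rw [lS_two m (od_prime hm hp).2.1, if_neg h3, if_pos h8,
              lS_odd_two m (od_prime hm hp).2.1, add_self]
          rw [e1]
          unfold tt
          rw [if_neg (by omega), zero_mul]
        · have e1 : ∑ p ∈ (od m).primeFactors, (lS m p 2 + lS m 2 p) = ee (od m) := by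
            rw [← ee_sum hm]
            refine Finset.sum_congr rfl fun p hp => ?_
            rw [lS_two m (od_prime hm hp).2.1, if_neg h3, if_neg h8,
              lS_odd_two m (od_prime hm hp).2.1, ← add_assoc, add_self, zero_add]
          rw [e1, ← ee_od hm]
          unfold tt
          rw [if_pos (by omega), one_mul, add_comm, add_assoc, add_self, add_zero]
    · -- q odd
      have hqo := (od_prime hm hqO).2.1
      have hq2 : q ≠ 2 := by
        rintro rfl
        exact h2n hqO
      have e3 : (RS m).erase q = insert 2 ((od m).primeFactors.erase q) := by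
        rw [hRS, Finset.erase_insert_of_ne hq2.symm]
      have h2n' : 2 ∉ (od m).primeFactors.erase q := fun h => h2n (Finset.mem_of_mem_erase h)
      rw [al_odd m hqo]
      have e4 : ∑ p ∈ RS m, LL m p q * (if (p : ℤ) ∣ m then 1 else 0) =
          lS m q 2 * (if ((2 : ℕ) : ℤ) ∣ m then 1 else 0) + (lS m 2 q + ee q * (ee (od m) + 1)) := by
        rw [hRS, Finset.sum_insert h2n, hO, hcore q hqO, hLn 2 q hq2.symm, e3,
          Finset.sum_insert h2n', ← core_sum hm hqO]
        ring
      rw [e4, lS_two m hqo, lS_odd_two m hqo, ← ee_od hm]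
      by_cases h3 : m % 4 = 3
      · have e2 : ¬ ((2 : ℕ) : ℤ) ∣ m := by push_cast; omega
        rw [if_neg e2, if_pos h3]
        unfold tt
        rw [if_pos (Or.inl h3), mul_zero, zero_add]
        generalize ee q = a
        generalize ee (od m) = b
        revert a b
        decide
      · have e2 : ((2 : ℕ) : ℤ) ∣ m := by push_cast; omega
        rw [if_pos e2, if_neg h3]
        by_cases h8 : m % 8 = 2
        · rw [if_pos h8]
          unfold tt
          rw [if_neg (by omega)]
          generalize ee q = a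
          generalize ee (od m) = b
          generalize jj 2 q = c
          revert a b c
          decide
        · rw [if_neg h8]
          unfold tt
          rw [if_pos (by omega)]
          generalize ee q = a
          generalize ee (od m) = b
          generalize jj 2 q = c
          revert a b c
          decide

/-! ### the characters at 17 -/

theorem nu_eq {p : ℕ} (hp : p.Prime) (h17 : p ≠ 17) : nu p = jj p 17 := by
  unfold nu
  split_ifs with h h'
  · subst h
    rw [show ((2 : ℕ) : ℤ) = 2 by norm_num, jj_two (by norm_num), if_pos (by norm_num)]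
  · unfold jj
    rw [if_pos]
    rw [← h']
    exact (jacobiSym.quadratic_reciprocity_one_mod_four (a := 17) (by norm_num)
      (hp.odd_of_ne_two h)).symm
  · unfold jj
    rw [if_neg]
    intro h1
    apply h'
    rw [← h1]
    exact (jacobiSym.quadratic_reciprocity_one_mod_four (a := 17) (by norm_num)
      (hp.odd_of_ne_two h))

theorem nu_17 {m : ℤ} {p : ℕ} : lS m 17 p = nu p := by
  have h1 : pd m 17 = 17 := by
    unfold pd
    rw [if_neg (by norm_num), if_pos (by norm_num)]
    norm_num
  unfold lS nu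
  rw [h1]
  by_cases h : p = 2
  · rw [if_pos h, if_pos h, if_pos (by norm_num)]
  · rw [if_neg h, if_neg h]

theorem jj_neg {a : ℤ} (ha : Int.gcd a 17 = 1) : jj (-a) 17 = jj a 17 := by
  rw [show -a = (-1) * a by ring, jj_mul (gcd_neg_one 17) ha, jj_neg_one (by norm_num)]
  have : ee 17 = 0 := by
    unfold ee
    rw [if_neg (by norm_num)]
  rw [this, zero_add]

theorem jj_natAbs {a : ℤ} (ha : Int.gcd a 17 = 1) : jj (a.natAbs : ℤ) 17 = jj a 17 := by
  rcases Int.natAbs_eq a with h | h
  · rw [← h]
  · have h2 : (a.natAbs : ℤ) = -a := by omega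
    rw [h2, jj_neg ha]

theorem mem_RS_prime {m : ℤ} {p : ℕ} (hp : p ∈ RS m) : p.Prime := Nat.prime_of_mem_primeFactors hp

theorem mem_RS_of {m : ℤ} (hm : Squarefree m) {p : ℕ} (hp : p.Prime) (h : (p : ℤ) ∣ m) : p ∈ RS m := by
  have hm0 : m.natAbs ≠ 0 := Int.natAbs_ne_zero.2 hm.ne_zero
  have h1 : p ∣ m.natAbs := Int.natCast_dvd.1 h
  unfold RS Kn
  split_ifs
  · exact Nat.mem_primeFactors.2 ⟨hp, h1, hm0⟩
  · exact Nat.mem_primeFactors.2 ⟨hp, h1.mul_left 4, by positivity⟩

theorem nu_sum {m : ℤ} (hm : Squarefree m) (h17 : ¬ (17 : ℤ) ∣ m) :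
    ∑ p ∈ RS m, nu p * (if (p : ℤ) ∣ m then 1 else 0) = jj m 17 := by
  have hcop : ∀ p : ℕ, p.Prime → p ≠ 17 → Int.gcd p 17 = 1 := by
    intro p hp h
    have := (Nat.coprime_primes hp (by norm_num : Nat.Prime 17)).2 h
    exact_mod_cast this
  have hg : Int.gcd m 17 = 1 := by
    rw [Int.gcd_comm, ← Int.isCoprime_iff_gcd_eq_one]
    exact (Prime.coprime_iff_not_dvd (by norm_num)).2 h17
  have h1 : ∑ p ∈ RS m, nu p * (if (p : ℤ) ∣ m then 1 else 0) =
      ∑ p ∈ m.natAbs.primeFactors, nu p := by
    have h2 : ∑ p ∈ RS m, nu p * (if (p : ℤ) ∣ m then 1 else 0) =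
        ∑ p ∈ (RS m).filter (fun p : ℕ => (p : ℤ) ∣ m), nu p := by
      rw [Finset.sum_filter]
      refine Finset.sum_congr rfl fun p hp => ?_
      split_ifs <;> simp
    rw [h2]
    refine Finset.sum_congr ?_ fun _ _ => rfl
    ext p
    rw [Finset.mem_filter, Nat.mem_primeFactors]
    constructor
    · rintro ⟨a, b⟩
      exact ⟨mem_RS_prime a, Int.natCast_dvd.1 b, Int.natAbs_ne_zero.2 hm.ne_zero⟩
    · rintro ⟨a, b, c⟩
      exact ⟨mem_RS_of hm a (Int.natCast_dvd.2 b), Int.natCast_dvd.2 b⟩
  have hne : ∀ p ∈ m.natAbs.primeFactors, p ≠ 17 := by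
    rintro p hp rfl
    exact h17 (by exact_mod_cast Int.natCast_dvd.2 (Nat.dvd_of_mem_primeFactors hp))
  rw [h1, ← jj_natAbs hg]
  rw [← Nat.prod_primeFactors_of_squarefree (Int.squarefree_natAbs.2 hm),
    jj_prod _ (fun p hp => hcop p (Nat.prime_of_mem_primeFactors hp) ?_),
    Nat.prod_primeFactors_of_squarefree (Int.squarefree_natAbs.2 hm)]
  · exact Finset.sum_congr rfl fun p hp => nu_eq (Nat.prime_of_mem_primeFactors hp) (hne p hp)
  · exact hne p hp

/-- **the root number** -/
theorem t_PARITY : S_PARITY := by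
  intro m hm hrt hsys
  by_cases h17 : (17 : ℤ) ∣ m
  · -- 17 divides m
    have hjac : jacobiSym m 17 = 0 := by
      rw [jacobiSym.eq_zero_iff]
      refine ⟨by norm_num, ?_⟩
      intro h
      rw [← Int.isCoprime_iff_gcd_eq_one, isCoprime_comm,
        Prime.coprime_iff_not_dvd (by norm_num)] at h
      exact h h17
    have hpos : 0 < m := by
      by_contra h
      apply hrt
      refine Or.inr ⟨lt_of_le_of_ne (not_lt.1 h) hm.ne_zero, ?_⟩
      rw [hjac]
      decide
    have hs : ss m = 0 := by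
      unfold ss
      rw [if_neg (not_lt.2 hpos.le)]
    have h17S : 17 ∈ RS m := mem_RS_of hm (by norm_num) (by exact_mod_cast h17)
    have hal : al m 17 = 0 := by
      rw [al_odd m (by norm_num)]
      unfold ee
      rw [if_neg (by norm_num)]
    have key := KLS (RS m) nu (al m) (LL m) hsys (fun _ => 0) (fun q => if q = 17 then 0 else 1) rfl
      (by
        intro p hp
        have hp17 := Finset.ne_of_mem_erase hp
        have hpS := Finset.mem_of_mem_erase hp
        have h1 := row_sum m hpS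
        rw [← Finset.add_sum_erase _ _ h17S] at h1 ⊢
        rw [if_pos rfl, mul_zero, mul_zero, zero_add, zero_add]
        have h2 : ∑ q ∈ (RS m).erase 17, LL m p q * (if q = 17 then 0 else 1) =
            ∑ q ∈ (RS m).erase 17, LL m p q :=
          Finset.sum_congr rfl fun q hq => by rw [if_neg (Finset.ne_of_mem_erase hq), mul_one]
        rw [h2, ← eq_of_add _ _ h1]
        unfold LL
        rw [if_neg hp17, nu_17])
      (by
        intro q hq
        simp only [mul_zero, Finset.sum_const_zero, zero_add]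
        split_ifs with h
        · rw [h, hal, mul_zero]
        · rw [mul_one])
    simp only [mul_zero, Finset.sum_const_zero, zero_add] at key
    have h3 : ∑ q ∈ RS m, al m q * (if q = 17 then 0 else 1) = ss m := by
      rw [← al_sum hm]
      refine Finset.sum_congr rfl fun q hq => ?_
      split_ifs with h
      · rw [h, hal, mul_zero]
      · rw [mul_one]
    rw [h3, hs, eq_comm, ZMod.natCast_eq_zero_iff_even, Finset.card_erase_of_mem h17S] at key
    have hc : 0 < (RS m).card := Finset.card_pos.2 ⟨17, h17S⟩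
    obtain ⟨k, hk⟩ := key
    omega
  · have h17S : 17 ∉ RS m := by
      intro h
      apply h17
      rw [RS_eq hm] at h
      have h2 : 17 ∈ (od m).primeFactors := by
        split_ifs at h
        · exact h
        · rcases Finset.mem_insert.1 h with h | h
          · norm_num at h
          · exact h
      exact_mod_cast (od_prime hm h2).2.2
    have hg : Int.gcd m 17 = 1 := by
      rw [Int.gcd_comm, ← Int.isCoprime_iff_gcd_eq_one]
      exact (Prime.coprime_iff_not_dvd (by norm_num)).2 h17
    have key := KLS (RS m) nu (al m) (LL m) hsys (fun p => if (p : ℤ) ∣ m then 1 else 0)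
      (fun _ => ss m) (by
        rw [if_neg]
        exact_mod_cast h17)
      (by
        intro p hp
        have hpS := Finset.mem_of_mem_erase hp
        rw [← Finset.sum_mul, row_sum m hpS, zero_mul, add_zero]
        split_ifs with h
        · rw [mul_one]
        · rw [mul_zero]
          have h2 : p = 2 := by
            by_contra h2
            apply h
            rw [RS_eq hm] at hpS
            have h3 : p ∈ (od m).primeFactors := by
              split_ifs at hpS
              · exact hpS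
              · rcases Finset.mem_insert.1 hpS with h | h
                · exact absurd h h2
                · exact h
            exact (od_prime hm h3).2.2
          unfold nu
          rw [if_pos h2])
      (by
        intro q hq
        rw [col_sum hm hq, ← mul_add, add_assoc, add_self, add_zero, mul_one])
    rw [nu_sum hm h17, ← Finset.sum_mul, al_sum hm, mul_self', Finset.erase_eq_of_notMem h17S,
      Nat.cast_add, add_self] at key
    have h1 := eq_of_add _ _ key
    apply hrt
    unfold jj ss at h1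
    rcases lt_trichotomy m 0 with h | h | h
    · rw [if_pos h] at h1
      right
      refine ⟨h, fun h2 => ?_⟩
      rw [if_pos h2] at h1
      exact absurd h1 (by decide)
    · exact absurd h hm.ne_zero
    · rw [if_neg (not_lt.2 h.le)] at h1
      left
      refine ⟨h, ?_⟩
      by_contra h2
      rw [if_neg h2] at h1
      exact absurd h1 (by decide)


end Pool.Agent.H743.X17.QPARITY
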