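import Pool.Agent.H743.X17.Stm

/-! Project X17 (helper743): CRIT, by helper343. -/

set_option autoImplicit false

open scoped Classical

namespace Pool.Agent.H743.X17.QCRIT

open Finset
open Pool.Agent.H743.X17
open Pool.Agent.N972.P17 (Sx Sr)
open Pool.Agent.N969.P17G (SxP starP)

/-- the additive symbol -/
def lG (st : ℕ → ℤ) (q p : ℕ) : ZMod 2 :=
  if p = 2 then (if st q % 8 = 1 ∨ st q % 8 = 7 then 0 else 1)
  else (if jacobiSym (st q) p = 1 then 0 else 1)

/-- the Rédei matrix -/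
def LG (S : Finset ℕ) (st : ℕ → ℤ) (p q : ℕ) : ZMod 2 :=
  if p = q then ∑ r ∈ S.erase p, lG st r p else lG st q p

def aG (st : ℕ → ℤ) (q : ℕ) : ZMod 2 := if st q < 0 then 1 else 0

/-- the system without conditions at `17` -/
def XG (S : Finset ℕ) (st : ℕ → ℤ) : Prop := ∀ x y : ℕ → ZMod 2,
  (∀ p ∈ S, nu p * x p + ∑ q ∈ S, LG S st p q * y q = 0) →
  (∀ q ∈ S, ∑ p ∈ S, LG S st p q * x p + aG st q * y q = 0) →
  ∀ p ∈ S, x p = 0 ∧ y p = 0

/-- the system without the row and column of `17` -/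
def RG (S : Finset ℕ) (st : ℕ → ℤ) : Prop := ∀ x y : ℕ → ZMod 2, x 17 = 0 →
  (∀ p ∈ S.erase 17, nu p * x p + ∑ q ∈ S, LG S st p q * y q = 0) →
  (∀ q ∈ S, ∑ p ∈ S, LG S st p q * x p + aG st q * y q = 0) →
  ∀ p ∈ S, x p = 0 ∧ y p = 0

theorem Sys_iff (m : ℤ) : Sys m ↔ RG (RS m) (pd m) := Iff.rfl

theorem Sx_iff (n : ℕ) : Sx n ↔ XG n.primeFactors (N972.P17.star n) := Iff.rfl

theorem Sr_iff (n : ℕ) : Sr n ↔ RG n.primeFactors (N972.P17.star n) := Iff.rfl

theorem SxP_iff (n : ℕ) : SxP n ↔ XG n.primeFactors (starP n) := Iff.rfl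

theorem LG_congr {S : Finset ℕ} {s s' : ℕ → ℤ} (h : ∀ q ∈ S, s q = s' q) {p q : ℕ} (hp : p ∈ S)
    (hq : q ∈ S) : LG S s p q = LG S s' p q := by
  unfold LG
  split_ifs with hpq
  · refine sum_congr rfl fun r hr => ?_
    unfold lG
    rw [h r (mem_of_mem_erase hr)]
  · unfold lG
    rw [h q hq]

theorem aG_congr {S : Finset ℕ} {s s' : ℕ → ℤ} (h : ∀ q ∈ S, s q = s' q) {q : ℕ}
    (hq : q ∈ S) : aG s q = aG s' q := by
  unfold aG
  rw [h q hq]

theorem RG_imp {S : Finset ℕ} {s s' : ℕ → ℤ} (h : ∀ q ∈ S, s q = s' q) (hR : RG S s) :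
    RG S s' := by
  intro x y h0 h1 h2
  refine hR x y h0 (fun p hp => ?_) fun q hq => ?_
  · rw [← h1 p hp]
    congr 1
    exact sum_congr rfl fun q hq => by rw [LG_congr h (mem_of_mem_erase hp) hq]
  · rw [← h2 q hq]
    congr 1
    · exact sum_congr rfl fun p hp => by rw [LG_congr h hp hq]
    · rw [aG_congr h hq]

theorem RG_congr {S : Finset ℕ} {s s' : ℕ → ℤ} (h : ∀ q ∈ S, s q = s' q) : RG S s ↔ RG S s' :=
  ⟨RG_imp h, RG_imp fun q hq => (h q hq).symm⟩

theorem RG_XG {S : Finset ℕ} {s : ℕ → ℤ} (h17 : 17 ∉ S) : RG S s ↔ XG S s := by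
  have he : S.erase 17 = S := erase_eq_of_notMem h17
  constructor
  · intro hR x y h1 h2
    set x' : ℕ → ZMod 2 := fun p => if p = 17 then 0 else x p with hx'
    have hx : ∀ p ∈ S, x' p = x p := by
      intro p hp
      simp only [hx']
      rw [if_neg]
      rintro rfl
      exact h17 hp
    have := hR x' y (by simp [hx']) (fun p hp => ?_) fun q hq => ?_
    · intro p hp
      rw [← hx p hp]
      exact this p hp
    · rw [he] at hp
      rw [hx p hp]
      exact h1 p hp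
    · rw [← h2 q hq]
      congr 1
      exact sum_congr rfl fun p hp => by rw [hx p hp]
  · intro hX x y _ h1 h2
    rw [he] at h1
    exact hX x y h1 h2

theorem star_eq {m : ℤ} (hm : m < 0) (hsq : Squarefree m) : ∀ q ∈ RS m, pd m q = N972.P17.star (Kn m) q := by
  intro q hq
  unfold RS at hq
  rw [Nat.mem_primeFactors] at hq
  unfold pd N972.P17.star
  by_cases h2 : q = 2
  · rw [if_pos h2, if_pos h2]
    have hd := hq.2.1
    rw [h2] at hd
    have h4 : ¬ (4 : ℤ) ∣ m := by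
      intro h
      have h22 : (2 : ℤ) * 2 ∣ m := by simpa using h
      have := hsq 2 h22
      rw [Int.isUnit_iff] at this
      omega
    unfold Kn at hd ⊢
    split_ifs at hd ⊢ <;> omega
  · rw [if_neg h2, if_neg h2]

theorem starP_eq {m : ℤ} (hm : 0 < m) (hsq : Squarefree m) :
    ∀ q ∈ RS m, pd m q = starP (Kn m) q := by
  intro q hq
  unfold RS at hq
  rw [Nat.mem_primeFactors] at hq
  unfold pd starP
  by_cases h2 : q = 2
  · rw [if_pos h2, if_pos h2]
    have hd := hq.2.1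
    rw [h2] at hd
    have h4 : ¬ (4 : ℤ) ∣ m := by
      intro h
      have h22 : (2 : ℤ) * 2 ∣ m := by simpa using h
      have := hsq 2 h22
      rw [Int.isUnit_iff] at this
      omega
    unfold Kn at hd ⊢
    split_ifs at hd ⊢ <;> omega
  · rw [if_neg h2, if_neg h2]

theorem mem17 {m : ℤ} (hm : m ≠ 0) : 17 ∈ RS m ↔ 17 ∣ Kn m := by
  unfold RS
  rw [Nat.mem_primeFactors]
  refine ⟨fun h => h.2.1, fun h => ⟨by norm_num, h, ?_⟩⟩
  unfold Kn
  split_ifs <;> omega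

theorem dvd17 {m : ℤ} : 17 ∣ Kn m ↔ (17 : ℤ) ∣ m := by
  unfold Kn
  split_ifs <;> omega

theorem t_CRIT : S_CRIT := by
  intro m hsq hRt
  have hm0 : m ≠ 0 := hsq.ne_zero
  rw [Sys_iff]
  unfold Pool.Agent.N916.MO.G17
  rcases lt_or_gt_of_ne hm0 with hm | hm
  · have h1 : (m < 0 → Pool.Agent.N916.MO.C17 (Pool.Agent.N916.MO.Kn m)) ∧
        (0 < m → SxP (Pool.Agent.N916.MO.Kn m)) ↔ Pool.Agent.N916.MO.C17 (Kn m) :=
      ⟨fun h => h.1 hm, fun h => ⟨fun _ => h, fun h' => absurd h' (by omega)⟩⟩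
    rw [h1]
    unfold Pool.Agent.N916.MO.C17
    rw [Sx_iff, Sr_iff, RG_congr (star_eq hm hsq)]
    by_cases h17 : 17 ∣ Kn m
    · exact ⟨fun h => ⟨fun h' => absurd h17 h', fun _ => h⟩, fun h => h.2 h17⟩
    · have h17' : 17 ∉ RS m := by rw [mem17 hm0]; exact h17
      rw [RG_XG h17']
      exact ⟨fun h => ⟨fun _ => h, fun h' => absurd h' h17⟩, fun h => h.1 h17⟩
  · have h1 : (m < 0 → Pool.Agent.N916.MO.C17 (Pool.Agent.N916.MO.Kn m)) ∧
        (0 < m → SxP (Pool.Agent.N916.MO.Kn m)) ↔ SxP (Kn m) :=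
      ⟨fun h => h.2 hm, fun h => ⟨fun h' => absurd h' (by omega), fun _ => h⟩⟩
    rw [h1, SxP_iff, RG_congr (starP_eq hm hsq)]
    have hj : jacobiSym m 17 = 1 := by
      rcases hRt with h | h
      · exact h.2
      · exact absurd h.1 (by omega)
    have h17' : 17 ∉ RS m := by
      rw [mem17 hm0, dvd17]
      intro hd
      have h2 : jacobiSym m 17 = jacobiSym 0 17 := by
        rw [jacobiSym.mod_left m 17, Int.emod_eq_zero_of_dvd (by exact_mod_cast hd)]
      rw [h2, jacobiSym.zero_left (by norm_num)] at hj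
      norm_num at hj
    rw [RG_XG h17']
    exact Iff.rfl

end Pool.Agent.H743.X17.QCRIT
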