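import Pool.Agent.H743.X17.Stm
import Pool.Graph.R_seed8.Y809.BSD14.Tam3

/-!
# Twists of 17a2: coordinates, and the Tamagawa number at `17`, `17 ∤ N`
-/

set_option autoImplicit false
set_option linter.all false

open scoped Classical

open WeierstrassCurve

namespace Pool.Agent.H743.X17.QTAM17

open Pool.Agent.H743.X17
open Pool.Agent.Y700 (SingRed E0 tam PtP)
open Pool.Agent.Y809.BSD14

section crd

variable {K : Type} [Field K]

/-- the shape of the equation -/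
structure IsW (W : WeierstrassCurve.Affine K) (a m : K) : Prop where
  a1 : W.a₁ = a
  a3 : W.a₃ = 0
  a2 : 4 * W.a₂ = -15 * m - a ^ 2
  a4 : W.a₄ = -m ^ 2
  a6 : W.a₆ = 0

variable {W : WeierstrassCurve.Affine K} {a m : K}

theorem IsW.eqn (h : IsW W a m) {x y : K} (hE : W.Equation x y) :
    (4 * (2 * y + a * x)) ^ 2 = (4 * x) ^ 3 - 15 * m * (4 * x) ^ 2 - 16 * m ^ 2 * (4 * x) := by
  rw [Affine.equation_iff, h.a1, h.a3, h.a4, h.a6] at hE
  linear_combination 64 * hE + 16 * x ^ 2 * h.a2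

theorem IsW.eqn' (h : IsW W a m) (h2 : (2 : K) ≠ 0) {x y : K}
    (hE : (4 * (2 * y + a * x)) ^ 2 = (4 * x) ^ 3 - 15 * m * (4 * x) ^ 2 -
      16 * m ^ 2 * (4 * x)) : W.Equation x y := by
  rw [Affine.equation_iff, h.a1, h.a3, h.a4, h.a6]
  have h64 : (64 : K) ≠ 0 := by
    have : (64 : K) = 2 ^ 6 := by norm_num
    rw [this]
    exact pow_ne_zero _ h2
  apply mul_left_cancel₀ h64
  linear_combination hE - 16 * x ^ 2 * h.a2

theorem IsW.fx (h : IsW W a m) (x y : K) : 16 * (W.a₁ * y - (3 * x ^ 2 + 2 * W.a₂ * x + W.a₄)) =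
    2 * a * (4 * (2 * y + a * x)) -
      (3 * (4 * x) ^ 2 - 30 * m * (4 * x) - 16 * m ^ 2) := by
  rw [h.a1, h.a4]
  linear_combination (-8 * x) * h.a2

/-- the point `P` has the coordinates `X = 4 x`, `Y = 4 (2 y + a x)` -/
def At (a : K) (P : W.Point) (X Y : K) : Prop :=
  ∃ (x y : K) (h : W.Nonsingular x y), P = Affine.Point.some x y h ∧ X = 4 * x ∧
    Y = 4 * (2 * y + a * x)

theorem At.eqn (hW : IsW W a m) {P : W.Point} {X Y : K} (h : At a P X Y) :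
    Y ^ 2 = X * (X + m) * (X - 16 * m) := by
  obtain ⟨x, y, hn, rfl, rfl, rfl⟩ := h
  have h1 := hW.eqn hn.1
  linear_combination h1

theorem At.ne_zero {P : W.Point} {X Y : K} (h : At a P X Y) : P ≠ 0 := by
  obtain ⟨x, y, hn, rfl, _⟩ := h
  exact Affine.Point.some_ne_zero _

theorem exists_at (a : K) {P : W.Point} (h : P ≠ 0) : ∃ X Y, At a P X Y := by
  rcases P with _ | ⟨x, y, hn⟩
  · exact absurd rfl h
  · exact ⟨_, _, x, y, hn, rfl, rfl, rfl⟩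

theorem At.ext (h2 : (2 : K) ≠ 0) {P P' : W.Point} {X Y : K} (h : At a P X Y) (h' : At a P' X Y) :
    P = P' := by
  obtain ⟨x, y, hn, rfl, e1, e2⟩ := h
  obtain ⟨x', y', hn', rfl, e1', e2'⟩ := h'
  have hx : x = x' := by
    have h3 : (2 ^ 2 : K) * x = 2 ^ 2 * x' := by linear_combination e1' - e1
    exact mul_left_cancel₀ (pow_ne_zero 2 h2) h3
  have hy : y = y' := by
    have h3 : (2 ^ 3 : K) * y = 2 ^ 3 * y' := by rw [hx] at e2; linear_combination e2' - e2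
    exact mul_left_cancel₀ (pow_ne_zero 3 h2) h3
  subst hx hy
  rfl

theorem At.neg (hW : IsW W a m) {P : W.Point} {X Y : K} (h : At a P X Y) : At a (-P) X (-Y) := by
  obtain ⟨x, y, hn, rfl, rfl, rfl⟩ := h
  rw [Affine.Point.neg_some]
  refine ⟨_, _, _, rfl, rfl, ?_⟩
  rw [WeierstrassCurve.Affine.negY, hW.a1, hW.a3]
  ring

/-- the point `(-m, 0)` -/
theorem exists_T (hW : IsW W a m) (h2 : (2 : K) ≠ 0) (h17 : (17 : K) ≠ 0) (hm : m ≠ 0) :
    ∃ P : W.Point, At a P (-m) 0 := by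
  have h4 : (4 : K) ≠ 0 := by
    have : (4 : K) = 2 ^ 2 := by norm_num
    rw [this]
    exact pow_ne_zero _ h2
  obtain ⟨x, hx⟩ : ∃ x : K, -m = 4 * x := ⟨-m / 4, by field_simp⟩
  obtain ⟨y, hy⟩ : ∃ y : K, 0 = 4 * (2 * y + a * x) :=
    ⟨(-(a * x)) / 2, by field_simp; ring⟩
  have hq : W.Equation x y := by
    apply hW.eqn' h2
    rw [← hx, ← hy]
    ring
  have hn : W.Nonsingular x y := by
    rw [Affine.nonsingular_iff]
    refine ⟨hq, ?_⟩
    by_contra hcon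
    rw [not_or, not_ne_iff, not_ne_iff] at hcon
    obtain ⟨hc1, hc2⟩ := hcon
    have hf := hW.fx x y
    rw [hc1, sub_self, mul_zero, ← hx, ← hy] at hf
    have : (17 : K) * m ^ 2 = 0 := by linear_combination hf
    exact mul_ne_zero h17 (pow_ne_zero _ hm) this
  exact ⟨Affine.Point.some x y hn, x, y, hn, rfl, hx, hy⟩

variable [DecidableEq K]

theorem At.add (hW : IsW W a m) (h2 : (2 : K) ≠ 0) {P P' : W.Point} {X Y X' Y' : K}
    (h : At a P X Y) (h' : At a P' X' Y') (hne : X ≠ X') :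
    ∃ Y3, At a (P + P') (((Y - Y') / (X - X')) ^ 2 + 15 * m - X - X') Y3 := by
  obtain ⟨x, y, hn, rfl, rfl, rfl⟩ := h
  obtain ⟨x', y', hn', rfl, rfl, rfl⟩ := h'
  have hx : x ≠ x' := fun h => hne (by rw [h])
  rw [Affine.Point.add_of_X_ne hx]
  refine ⟨_, _, _, _, rfl, ?_, rfl⟩
  rw [WeierstrassCurve.Affine.addX, WeierstrassCurve.Affine.slope_of_X_ne hx, hW.a1]
  have h1 : x - x' ≠ 0 := sub_ne_zero.2 hx
  have h4 : (4 : K) ≠ 0 := by
    have : (4 : K) = 2 ^ 2 := by norm_num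
    rw [this]
    exact pow_ne_zero _ h2
  have h5 : (4 * (2 * y + a * x) - 4 * (2 * y' + a * x')) /
      (4 * x - 4 * x') = 2 * ((y - y') / (x - x')) + a := by
    have h6 : 4 * x - 4 * x' = 4 * (x - x') := by ring
    rw [h6]
    field_simp
    ring
  rw [h5]
  linear_combination hW.a2

/-- translation by a point of order two with the coordinates `(e, 0)` -/
theorem At.addT (hW : IsW W a m) (h2 : (2 : K) ≠ 0) {P T : W.Point} {X Y e : K} (h : At a P X Y)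
    (hT : At a T e 0) (hX : X ≠ e) : ∃ X3 Y3, At a (P + T) X3 Y3 ∧
      (X3 - e) * (X - e) = 3 * e ^ 2 - 30 * m * e - 16 * m ^ 2 := by
  obtain ⟨Y3, h3⟩ := h.add hW h2 hT hX
  refine ⟨_, Y3, h3, ?_⟩
  have e0 := h.eqn hW
  have eT := hT.eqn hW
  have hXe : X - e ≠ 0 := sub_ne_zero.2 hX
  rw [sub_zero]
  obtain ⟨L, hL⟩ : ∃ L : K, L = Y / (X - e) := ⟨_, rfl⟩
  have hL1 : L * (X - e) = Y := by rw [hL, div_mul_cancel₀ _ hXe]
  rw [← hL]
  have e3 : L ^ 2 * (X - e) = X ^ 2 + (e - 15 * m) * X + (e ^ 2 - 15 * m * e - 16 * m ^ 2) := by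
    apply mul_right_cancel₀ hXe
    rw [← hL1] at e0
    linear_combination e0 - eT
  linear_combination e3

theorem two_tors (hW : IsW W a m) (h2 : (2 : K) ≠ 0) {T : W.Point} {e : K} (hT : At a T e 0) :
    T + T = 0 := by
  have h1 : At a (-T) e 0 := by simpa using hT.neg hW
  have h3 : T = -T := hT.ext h2 h1
  calc T + T = T + -T := by rw [← h3]
    _ = 0 := add_neg_cancel T

theorem isW {W : WeierstrassCurve ℤ} {N : ℤ} (h : IsN W N) (h2 : (2 : K) ≠ 0) :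
    IsW (W.map (Int.castRingHom K)).toAffine ((W.a₁ : ℤ) : K) (N : K) := by
  have e2 := congrArg (Int.cast (R := K)) h.b2
  have e4 := congrArg (Int.cast (R := K)) h.b4
  rw [WeierstrassCurve.b₂] at e2
  rw [WeierstrassCurve.b₄, h.a3, mul_zero, add_zero] at e4
  push_cast at e2 e4
  refine ⟨rfl, ?_, ?_, ?_, ?_⟩
  · show ((W.a₃ : ℤ) : K) = 0
    rw [h.a3, Int.cast_zero]
  · show 4 * ((W.a₂ : ℤ) : K) = _
    linear_combination e2
  · show ((W.a₄ : ℤ) : K) = _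
    apply mul_left_cancel₀ h2
    linear_combination e4
  · show ((W.a₆ : ℤ) : K) = 0
    rw [h.a6, Int.cast_zero]

end crd

section

variable {q : ℕ} [Fact q.Prime] {W : WeierstrassCurve ℤ} {N : ℤ}

theorem nint (n : ℤ) : ‖(n : ℚ_[q])‖ ≤ 1 := Padic.norm_int_le_one n

theorem unit_int {n : ℤ} (h : ¬ (q : ℤ) ∣ n) : ‖(n : ℚ_[q])‖ = 1 :=
  le_antisymm (Padic.norm_int_le_one n) (not_lt.1 fun h1 => h (Padic.norm_intCast_lt_one_iff.1 h1))

theorem sq_lt {x : ℚ_[q]} (h : ‖x ^ 2‖ < 1) : ‖x‖ < 1 := by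
  rw [norm_pow] at h
  by_contra h1
  rw [not_lt] at h1
  have := one_le_pow₀ h1 (n := 2)
  linarith

/-- singular reduction in the coordinates `X`, `Y` -/
theorem sing_XY (h : IsN W N) (hq2 : q ≠ 2) (x y : ℚ_[q]) :
    SingRed W q x y ↔ ‖4 * x‖ ≤ 1 ∧ ‖4 * (2 * y + (W.a₁ : ℚ_[q]) * x)‖ < 1 ∧
      ‖3 * (4 * x) ^ 2 - 30 * N * (4 * x) - 16 * (N : ℚ_[q]) ^ 2‖ < 1 := by
  have h2 : (2 : ℚ_[q]) ≠ 0 := two_ne_zero
  have hW := isW (K := ℚ_[q]) h h2
  have e2 := hW.fx x y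
  have n4 := norm4 hq2
  have n2' := norm2 hq2
  have n16 := norm16 hq2
  have ha := nint (q := q) W.a₁
  have c3 : ((W.a₃ : ℤ) : ℚ_[q]) = 0 := by rw [h.a3, Int.cast_zero]
  have e3 : 16 * ((W.a₁ : ℚ_[q]) * y - (3 * x ^ 2 + 2 * (W.a₂ : ℚ_[q]) * x +
      (W.a₄ : ℚ_[q]))) = 2 * (W.a₁ : ℚ_[q]) * (4 * (2 * y + (W.a₁ : ℚ_[q]) * x)) -
      (3 * (4 * x) ^ 2 - 30 * N * (4 * x) - 16 * (N : ℚ_[q]) ^ 2) := e2
  constructor
  · rintro ⟨hx, hy, hfx, hfy⟩
    rw [c3, add_zero] at hfy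
    have hY : ‖4 * (2 * y + (W.a₁ : ℚ_[q]) * x)‖ < 1 := by rw [norm_mul, n4, one_mul]; exact hfy
    refine ⟨nmul n4.le hx, hY, ?_⟩
    have h1 := lmul (a := (16 : ℚ_[q])) n16.le hfx
    rw [e3] at h1
    have h3 := lsub (lmul (a := (2 * (W.a₁ : ℚ_[q]))) (nmul n2'.le ha) hY) h1
    have e4 : 3 * (4 * x) ^ 2 - 30 * N * (4 * x) - 16 * (N : ℚ_[q]) ^ 2 =
      2 * (W.a₁ : ℚ_[q]) * (4 * (2 * y + (W.a₁ : ℚ_[q]) * x)) -
      (2 * (W.a₁ : ℚ_[q]) * (4 * (2 * y + (W.a₁ : ℚ_[q]) * x)) -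
      (3 * (4 * x) ^ 2 - 30 * N * (4 * x) - 16 * (N : ℚ_[q]) ^ 2)) := by ring
    rw [e4]
    exact h3
  · rintro ⟨hX, hY, hF⟩
    rw [norm_mul, n4, one_mul] at hX hY
    have hy : ‖y‖ ≤ 1 := by
      have h1 : ‖2 * y‖ = ‖y‖ := by rw [norm_mul, n2', one_mul]
      rw [← h1]
      have : 2 * y = (2 * y + (W.a₁ : ℚ_[q]) * x) - (W.a₁ : ℚ_[q]) * x := by ring
      rw [this]
      exact nsub hY.le (nmul ha hX)
    refine ⟨hX, hy, ?_, ?_⟩
    · have h1 : ‖16 * ((W.a₁ : ℚ_[q]) * y - (3 * x ^ 2 + 2 * (W.a₂ : ℚ_[q]) * x +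
          (W.a₄ : ℚ_[q])))‖ < 1 := by
        rw [e3]
        refine lsub (lmul (nmul n2'.le ha) ?_) hF
        rw [norm_mul, n4, one_mul]
        exact hY
      rw [norm_mul, n16, one_mul] at h1
      exact h1
    · rw [c3, add_zero]
      exact hY

/-- membership in `E⁰` -/
theorem mem_E0 (h : IsN W N) (hq2 : q ≠ 2) {P : PtP W q} {X Y : ℚ_[q]}
    (hP : At (W.a₁ : ℚ_[q]) P X Y) : P ∉ E0 W q ↔ ‖X‖ ≤ 1 ∧ ‖Y‖ < 1 ∧
      ‖3 * X ^ 2 - 30 * N * X - 16 * (N : ℚ_[q]) ^ 2‖ < 1 := by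
  obtain ⟨x, y, hn, rfl, rfl, rfl⟩ := hP
  rw [← sing_XY h hq2, t_E0]
  constructor
  · intro h1
    push Not at h1
    obtain ⟨x', y', h', e, hs⟩ := h1
    injection e with e1 e2
    rw [e1, e2]
    exact hs
  · intro hs h1
    exact h1 x y hn rfl hs

end

section seventeen

variable [Fact (Nat.Prime 17)] {W : WeierstrassCurve ℤ} {N : ℤ}

theorem t_n17 : ‖(17 : ℚ_[17])‖ = 1 / 17 := by
  have := Padic.norm_p (p := 17)
  simpa using this

theorem t_lt17 {x : ℚ_[17]} (h : ‖x‖ < 1) : ‖x‖ ≤ 1 / 17 := by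
  have := norm_le_inv 17 h
  simpa using this

/-- at `17` the points outside `E⁰` are those with `|X + N| < 1` -/
theorem mem17 (h : IsN W N) (hN : ¬ (17 : ℤ) ∣ N) {P : PtP W 17} {X Y : ℚ_[17]}
    (hP : At (W.a₁ : ℚ_[17]) P X Y) : P ∉ E0 W 17 ↔ ‖X + N‖ < 1 := by
  have hW := isW (K := ℚ_[17]) h two_ne_zero
  have he := hP.eqn hW
  have hmi := nint (q := 17) N
  have l17 : ‖(17 : ℚ_[17])‖ < 1 := by rw [t_n17]; norm_num
  have i16 : ‖(16 : ℚ_[17])‖ ≤ 1 := by exact_mod_cast nnat (K := ℚ_[17]) 16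
  have i2 : ‖(2 : ℚ_[17])‖ ≤ 1 := by exact_mod_cast nnat (K := ℚ_[17]) 2
  have i3 : ‖(3 : ℚ_[17])‖ ≤ 1 := by exact_mod_cast nnat (K := ℚ_[17]) 3
  have uN : ‖(N : ℚ_[17])‖ = 1 := unit_int (q := 17) (by exact_mod_cast hN)
  rw [mem_E0 h (by norm_num) hP]
  constructor
  · rintro ⟨hX, hY, hF⟩
    have iXN : ‖X + N‖ ≤ 1 := nadd hX hmi
    have h1 : ‖(3 * X + N) * (X + N)‖ < 1 := by
      have e : (3 * X + N) * (X + N) = (3 * X ^ 2 - 30 * N * X - 16 * (N : ℚ_[17]) ^ 2) +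
        17 * (2 * N * X + N ^ 2) := by ring
      rw [e]
      exact ladd hF (lmul' l17 (nadd (nmul (nmul i2 hmi) hX) (npow hmi 2)))
    have hYY : ‖Y ^ 2‖ < 1 := by
      rw [pow_two]
      exact lmul hY.le hY
    have h3 : ‖X * (X + N) ^ 2‖ < 1 := by
      have e : X * (X + N) ^ 2 = Y ^ 2 + 17 * (N * X * (X + N)) := by
        rw [he]
        ring
      rw [e]
      exact ladd hYY (lmul' l17 (nmul (nmul hmi hX) iXN))
    have h4 : ‖N * (X + N) ^ 2‖ < 1 := by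
      have e : N * (X + N) ^ 2 = (X + N) * ((3 * X + N) * (X + N)) - 3 * (X * (X + N) ^ 2) := by
        ring
      rw [e]
      exact lsub (lmul iXN h1) (lmul i3 h3)
    rw [norm_mul, uN, one_mul] at h4
    exact sq_lt h4
  · intro hU
    have hX : ‖X‖ ≤ 1 := by
      have : X = (X + N) - N := by ring
      rw [this]
      exact nsub hU.le hmi
    refine ⟨hX, ?_, ?_⟩
    · apply sq_lt
      rw [he]
      exact lmul' (lmul hX hU) (nsub hX (nmul i16 hmi))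
    · have e : 3 * X ^ 2 - 30 * N * X - 16 * (N : ℚ_[17]) ^ 2 = (3 * X + N) * (X + N) -
        17 * (2 * N * X + N ^ 2) := by ring
      rw [e]
      exact lsub (lmul (nadd (nmul i3 hX) hmi) hU)
        (lmul' l17 (nadd (nmul (nmul i2 hmi) hX) (npow hmi 2)))

end seventeen

theorem t_TAM17 : S_TAM17 := by
  intro W N _ h hN
  have h2 : (2 : ℚ_[17]) ≠ 0 := two_ne_zero
  have h17 : (17 : ℚ_[17]) ≠ 0 := by norm_num
  have hW := isW (K := ℚ_[17]) h h2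
  have hN0 : (N : ℚ_[17]) ≠ 0 := by
    have : N ≠ 0 := fun h0 => hN (by rw [h0]; exact dvd_zero _)
    exact_mod_cast this
  have uN : ‖(N : ℚ_[17])‖ = 1 := unit_int (q := 17) (by exact_mod_cast hN)
  obtain ⟨T, hT⟩ := exists_T hW h2 h17 hN0
  have hTn : T ∉ E0 W 17 := (mem17 h hN hT).2 (by
    have : -(N : ℚ_[17]) + N = 0 := by ring
    rw [this, norm_zero]
    norm_num)
  rw [Pool.Agent.Y700.tam, AddSubgroup.index_eq_two_iff_exists_notMem_and]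
  refine ⟨T, hTn, fun P => ?_⟩
  by_cases hP : P ∈ E0 W 17
  · exact Or.inr hP
  left
  have hP0 : P ≠ 0 := fun h0 => hP (by rw [h0]; exact zero_mem _)
  obtain ⟨X, Y, hat⟩ := exists_at ((W.a₁ : ℤ) : ℚ_[17]) hP0
  have hU := (mem17 h hN hat).1 hP
  have he := hat.eqn hW
  by_cases hXe : X = -N
  · have hY : Y = 0 := by
      rw [hXe] at he
      have h4 : Y ^ 2 = 0 := by
        rw [he]
        ring
      exact pow_eq_zero_iff two_ne_zero |>.1 h4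
    rw [hY, hXe] at hat
    rw [hat.ext h2 hT, two_tors hW h2 hT]
    exact AddSubgroup.zero_mem _
  · obtain ⟨X3, Y3, h3, h4⟩ := hat.addT hW h2 hT hXe
    by_contra hcon
    have h5 := (mem17 h hN h3).1 hcon
    have e5 : (X3 + N) * (X + N) = 17 * (N : ℚ_[17]) ^ 2 := by
      linear_combination h4
    have e6 := congrArg norm e5
    rw [norm_mul, norm_mul, norm_pow, uN, t_n17] at e6
    have h7 := t_lt17 hU
    have h8 := t_lt17 h5
    have h9 : ‖X3 + N‖ * ‖X + N‖ ≤ 1 / 17 * (1 / 17) :=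
      mul_le_mul h8 h7 (norm_nonneg _) (by norm_num)
    norm_num at e6
    linarith

end Pool.Agent.H743.X17.QTAM17
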