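import Pool.Agent.H743.X17.Bsd
import Pool.Agent.H743.X17.ABSF
import Pool.Agent.H743.X17.ABSB
import Pool.Agent.H743.X17.NECA
import Pool.Agent.H743.X17.NECODD
import Pool.Agent.H743.X17.NEC17
import Pool.Agent.H743.X17.SUFA
import Pool.Agent.H743.X17.SUFGOOD
import Pool.Agent.H743.X17.SUF17
import Pool.Agent.H743.X17.SUF2
import Pool.Agent.H743.X17.SYSF
import Pool.Agent.H743.X17.SYSB
import Pool.Agent.H743.X17.CRIT
import Pool.Agent.H743.X17.PARITY
import Pool.Agent.H743.X17.TAMP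
import Pool.Agent.H743.X17.TAM17
import Pool.Agent.H743.X17.TAM2
import Pool.Agent.H743.X17.TORS
import Pool.Agent.H743.X17.MIN
import Pool.Agent.H743.X17.AP

/-!
# All the parts together
-/

set_option autoImplicit false

open scoped Classical

namespace Pool.Agent.H743.X17

theorem parts' (h : S_NEC2) : Parts where
  absf := QABSF.t_ABSF
  absb := QABSB.t_ABSB
  necinf := Q962.t_NECINF
  necgood := Q962.t_NECGOOD
  necodd := Q962.t_NECODD
  nec17 := Q962.t_NEC17
  nec2 := h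
  sufinf := QSUFA.t_SUFA.1
  sufgood := QSUFGOOD.t_SUFGOOD
  sufodd := QSUFA.t_SUFA.2
  suf17 := QSUF17.t_SUF17
  suf2 := QSUF2.t_SUF2
  sysf := QSYSF.t_SYSF
  sysb := QSYSB.t_SYSB
  crit := QCRIT.t_CRIT
  parity := QPARITY.t_PARITY
  tamp := QTAMP.t_TAMP
  tam17 := QTAM17.t_TAM17
  tam2 := QTAM2.t_TAM2
  tors := QTORS.t_TORS
  min := QMIN.t_MIN
  ap := t_AP

end Pool.Agent.H743.X17
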