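import Pool.Agent.H743.X17.All
import Pool.Graph.R_pool_sql_team_seeded_63374d34.N969.Den.Root17
import Pool.Graph.R_pool_sql_team_seeded_63374d34.N855.GF.LocQ
import Pool.Graph.R_pool_sql_team_seeded_63374d34.N855.GF.Tw
import Pool.Graph.R_seed8.Y948.CQ.C2A

/-!
# The densities
-/

set_option autoImplicit false
set_option linter.all false

open scoped Classical

namespace Pool.Agent.H743.X17

open Finset Filter Topology
open Pool.Agent.N919.BS (NS NF Rt17 ratio root17 t_NS low1 NS_eq)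
open Pool.Agent.N916.MO (G17 hg17)
open Pool.Agent.Y703.CQ (c2)
open Pool.Agent.N855.GF.Lc17 (Loc lc_Loc lim_Loc Lc lc_and lc_root low_P hgl close_NS)
open Pool.Agent.N855.GF.Tw (tw T tw_sqf)

/-- the number of the squarefree `m`, `|m| ≤ X`, with the property `P` -/
noncomputable def num (P : ℤ → Prop) (X : ℕ) : ℕ :=
  ((Finset.Icc (-(X : ℤ)) X).filter fun m => Squarefree m ∧ P m).card

theorem num_eq (P : ℤ → Prop) (X : ℕ) : num P X = NS P X := rfl

theorem rt_eq : Rt = Rt17 := rfl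

/-- change of the predicate at `m = 1` -/
theorem close1 {P Q : ℤ → Prop} (h : ∀ d, Squarefree d → d ≠ 1 → (P d ↔ Q d)) (X : ℕ) :
    NS P X ≤ NS Q X + 2 :=
  Pool.Agent.N969.Den.NS_close (fun d hd h1 _ => h d hd h1) X

theorem tendsto_close {P Q : ℤ → Prop} (h : ∀ d, Squarefree d → d ≠ 1 → (P d ↔ Q d)) {T : ℕ → ℕ}
    {c : ℝ} (hT : Tendsto (fun X => (T X : ℝ)) atTop atTop)
    (hQ : Tendsto (fun X => (NS Q X : ℝ) / (T X : ℝ)) atTop (𝓝 c)) :
    Tendsto (fun X => (NS P X : ℝ) / (T X : ℝ)) atTop (𝓝 c) :=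
  Pool.Agent.N969.Den.lim_close hQ (close1 fun d hd h1 => (h d hd h1).symm) (close1 h) hT

theorem top_of_low {T : ℕ → ℕ} {c : ℝ} {X₀ : ℕ} (hc : 0 < c) (h : ∀ X : ℕ, X₀ ≤ X → c * X ≤ (T X : ℝ)) :
    Tendsto (fun X => (T X : ℝ)) atTop atTop := by
  have h2 : Tendsto (fun X : ℕ => c * (X : ℝ)) atTop atTop :=
    Tendsto.const_mul_atTop hc tendsto_natCast_atTop_atTop
  refine tendsto_atTop_mono' _ ?_ h2
  filter_upwards [eventually_ge_atTop X₀] with X hX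
  exact h X hX

variable {P : ℤ → Prop}

/-- the criterion -/
theorem crit' (h : Parts) {d : ℤ} (hP : P d ↔ Sys d) (hd : Squarefree d) :
    P d ↔ (Rt17 d ∧ G17 d) := hP.trans (sys_iff h hd)

/-- **all the twists** -/
theorem dens_all (h : Parts) (hP : ∀ d, Squarefree d → d ≠ 1 → (P d ↔ Sys d)) :
    Tendsto (fun X : ℕ => (num P X : ℝ) / (num (fun _ => True) X : ℝ)) atTop (𝓝 (c2 / 2)) :=
  tendsto_close (fun d hd h1 => crit' h (hP d hd h1) hd) Pool.Agent.N969.Den.NS_top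
    (t_NS root17 hg17)

/-- exactly half of the twists have root number `1` -/
theorem half (X : ℕ) : 2 * num Rt X = num (fun _ => True) X :=
  Pool.Agent.N919.BS.NS_half root17 X

theorem half_lim : Tendsto (fun X : ℕ => (NS Rt17 X : ℝ) / (NS (fun _ => True) X : ℝ)) atTop
    (𝓝 (1 / 2)) := by
  have h := t_NS root17 (G := fun _ => True) (c := 1) (by
    intro s k r _ _ _ ε hε
    refine ⟨0, fun Y _ => ?_⟩
    simp only [and_true, one_mul, sub_self, abs_zero]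
    positivity)
  simpa only [and_true] using h

/-- **the twists with root number `1`** -/
theorem dens_root (h : Parts) (hP : ∀ d, Squarefree d → d ≠ 1 → (P d ↔ Sys d)) :
    Tendsto (fun X : ℕ => (num P X : ℝ) / (num Rt X : ℝ)) atTop (𝓝 c2) :=
  Pool.Agent.N969.Den.ratio2 (dens_all h hP) half_lim Pool.Agent.N969.Den.NS_top

/-- **the twists in a class given by local conditions** -/
theorem dens_loc (h : Parts) (hP : ∀ d, Squarefree d → d ≠ 1 → (P d ↔ Sys d)) (inf : Prop)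
    (S : Finset ℕ) (hS : ∀ p ∈ S, p.Prime) {d₀ : ℤ} (hd : Squarefree d₀) (h1 : Rt d₀) :
    (∃ (c : ℝ) (X₀ : ℕ), 0 < c ∧ ∀ X : ℕ, X₀ ≤ X → c * X ≤ (num (fun d => Rt d ∧ Loc inf S d₀ d) X : ℝ)) ∧
    Tendsto (fun X : ℕ => (num (fun d => (Rt d ∧ Loc inf S d₀ d) ∧ P d) X : ℝ) /
      (num (fun d => Rt d ∧ Loc inf S d₀ d) X : ℝ)) atTop (𝓝 c2) := by
  have hlow : ∃ (c : ℝ) (X₀ : ℕ), 0 < c ∧ ∀ X : ℕ, X₀ ≤ X →
      c * X ≤ (NS (fun d => Rt17 d ∧ Loc inf S d₀ d) X : ℝ) := by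
    obtain ⟨m, h2, h3, h4⟩ := lc_Loc inf S hS d₀
    have hQ : Lc m fun d => Rt17 d ∧ Loc inf S d₀ d :=
      lc_and (lc_root (Dvd.dvd.trans (by norm_num) h2)) h4
    have h5 : Loc inf S d₀ d₀ := by
      refine ⟨fun _ => mul_self_pos.2 hd.ne_zero, fun p _ _ => ⟨(d₀ : ℚ_[p]), ?_⟩⟩
      push_cast
      ring
    obtain ⟨c, X₀, hc, h6⟩ := low_P (Dvd.dvd.trans (by norm_num) h2) h3 hQ hd ⟨h1, h5⟩
    exact ⟨c, X₀, hc, fun X hX => (h6 X hX).2⟩
  refine ⟨hlow, ?_⟩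
  obtain ⟨c, X₀, hc, h2⟩ := hlow
  refine tendsto_close (T := NS (fun d => Rt17 d ∧ Loc inf S d₀ d)) (fun d hd h1 => ?_)
    (top_of_low hc h2) (lim_Loc inf S hS hd h1).2
  have h3 := crit' h (hP d hd h1) hd
  constructor
  · rintro ⟨a, b⟩
    exact ⟨a, (h3.1 b).2⟩
  · rintro ⟨a, b⟩
    exact ⟨a, h3.2 ⟨a.1, b⟩⟩

/-- `E_e^d = E_1` only for `d = e` -/
theorem tw_one {e d : ℤ} (he : Squarefree e) (hd : Squarefree d) (h : tw e d = 1) : d = e := by
  obtain ⟨g, e', d', hg, h1, h2, h3, h4, h5, h6, h7, h8⟩ := Pool.Agent.N855.GF.Tw.split he hd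
  rw [Pool.Agent.N855.GF.Tw.tw_eq hg h1 h2 h3] at h
  have h9 : e' = d' := by
    rcases Int.mul_eq_one_iff_eq_one_or_neg_one.1 h with h | h
    · rw [h.1, h.2]
    · rw [h.1, h.2]
  rw [h2, h3, h9]

/-- change of the predicate at one place -/
theorem close_e {P Q : ℤ → Prop} {e : ℤ} (h : ∀ d, Squarefree d → d ≠ e → (P d ↔ Q d)) (X : ℕ) :
    NS P X ≤ NS Q X + 2 := by
  unfold NS
  have h1 : ((Icc (-(X : ℤ)) X).filter fun d => Squarefree d ∧ P d) ⊆
      ((Icc (-(X : ℤ)) X).filter fun d => Squarefree d ∧ Q d) ∪ {e} := by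
    intro d hd
    obtain ⟨h2, h3, h4⟩ := mem_filter.1 hd
    rw [mem_union]
    by_cases e1 : d = e
    · right
      rw [e1]
      simp
    left
    exact mem_filter.2 ⟨h2, h3, (h d h3 e1).1 h4⟩
  refine (card_le_card h1).trans ((card_union_le _ _).trans ?_)
  rw [card_singleton]
  omega

/-- **the twists of a twist** -/
theorem dens_tw (h : Parts) (hP : ∀ d, Squarefree d → d ≠ 1 → (P d ↔ Sys d)) {e : ℤ}
    (he : Squarefree e) :
    Tendsto (fun X : ℕ => (num (fun d => P (tw e d)) X : ℝ) / (num (fun _ => True) X : ℝ)) atTop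
      (𝓝 (c2 / 2)) := by
  have h1 : ∀ d, Squarefree d → d ≠ e → (P (tw e d) ↔ (Rt17 (tw e d) ∧ G17 (tw e d))) :=
    fun d hd hde => crit' h (hP _ (tw_sqf he hd) fun h1 => hde (tw_one he hd h1)) (tw_sqf he hd)
  exact Pool.Agent.N969.Den.lim_close (Pool.Agent.N855.GF.Tw.lim_T he)
    (close_e (e := e) fun d hd hde => (h1 d hd hde).symm) (close_e (e := e) h1)
    Pool.Agent.N969.Den.NS_top

theorem c2_bounds : 0.4194 < c2 ∧ c2 < 0.4195 := (Pool.Agent.Y948.CQ.c2_main c2 rfl).2.2.2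

end Pool.Agent.H743.X17
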