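import Pool.Agent.H743.X17.IsoStm

/-!
# I17 IFIN: finiteness of the rational points through the isogeny
-/

set_option autoImplicit false

open scoped Classical

namespace Pool.Agent.H743.X17.QIFIN

open WeierstrassCurve
open Pool.Agent.H743.X17

theorem fin_iff (W : WeierstrassCurve ℚ) : Finite W.toAffine.Point ↔
    {q : ℚ × ℚ | W.toAffine.Nonsingular q.1 q.2}.Finite := by
  constructor
  · intro h
    rw [← Set.finite_coe_iff]
    refine Finite.of_injective (β := W.toAffine.Point)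
      (fun q : {q : ℚ × ℚ | W.toAffine.Nonsingular q.1 q.2} => Affine.Point.some q.1.1 q.1.2 q.2) ?_
    rintro ⟨⟨x, y⟩, h1⟩ ⟨⟨x', y'⟩, h2⟩ h3
    have h4 : x = x' ∧ y = y' := by
      injection h3 with h5 h6
      exact ⟨h5, h6⟩
    obtain ⟨rfl, rfl⟩ := h4
    rfl
  · intro h
    have h' : Finite {q : ℚ × ℚ | W.toAffine.Nonsingular q.1 q.2} := h.to_subtype
    refine Finite.of_surjective (α := Option {q : ℚ × ℚ | W.toAffine.Nonsingular q.1 q.2})
      (fun o => match o with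
        | none => (0 : W.toAffine.Point)
        | some q => Affine.Point.some q.1.1 q.1.2 q.2) ?_
    rintro (_ | ⟨x, y, hxy⟩)
    · exact ⟨none, rfl⟩
    · exact ⟨some ⟨(x, y), hxy⟩, rfl⟩

theorem quad_fin (p q : ℚ) : {x : ℚ | x ^ 2 + p * x + q = 0}.Finite := by
  by_cases h : ∃ x0 : ℚ, x0 ^ 2 + p * x0 + q = 0
  · obtain ⟨x0, h0⟩ := h
    refine Set.Finite.subset (Set.toFinite {x0, -x0 - p}) ?_
    intro x hx
    have h1 : x ^ 2 + p * x + q = 0 := hx
    have h2 : (x - x0) * (x + x0 + p) = 0 := by linear_combination h1 - h0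
    rcases mul_eq_zero.1 h2 with h3 | h3
    · exact Or.inl (by linarith)
    · exact Or.inr (by rw [Set.mem_singleton_iff]; linarith)
  · refine Set.Finite.subset Set.finite_empty ?_
    intro x hx
    exact (h ⟨x, hx⟩).elim

/-- **IFIN** -/
theorem t_IFIN : S_IFIN := by
  intro A B hA hB hAB hf
  rw [fin_iff] at hf ⊢
  have hA' : (A : ℚ) ≠ 0 := by exact_mod_cast hA
  have hB' : (B : ℚ) ≠ 0 := by exact_mod_cast hB
  have hAB' : (A : ℚ) - B ≠ 0 := by
    rw [sub_ne_zero]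
    exact_mod_cast hAB
  have hΔ : (IAB A B).toAffine.Δ ≠ 0 := by
    have e : (IAB A B).toAffine.Δ = 256 * ((A : ℚ) - B) ^ 4 * (A * B) := by
      unfold IAB WeierstrassCurve.toAffine WeierstrassCurve.Δ WeierstrassCurve.b₂
        WeierstrassCurve.b₄ WeierstrassCurve.b₆ WeierstrassCurve.b₈
      simp only
      ring
    rw [e]
    exact mul_ne_zero (mul_ne_zero (by norm_num) (pow_ne_zero _ hAB')) (mul_ne_zero hA' hB')
  obtain ⟨XS, hXS⟩ : ∃ XS : Set ℚ, XS = Prod.fst '' {q : ℚ × ℚ |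
    (IAB A B).toAffine.Nonsingular q.1 q.2} := ⟨_, rfl⟩
  have hXf : XS.Finite := by
    rw [hXS]
    exact hf.image _
  obtain ⟨xs, hxs⟩ : ∃ xs : Set ℚ, xs = {0} ∪ ⋃ X ∈ XS,
    {x : ℚ | x ^ 2 + ((A : ℚ) + B - X) * x + A * B = 0} := ⟨_, rfl⟩
  have hxf : xs.Finite := by
    rw [hxs]
    exact (Set.finite_singleton 0).union (hXf.biUnion fun X _ => quad_fin _ _)
  have hfin : (⋃ x ∈ xs, (fun y : ℚ => (x, y)) ''
      {y : ℚ | y ^ 2 + 0 * y + -(x * (x + A) * (x + B)) = 0}).Finite :=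
    hxf.biUnion fun x _ => (quad_fin _ _).image _
  refine hfin.subset ?_
  rintro ⟨x, y⟩ hxy
  have heq : y ^ 2 = x * (x + A) * (x + B) := by
    have h1 := (Affine.equation_iff _ _).1 hxy.1
    have h2 : y ^ 2 + 0 * x * y + 0 * y = x ^ 3 + ((A : ℚ) + B) * x ^ 2 + (A * B) * x + 0 := h1
    linear_combination h2
  rw [Set.mem_iUnion₂]
  refine ⟨x, ?_, y, ?_, rfl⟩
  swap
  · show y ^ 2 + 0 * y + -(x * (x + A) * (x + B)) = 0
    rw [heq]
    ring
  rw [hxs]
  by_cases hx : x = 0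
  · exact Or.inl hx
  · right
    rw [Set.mem_iUnion₂]
    refine ⟨(x + A) * (x + B) / x, ?_, ?_⟩
    · rw [hXS]
      refine ⟨((x + A) * (x + B) / x, y * (A * B - x ^ 2) / x ^ 2), ?_, rfl⟩
      show (IAB A B).toAffine.Nonsingular ((x + A) * (x + B) / x) (y * (A * B - x ^ 2) / x ^ 2)
      rw [← Affine.equation_iff_nonsingular_of_Δ_ne_zero hΔ, Affine.equation_iff]
      show (y * (A * B - x ^ 2) / x ^ 2) ^ 2 + 0 * ((x + A) * (x + B) / x) *
        (y * (A * B - x ^ 2) / x ^ 2) + 0 * (y * (A * B - x ^ 2) / x ^ 2) =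
        ((x + A) * (x + B) / x) ^ 3 + (-2 * ((A : ℚ) + B)) * ((x + A) * (x + B) / x) ^ 2 +
        (((A : ℚ) - B) ^ 2) * ((x + A) * (x + B) / x) + 0
      field_simp
      linear_combination (A * B - x ^ 2) ^ 2 * heq
    · show x ^ 2 + ((A : ℚ) + B - (x + A) * (x + B) / x) * x + A * B = 0
      field_simp
      ring

end Pool.Agent.H743.X17.QIFIN
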