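import Pool.Agent.H743.X17.IsoStm
import Pool.Graph.R_seed8.Y809.BSD14.Tam3
import Pool.Agent.H468.X15S.Pad

/-!
# I17 ITR2: the Tamagawa number at `17 ∥ N` of the curve `j = 2` (type `I₁*`)

`X = 4 x + N`, `Y = 4 (2 y + a₁ x)`, so `Y² = X (X² - 66 N X + N²)`.  The points outside `E⁰` are those with
`|X| < 1`.
-/

set_option autoImplicit false
set_option linter.all false

open scoped Classical

open WeierstrassCurve

namespace Pool.Agent.H743.X17.QITR2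

open Pool.Agent.H743.X17 (IsJ S_ITR2 be ga de)
open Pool.Agent.Y700 (SingRed E0 tam PtP)
open Pool.Agent.Y809.BSD14 (index_of t_E0 nadd nsub nmul npow nneg ladd lneg lsub lmul lmul'
  norm_nat_eq_one norm_two_pow norm_le_inv norm_M M_lt M_pos M_ne norm2 norm4 norm16 nnat)

section crd

variable {K : Type} [Field K] [DecidableEq K]

/-- the form of the equation -/
structure IsK (V : WeierstrassCurve.Affine K) (n : K) : Prop where
  a3 : V.a₃ = 0
  b2 : V.a₁ ^ 2 + 4 * V.a₂ = -63 * n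
  a4 : V.a₄ = -8 * n ^ 2
  a6 : V.a₆ = -n ^ 3

variable {V : WeierstrassCurve.Affine K} {n : K}

theorem IsK.eqn (h : IsK V n) {x y : K} (hE : V.Equation x y) :
    (4 * (2 * y + V.a₁ * x)) ^ 2 = (4 * x + n) * ((4 * x + n) ^ 2 - 66 * n * (4 * x + n) + n ^ 2) := by
  rw [Affine.equation_iff, h.a3, h.a6, h.a4] at hE
  linear_combination 64 * hE + 16 * x ^ 2 * h.b2

theorem IsK.eqn' (h : IsK V n) (h2 : (2 : K) ≠ 0) {x y : K}
    (hE : (4 * (2 * y + V.a₁ * x)) ^ 2 =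
      (4 * x + n) * ((4 * x + n) ^ 2 - 66 * n * (4 * x + n) + n ^ 2)) : V.Equation x y := by
  rw [Affine.equation_iff, h.a3, h.a6, h.a4]
  have h64 : (64 : K) ≠ 0 := by
    have : (64 : K) = 2 ^ 6 := by norm_num
    rw [this]
    exact pow_ne_zero _ h2
  apply mul_left_cancel₀ h64
  linear_combination hE - 16 * x ^ 2 * h.b2

theorem IsK.fx (h : IsK V n) (x y : K) : 16 * (V.a₁ * y - (3 * x ^ 2 + 2 * V.a₂ * x + V.a₄)) =
    2 * V.a₁ * (4 * (2 * y + V.a₁ * x)) -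
      (3 * (4 * x + n) ^ 2 - 132 * n * (4 * x + n) + n ^ 2) := by
  linear_combination (-8 * x) * h.b2 - 16 * h.a4

/-- the point `P` has the coordinates `X = 4 x + n`, `Y = 4 (2 y + a₁ x)` -/
def At (n : K) (P : V.Point) (X Y : K) : Prop :=
  ∃ (x y : K) (h : V.Nonsingular x y), P = Affine.Point.some x y h ∧ X = 4 * x + n ∧
    Y = 4 * (2 * y + V.a₁ * x)

theorem At.eqn (hV : IsK V n) {P : V.Point} {X Y : K} (h : At n P X Y) :
    Y ^ 2 = X * (X ^ 2 - 66 * n * X + n ^ 2) := by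
  obtain ⟨x, y, hn, rfl, rfl, rfl⟩ := h
  exact hV.eqn hn.1

theorem exists_at (n : K) {P : V.Point} (h : P ≠ 0) : ∃ X Y, At n P X Y := by
  rcases P with _ | ⟨x, y, hn⟩
  · exact absurd rfl h
  · exact ⟨_, _, x, y, hn, rfl, rfl, rfl⟩

theorem At.ext (h2 : (2 : K) ≠ 0) {P P' : V.Point} {X Y : K} (h : At n P X Y) (h' : At n P' X Y) :
    P = P' := by
  obtain ⟨x, y, hn, rfl, e1, e2⟩ := h
  obtain ⟨x', y', hn', rfl, e1', e2'⟩ := h'
  have hx : x = x' := by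
    have h3 : (2 ^ 2 : K) * x = 2 ^ 2 * x' := by linear_combination e1' - e1
    exact mul_left_cancel₀ (pow_ne_zero 2 h2) h3
  have hy : y = y' := by
    have h3 : (2 ^ 3 : K) * y = 2 ^ 3 * y' := by rw [hx] at e2; linear_combination e2' - e2
    exact mul_left_cancel₀ (pow_ne_zero 3 h2) h3
  subst hx hy
  rfl

theorem At.neg (hV : IsK V n) {P : V.Point} {X Y : K} (h : At n P X Y) : At n (-P) X (-Y) := by
  obtain ⟨x, y, hn, rfl, rfl, rfl⟩ := h
  rw [Affine.Point.neg_some]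
  refine ⟨_, _, _, rfl, rfl, ?_⟩
  rw [WeierstrassCurve.Affine.negY, hV.a3]
  ring

/-- points with given coordinates -/
theorem exists_pt (hV : IsK V n) (h2 : (2 : K) ≠ 0) {X Y : K}
    (he : Y ^ 2 = X * (X ^ 2 - 66 * n * X + n ^ 2))
    (hd : Y ≠ 0 ∨ 3 * X ^ 2 - 132 * n * X + n ^ 2 ≠ 0) : ∃ P : V.Point, At n P X Y := by
  have h4 : (4 : K) ≠ 0 := by
    have : (4 : K) = 2 ^ 2 := by norm_num
    rw [this]
    exact pow_ne_zero _ h2
  obtain ⟨x, hx⟩ : ∃ x : K, X = 4 * x + n := ⟨(X - n) / 4, by field_simp; ring⟩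
  obtain ⟨y, hy⟩ : ∃ y : K, Y = 4 * (2 * y + V.a₁ * x) :=
    ⟨(Y / 4 - V.a₁ * x) / 2, by field_simp; ring⟩
  have hq : V.Equation x y := by
    apply hV.eqn' h2
    rw [← hx, ← hy]
    exact he
  have hn : V.Nonsingular x y := by
    rw [Affine.nonsingular_iff]
    refine ⟨hq, ?_⟩
    by_contra hcon
    rw [not_or, not_ne_iff, not_ne_iff] at hcon
    obtain ⟨hc1, hc2⟩ := hcon
    rw [hV.a3] at hc2
    have hY : Y = 0 := by
      rw [hy]
      linear_combination 4 * hc2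
    rcases hd with hd | hd
    · exact hd hY
    · have hf := hV.fx x y
      rw [hc1, sub_self, mul_zero, ← hx, ← hy, hY] at hf
      apply hd
      linear_combination hf
  exact ⟨Affine.Point.some x y hn, x, y, hn, rfl, hx, hy⟩

theorem At.add (hV : IsK V n) (h2 : (2 : K) ≠ 0) {P P' : V.Point} {X Y X' Y' : K}
    (h : At n P X Y) (h' : At n P' X' Y') (hne : X ≠ X') :
    ∃ Y3, At n (P + P') (((Y - Y') / (X - X')) ^ 2 + 66 * n - X - X') Y3 := by
  obtain ⟨x, y, hn, rfl, rfl, rfl⟩ := h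
  obtain ⟨x', y', hn', rfl, rfl, rfl⟩ := h'
  have hx : x ≠ x' := fun h => hne (by rw [h])
  rw [Affine.Point.add_of_X_ne hx]
  refine ⟨_, _, _, _, rfl, ?_, rfl⟩
  rw [WeierstrassCurve.Affine.addX, WeierstrassCurve.Affine.slope_of_X_ne hx]
  have h1 : x - x' ≠ 0 := sub_ne_zero.2 hx
  have h4 : (4 : K) ≠ 0 := by
    have : (4 : K) = 2 ^ 2 := by norm_num
    rw [this]
    exact pow_ne_zero _ h2
  have h5 : (4 * (2 * y + V.a₁ * x) - 4 * (2 * y' + V.a₁ * x')) /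
      (4 * x + n - (4 * x' + n)) = 2 * ((y - y') / (x - x')) + V.a₁ := by
    have h6 : 4 * x + n - (4 * x' + n) = 4 * (x - x') := by ring
    rw [h6]
    field_simp
    ring
  rw [h5]
  linear_combination hV.b2

/-- doubling -/
theorem At.dbl (hV : IsK V n) (h2 : (2 : K) ≠ 0) {P : V.Point} {X Y : K}
    (h : At n P X Y) (hY : Y ≠ 0) :
    ∃ Y3, At n (P + P) ((X ^ 2 - n ^ 2) ^ 2 / (4 * Y ^ 2)) Y3 := by
  have he := h.eqn hV
  obtain ⟨x, y, hn, rfl, hX, hY'⟩ := h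
  have hy : y ≠ V.negY x y := by
    intro h
    apply hY
    rw [WeierstrassCurve.Affine.negY, hV.a3] at h
    rw [hY']
    linear_combination 4 * h
  have h4 : (4 : K) ≠ 0 := by
    have : (4 : K) = 2 ^ 2 := by norm_num
    rw [this]
    exact pow_ne_zero _ h2
  rw [Affine.Point.add_self_of_Y_ne hy]
  refine ⟨_, _, _, _, rfl, ?_, rfl⟩
  rw [WeierstrassCurve.Affine.addX, WeierstrassCurve.Affine.slope_of_Y_ne rfl hy]
  have hd : y - V.negY x y = Y / 4 := by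
    rw [WeierstrassCurve.Affine.negY, hV.a3, hY']
    field_simp
    ring
  rw [hd]
  obtain ⟨L, hL⟩ : ∃ L : K, L = (3 * x ^ 2 + 2 * V.a₂ * x + V.a₄ - V.a₁ * y) / (Y / 4) := ⟨_, rfl⟩
  rw [← hL]
  have hY4 : Y / 4 ≠ 0 := div_ne_zero hY h4
  have hL1 : L * Y = 4 * (3 * x ^ 2 + 2 * V.a₂ * x + V.a₄ - V.a₁ * y) := by
    rw [hL]
    field_simp
  have hfx := hV.fx x y
  rw [← hX, ← hY'] at hfx
  have hL2 : 2 * (2 * L + V.a₁) * Y = 3 * X ^ 2 - 132 * n * X + n ^ 2 := by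
    have h16 : (1 : K) ≠ 0 := one_ne_zero
    linear_combination 4 * hL1 - hfx
  have h44 : (4 * Y ^ 2 : K) ≠ 0 := mul_ne_zero h4 (pow_ne_zero _ hY)
  rw [div_eq_iff h44]
  have e1 : (2 * (2 * L + V.a₁) * Y) ^ 2 = (3 * X ^ 2 - 132 * n * X + n ^ 2) ^ 2 := by rw [hL2]
  have e2 : (4 * (L ^ 2 + V.a₁ * L - V.a₂ - x - x) + n) =
      (2 * L + V.a₁) ^ 2 + 66 * n - 2 * X := by
    rw [hX]
    linear_combination -hV.b2
  rw [e2]
  linear_combination -e1 - 4 * (66 * n - 2 * X) * he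

/-- translation by the point `(0, 0)` -/
theorem At.addT (hV : IsK V n) (h2 : (2 : K) ≠ 0) {P T : V.Point} {X Y : K} (h : At n P X Y)
    (hT : At n T 0 0) (hX : X ≠ 0) : ∃ X3 Y3, At n (P + T) X3 Y3 ∧ X3 * X = n ^ 2 := by
  obtain ⟨Y3, h3⟩ := h.add hV h2 hT hX
  refine ⟨_, Y3, h3, ?_⟩
  have e0 := h.eqn hV
  simp only [sub_zero]
  obtain ⟨L, hL⟩ : ∃ L : K, L = Y / X := ⟨_, rfl⟩
  have hL1 : L * X = Y := by rw [hL, div_mul_cancel₀ _ hX]
  rw [← hL]
  apply mul_right_cancel₀ hX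
  rw [← hL1] at e0
  linear_combination e0

theorem two_tors (hV : IsK V n) (h2 : (2 : K) ≠ 0) {T : V.Point} {e : K} (hT : At n T e 0) :
    T + T = 0 := by
  have h1 : At n (-T) e 0 := by simpa using hT.neg hV
  have h3 : T = -T := hT.ext h2 h1
  calc T + T = T + -T := by rw [← h3]
    _ = 0 := add_neg_cancel T

end crd

section

variable {q : ℕ} [Fact q.Prime] {W : WeierstrassCurve ℤ} {N : ℤ}

theorem isK (h : IsJ 2 W N) : IsK ((W.map (Int.castRingHom ℚ_[q])).toAffine) (N : ℚ_[q]) := by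
  have h2 : W.a₁ ^ 2 + 4 * W.a₂ = -63 * N := by
    have h5 := h.b2
    rw [WeierstrassCurve.b₂] at h5
    exact h5
  have h4 : W.a₄ = -8 * N ^ 2 := h.a4
  have h6 : W.a₆ = -N ^ 3 := by
    have h5 : W.a₆ = -1 * N ^ 3 := h.a6
    rw [h5]; ring
  refine ⟨?_, ?_, ?_, ?_⟩
  · show ((W.a₃ : ℤ) : ℚ_[q]) = 0
    rw [h.a3, Int.cast_zero]
  · show ((W.a₁ : ℤ) : ℚ_[q]) ^ 2 + 4 * ((W.a₂ : ℤ) : ℚ_[q]) = -63 * (N : ℚ_[q])
    exact_mod_cast h2
  · show ((W.a₄ : ℤ) : ℚ_[q]) = -8 * (N : ℚ_[q]) ^ 2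
    exact_mod_cast h4
  · show ((W.a₆ : ℤ) : ℚ_[q]) = -(N : ℚ_[q]) ^ 3
    exact_mod_cast h6

theorem nint (k : ℤ) : ‖(k : ℚ_[q])‖ ≤ 1 := Padic.norm_int_le_one k

/-- singular reduction in the coordinates `X`, `Y` -/
theorem sing_XY (h : IsJ 2 W N) (hq2 : q ≠ 2) (x y : ℚ_[q]) :
    SingRed W q x y ↔ ‖4 * x + N‖ ≤ 1 ∧ ‖4 * (2 * y + (W.a₁ : ℚ_[q]) * x)‖ < 1 ∧
      ‖3 * (4 * x + N) ^ 2 - 132 * (N : ℚ_[q]) * (4 * x + N) + (N : ℚ_[q]) ^ 2‖ < 1 := by
  have hV := isK (q := q) h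
  have e2 := hV.fx x y
  have n4 := norm4 hq2
  have n2' := norm2 hq2
  have n16 := norm16 hq2
  have c3 : ((W.a₃ : ℤ) : ℚ_[q]) = 0 := by rw [h.a3, Int.cast_zero]
  have e3 : 16 * ((W.a₁ : ℚ_[q]) * y - (3 * x ^ 2 + 2 * (W.a₂ : ℚ_[q]) * x + (W.a₄ : ℚ_[q]))) =
      2 * (W.a₁ : ℚ_[q]) * (4 * (2 * y + (W.a₁ : ℚ_[q]) * x)) -
      (3 * (4 * x + N) ^ 2 - 132 * (N : ℚ_[q]) * (4 * x + N) + (N : ℚ_[q]) ^ 2) := e2
  have hA := nint (q := q) W.a₁
  have hNi := nint (q := q) N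
  constructor
  · rintro ⟨hx, hy, hfx, hfy⟩
    rw [c3, add_zero] at hfy
    have hY : ‖4 * (2 * y + (W.a₁ : ℚ_[q]) * x)‖ < 1 := by rw [norm_mul, n4, one_mul]; exact hfy
    refine ⟨nadd (nmul n4.le hx) hNi, hY, ?_⟩
    have h1 := lmul (a := (16 : ℚ_[q])) n16.le hfx
    rw [e3] at h1
    have h2 := lsub (lmul (a := 2 * (W.a₁ : ℚ_[q])) (nmul n2'.le hA) hY) h1
    rw [sub_sub_cancel] at h2
    exact h2
  · rintro ⟨hX, hY, hF⟩
    have hx : ‖x‖ ≤ 1 := by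
      have h1 : ‖4 * x‖ ≤ 1 := by
        have : 4 * x = (4 * x + N) - N := by ring
        rw [this]
        exact nsub hX hNi
      rwa [norm_mul, n4, one_mul] at h1
    have hY' := hY
    rw [norm_mul, n4, one_mul] at hY'
    have hy : ‖y‖ ≤ 1 := by
      have h1 : ‖2 * y‖ = ‖y‖ := by rw [norm_mul, n2', one_mul]
      rw [← h1]
      have : 2 * y = (2 * y + (W.a₁ : ℚ_[q]) * x) - (W.a₁ : ℚ_[q]) * x := by ring
      rw [this]
      exact nsub hY'.le (nmul hA hx)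
    refine ⟨hx, hy, ?_, ?_⟩
    · have h1 : ‖16 * ((W.a₁ : ℚ_[q]) * y - (3 * x ^ 2 + 2 * (W.a₂ : ℚ_[q]) * x + (W.a₄ : ℚ_[q])))‖ < 1 := by
        rw [e3]
        exact lsub (lmul (nmul n2'.le hA) hY) hF
      rw [norm_mul, n16, one_mul] at h1
      exact h1
    · rw [c3, add_zero]
      exact hY'

/-- membership in `E⁰` -/
theorem mem_E0 (h : IsJ 2 W N) (hq2 : q ≠ 2) {P : PtP W q} {X Y : ℚ_[q]}
    (hP : At (N : ℚ_[q]) P X Y) : P ∉ E0 W q ↔ ‖X‖ ≤ 1 ∧ ‖Y‖ < 1 ∧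
      ‖3 * X ^ 2 - 132 * (N : ℚ_[q]) * X + (N : ℚ_[q]) ^ 2‖ < 1 := by
  obtain ⟨x, y, hn, rfl, rfl, rfl⟩ := hP
  have h0 := sing_XY (q := q) h hq2 x y
  have h1 : (Affine.Point.some x y hn : PtP W q) ∉ E0 W q ↔ SingRed W q x y := by
    rw [t_E0]
    constructor
    · intro h1
      push Not at h1
      obtain ⟨x', y', h', e, hs⟩ := h1
      injection e with e1 e2
      rw [e1, e2]
      exact hs
    · intro hs h1
      exact h1 x y hn rfl hs
  rw [h1, h0]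
  rfl

theorem parity' (Y : ℚ_[q]) (k : ℕ) : ‖Y‖ ^ 2 ≠ ((q : ℝ)⁻¹) ^ (2 * k + 1) := by
  have hq : (1 : ℝ) < q := by exact_mod_cast (Fact.out : q.Prime).one_lt
  intro h
  rcases eq_or_ne Y 0 with rfl | hY
  · rw [norm_zero] at h
    have : (0 : ℝ) < ((q : ℝ)⁻¹) ^ (2 * k + 1) := by positivity
    rw [← h] at this
    norm_num at this
  · rw [Padic.norm_eq_zpow_neg_valuation hY, ← zpow_natCast, ← zpow_mul, inv_pow,
      ← zpow_natCast, ← zpow_neg] at h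
    have := zpow_right_injective₀ (by linarith) hq.ne' h
    push_cast at this
    omega

/-- the points outside `E⁰` are those with `|X| < 1` -/
theorem memX (h : IsJ 2 W N) (hq2 : q ≠ 2) (hm : ‖(N : ℚ_[q])‖ < 1) {P : PtP W q} {X Y : ℚ_[q]}
    (hP : At (N : ℚ_[q]) P X Y) : P ∉ E0 W q ↔ ‖X‖ < 1 := by
  have he := hP.eqn (isK (q := q) h)
  have i66 : ‖(66 : ℚ_[q])‖ ≤ 1 := by exact_mod_cast nint (q := q) 66
  have i132 : ‖(132 : ℚ_[q])‖ ≤ 1 := by exact_mod_cast nint (q := q) 132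
  have i3 : ‖(3 : ℚ_[q])‖ ≤ 1 := by exact_mod_cast nint (q := q) 3
  have hm2 : ‖(N : ℚ_[q]) ^ 2‖ < 1 := by
    rw [pow_two]
    exact lmul hm.le hm
  rw [mem_E0 h hq2 hP]
  constructor
  · rintro ⟨hX, hY, -⟩
    have h3 : ‖X ^ 3‖ < 1 := by
      have e : X ^ 3 = Y * Y + (66 * X ^ 2 - N * X) * N := by
        linear_combination -he
      rw [e]
      exact ladd (lmul hY.le hY) (lmul (nsub (nmul i66 (npow hX 2)) (nmul hm.le hX)) hm)
    rw [norm_pow] at h3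
    by_contra h
    rw [not_lt] at h
    have := one_le_pow₀ h (n := 3)
    linarith
  · intro hX
    have hX2 : ‖X ^ 2‖ < 1 := by
      rw [pow_two]
      exact lmul hX.le hX
    refine ⟨hX.le, ?_, ?_⟩
    · have h1 : ‖Y ^ 2‖ < 1 := by
        rw [he]
        exact lmul' hX (nadd (nsub hX2.le (nmul (nmul i66 hm.le) hX.le)) hm2.le)
      rw [norm_pow] at h1
      by_contra h
      rw [not_lt] at h
      have := one_le_pow₀ h (n := 2)
      linarith
    · exact ladd (lsub (lmul i3 hX2) (lmul (nmul i132 hm.le) hX)) hm2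

end

section seventeen

/-- a generator of a cyclic group of order four -/
theorem index_four {G : Type} [AddCommGroup G] (H : AddSubgroup G) (Q : G) (h2 : Q + Q ∉ H)
    (h4 : Q + Q + (Q + Q) ∈ H)
    (hc : ∀ P, P ∈ H ∨ P - Q ∈ H ∨ P + Q ∈ H ∨ P - (Q + Q) ∈ H) : H.index = 4 := by
  have hm : ∀ P : G, (QuotientAddGroup.mk P : G ⧸ H) = 0 ↔ P ∈ H := fun P =>
    QuotientAddGroup.eq_zero_iff P
  have ho : addOrderOf (QuotientAddGroup.mk Q : G ⧸ H) = 2 ^ (1 + 1) := by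
    apply addOrderOf_eq_prime_pow
    · rw [← QuotientAddGroup.mk_nsmul, hm]
      rw [pow_one, two_nsmul]
      exact h2
    · rw [← QuotientAddGroup.mk_nsmul, hm]
      have : (2 ^ (1 + 1)) • Q = Q + Q + (Q + Q) := by
        rw [show (2 ^ (1 + 1) : ℕ) = 2 + 2 by norm_num, add_nsmul, two_nsmul]
      rw [this]
      exact h4
  have ht : ∀ g : G ⧸ H, g ∈ AddSubgroup.zmultiples (QuotientAddGroup.mk Q : G ⧸ H) := by
    intro g
    induction g using QuotientAddGroup.induction_on with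
    | H P =>
      rcases hc P with h | h | h | h
      · rw [(hm P).2 h]
        exact zero_mem _
      · have h5 : (QuotientAddGroup.mk P : G ⧸ H) = QuotientAddGroup.mk Q := by
          rw [QuotientAddGroup.eq, ← neg_mem_iff]
          have : -(-P + Q) = P - Q := by abel
          rw [this]
          exact h
        rw [h5]
        exact AddSubgroup.mem_zmultiples _
      · have h5 : (QuotientAddGroup.mk P : G ⧸ H) = QuotientAddGroup.mk (-Q) := by
          rw [QuotientAddGroup.eq, ← neg_mem_iff]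
          have : -(-P + -Q) = P + Q := by abel
          rw [this]
          exact h
        rw [h5, QuotientAddGroup.mk_neg]
        exact neg_mem (AddSubgroup.mem_zmultiples _)
      · have h5 : (QuotientAddGroup.mk P : G ⧸ H) = QuotientAddGroup.mk (Q + Q) := by
          rw [QuotientAddGroup.eq, ← neg_mem_iff]
          have : -(-P + (Q + Q)) = P - (Q + Q) := by abel
          rw [this]
          exact h
        rw [h5, QuotientAddGroup.mk_add]
        exact add_mem (AddSubgroup.mem_zmultiples _) (AddSubgroup.mem_zmultiples _)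
  have htop : AddSubgroup.zmultiples (QuotientAddGroup.mk Q : G ⧸ H) = ⊤ :=
    (AddSubgroup.eq_top_iff' _).2 ht
  rw [AddSubgroup.index]
  have h6 : Nat.card (AddSubgroup.zmultiples (QuotientAddGroup.mk Q : G ⧸ H)) = 2 ^ (1 + 1) := by
    rw [Nat.card_zmultiples, ho]
  rw [htop, AddSubgroup.card_top] at h6
  rw [h6]
  norm_num

variable [Fact (Nat.Prime 17)] {W : WeierstrassCurve ℤ} {n : ℤ}

theorem t_n17 : ‖(17 : ℚ_[17])‖ = 1 / 17 := by
  have := Padic.norm_p (p := 17)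
  simpa using this

theorem t_l17 : ‖(17 : ℚ_[17])‖ < 1 := by rw [t_n17]; norm_num

theorem t_lt17 {x : ℚ_[17]} (h : ‖x‖ < 1) : ‖x‖ ≤ 1 / 17 := by
  have := norm_le_inv 17 h
  simpa using this

theorem t_div17 {x : ℚ_[17]} (h : ‖x‖ < 1) : ∃ u : ℚ_[17], x = 17 * u ∧ ‖u‖ ≤ 1 := by
  refine ⟨x / 17, by rw [mul_div_cancel₀]; norm_num, ?_⟩
  rw [norm_div, t_n17, div_le_iff₀ (by norm_num)]
  linarith [t_lt17 h]

theorem unit_int {k : ℤ} (h : ¬ (17 : ℤ) ∣ k) : ‖(k : ℚ_[17])‖ = 1 :=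
  le_antisymm (Padic.norm_int_le_one k) (not_lt.1 fun h1 =>
    h (by exact_mod_cast Padic.norm_intCast_lt_one_iff.1 h1))

theorem castN : (((17 * n : ℤ)) : ℚ_[17]) = 17 * n := by push_cast; ring

theorem normN (hn : ¬ (17 : ℤ) ∣ n) : ‖(((17 * n : ℤ)) : ℚ_[17])‖ = 1 / 17 := by
  rw [castN, norm_mul, t_n17, unit_int hn, mul_one]

theorem sq_lt {x : ℚ_[17]} (h : ‖x ^ 2‖ < 1) : ‖x‖ < 1 := by
  rw [norm_pow] at h
  by_contra h1
  rw [not_lt] at h1
  have := one_le_pow₀ h1 (n := 2)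
  linarith

/-- the points with `|X| = 1/17` -/
theorem unit_case (h : IsJ 2 W (17 * n)) (hn : ¬ (17 : ℤ) ∣ n) {P : PtP W 17} {t Y : ℚ_[17]}
    (hP : At (((17 * n : ℤ)) : ℚ_[17]) P (((17 * n : ℤ)) * t) Y) (ht : ‖t‖ = 1) :
    ∃ s w : ℚ_[17], t = 33 + 17 * s ∧ ‖s‖ ≤ 1 ∧ Y = 17 * ((17 * n : ℤ)) * w ∧
      w ^ 2 = n * (33 + 17 * s) * (17 * s ^ 2 - 64) ∧ ‖w ^ 2 - 64 * n‖ < 1 := by
  have hV := isK (q := 17) h
  have he := hP.eqn hV
  have hN := normN hn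
  have hNc : (((17 * n : ℤ)) : ℚ_[17]) = 17 * n := castN
  set N : ℚ_[17] := (((17 * n : ℤ)) : ℚ_[17]) with hNdef
  have uM : ‖(n : ℚ_[17])‖ = 1 := unit_int hn
  have hN0 : N ≠ 0 := by
    intro h0
    rw [h0, norm_zero] at hN
    norm_num at hN
  have i66 : ‖(66 : ℚ_[17])‖ ≤ 1 := by exact_mod_cast nint (q := 17) 66
  have i33 : ‖(33 : ℚ_[17])‖ ≤ 1 := by exact_mod_cast nint (q := 17) 33
  have i64 : ‖(64 : ℚ_[17])‖ ≤ 1 := by exact_mod_cast nint (q := 17) 64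
  have i128 : ‖(128 : ℚ_[17])‖ ≤ 1 := by exact_mod_cast nint (q := 17) 128
  have i4 : ‖(4 : ℚ_[17])‖ ≤ 1 := by exact_mod_cast nint (q := 17) 4
  have i2 : ‖(2 : ℚ_[17])‖ ≤ 1 := by exact_mod_cast nint (q := 17) 2
  have l17 := t_l17
  have e1 : Y ^ 2 = N ^ 3 * (t * (t ^ 2 - 66 * t + 1)) := by
    rw [he]; ring
  have h1 : ‖t ^ 2 - 66 * t + 1‖ < 1 := by
    refine lt_of_le_of_ne (nadd (nsub (npow ht.le 2) (nmul i66 ht.le)) norm_one.le) fun h2 => ?_
    have h3 := congrArg norm e1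
    rw [norm_pow, norm_mul, norm_mul, norm_pow, hN, ht, h2] at h3
    refine parity' (q := 17) Y 1 ?_
    rw [h3]
    norm_num
  have h2 : ‖t + 1‖ < 1 := by
    apply sq_lt
    have e : (t + 1) ^ 2 = (t ^ 2 - 66 * t + 1) + 17 * (4 * t) := by ring
    rw [e]
    exact ladd h1 (lmul' l17 (nmul i4 ht.le))
  obtain ⟨u, hu, hu1⟩ := t_div17 h2
  have hts : t = 33 + 17 * (u - 2) := by linear_combination hu
  have hs1 : ‖u - 2‖ ≤ 1 := nsub hu1 i2
  obtain ⟨s, hs⟩ : ∃ s, s = u - 2 := ⟨_, rfl⟩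
  rw [← hs] at hts hs1
  have h17 : (17 : ℚ_[17]) ≠ 0 := by norm_num
  refine ⟨s, Y / (17 * N), hts, hs1, ?_, ?_, ?_⟩
  · field_simp
  · rw [div_pow, div_eq_iff (pow_ne_zero _ (mul_ne_zero h17 hN0)), e1, hts, hNc]
    ring
  · have e3 : (Y / (17 * N)) ^ 2 - 64 * n =
        17 * (n * (33 * s ^ 2 - 128 + 17 * s ^ 3 - 64 * s)) := by
      rw [div_pow, e1, hts, hNc]
      have hn0 : (n : ℚ_[17]) ≠ 0 := by
        intro h0
        rw [h0, norm_zero] at uM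
        norm_num at uM
      field_simp
      ring
    rw [e3]
    exact lmul' l17 (nmul uM.le (nsub (nadd (nsub (nmul i33 (npow hs1 2)) i128)
      (nmul l17.le (npow hs1 3))) (nmul i64 hs1)))

theorem exists_T (h : IsJ 2 W (17 * n)) (hn : ¬ (17 : ℤ) ∣ n) :
    ∃ T : PtP W 17, At (((17 * n : ℤ)) : ℚ_[17]) T 0 0 := by
  have hV := isK (q := 17) h
  have hN := normN hn
  refine exists_pt hV two_ne_zero (by ring) (Or.inr ?_)
  have hN0 : (((17 * n : ℤ)) : ℚ_[17]) ≠ 0 := by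
    intro h0
    rw [h0, norm_zero] at hN
    norm_num at hN
  have : 3 * (0 : ℚ_[17]) ^ 2 - 132 * (((17 * n : ℤ)) : ℚ_[17]) * 0 + (((17 * n : ℤ)) : ℚ_[17]) ^ 2 =
    (((17 * n : ℤ)) : ℚ_[17]) ^ 2 := by ring
  rw [this]
  exact pow_ne_zero _ hN0

/-- points with `|X| ≤ 1/289` -/
theorem far (h : IsJ 2 W (17 * n)) (hn : ¬ (17 : ℤ) ∣ n) {P T : PtP W 17} {X Y : ℚ_[17]}
    (hT : At (((17 * n : ℤ)) : ℚ_[17]) T 0 0) (hP : At (((17 * n : ℤ)) : ℚ_[17]) P X Y)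
    (hX : ‖X‖ ≤ 1 / 289) : P + T ∈ E0 W 17 := by
  have hV := isK (q := 17) h
  have hN := normN hn
  have hm : ‖(((17 * n : ℤ)) : ℚ_[17])‖ < 1 := by rw [hN]; norm_num
  by_cases hX0 : X = 0
  · have hY : Y = 0 := by
      have he := hP.eqn hV
      rw [hX0, zero_mul] at he
      exact pow_eq_zero_iff two_ne_zero |>.1 he
    rw [hY, hX0] at hP
    rw [hP.ext two_ne_zero hT, two_tors hV two_ne_zero hT]
    exact zero_mem _
  · obtain ⟨X3, Y3, h3, h4⟩ := hP.addT hV two_ne_zero hT hX0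
    by_contra hcon
    have h5 := (memX h (by norm_num) hm h3).1 hcon
    have e6 := congrArg norm h4
    rw [norm_mul, norm_pow, hN] at e6
    have h9 : 0 < ‖X‖ := norm_pos_iff.2 hX0
    have h10 : ‖X3‖ * ‖X‖ < 1 * ‖X‖ := mul_lt_mul_of_pos_right h5 h9
    norm_num at e6
    linarith

theorem tam_two (h : IsJ 2 W (17 * n)) (hn : ¬ (17 : ℤ) ∣ n) (hj : jacobiSym n 17 ≠ 1) :
    tam W 17 = 2 := by
  have hV := isK (q := 17) h
  have hN := normN hn
  have hm : ‖(((17 * n : ℤ)) : ℚ_[17])‖ < 1 := by rw [hN]; norm_num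
  have hN0 : (((17 * n : ℤ)) : ℚ_[17]) ≠ 0 := by
    intro h0
    rw [h0, norm_zero] at hN
    norm_num at hN
  obtain ⟨T, hT⟩ := exists_T h hn
  have hTn : T ∉ E0 W 17 := (memX h (by norm_num) hm hT).2 (by rw [norm_zero]; norm_num)
  rw [Pool.Agent.Y700.tam, AddSubgroup.index_eq_two_iff_exists_notMem_and]
  refine ⟨T, hTn, fun P => ?_⟩
  by_cases hP : P ∈ E0 W 17
  · exact Or.inr hP
  left
  have hP0 : P ≠ 0 := fun h0 => hP (by rw [h0]; exact zero_mem _)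
  obtain ⟨X, Y, hat⟩ := exists_at (((17 * n : ℤ)) : ℚ_[17]) hP0
  have hX := (memX h (by norm_num) hm hat).1 hP
  obtain ⟨t, rfl⟩ : ∃ t : ℚ_[17], X = ((17 * n : ℤ)) * t :=
    ⟨X / ((17 * n : ℤ)), by rw [mul_div_cancel₀ _ hN0]⟩
  have ht1 : ‖t‖ ≤ 1 := by
    have h1 := t_lt17 hX
    rw [norm_mul, hN] at h1
    linarith
  rcases lt_or_eq_of_le ht1 with ht | ht
  · apply far h hn hT hat
    rw [norm_mul, hN]
    have := t_lt17 ht
    linarith
  · exfalso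
    obtain ⟨s, w, -, -, -, -, hw⟩ := unit_case h hn hat ht
    have uM : ‖(n : ℚ_[17])‖ = 1 := unit_int hn
    have i64 : ‖(64 : ℚ_[17])‖ ≤ 1 := by exact_mod_cast nint (q := 17) 64
    have hw1 : ‖w‖ ≤ 1 := by
      have h10 : ‖w ^ 2‖ ≤ 1 := by
        have e : w ^ 2 = (w ^ 2 - 64 * n) + 64 * n := by ring
        rw [e]
        exact nadd hw.le (nmul i64 uM.le)
      rw [norm_pow] at h10
      by_contra h
      rw [not_le] at h
      have := one_lt_pow₀ h two_ne_zero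
      linarith
    apply hj
    rw [← jacobiSym.legendreSym.to_jacobiSym]
    have hn0 : ((n : ℤ) : ZMod 17) ≠ 0 := by
      rw [Ne, ZMod.intCast_zmod_eq_zero_iff_dvd]
      exact_mod_cast hn
    rw [legendreSym.eq_one_iff 17 hn0]
    obtain ⟨a, rfl⟩ : ∃ a : ℤ_[17], (a : ℚ_[17]) = w := ⟨⟨w, hw1⟩, rfl⟩
    have e1 : PadicInt.toZMod (a ^ 2 - 64 * (n : ℤ_[17])) = 0 := by
      rw [Pool.Agent.Y809.BSD14.toZMod_eq_zero, PadicInt.norm_def]
      push_cast
      exact hw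
    simp only [map_sub, map_mul, map_pow, map_ofNat, map_intCast] at e1
    refine ⟨PadicInt.toZMod a * 15, ?_⟩
    have h17 : (17 : ZMod 17) = 0 := by exact_mod_cast ZMod.natCast_self 17
    linear_combination (-225 : ZMod 17) * e1 - 847 * (n : ZMod 17) * h17

/-- the sum of two points with `|X| = 1/17` and opposite signs -/
theorem diff (h : IsJ 2 W (17 * n)) (hn : ¬ (17 : ℤ) ∣ n) {P R : PtP W 17} {s w r : ℚ_[17]}
    (hP : At (((17 * n : ℤ)) : ℚ_[17]) P (((17 * n : ℤ)) * (33 + 17 * s))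
      (17 * ((17 * n : ℤ)) * w))
    (hR : At (((17 * n : ℤ)) : ℚ_[17]) R (((17 * n : ℤ)) * 33) (17 * ((17 * n : ℤ)) * r))
    (hs : ‖s‖ ≤ 1) (hw : w ^ 2 = n * (33 + 17 * s) * (17 * s ^ 2 - 64))
    (hr : r ^ 2 = n * 33 * (-64)) (hwr : ‖w - r‖ = 1) : P + R ∈ E0 W 17 := by
  have hV := isK (q := 17) h
  have hN := normN hn
  have hm : ‖(((17 * n : ℤ)) : ℚ_[17])‖ < 1 := by rw [hN]; norm_num
  have hN0 : (((17 * n : ℤ)) : ℚ_[17]) ≠ 0 := by
    intro h0
    rw [h0, norm_zero] at hN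
    norm_num at hN
  set N : ℚ_[17] := (((17 * n : ℤ)) : ℚ_[17]) with hNdef
  have h17 : (17 : ℚ_[17]) ≠ 0 := by norm_num
  have hwr0 : w - r ≠ 0 := by
    intro h0
    rw [h0, norm_zero] at hwr
    norm_num at hwr
  by_cases hs0 : s = 0
  · have e1 : (w - r) * (w + r) = 0 := by
      rw [hs0] at hw
      linear_combination hw - hr
    have e2 : w = -r := by
      have := (mul_eq_zero.1 e1).resolve_left hwr0
      linear_combination this
    have hR' := hR.neg hV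
    have e3 : -(17 * N * r) = 17 * N * w := by rw [e2]; ring
    have e4 : N * (33 + 17 * s) = N * 33 := by rw [hs0]; ring
    rw [e3] at hR'
    rw [e4] at hP
    rw [hP.ext two_ne_zero hR', neg_add_cancel]
    exact zero_mem _
  · have hne : N * (33 + 17 * s) ≠ N * 33 := by
      intro h0
      have h1 := mul_left_cancel₀ hN0 h0
      apply hs0
      apply mul_left_cancel₀ h17
      linear_combination h1
    obtain ⟨Y3, h3⟩ := hP.add hV two_ne_zero hR hne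
    by_contra hcon
    have h4 := (memX h (by norm_num) hm h3).1 hcon
    obtain ⟨l, hl⟩ : ∃ l : ℚ_[17], l = (17 * N * w - 17 * N * r) / (N * (33 + 17 * s) - N * 33) :=
      ⟨_, rfl⟩
    have hl1 : l * s = w - r := by
      have h6 : N * (33 + 17 * s) - N * 33 ≠ 0 := sub_ne_zero.2 hne
      have h7 : l * (N * (33 + 17 * s) - N * 33) = 17 * N * w - 17 * N * r := by
        rw [hl, div_mul_cancel₀ _ h6]
      apply mul_left_cancel₀ (mul_ne_zero h17 hN0)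
      linear_combination h7
    rw [← hl] at h4
    have i33 : ‖(33 : ℚ_[17])‖ ≤ 1 := by exact_mod_cast nint (q := 17) 33
    have h8 : ‖l ^ 2‖ < 1 := by
      have e : l ^ 2 = (l ^ 2 + 66 * N - N * (33 + 17 * s) - N * 33) + N * (17 * s) := by ring
      rw [e]
      exact ladd h4 (lmul' hm (nmul t_l17.le hs))
    have h9 : ‖l‖ < 1 := sq_lt h8
    have h10 : ‖l * s‖ < 1 := lmul' h9 hs
    rw [hl1, hwr] at h10
    exact lt_irrefl _ h10

theorem tam_four (h : IsJ 2 W (17 * n)) (hn : ¬ (17 : ℤ) ∣ n) (hj : jacobiSym n 17 = 1) :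
    tam W 17 = 4 := by
  have hV := isK (q := 17) h
  have hN := normN hn
  have hm : ‖(((17 * n : ℤ)) : ℚ_[17])‖ < 1 := by rw [hN]; norm_num
  have hN0 : (((17 * n : ℤ)) : ℚ_[17]) ≠ 0 := by
    intro h0
    rw [h0, norm_zero] at hN
    norm_num at hN
  have uM : ‖(n : ℚ_[17])‖ = 1 := unit_int hn
  have hNc : (((17 * n : ℤ)) : ℚ_[17]) = 17 * n := castN
  obtain ⟨T, hT⟩ := exists_T h hn
  have hTn : T ∉ E0 W 17 := (memX h (by norm_num) hm hT).2 (by rw [norm_zero]; norm_num)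
  have hTT := two_tors hV two_ne_zero hT
  have u2 : ‖(2 : ℚ_[17])‖ = 1 := norm2 (by norm_num)
  have u4 : ‖(4 : ℚ_[17])‖ = 1 := norm4 (by norm_num)
  have u16 : ‖(16 : ℚ_[17])‖ = 1 := norm16 (by norm_num)
  have i66 : ‖(66 : ℚ_[17])‖ ≤ 1 := by exact_mod_cast nint (q := 17) 66
  -- the square root
  obtain ⟨w0, hw0⟩ : ∃ w0 : ℚ_[17], w0 ^ 2 = -33 * n := by
    have hj' : jacobiSym (-33 * n) (17 : ℕ) = 1 := by
      rw [jacobiSym.mul_left, hj, mul_one, jacobiSym.mod_left]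
      norm_num
    have hnd : ¬ ((17 : ℕ) : ℤ) ∣ -33 * n := by
      intro h
      have h5 : Prime ((17 : ℕ) : ℤ) := Nat.prime_iff_prime_int.1 (by norm_num)
      rcases h5.dvd_or_dvd h with h | h
      · norm_num at h
      · exact hn (by exact_mod_cast h)
    obtain ⟨r, hr⟩ := Pool.Agent.H468.X15.sq_of_jac (p := 17) (by norm_num) hnd hj'
    refine ⟨r, ?_⟩
    push_cast at hr
    rw [hr]
    ring
  have u33 : ‖(33 : ℚ_[17])‖ = 1 := by
    have : ¬ (17 : ℤ) ∣ 33 := by norm_num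
    exact_mod_cast unit_int this
  have hw0u : ‖w0‖ = 1 := by
    have h1 : ‖w0 ^ 2‖ = 1 := by
      rw [hw0, norm_mul, norm_neg, u33, uM, one_mul]
    rw [norm_pow] at h1
    exact (pow_eq_one_iff_of_nonneg (norm_nonneg _) two_ne_zero).1 h1
  have hw0n : w0 ≠ 0 := by
    intro h
    rw [h, norm_zero] at hw0u
    norm_num at hw0u
  have h17 : (17 : ℚ_[17]) ≠ 0 := by norm_num
  have hr2 : (8 * w0) ^ 2 = n * 33 * (-64) := by linear_combination 64 * hw0
  have u8 : ‖(8 : ℚ_[17])‖ = 1 := by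
    have : ¬ (17 : ℤ) ∣ 8 := by norm_num
    exact_mod_cast unit_int this
  have hY0 : 17 * (((17 * n : ℤ)) : ℚ_[17]) * (8 * w0) ≠ 0 :=
    mul_ne_zero (mul_ne_zero h17 hN0) (mul_ne_zero (by norm_num) hw0n)
  -- the generator
  obtain ⟨Q, hQ⟩ := exists_pt hV two_ne_zero (X := (((17 * n : ℤ)) : ℚ_[17]) * 33)
    (Y := 17 * (((17 * n : ℤ)) : ℚ_[17]) * (8 * w0)) (by
      rw [mul_pow, hr2, hNc]
      ring) (Or.inl hY0)
  obtain ⟨Y2, hQ2⟩ := hQ.dbl hV two_ne_zero hY0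
  have hX2 : ‖(((((17 * n : ℤ)) : ℚ_[17]) * 33) ^ 2 - (((17 * n : ℤ)) : ℚ_[17]) ^ 2) ^ 2 /
      (4 * (17 * (((17 * n : ℤ)) : ℚ_[17]) * (8 * w0)) ^ 2)‖ ≤ 1 / 289 := by
    have e : (((((17 * n : ℤ)) : ℚ_[17]) * 33) ^ 2 - (((17 * n : ℤ)) : ℚ_[17]) ^ 2) ^ 2 /
      (4 * (17 * (((17 * n : ℤ)) : ℚ_[17]) * (8 * w0)) ^ 2) =
        (((17 * n : ℤ)) : ℚ_[17]) ^ 2 * (16 / w0 ^ 2) := by
      field_simp
      ring
    rw [e, norm_mul, norm_pow, hN, norm_div, u16, norm_pow, hw0u]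
    norm_num
  have hQ2n : Q + Q ∉ E0 W 17 := (memX h (by norm_num) hm hQ2).2 (lt_of_le_of_lt hX2 (by norm_num))
  have hQ2T : Q + Q + T ∈ E0 W 17 := far h hn hT hQ2 hX2
  rw [Pool.Agent.Y700.tam]
  refine index_four (E0 W 17) Q hQ2n ?_ ?_
  · have h1 : Q + Q + (Q + Q) = (Q + Q + T) + (Q + Q + T) := by
      calc Q + Q + (Q + Q) = Q + Q + (Q + Q) + 0 := (add_zero _).symm
        _ = Q + Q + (Q + Q) + (T + T) := by rw [hTT]
        _ = (Q + Q + T) + (Q + Q + T) := by abel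
    rw [h1]
    exact add_mem hQ2T hQ2T
  · intro P
    by_cases hP : P ∈ E0 W 17
    · exact Or.inl hP
    right
    have hP0 : P ≠ 0 := fun h0 => hP (by rw [h0]; exact zero_mem _)
    obtain ⟨X, Y, hat⟩ := exists_at (((17 * n : ℤ)) : ℚ_[17]) hP0
    have hX := (memX h (by norm_num) hm hat).1 hP
    obtain ⟨t, rfl⟩ : ∃ t : ℚ_[17], X = ((17 * n : ℤ)) * t :=
      ⟨X / ((17 * n : ℤ)), by rw [mul_div_cancel₀ _ hN0]⟩
    have ht1 : ‖t‖ ≤ 1 := by
      have h1 := t_lt17 hX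
      rw [norm_mul, hN] at h1
      linarith
    rcases lt_or_eq_of_le ht1 with ht | ht
    · right; right
      have h3 : P + T ∈ E0 W 17 := by
        apply far h hn hT hat
        rw [norm_mul, hN]
        have := t_lt17 ht
        linarith
      have h5 : P - (Q + Q) = (P + T) - (Q + Q + T) := by abel
      rw [h5]
      exact sub_mem h3 hQ2T
    · obtain ⟨s, w, hts, hs, hY, hw, hwn⟩ := unit_case h hn hat ht
      rw [hts, hY] at hat
      have i64 : ‖(64 : ℚ_[17])‖ ≤ 1 := by exact_mod_cast nint (q := 17) 64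
      have i34 : ‖(34 : ℚ_[17])‖ < 1 := by
        have : (34 : ℚ_[17]) = 17 * 2 := by norm_num
        rw [this]
        exact lmul' t_l17 u2.le
      have hw1 : ‖w‖ ≤ 1 := by
        have h10 : ‖w ^ 2‖ ≤ 1 := by
          have e : w ^ 2 = (w ^ 2 - 64 * n) + 64 * n := by ring
          rw [e]
          exact nadd hwn.le (nmul i64 uM.le)
        rw [norm_pow] at h10
        by_contra h
        rw [not_le] at h
        have := one_lt_pow₀ h two_ne_zero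
        linarith
      have hr1 : ‖8 * w0‖ = 1 := by rw [norm_mul, u8, hw0u, one_mul]
      have hprod : ‖(w + 8 * w0) * (w - 8 * w0)‖ < 1 := by
        have e : (w + 8 * w0) * (w - 8 * w0) = (w ^ 2 - 64 * n) + 34 * (64 * n) := by
          linear_combination -hr2
        rw [e]
        exact ladd hwn (lmul' i34 (nmul i64 uM.le))
      have h2r : ‖2 * (8 * w0)‖ = 1 := by rw [norm_mul, u2, hr1, one_mul]
      -- one of the factors is small, the other one is a unit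
      have hcase : ‖w - 8 * w0‖ = 1 ∨ ‖w - -(8 * w0)‖ = 1 := by
        have a1 : ‖w - 8 * w0‖ ≤ 1 := nsub hw1 hr1.le
        have a2 : ‖w - -(8 * w0)‖ ≤ 1 := nsub hw1 (by rw [norm_neg]; exact hr1.le)
        by_contra hcon
        rw [not_or] at hcon
        have b1 := lt_of_le_of_ne a1 hcon.1
        have b2 := lt_of_le_of_ne a2 hcon.2
        have e : 2 * (8 * w0) = (w - -(8 * w0)) - (w - 8 * w0) := by ring
        have h3 : ‖2 * (8 * w0)‖ < 1 := by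
          rw [e]
          exact lsub b2 b1
        rw [h2r] at h3
        exact lt_irrefl _ h3
      rcases hcase with h3 | h3
      · right; left
        exact diff h hn hat hQ hs hw hr2 h3
      · left
        rw [sub_eq_add_neg]
        refine diff h hn hat ?_ hs hw ?_ h3
        · have h4 := hQ.neg hV
          have h6 : -(17 * (((17 * n : ℤ)) : ℚ_[17]) * (8 * w0)) =
            17 * (((17 * n : ℤ)) : ℚ_[17]) * -(8 * w0) := by ring
          rw [← h6]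
          exact h4
        · rw [neg_sq]
          exact hr2

end seventeen

theorem t_ITR2 : S_ITR2 := by
  intro W N _ h h1 h2
  obtain ⟨n, rfl⟩ := h1
  have hn : ¬ (17 : ℤ) ∣ n := by
    rintro ⟨k, rfl⟩
    exact h2 ⟨k, by ring⟩
  have e : 17 * n / 17 = n := Int.mul_ediv_cancel_left n (by norm_num)
  rw [e]
  split_ifs with hj
  · exact tam_four h hn hj
  · exact tam_two h hn hj

end Pool.Agent.H743.X17.QITR2
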