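import Pool.Agent.H743.X17.IsoDefs

/-!
# The curves isogenous to `E_m`: statements of the parts
-/

set_option autoImplicit false

open scoped Classical

namespace Pool.Agent.H743.X17

open Pool.Agent.TH841.SH.D (Sha)

/-! ### the isogeny descent, abstractly -/

/-- IABS1: `E : y² = x (x + A) (x + B)`, `I = E / (0, 0)`; if `E(ℚ)` is finite and `Ш(E)[2] = 0`, then
`I(ℚ)` is finite and `Ш(I)[2^∞]` is killed by `2` -/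
def S_IABS1 : Prop := ∀ A B : ℤ, A ≠ 0 → B ≠ 0 → A ≠ B → Finite (EAB A B).toAffine.Point →
  (∀ x : Sha (EAB A B), 2 • x = 0 → x = 0) →
  Finite (IAB A B).toAffine.Point ∧
  (∀ (n : ℕ) (x : Sha (IAB A B)), 2 ^ n • x = 0 → 2 • x = 0)

/-- IABS2: under the same hypotheses `Ш(I)[2]` is the Selmer group of the isogeny `I → E` modulo the
classes of the points of `E(ℚ)` -/
def S_IABS2 : Prop := ∀ A B : ℤ, A ≠ 0 → B ≠ 0 → A ≠ B →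
  (∀ x : Sha (EAB A B), 2 • x = 0 → x = 0) → {u : ℤ | Squarefree u ∧ ELU A B u}.Finite →
  Finite {x : Sha (IAB A B) // 2 • x = 0} ∧
  Nat.card {x : Sha (IAB A B) // 2 • x = 0} * {u : ℤ | Squarefree u ∧ LU A B u ℚ}.ncard =
    {u : ℤ | Squarefree u ∧ ELU A B u}.ncard

/-- IFIN: the converse for the finiteness -/
def S_IFIN : Prop := ∀ A B : ℤ, A ≠ 0 → B ≠ 0 → A ≠ B → Finite (IAB A B).toAffine.Point →
  Finite (EAB A B).toAffine.Point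

/-! ### the local conditions -/

/-- LUV, `p`-adic: points with `y ≠ 0`, both coordinates of the class -/
def S_LUV : Prop := ∀ (p : ℕ) [Fact p.Prime] (A B u : ℤ), A ≠ 0 → B ≠ 0 → A ≠ B → u ≠ 0 →
  (LU A B u ℚ_[p] ↔ ∃ v : ℤ, Squarefree v ∧ LS A B u v ℚ_[p])

/-- LUVR: the real place -/
def S_LUVR : Prop := ∀ A B u : ℤ, A ≠ 0 → B ≠ 0 → A ≠ B → u ≠ 0 →
  (LU A B u ℝ ↔ ∃ v : ℤ, Squarefree v ∧ LS A B u v ℝ)

/-- UL0 -/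
def S_UL0 : Prop := ∀ m u : ℤ, Squarefree m → Squarefree u →
  (ELU (pA 0 m) (pB 0 m) u ↔ UC0 m u)

/-- UL1 -/
def S_UL1 : Prop := ∀ m u : ℤ, Squarefree m → Squarefree u →
  (ELU (pA 1 m) (pB 1 m) u ↔ UC1 m u)

/-- UL2 -/
def S_UL2 : Prop := ∀ m u : ℤ, Squarefree m → Squarefree u →
  (ELU (pA 2 m) (pB 2 m) u ↔ UC2 m u)

/-! ### the number of the classes -/

/-- UCNT0 -/
def S_UCNT0 : Prop := ∀ m : ℤ, Squarefree m → m ≠ 1 → Sys m → Rt m →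
  {u : ℤ | Squarefree u ∧ UC0 m u}.Finite ∧
  {u : ℤ | Squarefree u ∧ UC0 m u}.ncard = if 0 < m then 2 ^ na m else 2 ^ (na m + 1)

/-- UCNT1 -/
def S_UCNT1 : Prop := ∀ m : ℤ, Squarefree m → m ≠ 1 → Sys m → Rt m →
  {u : ℤ | Squarefree u ∧ UC1 m u}.Finite ∧
  {u : ℤ | Squarefree u ∧ UC1 m u}.ncard = if 0 < m then 2 ^ nn m else
    if (17 : ℤ) ∣ m then 2 ^ (nn m + (lam 17 m).val) else 2 ^ (nn m + 1)

/-- UCNT2 -/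
def S_UCNT2 : Prop := ∀ m : ℤ, Squarefree m → m ≠ 1 → Sys m → Rt m →
  {u : ℤ | Squarefree u ∧ UC2 m u}.Finite ∧
  {u : ℤ | Squarefree u ∧ UC2 m u}.ncard = if 0 < m then 2 ^ (nn m + 2) else
    if (17 : ℤ) ∣ m then 2 ^ (nn m + (lam 17 m).val) else 2 ^ (nn m + 1)

/-- the excluded twists -/
def Exc (m : ℤ) : Prop := m = 1 ∨ m = -1 ∨ m = 17 ∨ m = -17

/-- VCNT: the classes of the rational points -/
def S_VCNT : Prop := ∀ (j : Fin 3) (m : ℤ), Squarefree m → ¬ Exc m →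
  Finite (EAB m (-16 * m)).toAffine.Point →
  {u : ℤ | Squarefree u ∧ LU (pA j m) (pB j m) u ℚ}.ncard = 4

/-! ### torsion -/

/-- ITORS -/
def S_ITORS : Prop := ∀ (j : Fin 3) (m : ℤ), Squarefree m → ¬ Exc m →
  Nat.card (AddCommGroup.torsion (IAB (pA j m) (pB j m)).toAffine.Point) = 2

/-! ### Tamagawa numbers -/

/-- ITP0: `p` odd, `p ∥ N`, `p ≠ 17`: type `I₀*` -/
def S_ITP0 : Prop := ∀ (W : WeierstrassCurve ℤ) (N : ℤ) (p : ℕ) [Fact p.Prime], IsJ 0 W N → p ≠ 2 →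
  p ≠ 17 → (p : ℤ) ∣ N → ¬ (p : ℤ) ^ 2 ∣ N →
  Pool.Agent.Y700.tam W p = if p % 4 = 1 then 4 else 2

/-- ITP1 -/
def S_ITP1 : Prop := ∀ (W : WeierstrassCurve ℤ) (N : ℤ) (p : ℕ) [Fact p.Prime], IsJ 1 W N → p ≠ 2 →
  p ≠ 17 → (p : ℤ) ∣ N → ¬ (p : ℤ) ^ 2 ∣ N →
  Pool.Agent.Y700.tam W p = if jacobiSym 17 p = 1 then 4 else 2

/-- ITP2 -/
def S_ITP2 : Prop := ∀ (W : WeierstrassCurve ℤ) (N : ℤ) (p : ℕ) [Fact p.Prime], IsJ 2 W N → p ≠ 2 →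
  p ≠ 17 → (p : ℤ) ∣ N → ¬ (p : ℤ) ^ 2 ∣ N →
  Pool.Agent.Y700.tam W p = if jacobiSym 17 p = 1 then 4 else 2

/-- ITS0: `17 ∤ N`: type `I₄` -/
def S_ITS0 : Prop := ∀ (W : WeierstrassCurve ℤ) (N : ℤ) [Fact (Nat.Prime 17)], IsJ 0 W N →
  ¬ (17 : ℤ) ∣ N → Pool.Agent.Y700.tam W 17 = if jacobiSym N 17 = 1 then 4 else 2

/-- ITS1: `17 ∤ N`: type `I₁` -/
def S_ITS1 : Prop := ∀ (W : WeierstrassCurve ℤ) (N : ℤ) [Fact (Nat.Prime 17)], IsJ 1 W N →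
  ¬ (17 : ℤ) ∣ N → Pool.Agent.Y700.tam W 17 = 1

/-- ITS2: `17 ∤ N`: type `I₁` -/
def S_ITS2 : Prop := ∀ (W : WeierstrassCurve ℤ) (N : ℤ) [Fact (Nat.Prime 17)], IsJ 2 W N →
  ¬ (17 : ℤ) ∣ N → Pool.Agent.Y700.tam W 17 = 1

/-- ITR0: `17 ∥ N`: type `I₄*` -/
def S_ITR0 : Prop := ∀ (W : WeierstrassCurve ℤ) (N : ℤ) [Fact (Nat.Prime 17)], IsJ 0 W N →
  (17 : ℤ) ∣ N → ¬ (17 : ℤ) ^ 2 ∣ N → Pool.Agent.Y700.tam W 17 = 4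

/-- ITR1: `17 ∥ N`: type `I₁*` -/
def S_ITR1 : Prop := ∀ (W : WeierstrassCurve ℤ) (N : ℤ) [Fact (Nat.Prime 17)], IsJ 1 W N →
  (17 : ℤ) ∣ N → ¬ (17 : ℤ) ^ 2 ∣ N →
  Pool.Agent.Y700.tam W 17 = if jacobiSym (N / 17) 17 = 1 then 4 else 2

/-- ITR2: `17 ∥ N`: type `I₁*` -/
def S_ITR2 : Prop := ∀ (W : WeierstrassCurve ℤ) (N : ℤ) [Fact (Nat.Prime 17)], IsJ 2 W N →
  (17 : ℤ) ∣ N → ¬ (17 : ℤ) ^ 2 ∣ N →
  Pool.Agent.Y700.tam W 17 = if jacobiSym (N / 17) 17 = 1 then 4 else 2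

/-- ITD0: the prime `2`, types `I₄*`, `I₈*` -/
def S_ITD0 : Prop := ∀ (m : ℤ) [Fact (Nat.Prime 2)], m % 4 = 2 ∨ m % 4 = 3 →
  Pool.Agent.Y700.tam (WJ 0 m) 2 = if m % 8 = 2 then 4 else 2

/-- ITD1 -/
def S_ITD1 : Prop := ∀ (m : ℤ) [Fact (Nat.Prime 2)], m % 4 = 2 ∨ m % 4 = 3 →
  Pool.Agent.Y700.tam (WJ 1 m) 2 = 4

/-- ITD2 -/
def S_ITD2 : Prop := ∀ (m : ℤ) [Fact (Nat.Prime 2)], m % 4 = 2 ∨ m % 4 = 3 →
  Pool.Agent.Y700.tam (WJ 2 m) 2 = 4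

/-! ### the minimal equations, the traces of Frobenius, the periods -/

/-- IMIN -/
def S_IMIN : Prop := ∀ (j : Fin 3) (m : ℤ), Squarefree m →
  Pool.Agent.W97.MT.IsGloballyMinimal (WJ j m)

/-- ICNT: a 2-isogeny does not change the number of points over `𝔽_p`, `p` odd -/
def S_ICNT : Prop := ∀ (p : ℕ) [Fact p.Prime] (a b : ZMod p), p ≠ 2 → b ≠ 0 → a ^ 2 - 4 * b ≠ 0 →
  Nat.card {P : ZMod p × ZMod p // P.2 ^ 2 = P.1 ^ 3 + a * P.1 ^ 2 + b * P.1} =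
  Nat.card {P : ZMod p × ZMod p // P.2 ^ 2 = P.1 ^ 3 - 2 * a * P.1 ^ 2 + (a ^ 2 - 4 * b) * P.1}

/-- IAP: the traces of Frobenius, also at the bad primes -/
def S_IAP : Prop := ∀ (j : Fin 3) (m : ℤ), Squarefree m → ∀ p : ℕ, p.Prime →
  Pool.Agent.W97.MT.ap (WJ j m) p = Pool.Agent.W97.MT.ap (WM m) p

/-- LAND: the substitution `t = x + q / x + p` -/
def S_LAND : Prop := ∀ p q : ℝ, 0 < q → -(2 * Real.sqrt q) < p →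
  ∫ x in Set.Ioi (0 : ℝ), 1 / Real.sqrt (x * (x ^ 2 + p * x + q)) =
    2 * ∫ t in Set.Ioi (p + 2 * Real.sqrt q), 1 / Real.sqrt (t * ((t - p) ^ 2 - 4 * q))

/-- EGG: the two components of `y² = (x - a) (x - b) (x - c)` have the same period -/
def S_EGG : Prop := ∀ a b c : ℝ, a < b → b < c →
  ∫ x in Set.Ioo a b, 1 / Real.sqrt ((x - a) * (x - b) * (x - c)) =
    ∫ x in Set.Ioi c, 1 / Real.sqrt ((x - a) * (x - b) * (x - c))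

/-- IOM0 -/
def S_IOM0 : Prop := ∀ m : ℤ, m ≠ 0 →
  Pool.Agent.Y700.Omega (WM m) = 2 * Pool.Agent.Y700.Omega (WJ 0 m)

/-- IOM1 -/
def S_IOM1 : Prop := ∀ m : ℤ,
  (0 < m → Pool.Agent.Y700.Omega (WJ 1 m) = 2 * Pool.Agent.Y700.Omega (WM m)) ∧
  (m < 0 → Pool.Agent.Y700.Omega (WJ 1 m) = Pool.Agent.Y700.Omega (WM m))

/-- IOM2 -/
def S_IOM2 : Prop := ∀ m : ℤ,
  (0 < m → Pool.Agent.Y700.Omega (WM m) = 2 * Pool.Agent.Y700.Omega (WJ 2 m)) ∧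
  (m < 0 → Pool.Agent.Y700.Omega (WJ 2 m) = Pool.Agent.Y700.Omega (WM m))

end Pool.Agent.H743.X17
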