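import Pool.Agent.H743.X17.Bsd
import Pool.Agent.H743.X17.IsoStm

/-!
# The curves isogenous to `E_m`: the statements of the assembly
-/

set_option autoImplicit false

open scoped Classical

namespace Pool.Agent.H743.X17

open Pool.Agent.Y700 (tam VR IsL Omega)
open Pool.Agent.TH841.SH.D (Sha)

/-- the parts proved separately -/
structure IParts : Prop where
  iabs1 : S_IABS1
  iabs2 : S_IABS2
  ifin : S_IFIN
  ul0 : S_UL0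
  ul1 : S_UL1
  ul2 : S_UL2
  ucnt0 : S_UCNT0
  ucnt1 : S_UCNT1
  ucnt2 : S_UCNT2
  vcnt : S_VCNT
  itors : S_ITORS
  itp0 : S_ITP0
  itp1 : S_ITP1
  itp2 : S_ITP2
  its0 : S_ITS0
  its1 : S_ITS1
  its2 : S_ITS2
  itr0 : S_ITR0
  itr1 : S_ITR1
  itr2 : S_ITR2
  itd0 : S_ITD0
  itd1 : S_ITD1
  itd2 : S_ITD2
  imin : S_IMIN
  iap : S_IAP
  iom0 : S_IOM0
  iom1 : S_IOM1
  iom2 : S_IOM2

/-- the curve `I^j_m` over `ℚ` -/
abbrev EJ (j : Fin 3) (m : ℤ) : WeierstrassCurve ℚ := (WJ j m).map (Int.castRingHom ℚ)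

/-- `2 ^ eJ` is the number of the classes in the Selmer group of the dual isogeny -/
def eJ (j : Fin 3) (m : ℤ) : ℕ := match j with
  | 0 => if 0 < m then na m else na m + 1
  | 1 => if 0 < m then nn m else if (17 : ℤ) ∣ m then nn m + (lam 17 m).val else nn m + 1
  | 2 => if 0 < m then nn m + 2 else if (17 : ℤ) ∣ m then nn m + (lam 17 m).val else nn m + 1

/-- AVR: changes of variables.  `j = 0`: `(2, m, 1, 0)` if `m ≡ 1 mod 4`, else `(1, m, 0, 0)`;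
`j = 1`: `(4, 0, 2, 0)`, else `(2, 0, 0, 0)`; `j = 2`: `(2, m, 1, 0)`, else `(1, m, 0, 0)`.
Second part: `(1, 0, 0, 0)`, `(1, -m, 0, 0)`, `(1, 16 m, 0, 0)` -/
def S_AVR : Prop := ∀ (j : Fin 3) (m : ℤ),
  (∃ u r s t : ℚ, VR (IAB (pA j m) (pB j m)) (EJ j m) u r s t) ∧
  (∃ u r s t : ℚ, VR (EAB m (-16 * m)) (EAB (pA j m) (pB j m)) u r s t)

/-- ADEL: the discriminant of `WJ j m` is `- 17 ^ 4 N ^ 6`, `17 N ^ 6`, `17 N ^ 6`, `N = DD m` -/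
def S_ADEL : Prop := ∀ (j : Fin 3) (m : ℤ), IsJ j (WJ j m) (DD m) ∧ (m ≠ 0 → (EJ j m).Δ ≠ 0 ∧
  ∀ p : ℕ, p.Prime → ((p : ℤ) ∣ (WJ j m).Δ ↔ (p : ℤ) ∣ (WM m).Δ))

/-- AISL -/
def S_AISL : Prop := S_IAP → S_ADEL → ∀ (j : Fin 3) (m : ℤ) (f : ℂ → ℂ), Squarefree m →
  IsL (WM m) f → IsL (WJ j m) f

/-- ATP: the products of the Tamagawa numbers -/
def S_ATP : Prop := IParts → S_ADEL → ∀ (j : Fin 3) (m : ℤ), Squarefree m →
  (j = 0 → TamProd (WJ j m) * 2 ^ na m = 4 ^ (Kn m).primeFactors.card *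
    (if (17 : ℤ) ∣ m then 1 else if jacobiSym m 17 = 1 then 4 else 2)) ∧
  (j ≠ 0 → TamProd (WJ j m) * 2 ^ (nn m + if (17 : ℤ) ∣ m then (lam 17 m).val else 0) =
    4 ^ (Kn m).primeFactors.card)

/-- ASHA: `Ш(I^j_m)[2^∞]` -/
def S_ASHA : Prop := Parts → IParts → S_AVR → S_ADEL → ∀ (j : Fin 3) (m : ℤ), Squarefree m →
  ¬ Exc m → Sys m →
  Finite (EJ j m).toAffine.Point ∧ (∀ (n : ℕ) (x : Sha (EJ j m)), 2 ^ n • x = 0 → 2 • x = 0) ∧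
  2 ≤ eJ j m ∧ Nat.card {x : Sha (EJ j m) // 2 • x = 0} = 2 ^ (eJ j m - 2)

/-- ATOR: the torsion subgroup -/
def S_ATOR : Prop := S_ITORS → S_AVR → S_ADEL → ∀ (j : Fin 3) (m : ℤ), Squarefree m → ¬ Exc m →
  Nat.card (AddCommGroup.torsion (EJ j m).toAffine.Point) = 2

/-- AVAL: the central value in terms of the invariants of `I^j_m` -/
def S_AVAL : Prop := Parts → IParts → S_ADEL → S_AISL → S_ATP → ∀ (j : Fin 3) (m : ℤ),
  Squarefree m → m ≠ 1 →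
  0 < Omega (WJ j m) ∧ ∃ (f : ℂ → ℂ) (y : ℕ), IsL (WM m) f ∧ IsL (WJ j m) f ∧ (Odd y ↔ Sys m) ∧
    (¬ Rt m → y = 0) ∧
    f 1 = (((y : ℝ) ^ 2 * 2 ^ eJ j m * (TamProd (WJ j m) : ℝ) / 16 * Omega (WJ j m) : ℝ) : ℂ)

end Pool.Agent.H743.X17
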