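import Pool.Agent.H743.X17.Stm

/-!
# The three curves isogenous to `E_m : y² = x (x + m) (x - 16 m)`: definitions

`I⁰_m` (the twist by `m` of `X_0(17)`), `I¹_m`, `I²_m` are the quotients of `E_m` by the points `(0, 0)`,
`(-m, 0)`, `(16 m, 0)`.
-/

set_option autoImplicit false

namespace Pool.Agent.H743.X17

/-! ### equations -/

/-- `β_j` -/
def be (j : Fin 3) : ℤ := match j with | 0 => 33 | 1 => 9 | 2 => -63

/-- `γ_j` -/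
def ga (j : Fin 3) : ℤ := match j with | 0 => 22 | 1 => 1 | 2 => -8

/-- `δ_j` -/
def de (j : Fin 3) : ℤ := match j with | 0 => 5 | 1 => 0 | 2 => -1

/-- the minimal equation of `I^j_m` -/
def WJ (j : Fin 3) (m : ℤ) : WeierstrassCurve ℤ :=
  if m % 4 = 1 then ⟨1, (be j * m - 1) / 4, 0, ga j * m ^ 2, de j * m ^ 3⟩
  else ⟨0, be j * m, 0, 16 * ga j * m ^ 2, 64 * de j * m ^ 3⟩

/-- `W` has the form `(2 y + a₁ x)² = 4 x³ + β N x² + 4 γ N² x + 4 δ N³`, i.e.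
`j = 0`: `(4 x + N) (x² + 8 N x + 20 N²)`, `j = 1`: `x (4 x² + 9 N x + 4 N²)`,
`j = 2`: `(4 x + N) (x² - 16 N x - 4 N²)` -/
structure IsJ (j : Fin 3) (W : WeierstrassCurve ℤ) (N : ℤ) : Prop where
  a3 : W.a₃ = 0
  b2 : W.b₂ = be j * N
  a4 : W.a₄ = ga j * N ^ 2
  a6 : W.a₆ = de j * N ^ 3

/-- the curve `y² = x (x + A) (x + B)` for `A = pA j m`, `B = pB j m` is `E_m` with the kernel of
`E_m → I^j_m` moved to `(0, 0)` -/
def pA (j : Fin 3) (m : ℤ) : ℤ := match j with | 0 => m | 1 => -m | 2 => 16 * m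

/-- see `pA` -/
def pB (j : Fin 3) (m : ℤ) : ℤ := match j with | 0 => -16 * m | 1 => -17 * m | 2 => 17 * m

/-- the quotient of `y² = x (x + A) (x + B)` by `(0, 0)`: `y² = x³ - 2 (A + B) x² + (A - B)² x` -/
def IAB (A B : ℤ) : WeierstrassCurve ℚ := ⟨0, -2 * ((A : ℚ) + B), 0, ((A : ℚ) - B) ^ 2, 0⟩

/-! ### the Selmer group of the dual isogeny -/

/-- `u` is modulo squares the abscissa of a point over `K` of `y² = x (x + A) (x + B)` (`1` for the point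
at infinity, `A B` for `(0, 0)`) -/
def LU (A B u : ℤ) (K : Type) [Field K] : Prop :=
  IsSquare (u : K) ∨ IsSquare ((A * B * u : ℤ) : K) ∨
    ∃ x y : K, x ≠ 0 ∧ y ^ 2 = x * (x + A) * (x + B) ∧ IsSquare (x * u)

/-- `u` belongs to the local image at all the places -/
def ELU (A B u : ℤ) : Prop := (∀ (p : ℕ) [Fact p.Prime], LU A B u ℚ_[p]) ∧ LU A B u ℝ

/-- the local conditions, `j = 0` -/
structure UC0 (m u : ℤ) : Prop where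
  good : ∀ p : ℕ, p.Prime → p ≠ 2 → p ≠ 17 → ¬ (p : ℤ) ∣ m → ¬ (p : ℤ) ∣ u
  odd : ∀ p : ℕ, p.Prime → p ≠ 2 → p ≠ 17 → (p : ℤ) ∣ m → lam p (-1) = 0 →
    lam p u = ind p u * lam p m
  s17 : ¬ (17 : ℤ) ∣ m → ¬ (17 : ℤ) ∣ u ∧ (lam 17 m = 0 → lam 17 u = 0)
  r17 : (17 : ℤ) ∣ m → lam 17 u = ind 17 u * lam 17 m
  o2 : m % 4 = 1 → ¬ (2 : ℤ) ∣ u
  e2 : m % 4 ≠ 1 → e4 m = 0 → h2 u m = 0

/-- the local conditions, `j = 1` -/
structure UC1 (m u : ℤ) : Prop where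
  pos : 0 < m → 0 < u
  good : ∀ p : ℕ, p.Prime → p ≠ 2 → p ≠ 17 → ¬ (p : ℤ) ∣ m → ¬ (p : ℤ) ∣ u
  odd : ∀ p : ℕ, p.Prime → p ≠ 2 → p ≠ 17 → (p : ℤ) ∣ m → lam p 17 = 0 →
    lam p u = ind p u * lam p m
  r17 : (17 : ℤ) ∣ m → lam 17 m = 0 → lam 17 u = 0
  o2 : m % 4 = 1 → u % 4 = 1
  e2 : m % 4 ≠ 1 → ((up 2 u % 8 = 1 ∧ ¬ (2 : ℤ) ∣ u) ∨
    (((2 : ℤ) ∣ u ↔ (2 : ℤ) ∣ m) ∧ (up 2 u * up 2 m) % 8 = 1))

/-- the local conditions, `j = 2` -/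
structure UC2 (m u : ℤ) : Prop where
  neg : m < 0 → 0 < u
  good : ∀ p : ℕ, p.Prime → p ≠ 2 → p ≠ 17 → ¬ (p : ℤ) ∣ m → ¬ (p : ℤ) ∣ u
  odd : ∀ p : ℕ, p.Prime → p ≠ 2 → p ≠ 17 → (p : ℤ) ∣ m → lam p 17 = 0 →
    lam p u = ind p u * lam p (-m)
  r17 : (17 : ℤ) ∣ m → lam 17 m = 0 → lam 17 u = 0
  o2 : m % 4 = 1 → ¬ (2 : ℤ) ∣ u
  e2 : m % 4 ≠ 1 → h2 u m = 0

/-- the number of the negative prime discriminants of `ℚ(√m)` -/
def na (m : ℤ) : ℕ := ((RS m).filter fun q => al m q = 1).card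

/-- the number of the ramified primes `q ≠ 17` of `ℚ(√m)` with `(17 / q) = -1` -/
def nn (m : ℤ) : ℕ := (((RS m).erase 17).filter fun q => nu q = 1).card

end Pool.Agent.H743.X17
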