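import Pool.Agent.H743.X17.IsoDefs
import Pool.Agent.H743.X17.Den

/-!
# The normal order of the numbers `na m`, `nn m`: statement
-/

set_option autoImplicit false

open Filter Topology

namespace Pool.Agent.H743.X17

/-- NORM: both numbers have the normal order `(1/2) log log |m|` -/
def S_NORM : Prop := ∀ δ : ℝ, 0 < δ →
  Tendsto (fun X : ℕ => (num (fun m => ¬ |(na m : ℝ) - 1 / 2 * Real.log (Real.log |(m : ℝ)|)| ≤
    δ * Real.log (Real.log |(m : ℝ)|)) X : ℝ) / X) atTop (𝓝 0) ∧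
  Tendsto (fun X : ℕ => (num (fun m => ¬ |(nn m : ℝ) - 1 / 2 * Real.log (Real.log |(m : ℝ)|)| ≤
    δ * Real.log (Real.log |(m : ℝ)|)) X : ℝ) / X) atTop (𝓝 0)

end Pool.Agent.H743.X17
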