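import Pool.Agent.H743.X17.IsoFin
import Pool.Agent.H743.X17.ASHA

/-!
# The rank form for all the integral equations `y² = x³ + a x + b` of the curves
-/

set_option autoImplicit false
set_option linter.all false

open scoped Classical

namespace Pool.Agent.H743.X17.RK

open Pool.Agent.H743.X17 WeierstrassCurve Finset
open Pool.Agent.Y700 (VR)
open Pool.Agent.TH841.SH.D (Sha)

/-- `N_p` -/
noncomputable def pc (a b : ℤ) (p : ℕ) : ℕ :=
  Nat.card {q : ZMod p × ZMod p // q.2 ^ 2 = q.1 ^ 3 + (a : ZMod p) * q.1 + (b : ZMod p)}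

/-- the number of the affine points -/
theorem cnt {F : Type} [Field F] (h2 : (2 : F) ≠ 0) (W : WeierstrassCurve F) (h3 : W.a₃ = 0)
    {c v a b : F} (hv : v ≠ 0) (hb : W.b₂ = 3 * c) (ha : a = v ^ 4 * (16 * W.a₄ - 3 * c ^ 2))
    (hb' : b = v ^ 6 * (64 * W.a₆ - 16 * W.a₄ * c + 2 * c ^ 3)) :
    Nat.card {P : F × F // W.toAffine.Equation P.1 P.2} =
      Nat.card {q : F × F // q.2 ^ 2 = q.1 ^ 3 + a * q.1 + b} := by
  have h4 : (4 : F) ≠ 0 := by
    have : (4 : F) = 2 * 2 := by norm_num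
    rw [this]
    exact mul_ne_zero h2 h2
  let e : F × F ≃ F × F :=
    { toFun := fun P => (v ^ 2 * (4 * P.1 + c), v ^ 3 * (4 * (2 * P.2 + W.a₁ * P.1)))
      invFun := fun Q => ((Q.1 / v ^ 2 - c) / 4,
        (Q.2 / v ^ 3 / 4 - W.a₁ * ((Q.1 / v ^ 2 - c) / 4)) / 2)
      left_inv := by
        rintro ⟨x, y⟩
        ext
        · field_simp; ring
        · field_simp; ring
      right_inv := by
        rintro ⟨x, y⟩
        ext
        · field_simp; ring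
        · field_simp; ring }
  refine Nat.card_congr (e.subtypeEquiv fun P => ?_)
  obtain ⟨x, y⟩ := P
  show W.toAffine.Equation x y ↔ (v ^ 3 * (4 * (2 * y + W.a₁ * x))) ^ 2 =
    (v ^ 2 * (4 * x + c)) ^ 3 + a * (v ^ 2 * (4 * x + c)) + b
  have hb2 : W.a₁ ^ 2 + 4 * W.a₂ = 3 * c := hb
  rw [WeierstrassCurve.Affine.equation_iff, h3]
  have key : (v ^ 3 * (4 * (2 * y + W.a₁ * x))) ^ 2 -
      ((v ^ 2 * (4 * x + c)) ^ 3 + a * (v ^ 2 * (4 * x + c)) + b) =
      64 * v ^ 6 * (y ^ 2 + W.a₁ * x * y + 0 * y - (x ^ 3 + W.a₂ * x ^ 2 + W.a₄ * x + W.a₆)) := by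
    rw [ha, hb']
    linear_combination (16 * v ^ 6 * x ^ 2) * hb2
  have h64 : (64 * v ^ 6 : F) ≠ 0 := by
    have : (64 : F) = 4 * 4 * 4 := by norm_num
    rw [this]
    exact mul_ne_zero (mul_ne_zero (mul_ne_zero h4 h4) h4) (pow_ne_zero _ hv)
  constructor
  · intro h
    have h1 : y ^ 2 + W.a₁ * x * y + 0 * y - (x ^ 3 + W.a₂ * x ^ 2 + W.a₄ * x + W.a₆) = 0 := by
      rw [h]; ring
    rw [h1, mul_zero] at key
    exact sub_eq_zero.1 key
  · intro h
    rw [h, sub_self] at key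
    have h1 := (mul_eq_zero.1 key.symm).resolve_left h64
    exact sub_eq_zero.1 h1

/-- the number of the affine points modulo `p`, `W` given by `β`, `γ`, `δ`, `N`, and `v² N = k` -/
theorem pc_eq {W : WeierstrassCurve ℤ} {β γ δ N k : ℤ} (h3 : W.a₃ = 0) (hb : W.b₂ = 3 * β * N)
    (h4 : W.a₄ = γ * N ^ 2) (h6 : W.a₆ = δ * N ^ 3) {p : ℕ} (hp : p.Prime) (hp2 : p ≠ 2)
    {v : ZMod p} (hv : v ≠ 0) (hk : (k : ZMod p) = v ^ 2 * N) :
    Pool.Agent.W97.MT.affCount W p = pc ((16 * γ - 3 * β ^ 2) * k ^ 2)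
      ((64 * δ - 16 * γ * β + 2 * β ^ 3) * k ^ 3) p := by
  haveI : Fact p.Prime := ⟨hp⟩
  have h2 : (2 : ZMod p) ≠ 0 := by
    intro h
    have h1 : ((2 : ℕ) : ZMod p) = 0 := by exact_mod_cast h
    rw [ZMod.natCast_eq_zero_iff] at h1
    exact hp2 ((Nat.prime_dvd_prime_iff_eq hp Nat.prime_two).1 h1)
  unfold Pool.Agent.W97.MT.affCount pc
  refine cnt h2 (W.map (Int.castRingHom (ZMod p))) ?_ (c := (β * N : ZMod p)) hv ?_ ?_ ?_
  · simp [h3]
  · rw [WeierstrassCurve.map_b₂, hb]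
    push_cast
    simp
    ring
  · have : (W.map (Int.castRingHom (ZMod p))).a₄ = (γ : ZMod p) * (N : ZMod p) ^ 2 := by
      simp [h4]
    rw [this]
    push_cast
    rw [hk]
    ring
  · have e4 : (W.map (Int.castRingHom (ZMod p))).a₄ = (γ : ZMod p) * (N : ZMod p) ^ 2 := by
      simp [h4]
    have e6 : (W.map (Int.castRingHom (ZMod p))).a₆ = (δ : ZMod p) * (N : ZMod p) ^ 3 := by
      simp [h6]
    rw [e4, e6]
    push_cast
    rw [hk]
    ring

end Pool.Agent.H743.X17.RK
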