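import Pool.Agent.H743.X17.RK

/-!
# The incomplete L-functions
-/

set_option autoImplicit false
set_option linter.all false

open scoped Classical

namespace Pool.Agent.H743.X17.RK

open Pool.Agent.H743.X17 WeierstrassCurve Finset
open Pool.Agent.Y700 (VR IsL)
open Pool.Agent.W97.MT (ap affCount)

/-- the Euler factor of the complete L-function -/
noncomputable def ef (W : WeierstrassCurve ℤ) (p : ℕ) (s : ℂ) : ℂ :=
  1 - (ap W p : ℂ) * (p : ℂ) ^ (-s) + (if (p : ℤ) ∣ W.Δ then 0 else (p : ℂ) ^ (1 - 2 * s))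

theorem ef_diff (W : WeierstrassCurve ℤ) {p : ℕ} (hp : p.Prime) : Differentiable ℂ (ef W p) := by
  have h0 : (p : ℂ) ≠ 0 := by exact_mod_cast hp.ne_zero
  unfold ef
  refine ((differentiable_const _).sub ((differentiable_const _).mul ?_)).add ?_
  · exact (differentiable_id.neg).const_cpow (Or.inl h0)
  · split_ifs
    · exact differentiable_const _
    · exact ((differentiable_const _).sub ((differentiable_const _).mul
        differentiable_id)).const_cpow (Or.inl h0)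

/-- at most two points over every `x` -/
theorem aff_le (W : WeierstrassCurve ℤ) {p : ℕ} (hp : p.Prime) : affCount W p ≤ 2 * p := by
  haveI : Fact p.Prime := ⟨hp⟩
  unfold affCount
  set V := W.map (Int.castRingHom (ZMod p)) with hV
  rw [Nat.card_eq_fintype_card, Fintype.card_subtype]
  have h1 : (univ.filter fun P : ZMod p × ZMod p => V.toAffine.Equation P.1 P.2).card =
      ∑ x : ZMod p, (univ.filter fun y : ZMod p => V.toAffine.Equation x y).card := by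
    rw [card_eq_sum_card_fiberwise (f := Prod.fst) (t := univ) (fun _ _ => mem_coe.2 (mem_univ _))]
    refine sum_congr rfl fun x _ => ?_
    refine card_bij (fun q _ => q.2) ?_ ?_ ?_
    · rintro ⟨a, b⟩ h
      rw [mem_filter, mem_filter] at h
      rw [mem_filter]
      have h2 : a = x := h.2
      subst h2
      exact ⟨mem_univ _, h.1.2⟩
    · rintro ⟨a, b⟩ h ⟨a', b'⟩ h' hb
      rw [mem_filter] at h h'
      exact Prod.ext (h.2.trans h'.2.symm) hb
    · intro y hy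
      rw [mem_filter] at hy
      refine ⟨(x, y), ?_, rfl⟩
      rw [mem_filter, mem_filter]
      exact ⟨⟨mem_univ _, hy.2⟩, rfl⟩
  rw [h1]
  have h2 : ∀ x : ZMod p, (univ.filter fun y : ZMod p => V.toAffine.Equation x y).card ≤ 2 := by
    intro x
    by_contra hcon
    push Not at hcon
    obtain ⟨a, b, c, ha, hb, hc, hab, hac, hbc⟩ := Finset.two_lt_card_iff.1 hcon
    rw [mem_filter, WeierstrassCurve.Affine.equation_iff] at ha hb hc
    have e1 : (a - b) * (a + b + V.a₁ * x + V.a₃) = 0 := by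
      linear_combination ha.2 - hb.2
    have e2 : (a - c) * (a + c + V.a₁ * x + V.a₃) = 0 := by
      linear_combination ha.2 - hc.2
    have e3 := (mul_eq_zero.1 e1).resolve_left (sub_ne_zero.2 hab)
    have e4 := (mul_eq_zero.1 e2).resolve_left (sub_ne_zero.2 hac)
    apply hbc
    linear_combination e3 - e4
  calc ∑ x : ZMod p, (univ.filter fun y : ZMod p => V.toAffine.Equation x y).card ≤
        ∑ _x : ZMod p, 2 := sum_le_sum fun x _ => h2 x
    _ = 2 * p := by rw [sum_const, card_univ, ZMod.card, smul_eq_mul, mul_comm]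

theorem ef_ne (W : WeierstrassCurve ℤ) {p : ℕ} (hp : p.Prime) {s : ℂ} (hs : (3 : ℝ) / 2 < s.re) :
    ef W p s ≠ 0 := by
  have hp2 : 2 ≤ p := hp.two_le
  have hp0 : (0 : ℝ) < p := by exact_mod_cast hp.pos
  have hp2' : (2 : ℝ) ≤ p := by exact_mod_cast hp2
  have hcp : ∀ z : ℂ, ‖(p : ℂ) ^ z‖ = (p : ℝ) ^ z.re := fun z =>
    Complex.norm_natCast_cpow_of_pos hp.pos z
  intro h
  have h1 : (1 : ℂ) = (ap W p : ℂ) * (p : ℂ) ^ (-s) -
      (if (p : ℤ) ∣ W.Δ then 0 else (p : ℂ) ^ (1 - 2 * s)) := by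
    unfold ef at h
    linear_combination h
  have h2 : (1 : ℝ) ≤ ‖(ap W p : ℂ) * (p : ℂ) ^ (-s)‖ + ‖(p : ℂ) ^ (1 - 2 * s)‖ := by
    calc (1 : ℝ) = ‖(1 : ℂ)‖ := norm_one.symm
      _ = ‖(ap W p : ℂ) * (p : ℂ) ^ (-s) -
        (if (p : ℤ) ∣ W.Δ then 0 else (p : ℂ) ^ (1 - 2 * s))‖ := by rw [← h1]
      _ ≤ ‖(ap W p : ℂ) * (p : ℂ) ^ (-s)‖ +
        ‖(if (p : ℤ) ∣ W.Δ then 0 else (p : ℂ) ^ (1 - 2 * s) : ℂ)‖ := norm_sub_le _ _
      _ ≤ _ := by
        gcongr
        split_ifs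
        · rw [norm_zero]; positivity
        · exact le_rfl
  have ha : ‖(ap W p : ℂ)‖ ≤ p := by
    have h3 := aff_le W hp
    have h4 : ((ap W p : ℤ) : ℂ) = (((p : ℝ) - (affCount W p : ℝ) : ℝ) : ℂ) := by
      unfold ap
      push_cast
      ring
    rw [h4, Complex.norm_real, Real.norm_eq_abs, abs_le]
    have h5 : (affCount W p : ℝ) ≤ 2 * p := by exact_mod_cast h3
    have h6 : (0 : ℝ) ≤ (affCount W p : ℝ) := Nat.cast_nonneg _
    constructor <;> linarith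
  set r : ℝ := (p : ℝ) ^ (1 - s.re) with hr
  have hr0 : 0 < r := Real.rpow_pos_of_pos hp0 _
  have e1 : (p : ℝ) * (p : ℝ) ^ (-s.re) = r := by
    rw [hr, sub_eq_add_neg, Real.rpow_add hp0, Real.rpow_one]
  have e2 : (p : ℝ) ^ (1 - 2 * s.re) * p = r ^ 2 := by
    rw [hr, ← Real.rpow_natCast, ← Real.rpow_mul hp0.le]
    nth_rewrite 2 [← Real.rpow_one (p : ℝ)]
    rw [← Real.rpow_add hp0]
    congr 1
    push_cast
    ring
  have hr2 : r ^ 2 * p ≤ 1 := by
    rw [← e2]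
    have e3 : (p : ℝ) ^ (1 - 2 * s.re) * p * p = (p : ℝ) ^ (3 - 2 * s.re) := by
      have : (p : ℝ) ^ (3 - 2 * s.re) = (p : ℝ) ^ (1 - 2 * s.re) * (p : ℝ) ^ (2 : ℝ) := by
        rw [← Real.rpow_add hp0]
        congr 1
        ring
      rw [this, Real.rpow_two]
      ring
    rw [e3]
    exact Real.rpow_le_one_of_one_le_of_nonpos (by linarith) (by linarith)
  have hr3 : r ^ 2 ≤ 1 / 2 := by
    have : r ^ 2 * 2 ≤ r ^ 2 * p := mul_le_mul_of_nonneg_left hp2' (sq_nonneg _)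
    linarith
  have hr4 : r ≤ 0.71 := by
    by_contra hcon
    push Not at hcon
    nlinarith
  have h5 : ‖(ap W p : ℂ) * (p : ℂ) ^ (-s)‖ ≤ r := by
    rw [norm_mul, hcp, Complex.neg_re, ← e1]
    exact mul_le_mul_of_nonneg_right ha (Real.rpow_nonneg hp0.le _)
  have h6 : ‖(p : ℂ) ^ (1 - 2 * s)‖ ≤ 1 / 4 := by
    rw [hcp]
    have e4 : (1 - 2 * s).re = 1 - 2 * s.re := by simp
    rw [e4]
    have h7 : (p : ℝ) ^ (1 - 2 * s.re) * 2 ≤ (p : ℝ) ^ (1 - 2 * s.re) * p :=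
      mul_le_mul_of_nonneg_left hp2' (Real.rpow_nonneg hp0.le _)
    rw [e2] at h7
    linarith
  linarith

theorem ef_one (W : WeierstrassCurve ℤ) {p : ℕ} (hp : p.Prime) (hc : 0 < affCount W p) :
    ef W p 1 ≠ 0 := by
  have h0 : (p : ℂ) ≠ 0 := by exact_mod_cast hp.ne_zero
  have e : ef W p 1 = ((affCount W p : ℂ) + (if (p : ℤ) ∣ W.Δ then 0 else 1)) / p := by
    unfold ef ap
    rw [show (1 - 2 * 1 : ℂ) = -1 by norm_num, Complex.cpow_neg_one]
    split_ifs <;> (push_cast; field_simp; ring)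
  rw [e]
  refine div_ne_zero ?_ h0
  have : ((affCount W p + (if (p : ℤ) ∣ W.Δ then 0 else 1) : ℕ) : ℂ) ≠ 0 := by
    exact_mod_cast (by omega)
  intro h
  apply this
  rw [← h]
  push_cast
  split_ifs <;> simp

/-- the L-function of the problem for `y² = x³ + a x + b` -/
def IsI (a b : ℤ) (F : ℂ → ℂ) : Prop :=
  Differentiable ℂ F ∧ ∀ s : ℂ, (3 : ℝ) / 2 < s.re →
    HasProd (fun p : ℕ => if p.Prime ∧ ¬ ((p : ℤ) ∣ 2 * (-4 * a ^ 3 - 27 * b ^ 2)) then
      (1 - ((p : ℂ) - (pc a b p : ℂ)) * (p : ℂ) ^ (-s) + (p : ℂ) ^ (1 - 2 * s))⁻¹ else 1)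
      (F s)

/-- from the complete to the incomplete L-function -/
theorem inc {W : WeierstrassCurve ℤ} {Λ : ℂ → ℂ} (hL : IsL W Λ) {a b : ℤ}
    (hD : -4 * a ^ 3 - 27 * b ^ 2 ≠ 0)
    (h : ∀ p : ℕ, p.Prime → ¬ ((p : ℤ) ∣ 2 * (-4 * a ^ 3 - 27 * b ^ 2)) →
      ¬ (p : ℤ) ∣ W.Δ ∧ affCount W p = pc a b p)
    (hc : ∀ p : ℕ, p.Prime → 0 < affCount W p) :
    ∃ F : ℂ → ℂ, IsI a b F ∧ (F 1 = 0 ↔ Λ 1 = 0) := by
  set B : Finset ℕ := (2 * (-4 * a ^ 3 - 27 * b ^ 2)).natAbs.primeFactors with hB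
  have hB1 : ∀ p : ℕ, p ∈ B ↔ p.Prime ∧ (p : ℤ) ∣ 2 * (-4 * a ^ 3 - 27 * b ^ 2) := by
    intro p
    rw [hB, Nat.mem_primeFactors, Int.natCast_dvd]
    refine ⟨fun h => ⟨h.1, h.2.1⟩, fun h => ⟨h.1, h.2, ?_⟩⟩
    rw [Int.natAbs_ne_zero]
    exact mul_ne_zero two_ne_zero hD
  refine ⟨fun s => Λ s * ∏ p ∈ B, ef W p s, ⟨?_, fun s hs => ?_⟩, ?_⟩
  · refine hL.1.mul ?_
    have : (fun s => ∏ p ∈ B, ef W p s) = ∏ p ∈ B, fun s => ef W p s := by
      funext s
      rw [Finset.prod_apply]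
    rw [this]
    exact Differentiable.finsetProd fun p hp => ef_diff W ((hB1 p).1 hp).1
  · have h0 : HasProd (fun p : ℕ => if p.Prime then (ef W p s)⁻¹ else 1) (Λ s) := by
      have h1 := hL.2 s hs
      have h2 : (fun p : Nat.Primes => (1 - (ap W p : ℂ) * ((p : ℕ) : ℂ) ^ (-s) +
          (if ((p : ℕ) : ℤ) ∣ W.Δ then 0 else ((p : ℕ) : ℂ) ^ (1 - 2 * s)))⁻¹) =
          (fun p : ℕ => if p.Prime then (ef W p s)⁻¹ else 1) ∘ (Subtype.val : Nat.Primes → ℕ) := by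
        funext p
        show _ = if (p : ℕ).Prime then (ef W p s)⁻¹ else 1
        rw [if_pos p.2]
        rfl
      rw [h2] at h1
      refine (Function.Injective.hasProd_iff Subtype.val_injective ?_).1 h1
      intro x hx
      refine if_neg fun hxp => hx ⟨⟨x, hxp⟩, rfl⟩
    have h2 : HasProd (fun p : ℕ => if p ∈ B then ef W p s else 1) (∏ p ∈ B, ef W p s) := by
      have h3 : HasProd (fun p : ℕ => if p ∈ B then ef W p s else 1)
          (∏ p ∈ B, (if p ∈ B then ef W p s else 1)) :=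
        hasProd_prod_of_ne_finset_one fun p hp => if_neg hp
      have e : ∏ p ∈ B, (if p ∈ B then ef W p s else 1) = ∏ p ∈ B, ef W p s :=
        prod_congr rfl fun p hp => if_pos hp
      rwa [e] at h3
    have h4 := h0.mul h2
    convert h4 using 1
    funext p
    by_cases hpp : p.Prime
    · by_cases hpB : (p : ℤ) ∣ 2 * (-4 * a ^ 3 - 27 * b ^ 2)
      · rw [if_neg (fun h => h.2 hpB), if_pos hpp, if_pos ((hB1 p).2 ⟨hpp, hpB⟩),
          inv_mul_cancel₀ (ef_ne W hpp hs)]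
      · have hp1 : p ∉ B := fun h => hpB ((hB1 p).1 h).2
        rw [if_pos ⟨hpp, hpB⟩, if_pos hpp, if_neg hp1, mul_one]
        obtain ⟨k1, k2⟩ := h p hpp hpB
        unfold ef ap
        rw [if_neg k1, k2]
        push_cast
        rfl
    · have hp1 : p ∉ B := fun h => hpp ((hB1 p).1 h).1
      rw [if_neg (fun h => hpp h.1), if_neg hpp, if_neg hp1, mul_one]
  · have h1 : ∏ p ∈ B, ef W p 1 ≠ 0 :=
      Finset.prod_ne_zero_iff.2 fun p hp => ef_one W ((hB1 p).1 hp).1 (hc p ((hB1 p).1 hp).1)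
    show Λ 1 * ∏ p ∈ B, ef W p 1 = 0 ↔ _
    rw [mul_eq_zero]
    exact ⟨fun h => h.resolve_right h1, fun h => Or.inl h⟩

end Pool.Agent.H743.X17.RK
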