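import Pool.Agent.H743.X17.RK2
import Pool.Agent.H743.X17.ADEL
import Pool.Agent.H743.X17.AVR

/-!
# The rank form for `y² = x³ + cA j k² x + cB j k³`
-/

set_option autoImplicit false
set_option linter.all false

open scoped Classical

namespace Pool.Agent.H743.X17.RK

open Pool.Agent.H743.X17 WeierstrassCurve Finset
open Pool.Agent.Y700 (VR IsL)
open Pool.Agent.W97.MT (ap affCount)
open Pool.Agent.TH841.SH.D (Sha)

/-- the coefficients of the four curves of conductor `17` -/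
def cA (j : Fin 4) : ℤ := match j with | 0 => -11 | 1 => -11 | 2 => -1451 | 3 => -91

/-- see `cA` -/
def cB (j : Fin 4) : ℤ := match j with | 0 => -890 | 1 => 6 | 2 => -21274 | 3 => -330

theorem disc_eq (j : Fin 4) : -4 * cA j ^ 3 - 27 * cB j ^ 2 = -(2 ^ 8 * 17 ^ 4) ∨
    -4 * cA j ^ 3 - 27 * cB j ^ 2 = 2 ^ 8 * 17 ∨ -4 * cA j ^ 3 - 27 * cB j ^ 2 = 2 ^ 8 * 17 ^ 2 := by
  fin_cases j
  · left; norm_num [cA, cB]
  · right; left; norm_num [cA, cB]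
  · right; left; norm_num [cA, cB]
  · right; right; norm_num [cA, cB]

theorem disc_k (j : Fin 4) (k : ℤ) : -4 * (cA j * k ^ 2) ^ 3 - 27 * (cB j * k ^ 3) ^ 2 =
    (-4 * cA j ^ 3 - 27 * cB j ^ 2) * k ^ 6 := by ring

theorem disc_ne (j : Fin 4) {k : ℤ} (hk : k ≠ 0) :
    -4 * (cA j * k ^ 2) ^ 3 - 27 * (cB j * k ^ 3) ^ 2 ≠ 0 := by
  rw [disc_k]
  refine mul_ne_zero ?_ (pow_ne_zero 6 hk)
  rcases disc_eq j with h | h | h <;> rw [h] <;> norm_num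

/-- the good primes -/
theorem good_p {j : Fin 4} {k : ℤ} {p : ℕ} (hp : p.Prime)
    (h : ¬ ((p : ℤ) ∣ 2 * (-4 * (cA j * k ^ 2) ^ 3 - 27 * (cB j * k ^ 3) ^ 2))) :
    p ≠ 2 ∧ p ≠ 17 ∧ ¬ (p : ℤ) ∣ k := by
  rw [disc_k] at h
  refine ⟨?_, ?_, fun h1 => h ?_⟩
  · rintro rfl
    exact h (Dvd.intro _ rfl)
  · rintro rfl
    apply h
    refine Dvd.dvd.mul_left (Dvd.dvd.mul_right ?_ _) 2
    rcases disc_eq j with h | h | h <;> rw [h] <;> norm_num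
  · exact Dvd.dvd.mul_left (Dvd.dvd.mul_left (dvd_pow h1 (by norm_num)) _) 2

/-- the scaling factor -/
theorem scal {m : ℤ} {g p : ℕ} (hp : p.Prime) (hp2 : p ≠ 2)
    (hg : ¬ (p : ℤ) ∣ (g : ℤ) ^ 2 * m) :
    ∃ v : ZMod p, v ≠ 0 ∧ (((g : ℤ) ^ 2 * m : ℤ) : ZMod p) = v ^ 2 * ((DD m : ℤ) : ZMod p) := by
  haveI : Fact p.Prime := ⟨hp⟩
  have h2 : (2 : ZMod p) ≠ 0 := by
    intro h
    have h1 : ((2 : ℕ) : ZMod p) = 0 := by exact_mod_cast h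
    rw [ZMod.natCast_eq_zero_iff] at h1
    exact hp2 ((Nat.prime_dvd_prime_iff_eq hp Nat.prime_two).1 h1)
  have hg0 : (g : ZMod p) ≠ 0 := by
    intro h
    rw [ZMod.natCast_eq_zero_iff] at h
    have h1 : (p : ℤ) ∣ (g : ℤ) := by exact_mod_cast h
    exact hg (Dvd.dvd.mul_right (dvd_pow h1 two_ne_zero) m)
  unfold DD
  split_ifs with h4
  · exact ⟨g, hg0, by push_cast; ring⟩
  · refine ⟨g / 2, div_ne_zero hg0 h2, ?_⟩
    push_cast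
    field_simp
    norm_num

theorem pc_three {m : ℤ} {g p : ℕ} (hp : p.Prime) (hp2 : p ≠ 2) (hg : ¬ (p : ℤ) ∣ (g : ℤ) ^ 2 * m) :
    affCount (WM m) p = pc (cA 3 * ((g : ℤ) ^ 2 * m) ^ 2) (cB 3 * ((g : ℤ) ^ 2 * m) ^ 3) p := by
  obtain ⟨v, hv, hk⟩ := scal hp hp2 hg
  have hN : IsN (WM m) (DD m) := isN
  have h4 : (WM m).a₄ = -1 * DD m ^ 2 := by
    have h1 := hN.b4
    rw [WeierstrassCurve.b₄, hN.a3] at h1
    linarith
  have h := pc_eq (β := -5) (γ := -1) (δ := 0) (k := (g : ℤ) ^ 2 * m) hN.a3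
    (by rw [hN.b2]; ring) h4 (by rw [hN.a6]; ring) hp hp2 hv hk
  rw [h]
  rfl

theorem pc_j {j : Fin 3} {m : ℤ} {g p : ℕ} (hp : p.Prime) (hp2 : p ≠ 2)
    (hg : ¬ (p : ℤ) ∣ (g : ℤ) ^ 2 * m) :
    affCount (WJ j m) p = pc (cA (Fin.castSucc j) * ((g : ℤ) ^ 2 * m) ^ 2)
      (cB (Fin.castSucc j) * ((g : ℤ) ^ 2 * m) ^ 3) p := by
  obtain ⟨v, hv, hk⟩ := scal hp hp2 hg
  have hN : IsJ j (WJ j m) (DD m) := QADEL.isJ_WJ j m
  have h3 : ∀ j : Fin 3, j = 0 ∨ j = 1 ∨ j = 2 := by decide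
  rcases h3 j with rfl | rfl | rfl
  · have h := pc_eq (β := 11) (γ := 22) (δ := 5) (k := (g : ℤ) ^ 2 * m) hN.a3
      (by rw [hN.b2]; show 33 * _ = _; ring) hN.a4 hN.a6 hp hp2 hv hk
    rw [h]
    rfl
  · have h := pc_eq (β := 3) (γ := 1) (δ := 0) (k := (g : ℤ) ^ 2 * m) hN.a3
      (by rw [hN.b2]; show 9 * _ = _; ring) hN.a4 hN.a6 hp hp2 hv hk
    rw [h]
    rfl
  · have h := pc_eq (β := -21) (γ := -8) (δ := -1) (k := (g : ℤ) ^ 2 * m) hN.a3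
      (by rw [hN.b2]; show -63 * _ = _; ring) hN.a4 hN.a6 hp hp2 hv hk
    rw [h]
    rfl

theorem fin4 (j : Fin 4) : j = 3 ∨ ∃ i : Fin 3, j = Fin.castSucc i := by
  have : ∀ j : Fin 4, j = 3 ∨ ∃ i : Fin 3, j = Fin.castSucc i := by decide
  exact this j

/-- the number of the points is the same for the four curves -/
theorem pc_all (h : IParts) {j : Fin 4} {m : ℤ} (hm : Squarefree m) {g p : ℕ} (hp : p.Prime)
    (hp2 : p ≠ 2) (hg : ¬ (p : ℤ) ∣ (g : ℤ) ^ 2 * m) :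
    affCount (WM m) p = pc (cA j * ((g : ℤ) ^ 2 * m) ^ 2) (cB j * ((g : ℤ) ^ 2 * m) ^ 3) p := by
  rcases fin4 j with rfl | ⟨i, rfl⟩
  · exact pc_three hp hp2 hg
  · rw [← pc_j hp hp2 hg]
    have h1 := h.iap i m hm p hp
    unfold ap at h1
    omega

theorem aff_pos (m : ℤ) {p : ℕ} (hp : p.Prime) : 0 < affCount (WM m) p := by
  haveI : Fact p.Prime := ⟨hp⟩
  unfold affCount
  rw [Nat.card_pos_iff]
  refine ⟨⟨⟨(0, 0), ?_⟩⟩, inferInstance⟩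
  rw [WeierstrassCurve.Affine.equation_iff]
  have h6 : ((WM m).map (Int.castRingHom (ZMod p))).a₆ = 0 := by
    rw [WeierstrassCurve.map_a₆, (isN (m := m)).a6]
    simp
  rw [h6]
  ring

theorem incl (h : IParts) (j : Fin 4) {m : ℤ} (hm : Squarefree m) {g : ℕ} (hg : g ≠ 0)
    {Λ : ℂ → ℂ} (hL : IsL (WM m) Λ) :
    ∃ F : ℂ → ℂ, IsI (cA j * ((g : ℤ) ^ 2 * m) ^ 2) (cB j * ((g : ℤ) ^ 2 * m) ^ 3) F ∧
      (F 1 = 0 ↔ Λ 1 = 0) := by
  have hk : (g : ℤ) ^ 2 * m ≠ 0 :=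
    mul_ne_zero (pow_ne_zero 2 (by exact_mod_cast hg)) hm.ne_zero
  refine inc hL (disc_ne j hk) (fun p hp hd => ?_) (fun p hp => aff_pos m hp)
  obtain ⟨h2, h17, hpk⟩ := good_p hp hd
  refine ⟨fun hdv => ?_, pc_all h hm hp h2 hpk⟩
  have hpi := Nat.prime_iff_prime_int.1 hp
  rw [(isN (m := m)).Delta] at hdv
  rcases hpi.dvd_or_dvd hdv with h1 | h1
  · have h3 := hpi.dvd_of_dvd_pow h1
    have h4 : p ∣ 17 := by exact_mod_cast h3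
    exact h17 ((Nat.prime_dvd_prime_iff_eq hp (by norm_num)).1 h4)
  · have h3 := hpi.dvd_of_dvd_pow h1
    unfold DD at h3
    split_ifs at h3 with h4
    · exact hpk (Dvd.dvd.mul_left h3 _)
    · rcases hpi.dvd_or_dvd h3 with h5 | h5
      · have h6 : p ∣ 4 := by exact_mod_cast h5
        have h7 : p ∣ 2 := hp.dvd_of_dvd_pow (show p ∣ 2 ^ 2 by norm_num; exact h6)
        exact h2 ((Nat.prime_dvd_prime_iff_eq hp Nat.prime_two).1 h7)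
      · exact hpk (Dvd.dvd.mul_left h5 _)

end Pool.Agent.H743.X17.RK
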