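import Pool.Agent.H743.X17.Den

/-!
# The twists of a twist in a class given by local conditions
-/

set_option autoImplicit false
set_option linter.all false

open scoped Classical

namespace Pool.Agent.H743.X17

open Finset Filter Topology
open Pool.Agent.N919.BS (NS NF Rt17 ratio root17 t_NS low1 NS_eq)
open Pool.Agent.N916.MO (G17 hg17)
open Pool.Agent.Y703.CQ (c2)
open Pool.Agent.N855.GF.Lc17 (Loc lc_Loc lim_Loc Lc lc_and lc_root low_P hgl close_NS)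
open Pool.Agent.N855.GF.Tw (tw T tw_sqf T_eq split tw_eq)

theorem lc_of_dvd {m m' : ℕ} (h : m ∣ m') {Q : ℤ → Prop} (hQ : Lc m Q) : Lc m' Q := by
  intro s k M N hs hk hM hN h1 h2 h3
  refine hQ s k M N hs hk hM hN h1 h2 ?_
  rw [← Nat.mod_mod_of_dvd M h, ← Nat.mod_mod_of_dvd N h, h3]

theorem lc_gcd' {e : ℤ} {m : ℕ} (hem : e.natAbs ∣ m) (r : ℕ) : Lc m (fun f => Int.gcd f e = r) := by
  intro s k M N hs hk hM hN _ _ h
  have key : ∀ M : ℕ, Int.gcd (s * ((k * M : ℕ) : ℤ)) e = Nat.gcd (k * M) e.natAbs := by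
    intro M
    unfold Int.gcd
    rw [Int.natAbs_mul, Int.natAbs_natCast]
    rcases hs with rfl | rfl <;> simp
  have h1 : M ≡ N [MOD e.natAbs] := Nat.ModEq.of_dvd hem h
  show Int.gcd (s * ((k * M : ℕ) : ℤ)) e = r ↔ Int.gcd (s * ((k * N : ℕ) : ℤ)) e = r
  rw [key, key, (h1.mul_left k).gcd_eq]

variable {e : ℤ}

theorem close_TQ (he : Squarefree e) {m : ℕ} (h136 : 136 ∣ m) (hm : 0 < m) {Q : ℤ → Prop}
    (hQ : Lc m Q) : ∀ ε : ℝ, 0 < ε → ∃ X₀ : ℕ, ∀ X : ℕ, X₀ ≤ X →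
    |(T e (fun d => (Rt17 d ∧ Q d) ∧ G17 d) X : ℝ) - c2 * (T e (fun d => Rt17 d ∧ Q d) X : ℝ)| ≤
      ε * X := by
  intro ε hε
  have he0 : 0 < e.natAbs := Int.natAbs_pos.2 he.ne_zero
  set E : ℕ := e.natAbs with hE
  have hm' : 0 < m * E := Nat.mul_pos hm he0
  have h1 : ∀ g : ℕ, ∃ X₀ : ℕ, ∀ X : ℕ, X₀ ≤ X →
      |(NS (fun d => (Rt17 d ∧ (Q d ∧ Int.gcd d e = E / g)) ∧ G17 d) X : ℝ) -
        c2 * (NS (fun d => Rt17 d ∧ (Q d ∧ Int.gcd d e = E / g)) X : ℝ)| ≤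
          ε / (E * (E.divisors.card + 1)) * X := by
    intro g
    have hL : Lc (m * E) fun d => Q d ∧ Int.gcd d e = E / g :=
      lc_and (lc_of_dvd (Dvd.intro _ rfl) hQ) (lc_gcd' (Dvd.intro_left _ rfl) (E / g))
    exact close_NS (hgl (Dvd.dvd.mul_right h136 _) hm' hL) _ (by positivity)
  choose X₀ hX₀ using h1
  refine ⟨E * ∑ g ∈ E.divisors, X₀ g, fun X hX => ?_⟩
  rw [T_eq he, T_eq he]
  push_cast
  rw [mul_sum, ← sum_sub_distrib]
  refine (abs_sum_le_sum_abs _ _).trans ?_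
  have hb : ∀ g ∈ E.divisors, |(NS (fun f => Int.gcd f e = E / g ∧ (Rt17 f ∧ Q f) ∧ G17 f)
      (E / g * X / g) : ℝ) - c2 * (NS (fun f => Int.gcd f e = E / g ∧ Rt17 f ∧ Q f)
        (E / g * X / g) : ℝ)| ≤ ε / (E.divisors.card + 1) * X := by
    intro g hg
    obtain ⟨hge, -⟩ := Nat.mem_divisors.1 hg
    have hg0 : 0 < g := Nat.pos_of_dvd_of_pos hge he0
    have hEg : 0 < E / g := Nat.div_pos (Nat.le_of_dvd he0 hge) hg0
    have hY0 : X₀ g ≤ E / g * X / g := by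
      rw [Nat.le_div_iff_mul_le hg0]
      have k1 : X₀ g ≤ ∑ g ∈ E.divisors, X₀ g :=
        single_le_sum (f := X₀) (fun _ _ => Nat.zero_le _) hg
      have k2 : X₀ g * g ≤ (∑ g ∈ E.divisors, X₀ g) * E :=
        Nat.mul_le_mul k1 (Nat.le_of_dvd he0 hge)
      have k3 : 1 * X ≤ E / g * X := Nat.mul_le_mul_right X hEg
      calc X₀ g * g ≤ (∑ g ∈ E.divisors, X₀ g) * E := k2
        _ = E * ∑ g ∈ E.divisors, X₀ g := mul_comm _ _
        _ ≤ X := hX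
        _ ≤ E / g * X := by omega
    have hY1 : E / g * X / g ≤ E * X := by
      refine (Nat.div_le_self _ _).trans (Nat.mul_le_mul_right X (Nat.div_le_self _ _))
    have h2 := hX₀ g _ hY0
    have e1 : (fun f => Int.gcd f e = E / g ∧ (Rt17 f ∧ Q f) ∧ G17 f) =
        fun d => (Rt17 d ∧ (Q d ∧ Int.gcd d e = E / g)) ∧ G17 d := by
      funext f
      exact propext ⟨fun h => ⟨⟨h.2.1.1, h.2.1.2, h.1⟩, h.2.2⟩,
        fun h => ⟨h.1.2.2, ⟨h.1.1, h.1.2.1⟩, h.2⟩⟩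
    have e2 : (fun f => Int.gcd f e = E / g ∧ Rt17 f ∧ Q f) =
        fun d => Rt17 d ∧ (Q d ∧ Int.gcd d e = E / g) := by
      funext f
      exact propext ⟨fun h => ⟨h.2.1, h.2.2, h.1⟩, fun h => ⟨h.2.2, h.1, h.2.1⟩⟩
    rw [e1, e2]
    refine h2.trans ?_
    have hY2 : ((E / g * X / g : ℕ) : ℝ) ≤ E * X := by exact_mod_cast hY1
    have hEr : (0 : ℝ) < E := by exact_mod_cast he0
    calc ε / (E * (E.divisors.card + 1)) * ((E / g * X / g : ℕ) : ℝ) ≤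
        ε / (E * (E.divisors.card + 1)) * (E * X) := by gcongr
      _ = ε / (E.divisors.card + 1) * X := by field_simp
  refine (sum_le_sum hb).trans ?_
  rw [sum_const, nsmul_eq_mul]
  have hc : (0 : ℝ) ≤ (E.divisors.card : ℝ) := Nat.cast_nonneg _
  rw [← mul_assoc]
  refine mul_le_mul_of_nonneg_right ?_ (Nat.cast_nonneg _)
  rw [mul_div_assoc', div_le_iff₀ (by positivity)]
  nlinarith

theorem low_TQ (he : Squarefree e) {m : ℕ} (h136 : 136 ∣ m) (hm : 0 < m) {Q : ℤ → Prop}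
    (hQ : Lc m Q) {d₀ : ℤ} (hd : Squarefree d₀) (h1 : Rt17 (tw e d₀)) (h2 : Q (tw e d₀)) :
    ∃ (c : ℝ) (X₀ : ℕ), 0 < c ∧ ∀ X : ℕ, X₀ ≤ X →
      c * X ≤ (T e (fun d => Rt17 d ∧ Q d) X : ℝ) := by
  have he0 : 0 < e.natAbs := Int.natAbs_pos.2 he.ne_zero
  set E : ℕ := e.natAbs with hE
  obtain ⟨g, e', d', hg, h3, h4, h5, h6, h7, h8, h9, h10⟩ := split he hd
  have ht := tw_eq hg h3 h4 h5
  have hgE : g ∣ E := by
    rw [hE, h4, Int.natAbs_mul, Int.natAbs_natCast]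
    exact Dvd.intro _ rfl
  have hea : E / g = e'.natAbs := by
    rw [hE, h4, Int.natAbs_mul, Int.natAbs_natCast, Nat.mul_div_cancel_left _ hg]
  have hgcd : Int.gcd (tw e d₀) e = E / g := by
    rw [ht, h4, hea, mul_comm (g : ℤ) e', Int.gcd_mul_left]
    rw [Int.gcd_comm d' g, h7, mul_one]
  have hL : Lc (m * E) fun f => Int.gcd f e = E / g ∧ Rt17 f ∧ Q f :=
    lc_and (lc_gcd' (Dvd.intro_left _ rfl) (E / g))
      (lc_and (lc_root (Dvd.dvd.mul_right (Dvd.dvd.trans (by norm_num) h136) _))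
        (lc_of_dvd (Dvd.intro _ rfl) hQ))
  obtain ⟨c, X₀, hc, h11⟩ := low_P (Dvd.dvd.mul_right (Dvd.dvd.trans (by norm_num) h136) _)
    (Nat.mul_pos hm he0) hL (tw_sqf he hd) ⟨hgcd, h1, h2⟩
  have hEg : 0 < E / g := Nat.div_pos (Nat.le_of_dvd he0 hgE) hg
  refine ⟨c / (2 * g), 2 * g * (X₀ + 1), by positivity, fun X hX => ?_⟩
  have h12 : X₀ ≤ E / g * X / g := by
    rw [Nat.le_div_iff_mul_le hg]
    have h13 : 1 * X ≤ E / g * X := Nat.mul_le_mul_right X hEg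
    nlinarith
  have h14 := (h11 _ h12).2
  have h15 : NS (fun f => Int.gcd f e = E / g ∧ Rt17 f ∧ Q f) (E / g * X / g) ≤
      T e (fun d => Rt17 d ∧ Q d) X := by
    rw [T_eq he]
    exact single_le_sum (f := fun g => NS (fun f => Int.gcd f e = e.natAbs / g ∧ Rt17 f ∧ Q f)
      (e.natAbs / g * X / g)) (fun _ _ => Nat.zero_le _)
      (Nat.mem_divisors.2 ⟨hgE, by omega⟩)
  have h16 : (NS (fun f => Int.gcd f e = E / g ∧ Rt17 f ∧ Q f) (E / g * X / g) : ℝ) ≤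
      (T e (fun d => Rt17 d ∧ Q d) X : ℝ) := by exact_mod_cast h15
  refine le_trans ?_ (h14.trans h16)
  have h17 : X ≤ 2 * g * (E / g * X / g) := by
    have h18 : X / g ≤ E / g * X / g := Nat.div_le_div_right (by nlinarith)
    have h19 : X < g * (X / g + 1) := by
      have := Nat.lt_mul_div_succ X hg
      exact this
    have h20 : 1 ≤ X / g := by
      rw [Nat.le_div_iff_mul_le hg]
      nlinarith
    nlinarith
  have h21 : (X : ℝ) ≤ 2 * g * ((E / g * X / g : ℕ) : ℝ) := by exact_mod_cast h17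
  have hg' : (0 : ℝ) < g := by exact_mod_cast hg
  calc c / (2 * g) * X ≤ c / (2 * g) * (2 * g * ((E / g * X / g : ℕ) : ℝ)) := by gcongr
    _ = c * ((E / g * X / g : ℕ) : ℝ) := by field_simp

theorem lim_TQ (he : Squarefree e) {m : ℕ} (h136 : 136 ∣ m) (hm : 0 < m) {Q : ℤ → Prop}
    (hQ : Lc m Q) {d₀ : ℤ} (hd : Squarefree d₀) (h1 : Rt17 (tw e d₀)) (h2 : Q (tw e d₀)) :
    Tendsto (fun X : ℕ => (T e (fun d => (Rt17 d ∧ Q d) ∧ G17 d) X : ℝ) /
      (T e (fun d => Rt17 d ∧ Q d) X : ℝ)) atTop (𝓝 c2) := by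
  obtain ⟨c, X₀, hc, h3⟩ := low_TQ he h136 hm hQ hd h1 h2
  exact ratio hc h3 (close_TQ he h136 hm hQ)

/-- classes modulo squares for a twist -/
theorem loc_tw (inf : Prop) (S : Finset ℕ) {d₀ d : ℤ} (he : Squarefree e) (hd₀ : Squarefree d₀)
    (hd : Squarefree d) : Loc inf S (tw e d₀) (tw e d) ↔ Loc inf S d₀ d := by
  obtain ⟨g, e', d', hg, h3, h4, h5, -⟩ := split he hd
  obtain ⟨g₀, e₀', d₀', hg₀, k3, k4, k5, -⟩ := split he hd₀
  have t1 := tw_eq hg h3 h4 h5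
  have t2 := tw_eq hg₀ k3 k4 k5
  have hgz : (g : ℤ) ≠ 0 := by exact_mod_cast hg.ne'
  have hg0z : (g₀ : ℤ) ≠ 0 := by exact_mod_cast hg₀.ne'
  have he0 : e ≠ 0 := he.ne_zero
  -- (g g₀)² tw tw = e² d d₀
  have key : ((g : ℤ) * g₀) ^ 2 * (tw e d * tw e d₀) = e ^ 2 * (d * d₀) := by
    rw [t1, t2, h5, k5]
    linear_combination (-(g : ℤ) * g₀ * d' * d₀') * (e * h4 + (g : ℤ) * e' * k4) + 0
  unfold Loc
  have hA : (0 : ℤ) < ((g : ℤ) * g₀) ^ 2 := by positivity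
  have hB : (0 : ℤ) < e ^ 2 := by positivity
  refine and_congr ?_ ?_
  · refine forall_congr' fun _ => ?_
    rw [← mul_pos_iff_of_pos_left hA, key, mul_pos_iff_of_pos_left hB]
  · refine forall_congr' fun p => forall_congr' fun _ => forall_congr' fun _ => ?_
    have key' : (((g : ℤ) * g₀ : ℤ) : ℚ_[p]) ^ 2 * ((tw e d * tw e d₀ : ℤ) : ℚ_[p]) =
        (e : ℚ_[p]) ^ 2 * ((d * d₀ : ℤ) : ℚ_[p]) := by exact_mod_cast congrArg (Int.cast (R := ℚ_[p])) key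
    have hA' : (((g : ℤ) * g₀ : ℤ) : ℚ_[p]) ≠ 0 := by
      exact_mod_cast mul_ne_zero hgz hg0z
    have hB' : (e : ℚ_[p]) ≠ 0 := by exact_mod_cast he0
    constructor
    · rintro ⟨r, hr⟩
      refine ⟨(((g : ℤ) * g₀ : ℤ) : ℚ_[p]) * r / e, ?_⟩
      field_simp
      linear_combination (-1 : ℚ_[p]) * key' + (((g : ℤ) * g₀ : ℤ) : ℚ_[p]) ^ 2 * hr
    · rintro ⟨r, hr⟩
      refine ⟨(e : ℚ_[p]) * r / (((g : ℤ) * g₀ : ℤ) : ℚ_[p]), ?_⟩
      field_simp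
      linear_combination key' + (e : ℚ_[p]) ^ 2 * hr

variable {P : ℤ → Prop}

/-- **the twists of a twist, in a class given by local conditions** -/
theorem dens_twl (h : Parts) (hP : ∀ d, Squarefree d → d ≠ 1 → (P d ↔ Sys d)) (he : Squarefree e)
    (inf : Prop) (S : Finset ℕ) (hS : ∀ p ∈ S, p.Prime) {d₀ : ℤ} (hd : Squarefree d₀)
    (h1 : Rt (tw e d₀)) :
    Tendsto (fun X : ℕ => (num (fun d => (Rt (tw e d) ∧ Loc inf S d₀ d) ∧ P (tw e d)) X : ℝ) /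
      (num (fun d => Rt (tw e d) ∧ Loc inf S d₀ d) X : ℝ)) atTop (𝓝 c2) := by
  obtain ⟨m, h2, h3, h4⟩ := lc_Loc inf S hS (tw e d₀)
  have h5 : Loc inf S (tw e d₀) (tw e d₀) := by
    refine ⟨fun _ => mul_self_pos.2 (tw_sqf he hd).ne_zero, fun p _ _ => ⟨(tw e d₀ : ℚ_[p]), ?_⟩⟩
    push_cast
    ring
  have e1 : ∀ X, T e (fun d => Rt17 d ∧ Loc inf S (tw e d₀) d) X =
      num (fun d => Rt (tw e d) ∧ Loc inf S d₀ d) X := by
    intro X
    unfold T num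
    congr 1
    ext d
    simp only [mem_filter]
    refine and_congr_right fun _ => and_congr_right fun hds => ?_
    rw [loc_tw inf S he hd hds]
    rfl
  have hlim := lim_TQ he h2 h3 h4 hd h1 h5
  obtain ⟨c, X₀, hc, h6⟩ := low_TQ he h2 h3 h4 hd h1 h5
  simp only [e1] at hlim h6
  refine Pool.Agent.N969.Den.lim_close hlim ?_ ?_ (top_of_low hc h6)
  · intro X
    have : T e (fun d => (Rt17 d ∧ Loc inf S (tw e d₀) d) ∧ G17 d) X =
      NS (fun d => (Rt17 (tw e d) ∧ Loc inf S (tw e d₀) (tw e d)) ∧ G17 (tw e d)) X := rfl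
    rw [this]
    refine close_e (e := e) (fun d hds hde => ?_) X
    rw [loc_tw inf S he hd hds]
    have h7 := crit' h (hP _ (tw_sqf he hds) fun h1 => hde (tw_one he hds h1)) (tw_sqf he hds)
    constructor
    · rintro ⟨a, b⟩
      exact ⟨a, h7.2 ⟨a.1, b⟩⟩
    · rintro ⟨a, b⟩
      exact ⟨a, (h7.1 b).2⟩
  · intro X
    have : T e (fun d => (Rt17 d ∧ Loc inf S (tw e d₀) d) ∧ G17 d) X =
      NS (fun d => (Rt17 (tw e d) ∧ Loc inf S (tw e d₀) (tw e d)) ∧ G17 (tw e d)) X := rfl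
    rw [this]
    refine close_e (e := e) (fun d hds hde => ?_) X
    rw [loc_tw inf S he hd hds]
    have h7 := crit' h (hP _ (tw_sqf he hds) fun h1 => hde (tw_one he hds h1)) (tw_sqf he hds)
    constructor
    · rintro ⟨a, b⟩
      exact ⟨a, (h7.1 b).2⟩
    · rintro ⟨a, b⟩
      exact ⟨a, h7.2 ⟨a.1, b⟩⟩

/-- the classes with a member are infinite -/
theorem top_twl (he : Squarefree e) (inf : Prop) (S : Finset ℕ) (hS : ∀ p ∈ S, p.Prime) {d₀ : ℤ}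
    (hd : Squarefree d₀) (h1 : Rt (tw e d₀)) :
    Tendsto (fun X : ℕ => (num (fun d => Rt (tw e d) ∧ Loc inf S d₀ d) X : ℝ)) atTop atTop := by
  obtain ⟨m, h2, h3, h4⟩ := lc_Loc inf S hS (tw e d₀)
  have h5 : Loc inf S (tw e d₀) (tw e d₀) := by
    refine ⟨fun _ => mul_self_pos.2 (tw_sqf he hd).ne_zero, fun p _ _ => ⟨(tw e d₀ : ℚ_[p]), ?_⟩⟩
    push_cast
    ring
  have e1 : ∀ X, T e (fun d => Rt17 d ∧ Loc inf S (tw e d₀) d) X =
      num (fun d => Rt (tw e d) ∧ Loc inf S d₀ d) X := by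
    intro X
    unfold T num
    congr 1
    ext d
    simp only [mem_filter]
    refine and_congr_right fun _ => and_congr_right fun hds => ?_
    rw [loc_tw inf S he hd hds]
    rfl
  obtain ⟨c, X₀, hc, h6⟩ := low_TQ he h2 h3 h4 hd h1 h5
  simp only [e1] at h6
  exact top_of_low hc h6

end Pool.Agent.H743.X17
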