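import Pool.Agent.H743.X17.Stm
import Pool.Graph.R_pool_sql_team_seeded_63374d34.N971.EX.Fin17
import Pool.Graph.R_pool_sql_team_seeded_63374d34.N871.S17.VanV

/-!
# The central values of all the twists `E_m`
-/

set_option autoImplicit false
set_option linter.all false

open scoped Classical

namespace Pool.Agent.H743.X17

open Pool.Agent.W97.MT (ap)
open Pool.Agent.Y700 (IsL Omega)
open Pool.Agent.N974.Gen (E17)
open Pool.Agent.N972.P17 (Cm Cme Cp Cpe Cr Cre Sc Sx Sr)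
open Pool.Agent.N969.P17G (CpE SxP chP)
open Pool.Agent.N969.P15 (Ev chE)

/-! ### invariants of the minimal equation -/

/-- the discriminant of `ℚ(√m)` -/
def DD (m : ℤ) : ℤ := if m % 4 = 1 then m else 4 * m

theorem Kn_eq (m : ℤ) : Kn m = (DD m).natAbs := by
  unfold Kn DD
  split_ifs
  · rfl
  · rw [Int.natAbs_mul]; rfl

theorem isN {m : ℤ} : IsN (WM m) (DD m) := by
  unfold WM DD
  split_ifs with h
  · obtain ⟨k, hk⟩ : ∃ k, 15 * m + 1 = 4 * k := ⟨(15 * m + 1) / 4, by omega⟩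
    have e : (15 * m + 1) / 4 = k := by omega
    refine ⟨rfl, rfl, ?_, ?_⟩
    · simp only [W1, WeierstrassCurve.b₂, e]
      linarith
    · simp only [W1, WeierstrassCurve.b₄]
      ring
  · refine ⟨rfl, rfl, ?_, ?_⟩
    · simp only [W2, WeierstrassCurve.b₂]
      ring
    · simp only [W2, WeierstrassCurve.b₄]
      ring

section isN

variable {W : WeierstrassCurve ℤ} {N : ℤ}

theorem IsN.b6 (h : IsN W N) : W.b₆ = 0 := by
  simp only [WeierstrassCurve.b₆, h.a3, h.a6]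
  ring

theorem IsN.c4 (h : IsN W N) : W.c₄ = 273 * N ^ 2 := by
  rw [WeierstrassCurve.c₄, h.b2, h.b4]
  ring

theorem IsN.c6 (h : IsN W N) : W.c₆ = 4455 * N ^ 3 := by
  rw [WeierstrassCurve.c₆, h.b2, h.b4, h.b6]
  ring

theorem IsN.Delta (h : IsN W N) : W.Δ = 17 ^ 2 * N ^ 6 := by
  have h1 := W.c_relation
  rw [h.c4, h.c6] at h1
  have h2 : (1728 : ℤ) * W.Δ = 1728 * (17 ^ 2 * N ^ 6) := by
    rw [h1]; ring
  exact mul_left_cancel₀ (by norm_num) h2

end isN

theorem dvd_Delta {m : ℤ} (hm : m ≠ 0) {p : ℕ} (hp : p.Prime) :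
    (p : ℤ) ∣ (WM m).Δ ↔ p ∣ 17 ∨ p ∣ Kn m := by
  have hpp : Prime (p : ℤ) := Nat.prime_iff_prime_int.1 hp
  rw [isN.Delta, Kn_eq, hpp.dvd_mul]
  constructor
  · rintro (h | h)
    · left; exact_mod_cast hpp.dvd_of_dvd_pow h
    · right; exact Int.natCast_dvd.1 (hpp.dvd_of_dvd_pow h)
  · rintro (h | h)
    · left; exact dvd_pow (by exact_mod_cast h) (by norm_num)
    · right; exact dvd_pow (Int.natCast_dvd.2 h) (by norm_num)

theorem c4_WM (m : ℤ) : (WM m).c₄ = 273 * ((Kn m : ℕ) : ℤ) ^ 2 := by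
  rw [isN.c4, Kn_eq, Int.natAbs_sq]

theorem DD_pos {m : ℤ} (h : 0 < m) : DD m = Kn m := by
  rw [Kn_eq]
  unfold DD
  split_ifs <;> omega

theorem DD_neg {m : ℤ} (h : m < 0) : DD m = -((Kn m : ℕ) : ℤ) := by
  rw [Kn_eq]
  unfold DD
  split_ifs <;> omega

theorem c6_pos {m : ℤ} (h : 0 < m) : (WM m).c₆ = 4455 * ((Kn m : ℕ) : ℤ) ^ 3 := by
  rw [isN.c6, DD_pos h]

theorem c6_neg {m : ℤ} (h : m < 0) : (WM m).c₆ = -(4455 * ((Kn m : ℕ) : ℤ) ^ 3) := by
  rw [isN.c6, DD_neg h]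
  ring

/-! ### the characters -/

theorem jac_two {n : ℕ} (hn : n % 2 = 1) :
    jacobiSym 2 n = if n % 8 = 1 ∨ n % 8 = 7 then 1 else -1 := by
  rw [jacobiSym.at_two (Nat.odd_iff.2 hn), ZMod.χ₈_nat_eq_if_mod_eight, if_neg (by omega)]

/-- negative odd discriminants -/
theorem ch_nO {m : ℤ} (h : m < 0) (h4 : m % 4 = 1) {p : ℕ} (hp : p.Prime) :
    (if p = 2 then (if m % 8 = 1 then 1 else if m % 8 = 5 then -1 else 0) else jacobiSym m p) =
      jacobiSym p (Kn m) := by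
  obtain ⟨n, hn⟩ : ∃ n : ℕ, n = Kn m := ⟨_, rfl⟩
  have hmn : m = -(n : ℤ) := by
    rw [hn, ← DD_neg h]
    unfold DD
    rw [if_pos h4]
  rw [← hn]
  have hn4 : n % 4 = 3 := by omega
  by_cases hp2 : p = 2
  · rw [if_pos hp2, hp2]
    have := jac_two (n := n) (by omega)
    push_cast
    rw [this]
    by_cases h8 : n % 8 = 7
    · rw [if_pos (by omega), if_pos (Or.inr h8)]
    · rw [if_neg (by omega), if_pos (by omega), if_neg (by omega)]
  · rw [if_neg hp2]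
    have hpo : Odd p := hp.odd_of_ne_two hp2
    rw [hmn, jacobiSym.neg _ hpo]
    rcases Nat.odd_mod_four_iff.1 (Nat.odd_iff.1 hpo) with h1 | h1
    · rw [ZMod.χ₄_nat_one_mod_four h1, one_mul]
      exact (jacobiSym.quadratic_reciprocity_one_mod_four h1 (Nat.odd_iff.2 (by omega))).symm
    · rw [ZMod.χ₄_nat_three_mod_four h1, jacobiSym.quadratic_reciprocity_three_mod_four h1 hn4]
      ring

/-- positive odd discriminants -/
theorem ch_pO {m : ℤ} (h : 0 < m) (h4 : m % 4 = 1) {p : ℕ} (hp : p.Prime) :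
    (if p = 2 then (if m % 8 = 1 then 1 else if m % 8 = 5 then -1 else 0) else jacobiSym m p) =
      jacobiSym p (Kn m) := by
  obtain ⟨n, hn⟩ : ∃ n : ℕ, n = Kn m := ⟨_, rfl⟩
  have hmn : m = (n : ℤ) := by
    rw [hn, ← DD_pos h]
    unfold DD
    rw [if_pos h4]
  rw [← hn]
  have hn4 : n % 4 = 1 := by omega
  by_cases hp2 : p = 2
  · rw [if_pos hp2, hp2]
    have := jac_two (n := n) (by omega)
    push_cast
    rw [this]
    by_cases h8 : n % 8 = 1
    · rw [if_pos (by omega), if_pos (Or.inl h8)]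
    · rw [if_neg (by omega), if_pos (by omega), if_neg (by omega)]
  · rw [if_neg hp2]
    have hpo : Odd p := hp.odd_of_ne_two hp2
    rw [hmn]
    exact jacobiSym.quadratic_reciprocity_one_mod_four hn4 hpo

theorem Kn_even {m : ℤ} (h4 : m % 4 ≠ 1) : Kn m = 4 * m.natAbs := if_neg h4

/-- negative even discriminants -/
theorem ev_neg {m : ℤ} (hs : Squarefree m) (h : m < 0) (h4 : m % 4 ≠ 1) : Ev (Kn m) := by
  refine ⟨m.natAbs, Kn_even h4, Int.squarefree_natAbs.2 hs, ?_⟩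
  have h5 : m % 4 ≠ 0 := by
    intro h0
    have h6 : (2 : ℤ) * 2 ∣ m := by omega
    have := hs 2 h6
    rw [Int.isUnit_iff] at this
    omega
  omega

theorem ch_nE {m : ℤ} (hs : Squarefree m) (h : m < 0) (h4 : m % 4 ≠ 1) {p : ℕ} (hp : p.Prime) :
    (if p = 2 then (if m % 8 = 1 then 1 else if m % 8 = 5 then -1 else 0) else jacobiSym m p) =
      chE (Kn m) p := by
  by_cases hp2 : p = 2
  · rw [if_pos hp2, hp2, if_neg (by omega), if_neg (by omega)]
    unfold Pool.Agent.N969.P15.chE Pool.Agent.N969.P15.c2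
    rw [if_pos (by norm_num), zero_mul]
  · rw [if_neg hp2, Pool.Agent.N975.ChE.chE_prime (ev_neg hs h h4) hp hp2, Kn_even h4]
    congr 1
    omega

/-- positive even discriminants -/
theorem ev_pos' {m : ℤ} (hs : Squarefree m) (h : 0 < m) (h4 : m % 4 ≠ 1) :
    Pool.Agent.N974.Gen.ChP.Ev (Kn m) := by
  refine ⟨m.natAbs, Kn_even h4, Int.squarefree_natAbs.2 hs, ?_⟩
  have h5 : m % 4 ≠ 0 := by
    intro h0
    have h6 : (2 : ℤ) * 2 ∣ m := by omega
    have := hs 2 h6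
    rw [Int.isUnit_iff] at this
    omega
  omega

theorem ch_pE {m : ℤ} (hs : Squarefree m) (h : 0 < m) (h4 : m % 4 ≠ 1) {p : ℕ} (hp : p.Prime) :
    (if p = 2 then (if m % 8 = 1 then 1 else if m % 8 = 5 then -1 else 0) else jacobiSym m p) =
      Pool.Agent.N974.Gen.ChP.chE (Kn m) p := by
  by_cases hp2 : p = 2
  · rw [if_pos hp2, hp2, if_neg (by omega), if_neg (by omega)]
    unfold Pool.Agent.N974.Gen.ChP.chE Pool.Agent.N974.Gen.ChP.c2
    rw [if_pos (by norm_num), zero_mul]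
  · rw [if_neg hp2, Pool.Agent.N974.Gen.ChP.chE_prime (ev_pos' hs h h4) hp hp2, Kn_even h4]
    congr 1
    omega

/-! ### the values -/

theorem jac17_natAbs {m : ℤ} : jacobiSym (m.natAbs : ℤ) 17 = jacobiSym m 17 := by
  rcases Int.natAbs_eq m with h | h
  · rw [← h]
  · conv_rhs => rw [h]
    rw [jacobiSym.neg _ (by decide)]
    have : ZMod.χ₄ ((17 : ℕ) : ZMod 4) = 1 := by decide
    rw [this, one_mul]

theorem jac17_Kn {m : ℤ} : jacobiSym (Kn m : ℤ) 17 = jacobiSym m 17 := by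
  unfold Kn
  split_ifs
  · exact jac17_natAbs
  · push_cast
    rw [jacobiSym.mul_left]
    have e : jacobiSym 4 17 = 1 := by
      have : (4 : ℤ) = 2 ^ 2 := by norm_num
      rw [this]
      exact jacobiSym.sq_one' (by decide)
    rw [e, one_mul]
    have := jac17_natAbs (m := m)
    push_cast at this
    exact this

theorem dvd17_Kn {m : ℤ} : 17 ∣ Kn m ↔ (17 : ℤ) ∣ m := by
  unfold Kn
  split_ifs <;> omega

theorem jac17_zero {m : ℤ} : jacobiSym m 17 = 0 ↔ (17 : ℤ) ∣ m := by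
  have hp : Nat.Prime 17 := by norm_num
  rw [jacobiSym.eq_zero_iff_not_coprime]
  have h1 := Int.isCoprime_iff_gcd_eq_one (m := m) (n := 17)
  have h2 := Prime.coprime_iff_not_dvd (Nat.prime_iff_prime_int.1 hp) (n := m)
  push_cast at h2
  have h3 : m.gcd ((17 : ℕ) : ℤ) = m.gcd 17 := rfl
  rw [h3, Ne, ← h1, isCoprime_comm, h2, not_not]

theorem jac17_cases {m : ℤ} (h : jacobiSym m 17 ≠ 1) : jacobiSym m 17 = -1 ∨ (17 : ℤ) ∣ m := by
  by_cases h0 : (17 : ℤ) ∣ m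
  · exact Or.inr h0
  · have h1 : jacobiSym m 17 ≠ 0 := fun h' => h0 (jac17_zero.1 h')
    rcases jacobiSym.trichotomy m 17 with h2 | h2 | h2
    · exact absurd h2 h1
    · exact absurd h2 h
    · exact Or.inl h2

/-- the factor in front of `Ω` -/
noncomputable def cst (m : ℤ) : ℝ := 4 ^ (Kn m).primeFactors.card / (if (17 : ℤ) ∣ m then 16 else 8)

theorem form_a {m : ℤ} (h17 : ¬ (17 : ℤ) ∣ m) {P : Prop} {W : WeierstrassCurve ℤ}
    (h : 0 < Omega W ∧ ∃ (f : ℂ → ℂ) (y : ℤ), IsL W f ∧ (Odd y ↔ P) ∧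
      8 * f 1 = (((2 ^ (Kn m).primeFactors.card * y) ^ 2 : ℤ) : ℂ) * ((Omega W : ℝ) : ℂ)) :
    0 < Omega W ∧ ∃ (f : ℂ → ℂ) (y : ℤ), IsL W f ∧ (Odd y ↔ P) ∧
      f 1 = (((y : ℝ) ^ 2 * cst m * Omega W : ℝ) : ℂ) := by
  obtain ⟨h1, f, y, hf, hy, hv⟩ := h
  refine ⟨h1, f, y, hf, hy, ?_⟩
  unfold cst
  rw [if_neg h17]
  have e : ((4 : ℂ) ^ (Kn m).primeFactors.card) = (2 ^ (Kn m).primeFactors.card) ^ 2 := by
    rw [← pow_mul, mul_comm, pow_mul]
    norm_num
  push_cast at hv ⊢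
  rw [e]
  linear_combination hv / 8

theorem form_b {m : ℤ} (hm : m ≠ 0) (h17 : (17 : ℤ) ∣ m) {P : Prop} {W : WeierstrassCurve ℤ}
    (h : 0 < Omega W ∧ ∃ (f : ℂ → ℂ) (y : ℤ), IsL W f ∧ (Odd y ↔ P) ∧
      8 * f 1 = ((2 * (2 ^ ((Kn m).primeFactors.card - 1) * y) ^ 2 : ℤ) : ℂ) *
        ((Omega W : ℝ) : ℂ)) :
    0 < Omega W ∧ ∃ (f : ℂ → ℂ) (y : ℤ), IsL W f ∧ (Odd y ↔ P) ∧
      f 1 = (((y : ℝ) ^ 2 * cst m * Omega W : ℝ) : ℂ) := by
  obtain ⟨h1, f, y, hf, hy, hv⟩ := h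
  refine ⟨h1, f, y, hf, hy, ?_⟩
  have hK : Kn m ≠ 0 := by
    unfold Kn
    split_ifs <;> omega
  obtain ⟨k, hk⟩ : ∃ k, (Kn m).primeFactors.card = k + 1 := by
    refine ⟨(Kn m).primeFactors.card - 1, ?_⟩
    have : 0 < (Kn m).primeFactors.card := Finset.card_pos.2 ⟨17, Nat.mem_primeFactors.2
      ⟨by norm_num, dvd17_Kn.2 h17, hK⟩⟩
    omega
  unfold cst
  rw [if_pos h17]
  rw [hk] at hv ⊢
  rw [Nat.add_sub_cancel] at hv
  have e : ((4 : ℂ) ^ (k + 1)) = 4 * (2 ^ k) ^ 2 := by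
    rw [pow_succ, ← pow_mul, mul_comm k 2, pow_mul]
    norm_num
    ring
  push_cast at hv ⊢
  rw [e]
  linear_combination hv / 8

theorem form_0 {m : ℤ} {P : Prop} (hP : ¬ P) {W : WeierstrassCurve ℤ}
    (h : 0 < Omega W ∧ ∃ f : ℂ → ℂ, IsL W f ∧ f 1 = 0) :
    0 < Omega W ∧ ∃ (f : ℂ → ℂ) (y : ℤ), IsL W f ∧ (Odd y ↔ P) ∧ (¬ Rt m → y = 0) ∧
      f 1 = (((y : ℝ) ^ 2 * cst m * Omega W : ℝ) : ℂ) := by
  obtain ⟨h1, f, hf, hv⟩ := h
  refine ⟨h1, f, 0, hf, ?_, fun _ => rfl, ?_⟩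
  · exact ⟨fun h => absurd h (by decide), fun h => absurd h hP⟩
  · rw [hv]; push_cast; ring

theorem form_R {m : ℤ} (hR : Rt m) {P : Prop} {W : WeierstrassCurve ℤ}
    (h : 0 < Omega W ∧ ∃ (f : ℂ → ℂ) (y : ℤ), IsL W f ∧ (Odd y ↔ P) ∧
      f 1 = (((y : ℝ) ^ 2 * cst m * Omega W : ℝ) : ℂ)) :
    0 < Omega W ∧ ∃ (f : ℂ → ℂ) (y : ℤ), IsL W f ∧ (Odd y ↔ P) ∧ (¬ Rt m → y = 0) ∧
      f 1 = (((y : ℝ) ^ 2 * cst m * Omega W : ℝ) : ℂ) := by
  obtain ⟨h1, f, y, hf, hy, hv⟩ := h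
  exact ⟨h1, f, y, hf, hy, fun h => absurd hR h, hv⟩

theorem rt_pos_iff {m : ℤ} (h : 0 < m) : Rt m ↔ jacobiSym m 17 = 1 := by
  unfold Rt
  constructor
  · rintro (h1 | h1)
    · exact h1.2
    · omega
  · exact fun h1 => Or.inl ⟨h, h1⟩

theorem rt_neg_iff {m : ℤ} (h : m < 0) : Rt m ↔ jacobiSym m 17 ≠ 1 := by
  unfold Rt
  constructor
  · rintro (h1 | h1)
    · omega
    · exact h1.2
  · exact fun h1 => Or.inr ⟨h, h1⟩

/-- **the central value of every twist** -/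
theorem lval (hAP : S_AP) {m : ℤ} (hs : Squarefree m) (h1 : m ≠ 1) :
    0 < Omega (WM m) ∧ ∃ (f : ℂ → ℂ) (y : ℤ), IsL (WM m) f ∧
      (Odd y ↔ (Rt m ∧ Pool.Agent.N916.MO.G17 m)) ∧ (¬ Rt m → y = 0) ∧
      f 1 = (((y : ℝ) ^ 2 * cst m * Omega (WM m) : ℝ) : ℂ) := by
  have hm0 := hs.ne_zero
  have hap : ∀ p : ℕ, p.Prime → ap (WM m) p = ap E17 p *
    (if p = 2 then (if m % 8 = 1 then 1 else if m % 8 = 5 then -1 else 0) else jacobiSym m p) :=
    fun p hp => hAP m hs p hp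
  have hΔ : ∀ p : ℕ, p.Prime → ((p : ℤ) ∣ (WM m).Δ ↔ p ∣ 17 ∨ p ∣ Kn m) :=
    fun p hp => dvd_Delta hm0 hp
  have hc4 := c4_WM m
  have hsn : Squarefree m.natAbs := Int.squarefree_natAbs.2 hs
  rcases lt_or_gt_of_ne hm0 with hneg | hpos
  · -- negative
    have hc6 := c6_neg hneg
    have hG : Pool.Agent.N916.MO.G17 m ↔ Pool.Agent.N916.MO.C17 (Kn m) := by
      unfold Pool.Agent.N916.MO.G17
      exact ⟨fun h => h.1 hneg, fun h => ⟨fun _ => h, fun h' => absurd h' (by omega)⟩⟩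
    have hu : ¬ (17 : ℤ) ∣ m → (Pool.Agent.N916.MO.G17 m ↔ Sx (Kn m)) := by
      intro h
      rw [hG]
      have h' : ¬ 17 ∣ Kn m := fun h2 => h (dvd17_Kn.1 h2)
      exact ⟨fun h2 => h2.1 h', fun h2 => ⟨fun _ => h2, fun h3 => absurd h3 h'⟩⟩
    have hw : (17 : ℤ) ∣ m → (Pool.Agent.N916.MO.G17 m ↔ Sr (Kn m)) := by
      intro h
      rw [hG]
      have h' : 17 ∣ Kn m := dvd17_Kn.2 h
      exact ⟨fun h2 => h2.2 h', fun h2 => ⟨fun h3 => absurd h' h3, fun _ => h2⟩⟩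
    by_cases h17 : jacobiSym m 17 = 1
    · -- root number -1
      have hR : ¬ (Rt m ∧ Pool.Agent.N916.MO.G17 m) := fun h => (rt_neg_iff hneg).1 h.1 h17
      apply form_0 hR
      by_cases h4 : m % 4 = 1
      · have ha : ∀ p : ℕ, p.Prime → ap (WM m) p = ap E17 p * jacobiSym p (Kn m) := by
          intro p hp
          rw [hap p hp, ch_nO hneg h4 hp]
        have hK : Kn m = m.natAbs := if_pos h4
        refine Pool.Agent.N871.S17.vanish_nO (by rw [hK]; exact hsn) (WM m) hc4 ha hΔ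
          (by rw [hK]; omega) (by rw [jac17_Kn]; exact h17) hc6
      · have ha : ∀ p : ℕ, p.Prime → ap (WM m) p = ap E17 p * chE (Kn m) p := by
          intro p hp
          rw [hap p hp, ch_nE hs hneg h4 hp]
        refine Pool.Agent.N871.S17.vanish_nE (ev_neg hs hneg h4) (WM m) hc4 hc6 ha hΔ ?_
        have : Kn m / 4 = m.natAbs := by rw [Kn_even h4]; omega
        rw [this, jac17_natAbs]
        exact h17
    · have hR : Rt m := (rt_neg_iff hneg).2 h17
      have hRG : (Rt m ∧ Pool.Agent.N916.MO.G17 m) ↔ Pool.Agent.N916.MO.G17 m :=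
        ⟨fun h => h.2, fun h => ⟨hR, h⟩⟩
      rw [hRG]
      rcases jac17_cases h17 with hj | hd
      · have hnd : ¬ (17 : ℤ) ∣ m := by
          intro h
          rw [jac17_zero.2 h] at hj
          norm_num at hj
        rw [hu hnd]
        apply form_R hR
        apply form_a hnd
        by_cases h4 : m % 4 = 1
        · have ha : ∀ p : ℕ, p.Prime → ap (WM m) p = ap E17 p * jacobiSym p (Kn m) := by
            intro p hp
            rw [hap p hp, ch_nO hneg h4 hp]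
          have hK : Kn m = m.natAbs := if_pos h4
          have hC : Cm (Kn m) := ⟨by rw [hK]; exact hsn, by rw [hK]; omega, by rw [jac17_Kn]; exact hj⟩
          have h := Pool.Agent.N971.EX.fin_Cm (WM m) hC hc4 hc6 ha hΔ
          rw [← Pool.Agent.N816.P17.Crit.t_SxSc _ hC] at h
          exact h
        · have ha : ∀ p : ℕ, p.Prime → ap (WM m) p = ap E17 p * chE (Kn m) p := by
            intro p hp
            rw [hap p hp, ch_nE hs hneg h4 hp]
          have hC : Cme (Kn m) := ⟨ev_neg hs hneg h4, by rw [jac17_Kn]; exact hj⟩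
          exact Pool.Agent.N971.EX.fin_Cme (WM m) hC hc4 hc6 ha hΔ
      · rw [hw hd]
        apply form_R hR
        apply form_b hm0 hd
        by_cases h4 : m % 4 = 1
        · have ha : ∀ p : ℕ, p.Prime → ap (WM m) p = ap E17 p * jacobiSym p (Kn m) := by
            intro p hp
            rw [hap p hp, ch_nO hneg h4 hp]
          have hK : Kn m = m.natAbs := if_pos h4
          have hC : Cr (Kn m) := ⟨by rw [hK]; exact hsn, by rw [hK]; omega, dvd17_Kn.2 hd⟩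
          exact Pool.Agent.N971.EX.fin_Cr (WM m) hC hc4 hc6 ha hΔ
        · have ha : ∀ p : ℕ, p.Prime → ap (WM m) p = ap E17 p * chE (Kn m) p := by
            intro p hp
            rw [hap p hp, ch_nE hs hneg h4 hp]
          have hC : Cre (Kn m) := ⟨ev_neg hs hneg h4, dvd17_Kn.2 hd⟩
          exact Pool.Agent.N971.EX.fin_Cre (WM m) hC hc4 hc6 ha hΔ
  · -- positive
    have hc6 := c6_pos hpos
    have hG : Pool.Agent.N916.MO.G17 m ↔ SxP (Kn m) := by
      unfold Pool.Agent.N916.MO.G17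
      exact ⟨fun h => h.2 hpos, fun h => ⟨fun h' => absurd h' (by omega), fun _ => h⟩⟩
    have hK1 : 1 < Kn m := by
      unfold Kn
      split_ifs <;> omega
    by_cases h17 : jacobiSym m 17 = 1
    · have hR : Rt m := (rt_pos_iff hpos).2 h17
      have hRG : (Rt m ∧ Pool.Agent.N916.MO.G17 m) ↔ Pool.Agent.N916.MO.G17 m :=
        ⟨fun h => h.2, fun h => ⟨hR, h⟩⟩
      have hnd : ¬ (17 : ℤ) ∣ m := by
        intro h
        rw [jac17_zero.2 h] at h17
        norm_num at h17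
      rw [hRG, hG]
      apply form_R hR
      apply form_a hnd
      by_cases h4 : m % 4 = 1
      · have ha : ∀ p : ℕ, p.Prime → ap (WM m) p = ap E17 p * jacobiSym p (Kn m) := by
          intro p hp
          rw [hap p hp, ch_pO hpos h4 hp]
        have hK : Kn m = m.natAbs := if_pos h4
        have hC : Cp (Kn m) := ⟨by rw [hK]; exact hsn, by rw [hK]; omega, by rw [jac17_Kn]; exact h17⟩
        have h := Pool.Agent.N971.EX.fin_Cp (WM m) hC hK1 hc4 hc6 ha hΔ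
        rw [← Pool.Agent.N816.P17.Crit.t_SxP _ hC] at h
        exact h
      · have ha : ∀ p : ℕ, p.Prime → ap (WM m) p = ap E17 p * chP (Kn m) p := by
          intro p hp
          rw [hap p hp, ch_pE hs hpos h4 hp, Pool.Agent.N974.PG.chP_eq (ev_pos' hs hpos h4)]
        have hC : CpE (Kn m) := by
          refine ⟨m.natAbs, Kn_even h4, hsn, ?_, by rw [jac17_natAbs]; exact h17⟩
          obtain ⟨M, hM, -, hM4⟩ := ev_pos' hs hpos h4
          rw [Kn_even h4] at hM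
          omega
        exact Pool.Agent.N971.EX.fin_CpE (WM m) hC hc4 hc6 ha hΔ
    · have hR : ¬ (Rt m ∧ Pool.Agent.N916.MO.G17 m) := fun h => h17 ((rt_pos_iff hpos).1 h.1)
      apply form_0 hR
      by_cases h4 : m % 4 = 1
      · have ha : ∀ p : ℕ, p.Prime → ap (WM m) p = ap E17 p * jacobiSym p (Kn m) := by
          intro p hp
          rw [hap p hp, ch_pO hpos h4 hp]
        have hK : Kn m = m.natAbs := if_pos h4
        refine Pool.Agent.N871.S17.vanish_pO (by rw [hK]; exact hsn) (WM m) hc4 ha hΔ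
          (by rw [hK]; omega) hK1 (by rw [jac17_Kn]; exact h17) hc6
      · have ha : ∀ p : ℕ, p.Prime → ap (WM m) p = ap E17 p *
            Pool.Agent.N974.Gen.ChP.chE (Kn m) p := by
          intro p hp
          rw [hap p hp, ch_pE hs hpos h4 hp]
        refine Pool.Agent.N871.S17.vanish_pE (ev_pos' hs hpos h4) (WM m) hc4 hc6 ha hΔ ?_
        have : Kn m / 4 = m.natAbs := by rw [Kn_even h4]; omega
        rw [this, jac17_natAbs]
        exact h17

end Pool.Agent.H743.X17
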